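import Pool.Agent.Helper57.SN.Defs
import Pool.Agent.Helper56.SS.Base

/-! # Project OS (MP_9a0a6c_an): `M(N) ≤ C √N / log log N` for all complex polynomials. Definitions.

Signed sine polynomials `f(x) = Σ_{ω ∈ Ω} b ω sin (2π ω x / 2^K)` on the grid `Z / 2^K`
(notation `co`, `si`, `SS`, `dd`, `th`, `Spn`, `stm` of `Helper57.SN.Defs`), abstract filtered
spaces `Fil`, `Dat`, `Hyp` of `Helper56.SS.Fil`. -/

set_option autoImplicit false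

open Finset

namespace Pool.Agent.Helper56.OS

open Pool.Agent.Helper57.SN (co si SS dd th Spn stm av BC blk Lv)
open Pool.Agent.Helper56.SS (Fil Dat Hyp E)

noncomputable section

/-! ## the abstract tilt -/

/-- hypotheses on the data of the (signed) tilt; the field `eta` of `Dat` is not used -/
structure HypS {Ω : Type} [Fintype Ω] (d : Dat Ω) : Prop where
  lam_ge : 1 ≤ d.lam
  kap_pos : 0 < d.kap
  lk : d.lam * d.kap ≤ 1 / 4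
  f_le : ∀ w, |d.f w| ≤ 1
  D_meas : ∀ j, d.F.Meas (j + 1) (d.D j)
  D_zero : ∀ j w, d.F.C j (d.D j) w = 0
  D_le : ∀ j w, |d.D j w| ≤ d.B0
  th01 : ∀ j w, d.th j w = 0 ∨ d.th j w = 1
  th_meas : ∀ j, d.F.Meas j (d.th j)
  th_le : ∀ j w, d.th j w = 1 → |d.D j w| ≤ d.kap

open Classical in
/-- the stopped data: the tilt is switched off as soon as the quadratic variation
`Σ_{i < j, i ∈ G} th_i sg_i` exceeds `h`.  (`f = 0` and `eta = B0 ^ 2` make `Hyp` true, the fields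
`f`, `eta` are not used.) -/
def stp {Ω : Type} [Fintype Ω] (d : Dat Ω) (h : ℝ) : Dat Ω where
  F := d.F
  f := fun _ => 0
  D := d.D
  th := fun j w => if ∑ i ∈ d.G.filter (fun i => i < j), d.th i w * d.sg i w ≤ h then d.th j w else 0
  G := d.G
  lam := d.lam
  kap := d.kap
  eta := d.B0 ^ 2
  B0 := d.B0

/-- increment of the martingale `C_n g` -/
def dM {Ω : Type} [Fintype Ω] (F : Fil Ω) (g : Ω → ℝ) (n : ℕ) (w : Ω) : ℝ :=
  F.C (n + 1) g w - F.C n g w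

/-- the cut at distance `d` below `l`: a multiple of `d`, `l - cc d l ∈ [d, 2d)` for `d ≤ l`,
and `cc d l = 0` for `l < 2 d` -/
def cc (d l : ℕ) : ℕ := d * (l / d - 1)

/-- the cuts of the chain of level `l`: `l`, then the cuts at distances `D, 2D, 4D, …` -/
def cut (D k l : ℕ) : ℕ := if k = 0 then l else cc (D * 2 ^ (k - 1)) l

/-- thresholds, increments of the conditional averages of `D_l^2` and `f D_l` -/
structure CutsS {Ω : Type} [Fintype Ω] (d : Dat Ω) (D K : ℕ) (t : ℕ → ℝ) (e : ℕ → ℕ → ℝ) (tau : ℝ)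
    (M : ℕ → ℝ) : Prop where
  D1 : 1 ≤ D
  Kpos : 1 ≤ K
  top : ∀ l ∈ d.G, l < 2 * (D * 2 ^ (K - 1))
  t0 : t 0 = d.kap
  tpos : ∀ k < K, 0 < t k
  e_nonneg : ∀ l j, 0 ≤ e l j
  tau_nonneg : 0 ≤ tau
  del : ∀ l ∈ d.G, ∀ j ∈ d.G, j < cut D 1 l → ∀ w,
    |d.F.C (j + 1) (fun v => d.D l v ^ 2) w - d.F.C j (fun v => d.D l v ^ 2) w| ≤ e l j + tau ∧
    |d.F.C (j + 1) (fun v => d.f v * d.D l v) w - d.F.C j (fun v => d.f v * d.D l v) w| ≤ e l j + tau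
  M_nonneg : ∀ k, 0 ≤ M k
  Mb : ∀ k, 1 ≤ k → k < K → ∀ j ∈ d.G,
    (∑ l ∈ d.G.filter (fun l => cut D (k + 1) l ≤ j ∧ j < cut D k l), e l j) ≤ M k

/-! ## bump laws -/

def tri (x : ℝ) : ℝ := max (1 - |x|) 0

/-- the bump: `2y - 1` on `[1/2, 1]`, `2 - y` on `[1, 2]`, `0` elsewhere -/
def phi (y : ℝ) : ℝ := max 0 (min (2 * y - 1) (2 - y))

/-- real part of the transform of the bump law of scale `2^a` -/
def PP (a : ℕ) (h : ℤ) : ℝ := tri (2 * h / 2 ^ a)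

/-- imaginary part of the transform of the bump law of scale `2^a` -/
def QQ (a : ℕ) (h : ℤ) : ℝ := (phi (h / 2 ^ a) - phi (-(h / 2 ^ a))) / 3

/-- the global signed sine polynomial -/
structure GS (K : ℕ) (b : ℕ → ℝ) (Ω : Finset ℕ) : Prop where
  pos : ∀ ω ∈ Ω, 1 ≤ ω
  small : ∀ ω ∈ Ω, 64 * ω ≤ 2 ^ K
  bdd : ∀ x : ℤ, |∑ ω ∈ Ω, b ω * si K ω x| ≤ 1

/-- smooth signed mass of the octave of exponent `a` -/
def Ph (b : ℕ → ℝ) (Ω : Finset ℕ) (a : ℕ) : ℝ := ∑ ω ∈ Ω, b ω * phi (ω / 2 ^ a)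

/-- total mass near the octave -/
def Bm (b : ℕ → ℝ) (Ω : Finset ℕ) (a : ℕ) : ℝ :=
  ∑ ω ∈ Ω with (2 ^ a ≤ 4 * ω ∧ ω ≤ 2 ^ (a + 2)), |b ω|

/-- the (open) octave `(2^(a-1), 2^(a+1))` -/
def Oct (Ω : Finset ℕ) (a : ℕ) : Finset ℕ := Ω.filter (fun ω => 2 ^ a < 2 * ω ∧ ω < 2 ^ (a + 1))

/-- mass of a set of frequencies -/
def ms (b : ℕ → ℝ) (S : Finset ℕ) : ℝ := ∑ ω ∈ S, |b ω|

/-! ## dyadic intervals -/

/-- label of the interval of length `2^e`, shift `y0` -/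
def lb (e y0 ω : ℕ) : ℕ := (ω + y0) / 2 ^ e

/-- signed mass of an interval -/
def bI (b : ℕ → ℝ) (Ω : Finset ℕ) (e y0 t : ℕ) : ℝ := ∑ ω ∈ Ω with lb e y0 ω = t, b ω

/-- total mass of an interval -/
def aI (b : ℕ → ℝ) (Ω : Finset ℕ) (e y0 t : ℕ) : ℝ := ∑ ω ∈ Ω with lb e y0 ω = t, |b ω|

/-- a family of `T` levels (octaves of exponents `al 0 < al 1 < …`, separation `4H`) whose smooth
signed masses lie in `(μ, 2μ]` -/
structure FamS (K H T : ℕ) (b : ℕ → ℝ) (Ω : Finset ℕ) (al : ℕ → ℕ) (q μ : ℝ) : Prop where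
  sep : ∀ i j, i < j → j < T → al i + 4 * H ≤ al j
  lo : ∀ i < T, 2 * H + 8 ≤ al i
  hiK : ∀ i < T, al i + 2 * H + 20 ≤ K
  mu0 : 0 < μ
  Plo : ∀ i < T, μ < Ph b Ω (al i)
  Phi : ∀ i < T, Ph b Ω (al i) ≤ 2 * μ
  good : ∀ i < T, Bm b Ω (al i) ≤ 4 * q * Ph b Ω (al i)
  q1 : 1 ≤ q

open Classical in
/-- labels (intervals of length `2^(al c)`, `c = cc (2^i) l`) that meet the octave of level `l` and
have an adjacent or equal interval of mass larger than `Q/(2^i μ)` -/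
def Lb (b : ℕ → ℝ) (Ω : Finset ℕ) (al : ℕ → ℕ) (Q μ : ℝ) (y0 i l : ℕ) : Finset ℕ :=
  ((Oct Ω (al l)).image (lb (al (cc (2 ^ i) l)) y0)).filter (fun t =>
    ∃ t', (t ≤ t' + 1 ∧ t' ≤ t + 1) ∧ Q / (2 ^ i * μ) < aI b Ω (al (cc (2 ^ i) l)) y0 t')

/-- sum of the absolute signed masses of these intervals -/
def cs (b : ℕ → ℝ) (Ω : Finset ℕ) (al : ℕ → ℕ) (Q μ : ℝ) (y0 i l : ℕ) : ℝ :=
  ∑ t ∈ Lb b Ω al Q μ y0 i l, |bI b Ω (al (cc (2 ^ i) l)) y0 t|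

open Classical in
/-- frequencies in these intervals for some scale `i ≥ i0`, `i < I` with `2 * 2^i ≤ l` -/
def NS (b : ℕ → ℝ) (Ω : Finset ℕ) (al : ℕ → ℕ) (Q μ : ℝ) (y0 I l i0 : ℕ) : Finset ℕ :=
  Ω.filter (fun ω => ∃ i, i0 ≤ i ∧ i < I ∧ 2 * 2 ^ i ≤ l ∧
    lb (al (cc (2 ^ i) l)) y0 ω ∈ Lb b Ω al Q μ y0 i l)

/-- masses of the pairs (`ξ` in `S`, `ω` in `Ω`) with difference in `(2^(a1-2H), 2^a2]` -/
def pmS (b : ℕ → ℝ) (S Ω : Finset ℕ) (A' A : ℕ) : ℝ :=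
  ∑ ξ ∈ S, ∑ ω ∈ Ω, if |(ω : ℤ) - ξ| ≤ A ∧ (A' : ℤ) < |(ω : ℤ) - ξ| then |b ξ| * |b ω| else 0

end

end Pool.Agent.Helper56.OS
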