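import Pool.Agent.Helper56.OS.StC

/-! Module BHR of project OS: concentration on the Bohr set. -/

set_option autoImplicit false

open Finset

namespace Pool.Agent.Helper56.OS

open Pool.Agent.Helper57.SN (co si SS dd th Spn stm av BC blk Lv ker)

private theorem abs_sin_add_le_BHR (x y : ℝ) :
    |Real.sin (x + y)| ≤ |Real.sin x| + |Real.sin y| := by
  rw [Real.sin_add]
  calc |Real.sin x * Real.cos y + Real.cos x * Real.sin y|
      ≤ |Real.sin x * Real.cos y| + |Real.cos x * Real.sin y| := abs_add_le _ _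
    _ ≤ |Real.sin x| + |Real.sin y| := by
        rw [abs_mul, abs_mul]
        have h1 := Real.abs_cos_le_one x
        have h2 := Real.abs_cos_le_one y
        have h3 := abs_nonneg (Real.sin x)
        have h4 := abs_nonneg (Real.sin y)
        nlinarith

private theorem abs_sin_sum_le_BHR (D : Finset ℕ) (f : ℕ → ℝ) :
    |Real.sin (∑ d ∈ D, f d)| ≤ ∑ d ∈ D, |Real.sin (f d)| := by
  classical
  induction D using Finset.induction_on with
  | empty => simp
  | insert d D hd ih =>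
    rw [Finset.sum_insert hd, Finset.sum_insert hd]
    exact (abs_sin_add_le_BHR _ _).trans (by linarith)

private theorem one_sub_cos_BHR (x : ℝ) : 1 - Real.cos x = 2 * Real.sin (x / 2) ^ 2 := by
  have h := Real.cos_two_mul (x / 2)
  rw [show 2 * (x / 2) = x by ring] at h
  have h2 := Real.sin_sq_add_cos_sq (x / 2)
  linarith

/-- the good case -/
private theorem good_BHR (K r : ℕ) (D : Finset ℕ) (γ x : ℤ) (ε : ℝ) (hr : 1 ≤ r)
    (hc : D.card ≤ r) (hε : 0 < ε) (hγ : Spn 1 D γ)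
    (hg : ∀ d ∈ D, 1 - co K d x ≤ ε / (2 * (r : ℝ) ^ 2)) : 1 - ε / 2 ≤ co K γ x := by
  obtain ⟨c, hc1, hc2⟩ := hγ
  have hr0 : (0 : ℝ) < r := by exact_mod_cast hr
  set φ : ℕ → ℝ := fun d => (2 * Real.pi * d * x / 2 ^ K) / 2 with hφ
  have h1 : (2 * Real.pi * (γ : ℝ) * x / 2 ^ K) / 2 = ∑ d ∈ D, (c d : ℝ) * φ d := by
    rw [hc2]
    push_cast
    simp only [hφ, Finset.mul_sum, Finset.sum_mul, Finset.sum_div]
    refine Finset.sum_congr rfl fun d _ => ?_
    ring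
  have h2 : ∀ d, |Real.sin ((c d : ℝ) * φ d)| ≤ |Real.sin (φ d)| := by
    intro d
    have h3 := hc1 d
    have h4 : c d = -1 ∨ c d = 0 ∨ c d = 1 := by
      have := abs_le.1 h3
      push_cast at this
      omega
    rcases h4 with h4 | h4 | h4
    · rw [h4]
      simp
    · rw [h4]
      simp
    · rw [h4]
      simp
  have h5 : ∀ d ∈ D, |Real.sin (φ d)| ^ 2 ≤ ε / (4 * (r : ℝ) ^ 2) := by
    intro d hd
    have h6 := hg d hd
    unfold co at h6
    rw [one_sub_cos_BHR] at h6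
    rw [sq_abs]
    have h7 : ε / (2 * (r : ℝ) ^ 2) = 2 * (ε / (4 * (r : ℝ) ^ 2)) := by
      field_simp
      norm_num
    rw [h7] at h6
    have h8 : (2 * Real.pi * ((d : ℤ) : ℝ) * x / 2 ^ K) / 2 = φ d := by
      simp only [hφ]
      push_cast
      ring
    rw [h8] at h6
    linarith
  have h6 : |Real.sin ((2 * Real.pi * (γ : ℝ) * x / 2 ^ K) / 2)| ≤
      ∑ d ∈ D, |Real.sin (φ d)| := by
    rw [h1]
    exact (abs_sin_sum_le_BHR _ _).trans (Finset.sum_le_sum fun d _ => h2 d)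
  have h7 : (∑ d ∈ D, |Real.sin (φ d)|) ^ 2 ≤ ε / 4 := by
    have hcs : ((D.card : ℝ)) ≤ r := by exact_mod_cast hc
    calc (∑ d ∈ D, |Real.sin (φ d)|) ^ 2 ≤ D.card * ∑ d ∈ D, |Real.sin (φ d)| ^ 2 :=
          sq_sum_le_card_mul_sum_sq
      _ ≤ D.card * ∑ d ∈ D, ε / (4 * (r : ℝ) ^ 2) := by
          refine mul_le_mul_of_nonneg_left (Finset.sum_le_sum h5) (by positivity)
      _ = (D.card : ℝ) ^ 2 * (ε / (4 * (r : ℝ) ^ 2)) := by
          rw [Finset.sum_const, nsmul_eq_mul]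
          ring
      _ ≤ (r : ℝ) ^ 2 * (ε / (4 * (r : ℝ) ^ 2)) := by
          refine mul_le_mul_of_nonneg_right ?_ (by positivity)
          exact pow_le_pow_left₀ (by positivity) hcs 2
      _ = ε / 4 := by field_simp
  have h8 : Real.sin ((2 * Real.pi * (γ : ℝ) * x / 2 ^ K) / 2) ^ 2 ≤ ε / 4 := by
    rw [← sq_abs]
    exact (pow_le_pow_left₀ (abs_nonneg _) h6 2).trans h7
  have h9 := one_sub_cos_BHR (2 * Real.pi * (γ : ℝ) * x / 2 ^ K)
  unfold co
  linarith

private theorem fac_BHR (K m0 : ℕ) (d x : ℤ) :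
    0 ≤ ((1 + co K d x) / 2) ^ m0 ∧ ((1 + co K d x) / 2) ^ m0 ≤ 1 := by
  have h1 := Real.neg_one_le_cos (2 * Real.pi * d * x / 2 ^ K)
  have h2 := Real.cos_le_one (2 * Real.pi * d * x / 2 ^ K)
  unfold co
  exact ⟨by apply pow_nonneg; linarith, pow_le_one₀ (by linarith) (by linarith)⟩

private theorem ker_BHR (K m0 : ℕ) (D : Finset ℕ) (x : ℤ) :
    0 ≤ ker K m0 D x ∧ ker K m0 D x ≤ 1 := by
  unfold ker
  exact ⟨Finset.prod_nonneg fun d _ => (fac_BHR K m0 d x).1,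
    Finset.prod_le_one (fun d _ => (fac_BHR K m0 d x).1) (fun d _ => (fac_BHR K m0 d x).2)⟩

/-- the bad case -/
private theorem bad_BHR (K m0 r : ℕ) (D : Finset ℕ) (x : ℤ) (ε : ℝ) (hr : 1 ≤ r) (d : ℕ)
    (hd : d ∈ D) (hb : ε / (2 * (r : ℝ) ^ 2) < 1 - co K d x) :
    ker K m0 D x ≤ Real.exp (-(m0 * ε / (4 * r ^ 2))) := by
  classical
  have hr0 : (0 : ℝ) < r := by exact_mod_cast hr
  have h1 : ker K m0 D x ≤ ((1 + co K d x) / 2) ^ m0 := by
    unfold ker
    rw [← Finset.mul_prod_erase D _ hd]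
    have h2 : ∏ e ∈ D.erase d, ((1 + co K e x) / 2) ^ m0 ≤ 1 :=
      Finset.prod_le_one (fun d _ => (fac_BHR K m0 d x).1) (fun d _ => (fac_BHR K m0 d x).2)
    exact mul_le_of_le_one_right (fac_BHR K m0 d x).1 h2
  refine h1.trans ?_
  have h3 : (1 + co K d x) / 2 ≤ Real.exp (-(ε / (4 * (r : ℝ) ^ 2))) := by
    have h4 := Real.add_one_le_exp (-(ε / (4 * (r : ℝ) ^ 2)))
    have h7 : ε / (2 * (r : ℝ) ^ 2) = 2 * (ε / (4 * (r : ℝ) ^ 2)) := by
      field_simp
      norm_num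
    rw [h7] at hb
    linarith
  have h5 : 0 ≤ (1 + co K d x) / 2 := by
    have h1 := Real.neg_one_le_cos (2 * Real.pi * (d : ℤ) * x / 2 ^ K)
    unfold co
    linarith
  calc ((1 + co K d x) / 2) ^ m0 ≤ (Real.exp (-(ε / (4 * (r : ℝ) ^ 2)))) ^ m0 :=
        pow_le_pow_left₀ h5 h3 m0
    _ = Real.exp (-(m0 * ε / (4 * r ^ 2))) := by
        rw [← Real.exp_nat_mul]
        congr 1
        ring

theorem p_BHR : St_BHR := by
  intro K m0 r D F γ ε hr hD hγ hε hε1 hF hF1 hE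
  set E0 := Real.exp (-(m0 * ε / (4 * r ^ 2))) with hE0d
  have hE0 : 0 < E0 := Real.exp_pos _
  have key : ∀ x : ℕ, (1 - ε / 2) * (ker K m0 D x * F x) - 2 * E0 * F x ≤
      ker K m0 D x * F x * co K γ x := by
    intro x
    obtain ⟨k0, k1⟩ := ker_BHR K m0 D x
    have hFx := hF x
    have hkF : 0 ≤ ker K m0 D x * F x := mul_nonneg k0 hFx
    have hEF : 0 ≤ E0 * F x := mul_nonneg hE0.le hFx
    by_cases hg : ∀ d ∈ D, 1 - co K d x ≤ ε / (2 * (r : ℝ) ^ 2)
    · have h1 := good_BHR K r D γ x ε hr hD hε hγ hg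
      have h2 := mul_le_mul_of_nonneg_left h1 hkF
      linarith
    · push Not at hg
      obtain ⟨d, hd, hb⟩ := hg
      have h1 := bad_BHR K m0 r D x ε hr d hd hb
      have h3 : -1 ≤ co K γ x :=
        Real.neg_one_le_cos (2 * Real.pi * (γ : ℝ) * ((x : ℤ) : ℝ) / 2 ^ K)
      rw [← hE0d] at h1
      have h4 := mul_le_mul_of_nonneg_right h1 hFx
      have h5 := mul_le_mul_of_nonneg_left h3 hkF
      have h6 : 0 ≤ ε / 2 * (ker K m0 D x * F x) := mul_nonneg (by linarith) hkF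
      linarith
  have hP : (0 : ℝ) < 2 ^ K := by positivity
  have h1 : (1 - ε / 2) * av K (fun x => ker K m0 D x * F x) - 2 * E0 * av K F ≤
      av K (fun x => ker K m0 D x * F x * co K γ x) := by
    unfold av
    rw [le_div_iff₀ hP]
    have h2 : ((1 - ε / 2) * ((∑ x ∈ range (2 ^ K), ker K m0 D x * F x) / 2 ^ K) -
        2 * E0 * ((∑ x ∈ range (2 ^ K), F x) / 2 ^ K)) * 2 ^ K =
        ∑ x ∈ range (2 ^ K), ((1 - ε / 2) * (ker K m0 D x * F x) - 2 * E0 * F x) := by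
      rw [Finset.sum_sub_distrib, ← Finset.mul_sum, ← Finset.mul_sum]
      field_simp
    rw [h2]
    exact Finset.sum_le_sum fun x _ => key x
  have h2 : 2 * E0 * av K F ≤ 2 * E0 := by
    have := mul_le_mul_of_nonneg_left hF1 (by positivity : 0 ≤ 2 * E0)
    linarith
  linarith

end Pool.Agent.Helper56.OS
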