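import Pool.Agent.Helper56.OS.StB

/-! # Project OS, module CAR: signed Carleson inequality at the origin -/

set_option autoImplicit false

open Finset

namespace Pool.Agent.Helper56.OS

open Pool.Agent.Helper57.SN (co si SS dd th Spn stm av BC blk Lv)

private lemma si_add_CAR (K : ℕ) (g x y : ℤ) :
    si K g (x - y) + si K g (x + y) = 2 * (si K g x * co K g y) := by
  unfold si co
  have e1 : 2 * Real.pi * (g : ℝ) * ((x - y : ℤ) : ℝ) / 2 ^ K =
      2 * Real.pi * g * x / 2 ^ K - 2 * Real.pi * g * y / 2 ^ K := by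
    push_cast
    ring
  have e2 : 2 * Real.pi * (g : ℝ) * ((x + y : ℤ) : ℝ) / 2 ^ K =
      2 * Real.pi * g * x / 2 ^ K + 2 * Real.pi * g * y / 2 ^ K := by
    push_cast
    ring
  rw [e1, e2, Real.sin_sub, Real.sin_add]
  ring

private lemma si_mul_CAR (K : ℕ) (g h x : ℤ) :
    si K g x * si K h x = (co K (g - h) x - co K (g + h) x) / 2 := by
  unfold si co
  have e1 : 2 * Real.pi * ((g - h : ℤ) : ℝ) * (x : ℝ) / 2 ^ K =
      2 * Real.pi * g * x / 2 ^ K - 2 * Real.pi * h * x / 2 ^ K := by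
    push_cast
    ring
  have e2 : 2 * Real.pi * ((g + h : ℤ) : ℝ) * (x : ℝ) / 2 ^ K =
      2 * Real.pi * g * x / 2 ^ K + 2 * Real.pi * h * x / 2 ^ K := by
    push_cast
    ring
  rw [e1, e2, Real.cos_sub, Real.cos_add]
  ring

/-- square sum over the fibres -/
private lemma sq_fib_CAR (Ω : Finset ℕ) (lam : ℕ → ℕ) (c : ℕ → ℝ) :
    ∑ t ∈ Ω.image lam, (∑ ω ∈ Ω with lam ω = t, c ω) ^ 2 =
      ∑ ω ∈ Ω, ∑ ω' ∈ Ω, if lam ω = lam ω' then c ω * c ω' else 0 := by
  rw [← Finset.sum_fiberwise_of_maps_to (t := Ω.image lam) (g := lam)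
    (fun ω hω => Finset.mem_image_of_mem lam hω)
    (fun ω => ∑ ω' ∈ Ω, if lam ω = lam ω' then c ω * c ω' else 0)]
  apply Finset.sum_congr rfl
  intro t _
  rw [pow_two, Finset.sum_mul]
  apply Finset.sum_congr rfl
  intro ω hω
  rw [Finset.mem_filter] at hω
  rw [Finset.mul_sum, Finset.sum_filter]
  apply Finset.sum_congr rfl
  intro ω' _
  by_cases h : lam ω' = t
  · rw [if_pos h, if_pos (hω.2.trans h.symm)]
  · rw [if_neg h, if_neg (fun h' => h (h'.symm.trans hω.2))]

/-- the number of shifts in one period -/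
private lemma period_CAR (n ω δ : ℕ) (hn : 0 < n) :
    ((Finset.Ico ω (ω + n)).filter (fun y => y / n = (y + δ) / n)).card = n - δ := by
  rw [Nat.filter_Ico_card_eq_of_periodic]
  · rw [Nat.count_eq_card_filter_range]
    have : (range n).filter (fun y => y / n = (y + δ) / n) = range (n - δ) := by
      ext y
      simp only [Finset.mem_filter, Finset.mem_range]
      constructor
      · rintro ⟨h1, h2⟩
        rw [Nat.div_eq_of_lt h1] at h2
        have h3 : y + δ < n := by
          by_contra hc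
          push Not at hc
          have := Nat.div_pos hc hn
          omega
        omega
      · intro h
        have h1 : y + δ < n := by omega
        refine ⟨by omega, ?_⟩
        rw [Nat.div_eq_of_lt h1, Nat.div_eq_of_lt (by omega)]
    rw [this, Finset.card_range]
  · intro y
    have h1 : (y + n) / n = y / n + 1 := Nat.add_div_right y hn
    have h2 : (y + n + δ) / n = (y + δ) / n + 1 := by
      rw [show y + n + δ = y + δ + n by ring]
      exact Nat.add_div_right _ hn
    simp only [h1, h2, Nat.add_right_cancel_iff]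

private lemma count_CAR (n m ω δ : ℕ) (hn : 0 < n) :
    ∑ y ∈ range (m * n), (if (ω + y) / n = (ω + δ + y) / n then (1 : ℝ) else 0) =
      m * ((n - δ : ℕ) : ℝ) := by
  induction m with
  | zero => simp
  | succ m ih =>
    rw [Nat.succ_mul, Finset.sum_range_add, ih]
    have h : ∑ x ∈ range n, (if (ω + (m * n + x)) / n = (ω + δ + (m * n + x)) / n then (1 : ℝ) else 0) =
        ((n - δ : ℕ) : ℝ) := by
      rw [← period_CAR n (ω + m * n) δ hn, Finset.card_filter, Finset.sum_Ico_eq_sum_range]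
      push_cast
      rw [Nat.add_sub_cancel_left]
      apply Finset.sum_congr rfl
      intro x _
      rw [show ω + (m * n + x) = ω + m * n + x by ring,
        show ω + δ + (m * n + x) = ω + m * n + x + δ by ring]
    rw [h]
    push_cast
    ring

private lemma shifts_CAR (e E : ℕ) (he : e ≤ E) (ω ω' : ℕ) :
    ∑ y0 ∈ range (2 ^ E), (if lb e y0 ω = lb e y0 ω' then (1 : ℝ) else 0) =
      2 ^ E * tri (((ω : ℤ) - ω' : ℤ) / 2 ^ e) := by
  have key : ∀ a δ : ℕ, ∑ y0 ∈ range (2 ^ E), (if (a + y0) / 2 ^ e = (a + δ + y0) / 2 ^ e then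
      (1 : ℝ) else 0) = 2 ^ E * tri ((δ : ℝ) / 2 ^ e) := by
    intro a δ
    have h1 : 2 ^ E = 2 ^ (E - e) * 2 ^ e := by
      rw [← pow_add]
      congr 1
      omega
    have hn : (0 : ℝ) < 2 ^ e := by positivity
    rw [h1, count_CAR _ _ _ _ (by positivity)]
    rw [show (2 : ℝ) ^ E = 2 ^ (E - e) * 2 ^ e by exact_mod_cast h1]
    push_cast
    rw [mul_assoc]
    congr 1
    unfold tri
    rw [abs_of_nonneg (by positivity)]
    by_cases hδ : δ ≤ 2 ^ e
    · rw [Nat.cast_sub hδ]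
      have : (δ : ℝ) ≤ 2 ^ e := by exact_mod_cast hδ
      rw [max_eq_left (by
        rw [sub_nonneg, div_le_one hn]
        exact this)]
      push_cast
      field_simp
    · push Not at hδ
      have : (2 : ℝ) ^ e < δ := by exact_mod_cast hδ
      rw [Nat.sub_eq_zero_of_le hδ.le, max_eq_right (by
        rw [sub_nonpos, one_le_div hn]
        exact this.le)]
      simp
  have tri_neg : ∀ x : ℝ, tri (-x) = tri x := fun x => by
    unfold tri
    rw [abs_neg]
  unfold lb
  rcases le_total ω ω' with h | h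
  · obtain ⟨δ, rfl⟩ := Nat.exists_eq_add_of_le h
    rw [key ω δ]
    congr 1
    rw [← tri_neg]
    congr 1
    push_cast
    ring
  · obtain ⟨δ, rfl⟩ := Nat.exists_eq_add_of_le h
    have h2 := key ω' δ
    rw [Finset.sum_congr rfl (fun y0 _ => if_congr (eq_comm (a := (ω' + δ + y0) / 2 ^ e)) rfl rfl), h2]
    congr 2
    push_cast
    ring

private lemma conv_CAR (hLAW : St_LAW) (K : ℕ) (b : ℕ → ℝ) (Ω : Finset ℕ) (h : GS K b Ω) (a : ℕ)
    (ha : 1 ≤ a) (haK : a + 3 ≤ K) (x : ℤ) : |∑ ω ∈ Ω, b ω * PP a ω * si K ω x| ≤ 1 := by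
  obtain ⟨μ, hμ0, hμ1, hμ⟩ := hLAW K a ha haK
  have e1 : ∑ ω ∈ Ω, b ω * PP a ω * si K ω x = ∑ s ∈ range (2 ^ K), μ s *
      ((∑ ω ∈ Ω, b ω * si K ω (x - s) + ∑ ω ∈ Ω, b ω * si K ω (x + s)) / 2) := by
    have e2 : ∀ s ∈ range (2 ^ K), μ s *
        ((∑ ω ∈ Ω, b ω * si K ω (x - s) + ∑ ω ∈ Ω, b ω * si K ω (x + s)) / 2) =
        ∑ ω ∈ Ω, b ω * si K ω x * (μ s * co K ω s) := by
      intro s _
      rw [← Finset.sum_add_distrib, Finset.sum_div, Finset.mul_sum]
      apply Finset.sum_congr rfl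
      intro ω _
      rw [← mul_add, si_add_CAR]
      ring
    rw [Finset.sum_congr rfl e2, Finset.sum_comm]
    apply Finset.sum_congr rfl
    intro ω hω
    rw [← Finset.mul_sum]
    have h2 := (hμ ω (by
      have := h.small ω hω
      have h3 : ((64 * ω : ℕ) : ℤ) ≤ 2 ^ K := by exact_mod_cast this
      push_cast at h3
      rw [abs_of_nonneg (by positivity)]
      omega)).1
    rw [h2]
    ring
  rw [e1]
  calc |∑ s ∈ range (2 ^ K), μ s *
        ((∑ ω ∈ Ω, b ω * si K ω (x - s) + ∑ ω ∈ Ω, b ω * si K ω (x + s)) / 2)|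
      ≤ ∑ s ∈ range (2 ^ K), |μ s *
        ((∑ ω ∈ Ω, b ω * si K ω (x - s) + ∑ ω ∈ Ω, b ω * si K ω (x + s)) / 2)| :=
        Finset.abs_sum_le_sum_abs _ _
    _ ≤ ∑ s ∈ range (2 ^ K), μ s := by
        apply Finset.sum_le_sum
        intro s _
        rw [abs_mul, abs_of_nonneg (hμ0 s)]
        have h1 := h.bdd (x - s)
        have h2 := h.bdd (x + s)
        have h3 : |(∑ ω ∈ Ω, b ω * si K ω (x - s) + ∑ ω ∈ Ω, b ω * si K ω (x + s)) / 2| ≤ 1 := by
          rw [abs_le] at h1 h2 ⊢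
          constructor <;> linarith [h1.1, h1.2, h2.1, h2.2]
        calc μ s * _ ≤ μ s * 1 := mul_le_mul_of_nonneg_left h3 (hμ0 s)
          _ = μ s := mul_one _
    _ = 1 := hμ1

theorem p_CAR (hLAW : St_LAW) (hPHB : St_PHB) : St_CAR := by
  intro K b Ω hG e E heE heK
  obtain ⟨-, -, -, htri, -⟩ := hPHB
  have hn : (0 : ℝ) < 2 ^ e := by positivity
  set n : ℝ := 2 ^ e with hndef
  -- the high pass coefficients
  set c : ℕ → ℝ := fun ω => b ω * (1 - 2 * PP (e + 3) ω + PP (e + 2) ω) with hc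
  have hPP3 : ∀ ω : ℕ, PP (e + 3) ω = tri (ω / (4 * n)) := by
    intro ω
    unfold PP
    congr 1
    rw [div_eq_div_iff (by positivity) (by positivity), pow_add, hndef]
    push_cast
    ring
  have hPP2 : ∀ ω : ℕ, PP (e + 2) ω = tri (ω / (2 * n)) := by
    intro ω
    unfold PP
    congr 1
    rw [div_eq_div_iff (by positivity) (by positivity), pow_add, hndef]
    push_cast
    ring
  have hc0 : ∀ ω : ℕ, (ω : ℝ) ≤ 2 * n → c ω = 0 := by
    intro ω hω
    rw [hc]
    simp only
    rw [hPP3, hPP2]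
    unfold tri
    have h1 : (ω : ℝ) / (4 * n) ≤ 1 := by
      rw [div_le_one (by positivity)]
      linarith
    have h2 : (ω : ℝ) / (2 * n) ≤ 1 := by
      rw [div_le_one (by positivity)]
      exact hω
    rw [abs_of_nonneg (by positivity), abs_of_nonneg (by positivity), max_eq_left (by linarith),
      max_eq_left (by linarith)]
    have h5 : (ω : ℝ) / (2 * n) = 2 * (ω / (4 * n)) := by
      field_simp
      norm_num
    rw [h5]
    ring
  have hc1 : ∀ ω : ℕ, 4 * n ≤ (ω : ℝ) → c ω = b ω := by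
    intro ω hω
    rw [hc]
    simp only
    rw [hPP3, hPP2, (htri (ω / (4 * n)) 0).2.2.2.1 (by
      rw [abs_of_nonneg (by positivity), one_le_div (by positivity)]
      exact hω), (htri (ω / (2 * n)) 0).2.2.2.1 (by
      rw [abs_of_nonneg (by positivity), one_le_div (by positivity)]
      linarith)]
    ring
  have hg : ∀ x : ℤ, |∑ ω ∈ Ω, c ω * si K ω x| ≤ 4 := by
    intro x
    have h1 := hG.bdd x
    have h2 := conv_CAR hLAW K b Ω hG (e + 3) (by omega) (by omega) x
    have h3 := conv_CAR hLAW K b Ω hG (e + 2) (by omega) (by omega) x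
    have h4 : ∑ ω ∈ Ω, c ω * si K ω x = ∑ ω ∈ Ω, b ω * si K ω x -
        2 * ∑ ω ∈ Ω, b ω * PP (e + 3) ω * si K ω x + ∑ ω ∈ Ω, b ω * PP (e + 2) ω * si K ω x := by
      rw [Finset.mul_sum, ← Finset.sum_sub_distrib, ← Finset.sum_add_distrib]
      apply Finset.sum_congr rfl
      intro ω _
      rw [hc]
      ring
    rw [h4]
    rw [abs_le] at h1 h2 h3 ⊢
    constructor <;> linarith [h1.1, h1.2, h2.1, h2.2, h3.1, h3.2]
  -- the quadratic form
  have hquad : ∑ ω ∈ Ω, ∑ ω' ∈ Ω, c ω * c ω' * tri (((ω : ℤ) - ω' : ℤ) / 2 ^ e) ≤ 32 := by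
    obtain ⟨μ, hμ0, hμ1, hμ⟩ := hLAW K (e + 1) (by omega) (by omega)
    have hPP1 : ∀ h : ℤ, PP (e + 1) h = tri (h / 2 ^ e) := by
      intro h
      unfold PP
      congr 1
      rw [pow_succ]
      field_simp
    have h1 : ∑ s ∈ range (2 ^ K), μ s * (∑ ω ∈ Ω, c ω * si K ω s) ^ 2 ≤ 16 := by
      calc ∑ s ∈ range (2 ^ K), μ s * (∑ ω ∈ Ω, c ω * si K ω s) ^ 2
          ≤ ∑ s ∈ range (2 ^ K), μ s * 16 := by
            apply Finset.sum_le_sum
            intro s _
            apply mul_le_mul_of_nonneg_left _ (hμ0 s)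
            have := hg s
            have h5 := sq_le_sq' (abs_le.1 this).1 (abs_le.1 this).2
            linarith
        _ = 16 := by rw [← Finset.sum_mul, hμ1, one_mul]
    have h2 : ∑ s ∈ range (2 ^ K), μ s * (∑ ω ∈ Ω, c ω * si K ω s) ^ 2 =
        ∑ ω ∈ Ω, ∑ ω' ∈ Ω, c ω * c ω' * ((PP (e + 1) ((ω : ℤ) - ω') -
          PP (e + 1) ((ω : ℤ) + ω')) / 2) := by
      have e2 : ∀ s ∈ range (2 ^ K), μ s * (∑ ω ∈ Ω, c ω * si K ω s) ^ 2 =
          ∑ ω ∈ Ω, ∑ ω' ∈ Ω, c ω * c ω' * ((μ s * co K ((ω : ℤ) - ω') s -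
            μ s * co K ((ω : ℤ) + ω') s) / 2) := by
        intro s _
        rw [pow_two, Finset.sum_mul_sum, Finset.mul_sum]
        apply Finset.sum_congr rfl
        intro ω _
        rw [Finset.mul_sum]
        apply Finset.sum_congr rfl
        intro ω' _
        have := si_mul_CAR K ω ω' s
        calc μ s * (c ω * si K ω s * (c ω' * si K ω' s)) =
            c ω * c ω' * (μ s * (si K ω s * si K ω' s)) := by ring
          _ = _ := by rw [this]; ring
      rw [Finset.sum_congr rfl e2, Finset.sum_comm]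
      apply Finset.sum_congr rfl
      intro ω hω
      rw [Finset.sum_comm]
      apply Finset.sum_congr rfl
      intro ω' hω'
      rw [← Finset.mul_sum, ← Finset.sum_div, Finset.sum_sub_distrib]
      have s1 : ((64 * ω : ℕ) : ℤ) ≤ 2 ^ K := by exact_mod_cast hG.small ω hω
      have s2 : ((64 * ω' : ℕ) : ℤ) ≤ 2 ^ K := by exact_mod_cast hG.small ω' hω'
      push_cast at s1 s2
      rw [(hμ ((ω : ℤ) - ω') (by
        rcases abs_cases ((ω : ℤ) - ω') with h | h <;> omega)).1, (hμ ((ω : ℤ) + ω') (by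
        rcases abs_cases ((ω : ℤ) + ω') with h | h <;> omega)).1]
    rw [h2] at h1
    have h3 : ∑ ω ∈ Ω, ∑ ω' ∈ Ω, c ω * c ω' * tri (((ω : ℤ) - ω' : ℤ) / 2 ^ e) =
        2 * ∑ ω ∈ Ω, ∑ ω' ∈ Ω, c ω * c ω' * ((PP (e + 1) ((ω : ℤ) - ω') -
          PP (e + 1) ((ω : ℤ) + ω')) / 2) := by
      rw [Finset.mul_sum]
      apply Finset.sum_congr rfl
      intro ω _
      rw [Finset.mul_sum]
      apply Finset.sum_congr rfl
      intro ω' _
      rw [hPP1, hPP1]
      by_cases hω : (ω : ℝ) ≤ 2 * n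
      · rw [hc0 ω hω]
        ring
      · push Not at hω
        have h5 : tri (((ω : ℤ) + ω' : ℤ) / 2 ^ e) = 0 := by
          apply (htri _ 0).2.2.2.1
          push_cast
          have h6 : (0 : ℝ) ≤ ω' := Nat.cast_nonneg _
          have h7 : (0 : ℝ) ≤ ω := Nat.cast_nonneg _
          rw [abs_of_nonneg (by positivity), one_le_div (by positivity)]
          linarith
        rw [h5]
        ring
    rw [h3]
    linarith
  -- the sum over the shifts
  calc ∑ y0 ∈ range (2 ^ E), ∑ t ∈ (Ω.image (lb e y0)).filter (fun t => y0 + 4 * 2 ^ e ≤ t * 2 ^ e),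
        bI b Ω e y0 t ^ 2
      ≤ ∑ y0 ∈ range (2 ^ E), ∑ t ∈ Ω.image (lb e y0), (∑ ω ∈ Ω with lb e y0 ω = t, c ω) ^ 2 := by
        apply Finset.sum_le_sum
        intro y0 _
        have h1 : ∑ t ∈ (Ω.image (lb e y0)).filter (fun t => y0 + 4 * 2 ^ e ≤ t * 2 ^ e),
            bI b Ω e y0 t ^ 2 =
            ∑ t ∈ (Ω.image (lb e y0)).filter (fun t => y0 + 4 * 2 ^ e ≤ t * 2 ^ e),
            (∑ ω ∈ Ω with lb e y0 ω = t, c ω) ^ 2 := by
          apply Finset.sum_congr rfl
          intro t ht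
          rw [Finset.mem_filter] at ht
          unfold bI
          congr 1
          apply Finset.sum_congr rfl
          intro ω hω
          rw [Finset.mem_filter] at hω
          have h2 : t * 2 ^ e ≤ ω + y0 := by
            rw [← hω.2]
            exact Nat.div_mul_le_self _ _
          have h3 : 4 * 2 ^ e ≤ ω := by omega
          have h4 : 4 * n ≤ (ω : ℝ) := by
            rw [hndef]
            exact_mod_cast h3
          exact (hc1 ω h4).symm
        rw [h1]
        apply Finset.sum_le_sum_of_subset_of_nonneg (Finset.filter_subset _ _)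
        intro t _ _
        positivity
    _ = ∑ y0 ∈ range (2 ^ E), ∑ ω ∈ Ω, ∑ ω' ∈ Ω,
          (if lb e y0 ω = lb e y0 ω' then c ω * c ω' else 0) := by
        apply Finset.sum_congr rfl
        intro y0 _
        exact sq_fib_CAR Ω (lb e y0) c
    _ = ∑ ω ∈ Ω, ∑ ω' ∈ Ω, c ω * c ω' *
          ∑ y0 ∈ range (2 ^ E), (if lb e y0 ω = lb e y0 ω' then (1 : ℝ) else 0) := by
        rw [Finset.sum_comm]
        apply Finset.sum_congr rfl
        intro ω _
        rw [Finset.sum_comm]
        apply Finset.sum_congr rfl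
        intro ω' _
        rw [Finset.mul_sum]
        apply Finset.sum_congr rfl
        intro y0 _
        split_ifs <;> ring
    _ = 2 ^ E * ∑ ω ∈ Ω, ∑ ω' ∈ Ω, c ω * c ω' * tri (((ω : ℤ) - ω' : ℤ) / 2 ^ e) := by
        rw [Finset.mul_sum]
        apply Finset.sum_congr rfl
        intro ω _
        rw [Finset.mul_sum]
        apply Finset.sum_congr rfl
        intro ω' _
        rw [shifts_CAR e E heE]
        ring
    _ ≤ 2 ^ E * 32 := mul_le_mul_of_nonneg_left hquad (by positivity)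
    _ = 32 * 2 ^ E := by ring

end Pool.Agent.Helper56.OS
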