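import Pool.Agent.Helper56.OS.StA

set_option autoImplicit false

open Finset

namespace Pool.Agent.Helper56.OS

/-- the two inequalities between consecutive cuts, in units of the distance -/
private theorem aux_CCS (q : ℕ) : 2 * (q / 2 - 1) ≤ q - 1 ∧ q - 1 + 1 ≤ 2 * (q / 2 - 1) + 4 ∧
    q - 1 ≤ q := by omega

private theorem cc1_CCS (d l : ℕ) (hd : 1 ≤ d) (h : d ≤ l) : cc d l + d ≤ l ∧ l < cc d l + 2 * d := by
  unfold cc
  have hq : 1 ≤ l / d := (Nat.one_le_div_iff (by omega)).2 h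
  obtain ⟨q, hq'⟩ : ∃ q, l / d = q + 1 := ⟨l / d - 1, by omega⟩
  have h1 := Nat.div_add_mod l d
  have h2 := Nat.mod_lt l (show d > 0 by omega)
  rw [hq'] at h1 ⊢
  simp only [Nat.add_sub_cancel]
  have e : d * (q + 1) = d * q + d := by ring
  constructor <;> omega

private theorem cc2_CCS (d l : ℕ) (hd : 1 ≤ d) (h : l < 2 * d) : cc d l = 0 := by
  unfold cc
  have : l / d < 2 := by
    rw [Nat.div_lt_iff_lt_mul (by omega)]
    omega
  have h2 : l / d - 1 = 0 := by omega
  rw [h2, mul_zero]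

private theorem cc3_CCS (d l : ℕ) (hd : 1 ≤ d) (h : 2 * d ≤ l) : d ≤ cc d l := by
  unfold cc
  have : 2 ≤ l / d := by
    rw [Nat.le_div_iff_mul_le (by omega)]
    omega
  exact Nat.le_mul_of_pos_right d (by omega)

private theorem cc5_CCS (d l : ℕ) (hd : 1 ≤ d) :
    cc (2 * d) l ≤ cc d l ∧ cc d l ≤ l ∧ cc d l < cc (2 * d) l + 4 * d := by
  have hdiv : l / (2 * d) = l / d / 2 := by
    rw [mul_comm, Nat.div_div_eq_div_mul]
  have e1 : cc (2 * d) l = d * (2 * (l / d / 2 - 1)) := by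
    unfold cc
    rw [hdiv]
    ring
  have e2 : cc d l = d * (l / d - 1) := rfl
  obtain ⟨a1, a2, a3⟩ := aux_CCS (l / d)
  refine ⟨?_, ?_, ?_⟩
  · rw [e1, e2]
    exact Nat.mul_le_mul_left d a1
  · rw [e2]
    exact (Nat.mul_le_mul_left d a3).trans (Nat.mul_div_le l d)
  · rw [e1, e2]
    have := Nat.mul_le_mul_left d a2
    have e3 : d * (l / d - 1 + 1) = d * (l / d - 1) + d := by ring
    have e4 : d * (2 * (l / d / 2 - 1) + 4) = d * (2 * (l / d / 2 - 1)) + 4 * d := by ring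
    rw [e3, e4] at this
    omega

theorem p_CCS : S_CCS := by
  refine ⟨cc1_CCS, cc2_CCS, cc3_CCS, fun d l _ => Dvd.intro _ rfl, cc5_CCS, ?_, ?_⟩
  · intro D k l hD
    rcases Nat.eq_zero_or_pos k with hk | hk
    · subst hk
      have e0 : cut D 0 l = l := by unfold cut; simp
      have e1 : cut D (0 + 1) l = cc D l := by unfold cut; simp
      rw [e0, e1]
      obtain ⟨-, b2, -⟩ := cc5_CCS D l hD
      refine ⟨b2, le_refl _, ?_⟩
      simp only [pow_zero, mul_one]
      rcases le_or_gt D l with h | h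
      · have := (cc1_CCS D l hD h).2
        omega
      · omega
    · obtain ⟨j, rfl⟩ : ∃ j, k = j + 1 := ⟨k - 1, by omega⟩
      have hpos : 1 ≤ D * 2 ^ j := Nat.mul_pos hD (by positivity)
      have e0 : cut D (j + 1) l = cc (D * 2 ^ j) l := by unfold cut; simp
      have e1 : cut D (j + 1 + 1) l = cc (2 * (D * 2 ^ j)) l := by
        unfold cut
        simp only [Nat.add_eq_zero_iff, one_ne_zero, and_false, if_false, Nat.add_sub_cancel]
        congr 1
        rw [pow_succ]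
        ring
      rw [e0, e1]
      obtain ⟨b1, b2, b3⟩ := cc5_CCS (D * 2 ^ j) l hpos
      refine ⟨b1, b2, ?_⟩
      have e2 : D * 2 ^ (j + 1) = 2 * (D * 2 ^ j) := by rw [pow_succ]; ring
      rw [e2]
      omega
  · intro D K l hD hK h
    obtain ⟨j, rfl⟩ : ∃ j, K = j + 1 := ⟨K - 1, by omega⟩
    have hpos : 1 ≤ D * 2 ^ j := Nat.mul_pos hD (by positivity)
    have e0 : cut D (j + 1) l = cc (D * 2 ^ j) l := by unfold cut; simp
    rw [e0]
    exact cc2_CCS _ _ hpos (by simpa using h)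

end Pool.Agent.Helper56.OS
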