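import Pool.Agent.Helper56.OS.Defs
import Pool.Agent.Helper57.SN.StB

/-! # Project OS, statements C: the structured half.

`Wt`, `Rf`, `St_ker`, `St_Rf`, `St_count`, `St_avg` are those of `SN.StB` (proved in `SN.M_ker`, `M_Rf`,
`M_count`, `M_avg`). -/

set_option autoImplicit false

open Finset

namespace Pool.Agent.Helper56.OS

open Pool.Agent.Helper57.SN (co si SS dd th Spn stm av BC blk Lv ker Wt Rf St_ker St_Rf St_count St_avg)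

/-- coefficient of the product measure at `sin γ x` -/
noncomputable def Co {κ : Type} [Fintype κ] [DecidableEq κ] (Sp : κ → Finset ℤ) (w : κ → ℤ → ℝ)
    (P Q : κ → ℤ → ℝ) (γ : ℤ) : ℝ :=
  ∑ v ∈ Fintype.piFinset Sp, if ∑ i, v i = γ then
    Wt w v * (∏ i, ((P i (v i) : ℂ) + Complex.I * Q i (v i))).im else 0

/-- **PR2** (product measure; like `SN.St_prod`, proof in `SN.M_prod`).
`A x = Π_i Σ_s μ_i(s) κ_i(x - s) ≥ 0`, `κ_i(x) = Σ_g w_i(g) co g x = Σ_g w_i(g) e(gx)` (`w_i` even).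
Expanding: `A x = Σ_v Wt w v Π_i conj ψ_i(v_i) e(x Σ v_i)`, `ψ_i(g) = P i g + I Q i g`; as `A` is real,
`av (A e(γ ·)) = Σ_{Σ v_i = γ} Wt w v Π ψ_i(v_i)` for `4|γ| ≤ 2^K` (a frequency `Σ v_i - γ` divisible by
`2^K` is `0`), so `Co γ = av (A si γ)`, `|Σ b ω Co ω| = |av (A f)| ≤ av A ≤ Rf 0`.
Second part: `|Im Π ψ_i| ≤ Π |ψ_i| ≤ 1`. -/
def St_PR2 : Prop := ∀ (κ : Type) [Fintype κ] [DecidableEq κ] (K : ℕ) (μ : κ → ℕ → ℝ)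
  (P Q : κ → ℤ → ℝ) (Sp : κ → Finset ℤ) (w : κ → ℤ → ℝ) (L : κ → ℤ),
  (∀ i s, 0 ≤ μ i s) → (∀ i, ∑ s ∈ range (2 ^ K), μ i s = 1) →
  (∀ i, ∀ g ∈ Sp i, (∑ s ∈ range (2 ^ K), μ i s * co K g s = P i g) ∧
    (∑ s ∈ range (2 ^ K), μ i s * si K g s = Q i g)) →
  (∀ i g, 0 ≤ w i g) → (∀ i g, w i (-g) = w i g) → (∀ i, ∀ g ∈ Sp i, -g ∈ Sp i) →
  (∀ i, ∀ g ∈ Sp i, |g| ≤ L i) → 4 * ∑ i, L i ≤ 2 ^ K →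
  (∀ i, ∀ x : ℤ, 0 ≤ ∑ g ∈ Sp i, w i g * co K g x) →
  (∀ (b : ℕ → ℝ) (Ω : Finset ℕ), GS K b Ω → |∑ ω ∈ Ω, b ω * Co Sp w P Q ω| ≤ Rf Sp w 0) ∧
  ((∀ i, ∀ g ∈ Sp i, P i g ^ 2 + Q i g ^ 2 ≤ 1) → ∀ γ : ℤ, |Co Sp w P Q γ| ≤ Rf Sp w γ)

/-- **FEJ** (Fejér kernel).  `Σ_{|g| < n} (1 - |g|/n) co g x = |Σ_{0 ≤ j < n} e(jx)|²/n ≥ 0`. -/
def St_FEJ : Prop := ∀ (K n : ℕ), 1 ≤ n →
  (∀ x : ℤ, 0 ≤ ∑ g ∈ Ioo (-(n : ℤ)) n, tri (g / n) * co K g x) ∧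
  (n ≤ 2 ^ K → av K (fun x => ∑ g ∈ Ioo (-(n : ℤ)) n, tri (g / n) * co K g x) = 1)

/-- **OSC** (the coefficients vary slowly; uses `St_Rf`).  Index set `Option ι`, the index `none`
carries the Fejér kernel.  Writing `v = (v', v_none)`, `v_none = γ - Σ v'`:
`Co γ = Σ_{v'} Wt'(v') Im(Π_i ψ_i(v'_i)) tri((γ - Σ v')/n)` (for `|γ - Σ v'| ≥ n` the factor `tri` is
`0`).  So `|Co γ - Co γ'| ≤ Σ_{v'} Wt'(v') |tri((γ-Σv')/n) - tri((γ'-Σv')/n)|`, every term is at most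
`(|γ-γ'|/n)` and vanishes unless `|γ - Σ v'| < 2n`; and
`Σ_{v' : |γ - Σ v'| < 2n} Wt'(v') ≤ Σ_{j=-2}^{2} Rf (γ + j n) ≤ 5 Rf 0`, because
`Σ_{j=-2}^{2} tri((γ + j n - y)/n) = 1` for `|γ - y| ≤ 2n`. -/
def St_OSC : Prop := ∀ (ι : Type) [Fintype ι] [DecidableEq ι] (K n : ℕ) (Sp : Option ι → Finset ℤ)
  (w P Q : Option ι → ℤ → ℝ) (L : Option ι → ℤ), 1 ≤ n → 16 * n ≤ 2 ^ K →
  (∀ i g, 0 ≤ w i g) → (∀ i g, w i (-g) = w i g) → (∀ i, ∀ g ∈ Sp i, -g ∈ Sp i) →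
  (∀ i, ∀ g ∈ Sp i, |g| ≤ L i) → 4 * ∑ i, L i ≤ 2 ^ K →
  (∀ i, ∀ x : ℤ, 0 ≤ ∑ g ∈ Sp i, w i g * co K g x) →
  Sp none = Ioo (-(n : ℤ)) n → (∀ g : ℤ, w none g = tri (g / n)) → (∀ g, P none g = 1) →
  (∀ g, Q none g = 0) → (∀ i, ∀ g ∈ Sp i, P i g ^ 2 + Q i g ^ 2 ≤ 1) →
  ∀ γ γ' : ℤ, 8 * |γ| ≤ 2 ^ K → |γ - γ'| ≤ n →
  |Co Sp w P Q γ - Co Sp w P Q γ'| ≤ 5 * (|(γ : ℝ) - γ'| / n) * Rf Sp w 0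

/-- level exponent `al` is hit by the span of `D` (wide sense) -/
def HitW (H m0 : ℕ) (D : Finset ℕ) (al : ℕ) : Prop :=
  ∃ g : ℤ, Spn (2 * m0) D g ∧ 2 ^ al ≤ 2 ^ (H + 4) * |g| ∧ |g| ≤ 2 ^ (al + H + 4)

/-- the frequency `γ` lands at level exponent `al` through the span of `D` (narrow sense) -/
def LandN (m0 : ℕ) (D : Finset ℕ) (al : ℕ) (γ : ℤ) : Prop :=
  2 ^ (al + 4) ≤ γ ∧ ∃ g : ℤ, Spn m0 D g ∧ 2 ^ al ≤ 4 * |γ - g| ∧ |γ - g| ≤ 2 ^ (al + 2)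

/-- **SHP** (shape of representations).  `U_i` is the union of the `D j`, `j ≠ i`;
`|v i| ≤ m0 r 2^(a i + 1) ≤ 2^(a i + H - 1)`; `g_i = Σ_{j ≠ i} v j` is in `Spn m0 U_i` (the `D j` are
disjoint), `γ = v i + g_i + z`, `|z| < n ≤ 2^(a i - 2H - 4)`.
(1) Let `2^(a i - 1) < |v i| < 2^(a i + 1)`.  Then `|γ - g_i| = |v i + z|` lies in
`[2^(a i - 2), 2^(a i + 2)]`; as `γ` does not land, `γ < 2^(a i + 4)`, so `|g_i| ≤ 2^(a i + 5)`, and since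
`a i` is not hit, `2^(H+4) |g_i| < 2^(a i)`; `v i - γ = -(g_i + z)`.
(2) By (1) `2^(a i - 2) < γ < 2^(a i + 2)`, same for `j`; contradiction to the separation.
(3) `|g_i| ≤ γ + |v i| + n ≤ 2^(a i + H + 4)`, not hit, so `2^(H+4)|g_i| < 2^(a i)`.
(4) Let `j ≠ i`; `G = v j + z = γ - Σ_{j' ≠ j} v j'` is in `Spn (2 m0) U_j` (`γ ∈ Spn 1 (D i)`,
`D i ⊆ U_j`, `1 + m0 ≤ 2 m0`). If `2^H |v j| > 2^(a j)` then `2^(a j - H - 1) ≤ |G| ≤ 2^(a j + H)`: hit.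
If `γ` lands at `j ≠ i` through `g`, then `γ - g ∈ Spn (2 m0) U_j` hits; landing at `i` needs
`γ ≥ 2^(a i + 4)`. -/
def St_SHP : Prop := ∀ (ι : Type) [Fintype ι] [DecidableEq ι] (H m0 r n : ℕ) (a : ι → ℕ)
  (D : ι → Finset ℕ), 3 ≤ H → 1 ≤ m0 → 4 * r * m0 ≤ 2 ^ H →
  (∀ i j, i ≠ j → a i + 4 * H ≤ a j ∨ a j + 4 * H ≤ a i) →
  (∀ i j, i ≠ j → Disjoint (D i) (D j)) →
  (∀ i, ∀ d ∈ D i, d < 2 ^ (a i + 1)) → (∀ i, (D i).card ≤ r) →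
  (∀ i, n * 2 ^ (2 * H + 4) ≤ 2 ^ (a i)) →
  (∀ i, ¬ HitW H m0 ((univ.erase i).biUnion D) (a i)) →
  ∀ (γ : ℤ) (v : ι → ℤ) (z : ℤ), 0 < γ → (∀ i, Spn m0 (D i) (v i)) → |z| < n → ∑ i, v i + z = γ →
    (∀ i, 2 ^ (a i) < 2 * |v i| → |v i| < 2 ^ (a i + 1) →
      ¬ LandN m0 ((univ.erase i).biUnion D) (a i) γ → 2 ^ (H + 3) * |v i - γ| ≤ 2 ^ (a i)) ∧
    (∀ i j, 2 ^ (a i) < 2 * |v i| → |v i| < 2 ^ (a i + 1) →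
      2 ^ (a j) < 2 * |v j| → |v j| < 2 ^ (a j + 1) →
      ¬ LandN m0 ((univ.erase i).biUnion D) (a i) γ →
      ¬ LandN m0 ((univ.erase j).biUnion D) (a j) γ → i = j) ∧
    (∀ i, 2 ^ (a i) < 2 * γ → γ < 2 ^ (a i + 1) → 2 ^ (H + 3) * |v i - γ| ≤ 2 ^ (a i)) ∧
    (∀ i, Spn 1 (D i) γ → 2 ^ (a i) < 2 * γ → γ < 2 ^ (a i + 1) →
      (∀ j, j ≠ i → 2 ^ H * |v j| ≤ 2 ^ (a j)) ∧
      (∀ j, ¬ LandN m0 ((univ.erase j).biUnion D) (a j) γ))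

/-- **PHS** (phases; `ψ_i = PP + I QQ` of the bump law of scale `2^(a i)`, uses `St_PHB`).
`QQ (a i) (v i) = 0` unless `2^(a i - 1) < |v i| < 2^(a i + 1)`.
(1) If no index is active the product is real.  If exactly one, `i`, then (`γ > 0`) `v i > 0`, the
imaginary part is `QQ (v i) Π_{j ≠ i} PP (v j)`, `0 ≤ PP ≤ 1`, and
`QQ = phi (v i/2^(a i))/3 ≤ (2/3) 2^(-H-3)` because `phi (γ/2^(a i)) = 0`.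
(2) For `j ≠ i`: `QQ (v j) = 0`, `1 - 2/2^H ≤ PP (v j) ≤ 1`, and `|QQ (v i) - phi(γ/2^(a i))/3| ≤ 2^(-H-3)`
(`v i ≥ - 2^(a i - H - 3)`, so `phi (-(v i)/2^(a i)) = 0`); `Π_{j≠i} PP ≥ 1 - 2|ι|/2^H`. -/
def St_PHS : Prop := ∀ (ι : Type) [Fintype ι] [DecidableEq ι] (H : ℕ) (a : ι → ℕ) (v : ι → ℤ) (γ : ℤ),
  1 ≤ H → 0 < γ →
  ((∀ i j, 2 ^ (a i) < 2 * |v i| → |v i| < 2 ^ (a i + 1) →
      2 ^ (a j) < 2 * |v j| → |v j| < 2 ^ (a j + 1) → i = j) →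
    (∀ i, 2 ^ (a i) < 2 * |v i| → |v i| < 2 ^ (a i + 1) → 2 ^ (H + 3) * |v i - γ| ≤ 2 ^ (a i)) →
    (∀ i, phi (γ / 2 ^ (a i)) = 0) →
    |(∏ i, ((PP (a i) (v i) : ℂ) + Complex.I * QQ (a i) (v i))).im| ≤ 1 / 2 ^ H) ∧
  (∀ i, 2 ^ (H + 3) * |v i - γ| ≤ 2 ^ (a i) → (∀ j, j ≠ i → 2 ^ H * |v j| ≤ 2 ^ (a j)) →
    |(∏ i, ((PP (a i) (v i) : ℂ) + Complex.I * QQ (a i) (v i))).im - phi (γ / 2 ^ (a i)) / 3| ≤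
      2 * (Fintype.card ι + 1) / 2 ^ H)

/-- **BHR** (concentration on the Bohr set).  Put `δ = ε/(2 r²)`, `E0 = exp(-m0 ε/(4 r²))`.  If
`1 - co d x ≤ δ` for all `d ∈ D` then `|e(dx) - 1| ≤ √(2δ)`, `|e(γx) - 1| ≤ r √(2δ)`,
`1 - co γ x = |e(γx) - 1|²/2 ≤ r² δ = ε/2`.  Otherwise `ker x ≤ (1 - δ/2)^m0 ≤ E0`.  So
`av (ker F co γ) ≥ (1 - ε/2)(av (ker F) - E0) - E0 ≥ (1 - ε) av (ker F)`. -/
def St_BHR : Prop := ∀ (K m0 r : ℕ) (D : Finset ℕ) (F : ℕ → ℝ) (γ : ℤ) (ε : ℝ), 1 ≤ r → D.card ≤ r →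
  Spn 1 D γ → 0 < ε → ε ≤ 1 → (∀ x, 0 ≤ F x) → av K F ≤ 1 →
  4 * Real.exp (-(m0 * ε / (4 * r ^ 2))) ≤ ε * av K (fun x => ker K m0 D x * F x) →
  (1 - ε) * av K (fun x => ker K m0 D x * F x) ≤ av K (fun x => ker K m0 D x * F x * co K γ x)

/-- the configuration of the test: levels `a i`, sets `D i` in the octaves, Fejér scale `2^e0` -/
structure Cfg (ι : Type) [Fintype ι] [DecidableEq ι] (K H m0 r e0 : ℕ) (a : ι → ℕ)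
    (D : ι → Finset ℕ) (b : ℕ → ℝ) (Ω : Finset ℕ) (ε : ℝ) : Prop where
  gs : GS K b Ω
  H10 : 10 ≤ H
  m1 : 1 ≤ m0
  r1 : 1 ≤ r
  rm : 4 * r * m0 ≤ 2 ^ H
  card : Fintype.card ι ≤ 2 ^ H
  aK : ∀ i, a i + 2 * H + 20 ≤ K
  eK : e0 + 4 ≤ K
  ae : ∀ i, e0 + 2 * H + 4 ≤ a i
  sep : ∀ i j, i ≠ j → a i + 4 * H ≤ a j ∨ a j + 4 * H ≤ a i
  sub : ∀ i, D i ⊆ Oct Ω (a i)
  cr : ∀ i, (D i).card ≤ r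
  hit : ∀ i, ¬ HitW H m0 ((univ.erase i).biUnion D) (a i)
  e_pos : 0 < ε
  e_le : ε ≤ 1
  bohr : 4 * Real.exp (-(m0 * ε / (4 * r ^ 2))) ≤ ε * (1 / (2 * m0) : ℝ) ^ (Fintype.card ι * r)

/-- the kernel data of a configuration (index set `Option ι`, the index `none` carries the Fejér
kernel of scale `2^e0` and the point mass at `0`) -/
structure KD (ι : Type) [Fintype ι] [DecidableEq ι] (K m0 e0 : ℕ) (a : ι → ℕ)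
    (D : ι → Finset ℕ) (Sp : Option ι → Finset ℤ) (w P Q : Option ι → ℤ → ℝ) (L : Option ι → ℤ)
    (μ : Option ι → ℕ → ℝ) : Prop where
  mu0 : ∀ i s, 0 ≤ μ i s
  mu1 : ∀ i, ∑ s ∈ range (2 ^ K), μ i s = 1
  law : ∀ i, ∀ g ∈ Sp i, (∑ s ∈ range (2 ^ K), μ i s * co K g s = P i g) ∧
    (∑ s ∈ range (2 ^ K), μ i s * si K g s = Q i g)
  w0 : ∀ i g, 0 ≤ w i g
  we : ∀ i g, w i (-g) = w i g
  sy : ∀ i, ∀ g ∈ Sp i, -g ∈ Sp i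
  gL : ∀ i, ∀ g ∈ Sp i, |g| ≤ L i
  sL : 4 * ∑ i, L i ≤ 2 ^ K
  kp : ∀ i, ∀ x : ℤ, 0 ≤ ∑ g ∈ Sp i, w i g * co K g x
  none1 : Sp none = Ioo (-((2 ^ e0 : ℕ) : ℤ)) ((2 ^ e0 : ℕ) : ℤ)
  none2 : ∀ g : ℤ, w none g = tri (g / ((2 ^ e0 : ℕ) : ℝ))
  none3 : ∀ g, P none g = 1 ∧ Q none g = 0
  spn : ∀ i, ∀ g ∈ Sp (some i), Spn m0 (D i) g
  ker : ∀ i, ∀ x : ℤ, ker K m0 (D i) x = ∑ g ∈ Sp (some i), w (some i) g * co K g x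
  w00 : ∀ i, (0 : ℤ) ∈ Sp (some i) ∧ (1 / (2 * m0) : ℝ) ^ (D i).card ≤ w (some i) 0
  PQ : ∀ i g, P (some i) g = PP (a i) g ∧ Q (some i) g = QQ (a i) g
  pq1 : ∀ i, ∀ g ∈ Sp i, P i g ^ 2 + Q i g ^ 2 ≤ 1

/-- **CF1** (existence of the kernel data; uses `St_LAW`, `St_PHB`, `St_FEJ`, `St_ker`).  `some i`: `Sp`, `w`
of `D i` from `St_ker` (kernel `≥ 0` as `1 + co ≥ 0`), law `μ` from `St_LAW` with `a := a i`, `P = PP (a i)`,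
`Q = QQ (a i)`, `L = 2^(a i + H)` (`|g| ≤ m0 Σ_{d ∈ D i} d ≤ m0 r 2^(a i + 1)`, `2|g| ≤ 2^K`).  `none`: Fejér
kernel `n = 2^e0`, `μ s = 1` for `s = 0` and `0` otherwise, `L = n`.
`4 Σ L ≤ 4 (2^H 2^(K-H-20) + 2^(K-4)) ≤ 2^K`. -/
def St_CF1 : Prop := ∀ (ι : Type) [Fintype ι] [DecidableEq ι] (K H m0 r e0 : ℕ) (a : ι → ℕ)
  (D : ι → Finset ℕ) (b : ℕ → ℝ) (Ω : Finset ℕ) (ε : ℝ), Cfg ι K H m0 r e0 a D b Ω ε →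
  ∃ Sp w P Q L μ, KD ι K m0 e0 a D Sp w P Q L μ

/-- **CF2** (the coefficients `Rf`; uses `St_Rf`, `St_BHR`, `St_FEJ`).  `Rf γ = av (Π κ_i co γ)`,
`Rf 0 ≥ Π w_i 0 ≥ (1/(2 m0))^(|ι| r) > 0` (`w none 0 = 1`, `0 ∈ Sp i`).  Structured `γ ∈ Spn 1 (D i)`:
`St_BHR` with `D = D i`, `F` = product of the other kernels, `0 ≤ ker ≤ 1`, so `av F ≤ av Fej = 1`. -/
def St_CF2 : Prop := ∀ (ι : Type) [Fintype ι] [DecidableEq ι] (K H m0 r e0 : ℕ) (a : ι → ℕ)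
  (D : ι → Finset ℕ) (b : ℕ → ℝ) (Ω : Finset ℕ) (ε : ℝ) (Sp : Option ι → Finset ℤ)
  (w P Q : Option ι → ℤ → ℝ) (L : Option ι → ℤ) (μ : Option ι → ℕ → ℝ),
  Cfg ι K H m0 r e0 a D b Ω ε → KD ι K m0 e0 a D Sp w P Q L μ →
  0 < Rf Sp w 0 ∧ (∀ γ : ℤ, 4 * |γ| ≤ 2 ^ K → 0 ≤ Rf Sp w γ ∧ Rf Sp w γ ≤ Rf Sp w 0) ∧
  ∀ i, ∀ γ : ℤ, 4 * |γ| ≤ 2 ^ K → Spn 1 (D i) γ → (1 - ε) * Rf Sp w 0 ≤ Rf Sp w γ

/-- **CF3** (structured frequencies; uses `St_SHP`, `St_PHS`).  Every `v` in the sum for `Co ω`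
(`z = v none`, `|z| < 2^e0`, `v (some j) ∈ Spn m0 (D j)`) satisfies the hypotheses of `St_PHS` (2) by
`St_SHP` (3), (4); the factor of `none` is `1`.  So
`|Im Π ψ - phi/3| ≤ 2(|ι|+1)/2^H`; multiply by `Wt ≥ 0` and sum. -/
def St_CF3 : Prop := ∀ (ι : Type) [Fintype ι] [DecidableEq ι] (K H m0 r e0 : ℕ) (a : ι → ℕ)
  (D : ι → Finset ℕ) (b : ℕ → ℝ) (Ω : Finset ℕ) (ε : ℝ) (Sp : Option ι → Finset ℤ)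
  (w P Q : Option ι → ℤ → ℝ) (L : Option ι → ℤ) (μ : Option ι → ℕ → ℝ),
  Cfg ι K H m0 r e0 a D b Ω ε → KD ι K m0 e0 a D Sp w P Q L μ →
  ∀ i, ∀ ω ∈ Oct Ω (a i), Spn 1 (D i) (ω : ℤ) →
    |Co Sp w P Q ω - phi (ω / 2 ^ (a i)) / 3 * Rf Sp w ω| ≤
      2 * (Fintype.card ι + 1) / 2 ^ H * Rf Sp w ω

/-- **CF4** (frequencies outside the octaves that do not land; uses `St_SHP`, `St_PHS`, `St_PHB`).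
`St_SHP` (1), (2) give the hypotheses of `St_PHS` (1) for every `v` in the sum; `phi (ω/2^(a i)) = 0` as
`ω ∉ Oct Ω (a i)`.  So `|Im Π ψ| ≤ 1/2^H`. -/
def St_CF4 : Prop := ∀ (ι : Type) [Fintype ι] [DecidableEq ι] (K H m0 r e0 : ℕ) (a : ι → ℕ)
  (D : ι → Finset ℕ) (b : ℕ → ℝ) (Ω : Finset ℕ) (ε : ℝ) (Sp : Option ι → Finset ℤ)
  (w P Q : Option ι → ℤ → ℝ) (L : Option ι → ℤ) (μ : Option ι → ℕ → ℝ),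
  Cfg ι K H m0 r e0 a D b Ω ε → KD ι K m0 e0 a D Sp w P Q L μ →
  ∀ ω ∈ Ω, (∀ i, ω ∉ Oct Ω (a i)) →
    (∀ i, ¬ LandN m0 ((univ.erase i).biUnion D) (a i) (ω : ℤ)) →
    |Co Sp w P Q ω| ≤ 1 / 2 ^ H * Rf Sp w ω

/-- **CFG** (the test function; uses `St_CF1`–`St_CF4`, `St_PR2`, `St_OSC`).  `C ω = Co ω/Rf 0`.  Bounds and
sum: `St_PR2` (`|Co ω| ≤ Rf ω ≤ Rf 0`); oscillation: `St_OSC` with `n = 2^e0` (`64 ω ≤ 2^K`).  Structured: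
`|C - phi/3| ≤ 2(|ι|+1)/2^H + (phi/3) |Rf ω/Rf 0 - 1| ≤ 2(|ι|+1)/2^H + ε`. -/
def St_CFG : Prop := ∀ (ι : Type) [Fintype ι] [DecidableEq ι] (K H m0 r e0 : ℕ) (a : ι → ℕ)
  (D : ι → Finset ℕ) (b : ℕ → ℝ) (Ω : Finset ℕ) (ε : ℝ), Cfg ι K H m0 r e0 a D b Ω ε →
  ∃ C : ℕ → ℝ, (∀ ω ∈ Ω, |C ω| ≤ 1) ∧
    (∀ ω ∈ Ω, ∀ ω' ∈ Ω, |(ω : ℤ) - ω'| ≤ 2 ^ e0 → |C ω - C ω'| ≤ 5 * (|(ω : ℝ) - ω'| / 2 ^ e0)) ∧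
    |∑ ω ∈ Ω, b ω * C ω| ≤ 1 ∧
    (∀ i, ∀ ω ∈ Oct Ω (a i), Spn 1 (D i) (ω : ℤ) →
      |C ω - phi (ω / 2 ^ (a i)) / 3| ≤ ε + 2 * (Fintype.card ι + 1) / 2 ^ H) ∧
    (∀ ω ∈ Ω, (∀ i, ω ∉ Oct Ω (a i)) →
      (∀ i, ¬ LandN m0 ((univ.erase i).biUnion D) (a i) (ω : ℤ)) → |C ω| ≤ 1 / 2 ^ H)

open Classical in
/-- **CORE** (uses `St_CFG`).  Split `Ω` into the sets `St i`, `Rs i`, `Fi i` (pairwise disjoint also for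
different `i` by the separation) and the rest `Ω'`, whose elements are in no octave `Oct Ω (a i)`.
`1 ≥ Σ_Ω b C ≥ Σ_i Σ_{St i} b phi/3 - Σ_i (ε + 2(|ι|+1)/2^H) ms(St i) - Σ_i ms(Rs i) - Σ_i cf i
- (landing mass) - ms(Ω)/2^H`. -/
def St_CORE : Prop := ∀ (ι : Type) [Fintype ι] [DecidableEq ι] (K H m0 r e0 : ℕ) (a : ι → ℕ)
  (D St Rs Fi : ι → Finset ℕ) (b : ℕ → ℝ) (Ω : Finset ℕ) (ε : ℝ) (cf : ι → ℝ),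
  Cfg ι K H m0 r e0 a D b Ω ε →
  (∀ i, St i ∪ Rs i ⊆ Oct Ω (a i) ∧ Oct Ω (a i) ⊆ St i ∪ Rs i ∪ Fi i ∧ Disjoint (St i) (Rs i) ∧
    Disjoint (St i ∪ Rs i) (Fi i) ∧ Fi i ⊆ Ω ∧
    (∀ ω ∈ Fi i, 2 ^ (a i) ≤ 4 * ω ∧ ω ≤ 2 ^ (a i + 2))) →
  (∀ i, ∀ ω ∈ St i, Spn 1 (D i) (ω : ℤ)) →
  (∀ i, ∀ C : ℕ → ℝ, (∀ ω ∈ Ω, |C ω| ≤ 1) →
    (∀ ω ∈ Ω, ∀ ω' ∈ Ω, |(ω : ℤ) - ω'| ≤ 2 ^ e0 → |C ω - C ω'| ≤ 5 * (|(ω : ℝ) - ω'| / 2 ^ e0)) →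
    |∑ ω ∈ Fi i, b ω * C ω| ≤ cf i) →
  ∑ i, (∑ ω ∈ St i, b ω * phi (ω / 2 ^ (a i))) / 3 ≤
    1 + ∑ i, (ms b (Rs i) + cf i + (ε + 2 * (Fintype.card ι + 1) / 2 ^ H) * ms b (St i)) +
    ∑ ω ∈ Ω.filter (fun ω : ℕ => ∃ i, LandN m0 ((univ.erase i).biUnion D) (a i) (ω : ℤ)), |b ω| +
    ms b Ω / 2 ^ H

/-- **OCC** (occupied octaves; uses `St_count`).  In one residue class modulo 3 of `E` take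
`n = H R + 1` elements (if there are so many), `g` the corresponding sequence: `4 g_i < g_{i+1}`, so
`2^n ≤ (2 n m1 + 1)^|D| ≤ 2^(H R)`. -/
def St_OCC : Prop := ∀ (H R m1 : ℕ) (D : Finset ℕ), D.card ≤ R → 2 * (H * R + 1) * m1 + 1 ≤ 2 ^ H →
  ∀ E : Finset ℕ, (∀ e ∈ E, ∃ g : ℤ, Spn m1 D g ∧ 2 ^ e ≤ g ∧ g < 2 ^ (e + 1)) → E.card ≤ 3 * (H * R)

/-- **HIT** (uses `St_OCC` with `m1 = 2 m0`).  If `a` is hit by `g` (or `-g`), `2^e ≤ |g| < 2^(e+1)`, then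
`e ≤ a + H + 4` and `a ≤ e + H + 4`: at most `2H + 9` values of `a` for each of the `≤ 3 H R` values
of `e`. -/
def St_HIT : Prop := ∀ (H R m0 : ℕ) (D : Finset ℕ), D.card ≤ R → 2 * (H * R + 1) * (2 * m0) + 1 ≤ 2 ^ H →
  ∀ W : Finset ℕ, (∀ a ∈ W, HitW H m0 D a) → W.card ≤ (2 * H + 11) * (3 * (H * R))

open Classical in
/-- **LND** (landing masses; uses `St_OCC` with `m1 = m0`).  (1) If `ω` lands at `a` and `a'`,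
`a + 5 ≤ a'`, through `g, g'`, then `g - g' ∈ Spn (2 m0) D` and
`2^(a' - 3) ≤ |ω - g'| - |ω - g| ≤ |g - g'| ≤ 2^(a'+3)`: `a'` is hit.  So for each `ω` the levels that are
not hit and where `ω` lands lie in an interval of 5 integers.
(2) If `ω` lands at `a` through `g` then `|ω - g| ≤ 2^(a+2) ≤ ω/4`, so with `2^e' ≤ ω < 2^(e'+1)` the
octave `e` of `g` is `e' - 1`, `e'` or `e' + 1`; there are at most `3 H R` values of `e`, at most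
`9 H R` values of `e'`; `A1 ≤ e'` as `ω ≥ 2^(a+4)`, and `ω ≤ (4/3) g ≤ (4/3) R m0 2^(A2 - H) < 2^(A2+1)`. -/
def St_LND : Prop := ∀ (H R m0 : ℕ) (D W Ω : Finset ℕ) (b : ℕ → ℝ), 3 ≤ H → D.card ≤ R →
  2 * (H * R + 1) * (2 * m0) + 1 ≤ 2 ^ H →
  (∑ a ∈ W.filter (fun a => ¬ HitW H m0 D a),
    ∑ ω ∈ Ω.filter (fun ω : ℕ => LandN m0 D a (ω : ℤ)), |b ω| ≤
    5 * ∑ ω ∈ Ω.filter (fun ω : ℕ => ∃ a ∈ W, LandN m0 D a (ω : ℤ)), |b ω|) ∧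
  ∀ (A1 A2 : ℕ) (X1 Int : ℝ) (Ei : Finset ℕ), 0 ≤ X1 → H ≤ A2 → (∀ a ∈ W, A1 ≤ a + 4) →
  (∀ d ∈ D, d < 2 ^ (A2 - H)) →
  (∀ e, A1 ≤ e → e ≤ A2 → e ∉ Ei →
    ∑ ω ∈ Ω.filter (fun ω : ℕ => 2 ^ e ≤ ω ∧ ω < 2 ^ (e + 1)), |b ω| ≤ X1) →
  ∑ e ∈ Ei, ∑ ω ∈ Ω.filter (fun ω : ℕ => 2 ^ e ≤ ω ∧ ω < 2 ^ (e + 1)), |b ω| ≤ Int →
  ∑ ω ∈ Ω.filter (fun ω : ℕ => ∃ a ∈ W, LandN m0 D a (ω : ℤ)), |b ω| ≤ 9 * (H * R) * X1 + Int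

open Classical in
/-- **SEL** (choice of the levels; uses `St_avg`, `St_HIT`, `St_LND`).  `U(J') = ∪_{J'} Dm`,
`|U(J')| ≤ m r`.  For `J' ⊆ W`, `|J'| = m - 1`, `a ∈ W \ J'` call `a` bad if it is hit by `U(J')` or closer
than `4H` to an element of `J'`; `ψ(J', a) = Phi a/4 - 2 near a - (1 if bad, else the landing mass)`.
`Σ_{a ∈ W \ J'} ψ ≥ (S - 3m)/4 - 2 Σ near - 5 (9 H m r X1 + Int) - (2H+11) 3 H m r - 8 H m ≥ S/8`.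
`St_avg` with `φ = -ψ`, `A = -S/8`, `c = -2` (`m S/8 > 2 |W|`): some `J`, `|J| = m`, has
`Σ_{a ∈ J} ψ(J \ a, a) > 2`.  Remove the bad elements of `J` (`ψ ≤ 3/4 - 1 < 0`): `J*`.  Hits and
landings are monotone in `D`, so for `J*` nothing is hit, `J*` is separated, and the landing mass of
the union is at most the sum of the landing masses. -/
def St_SEL : Prop := ∀ (H m0 r m : ℕ) (W Ω : Finset ℕ) (Dm : ℕ → Finset ℕ) (Phi near b : ℕ → ℝ)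
  (A1 A2 : ℕ) (X1 Int : ℝ) (Ei : Finset ℕ), 3 ≤ H → 1 ≤ m0 → 1 ≤ m → m ≤ W.card →
  (∀ a ∈ W, 0 < Phi a ∧ Phi a ≤ 3 ∧ 0 ≤ near a ∧ (Dm a).card ≤ r ∧ (∀ d ∈ Dm a, d < 2 ^ (a + 1)) ∧
    A1 ≤ a ∧ a + H + 1 ≤ A2) →
  2 * (H * (m * r) + 1) * (2 * m0) + 1 ≤ 2 ^ H → 0 ≤ X1 → 0 ≤ Int →
  (∀ e, A1 ≤ e → e ≤ A2 → e ∉ Ei →
    ∑ ω ∈ Ω.filter (fun ω : ℕ => 2 ^ e ≤ ω ∧ ω < 2 ^ (e + 1)), |b ω| ≤ X1) →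
  ∑ e ∈ Ei, ∑ ω ∈ Ω.filter (fun ω : ℕ => 2 ^ e ≤ ω ∧ ω < 2 ^ (e + 1)), |b ω| ≤ Int →
  3 / 4 * m + 2 * ∑ a ∈ W, near a + 5 * (9 * (H * (m * r)) * X1 + Int) +
    (2 * H + 11) * (3 * (H * (m * r))) + 8 * H * m ≤ (∑ a ∈ W, Phi a) / 8 →
  16 * (W.card : ℝ) < m * ∑ a ∈ W, Phi a →
  ∃ J ⊆ W, J.card ≤ m ∧ (∀ a ∈ J, ∀ a' ∈ J, a < a' → a + 4 * H ≤ a') ∧
    (∀ a ∈ J, ¬ HitW H m0 ((J.erase a).biUnion Dm) a) ∧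
    2 < ∑ a ∈ J, (Phi a / 4 - 2 * near a) -
      ∑ ω ∈ Ω.filter (fun ω : ℕ => ∃ a ∈ J, LandN m0 ((J.erase a).biUnion Dm) a (ω : ℤ)), |b ω|

open Classical in
/-- **WIN** (choice of the window).  List the elements of `Ls` increasingly and cut into consecutive
windows of `X` elements (an incomplete last one is dropped, loss `≤ 3X`); `A1` = smallest element of
the window, `A2` = largest `+ H + 1`.  As `X ≥ H + 2`, the intervals `[A1, A2]` of the windows `j` and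
`j + 2` are disjoint, so every `e` is in at most two of them.  If the conclusion failed for every
window, summing would give `Σ Phi - 3X ≤ Σ g + 2 Σ o + 2 * 3X |Hv|`. -/
def St_WIN : Prop := ∀ (X H : ℕ) (Ls Hv Et : Finset ℕ) (Phi g o : ℕ → ℝ), 1 ≤ X → H + 2 ≤ X →
  (∀ a ∈ Ls, 0 < Phi a ∧ Phi a ≤ 3) → (∀ a, 0 ≤ g a) → (∀ e, 0 ≤ o e) →
  3 * (X : ℝ) + ∑ a ∈ Ls, g a + 2 * ∑ e ∈ Et, o e + 6 * X * Hv.card < ∑ a ∈ Ls, Phi a →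
  ∃ W ⊆ Ls, W.card = X ∧ ∃ A1 A2 : ℕ, A1 ∈ W ∧ (∀ a ∈ W, A1 ≤ a ∧ a + H + 1 ≤ A2) ∧
    (∀ a ∈ W, ((Ls.filter (fun a' => A1 ≤ a' ∧ a' < a)).card) < X) ∧
    ∑ a ∈ W, g a + ∑ e ∈ Et.filter (fun e => A1 ≤ e ∧ e ≤ A2), o e +
      3 * X * (Hv.filter (fun e => A1 ≤ e ∧ e ≤ A2)).card < ∑ a ∈ W, Phi a

end Pool.Agent.Helper56.OS
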