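import Pool.Agent.Helper56.OS.StB
import Pool.Agent.Helper56.OS.StC
import Pool.Agent.Helper57.SN.M_ker

/-! Project OS, module CF1: existence of the kernel data. -/

set_option autoImplicit false

open Finset

namespace Pool.Agent.Helper56.OS

open Pool.Agent.Helper57.SN (co si Spn ker St_ker m_ker)

theorem spn_bd_CF1 (m0 r H a : ℕ) (D : Finset ℕ) (hr : D.card ≤ r) (hrm : 4 * r * m0 ≤ 2 ^ H)
    (hD : ∀ d ∈ D, d < 2 ^ (a + 1)) (g : ℤ) (hg : Spn m0 D g) : |g| ≤ 2 ^ (a + H) := by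
  obtain ⟨c, hc, rfl⟩ := hg
  calc |∑ d ∈ D, c d * (d : ℤ)| ≤ ∑ d ∈ D, |c d * (d : ℤ)| := abs_sum_le_sum_abs _ _
    _ ≤ ∑ _d ∈ D, (m0 : ℤ) * 2 ^ (a + 1) := by
        refine sum_le_sum (fun d hd => ?_)
        rw [abs_mul]
        have h1 : |(d : ℤ)| ≤ 2 ^ (a + 1) := by
          rw [abs_of_nonneg (by positivity)]
          exact_mod_cast (hD d hd).le
        exact mul_le_mul (hc d) h1 (abs_nonneg _) (by positivity)
    _ = (D.card : ℤ) * ((m0 : ℤ) * 2 ^ (a + 1)) := by rw [sum_const, nsmul_eq_mul]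
    _ ≤ (r : ℤ) * ((m0 : ℤ) * 2 ^ (a + 1)) := by
        have : (D.card : ℤ) ≤ r := by exact_mod_cast hr
        gcongr
    _ ≤ 2 ^ (a + H) := by
        have h1 : (4 : ℤ) * r * m0 ≤ 2 ^ H := by exact_mod_cast hrm
        have h2 : (0 : ℤ) < 2 ^ a := by positivity
        have h3 : (r : ℤ) * m0 * 4 * 2 ^ a ≤ 2 ^ H * 2 ^ a := by
          apply mul_le_mul_of_nonneg_right _ h2.le
          linarith
        have h4 : (0 : ℤ) ≤ (r : ℤ) * m0 * 2 ^ a := by positivity
        calc (r : ℤ) * ((m0 : ℤ) * 2 ^ (a + 1)) = 2 * ((r : ℤ) * m0 * 2 ^ a) := by ring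
          _ ≤ (r : ℤ) * m0 * 4 * 2 ^ a := by linarith
          _ ≤ 2 ^ H * 2 ^ a := h3
          _ = 2 ^ (a + H) := by ring

theorem p_CF1 (hLAW : St_LAW) (hPHB : St_PHB) (hFEJ : St_FEJ) : St_CF1 := by
  intro ι _ _ K H m0 r e0 a D b Ω ε hc
  obtain ⟨-, -, -, hB4, -, hB6, -, -⟩ := hPHB
  choose Spf wf hw0 hwe hsy h0 hspn hker hlow using fun i => m_ker K m0 (D i) hc.m1
  have hK1 : ∀ i, 1 ≤ a i := fun i => by
    have := hc.ae i
    omega
  have hK3 : ∀ i, a i + 3 ≤ K := fun i => by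
    have := hc.aK i
    omega
  choose muf hm0 hm1 hml using fun i => hLAW K (a i) (hK1 i) (hK3 i)
  have hH := hc.H10
  have hbd : ∀ i, ∀ g ∈ Spf i, |g| ≤ 2 ^ (a i + H) := by
    intro i g hg
    refine spn_bd_CF1 m0 r H (a i) (D i) (hc.cr i) hc.rm (fun d hd => ?_) g (hspn i g hg)
    exact (mem_filter.1 (hc.sub i hd)).2.2
  have hbd2 : ∀ i, ∀ g ∈ Spf i, 2 * |g| ≤ 2 ^ K := by
    intro i g hg
    have h1 := hbd i g hg
    have h2 : (2 : ℤ) ^ (a i + H + 1) ≤ 2 ^ K := by
      apply pow_le_pow_right₀ (by norm_num)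
      have := hc.aK i
      omega
    calc 2 * |g| ≤ 2 * 2 ^ (a i + H) := by linarith
      _ = 2 ^ (a i + H + 1) := by ring
      _ ≤ 2 ^ K := h2
  refine ⟨fun o => o.elim (Ioo (-((2 ^ e0 : ℕ) : ℤ)) ((2 ^ e0 : ℕ) : ℤ)) Spf,
    fun o g => o.elim (tri (g / ((2 ^ e0 : ℕ) : ℝ))) (fun i => wf i g),
    fun o g => o.elim 1 (fun i => PP (a i) g),
    fun o g => o.elim 0 (fun i => QQ (a i) g),
    fun o => o.elim ((2 ^ e0 : ℕ) : ℤ) (fun i => 2 ^ (a i + H)),
    fun o s => o.elim (if s = 0 then 1 else 0) (fun i => muf i s), ?_⟩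
  constructor
  · -- mu0
    intro o s
    cases o with
    | none =>
      change (0 : ℝ) ≤ if s = 0 then 1 else 0
      split_ifs <;> norm_num
    | some i => exact hm0 i s
  · -- mu1
    intro o
    cases o with
    | none =>
      change ∑ s ∈ range (2 ^ K), (if s = 0 then (1 : ℝ) else 0) = 1
      rw [sum_ite_eq' (range (2 ^ K)) 0 (fun _ => (1 : ℝ))]
      rw [if_pos]
      rw [mem_range]
      positivity
    | some i => exact hm1 i
  · -- law
    intro o g hg
    cases o with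
    | none =>
      have hmem : 0 ∈ range (2 ^ K) := by
        rw [mem_range]
        positivity
      constructor
      · change ∑ s ∈ range (2 ^ K), (if s = 0 then (1 : ℝ) else 0) * co K g s = 1
        have h1 : ∀ s ∈ range (2 ^ K), (if s = 0 then (1 : ℝ) else 0) * co K g s =
            if s = 0 then co K g s else 0 := by
          intro s _
          split_ifs <;> simp
        rw [sum_congr rfl h1, sum_ite_eq' (range (2 ^ K)) 0 (fun s : ℕ => co K g s), if_pos hmem]
        simp [co]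
      · change ∑ s ∈ range (2 ^ K), (if s = 0 then (1 : ℝ) else 0) * si K g s = 0
        have h1 : ∀ s ∈ range (2 ^ K), (if s = 0 then (1 : ℝ) else 0) * si K g s =
            if s = 0 then si K g s else 0 := by
          intro s _
          split_ifs <;> simp
        rw [sum_congr rfl h1, sum_ite_eq' (range (2 ^ K)) 0 (fun s : ℕ => si K g s), if_pos hmem]
        simp [si]
    | some i => exact hml i g (hbd2 i g hg)
  · -- w0
    intro o g
    cases o with
    | none => exact (hB4 _ 0).2.1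
    | some i => exact hw0 i g
  · -- we
    intro o g
    cases o with
    | none =>
      change tri (((-g : ℤ) : ℝ) / ((2 ^ e0 : ℕ) : ℝ)) = tri ((g : ℝ) / ((2 ^ e0 : ℕ) : ℝ))
      have h1 : ((-g : ℤ) : ℝ) / ((2 ^ e0 : ℕ) : ℝ) = -((g : ℝ) / ((2 ^ e0 : ℕ) : ℝ)) := by
        push_cast
        ring
      rw [h1]
      exact (hB4 _ 0).2.2.2.2.2
    | some i => exact hwe i g
  · -- sy
    intro o g hg
    cases o with
    | none =>
      have h1 := mem_Ioo.1 hg
      change -g ∈ Ioo _ _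
      rw [mem_Ioo]
      constructor <;> linarith [h1.1, h1.2]
    | some i => exact hsy i g hg
  · -- gL
    intro o g hg
    cases o with
    | none =>
      have h1 := mem_Ioo.1 hg
      change |g| ≤ ((2 ^ e0 : ℕ) : ℤ)
      rw [abs_le]
      constructor <;> linarith [h1.1, h1.2]
    | some i => exact hbd i g hg
  · -- sL
    rw [Fintype.sum_option]
    change 4 * (((2 ^ e0 : ℕ) : ℤ) + ∑ i : ι, (2 : ℤ) ^ (a i + H)) ≤ 2 ^ K
    obtain ⟨k, hk⟩ : ∃ k, K = e0 + 4 + k := ⟨K - (e0 + 4), by have := hc.eK; omega⟩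
    have h1 : 16 * (((2 ^ e0 : ℕ) : ℤ)) ≤ 2 ^ K := by
      push_cast
      rw [hk, pow_add, pow_add]
      have h2 : (1 : ℤ) ≤ 2 ^ k := one_le_pow₀ (by norm_num)
      have h3 : (0 : ℤ) < 2 ^ e0 := by positivity
      nlinarith
    have h2 : 16 * ∑ i : ι, (2 : ℤ) ^ (a i + H) ≤ 2 ^ K := by
      rcases isEmpty_or_nonempty ι with hι | hι
      · simp
      obtain ⟨i0⟩ := hι
      have hKH : H + 20 ≤ K := by
        have := hc.aK i0
        omega
      have h3 : ∀ i ∈ (univ : Finset ι), (2 : ℤ) ^ (a i + H) ≤ 2 ^ (K - H - 20) := by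
        intro i _
        apply pow_le_pow_right₀ (by norm_num)
        have := hc.aK i
        omega
      have h4 : ∑ i : ι, (2 : ℤ) ^ (a i + H) ≤ (Fintype.card ι : ℤ) * 2 ^ (K - H - 20) := by
        refine (sum_le_sum h3).trans (le_of_eq ?_)
        rw [sum_const, nsmul_eq_mul, card_univ]
      have h5 : (Fintype.card ι : ℤ) ≤ 2 ^ H := by exact_mod_cast hc.card
      have h6 : (2 : ℤ) ^ K = 2 ^ H * 2 ^ (K - H - 20) * 2 ^ 20 := by
        rw [← pow_add, ← pow_add]
        congr 1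
        omega
      have h7 : (0 : ℤ) < 2 ^ (K - H - 20) := by positivity
      have h8 : (Fintype.card ι : ℤ) * 2 ^ (K - H - 20) ≤ 2 ^ H * 2 ^ (K - H - 20) :=
        mul_le_mul_of_nonneg_right h5 h7.le
      rw [h6]
      have h9 : (0 : ℤ) ≤ 2 ^ H * 2 ^ (K - H - 20) := by positivity
      have h10 : (2 : ℤ) ^ 20 = 1048576 := by norm_num
      rw [h10]
      nlinarith
    linarith
  · -- kp
    intro o x
    cases o with
    | none => exact (hFEJ K (2 ^ e0) (Nat.one_le_two_pow)).1 x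
    | some i =>
      change (0 : ℝ) ≤ ∑ g ∈ Spf i, wf i g * co K g x
      rw [← hker i x]
      unfold ker
      refine prod_nonneg (fun d _ => pow_nonneg ?_ _)
      have : -1 ≤ co K d x := Real.neg_one_le_cos _
      linarith
  · rfl
  · intro g
    rfl
  · intro g
    exact ⟨rfl, rfl⟩
  · intro i g hg
    exact hspn i g hg
  · intro i x
    exact hker i x
  · intro i
    exact ⟨h0 i, hlow i⟩
  · intro i g
    exact ⟨rfl, rfl⟩
  · intro o g hg
    cases o with
    | none =>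
      change (1 : ℝ) ^ 2 + 0 ^ 2 ≤ 1
      norm_num
    | some i => exact (hB6 (a i) g).1

end Pool.Agent.Helper56.OS
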