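import Pool.Agent.Helper56.OS.StC
import Pool.Agent.Helper57.SN.M_Rf
import Pool.Agent.Helper57.SN.M_orth

/-! Project OS, module CF2: the coefficients `Rf` of a configuration. -/

set_option autoImplicit false

open Finset

namespace Pool.Agent.Helper56.OS

open Pool.Agent.Helper57.SN (co si Spn av ker Wt Rf m_Rf m_orth)

theorem ker_nonneg_CF2 (K m0 : ℕ) (D : Finset ℕ) (x : ℤ) : 0 ≤ ker K m0 D x := by
  unfold ker
  refine prod_nonneg fun d _ => pow_nonneg ?_ _
  have := Real.neg_one_le_cos (2 * Real.pi * ((d : ℤ) : ℝ) * x / 2 ^ K)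
  unfold co
  linarith

theorem ker_le_one_CF2 (K m0 : ℕ) (D : Finset ℕ) (x : ℤ) : ker K m0 D x ≤ 1 := by
  unfold ker
  refine prod_le_one (fun d _ => pow_nonneg ?_ _) (fun d _ => pow_le_one₀ ?_ ?_)
  · have := Real.neg_one_le_cos (2 * Real.pi * ((d : ℤ) : ℝ) * x / 2 ^ K)
    unfold co
    linarith
  · have := Real.neg_one_le_cos (2 * Real.pi * ((d : ℤ) : ℝ) * x / 2 ^ K)
    unfold co
    linarith
  · have := Real.cos_le_one (2 * Real.pi * ((d : ℤ) : ℝ) * x / 2 ^ K)
    unfold co
    linarith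

theorem co_zero_CF2 (K : ℕ) (x : ℤ) : co K 0 x = 1 := by
  unfold co
  simp

theorem av_mono_CF2 (K : ℕ) (f g : ℕ → ℝ) (h : ∀ x, f x ≤ g x) : av K f ≤ av K g := by
  unfold av
  have := sum_le_sum (fun x (_ : x ∈ range (2 ^ K)) => h x)
  gcongr

theorem p_CF2 (hBHR : St_BHR) (hFEJ : St_FEJ) : St_CF2 := by
  intro ι _ _ K H m0 r e0 a D b Ω ε Sp w P Q L μ hc hk
  have hRf := m_Rf m_orth (Option ι) K Sp w L hk.w0 hk.we hk.sy hk.gL hk.sL hk.kp
  have hm0 : (1 : ℝ) ≤ m0 := by exact_mod_cast hc.m1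
  have hq0 : (0 : ℝ) < 1 / (2 * m0) := by positivity
  have hq1 : (1 : ℝ) / (2 * m0) ≤ 1 := by
    rw [div_le_one (by positivity)]
    linarith
  -- the lower bound of the mass
  have hlow : (1 / (2 * m0) : ℝ) ^ (Fintype.card ι * r) ≤ Rf Sp w 0 := by
    have hmem : (fun _ : Option ι => (0 : ℤ)) ∈ Fintype.piFinset Sp := by
      rw [Fintype.mem_piFinset]
      intro i
      cases i with
      | none =>
        rw [hk.none1, mem_Ioo]
        have : (0 : ℤ) < ((2 ^ e0 : ℕ) : ℤ) := by positivity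
        constructor <;> linarith
      | some i => exact (hk.w00 i).1
    have h1 : (if ∑ _i : Option ι, (0 : ℤ) = 0 then Wt w (fun _ : Option ι => (0 : ℤ)) else 0) ≤
        Rf Sp w 0 := by
      unfold Rf
      refine single_le_sum (f := fun v : Option ι → ℤ => if ∑ i, v i = 0 then Wt w v else 0)
        (fun v _ => ?_) hmem
      split_ifs
      · exact prod_nonneg fun i _ => hk.w0 i _
      · exact le_refl 0
    rw [if_pos (by simp)] at h1
    refine le_trans ?_ h1
    unfold Wt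
    rw [Fintype.prod_option, hk.none2]
    have h2 : tri (((0 : ℤ) : ℝ) / ((2 ^ e0 : ℕ) : ℝ)) = 1 := by
      unfold tri
      simp
    rw [h2, one_mul]
    calc (1 / (2 * m0) : ℝ) ^ (Fintype.card ι * r) = ∏ _i : ι, (1 / (2 * m0) : ℝ) ^ r := by
          rw [prod_const, card_univ, ← pow_mul, mul_comm (Fintype.card ι) r]
      _ ≤ ∏ i : ι, w (some i) 0 := by
          refine prod_le_prod (fun i _ => by positivity) (fun i _ => ?_)
          exact (pow_le_pow_of_le_one hq0.le hq1 (hc.cr i)).trans (hk.w00 i).2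
  have hpos : 0 < Rf Sp w 0 := lt_of_lt_of_le (by positivity) hlow
  refine ⟨hpos, fun γ hγ => (hRf γ hγ).2, ?_⟩
  intro i γ hγ hspn
  -- the product of the other kernels
  set F : ℕ → ℝ := fun x => (∑ g ∈ Sp none, w none g * co K g x) *
    ∏ j ∈ univ.erase i, ker K m0 (D j) x with hF
  have hfac : ∀ x : ℕ, ker K m0 (D i) x * F x = ∏ j : Option ι, ∑ g ∈ Sp j, w j g * co K g x := by
    intro x
    rw [Fintype.prod_option, hF]
    simp only
    rw [← mul_prod_erase univ (fun j : ι => ∑ g ∈ Sp (some j), w (some j) g * co K g x)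
      (mem_univ i), ← hk.ker i x, prod_congr rfl (fun j _ => (hk.ker j x).symm)]
    ring
  have hF0 : ∀ x, 0 ≤ F x := fun x =>
    mul_nonneg (hk.kp none x) (prod_nonneg fun j _ => ker_nonneg_CF2 K m0 (D j) x)
  have hFav : av K F ≤ 1 := by
    have h1 : av K (fun x => ∑ g ∈ Sp none, w none g * co K g x) = 1 := by
      have h2 := (hFEJ K (2 ^ e0) Nat.one_le_two_pow).2
        (Nat.pow_le_pow_right (by norm_num) (by have := hc.eK; omega))
      rw [← h2]
      congr 1
      funext x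
      rw [hk.none1]
      exact sum_congr rfl fun g _ => by rw [hk.none2]
    rw [← h1]
    refine av_mono_CF2 K _ _ fun x => ?_
    rw [hF]
    simp only
    exact mul_le_of_le_one_right (hk.kp none x)
      (prod_le_one (fun j _ => ker_nonneg_CF2 K m0 (D j) x) fun j _ => ker_le_one_CF2 K m0 (D j) x)
  have hav0 : av K (fun x => ker K m0 (D i) x * F x) = Rf Sp w 0 := by
    rw [(hRf 0 (by simp)).1]
    congr 1
    funext x
    rw [hfac, co_zero_CF2, mul_one]
  have havγ : av K (fun x => ker K m0 (D i) x * F x * co K γ x) = Rf Sp w γ := by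
    rw [(hRf γ hγ).1]
    congr 1
    funext x
    rw [hfac]
  have h := hBHR K m0 r (D i) F γ ε hc.r1 (hc.cr i) hspn hc.e_pos hc.e_le hF0 hFav
    (by
      rw [hav0]
      exact hc.bohr.trans (mul_le_mul_of_nonneg_left hlow hc.e_pos.le))
  rw [hav0, havγ] at h
  exact h

end Pool.Agent.Helper56.OS
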