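import Pool.Agent.Helper56.OS.StC

/-! # Project OS, module CF3: structured frequencies -/

set_option autoImplicit false

open Finset

namespace Pool.Agent.Helper56.OS

open Pool.Agent.Helper57.SN (Wt Rf Spn)

private theorem oct_CF3 {Ω : Finset ℕ} {a d : ℕ} (h : d ∈ Oct Ω a) :
    2 ^ a < 2 * d ∧ d < 2 ^ (a + 1) := (mem_filter.1 h).2

private theorem disj_CF3 {Ω : Finset ℕ} {a a' H : ℕ} {D D' : Finset ℕ} (hD : D ⊆ Oct Ω a)
    (hD' : D' ⊆ Oct Ω a') (hH : 1 ≤ H) (h : a + 4 * H ≤ a') : Disjoint D D' := by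
  rw [Finset.disjoint_left]
  intro d h1 h2
  have e1 := (oct_CF3 (hD h1)).2
  have e2 := (oct_CF3 (hD' h2)).1
  have e3 : 2 ^ (a + 2) ≤ 2 ^ a' := Nat.pow_le_pow_right (by norm_num) (by omega)
  have e4 : 2 ^ (a + 2) = 2 * 2 ^ (a + 1) := by ring
  omega

theorem p_CF3 (hSHP : St_SHP) (hPHS : St_PHS) : St_CF3 := by
  intro ι _ _ K H m0 r e0 a D b Ω ε Sp w P Q L μ hc hk i ω hω hsp
  have hH := hc.H10
  have ho := oct_CF3 hω
  have hω0 : (0 : ℤ) < ω := by
    have : 0 < 2 ^ (a i) := by positivity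
    have h1 : 0 < ω := by omega
    exact_mod_cast h1
  have ho1 : (2 : ℤ) ^ (a i) < 2 * (ω : ℤ) := by exact_mod_cast ho.1
  have ho2 : (ω : ℤ) < 2 ^ (a i + 1) := by exact_mod_cast ho.2
  set c : ℝ := phi (ω / 2 ^ (a i)) / 3 with hcdef
  set B : ℝ := 2 * (Fintype.card ι + 1) / 2 ^ H with hB
  -- the bound for one representation
  have key : ∀ v ∈ Fintype.piFinset Sp, ∑ j, v j = (ω : ℤ) →
      |(∏ j, ((P j (v j) : ℂ) + Complex.I * Q j (v j))).im - c| ≤ B := by
    intro v hv hsum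
    rw [Fintype.mem_piFinset] at hv
    have hz : |v none| < ((2 ^ e0 : ℕ) : ℤ) := by
      have := hv none
      rw [hk.none1, mem_Ioo] at this
      rw [abs_lt]
      exact this
    rw [Fintype.sum_option] at hsum
    have hS := hSHP ι H m0 r (2 ^ e0) a D (by omega) hc.m1 hc.rm hc.sep
      (fun i j hij => by
        rcases hc.sep i j hij with h | h
        · exact disj_CF3 (hc.sub i) (hc.sub j) (by omega) h
        · exact (disj_CF3 (hc.sub j) (hc.sub i) (by omega) h).symm)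
      (fun j d hd => (oct_CF3 (hc.sub j hd)).2) hc.cr
      (fun j => by
        rw [← pow_add]
        exact Nat.pow_le_pow_right (by norm_num) (by have := hc.ae j; omega))
      hc.hit (ω : ℤ) (fun j => v (some j)) (v none) hω0
      (fun j => hk.spn j _ (hv (some j))) hz (by rw [← hsum]; ring)
    obtain ⟨-, -, s3, s4⟩ := hS
    have h3 := s3 i ho1 ho2
    have h4 := (s4 i hsp ho1 ho2).1
    have hP := (hPHS ι H a (fun j => v (some j)) (ω : ℤ) (by omega) hω0).2 i h3 h4
    have e : ∏ j, ((P j (v j) : ℂ) + Complex.I * Q j (v j)) =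
        ∏ j : ι, ((PP (a j) (v (some j)) : ℂ) + Complex.I * QQ (a j) (v (some j))) := by
      rw [Fintype.prod_option, (hk.none3 _).1, (hk.none3 _).2]
      have e1 : ((1 : ℝ) : ℂ) + Complex.I * ((0 : ℝ) : ℂ) = 1 := by simp
      rw [e1, one_mul]
      exact Finset.prod_congr rfl fun j _ => by rw [(hk.PQ j _).1, (hk.PQ j _).2]
    rw [e]
    rw [Int.cast_natCast] at hP
    exact hP
  have hW : ∀ v, 0 ≤ Wt w v := fun v => by
    unfold Wt
    exact Finset.prod_nonneg fun j _ => hk.w0 j _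
  have e1 : Co Sp w P Q ω - c * Rf Sp w ω = ∑ v ∈ Fintype.piFinset Sp,
      if ∑ j, v j = (ω : ℤ) then
        Wt w v * ((∏ j, ((P j (v j) : ℂ) + Complex.I * Q j (v j))).im - c) else 0 := by
    unfold Co Rf
    rw [Finset.mul_sum, ← Finset.sum_sub_distrib]
    refine Finset.sum_congr rfl fun v _ => ?_
    split_ifs
    · ring
    · ring
  have e2 : B * Rf Sp w ω = ∑ v ∈ Fintype.piFinset Sp,
      if ∑ j, v j = (ω : ℤ) then Wt w v * B else 0 := by
    unfold Rf
    rw [Finset.mul_sum]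
    refine Finset.sum_congr rfl fun v _ => ?_
    split_ifs
    · ring
    · ring
  rw [e1, e2]
  refine (Finset.abs_sum_le_sum_abs _ _).trans (Finset.sum_le_sum fun v hv => ?_)
  split_ifs with h
  · rw [abs_mul, abs_of_nonneg (hW v)]
    exact mul_le_mul_of_nonneg_left (key v hv h) (hW v)
  · simp

end Pool.Agent.Helper56.OS
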