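import Pool.Agent.Helper56.OS.Defs

/-! # Project OS, statements B: bump laws, Carleson inequality, intervals, survivors.

`tri`, `phi`, `PP`, `QQ`, `GS`, `Ph`, `Bm`, `Oct`, `lb`, `bI`, `aI`, `FamS`, `Lb`, `cs`, `NS`, `pmS`
are defined in `Defs`. -/

set_option autoImplicit false

open Finset

namespace Pool.Agent.Helper56.OS

open Pool.Agent.Helper57.SN (co si SS dd th Spn stm av BC blk Lv)

/-- **LAW** (bump law).  `n = 2^(a-1)`.  Put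
`μ(s) = 2^(-K) Fej(s) (1 + (2/3) si (2n) s + (1/3) si (3n) s)` with
`Fej(s) = Σ_{|g| < n} (1 - |g|/n) co g s = |Σ_{0 ≤ j < n} e(js)|²/n ≥ 0` (`e(y) = exp(2πi y/2^K)`);
the last factor is `≥ 0` as `2/3 + 1/3 = 1`.  All frequencies of `μ` are `< 4n ≤ 2^(K-2)` in absolute
value, so by orthogonality (`Σ_{s < 2^K} e(ms) = 0` unless `2^K ∣ m`) for `2|h| ≤ 2^K`
`Σ_s μ(s) e(hs) = tri(h/n) + (2/3) (1/(2i)) (tri((h+2n)/n) - tri((h-2n)/n))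
 + (1/3) (1/(2i)) (tri((h+3n)/n) - tri((h-3n)/n))`.
The real part is `tri(h/n) = PP a h`, the imaginary part
`(1/3)(tri(h/n-2) - tri(h/n+2)) + (1/6)(tri(h/n-3) - tri(h/n+3))`, and
`2 tri(u-2) + tri(u-3) = 2 phi(u/2)` for all real `u` (check on `[1,2]`, `[2,3]`, `[3,4]`, zero
elsewhere), which is `QQ a h` (`u = h/n = 2h/2^a`). -/
def St_LAW : Prop := ∀ (K a : ℕ), 1 ≤ a → a + 3 ≤ K → ∃ μ : ℕ → ℝ, (∀ s, 0 ≤ μ s) ∧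
  (∑ s ∈ range (2 ^ K), μ s = 1) ∧
  ∀ h : ℤ, 2 * |h| ≤ 2 ^ K → (∑ s ∈ range (2 ^ K), μ s * co K h s = PP a h) ∧
    (∑ s ∈ range (2 ^ K), μ s * si K h s = QQ a h)

/-- **PHB** (elementary facts on `phi`, `tri`, `PP`, `QQ`).  For the fifth part: for
`1 ≤ ω < 2^A` let `2^e ≤ ω < 2^(e+1)`, `e < A`; only `a = e` and `a = e + 1` contribute,
`(2 - ω/2^e) + (2 ω/2^(e+1) - 1) = 1`. -/
def St_PHB : Prop :=
  (∀ y : ℝ, 0 ≤ phi y ∧ phi y ≤ 1) ∧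
  (∀ y : ℝ, phi y ≠ 0 → 1 / 2 < y ∧ y < 2) ∧
  (∀ x y : ℝ, |phi x - phi y| ≤ 2 * |x - y|) ∧
  (∀ x y : ℝ, |tri x - tri y| ≤ |x - y| ∧ 0 ≤ tri x ∧ tri x ≤ 1 ∧ (1 ≤ |x| → tri x = 0) ∧
    1 - |x| ≤ tri x ∧ tri (-x) = tri x) ∧
  (∀ ω A : ℕ, 1 ≤ ω → ω < 2 ^ A → ∑ a ∈ range (A + 1), phi (ω / 2 ^ a) = 1) ∧
  (∀ (a : ℕ) (h : ℤ), PP a h ^ 2 + QQ a h ^ 2 ≤ 1 ∧ 0 ≤ PP a h ∧ PP a (-h) = PP a h ∧
    QQ a (-h) = - QQ a h) ∧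
  (∀ (a : ℕ) (h : ℤ), (2 * |h| ≤ 2 ^ a ∨ 2 ^ (a + 1) ≤ |h|) → QQ a h = 0) ∧
  (∀ (a : ℕ) (h : ℤ), 0 ≤ h → QQ a h = phi (h / 2 ^ a) / 3)

/-- **PHI** (uses `St_LAW`, `St_PHB`).  Average `f` over the bump law of scale `2^a`:
`Σ_s μ(s) f(s) = Σ_ω b ω QQ a ω = Ph/3`.  Second part: for each `ω` at most 5 values of `a` satisfy
`2^a ≤ 4ω ≤ 2^(a+4)`. Third part: exchange the sums, fifth part of `St_PHB`. -/
def St_PHI : Prop := ∀ (K : ℕ) (b : ℕ → ℝ) (Ω : Finset ℕ), GS K b Ω →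
  (∀ a : ℕ, 1 ≤ a → a + 3 ≤ K → |Ph b Ω a| ≤ 3) ∧
  (∀ A : ℕ, ∑ a ∈ range A, Bm b Ω a ≤ 5 * ms b Ω) ∧
  (∀ A : ℕ, (∀ ω ∈ Ω, ω < 2 ^ A) → ∑ a ∈ range (A + 1), Ph b Ω a = ∑ ω ∈ Ω, b ω) ∧
  (∀ a : ℕ, |Ph b Ω a| ≤ Bm b Ω a ∧ ms b (Oct Ω a) ≤ Bm b Ω a ∧ 0 ≤ Bm b Ω a) ∧
  (∀ a : ℕ, Ph b Ω a = ∑ ω ∈ Oct Ω a, b ω * phi (ω / 2 ^ a)) ∧
  (∑ ω ∈ Ω, b ω ^ 2 ≤ 2)

/-- **CAR** (signed Carleson inequality at the origin, averaged over shifts).  `n = 2^e`.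
For the law of `St_LAW` with parameter `a`, `f * μ_a (x) = Σ_s μ_a(s) (f(x-s) + f(x+s))/2
= Σ b ω PP a ω si ω x` is bounded by 1 for `x : ℤ`.  High-pass part
`g = f - 2 f * μ_{e+3} + f * μ_{e+2} = Σ b' ω si ω x`, `b' ω = b ω (1 - 2 tri(ω/4n) + tri(ω/2n))`, `|g| ≤ 4`;
`b' ω = 0` for `ω ≤ 2n` and `b' ω = b ω` for `ω ≥ 4n`.  Average `g²` over `μ_{e+1}`:
`16 ≥ (1/2) Σ_{ω,ω'} b' b' (tri((ω-ω')/n) - tri((ω+ω')/n))`, the last term vanishes when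
`b' ω b' ω' ≠ 0`.  For fixed `ω, ω'` the number of `y0 < 2^E` with `lb e y0 ω = lb e y0 ω'` is
`2^E tri((ω-ω')/n)` (in every period of length `n` of `y0` it is `max (n - |ω-ω'|) 0`).  So
`Σ_{y0} Σ_t (Σ_{lb = t} b' ω)² = 2^E Σ b' b' tri((ω-ω')/n) ≤ 32 * 2^E`.  For the labels `t` of the
filter all `ω` with label `t` are `≥ 4n`, so `b' = b` there; the other squares are `≥ 0`. -/
def St_CAR : Prop := ∀ (K : ℕ) (b : ℕ → ℝ) (Ω : Finset ℕ), GS K b Ω → ∀ e E : ℕ, e ≤ E → e + 6 ≤ K →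
  ∑ y0 ∈ range (2 ^ E), ∑ t ∈ (Ω.image (lb e y0)).filter (fun t => y0 + 4 * 2 ^ e ≤ t * 2 ^ e),
    bI b Ω e y0 t ^ 2 ≤ 32 * 2 ^ E

/-- square sum of the intervals of scale `i` that meet the octaves of the levels `l ≥ 2 * 2^i` -/
noncomputable def sq (b : ℕ → ℝ) (Ω : Finset ℕ) (al : ℕ → ℕ) (y0 i l : ℕ) : ℝ :=
  ∑ t ∈ (Oct Ω (al l)).image (lb (al (cc (2 ^ i) l)) y0), bI b Ω (al (cc (2 ^ i) l)) y0 t ^ 2

/-- **SQI** (one scale; uses `St_CAR`, `S_CCS`).  Group the levels `l ∈ [2 * 2^i, T)` by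
`c = cc (2^i) l`, a multiple of `d = 2^i` with `d ≤ c`, `c + d ≤ l < c + 2d`, so there are at most
`T/d` values of `c`.  For fixed `c` (`e = al c ≤ E`): the labels of the octave of `l` satisfy the
condition of the filter of `St_CAR` (`t 2^e > ω + y0 - 2^e` with `2ω > 2^(al l) ≥ 2^(e + 4H)`), and the
labels of the octaves of `l < l'` are disjoint (elements of the octaves differ by more than
`2^(al l) ≥ 2^e`).  So the sum over the group is at most the sum in `St_CAR`. -/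
def St_SQI : Prop := ∀ (K H T E : ℕ) (b : ℕ → ℝ) (Ω : Finset ℕ) (al : ℕ → ℕ) (q μ : ℝ), GS K b Ω →
  FamS K H T b Ω al q μ → 1 ≤ H → (∀ j < T, al j ≤ E) → ∀ i : ℕ,
  ∑ y0 ∈ range (2 ^ E), ∑ l ∈ (range T).filter (fun l => 2 * 2 ^ i ≤ l), sq b Ω al y0 i l ≤
    32 * 2 ^ E * (T / 2 ^ i)

/-- **Y0** (choice of the shift; uses `St_SQI`).  `Σ_{y0 < 2^E} Σ_{i<I} (2^i/T) (sum of scale i)
≤ 32 I 2^E`, so some `y0` has `Σ_i (2^i/T) (…) ≤ 32 I`; all terms are `≥ 0`. (`T = 0`: trivial.) -/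
def St_Y0 : Prop := ∀ (K H T : ℕ) (b : ℕ → ℝ) (Ω : Finset ℕ) (al : ℕ → ℕ) (q μ : ℝ), GS K b Ω →
  FamS K H T b Ω al q μ → 1 ≤ H → ∀ I : ℕ, ∃ y0 : ℕ, ∀ i < I,
  ∑ l ∈ (range T).filter (fun l => 2 * 2 ^ i ≤ l), sq b Ω al y0 i l ≤ 32 * I * (T / 2 ^ i)

/-- **LBC** (few large intervals).  Let `thr = Q/(2^i μ)`, `e = al c`, `c = cc (2^i) l < l`, so
`e + 4H ≤ al l`.  A label `t'` adjacent or equal to the label `t` of some `ω0` in the octave: all `ω`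
with label `t'` satisfy `|ω - ω0| < 2 * 2^e ≤ 2^(al l - 2)`, so `2^(al l) ≤ 4ω` and `ω ≤ 2^(al l + 2)`.
The large `t'` of this kind have `(number) thr ≤ Bm` (disjoint intervals) and each is adjacent to at
most 3 labels `t`. -/
def St_LBC : Prop := ∀ (K H T : ℕ) (b : ℕ → ℝ) (Ω : Finset ℕ) (al : ℕ → ℕ) (q μ Q : ℝ),
  FamS K H T b Ω al q μ → 1 ≤ H → 0 < Q → ∀ y0 i l : ℕ, l < T → 2 * 2 ^ i ≤ l →
  ((Lb b Ω al Q μ y0 i l).card : ℝ) * (Q / (2 ^ i * μ)) ≤ 3 * Bm b Ω (al l)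

/-- **CSB** (class sums; uses `St_LBC`).  Cauchy–Schwarz twice:
`Σ_l cs ≤ √(Σ_l |Lb|) √(Σ_l sq)`, `|Lb| ≤ 3 Bm 2^i μ/Q ≤ 24 q μ² 2^i/Q` (`Bm ≤ 4 q Ph ≤ 8 q μ`). -/
def St_CSB : Prop := ∀ (K H T : ℕ) (b : ℕ → ℝ) (Ω : Finset ℕ) (al : ℕ → ℕ) (q μ Q : ℝ),
  FamS K H T b Ω al q μ → 1 ≤ H → 0 < Q → ∀ (y0 i I : ℕ),
  ∑ l ∈ (range T).filter (fun l => 2 * 2 ^ i ≤ l), sq b Ω al y0 i l ≤ 32 * I * (T / 2 ^ i) →
  ∑ l ∈ (range T).filter (fun l => 2 * 2 ^ i ≤ l), cs b Ω al Q μ y0 i l ≤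
    T * μ * Real.sqrt (768 * q * I / Q)

/-- total class sum of level `l` -/
noncomputable def cst (b : ℕ → ℝ) (Ω : Finset ℕ) (al : ℕ → ℕ) (Q μ : ℝ) (y0 I l : ℕ) : ℝ :=
  ∑ i ∈ (range I).filter (fun i => 2 * 2 ^ i ≤ l), cs b Ω al Q μ y0 i l

open Classical in
/-- **LOSS** (few lossy levels; uses `St_CSB`).  Markov: for a lossy `l`, `cst > Ph/100 > μ/100`. -/
def St_LOSS : Prop := ∀ (K H T : ℕ) (b : ℕ → ℝ) (Ω : Finset ℕ) (al : ℕ → ℕ) (q μ Q : ℝ),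
  FamS K H T b Ω al q μ → 1 ≤ H → 0 < Q → ∀ (y0 I : ℕ), (∀ i < I,
  ∑ l ∈ (range T).filter (fun l => 2 * 2 ^ i ≤ l), sq b Ω al y0 i l ≤ 32 * I * (T / 2 ^ i)) →
  ((((range T).filter (fun l => Ph b Ω (al l) / 100 < cst b Ω al Q μ y0 I l)).card : ℕ) : ℝ) ≤
    100 * (I * (T * Real.sqrt (768 * q * I / Q)))

open Classical in
/-- **MAXI** (maximal intervals, abstract).  For `j < p` let
`X_j = {ω : lam j ω ∈ L j, lam i ω ∉ L i for all i < j}`.  The `X_j` are disjoint with union the set of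
the sum, and `X_j` is a union of full fibres of `lam j` (the label `lam i ω`, `i < j`, is determined
by `lam j ω`): `X_j = {ω : lam j ω ∈ L'_j}` on `Ω`, `L'_j ⊆ L j`.  On a fibre `{lam j = t}`:
`|Σ b C| ≤ Cm |Σ b| + o Σ |b|` (compare with the value of `C` at one point; points of a fibre of
`lam j` are in one fibre of `lam 0`). -/
def St_MAXI : Prop := ∀ (Ω : Finset ℕ) (p : ℕ) (lam : ℕ → ℕ → ℕ) (L : ℕ → Finset ℕ) (b C : ℕ → ℝ)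
  (Cm o : ℝ), 0 ≤ o → 0 ≤ Cm →
  (∀ j, j + 1 < p → ∀ ω ω', lam (j + 1) ω = lam (j + 1) ω' → lam j ω = lam j ω') →
  (∀ ω ∈ Ω, |C ω| ≤ Cm) → (∀ ω ∈ Ω, ∀ ω' ∈ Ω, lam 0 ω = lam 0 ω' → |C ω - C ω'| ≤ o) →
  |∑ ω ∈ Ω.filter (fun ω => ∃ j < p, lam j ω ∈ L j), b ω * C ω| ≤
    Cm * (∑ j ∈ range p, ∑ t ∈ L j, |∑ ω ∈ Ω with lam j ω = t, b ω|) +
    o * ∑ ω ∈ Ω.filter (fun ω => ∃ j < p, lam j ω ∈ L j), |b ω|

/-- **FAR** (uses `St_MAXI`, `S_CCS`).  The scales `i ∈ [i0, I)` with `2 * 2^i ≤ l` form an initial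
segment `[i0, i0 + p)`; labels `lam j = lb (al (cc (2^(i0+j)) l)) y0`; `cc` decreases with `i`, `al` is
increasing and `(ω + y0)/2^e` determines `(ω + y0)/2^e'` for `e' ≥ e`.  Equal `lam 0` labels have
distance `< 2^(al (cc (2^i0) l))`.  The elements of `NS` lie in `[2^(al l - 2), 2^(al l + 2)]` (as in
`St_LBC`), so their mass is at most `Bm`.  If `2 * 2^i0 > l` the set is empty. -/
def St_FAR : Prop := ∀ (K H T : ℕ) (b : ℕ → ℝ) (Ω : Finset ℕ) (al : ℕ → ℕ) (q μ Q : ℝ),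
  FamS K H T b Ω al q μ → 1 ≤ H → ∀ (y0 I l i0 : ℕ), l < T →
  (∀ ω ∈ NS b Ω al Q μ y0 I l i0, 2 ^ (al l) ≤ 4 * ω ∧ ω ≤ 2 ^ (al l + 2)) ∧
  ∀ (C : ℕ → ℝ) (o : ℝ), 0 ≤ o →
  (∀ ω ∈ Ω, |C ω| ≤ 1) → (∀ ω ∈ Ω, ∀ ω' ∈ Ω, |(ω : ℤ) - ω'| < 2 ^ (al (cc (2 ^ i0) l)) →
    |C ω - C ω'| ≤ o) →
  |∑ ω ∈ NS b Ω al Q μ y0 I l i0, b ω * C ω| ≤ cst b Ω al Q μ y0 I l + o * Bm b Ω (al l)

/-- **NB** (neighbourhoods of the survivors).  The label `t` of `ω` is the label of an element of the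
octave and is not in `Lb`, so the three intervals `t-1, t, t+1` have mass at most `Q/(2^i μ)`; every
`ω'` at distance at most `2^e` has one of these labels. -/
def St_NB : Prop := ∀ (b : ℕ → ℝ) (Ω : Finset ℕ) (al : ℕ → ℕ) (Q μ : ℝ) (y0 I l i0 i ω : ℕ),
  0 < Q → 0 < μ → ω ∈ Oct Ω (al l) → ω ∉ NS b Ω al Q μ y0 I l i0 → i0 ≤ i → i < I → 2 * 2 ^ i ≤ l →
  ∑ ω' ∈ Ω.filter (fun ω' : ℕ => |(ω' : ℤ) - ω| ≤ 2 ^ (al (cc (2 ^ i) l))), |b ω'| ≤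
    3 * (Q / (2 ^ i * μ))

open Classical in
/-- **DICH** (structured or unstructured).  Greedy: as long as there is `D' ⊆ W`, `|D'| < s`, with
`|b|(W ∩ Spn 1 D') > τ`, replace `W` by `W \ Spn 1 D'` (start `W = S`).  Every step removes mass `> τ`, so
there are at most `M/τ` steps; let `D*` be the union of the sets used, `|D*| ≤ s M/τ ≤ r`.  The final `W`
contains `S \ Spn 1 D*` (`Spn 1 D' ⊆ Spn 1 D*`), so its mass is `> β`, and satisfies the smallness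
condition, which passes to subsets.  Take the part of `W` where `b ≥ 0` or the part where `b < 0`. -/
def St_DICH : Prop := ∀ (S : Finset ℕ) (b : ℕ → ℝ) (M τ β : ℝ) (s r : ℕ), ms b S ≤ M → 0 < τ → 1 ≤ s →
  s * (M / τ) ≤ r →
  (∀ D ⊆ S, D.card ≤ r → β < ∑ ω ∈ S.filter (fun ω : ℕ => ¬ Spn 1 D (ω : ℤ)), |b ω|) →
  ∃ U ⊆ S, ((∀ ω ∈ U, 0 ≤ b ω) ∨ (∀ ω ∈ U, b ω ≤ 0)) ∧ β / 2 ≤ ms b U ∧
    ∀ D ⊆ U, D.card < s → stm (fun ω => |b ω|) U D ≤ τ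

/-- **ES** (sum of the pair masses over a segment; uses `St_NB`, `S_CCS`).  `c = cc (2^i) l > 0` means
`2 * 2^i ≤ l`.  For `j < c` (so `j + 1 ≤ c`) the differences `h` counted in
`pmS b U Ω (2^(al j - 2H)) (2^(al (j+1)))` satisfy `h ≤ 2^(al c)`, and each `h` is counted for at most two
values of `j` (`al (j+2) - 2H ≥ al (j+1)`).  So the sum is at most
`2 Σ_{ξ ∈ U} |b ξ| Σ_{|ω-ξ| ≤ 2^(al c)} |b ω| ≤ 6 ms(U) Q/(2^i μ)`, and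
`ms(U) ≤ Bm ≤ 8 q μ`. -/
def St_ES : Prop := ∀ (K H T : ℕ) (b : ℕ → ℝ) (Ω : Finset ℕ) (al : ℕ → ℕ) (q μ Q : ℝ),
  FamS K H T b Ω al q μ → 1 ≤ H → 0 < Q → ∀ (y0 I l x i : ℕ) (U : Finset ℕ), l < T → x ≤ i → i < I →
  U ⊆ Oct Ω (al l) \ NS b Ω al Q μ y0 I l x →
  ∑ j ∈ range (cc (2 ^ i) l), pmS b U Ω (2 ^ (al j - 2 * H)) (2 ^ (al (j + 1))) ≤ 48 * q * Q / 2 ^ i

open Classical in
/-- the pair masses used in the tilt; `0` unless `l ∈ G` and `j < cut D 1 l` -/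
noncomputable def eO (H : ℕ) (b : ℕ → ℝ) (Ω : Finset ℕ) (al : ℕ → ℕ) (U : ℕ → Finset ℕ)
    (G : Finset ℕ) (D l j : ℕ) : ℝ :=
  if l ∈ G ∧ j < cut D 1 l then pmS b (U l) Ω (2 ^ (al j - 2 * H)) (2 ^ (al (j + 1))) else 0

open Classical in
/-- **EXC** (exceptional levels; uses `St_ES`, `S_CCS`).  `D = 2^x`, for `1 ≤ k`, `i = x + k - 1`,
`cut D k l = cc (2^i) l`.  `Σ_{j < T} Σ_{l ∈ G0, j ∈ seg_k(l)} eO l j ≤ 48 q Q T/2^i`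
(`St_ES`; for `i ≥ I`, `2 * 2^i > T` and the segments are empty), Markov, and union over `1 ≤ k < Kc`. -/
def St_EXC : Prop := ∀ (K H T : ℕ) (b : ℕ → ℝ) (Ω : Finset ℕ) (al : ℕ → ℕ) (q μ Q R : ℝ),
  FamS K H T b Ω al q μ → 1 ≤ H → 0 < Q → 0 < R → ∀ (y0 I x Kc : ℕ) (U : ℕ → Finset ℕ) (G0 : Finset ℕ),
  T ≤ 2 ^ I → G0 ⊆ range T → (∀ l ∈ G0, U l ⊆ Oct Ω (al l) \ NS b Ω al Q μ y0 I l x) →
  ∃ Ex ⊆ range T, (Ex.card : ℝ) ≤ Kc * (48 * q * Q * T / R) ∧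
    ∀ j ∈ range T, j ∉ Ex → ∀ k, 1 ≤ k → k < Kc →
      ∑ l ∈ G0.filter (fun l => cut (2 ^ x) (k + 1) l ≤ j ∧ j < cut (2 ^ x) k l),
        eO H b Ω al U G0 (2 ^ x) l j ≤ R / 2 ^ (x + k - 1)

/-- **INC** (increments of the conditional averages of `f u`; like `SN.St_P4`).  Replace `dd` by
`SS K |b| S` (error `27 B/2^H` pointwise, `SN.St_dd`, and `|f| ≤ 1`): total error `54 B/2^H`.  Expand
`f SS = (1/2) Σ_{ξ ∈ S, ω ∈ Ω} |b ξ| b ω (co (ω-ξ) - co (ω+ξ))`.  For `h = ω - ξ`: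
`|h| ≤ 2^(a1-2H)`: both block averages are within `2π/2^H` of `co h x` (`SN.St_orth`, Lipschitz bound);
`|h| > 2^a2`: both are at most `1/(2 * 2^H)` (`SN.St_trig`); otherwise the difference is at most `2`, in
total `pmS`.  `h = ω + ξ ≥ 2^(a-1) > 2^a2` is as in the second case (`2 h ≤ 2^K`).  Sum of the errors:
`(1/2) B Ms (4π + 1 + 1)/2^H ≤ 8 B Ms/2^H`. -/
def St_INC : Prop := ∀ (K H a a1 a2 : ℕ) (b : ℕ → ℝ) (S Ω : Finset ℕ) (B Ms : ℝ), GS K b Ω →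
  Lv K H a (fun ω => |b ω|) S B → S ⊆ Ω → ms b Ω ≤ Ms → 1 ≤ H →
  2 * H + 3 ≤ a1 → a1 + 4 * H ≤ a2 → a2 + 4 * H ≤ a → ∀ x,
    |blk (K - a2 + H) (fun y => SS K b Ω y * dd K H a (fun ω => |b ω|) S y) x -
      blk (K - a1 + H) (fun y => SS K b Ω y * dd K H a (fun ω => |b ω|) S y) x| ≤
      pmS b S Ω (2 ^ (a1 - 2 * H)) (2 ^ a2) + 54 * B / 2 ^ H + 8 * B * Ms / 2 ^ H

/-- **GA0** (value at time 0 and second moment).  `av (f SS_S) = (1/2) Σ_{ξ ∈ S} b ξ |b ξ|` by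
orthogonality (`SN.St_orth`), and `|dd - SS| ≤ 27 B/2^H`; on a set where `b` has sign `σ`,
`σ b ξ |b ξ| = b ξ²`.  Second part: `SN.St_L2`. -/
def St_GA0 : Prop := ∀ (K H a : ℕ) (b : ℕ → ℝ) (S Ω : Finset ℕ) (B σ : ℝ), GS K b Ω →
  Lv K H a (fun ω => |b ω|) S B → S ⊆ Ω → ((σ = 1 ∧ ∀ ω ∈ S, 0 ≤ b ω) ∨ (σ = -1 ∧ ∀ ω ∈ S, b ω ≤ 0)) →
  (∑ ξ ∈ S, b ξ ^ 2) / 2 - 27 * B / 2 ^ H ≤
    av K (fun x => SS K b Ω x * (σ * dd K H a (fun ω => |b ω|) S x)) ∧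
  av K (fun x => (σ * dd K H a (fun ω => |b ω|) S x) ^ 2) ≤
    (∑ ξ ∈ S, b ξ ^ 2) / 2 + 81 * B ^ 2 / 2 ^ H

end Pool.Agent.Helper56.OS
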