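import Pool.Agent.Helper56.OS.StC
import Pool.Agent.Helper56.OS.StB

/-! # Project OS, module CF4: frequencies outside the octaves that do not land. -/

set_option autoImplicit false

open Finset

namespace Pool.Agent.Helper56.OS

open Pool.Agent.Helper57.SN (co si SS dd th Spn stm av BC blk Lv ker Wt Rf St_ker St_Rf St_count St_avg)

theorem p_CF4 (hSHP : St_SHP) (hPHS : St_PHS) (hPHB : St_PHB) : St_CF4 := by
  intro ι _ _ K H m0 r e0 a D b Ω ε Sp w P Q L μ hc hk ω hω hout hland
  obtain ⟨-, hphi, -⟩ := hPHB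
  have hωpos : 0 < (ω : ℤ) := by exact_mod_cast hc.gs.pos ω hω
  -- the octaves
  have hoct : ∀ i, ∀ d ∈ D i, 2 ^ (a i) < 2 * d ∧ d < 2 ^ (a i + 1) := by
    intro i d hd
    have h := hc.sub i hd
    unfold Oct at h
    exact (mem_filter.mp h).2
  have hH := hc.H10
  have hdis0 : ∀ i j, a i + 4 * H ≤ a j → Disjoint (D i) (D j) := by
    intro i j hij
    rw [disjoint_left]
    intro d hdi hdj
    have h1 := (hoct i d hdi).2
    have h2 := (hoct j d hdj).1
    have h3 : 2 ^ (a j) < 2 ^ (a i + 2) := by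
      calc 2 ^ (a j) < 2 * d := h2
        _ < 2 * 2 ^ (a i + 1) := by omega
        _ = 2 ^ (a i + 2) := by ring
    have h4 := (Nat.pow_lt_pow_iff_right (by norm_num : 1 < 2)).mp h3
    omega
  have hdis : ∀ i j, i ≠ j → Disjoint (D i) (D j) := by
    intro i j hij
    rcases hc.sep i j hij with h | h
    · exact hdis0 i j h
    · exact (hdis0 j i h).symm
  have hn : ∀ i, 2 ^ e0 * 2 ^ (2 * H + 4) ≤ 2 ^ (a i) := by
    intro i
    rw [← pow_add]
    exact Nat.pow_le_pow_right (by norm_num) (by have := hc.ae i; omega)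
  have hS := hSHP ι H m0 r (2 ^ e0) a D (by omega) hc.m1 hc.rm hc.sep hdis
    (fun i d hd => (hoct i d hd).2) hc.cr hn hc.hit
  -- `phi` vanishes
  have hphi0 : ∀ i, phi (((ω : ℤ) : ℝ) / 2 ^ (a i)) = 0 := by
    intro i
    by_contra hne
    obtain ⟨h1, h2⟩ := hphi _ hne
    have hp : (0 : ℝ) < 2 ^ (a i) := by positivity
    rw [lt_div_iff₀ hp] at h1
    rw [div_lt_iff₀ hp] at h2
    rw [Int.cast_natCast] at h1 h2
    apply hout i
    unfold Oct
    refine mem_filter.mpr ⟨hω, ?_, ?_⟩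
    · have : ((2 ^ (a i) : ℕ) : ℝ) < ((2 * ω : ℕ) : ℝ) := by
        push_cast
        linarith
      exact_mod_cast this
    · have : ((ω : ℕ) : ℝ) < ((2 ^ (a i + 1) : ℕ) : ℝ) := by
        push_cast
        rw [pow_succ]
        linarith
      exact_mod_cast this
  -- the phases
  have hph : ∀ v ∈ Fintype.piFinset Sp, ∑ i, v i = (ω : ℤ) →
      |(∏ i, ((P i (v i) : ℂ) + Complex.I * Q i (v i))).im| ≤ 1 / 2 ^ H := by
    intro v hv hsum
    rw [Fintype.mem_piFinset] at hv
    have hz : |v none| < ((2 ^ e0 : ℕ) : ℤ) := by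
      have h := hv none
      rw [hk.none1, mem_Ioo] at h
      exact abs_lt.mpr h
    have hsum' : ∑ i, v (some i) + v none = (ω : ℤ) := by
      rw [← hsum, Fintype.sum_option]
      ring
    obtain ⟨s1, s2, -, -⟩ := hS (ω : ℤ) (fun i => v (some i)) (v none) hωpos
      (fun i => hk.spn i _ (hv (some i))) hz hsum'
    have hp := (hPHS ι H a (fun i => v (some i)) (ω : ℤ) (by omega) hωpos).1
      (fun i j h1 h2 h3 h4 => s2 i j h1 h2 h3 h4 (hland i) (hland j))
      (fun i h1 h2 => s1 i h1 h2 (hland i)) hphi0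
    have hprod : ∏ i, ((P i (v i) : ℂ) + Complex.I * Q i (v i)) =
        ∏ i : ι, ((PP (a i) (v (some i)) : ℂ) + Complex.I * QQ (a i) (v (some i))) := by
      rw [Fintype.prod_option, (hk.none3 (v none)).1, (hk.none3 (v none)).2]
      simp only [Complex.ofReal_one, Complex.ofReal_zero, mul_zero, add_zero, one_mul]
      refine prod_congr rfl fun i _ => ?_
      rw [(hk.PQ i (v (some i))).1, (hk.PQ i (v (some i))).2]
    rw [hprod]
    exact hp
  unfold Co Rf
  rw [mul_sum]
  refine (abs_sum_le_sum_abs _ _).trans (sum_le_sum fun v hv => ?_)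
  split_ifs with hs
  · have hW : 0 ≤ Wt w v := by
      unfold Wt
      exact prod_nonneg fun i _ => hk.w0 i _
    rw [abs_mul, abs_of_nonneg hW, mul_comm (1 / (2 : ℝ) ^ H)]
    exact mul_le_mul_of_nonneg_left (hph v hv hs) hW
  · simp

end Pool.Agent.Helper56.OS
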