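import Pool.Agent.Helper56.OS.StC
import Pool.Agent.Helper56.OS.StB

set_option autoImplicit false

open Finset

namespace Pool.Agent.Helper56.OS

open Pool.Agent.Helper57.SN (Spn Rf)

theorem p_CFG (hCF1 : St_CF1) (hCF2 : St_CF2) (hCF3 : St_CF3) (hCF4 : St_CF4) (hPR2 : St_PR2)
    (hOSC : St_OSC) (hPHB : St_PHB) : St_CFG := by
  intro ι _ _ K H m0 r e0 a D b Ω ε hC
  obtain ⟨Sp, w, P, Q, L, μ, hK⟩ := hCF1 ι K H m0 r e0 a D b Ω ε hC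
  obtain ⟨hR0, hRf, hRs⟩ := hCF2 ι K H m0 r e0 a D b Ω ε Sp w P Q L μ hC hK
  have h3 := hCF3 ι K H m0 r e0 a D b Ω ε Sp w P Q L μ hC hK
  have h4 := hCF4 ι K H m0 r e0 a D b Ω ε Sp w P Q L μ hC hK
  obtain ⟨hP1, hP2⟩ := hPR2 (Option ι) K μ P Q Sp w L hK.mu0 hK.mu1 hK.law hK.w0 hK.we hK.sy
    hK.gL hK.sL hK.kp
  have hO := hOSC ι K (2 ^ e0) Sp w P Q L Nat.one_le_two_pow
    (by
      have h1 := hC.eK
      calc 16 * 2 ^ e0 = 2 ^ (e0 + 4) := by rw [pow_add]; ring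
        _ ≤ 2 ^ K := Nat.pow_le_pow_right (by norm_num) h1)
    hK.w0 hK.we hK.sy hK.gL hK.sL hK.kp hK.none1 hK.none2 (fun g => (hK.none3 g).1)
    (fun g => (hK.none3 g).2) hK.pq1
  have hsm : ∀ ω ∈ Ω, 64 * |((ω : ℕ) : ℤ)| ≤ 2 ^ K := by
    intro ω hω
    have h1 := hC.gs.small ω hω
    rw [abs_of_nonneg (Int.natCast_nonneg ω)]
    exact_mod_cast h1
  have hsm0 : ∀ ω ∈ Ω, 0 ≤ |((ω : ℕ) : ℤ)| := fun ω _ => abs_nonneg _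
  have hdiv : ∀ x : ℝ, |x / Rf Sp w 0| = |x| / Rf Sp w 0 := fun x => by
    rw [abs_div, abs_of_pos hR0]
  refine ⟨fun ω => Co Sp w P Q ω / Rf Sp w 0, ?_, ?_, ?_, ?_, ?_⟩
  · intro ω hω
    show |Co Sp w P Q ω / Rf Sp w 0| ≤ 1
    have h1 := hP2 hK.pq1 (ω : ℤ)
    have h2 := (hRf (ω : ℤ) (by have := hsm ω hω; have := hsm0 ω hω; omega)).2
    rw [hdiv, div_le_one hR0]
    exact h1.trans h2
  · intro ω hω ω' _ hd
    show |Co Sp w P Q ω / Rf Sp w 0 - Co Sp w P Q ω' / Rf Sp w 0| ≤ _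
    have h1 := hO (ω : ℤ) (ω' : ℤ) (by have := hsm ω hω; have := hsm0 ω hω; omega)
      (by push_cast; exact hd)
    rw [← sub_div, hdiv, div_le_iff₀ hR0]
    refine h1.trans (le_of_eq ?_)
    push_cast
    ring
  · have h1 := hP1 b Ω hC.gs
    have h2 : ∑ ω ∈ Ω, b ω * (Co Sp w P Q ω / Rf Sp w 0) =
        (∑ ω ∈ Ω, b ω * Co Sp w P Q ω) / Rf Sp w 0 := by
      rw [sum_div]
      exact sum_congr rfl fun ω _ => (mul_div_assoc _ _ _).symm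
    show |∑ ω ∈ Ω, b ω * (Co Sp w P Q ω / Rf Sp w 0)| ≤ 1
    rw [h2, hdiv, div_le_one hR0]
    exact h1
  · intro i ω hω hs
    show |Co Sp w P Q ω / Rf Sp w 0 - phi (ω / 2 ^ (a i)) / 3| ≤ _
    have hωΩ : ω ∈ Ω := (mem_filter.1 hω).1
    have h5 := h3 i ω hω hs
    have hb4 : 4 * |((ω : ℕ) : ℤ)| ≤ 2 ^ K := by
      have := hsm ω hωΩ; have := hsm0 ω hωΩ; omega
    obtain ⟨h6, h7⟩ := hRf (ω : ℤ) hb4
    have h8 := hRs i (ω : ℤ) hb4 hs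
    obtain ⟨hp0, hp1⟩ := hPHB.1 ((ω : ℝ) / 2 ^ (a i))
    obtain ⟨p, hp⟩ : ∃ p : ℝ, p = phi ((ω : ℝ) / 2 ^ (a i)) := ⟨_, rfl⟩
    obtain ⟨κ, hκ⟩ : ∃ κ : ℝ, κ = 2 * ((Fintype.card ι : ℝ) + 1) / 2 ^ H := ⟨_, rfl⟩
    have hκ0 : 0 ≤ κ := by rw [hκ]; positivity
    rw [← hp] at hp0 hp1 h5 ⊢
    rw [← hκ] at h5 ⊢
    have h9 : Co Sp w P Q ω / Rf Sp w 0 - p / 3 =
        (Co Sp w P Q ω - p / 3 * Rf Sp w 0) / Rf Sp w 0 := by
      field_simp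
    rw [h9, hdiv, div_le_iff₀ hR0]
    have h10 : |Co Sp w P Q ω - p / 3 * Rf Sp w 0| ≤
        |Co Sp w P Q ω - p / 3 * Rf Sp w ω| + |p / 3 * (Rf Sp w ω - Rf Sp w 0)| := by
      refine le_trans (le_of_eq ?_) (abs_add_le _ _)
      congr 1
      ring
    have h11 : |p / 3 * (Rf Sp w ω - Rf Sp w 0)| ≤ ε * Rf Sp w 0 := by
      rw [abs_mul, abs_of_nonneg (by positivity : 0 ≤ p / 3), abs_of_nonpos (by linarith)]
      have h12 : -(Rf Sp w ω - Rf Sp w 0) ≤ ε * Rf Sp w 0 := by linarith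
      have h13 : 0 ≤ -(Rf Sp w ω - Rf Sp w 0) := by linarith
      nlinarith
    have h14 : κ * Rf Sp w ω ≤ κ * Rf Sp w 0 := mul_le_mul_of_nonneg_left h7 hκ0
    linarith
  · intro ω hω ho hl
    show |Co Sp w P Q ω / Rf Sp w 0| ≤ _
    have h1 := h4 ω hω ho hl
    have h2 := (hRf (ω : ℤ) (by have := hsm ω hω; have := hsm0 ω hω; omega)).2
    rw [hdiv, div_le_iff₀ hR0]
    exact h1.trans (mul_le_mul_of_nonneg_left h2 (by positivity))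

end Pool.Agent.Helper56.OS
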