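import Pool.Agent.Helper56.OS.StA

set_option autoImplicit false

open Finset

namespace Pool.Agent.Helper56.OS

open Pool.Agent.Helper56.SS (Fil Dat Hyp E S_NEG S_NEAR S_TEL S_BIG)

/-- the error of the segment `k` -/
private noncomputable def err_CHN {Ω : Type} [Fintype Ω] (d : Dat Ω) (D : ℕ) (t : ℕ → ℝ)
    (e : ℕ → ℕ → ℝ) (tau om : ℝ) (l k : ℕ) : ℝ :=
  if k = 0 then 0 else ∑ j ∈ d.G.filter (fun j => cut D (k + 1) l ≤ j ∧ j < cut D k l),
    (e l j + tau) * (d.lam / t k * (2 * d.gn j + d.kap ^ 2 * om))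

private theorem cut_le_one_CHN (hC : S_CCS) (D l : ℕ) (hD : 1 ≤ D) :
    ∀ k, 1 ≤ k → cut D k l ≤ cut D 1 l := by
  intro k hk
  induction k, hk using Nat.le_induction with
  | base => exact le_rfl
  | succ n _ ih => exact (hC.2.2.2.2.2.1 D n l hD).1.trans ih

/-- downward induction -/
private theorem down_CHN (P r : ℕ → ℝ) (K : ℕ) (ε Eg : ℝ) (hε : 0 < ε) (hε' : ε ≤ 1 / 4)
    (hr : ∀ k < K, 0 ≤ r k) (hP : ∀ k, 0 ≤ P k) (hEg : P K = Eg)
    (hstep : ∀ k < K, P k ≤ P (k + 1) + 2 * ε * P k + r k) (m : ℕ) (hm : m ≤ K) :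
    P (K - m) ≤ (1 + 4 * ε) ^ m * (Eg + ∑ i ∈ Ico (K - m) K, r i) := by
  induction m with
  | zero => simp [hEg]
  | succ m ih =>
    have ih' := ih (by omega)
    have hk : K - (m + 1) < K := by omega
    have hk1 : K - (m + 1) + 1 = K - m := by omega
    have h1 := hstep (K - (m + 1)) hk
    rw [hk1] at h1
    have h2 : ∑ i ∈ Ico (K - (m + 1)) K, r i = r (K - (m + 1)) + ∑ i ∈ Ico (K - m) K, r i := by
      rw [Finset.sum_eq_sum_Ico_succ_bot hk, hk1]
    have hr' := hr _ hk
    have hS : 0 ≤ ∑ i ∈ Ico (K - m) K, r i :=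
      sum_nonneg (fun i hi => hr i (mem_Ico.mp hi).2)
    have hEg0 : 0 ≤ Eg := hEg ▸ hP K
    have hpow : (1 : ℝ) ≤ (1 + 4 * ε) ^ m := one_le_pow₀ (by linarith)
    set p := P (K - (m + 1))
    set q := P (K - m)
    set ρ := r (K - (m + 1))
    set S := ∑ i ∈ Ico (K - m) K, r i
    set W := (1 + 4 * ε) ^ m
    have hq : 0 ≤ q := hP _
    have h3 : (1 - 2 * ε) * p ≤ q + ρ := by linarith
    have h4 : p ≤ (1 + 4 * ε) * (q + ρ) := by
      have h5 : (1 + 4 * ε) * ((1 - 2 * ε) * p) ≤ (1 + 4 * ε) * (q + ρ) :=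
        mul_le_mul_of_nonneg_left h3 (by linarith)
      have hp : 0 ≤ p := hP _
      have h6 : p ≤ (1 + 4 * ε) * ((1 - 2 * ε) * p) := by
        have : 0 ≤ (2 * ε * (1 - 4 * ε)) * p := by
          apply mul_nonneg _ hp
          apply mul_nonneg (by linarith) (by linarith)
        nlinarith [this]
      linarith
    rw [h2, pow_succ]
    have h7 : q + ρ ≤ W * (Eg + (ρ + S)) := by
      have : ρ ≤ W * ρ := by nlinarith
      nlinarith
    calc p ≤ (1 + 4 * ε) * (q + ρ) := h4
      _ ≤ (1 + 4 * ε) * (W * (Eg + (ρ + S))) := mul_le_mul_of_nonneg_left h7 (by linarith)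
      _ = W * (1 + 4 * ε) * (Eg + (ρ + S)) := by ring

theorem p_CHN : S_CHN := by
  intro hNEG hNEAR hTEL hBIG hPOS hTWO hTEL2 hSTP2 hCCS Ω _ _ d h D K t e tau s ε om l hl hD hK
    hlt ht0 htp he htau hs hsl hε hε' h8 hexp g Ym hg hdel
  have hom : 0 < om := lt_of_lt_of_le (Real.exp_pos _) (hexp 0 hK)
  obtain ⟨w0⟩ := (inferInstance : Nonempty Ω)
  have hYm : 0 ≤ Ym := (abs_nonneg _).trans (hg w0)
  have hlam := h.lam_pos
  set P : ℕ → ℝ := fun k => E (fun w => d.R (cut D k l) w * d.F.C (cut D k l) g w) with hPdef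
  set Q : ℕ → ℝ := fun k => E (fun w => d.R (cut D k l) w * |d.F.C (cut D k l) g w|) with hQdef
  have herr : ∀ k < K, 0 ≤ err_CHN d D t e tau om l k := by
    intro k hk
    unfold err_CHN
    split_ifs
    · exact le_rfl
    · refine sum_nonneg (fun j _ => ?_)
      have h1 := he l j
      have h2 := h.gn_nonneg j
      have h3 := htp k hk
      positivity
  have hstep : ∀ k < K, |P k - P (k + 1)| ≤ 2 * ε * Q k + 4 * om * Ym +
      err_CHN d D t e tau om l k := by
    intro k hk
    obtain ⟨c1, c2, c3⟩ := hCCS.2.2.2.2.2.1 D k l hD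
    have hcnt : (d.cnt (cut D (k + 1) l) (cut D k l) : ℝ) ≤ 4 * (D * 2 ^ k) := by
      have h1 : d.cnt (cut D (k + 1) l) (cut D k l) ≤ 4 * (D * 2 ^ k) := by
        unfold Dat.cnt
        have h2 : (d.G.filter (fun j => cut D (k + 1) l ≤ j ∧ j < cut D k l)) ⊆
            Ico (cut D (k + 1) l) (cut D k l) := by
          intro j hj
          exact mem_Ico.mpr (mem_filter.mp hj).2
        have h3 := card_le_card h2
        rw [Nat.card_Ico] at h3
        omega
      exact_mod_cast h1
    obtain ⟨s1, s2⟩ := hSTP2 hNEG hNEAR hTEL hBIG hPOS hTWO hTEL2 Ω d h (t k) s ε om (htp k hk) hs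
      hsl hε hε' (cut D (k + 1) l) (cut D k l) c1 (4 * (D * 2 ^ k)) hcnt (hexp k hk) g Ym hg
    by_cases hk0 : k = 0
    · subst hk0
      have h1 := s2 ht0
      unfold err_CHN
      rw [if_pos rfl, add_zero]
      exact h1
    · have h1 := s1 (fun j => e l j + tau) (fun j => add_nonneg (he l j) htau) (by
        intro j hj hja hjn w
        exact hdel j hj (lt_of_lt_of_le hjn (cut_le_one_CHN hCCS D l hD k (by omega))) w)
      unfold err_CHN
      rw [if_neg hk0]
      exact h1
  have hP0 : P 0 = E (fun w => d.R l w * d.F.C l g w) := by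
    have : cut D 0 l = l := by simp [cut]
    simp only [hPdef, this]
  have hcK : cut D K l = 0 := hCCS.2.2.2.2.2.2 D K l hD hK hlt
  have hPK : P K = E g := by
    simp only [hPdef, hcK]
    rw [← d.F.E_C 0 g]
    congr 1
    funext w
    rw [h.R_zero w, one_mul]
  have hbig : ∑ k ∈ range K, err_CHN d D t e tau om l k = ebig d D K t e tau om l := by
    rw [Finset.range_eq_Ico, Finset.sum_eq_sum_Ico_succ_bot (by omega : 0 < K)]
    unfold ebig
    have : err_CHN d D t e tau om l 0 = 0 := by unfold err_CHN; rw [if_pos rfl]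
    rw [this, zero_add]
    refine sum_congr rfl (fun k hk => ?_)
    have hk1 : k ≠ 0 := by have := (mem_Ico.mp hk).1; omega
    unfold err_CHN
    rw [if_neg hk1]
  constructor
  · have h1 : P K - P 0 ≤ ∑ k ∈ range K, (2 * ε * Q k + 4 * om * Ym +
        err_CHN d D t e tau om l k) := by
      rw [← Finset.sum_range_sub P K]
      refine sum_le_sum (fun k hk => ?_)
      have := (abs_le.mp (hstep k (mem_range.mp hk))).1
      linarith
    rw [sum_add_distrib, sum_add_distrib, hbig, ← mul_sum, sum_const, card_range, nsmul_eq_mul,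
      hPK, hP0] at h1
    nlinarith [h1]
  · intro hg0 k hk
    have hC0 : ∀ c w, 0 ≤ d.F.C c g w := fun c w => d.F.C_nonneg hg0 w
    have hQP : ∀ k, Q k = P k := by
      intro k
      simp only [hPdef, hQdef]
      congr 1
      funext w
      rw [abs_of_nonneg (hC0 _ w)]
    have hPn : ∀ k, 0 ≤ P k := by
      intro k
      exact SS.E_nonneg (fun w => mul_nonneg (h.R_pos _ w).le (hC0 _ w))
    have hr : ∀ k < K, 0 ≤ 4 * om * Ym + err_CHN d D t e tau om l k := by
      intro k hk
      have := herr k hk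
      positivity
    have hst : ∀ k < K, P k ≤ P (k + 1) + 2 * ε * P k + (4 * om * Ym +
        err_CHN d D t e tau om l k) := by
      intro k hk
      have h1 := (abs_le.mp (hstep k hk)).2
      rw [hQP k] at h1
      linarith
    have h1 := down_CHN P (fun k => 4 * om * Ym + err_CHN d D t e tau om l k) K ε (E g) hε hε' hr
      hPn hPK hst (K - k) (by omega)
    have hkk : K - (K - k) = k := by omega
    rw [hkk] at h1
    have hS : ∑ i ∈ Ico k K, (4 * om * Ym + err_CHN d D t e tau om l i) ≤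
        ebig d D K t e tau om l + 4 * K * (om * Ym) := by
      have h2 : ∑ i ∈ Ico k K, (4 * om * Ym + err_CHN d D t e tau om l i) ≤
          ∑ i ∈ range K, (4 * om * Ym + err_CHN d D t e tau om l i) := by
        refine sum_le_sum_of_subset_of_nonneg ?_ ?_
        · intro i hi
          exact mem_range.mpr (mem_Ico.mp hi).2
        · intro i hi _
          exact hr i (mem_range.mp hi)
      refine h2.trans (le_of_eq ?_)
      rw [sum_add_distrib, hbig, sum_const, card_range, nsmul_eq_mul]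
      ring
    have hS0 : 0 ≤ ∑ i ∈ Ico k K, (4 * om * Ym + err_CHN d D t e tau om l i) :=
      sum_nonneg (fun i hi => hr i (mem_Ico.mp hi).2)
    have hEg : 0 ≤ E g := hPK ▸ hPn K
    have hpow : (1 + 4 * ε) ^ (K - k) ≤ 2 := by
      have h2 : (1 + 4 * ε) ^ (K - k) ≤ (1 + 4 * ε) ^ K :=
        pow_le_pow_right₀ (by linarith) (by omega)
      have h3 : (1 + 4 * ε) ^ K ≤ Real.exp (4 * ε) ^ K := by
        apply pow_le_pow_left₀ (by linarith)
        have := Real.add_one_le_exp (4 * ε)
        linarith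
      have h4 : Real.exp (4 * ε) ^ K = Real.exp (K * (4 * ε)) := by
        rw [← Real.exp_nat_mul]
      have h5 : Real.exp (K * (4 * ε)) ≤ Real.exp (1 / 2) := by
        apply Real.exp_le_exp.mpr
        nlinarith
      have h6 : Real.exp (1 / 2) ≤ 2 := by
        have h7 : Real.exp (1 / 2) ^ 2 = Real.exp 1 := by
          rw [← Real.exp_nat_mul]; norm_num
        have h8 := Real.exp_one_lt_d9
        have h9 := Real.exp_pos (1 / 2)
        nlinarith
      rw [h4] at h3
      linarith
    have h9 : (1 + 4 * ε) ^ (K - k) * (E g + ∑ i ∈ Ico k K, (4 * om * Ym +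
        err_CHN d D t e tau om l i)) ≤ 2 * (E g + (ebig d D K t e tau om l + 4 * K * (om * Ym))) := by
      apply mul_le_mul hpow _ (by linarith) (by norm_num)
      linarith
    have h10 : P k ≤ 2 * (E g + (ebig d D K t e tau om l + 4 * K * (om * Ym))) := h1.trans h9
    have h11 : 2 * (E g + (ebig d D K t e tau om l + 4 * K * (om * Ym))) =
      2 * (E g + ebig d D K t e tau om l + 4 * K * (om * Ym)) := by ring
    rw [h11] at h10
    exact h10

end Pool.Agent.Helper56.OS
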