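import Pool.Agent.Helper56.OS.StD

/-! # Project OS, module CLS: selection of the families -/

set_option autoImplicit false

open Finset

namespace Pool.Agent.Helper56.OS

private theorem exists_j_CLS (x : ℝ) (H : ℕ) (hx : x ≤ 3) (hH : 3 / 2 ^ H < x) (hH1 : 1 ≤ H) :
    ∃ j < H, 3 / 2 ^ (j + 1) < x ∧ x ≤ 3 / 2 ^ j := by
  classical
  have hex : ∃ j : ℕ, 3 / 2 ^ (j + 1) < x := ⟨H - 1, by rwa [Nat.sub_add_cancel hH1]⟩
  refine ⟨Nat.find hex, ?_, Nat.find_spec hex, ?_⟩
  · have : Nat.find hex ≤ H - 1 := Nat.find_min' hex (by rwa [Nat.sub_add_cancel hH1])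
    omega
  · by_cases h0 : Nat.find hex = 0
    · rw [h0]
      simpa using hx
    · have h1 := Nat.find_min hex (m := Nat.find hex - 1) (by omega)
      rw [Nat.sub_add_cancel (by omega)] at h1
      exact not_lt.1 h1

/-- the exponents with a nonzero smooth mass -/
private theorem ph_ne_CLS (K : ℕ) (b : ℕ → ℝ) (Ω : Finset ℕ) (hG : GS K b Ω)
    (hP : ∀ a : ℕ, Ph b Ω a = ∑ ω ∈ Oct Ω a, b ω * phi (ω / 2 ^ a)) (a : ℕ)
    (ha : a ∉ Ω.image (Nat.log 2) ∪ Ω.image (fun ω => Nat.log 2 ω + 1)) : Ph b Ω a = 0 := by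
  rw [hP]
  have : Oct Ω a = ∅ := by
    rw [eq_empty_iff_forall_notMem]
    intro ω hω
    unfold Oct at hω
    rw [mem_filter] at hω
    obtain ⟨h1, h2, h3⟩ := hω
    apply ha
    rw [mem_union, mem_image, mem_image]
    have hω1 : ω ≠ 0 := by
      have := hG.pos ω h1
      omega
    have e1 := Nat.pow_log_le_self 2 hω1
    have e2 := Nat.lt_pow_succ_log_self (b := 2) (by norm_num) ω
    set e := Nat.log 2 ω with he
    have h4 : e < a + 1 := (Nat.pow_lt_pow_iff_right (by norm_num : 1 < 2)).1 (e1.trans_lt h3)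
    have h5 : a < e + 2 := by
      refine (Nat.pow_lt_pow_iff_right (by norm_num : 1 < 2)).1 (h2.trans ?_)
      rw [pow_succ]
      rw [Nat.succ_eq_add_one] at e2
      omega
    rcases Nat.lt_or_ge e a with h | h
    · right
      exact ⟨ω, h1, by omega⟩
    · left
      exact ⟨ω, h1, by omega⟩
  rw [this, sum_empty]

theorem p_CLS (hPHI : St_PHI) (hPHB : St_PHB) : St_CLS := by
  classical
  intro K H N b Ω q s hG hcard hN hH hNH hq hs hsH hms hsm
  obtain ⟨hP1, hP2, hP3, hP4, hP5, hP6⟩ := hPHI K b Ω hG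
  have hH' : (20 : ℝ) ≤ H := by exact_mod_cast hH
  have hN' : (1 : ℝ) ≤ N := by exact_mod_cast hN
  have hs0 : 14400 ≤ s := by linarith
  -- `Ω` is nonempty
  have hne : Ω.Nonempty := by
    rw [nonempty_iff_ne_empty]
    rintro rfl
    rw [sum_empty] at hs
    linarith
  have hK : 2 * H + 22 ≤ K := by
    obtain ⟨ω, hω⟩ := hne
    have h1 := hsm ω hω
    have h2 := hG.pos ω hω
    have h3 : 2 ^ (2 * H + 22) ≤ 2 ^ K := le_trans (Nat.le_mul_of_pos_left _ h2) h1
    exact (Nat.pow_le_pow_iff_right (by norm_num : 1 < 2)).1 h3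
  set A : ℕ := K - (2 * H + 21) with hA
  have hlt : ∀ ω ∈ Ω, ω < 2 ^ A := by
    intro ω hω
    have h1 := hsm ω hω
    have h2 : 2 ^ K = 2 ^ (K - (2 * H + 22)) * 2 ^ (2 * H + 22) := by
      rw [← pow_add]
      congr 1
      omega
    rw [h2] at h1
    have h3 : ω ≤ 2 ^ (K - (2 * H + 22)) := Nat.le_of_mul_le_mul_right h1 (by positivity)
    refine h3.trans_lt (Nat.pow_lt_pow_right (by norm_num) (by omega))
  have hsum := hP3 A hlt
  rw [← hs] at hsum
  set R : Finset ℕ := range (A + 1) with hR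
  have hRK : ∀ a ∈ R, a + 2 * H + 20 ≤ K := by
    intro a ha
    rw [hR, mem_range] at ha
    omega
  -- the value at 0
  have hPh3 : ∀ a ∈ R, Ph b Ω a ≤ 3 := by
    intro a ha
    have h1 := hRK a ha
    rcases Nat.eq_zero_or_pos a with h0 | h0
    · rw [h0, hP5]
      have hsub : Oct Ω 0 ⊆ {1} := by
        intro ω hω
        unfold Oct at hω
        rw [mem_filter] at hω
        rw [mem_singleton]
        have h2 := hG.pos ω hω.1
        have h3 := hω.2.2
        norm_num at h3
        omega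
      rcases subset_singleton_iff.1 hsub with h2 | h2
      · rw [h2, sum_empty]
        norm_num
      · rw [h2, sum_singleton]
        have h3 : b 1 ^ 2 ≤ 2 := by
          refine le_trans ?_ hP6
          have h4 : (1 : ℕ) ∈ Ω := by
            have : (1 : ℕ) ∈ Oct Ω 0 := by rw [h2]; exact mem_singleton_self 1
            unfold Oct at this
            exact (mem_filter.1 this).1
          exact single_le_sum (f := fun ω => b ω ^ 2) (fun ω _ => sq_nonneg _) h4
        have h5 := hPHB.1 (((1 : ℕ) : ℝ) / 2 ^ 0)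
        have h6 : b 1 ≤ 2 := by nlinarith [sq_nonneg (b 1 - 2)]
        have h7 : -2 ≤ b 1 := by nlinarith [sq_nonneg (b 1 + 2)]
        nlinarith [h5.1, h5.2]
    · exact (abs_le.1 (hP1 a h0 (by omega))).2
  -- the pieces
  set R1 : Finset ℕ := R.filter (fun a => ¬ a < 2 * H + 8) with hR1
  set R2 : Finset ℕ := R1.filter (fun a => ¬ 4 * q * Ph b Ω a < Bm b Ω a) with hR2
  set Gd : Finset ℕ := R2.filter (fun a => ¬ Ph b Ω a ≤ s / (200 * N)) with hGd
  have hGdm : ∀ a ∈ Gd, a ∈ R ∧ 2 * H + 8 ≤ a ∧ Bm b Ω a ≤ 4 * q * Ph b Ω a ∧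
      s / (200 * N) < Ph b Ω a := by
    intro a ha
    rw [hGd, mem_filter, hR2, mem_filter, hR1, mem_filter] at ha
    exact ⟨ha.1.1.1, not_lt.1 ha.1.1.2, not_lt.1 ha.1.2, not_le.1 ha.2⟩
  have hNs : 3 / 2 ^ H < s / (200 * N) := by
    have h1 : (N : ℝ) ≤ 2 ^ H := by
      refine le_trans ?_ hNH
      exact le_self_pow₀ hN' (by norm_num)
    rw [div_lt_div_iff₀ (by positivity) (by positivity)]
    have h2 : 600 * (N : ℝ) ≤ 600 * 2 ^ H := by linarith
    have h3 : 600 * (2 : ℝ) ^ H < s * 2 ^ H := mul_lt_mul_of_pos_right (by linarith) (by positivity)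
    linarith
  have hjex : ∀ a : ℕ, ∃ j, a ∈ Gd → j < H ∧ 3 / 2 ^ (j + 1) < Ph b Ω a ∧ Ph b Ω a ≤ 3 / 2 ^ j := by
    intro a
    by_cases ha : a ∈ Gd
    · obtain ⟨h1, -, -, h4⟩ := hGdm a ha
      obtain ⟨j, hj, hj'⟩ := exists_j_CLS (Ph b Ω a) H (hPh3 a h1) (hNs.trans h4) (by omega)
      exact ⟨j, fun _ => ⟨hj, hj'⟩⟩
    · exact ⟨0, fun h => absurd h ha⟩
  choose jj hjj using hjex
  set cl : ℕ → ℕ := fun a => (a % (4 * H)) * H + jj a with hcl
  set μ : ℕ → ℝ := fun c => 3 / 2 ^ (c % H + 1) with hμ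
  have hμ0 : ∀ c, 0 < μ c := fun c => by rw [hμ]; positivity
  have hclm : ∀ a ∈ Gd, cl a % H = jj a := by
    intro a ha
    have h1 := (hjj a ha).1
    show ((a % (4 * H)) * H + jj a) % H = jj a
    rw [Nat.mul_comm, Nat.mul_add_mod, Nat.mod_eq_of_lt h1]
  have hcld : ∀ a ∈ Gd, cl a / H = a % (4 * H) := by
    intro a ha
    have h1 := (hjj a ha).1
    show ((a % (4 * H)) * H + jj a) / H = a % (4 * H)
    rw [Nat.mul_comm, Nat.mul_add_div (by omega), Nat.div_eq_of_lt h1, Nat.add_zero]
  have hμlo : ∀ a ∈ Gd, μ (cl a) < Ph b Ω a := by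
    intro a ha
    show 3 / 2 ^ (cl a % H + 1) < Ph b Ω a
    rw [hclm a ha]
    exact (hjj a ha).2.1
  have hμhi : ∀ a ∈ Gd, Ph b Ω a ≤ 2 * μ (cl a) := by
    intro a ha
    show Ph b Ω a ≤ 2 * (3 / 2 ^ (cl a % H + 1))
    rw [hclm a ha]
    refine (hjj a ha).2.2.trans (le_of_eq ?_)
    rw [pow_succ]
    field_simp
  set hv : ℕ → Prop := fun a =>
    s / (400 * (H : ℝ) ^ 2) ≤ 2 * μ (cl a) * (Gd.filter (fun a' => cl a' = cl a)).card with hhv
  set Ls : Finset ℕ := Gd.filter hv with hLs
  have hLsG : ∀ a ∈ Ls, a ∈ Gd ∧ hv a := fun a ha => by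
    rw [hLs, mem_filter] at ha
    exact ha
  have hcls : ∀ a ∈ Ls, Ls.filter (fun a' => cl a' = cl a) = Gd.filter (fun a' => cl a' = cl a) := by
    intro a ha
    ext a'
    constructor
    · intro h
      have h1 := mem_filter.1 h
      exact mem_filter.2 ⟨(hLsG a' h1.1).1, h1.2⟩
    · intro h
      have h1 := mem_filter.1 h
      refine mem_filter.2 ⟨mem_filter.2 ⟨h1.1, ?_⟩, h1.2⟩
      have h3 := (hLsG a ha).2
      rw [hhv] at h3 ⊢
      simp only at h3 ⊢
      rw [h1.2]
      exact h3
  set T : Finset ℕ := Ω.image (Nat.log 2) ∪ Ω.image (fun ω => Nat.log 2 ω + 1) with hT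
  have hTc : T.card ≤ 2 * N := by
    calc T.card ≤ (Ω.image (Nat.log 2)).card + (Ω.image (fun ω => Nat.log 2 ω + 1)).card :=
          card_union_le _ _
      _ ≤ Ω.card + Ω.card := add_le_add card_image_le card_image_le
      _ ≤ 2 * N := by omega
  have hTc' : (T.card : ℝ) ≤ 2 * N := by exact_mod_cast hTc
  have hPhT : ∀ a, a ∉ T → Ph b Ω a = 0 := fun a ha => ph_ne_CLS K b Ω hG hP5 a ha
  have hH2 : (0 : ℝ) < (H : ℝ) ^ 2 := by positivity
  refine ⟨Ls, cl, μ, ?_, ?_, ?_⟩
  · -- the sum
    have e1 := sum_filter_add_sum_filter_not R (fun a => a < 2 * H + 8) (Ph b Ω)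
    have e2 := sum_filter_add_sum_filter_not R1 (fun a => 4 * q * Ph b Ω a < Bm b Ω a) (Ph b Ω)
    have e3 := sum_filter_add_sum_filter_not R2 (fun a => Ph b Ω a ≤ s / (200 * N)) (Ph b Ω)
    have e4 := sum_filter_add_sum_filter_not Gd hv (Ph b Ω)
    rw [← hR1] at e1
    rw [← hR2] at e2
    rw [← hGd] at e3
    rw [← hLs] at e4
    -- low
    have b1 : ∑ a ∈ R.filter (fun a => a < 2 * H + 8), Ph b Ω a ≤ s / 100 := by
      calc ∑ a ∈ R.filter (fun a => a < 2 * H + 8), Ph b Ω a
          ≤ ∑ _a ∈ R.filter (fun a => a < 2 * H + 8), (3 : ℝ) :=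
            sum_le_sum fun a ha => hPh3 a (mem_filter.1 ha).1
        _ = (R.filter (fun a => a < 2 * H + 8)).card * 3 := by rw [sum_const, nsmul_eq_mul]
        _ ≤ (2 * H + 8 : ℕ) * 3 := by
            have h1 : (R.filter (fun a => a < 2 * H + 8)).card ≤ 2 * H + 8 := by
              have h2 : R.filter (fun a => a < 2 * H + 8) ⊆ range (2 * H + 8) := by
                intro a ha
                exact mem_range.2 (mem_filter.1 ha).2
              simpa using card_le_card h2
            have h3 : ((R.filter (fun a => a < 2 * H + 8)).card : ℝ) ≤ (2 * H + 8 : ℕ) := by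
              exact_mod_cast h1
            linarith
        _ ≤ s / 100 := by
            push_cast
            linarith
    -- bad
    have b2 : ∑ a ∈ R1.filter (fun a => 4 * q * Ph b Ω a < Bm b Ω a), Ph b Ω a ≤ s / 4 := by
      calc ∑ a ∈ R1.filter (fun a => 4 * q * Ph b Ω a < Bm b Ω a), Ph b Ω a
          ≤ ∑ a ∈ R1.filter (fun a => 4 * q * Ph b Ω a < Bm b Ω a), Bm b Ω a / (4 * q) := by
            refine sum_le_sum fun a ha => ?_
            rw [le_div_iff₀ (by linarith)]
            have := (mem_filter.1 ha).2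
            linarith
        _ ≤ ∑ a ∈ range (A + 1), Bm b Ω a / (4 * q) := by
            refine sum_le_sum_of_subset_of_nonneg ?_ fun a _ _ =>
              div_nonneg (hP4 a).2.2 (by linarith)
            exact (filter_subset _ _).trans (filter_subset _ _)
        _ = (∑ a ∈ range (A + 1), Bm b Ω a) / (4 * q) := by rw [sum_div]
        _ ≤ (q * s) / (4 * q) := by
            refine div_le_div_of_nonneg_right ?_ (by linarith)
            exact (hP2 (A + 1)).trans hms
        _ = s / 4 := by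
            field_simp
    -- small
    have b3 : ∑ a ∈ R2.filter (fun a => Ph b Ω a ≤ s / (200 * N)), Ph b Ω a ≤ s / 100 := by
      rw [← sum_filter_add_sum_filter_not (R2.filter (fun a => Ph b Ω a ≤ s / (200 * N)))
        (fun a => a ∈ T)]
      have h1 : ∑ a ∈ (R2.filter (fun a => Ph b Ω a ≤ s / (200 * N))).filter (fun a => ¬ a ∈ T),
          Ph b Ω a = 0 := sum_eq_zero fun a ha => hPhT a (mem_filter.1 ha).2
      rw [h1, add_zero]
      calc ∑ a ∈ (R2.filter (fun a => Ph b Ω a ≤ s / (200 * N))).filter (fun a => a ∈ T), Ph b Ω a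
          ≤ ∑ _a ∈ (R2.filter (fun a => Ph b Ω a ≤ s / (200 * N))).filter (fun a => a ∈ T),
            s / (200 * N) := sum_le_sum fun a ha => (mem_filter.1 (mem_filter.1 ha).1).2
        _ = ((R2.filter (fun a => Ph b Ω a ≤ s / (200 * N))).filter (fun a => a ∈ T)).card *
            (s / (200 * N)) := by rw [sum_const, nsmul_eq_mul]
        _ ≤ (2 * N) * (s / (200 * N)) := by
            refine mul_le_mul_of_nonneg_right ?_ (by positivity)
            refine le_trans ?_ hTc'
            have : (R2.filter (fun a => Ph b Ω a ≤ s / (200 * N))).filter (fun a => a ∈ T) ⊆ T :=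
              fun a ha => (mem_filter.1 ha).2
            exact_mod_cast card_le_card this
        _ = s / 100 := by
            field_simp
            norm_num
    -- light
    have b4 : ∑ a ∈ Gd.filter (fun a => ¬ hv a), Ph b Ω a ≤ s / 100 := by
      have hmaps : ∀ a ∈ Gd.filter (fun a => ¬ hv a), cl a ∈ range (4 * H * H) := by
        intro a ha
        have h1 := (hjj a (mem_filter.1 ha).1).1
        rw [mem_range]
        show (a % (4 * H)) * H + jj a < 4 * H * H
        have h2 : a % (4 * H) < 4 * H := Nat.mod_lt _ (by omega)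
        have h3 : (a % (4 * H) + 1) * H ≤ 4 * H * H := Nat.mul_le_mul_right H h2
        linarith
      rw [← sum_fiberwise_of_maps_to hmaps]
      have h2 : ∀ c ∈ range (4 * H * H),
          ∑ a ∈ (Gd.filter (fun a => ¬ hv a)).filter (fun a => cl a = c), Ph b Ω a ≤
            s / (400 * (H : ℝ) ^ 2) := by
        intro c _
        rcases ((Gd.filter (fun a => ¬ hv a)).filter (fun a => cl a = c)).eq_empty_or_nonempty with
          h3 | ⟨a0, ha0⟩
        · rw [h3, sum_empty]
          positivity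
        · have hc : cl a0 = c := (mem_filter.1 ha0).2
          have hlight : ¬ hv a0 := (mem_filter.1 (mem_filter.1 ha0).1).2
          rw [hhv] at hlight
          simp only [not_le] at hlight
          rw [hc] at hlight
          calc ∑ a ∈ (Gd.filter (fun a => ¬ hv a)).filter (fun a => cl a = c), Ph b Ω a
              ≤ ∑ _a ∈ (Gd.filter (fun a => ¬ hv a)).filter (fun a => cl a = c), 2 * μ c := by
                refine sum_le_sum fun a ha => ?_
                have h4 := hμhi a (mem_filter.1 (mem_filter.1 ha).1).1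
                rw [(mem_filter.1 ha).2] at h4
                exact h4
            _ = ((Gd.filter (fun a => ¬ hv a)).filter (fun a => cl a = c)).card * (2 * μ c) := by
                rw [sum_const, nsmul_eq_mul]
            _ ≤ (Gd.filter (fun a => cl a = c)).card * (2 * μ c) := by
                refine mul_le_mul_of_nonneg_right ?_ (by have := hμ0 c; linarith)
                have : (Gd.filter (fun a => ¬ hv a)).filter (fun a => cl a = c) ⊆
                    Gd.filter (fun a => cl a = c) :=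
                  filter_subset_filter _ (filter_subset _ _)
                exact_mod_cast card_le_card this
            _ ≤ s / (400 * (H : ℝ) ^ 2) := by linarith
      calc ∑ c ∈ range (4 * H * H),
            ∑ a ∈ (Gd.filter (fun a => ¬ hv a)).filter (fun a => cl a = c), Ph b Ω a
          ≤ ∑ _c ∈ range (4 * H * H), s / (400 * (H : ℝ) ^ 2) := sum_le_sum h2
        _ = (4 * H * H : ℕ) * (s / (400 * (H : ℝ) ^ 2)) := by
            rw [sum_const, card_range, nsmul_eq_mul]
        _ = s / 100 := by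
            push_cast
            field_simp
            norm_num
    linarith
  · -- the number
    refine le_trans (card_le_card ?_) hTc
    intro a ha
    by_contra hcon
    have h1 := hμlo a (hLsG a ha).1
    rw [hPhT a hcon] at h1
    exact absurd h1 (not_lt.2 (hμ0 _).le)
  · intro a ha
    obtain ⟨hag, hah⟩ := hLsG a ha
    obtain ⟨g1, g2, g3, g4⟩ := hGdm a hag
    refine ⟨g2, hRK a g1, hμ0 _, hμlo a hag, hμhi a hag, g3, ?_, ?_⟩
    · intro a' ha' hcc hlt'
      have ha'g := (hLsG a' ha').1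
      have h1 : a' % (4 * H) = a % (4 * H) := by
        rw [← hcld a' ha'g, ← hcld a hag, hcc]
      have h2 : a' - a ≡ 0 [MOD 4 * H] := (Nat.modEq_zero_iff_dvd).2
        ((Nat.modEq_iff_dvd' hlt'.le).1 h1.symm)
      have h3 := (Nat.modEq_zero_iff_dvd).1 h2
      have h4 := Nat.le_of_dvd (by omega) h3
      omega
    · rw [hcls a ha]
      rw [hhv, div_le_iff₀ (by positivity)] at hah
      linarith

end Pool.Agent.Helper56.OS
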