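import Pool.Agent.Helper56.OS.StC

set_option autoImplicit false

open Finset

namespace Pool.Agent.Helper56.OS

theorem p_CORE (hCFG : St_CFG) : St_CORE := by
  classical
  intro ι _ _ K H m0 r e0 a D St Rs Fi b Ω ε cf hc hU hSt hcf
  obtain ⟨C, hC1, hC2, hC3, hC4, hC5⟩ := hCFG ι K H m0 r e0 a D b Ω ε hc
  set U : ι → Finset ℕ := fun i => St i ∪ Rs i ∪ Fi i with hUdef
  have hOct : ∀ i, Oct Ω (a i) ⊆ Ω := fun i => Finset.filter_subset _ _
  have hUΩ : ∀ i, U i ⊆ Ω := by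
    intro i ω hω
    obtain ⟨h1, h2, h3, h4, h5, h6⟩ := hU i
    rcases Finset.mem_union.mp hω with h | h
    · exact hOct i (h1 h)
    · exact h5 h
  have hUrange : ∀ i, ∀ ω ∈ U i, 2 ^ (a i) ≤ 4 * ω ∧ ω ≤ 2 ^ (a i + 2) := by
    intro i ω hω
    obtain ⟨h1, h2, h3, h4, h5, h6⟩ := hU i
    rcases Finset.mem_union.mp hω with h | h
    · have h7 := h1 h
      rw [Oct, Finset.mem_filter] at h7
      obtain ⟨_, h8, h9⟩ := h7
      constructor
      · omega
      · have : (2 : ℕ) ^ (a i + 1) ≤ 2 ^ (a i + 2) := Nat.pow_le_pow_right (by norm_num) (by omega)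
        omega
    · exact h6 ω h
  have hfar : ∀ i j, a i + 4 * H ≤ a j → Disjoint (U i) (U j) := by
    intro i j hij
    rw [Finset.disjoint_left]
    intro ω h1 h2
    have h3 := (hUrange i ω h1).2
    have h4 := (hUrange j ω h2).1
    have h5 : (2 : ℕ) ^ (a j) ≤ 2 ^ (a i + 4) := by
      calc (2 : ℕ) ^ (a j) ≤ 4 * ω := h4
        _ ≤ 4 * 2 ^ (a i + 2) := by omega
        _ = 2 ^ (a i + 4) := by ring
    have h6 : a j ≤ a i + 4 := (Nat.pow_le_pow_iff_right (by norm_num)).mp h5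
    have := hc.H10
    omega
  have hdisj : ∀ i j, i ≠ j → Disjoint (U i) (U j) := by
    intro i j hij
    rcases hc.sep i j hij with h | h
    · exact hfar i j h
    · exact (hfar j i h).symm
  set V : Finset ℕ := (univ : Finset ι).biUnion U with hV
  have hVΩ : V ⊆ Ω := by
    intro ω hω
    obtain ⟨i, _, h⟩ := Finset.mem_biUnion.mp hω
    exact hUΩ i h
  -- splitting
  have hsplit : ∑ ω ∈ Ω, b ω * C ω = ∑ i, (∑ ω ∈ St i, b ω * C ω + ∑ ω ∈ Rs i, b ω * C ω +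
      ∑ ω ∈ Fi i, b ω * C ω) + ∑ ω ∈ Ω \ V, b ω * C ω := by
    rw [← Finset.sum_sdiff hVΩ, add_comm]
    congr 1
    rw [hV, Finset.sum_biUnion (fun i _ j _ hij => hdisj i j hij)]
    refine Finset.sum_congr rfl fun i _ => ?_
    obtain ⟨h1, h2, h3, h4, h5, h6⟩ := hU i
    rw [hUdef]
    simp only
    rw [Finset.sum_union h4, Finset.sum_union h3]
  -- each piece
  have hS : ∀ i, (∑ ω ∈ St i, b ω * phi (ω / 2 ^ (a i))) / 3 -
      (ε + 2 * (Fintype.card ι + 1) / 2 ^ H) * ms b (St i) ≤ ∑ ω ∈ St i, b ω * C ω := by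
    intro i
    obtain ⟨h1, h2, h3, h4, h5, h6⟩ := hU i
    rw [Finset.sum_div, ms, Finset.mul_sum, ← Finset.sum_sub_distrib]
    refine Finset.sum_le_sum fun ω hω => ?_
    have h7 := hC4 i ω (h1 (Finset.mem_union_left _ hω)) (hSt i ω hω)
    have h8 : |b ω * (C ω - phi (ω / 2 ^ (a i)) / 3)| ≤
        |b ω| * (ε + 2 * (Fintype.card ι + 1) / 2 ^ H) := by
      rw [abs_mul]
      exact mul_le_mul_of_nonneg_left h7 (abs_nonneg _)
    have h9 := (abs_le.mp h8).1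
    nlinarith [h9]
  have hR : ∀ i, - ms b (Rs i) ≤ ∑ ω ∈ Rs i, b ω * C ω := by
    intro i
    obtain ⟨h1, h2, h3, h4, h5, h6⟩ := hU i
    rw [ms, ← Finset.sum_neg_distrib]
    refine Finset.sum_le_sum fun ω hω => ?_
    have h7 := hC1 ω (hOct i (h1 (Finset.mem_union_right _ hω)))
    have h8 : |b ω * C ω| ≤ |b ω| := by
      rw [abs_mul]
      exact mul_le_of_le_one_right (abs_nonneg _) h7
    exact (abs_le.mp h8).1
  have hF : ∀ i, - cf i ≤ ∑ ω ∈ Fi i, b ω * C ω := by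
    intro i
    exact (abs_le.mp (hcf i C hC1 hC2)).1
  -- the rest
  have hlast : -(∑ ω ∈ Ω.filter (fun ω : ℕ => ∃ i, LandN m0 ((univ.erase i).biUnion D) (a i) (ω : ℤ)), |b ω|
      + ms b Ω / 2 ^ H) ≤ ∑ ω ∈ Ω \ V, b ω * C ω := by
    have h1 : |∑ ω ∈ Ω \ V, b ω * C ω| ≤ ∑ ω ∈ Ω \ V,
        ((if (∃ i, LandN m0 ((univ.erase i).biUnion D) (a i) (ω : ℤ)) then |b ω| else 0) + |b ω| / 2 ^ H) := by
      refine le_trans (Finset.abs_sum_le_sum_abs _ _) (Finset.sum_le_sum fun ω hω => ?_)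
      rw [Finset.mem_sdiff] at hω
      rw [abs_mul]
      split_ifs with hl
      · have h2 := mul_le_of_le_one_right (abs_nonneg (b ω)) (hC1 ω hω.1)
        have h3 : 0 ≤ |b ω| / 2 ^ H := by positivity
        linarith
      · have h2 : |C ω| ≤ 1 / 2 ^ H := by
          refine hC5 ω hω.1 (fun i hi => ?_) (fun i hi => hl ⟨i, hi⟩)
          obtain ⟨_, h5, _⟩ := hU i
          exact hω.2 (Finset.mem_biUnion.mpr ⟨i, Finset.mem_univ _, h5 hi⟩)
        have h3 := mul_le_mul_of_nonneg_left h2 (abs_nonneg (b ω))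
        calc |b ω| * |C ω| ≤ |b ω| * (1 / 2 ^ H) := h3
          _ = 0 + |b ω| / 2 ^ H := by ring
    have h2 : ∑ ω ∈ Ω \ V,
        ((if (∃ i, LandN m0 ((univ.erase i).biUnion D) (a i) (ω : ℤ)) then |b ω| else 0) + |b ω| / 2 ^ H) ≤
        ∑ ω ∈ Ω,
        ((if (∃ i, LandN m0 ((univ.erase i).biUnion D) (a i) (ω : ℤ)) then |b ω| else 0) + |b ω| / 2 ^ H) := by
      refine Finset.sum_le_sum_of_subset_of_nonneg Finset.sdiff_subset (fun ω _ _ => ?_)
      split_ifs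
      · positivity
      · positivity
    have h3 := (abs_le.mp (h1.trans h2)).1
    have h4 : ∑ ω ∈ Ω,
        ((if (∃ i, LandN m0 ((univ.erase i).biUnion D) (a i) (ω : ℤ)) then |b ω| else 0) + |b ω| / 2 ^ H) =
        ∑ ω ∈ Ω.filter (fun ω : ℕ => ∃ i, LandN m0 ((univ.erase i).biUnion D) (a i) (ω : ℤ)), |b ω|
          + ms b Ω / 2 ^ H := by
      rw [Finset.sum_add_distrib, ← Finset.sum_filter, ← Finset.sum_div]
      rfl
    rw [h4] at h3
    linarith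
  have htot := (abs_le.mp hC3).2
  rw [hsplit] at htot
  have hsum : ∑ i, ((∑ ω ∈ St i, b ω * phi (ω / 2 ^ (a i))) / 3 -
      (ε + 2 * (Fintype.card ι + 1) / 2 ^ H) * ms b (St i) - ms b (Rs i) - cf i) ≤
      ∑ i, (∑ ω ∈ St i, b ω * C ω + ∑ ω ∈ Rs i, b ω * C ω + ∑ ω ∈ Fi i, b ω * C ω) := by
    refine Finset.sum_le_sum fun i _ => ?_
    have := hS i
    have := hR i
    have := hF i
    linarith
  have hre : ∑ i, ((∑ ω ∈ St i, b ω * phi (ω / 2 ^ (a i))) / 3 -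
      (ε + 2 * (Fintype.card ι + 1) / 2 ^ H) * ms b (St i) - ms b (Rs i) - cf i) =
      ∑ i, (∑ ω ∈ St i, b ω * phi (ω / 2 ^ (a i))) / 3 -
      ∑ i, (ms b (Rs i) + cf i + (ε + 2 * (Fintype.card ι + 1) / 2 ^ H) * ms b (St i)) := by
    rw [← Finset.sum_sub_distrib]
    refine Finset.sum_congr rfl fun i _ => ?_
    ring
  rw [hre] at hsum
  linarith

end Pool.Agent.Helper56.OS
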