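import Pool.Agent.Helper56.OS.StB

set_option autoImplicit false

open Finset

namespace Pool.Agent.Helper56.OS

private theorem cs_sq_CSB (b : ℕ → ℝ) (Ω : Finset ℕ) (al : ℕ → ℕ) (Q μ : ℝ) (y0 i l : ℕ) :
    cs b Ω al Q μ y0 i l ^ 2 ≤ ((Lb b Ω al Q μ y0 i l).card : ℝ) * sq b Ω al y0 i l := by
  classical
  have h1 : cs b Ω al Q μ y0 i l ^ 2 ≤ ((Lb b Ω al Q μ y0 i l).card : ℝ) *
      ∑ t ∈ Lb b Ω al Q μ y0 i l, |bI b Ω (al (cc (2 ^ i) l)) y0 t| ^ 2 :=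
    sq_sum_le_card_mul_sum_sq
  refine h1.trans ?_
  refine mul_le_mul_of_nonneg_left ?_ (Nat.cast_nonneg _)
  unfold sq
  have h2 : ∑ t ∈ Lb b Ω al Q μ y0 i l, |bI b Ω (al (cc (2 ^ i) l)) y0 t| ^ 2 =
      ∑ t ∈ Lb b Ω al Q μ y0 i l, bI b Ω (al (cc (2 ^ i) l)) y0 t ^ 2 :=
    Finset.sum_congr rfl (fun t _ => sq_abs _)
  rw [h2]
  apply Finset.sum_le_sum_of_subset_of_nonneg
  · intro t ht
    exact (Finset.mem_filter.1 ht).1
  · intro t _ _
    positivity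

theorem p_CSB (hLBC : St_LBC) : St_CSB := by
  intro K H T b Ω al q μ Q hF hH hQ y0 i I hsq
  have hμ := hF.mu0
  have hq : 0 < q := lt_of_lt_of_le one_pos hF.q1
  set G := (range T).filter (fun l => 2 * 2 ^ i ≤ l) with hG
  have hGT : (G.card : ℝ) ≤ T := by
    have := (Finset.card_filter_le (range T) (fun l => 2 * 2 ^ i ≤ l)).trans_eq (card_range T)
    exact_mod_cast this
  have hsq0 : ∀ l, 0 ≤ sq b Ω al y0 i l := fun l => by
    unfold sq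
    exact Finset.sum_nonneg (fun t _ => by positivity)
  have h2i : (0 : ℝ) < 2 ^ i := by positivity
  have hN : ∀ l ∈ G, ((Lb b Ω al Q μ y0 i l).card : ℝ) ≤ 24 * q * μ ^ 2 * 2 ^ i / Q := by
    intro l hl
    have hlT := Finset.mem_range.1 (Finset.mem_filter.1 hl).1
    have hl2 := (Finset.mem_filter.1 hl).2
    have h1 := hLBC K H T b Ω al q μ Q hF hH hQ y0 i l hlT hl2
    have h2 := hF.good l hlT
    have h3 := hF.Phi l hlT
    have h4 : 3 * Bm b Ω (al l) ≤ 24 * q * μ := by nlinarith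
    have h5 := h1.trans h4
    rw [le_div_iff₀ hQ]
    have h6 : ((Lb b Ω al Q μ y0 i l).card : ℝ) * (Q / (2 ^ i * μ)) * (2 ^ i * μ) ≤
        24 * q * μ * (2 ^ i * μ) := mul_le_mul_of_nonneg_right h5 (by positivity)
    have h7 : ((Lb b Ω al Q μ y0 i l).card : ℝ) * (Q / (2 ^ i * μ)) * (2 ^ i * μ) =
        ((Lb b Ω al Q μ y0 i l).card : ℝ) * Q := by
      field_simp
    rw [h7] at h6
    calc ((Lb b Ω al Q μ y0 i l).card : ℝ) * Q ≤ 24 * q * μ * (2 ^ i * μ) := h6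
      _ = 24 * q * μ ^ 2 * 2 ^ i := by ring
  have hmain : (∑ l ∈ G, cs b Ω al Q μ y0 i l) ^ 2 ≤ (T * μ) ^ 2 * (768 * q * I / Q) := by
    calc (∑ l ∈ G, cs b Ω al Q μ y0 i l) ^ 2 ≤ (G.card : ℝ) * ∑ l ∈ G, cs b Ω al Q μ y0 i l ^ 2 :=
          sq_sum_le_card_mul_sum_sq
      _ ≤ T * ∑ l ∈ G, cs b Ω al Q μ y0 i l ^ 2 :=
          mul_le_mul_of_nonneg_right hGT (Finset.sum_nonneg (fun l _ => by positivity))
      _ ≤ T * ∑ l ∈ G, (24 * q * μ ^ 2 * 2 ^ i / Q) * sq b Ω al y0 i l := by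
          refine mul_le_mul_of_nonneg_left ?_ (Nat.cast_nonneg _)
          refine Finset.sum_le_sum (fun l hl => ?_)
          exact (cs_sq_CSB b Ω al Q μ y0 i l).trans
            (mul_le_mul_of_nonneg_right (hN l hl) (hsq0 l))
      _ = T * ((24 * q * μ ^ 2 * 2 ^ i / Q) * ∑ l ∈ G, sq b Ω al y0 i l) := by
          rw [← Finset.mul_sum]
      _ ≤ T * ((24 * q * μ ^ 2 * 2 ^ i / Q) * (32 * I * (T / 2 ^ i))) := by
          gcongr
      _ = (T * μ) ^ 2 * (768 * q * I / Q) := by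
          field_simp
          ring
  have hfin : ∑ l ∈ G, cs b Ω al Q μ y0 i l ≤ Real.sqrt ((T * μ) ^ 2 * (768 * q * I / Q)) :=
    Real.le_sqrt_of_sq_le hmain
  refine hfin.trans (le_of_eq ?_)
  rw [Real.sqrt_mul (sq_nonneg _), Real.sqrt_sq (by positivity)]

end Pool.Agent.Helper56.OS
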