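import Pool.Agent.Helper56.OS.StD
import Pool.Agent.Helper57.SN.Top

/-! # Project OS, module CTS: the cuts -/

set_option autoImplicit false

open Finset

namespace Pool.Agent.Helper56.OS

open Pool.Agent.Helper57.SN (co si SS dd th Spn stm av BC blk Lv IsFil pm2)
open Pool.Agent.Helper56.SS (Fil Dat Hyp E)

private lemma pmS_nonneg_CTS (b : ℕ → ℝ) (S Ω : Finset ℕ) (A' A : ℕ) : 0 ≤ pmS b S Ω A' A := by
  unfold pmS
  refine sum_nonneg fun ξ _ => sum_nonneg fun ω _ => ?_
  split_ifs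
  · exact mul_nonneg (abs_nonneg _) (abs_nonneg _)
  · exact le_refl _

private lemma pm2_le_CTS (b : ℕ → ℝ) (S Ω : Finset ℕ) (hS : S ⊆ Ω) (A' A : ℕ) :
    pm2 (fun ω => |b ω|) S A' A ≤ pmS b S Ω A' A := by
  unfold pm2 pmS
  refine sum_le_sum fun γ _ => ?_
  refine le_trans (sum_le_sum fun ξ _ => ?_)
    (sum_le_sum_of_subset_of_nonneg hS fun ω _ _ => ?_)
  · exact le_of_eq (by rw [abs_sub_comm (γ : ℤ) (ξ : ℤ)])
  · split_ifs
    · exact mul_nonneg (abs_nonneg _) (abs_nonneg _)
    · exact le_refl _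

theorem p_CTS (hLVU : St_LVU) (hINC : St_INC) (hCCS : S_CCS) : St_CTS := by
  classical
  intro K H T b Ω al q μ Ms U σ G F κ lam x Kc t M hGS hFam hU hF hH hMs hKc hT ht0 htp hM0 hM
  have hq : 1 ≤ q := hFam.q1
  have hMs0 : 0 ≤ Ms := le_trans (sum_nonneg fun _ _ => abs_nonneg _) hMs
  have hx1 : 1 ≤ 2 ^ x := Nat.one_le_two_pow
  have hd := Pool.Agent.Helper57.SN.m_dict K H T al F hF (by
    intro j hj
    have e1 := hFam.lo j hj
    have e2 := hFam.hiK j hj
    omega)
  have hS : ∀ l ∈ G, U l ⊆ Ω := fun l hl => (hU.sub l hl).trans (filter_subset _ _)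
  have he0 : ∀ l j, 0 ≤ eO H b Ω al U G (2 ^ x) l j := by
    intro l j
    unfold eO
    split_ifs with h
    · exact pmS_nonneg_CTS _ _ _ _ _
    · exact le_refl _
  have hτ0 : 0 ≤ (200 * (12 * q) ^ 2 + 54 * (12 * q) + 8 * (12 * q) * Ms) / 2 ^ H := by
    positivity
  refine ⟨hx1, hKc, ?_, ht0, htp, he0, hτ0, ?_, hM0, hM⟩
  · intro l hl
    have e1 : l < T := mem_range.1 (hU.GT hl)
    have e2 : 2 * (2 ^ x * 2 ^ (Kc - 1)) = 2 ^ (x + Kc) := by
      obtain ⟨k, rfl⟩ : ∃ k, Kc = k + 1 := ⟨Kc - 1, by omega⟩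
      rw [Nat.add_sub_cancel, pow_add, pow_succ]
      ring
    omega
  · intro l hl j hj hjc w
    have hlT : l < T := mem_range.1 (hU.GT hl)
    have hjT : j < T := mem_range.1 (hU.GT hj)
    have hl' : l ∈ G := hl
    have hcut : cut (2 ^ x) 1 l = cc (2 ^ x) l := by
      unfold cut
      rw [if_neg (by norm_num)]
      simp
    have hjl : j + 1 < l := by
      rw [hcut] at hjc
      by_cases hd' : 2 ^ x ≤ l
      · have e := (hCCS.1 (2 ^ x) l hx1 hd').1
        omega
      · have e := hCCS.2.1 (2 ^ x) l hx1 (by omega)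
        omega
    have e1 := hFam.lo j hjT
    have e2 := hFam.sep j (j + 1) (by omega) (by omega)
    have e3 := hFam.sep (j + 1) l hjl hlT
    have hLv : Lv K H (al l) (fun ω => |b ω|) (U l) (12 * q) :=
      (hLVU K H T b Ω al q μ hGS hFam l hlT (U l) (hU.sub l hl)).1
    have hσ : σ l = 1 ∨ σ l = -1 := by
      rcases hU.sgn l hl with h | h
      · exact Or.inl h.1
      · exact Or.inr h.1
    have heq : eO H b Ω al U G (2 ^ x) l j =
        pmS b (U l) Ω (2 ^ (al j - 2 * H)) (2 ^ (al (j + 1))) := by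
      unfold eO
      rw [if_pos ⟨hl, hjc⟩]
    have hsplit : (200 * (12 * q) ^ 2 + 54 * (12 * q) + 8 * (12 * q) * Ms) / 2 ^ H =
        200 * (12 * q) ^ 2 / 2 ^ H + 54 * (12 * q) / 2 ^ H + 8 * (12 * q) * Ms / 2 ^ H := by
      ring
    have hn1 : 0 ≤ 200 * (12 * q) ^ 2 / 2 ^ H := by positivity
    have hn2 : 0 ≤ 54 * (12 * q) / 2 ^ H := by positivity
    have hn3 : 0 ≤ 8 * (12 * q) * Ms / 2 ^ H := by positivity
    constructor
    · have hfun : (fun v : Fin (2 ^ K) =>
            (datS K H b Ω al U σ κ lam (24 * q) G F).D l v ^ 2) =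
          fun v : Fin (2 ^ K) =>
            (fun y : ℕ => dd K H (al l) (fun ω => |b ω|) (U l) y ^ 2) v := by
        funext v
        show (if l ∈ G then σ l * dd K H (al l) (fun ω => |b ω|) (U l) v else 0) ^ 2 =
          dd K H (al l) (fun ω => |b ω|) (U l) v ^ 2
        rw [if_pos hl', mul_pow]
        rcases hσ with h | h <;> rw [h] <;> norm_num
      show |F.C (j + 1) (fun v : Fin (2 ^ K) =>
            (datS K H b Ω al U σ κ lam (24 * q) G F).D l v ^ 2) w -
          F.C j (fun v : Fin (2 ^ K) =>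
            (datS K H b Ω al U σ κ lam (24 * q) G F).D l v ^ 2) w| ≤ _
      have c1 := hd.2.1 (j + 1) (by omega)
        (fun y : ℕ => dd K H (al l) (fun ω => |b ω|) (U l) y ^ 2) w
      have c2 := hd.2.1 j hjT (fun y : ℕ => dd K H (al l) (fun ω => |b ω|) (U l) y ^ 2) w
      rw [hfun]
      refine (le_of_eq (congrArg abs (congrArg₂ (· - ·) c1 c2))).trans ?_
      have e4 := Pool.Agent.Helper57.SN.t_P4 K H (al l) (al j) (al (j + 1)) (fun ω => |b ω|)
        (U l) (12 * q) hLv (by omega) e2 (by omega) (w : ℕ)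
      have e5 := pm2_le_CTS b (U l) Ω (hS l hl) (2 ^ (al j - 2 * H)) (2 ^ (al (j + 1)))
      rw [heq, hsplit]
      linarith
    · have hfun : (fun v : Fin (2 ^ K) =>
            (datS K H b Ω al U σ κ lam (24 * q) G F).f v *
              (datS K H b Ω al U σ κ lam (24 * q) G F).D l v) =
          fun v : Fin (2 ^ K) =>
            (fun y : ℕ => σ l * (SS K b Ω y * dd K H (al l) (fun ω => |b ω|) (U l) y)) v := by
        funext v
        show SS K b Ω v * (if l ∈ G then σ l * dd K H (al l) (fun ω => |b ω|) (U l) v else 0) =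
          σ l * (SS K b Ω v * dd K H (al l) (fun ω => |b ω|) (U l) v)
        rw [if_pos hl']
        ring
      show |F.C (j + 1) (fun v : Fin (2 ^ K) =>
            (datS K H b Ω al U σ κ lam (24 * q) G F).f v *
              (datS K H b Ω al U σ κ lam (24 * q) G F).D l v) w -
          F.C j (fun v : Fin (2 ^ K) =>
            (datS K H b Ω al U σ κ lam (24 * q) G F).f v *
              (datS K H b Ω al U σ κ lam (24 * q) G F).D l v) w| ≤ _
      have c1 := hd.2.1 (j + 1) (by omega)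
        (fun y : ℕ => σ l * (SS K b Ω y * dd K H (al l) (fun ω => |b ω|) (U l) y)) w
      have c2 := hd.2.1 j hjT
        (fun y : ℕ => σ l * (SS K b Ω y * dd K H (al l) (fun ω => |b ω|) (U l) y)) w
      rw [(Pool.Agent.Helper57.SN.m_blk1 (K - al (j + 1) + H)).2.2.2.1] at c1
      rw [(Pool.Agent.Helper57.SN.m_blk1 (K - al j + H)).2.2.2.1] at c2
      rw [hfun]
      refine (le_of_eq (congrArg abs (congrArg₂ (· - ·) c1 c2))).trans ?_
      have e4 := hINC K H (al l) (al j) (al (j + 1)) b (U l) Ω (12 * q) Ms hGS hLv (hS l hl) hMs hH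
        (by omega) e2 e3 (w : ℕ)
      have e6 : |σ l| = 1 := by
        rcases hσ with h | h <;> rw [h] <;> norm_num
      show |σ l * blk (K - al (j + 1) + H)
            (fun y : ℕ => SS K b Ω y * dd K H (al l) (fun ω => |b ω|) (U l) y) w -
          σ l * blk (K - al j + H)
            (fun y : ℕ => SS K b Ω y * dd K H (al l) (fun ω => |b ω|) (U l) y) w| ≤ _
      rw [← mul_sub, abs_mul, e6, one_mul, heq, hsplit]
      linarith

end Pool.Agent.Helper56.OS
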