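import Pool.Agent.Helper56.OS.StB

/-! Project OS, module DICH: structured or unstructured (greedy removal of spans). -/

set_option autoImplicit false

open Finset

namespace Pool.Agent.Helper56.OS

open Pool.Agent.Helper57.SN (Spn stm)

private theorem spn_mono_DICH {D D' : Finset ℕ} (h : D ⊆ D') {g : ℤ} (hg : Spn 1 D g) :
    Spn 1 D' g := by
  classical
  obtain ⟨c, hc, e⟩ := hg
  refine ⟨fun d => if d ∈ D then c d else 0, ?_, ?_⟩
  · intro d
    by_cases hd : d ∈ D
    · simp only [if_pos hd]; exact hc d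
    · simp only [if_neg hd]; simp
  · rw [e]
    rw [← Finset.sum_subset h (f := fun d => (if d ∈ D then c d else 0) * (d : ℤ))]
    · apply Finset.sum_congr rfl
      intro d hd
      simp only [if_pos hd]
    · intro d _ hd
      simp only [if_neg hd, zero_mul]

private theorem ms_nonneg_DICH (b : ℕ → ℝ) (S : Finset ℕ) : 0 ≤ ms b S :=
  Finset.sum_nonneg fun _ _ => abs_nonneg _

private theorem ms_mono_DICH (b : ℕ → ℝ) {S T : Finset ℕ} (h : S ⊆ T) : ms b S ≤ ms b T :=
  Finset.sum_le_sum_of_subset_of_nonneg h fun _ _ _ => abs_nonneg _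

private theorem stm_mono_DICH (b : ℕ → ℝ) {S T : Finset ℕ} (h : S ⊆ T) (D : Finset ℕ) :
    stm (fun ω => |b ω|) S D ≤ stm (fun ω => |b ω|) T D := by
  classical
  unfold stm
  apply Finset.sum_le_sum_of_subset_of_nonneg h
  intro i _ _
  split_ifs
  · exact abs_nonneg _
  · exact le_rfl

private theorem split_DICH (b : ℕ → ℝ) (W W' D : Finset ℕ)
    (h : ∀ ω, ω ∈ W' ↔ ω ∈ W ∧ ¬ Spn 1 D (ω : ℤ)) :
    ms b W' + stm (fun ω => |b ω|) W D = ms b W := by
  classical
  have e : W' = W.filter (fun ω : ℕ => ¬ Spn 1 D (ω : ℤ)) := by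
    ext ω; rw [h, Finset.mem_filter]
  unfold ms stm
  rw [e, Finset.sum_filter, ← Finset.sum_add_distrib]
  apply Finset.sum_congr rfl
  intro ω _
  by_cases hc : Spn 1 D (ω : ℤ)
  · simp [hc]
  · simp [hc]

private def Inv_DICH (S : Finset ℕ) (b : ℕ → ℝ) (τ : ℝ) (s n : ℕ) (D W : Finset ℕ) : Prop :=
  D ⊆ S ∧ W ⊆ S ∧ D.card ≤ s * n ∧ (∀ ω ∈ S, ω ∉ W → Spn 1 D (ω : ℤ)) ∧
    ms b W + n * τ ≤ ms b S

private theorem step_DICH (S : Finset ℕ) (b : ℕ → ℝ) (τ : ℝ) (s n : ℕ) (D W : Finset ℕ)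
    (h : Inv_DICH S b τ s n D W)
    (hbad : ∃ D' ⊆ W, D'.card < s ∧ τ < stm (fun ω => |b ω|) W D') :
    ∃ D' W', Inv_DICH S b τ s (n + 1) D' W' := by
  classical
  obtain ⟨h1, h2, h3, h4, h5⟩ := h
  obtain ⟨D', hD', hc, hst⟩ := hbad
  refine ⟨D ∪ D', W.filter (fun ω : ℕ => ¬ Spn 1 D' (ω : ℤ)), ?_, ?_, ?_, ?_, ?_⟩
  · exact Finset.union_subset h1 (hD'.trans h2)
  · exact (Finset.filter_subset _ _).trans h2
  · refine (Finset.card_union_le _ _).trans ?_
    calc D.card + D'.card ≤ s * n + s := by omega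
      _ = s * (n + 1) := by ring
  · intro ω hω hn
    by_cases hW : ω ∈ W
    · have : Spn 1 D' (ω : ℤ) := by
        by_contra hc'
        exact hn (Finset.mem_filter.2 ⟨hW, hc'⟩)
      exact spn_mono_DICH Finset.subset_union_right this
    · exact spn_mono_DICH Finset.subset_union_left (h4 ω hω hW)
  · have := split_DICH b W (W.filter (fun ω : ℕ => ¬ Spn 1 D' (ω : ℤ))) D'
      (fun ω => Finset.mem_filter)
    push_cast
    linarith

theorem p_DICH : St_DICH := by
  classical
  intro S b M τ β s r hM hτ hs hr hβ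
  -- existence of a good `W`
  have key : ∃ n D W, Inv_DICH S b τ s n D W ∧
      ∀ D' ⊆ W, D'.card < s → stm (fun ω => |b ω|) W D' ≤ τ := by
    by_contra hcon
    have hall : ∀ n, ∃ D W, Inv_DICH S b τ s n D W := by
      intro n
      induction n with
      | zero =>
        refine ⟨∅, S, Finset.empty_subset _, Finset.Subset.refl _, by simp, ?_, by simp⟩
        intro ω h1 h2
        exact absurd h1 h2
      | succ n ih =>
        obtain ⟨D, W, h⟩ := ih
        apply step_DICH S b τ s n D W h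
        by_contra hgood
        apply hcon
        refine ⟨n, D, W, h, ?_⟩
        intro D' hD' hc
        by_contra hlt
        exact hgood ⟨D', hD', hc, not_le.1 hlt⟩
    obtain ⟨n, hn⟩ := exists_nat_gt (ms b S / τ)
    obtain ⟨D, W, h⟩ := hall n
    have h5 := h.2.2.2.2
    have h6 := ms_nonneg_DICH b W
    rw [div_lt_iff₀ hτ] at hn
    linarith
  obtain ⟨n, D, W, ⟨h1, h2, h3, h4, h5⟩, hgood⟩ := key
  have hn : (n : ℝ) ≤ M / τ := by
    rw [le_div_iff₀ hτ]
    have := ms_nonneg_DICH b W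
    linarith
  have hcard : D.card ≤ r := by
    have e1 : (D.card : ℝ) ≤ s * n := by exact_mod_cast h3
    have e2 : (s : ℝ) * n ≤ s * (M / τ) := mul_le_mul_of_nonneg_left hn (Nat.cast_nonneg _)
    have e3 : (D.card : ℝ) ≤ r := e1.trans (e2.trans hr)
    exact_mod_cast e3
  have hb := hβ D h1 hcard
  have hW : β < ms b W := by
    refine hb.trans_le ?_
    unfold ms
    apply Finset.sum_le_sum_of_subset_of_nonneg
    · intro ω hω
      rw [Finset.mem_filter] at hω
      by_contra hc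
      exact hω.2 (h4 ω hω.1 hc)
    · intro _ _ _
      exact abs_nonneg _
  have hsplit : ms b (W.filter (fun ω => 0 ≤ b ω)) + ms b (W.filter (fun ω => ¬ 0 ≤ b ω)) =
      ms b W := by
    unfold ms
    exact Finset.sum_filter_add_sum_filter_not W (fun ω => 0 ≤ b ω) (fun ω => |b ω|)
  by_cases hc : β / 2 ≤ ms b (W.filter (fun ω => 0 ≤ b ω))
  · refine ⟨W.filter (fun ω => 0 ≤ b ω), (Finset.filter_subset _ _).trans h2, Or.inl ?_, hc, ?_⟩
    · intro ω hω
      exact (Finset.mem_filter.1 hω).2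
    · intro D' hD' hcd
      exact (stm_mono_DICH b (Finset.filter_subset _ _) D').trans
        (hgood D' (hD'.trans (Finset.filter_subset _ _)) hcd)
  · refine ⟨W.filter (fun ω => ¬ 0 ≤ b ω), (Finset.filter_subset _ _).trans h2, Or.inr ?_, ?_, ?_⟩
    · intro ω hω
      exact (not_le.1 (Finset.mem_filter.1 hω).2).le
    · push Not at hc
      linarith
    · intro D' hD' hcd
      exact (stm_mono_DICH b (Finset.filter_subset _ _) D').trans
        (hgood D' (hD'.trans (Finset.filter_subset _ _)) hcd)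

end Pool.Agent.Helper56.OS
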