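import Pool.Agent.Helper56.OS.StA

/-! Project OS, module DLT: the total quadratic variation of the martingale under the tilt. -/

set_option autoImplicit false

open Finset

namespace Pool.Agent.Helper56.OS

open Pool.Agent.Helper56.SS (Fil Dat Hyp E E_add E_sub E_mul_left E_mul_right E_sum E_mono
  E_nonneg E_zero E_const)

private theorem C_dM_DLT {Ω : Type} [Fintype Ω] (F : Fil Ω) (f : Ω → ℝ) (n : ℕ) (w : Ω) :
    F.C n (dM F f n) w = 0 := by
  have e : dM F f n = fun w => F.C (n + 1) f w - F.C n f w := rfl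
  rw [e, F.C_sub, F.tower (Nat.le_succ n), F.C_of_meas (F.C_meas n f), sub_self]

private theorem abs_C_DLT {Ω : Type} [Fintype Ω] (F : Fil Ω) (f : Ω → ℝ) (hf : ∀ w, |f w| ≤ 1)
    (n : ℕ) (w : Ω) : |F.C n f w| ≤ 1 := by
  rw [abs_le]
  constructor
  · have := F.C_mono (j := n) (g := fun _ => (-1 : ℝ)) (h := f)
      (fun w => (abs_le.mp (hf w)).1) w
    rwa [F.C_const] at this
  · have := F.C_mono (j := n) (g := f) (h := fun _ => (1 : ℝ))
      (fun w => (abs_le.mp (hf w)).2) w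
    rwa [F.C_const] at this

private theorem step_DLT {Ω : Type} [Fintype Ω] [Nonempty Ω] (d : Dat Ω) (hd : Hyp d)
    (f : Ω → ℝ) (hf : ∀ w, |f w| ≤ 1) (n : ℕ) :
    E (fun w => d.R n w * d.F.C n f w ^ 2)
      + (1 / 2 * E (fun w => d.R n w * d.F.C n (fun v => dM d.F f n v ^ 2) w)
        - 4 * E (fun w => d.R n w * d.F.C n (fun v => d.x n v ^ 2) w))
      ≤ E (fun w => d.R (n + 1) w * d.F.C (n + 1) f w ^ 2) := by
  have hR := hd.R_meas n
  have hM := d.F.C_meas n f
  have z1 : E (fun w => (d.R n w * d.F.C n f w) * dM d.F f n w) = 0 := by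
    rw [← d.F.E_mul_C (hR.mul hM)]
    have : (fun w => (d.R n w * d.F.C n f w) * d.F.C n (dM d.F f n) w) = fun _ => (0 : ℝ) := by
      funext w; rw [C_dM_DLT]; ring
    rw [this, E_zero]
  have z2 : E (fun w => (d.R n w * (d.F.C n f w * d.F.C n f w)) * d.x n w) = 0 := by
    rw [← d.F.E_mul_C (hR.mul (hM.mul hM))]
    have : (fun w => (d.R n w * (d.F.C n f w * d.F.C n f w)) * d.F.C n (d.x n) w)
        = fun _ => (0 : ℝ) := by
      funext w; rw [hd.C_x]; ring
    rw [this, E_zero]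
  rw [d.F.E_mul_C hR, d.F.E_mul_C hR]
  have e : E (fun w => d.R n w * d.F.C n f w ^ 2)
      + (1 / 2 * E (fun w => d.R n w * dM d.F f n w ^ 2)
        - 4 * E (fun w => d.R n w * d.x n w ^ 2))
      = E (fun w => (d.R n w * d.F.C n f w ^ 2
        + (1 / 2 * (d.R n w * dM d.F f n w ^ 2) - 4 * (d.R n w * d.x n w ^ 2)))
        + (2 * ((d.R n w * d.F.C n f w) * dM d.F f n w)
          + (d.R n w * (d.F.C n f w * d.F.C n f w)) * d.x n w)) := by
    rw [E_add (fun w => (d.R n w * d.F.C n f w ^ 2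
        + (1 / 2 * (d.R n w * dM d.F f n w ^ 2) - 4 * (d.R n w * d.x n w ^ 2)))),
      E_add (fun w => d.R n w * d.F.C n f w ^ 2), E_sub, E_mul_left, E_mul_left,
      E_add (fun w => 2 * ((d.R n w * d.F.C n f w) * dM d.F f n w)), E_mul_left, z1, z2]
    ring
  rw [e]
  apply E_mono
  intro w
  have hR0 := (hd.R_pos n w).le
  have hx := hd.abs_x_le' n w
  have hm := abs_C_DLT d.F f hf n w
  have e1 : d.F.C (n + 1) f w = d.F.C n f w + dM d.F f n w := by unfold dM; ring
  rw [hd.R_succ, e1]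
  set R := d.R n w
  set x := d.x n w
  set M := d.F.C n f w
  set D := dM d.F f n w
  have k1 : 1 / 2 * D ^ 2 - 4 * x ^ 2 ≤ D ^ 2 + 2 * x * M * D + x * D ^ 2 := by
    have a1 : -(1 / 4) ≤ x := (abs_le.mp hx).1
    have a2 : -(1 / 4) * D ^ 2 ≤ x * D ^ 2 := mul_le_mul_of_nonneg_right a1 (sq_nonneg D)
    have hM2 : M ^ 2 ≤ 1 := by
      have := abs_le.mp hm
      nlinarith
    have a3 : -(4 * x ^ 2 + 1 / 4 * D ^ 2) ≤ 2 * x * M * D := by
      have b1 : (M * D) ^ 2 ≤ D ^ 2 := by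
        rw [mul_pow]
        nlinarith [sq_nonneg D]
      nlinarith [sq_nonneg (2 * x + M * D / 2)]
    linarith
  have k2 := mul_le_mul_of_nonneg_left k1 hR0
  nlinarith [k2]

theorem p_DLT : S_DLT := by
  intro Ω _ _ d V hd hV f hf N
  have hv0 : ∀ n, 0 ≤ E (fun w => d.R n w * d.F.C n (fun v => d.x n v ^ 2) w) := fun n =>
    E_nonneg (fun w => mul_nonneg (hd.R_pos n w).le (d.F.C_nonneg (fun _ => by positivity) w))
  have hvN : ∀ n, n ∉ d.G → E (fun w => d.R n w * d.F.C n (fun v => d.x n v ^ 2) w) = 0 := by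
    intro n hn
    have : (fun w => d.R n w * d.F.C n (fun v => d.x n v ^ 2) w) = fun _ => (0 : ℝ) := by
      funext w
      have e : (fun v => d.x n v ^ 2) = fun _ => (0 : ℝ) := by
        funext v; unfold Dat.x; rw [if_neg hn]; ring
      rw [e, d.F.C_const, mul_zero]
    rw [this, E_zero]
  have key : ∀ N : ℕ, E (fun w => d.R 0 w * d.F.C 0 f w ^ 2)
      + (1 / 2 * ∑ n ∈ range N, E (fun w => d.R n w * d.F.C n (fun v => dM d.F f n v ^ 2) w)
        - 4 * ∑ n ∈ range N, E (fun w => d.R n w * d.F.C n (fun v => d.x n v ^ 2) w))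
      ≤ E (fun w => d.R N w * d.F.C N f w ^ 2) := by
    intro N
    induction N with
    | zero => simp
    | succ n ih =>
      rw [sum_range_succ, sum_range_succ]
      have := step_DLT d hd f hf n
      linarith
  have k1 := key N
  have k2 : 0 ≤ E (fun w => d.R 0 w * d.F.C 0 f w ^ 2) :=
    E_nonneg (fun w => mul_nonneg (hd.R_pos 0 w).le (sq_nonneg _))
  have k3 : E (fun w => d.R N w * d.F.C N f w ^ 2) ≤ 1 := by
    rw [← hd.E_R N]
    apply E_mono
    intro w
    have hm := abs_le.mp (abs_C_DLT d.F f hf N w)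
    have : d.F.C N f w ^ 2 ≤ 1 := by nlinarith
    calc d.R N w * d.F.C N f w ^ 2 ≤ d.R N w * 1 :=
          mul_le_mul_of_nonneg_left this (hd.R_pos N w).le
      _ = d.R N w := mul_one _
  have k4 : ∑ n ∈ range N, E (fun w => d.R n w * d.F.C n (fun v => d.x n v ^ 2) w) ≤ V := by
    refine le_trans ?_ hV
    rw [← sum_filter_add_sum_filter_not (range N) (fun n => n ∈ d.G)]
    have z : ∑ n ∈ (range N).filter (fun n => ¬ n ∈ d.G),
        E (fun w => d.R n w * d.F.C n (fun v => d.x n v ^ 2) w) = 0 :=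
      sum_eq_zero (fun n hn => hvN n (mem_filter.mp hn).2)
    rw [z, add_zero]
    apply sum_le_sum_of_subset_of_nonneg
    · intro n hn; exact (mem_filter.mp hn).2
    · intro n _ _; exact hv0 n
  linarith

end Pool.Agent.Helper56.OS
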