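import Pool.Agent.Helper56.OS.StA

/-! # Project OS, module ENT: the entropy inequality in a block. -/

set_option autoImplicit false

open Finset

namespace Pool.Agent.Helper56.OS

open Pool.Agent.Helper56.SS (Fil Dat Hyp E)

private theorem xlog_ge_ENT (r : ℝ) (hr : 0 < r) : 0 ≤ r * Real.log r - r + 1 := by
  have h1 := Real.one_sub_inv_le_log_of_pos hr
  have h2 : r * (1 - r⁻¹) = r - 1 := by field_simp
  have h3 := mul_le_mul_of_nonneg_left h1 hr.le
  linarith

private theorem xlog_small_ENT (r : ℝ) (hr : 0 < r) (h : r < 1 / 2) :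
    1 / 7 ≤ r * Real.log r - r + 1 := by
  have h1 := Real.one_sub_inv_le_log_of_pos (by positivity : (0 : ℝ) < 2 * r)
  rw [Real.log_mul two_ne_zero hr.ne'] at h1
  have h2 : r * (1 - (2 * r)⁻¹) = r - 1 / 2 := by field_simp
  have h3 := mul_le_mul_of_nonneg_left h1 hr.le
  have h4 := Real.log_two_lt_d9
  have h5 := Real.log_two_gt_d9
  have h6 : r * Real.log 2 ≤ 1 / 2 * 0.6931471808 := by
    apply mul_le_mul h.le h4.le (by linarith) (by norm_num)
  rw [h2, mul_add] at h3
  linarith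

theorem p_ENT : S_ENT := by
  intro Ω _ _ F c ρ φ w hρ h1 hφ0 hφ4
  have key : ∀ v, φ v ≤ 2 * (ρ v * φ v) + 28 * (ρ v * Real.log (ρ v) - ρ v + 1) := by
    intro v
    by_cases hv : ρ v < 1 / 2
    · have h2 := xlog_small_ENT (ρ v) (hρ v) hv
      have h3 := mul_nonneg (hρ v).le (hφ0 v)
      have h4 := hφ4 v
      linarith
    · have h2 := xlog_ge_ENT (ρ v) (hρ v)
      have h3 : φ v ≤ 2 * (ρ v * φ v) := by
        have h4 : 1 ≤ 2 * ρ v := by linarith [not_lt.mp hv]
        have h5 := mul_le_mul_of_nonneg_right h4 (hφ0 v)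
        linarith
      linarith
  have h2 : F.C c φ w ≤ F.C c (fun v => 2 * (ρ v * φ v) + 28 * (ρ v * Real.log (ρ v) - ρ v + 1)) w :=
    F.C_mono key w
  have h3 : F.C c (fun v => 2 * (ρ v * φ v) + 28 * (ρ v * Real.log (ρ v) - ρ v + 1)) w =
      2 * F.C c (fun v => ρ v * φ v) w + 28 * (F.C c (fun v => ρ v * Real.log (ρ v)) w -
        F.C c ρ w + 1) := by
    rw [F.C_add c (fun v => 2 * (ρ v * φ v)) (fun v => 28 * (ρ v * Real.log (ρ v) - ρ v + 1)) w,
      F.C_mul_left c 2 (fun v => ρ v * φ v) w,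
      F.C_mul_left c 28 (fun v => ρ v * Real.log (ρ v) - ρ v + 1) w,
      F.C_add c (fun v => ρ v * Real.log (ρ v) - ρ v) (fun _ => 1) w,
      F.C_sub c (fun v => ρ v * Real.log (ρ v)) ρ w, F.C_const]
  rw [h3, h1] at h2
  linarith

end Pool.Agent.Helper56.OS
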