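import Pool.Agent.Helper56.OS.Defs
import Pool.Agent.Helper56.SS.St

/-! # Project OS, statements A: the stopped signed tilt on an abstract filtered space.

Setting: `Helper56.SS.Fil` (finite set, uniform mean `E`, nested partitions, block averages
`F.C j`), `Helper56.SS.Base` (all elementary facts for `Hyp d`: `R_succ`, `R_zero`, `R_pos`,
`R_meas`, `E_R`, `C_x`, `C_x_sq`, `R_split`, `gn_eq`, `th_sg_le`, `xb_kap`, …).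
`d : Dat Ω` is the original datum (`HypS d`), `stp d h` the stopped one; by module STP it satisfies
`Hyp (stp d h)`, so all of `Base` and the statements `S_NEG`, `S_NEAR`, `S_TEL`, `S_BIG` (proved in
`SS.M_NEG`, …) apply to it.  Notation in the proofs: `e = stp d h`, `R = e.R`, `u_l = d.D l`,
`f = d.f`, `M_n = C_n f`, `Δ_n = M_{n+1} - M_n` (`dM d.F f n`), `sg_l = C_l (u_l^2)`. -/

set_option autoImplicit false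

open Finset

namespace Pool.Agent.Helper56.OS

open Pool.Agent.Helper56.SS (Fil Dat Hyp E S_NEG S_NEAR S_TEL S_BIG)

/-- **STP** (the stopped data).  Proof of the first part: `th'` is `0` or `th`; the sum in the
condition is measurable at time `j` (`th_i`, `sg_i` are measurable at `i < j`); the field `gain`
reads `E (g D^2) - B0^2 E g ≤ E (g * 0 * D) = 0`, true as `D^2 ≤ B0^2`, `g ≥ 0`.
Second part: fix `w`, terms `c_i = th_i sg_i ≥ 0`; the `j ∈ G` with `Σ_{i<j} c_i ≤ h` form an initial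
segment of `G` (partial sums increase); if it is empty the sum is `0`, otherwise let `j*` be its
largest element: `Σ_j th'_j sg_j = Σ_{i<j*} c_i + c_{j*} ≤ h + kap^2` (`th_sg_le` for the original
data: where `th_j = 1` it is `1` on the whole block of time `j` and `|D_j| ≤ kap` there).
Third part: if all `j ∈ G`, `j < n`, are in the initial segment, the two sums agree; otherwise let
`j1` be the smallest `j ∈ G`, `j < n` outside: the sum of `th' sg` over `i < j1` equals the sum of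
`th sg` over `i < j1`, which is `> h`, and all terms are `≥ 0`. -/
def S_STP : Prop := ∀ (Ω : Type) [Fintype Ω] [Nonempty Ω] (d : Dat Ω) (h : ℝ), HypS d → 0 ≤ h →
  Hyp (stp d h) ∧
  (∀ w, ∑ j ∈ d.G, (stp d h).th j w * d.sg j w ≤ h + d.kap ^ 2) ∧
  (∀ (n : ℕ) (w : Ω), h < ∑ i ∈ d.G.filter (fun i => i < n), d.th i w * d.sg i w →
    h < ∑ i ∈ d.G.filter (fun i => i < n), (stp d h).th i w * d.sg i w) ∧
  (∀ j w, 0 ≤ d.sg j w ∧ 0 ≤ (stp d h).th j w ∧ (stp d h).th j w ≤ d.th j w)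

/-- **QV**.  For a function `g` measurable at time `j` and `j ≤ n`, `E (R_n g) = E (R_j g)`
(induction on `n`, `R_{n+1} = R_n (1 + x_n)`, `C_n x_n = 0`).  So with `n` larger than all elements
of `G`: `Σ_j gn j = Σ_j E (R_j th'_j sg_j)` (`gn_eq`) `= E (R_n Σ_j th'_j sg_j) ≤ (h + kap^2) E R_n`,
`E R_n = 1`.  Third part: `C_j (x_j^2) = lam^2 th'_j sg_j` (`C_x_sq`) and `gn_eq`. -/
def S_QV : Prop := ∀ (Ω : Type) [Fintype Ω] [Nonempty Ω] (d : Dat Ω) (h : ℝ), Hyp d →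
  (∀ w, ∑ j ∈ d.G, d.th j w * d.sg j w ≤ h) →
  (∀ (j n : ℕ) (g : Ω → ℝ), j ≤ n → d.F.Meas j g →
    E (fun w => d.R n w * g w) = E (fun w => d.R j w * g w)) ∧
  ∑ j ∈ d.G, d.gn j ≤ h ∧
  ∑ j ∈ d.G, E (fun w => d.R j w * d.F.C j (fun v => d.x j v ^ 2) w) ≤ d.lam ^ 2 * h

/-- **POS** (positive moments of the small part), like `S_NEG`: `(1 + y)^s ≤ exp (s y)
≤ 1 + s y + s^2 y^2` for `|s y| ≤ 1/4` (`log (1+y) ≤ y`, `exp u ≤ 1 + u + u^2` for `|u| ≤ 1`), at each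
`w` one of `xb_n`, `xs_n` vanishes, `C_xb`, `C_xs`, `C_xs_sq`; induction on `n`. -/
def S_POS : Prop := ∀ (Ω : Type) [Fintype Ω] [Nonempty Ω] (d : Dat Ω), Hyp d →
  ∀ (t s : ℝ), 0 ≤ t → 1 ≤ s → s * (d.lam * d.kap) ≤ 1 / 4 → ∀ a n : ℕ, a ≤ n →
  E (fun w => d.R a w * d.Bb t a n w * d.Ss t a n w ^ s) ≤
    Real.exp (5 * s ^ 2 * (d.cnt a n * (d.lam ^ 2 * t ^ 2)))

/-- **TWO** (uses `S_NEG`, `S_POS`).  `R_n = R_a B S`, so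
`|E (R_n Y) - E (R_a B Y)| ≤ E (R_a B |S - 1| |Y|)`.  Where `|S - 1| ≤ ε`: `S ≥ 1/2`, so
`|S - 1| ≤ 2 ε S` and the contribution is at most `2 ε E (R_n |Y|)`.  Where `S < 1 - ε`:
`|S - 1| ≤ 1` and `E (R_a B 1{S < 1-ε}) ≤ (1-ε)^s E (R_a B S^(-s)) ≤ exp (-s ε + 5 s^2 QV) ≤ om`.
Where `S > 1 + ε`: `|S - 1| ≤ S` and
`E (R_a B S 1{S > 1+ε}) ≤ (1+ε)^(-(s-1)) E (R_a B S^s) ≤ exp (-(s-1) ε/2 + 5 s^2 QV) ≤ om`
(`log (1+ε) ≥ ε/2`, `s - 1 ≥ s/2`). -/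
def S_TWO : Prop := S_NEG → S_POS → ∀ (Ω : Type) [Fintype Ω] [Nonempty Ω] (d : Dat Ω), Hyp d →
  ∀ (t s ε om : ℝ), 0 ≤ t → 2 ≤ s → s * (d.lam * d.kap) ≤ 1 / 4 → 0 < ε → ε ≤ 1 / 4 →
  ∀ a n : ℕ, a ≤ n →
  Real.exp (-(s * ε / 4) + 5 * s ^ 2 * (d.cnt a n * (d.lam ^ 2 * t ^ 2))) ≤ om →
  ∀ (Y : Ω → ℝ) (Ym : ℝ), (∀ w, |Y w| ≤ Ym) →
  |E (fun w => d.R n w * Y w) - E (fun w => d.R a w * d.Bb t a n w * Y w)| ≤
    2 * ε * E (fun w => d.R n w * |Y w|) + 4 * om * Ym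

/-- **TEL2** (two-sided telescoping): `S_TEL` for `g` and for `-g` (`C_j (-g) = - C_j g`, from
`C_mul_left` with `c = -1`). -/
def S_TEL2 : Prop := S_TEL → ∀ (Ω : Type) [Fintype Ω] [Nonempty Ω] (d : Dat Ω), Hyp d →
  ∀ (t : ℝ) (a n : ℕ), a ≤ n → ∀ (g : Ω → ℝ) (u : ℕ → ℝ),
  (∀ j ∈ d.G, a ≤ j → j < n → ∀ w, |d.F.C (j + 1) g w - d.F.C j g w| ≤ u j) →
  |E (fun w => d.R a w * d.Bb t a n w * d.F.C n g w) - E (fun w => d.R a w * d.F.C a g w)| ≤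
    ∑ j ∈ d.G.filter (fun j => a ≤ j ∧ j < n), u j * E (fun w => d.R a w * d.Bb t a j w *
      |d.xb t j w|)

/-- **STP2** (one step of the chain; uses the statements above, `S_BIG`, `S_NEAR`).
`S_TWO` with `Y = C_n g`, `S_TEL2`, `S_BIG` for every `j` (the condition of `S_BIG`:
`-(s ε) ≤ -(s ε/4)` and `cnt a j ≤ cnt a n ≤ dd`).  Second part (first segment, `t = kap`): `xb = 0` by
`Hyp.xb_kap`, so `Bb = 1` and `E (R_a C_n g) = E (R_a C_a g)` (`E_mul_C` twice). -/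
def S_STP2 : Prop := S_NEG → S_NEAR → S_TEL → S_BIG → S_POS → S_TWO → S_TEL2 →
  ∀ (Ω : Type) [Fintype Ω] [Nonempty Ω] (d : Dat Ω), Hyp d →
  ∀ (t s ε om : ℝ), 0 < t → 2 ≤ s → s * (d.lam * d.kap) ≤ 1 / 4 → 0 < ε → ε ≤ 1 / 4 →
  ∀ (a n : ℕ), a ≤ n → ∀ (dd : ℝ), (d.cnt a n : ℝ) ≤ dd →
  Real.exp (-(s * ε / 4) + 5 * s ^ 2 * (dd * (d.lam ^ 2 * t ^ 2))) ≤ om →
  ∀ (g : Ω → ℝ) (Ym : ℝ), (∀ w, |g w| ≤ Ym) →
  (∀ (u : ℕ → ℝ), (∀ j, 0 ≤ u j) →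
    (∀ j ∈ d.G, a ≤ j → j < n → ∀ w, |d.F.C (j + 1) g w - d.F.C j g w| ≤ u j) →
    |E (fun w => d.R n w * d.F.C n g w) - E (fun w => d.R a w * d.F.C a g w)| ≤
      2 * ε * E (fun w => d.R n w * |d.F.C n g w|) + 4 * om * Ym +
      ∑ j ∈ d.G.filter (fun j => a ≤ j ∧ j < n),
        u j * (d.lam / t * (2 * d.gn j + d.kap ^ 2 * om))) ∧
  (t = d.kap →
    |E (fun w => d.R n w * d.F.C n g w) - E (fun w => d.R a w * d.F.C a g w)| ≤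
      2 * ε * E (fun w => d.R n w * |d.F.C n g w|) + 4 * om * Ym)

/-- **MOM2**.  Let `V_n = Σ_{j ∈ G, j < n} th_j sg_j`.  `(1+x)^(1+δ) ≤ (1+x)(1+δ x)` (Bernoulli), so
`C_n ((1+x_n)^(1+δ)) ≤ 1 + δ lam^2 th_n sg_n ≤ exp (δ lam^2 th_n sg_n)` for `n ∈ G` and `= 1` otherwise.
Hence `E (R_n^(1+δ) exp (-δ lam^2 V_n)) ≤ 1` by induction (`V_{n+1}` is measurable at time `n`), and
`V_n ≤ h`, so `E (R_n^(1+δ)) ≤ exp (δ lam^2 h) ≤ e ≤ 3`. -/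
def S_MOM2 : Prop := ∀ (Ω : Type) [Fintype Ω] [Nonempty Ω] (d : Dat Ω) (h : ℝ), Hyp d →
  (∀ w, ∑ j ∈ d.G, d.th j w * d.sg j w ≤ h) →
  ∀ δ : ℝ, 0 < δ → δ ≤ 1 / 4 → δ * (d.lam ^ 2 * h) ≤ 1 →
  ∀ n, E (fun w => d.R n w ^ (1 + δ)) ≤ 3

/-- **HOL2**.  Hölder with exponents `1 + δ`, `(1 + δ)/δ` as in `SS.M_HOL` (copy that proof). -/
def S_HOL2 : Prop := ∀ (Ω : Type) [Fintype Ω] [Nonempty Ω] (R a : Ω → ℝ) (δ : ℝ), 0 < δ → δ ≤ 1 / 4 →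
  (∀ w, 0 ≤ R w) → E (fun w => R w ^ (1 + δ)) ≤ 3 → (∀ w, 0 ≤ a w) → (∀ w, a w ≤ 1) →
  E (fun w => R w * a w) ≤ 3 * (E a) ^ (δ / (1 + δ))

/-- **DLT**.  `M_n = C_n f`, `|M_n| ≤ 1`.
`E (R_{n+1} M_{n+1}^2) - E (R_n M_n^2) = E (R_n (C_n Δ_n^2 + 2 M_n C_n (x_n Δ_n) + C_n (x_n Δ_n^2)))`
(`R_{n+1} = R_n (1 + x_n)`, `C_n x_n = 0`, `C_n Δ_n = 0`).  The last term is `≥ -(1/4) C_n Δ_n^2`, the
middle one `≥ -2 C_n |x_n Δ_n| ≥ - (4 C_n x_n^2 + (1/4) C_n Δ_n^2)`.  Sum over `n < N`: the left side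
telescopes to at most `1`; so `(1/2) S ≤ 1 + 4 V`. (For `n ∉ G`, `x_n = 0`.) -/
def S_DLT : Prop := ∀ (Ω : Type) [Fintype Ω] [Nonempty Ω] (d : Dat Ω) (V : ℝ), Hyp d →
  ∑ j ∈ d.G, E (fun w => d.R j w * d.F.C j (fun v => d.x j v ^ 2) w) ≤ V →
  ∀ f : Ω → ℝ, (∀ w, |f w| ≤ 1) → ∀ N : ℕ,
  ∑ n ∈ range N, E (fun w => d.R n w * d.F.C n (fun v => dM d.F f n v ^ 2) w) ≤ 2 + 8 * V

/-- **ENT** (entropy inequality in a block).  `ρ log ρ - ρ + 1 ≥ 0` for `ρ > 0`, and `≥ 1/7` for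
`ρ < 1/2` (it is decreasing on `(0, 1)`, the value at `1/2` is `(1 - log 2)/2 ≥ 1/7`).
`C φ = C (φ 1{ρ ≥ 1/2}) + C (φ 1{ρ < 1/2}) ≤ 2 C (ρ φ) + 4 C (1{ρ < 1/2})
≤ 2 C (ρ φ) + 28 C (ρ log ρ - ρ + 1)`, and `C (-ρ + 1) = 0` at `w`. -/
def S_ENT : Prop := ∀ (Ω : Type) [Fintype Ω] [Nonempty Ω] (F : Fil Ω) (c : ℕ) (ρ φ : Ω → ℝ) (w : Ω),
  (∀ w, 0 < ρ w) → F.C c ρ w = 1 → (∀ w, 0 ≤ φ w) → (∀ w, φ w ≤ 4) →
  F.C c φ w ≤ 2 * F.C c (fun v => ρ v * φ v) w + 28 * F.C c (fun v => ρ v * Real.log (ρ v)) w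

/-- **ORTH** (orthogonality of the martingale differences in a block and under the tilt).
(i) for `c ≤ a ≤ n`: `C_c ((M_n - M_a)^2) = Σ_{a ≤ l < n} C_c (Δ_l^2)`;
(ii) for `a ≤ n`: `E (R_n (M_n - M_a)^2) ≤ Σ_{a ≤ l < n} (4 E (R_l C_l Δ_l^2) + 2 E (R_l C_l x_l^2))`:
with `Z_l = M_l - M_a`, `|Z_l| ≤ 2`, `E (R_{l+1} Z_{l+1}^2) - E (R_l Z_l^2)
= E (R_l (C_l Δ_l^2 + 2 Z_l C_l (x_l Δ_l) + C_l (x_l Δ_l^2)))
≤ E (R_l ((5/4) C_l Δ_l^2 + 4 C_l |x_l Δ_l|))`, `4 |x Δ| ≤ 2 x^2 + 2 Δ^2`;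
(iii) for `a ≤ n`, `ρ = Π_{a ≤ i < n} (1 + x_i)`: `R_n = R_a ρ`, `C_a ρ = 1` and
`E (R_n log ρ) ≤ Σ_{a ≤ l < n} E (R_l C_l x_l^2)`: `E (R_n log (1 + x_l)) = E (R_{l+1} log (1 + x_l))
= E (R_l (1 + x_l) log (1 + x_l)) ≤ E (R_l (x_l + x_l^2))`, as `log (1 + x) ≤ x`. -/
def S_ORTH : Prop := ∀ (Ω : Type) [Fintype Ω] [Nonempty Ω] (d : Dat Ω), Hyp d →
  ∀ f : Ω → ℝ, (∀ w, |f w| ≤ 1) → ∀ a n : ℕ, a ≤ n →
  (∀ c ≤ a, ∀ w, d.F.C c (fun v => (d.F.C n f v - d.F.C a f v) ^ 2) w =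
    ∑ l ∈ Ico a n, d.F.C c (fun v => dM d.F f l v ^ 2) w) ∧
  E (fun w => d.R n w * (d.F.C n f w - d.F.C a f w) ^ 2) ≤
    ∑ l ∈ Ico a n, (4 * E (fun w => d.R l w * d.F.C l (fun v => dM d.F f l v ^ 2) w) +
      2 * E (fun w => d.R l w * d.F.C l (fun v => d.x l v ^ 2) w)) ∧
  (∀ w, 0 < ∏ i ∈ Ico a n, (1 + d.x i w)) ∧
  (∀ w, d.R n w = d.R a w * ∏ i ∈ Ico a n, (1 + d.x i w)) ∧
  (∀ w, d.F.C a (fun v => ∏ i ∈ Ico a n, (1 + d.x i v)) w = 1) ∧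
  E (fun w => d.R n w * Real.log (∏ i ∈ Ico a n, (1 + d.x i w))) ≤
    ∑ l ∈ Ico a n, E (fun w => d.R l w * d.F.C l (fun v => d.x l v ^ 2) w)

/-- **CCS** (elementary facts on the cuts). -/
def S_CCS : Prop :=
  (∀ d l : ℕ, 1 ≤ d → d ≤ l → cc d l + d ≤ l ∧ l < cc d l + 2 * d) ∧
  (∀ d l : ℕ, 1 ≤ d → l < 2 * d → cc d l = 0) ∧
  (∀ d l : ℕ, 1 ≤ d → 2 * d ≤ l → d ≤ cc d l) ∧
  (∀ d l : ℕ, 1 ≤ d → d ∣ cc d l) ∧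
  (∀ d l : ℕ, 1 ≤ d → cc (2 * d) l ≤ cc d l ∧ cc d l ≤ l ∧ cc d l < cc (2 * d) l + 4 * d) ∧
  (∀ D k l : ℕ, 1 ≤ D → cut D (k + 1) l ≤ cut D k l ∧ cut D k l ≤ l ∧
    cut D k l ≤ cut D (k + 1) l + 4 * (D * 2 ^ k)) ∧
  (∀ D K l : ℕ, 1 ≤ D → 1 ≤ K → l < 2 * (D * 2 ^ (K - 1)) → cut D K l = 0)

/-- **HYB** (hybrid laws; uses `S_DLT`, `S_ENT`, `S_ORTH`, `S_CCS`).
`Σ_{l < N} E (R_c C_c Δ_l^2)` with `c = cc d' l`.  Group by the value `c`, a multiple of `d'`;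
`{l : cc d' l = c} = [c + d', c + 2 d')` for `c ≥ d'` and `[0, 2 d')` for `c = 0`.
`c = 0`: `R_0 = 1`, `Σ_{l < 2d'} E (Δ_l^2) = E ((M_{2d'} - M_0)^2) ≤ 4`.
`c ≥ d'`: with `φ = (M_{c+2d'} - M_{c+d'})^2 ∈ [0, 4]` and `ρ = Π_{c ≤ i < c+2d'} (1 + x_i)`:
`Σ_l E (R_c C_c Δ_l^2) = E (R_c C_c φ) ≤ 2 E (R_c C_c (ρ φ)) + 28 E (R_c C_c (ρ log ρ))
= 2 E (R_{c+2d'} φ) + 28 E (R_{c+2d'} log ρ)`,
at most `8 Σ_{l ∈ [c+d', c+2d')} E (R_l C_l Δ_l^2) + 4 Σ_{same} E (R_l C_l x_l^2)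
+ 28 Σ_{l ∈ [c, c+2d')} E (R_l C_l x_l^2)`. Sum over `c`: the cells `[c+d', c+2d')` are disjoint and
every `l` lies in two cells `[c, c+2d')`: total `≤ 8 (2 + 8 V) + 4 V + 56 V` (all sums of nonnegative
terms; extend the sums to all levels). -/
def S_HYB : Prop := S_DLT → S_ENT → S_ORTH → S_CCS →
  ∀ (Ω : Type) [Fintype Ω] [Nonempty Ω] (d : Dat Ω) (V : ℝ), Hyp d →
  ∑ j ∈ d.G, E (fun w => d.R j w * d.F.C j (fun v => d.x j v ^ 2) w) ≤ V →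
  ∀ f : Ω → ℝ, (∀ w, |f w| ≤ 1) → ∀ (d' N : ℕ), 1 ≤ d' →
  ∑ l ∈ range N, E (fun w => d.R (cc d' l) w *
    d.F.C (cc d' l) (fun v => dM d.F f l v ^ 2) w) ≤ 20 + 124 * V

/-- **FU**.  `u` measurable at time `l + 1` with `C_l u = 0`, `n ≤ l`: `C_n (f u) = C_n (Δ_l u)`, since
`C_{l+1} (f u) = M_{l+1} u` and `C_l (M_l u) = M_l C_l u = 0` (`tower`, `C_mul_meas`); so for `ρ ≥ 0`
measurable at time `n`, by Cauchy–Schwarz in the block and for `E`: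
`E (ρ |C_n (f u)|) ≤ √(E (ρ C_n Δ_l^2)) √(E (ρ C_n u^2))`.  (iii): sum over `l`, Cauchy–Schwarz again. -/
def S_FU : Prop := ∀ (Ω : Type) [Fintype Ω] [Nonempty Ω] (F : Fil Ω) (f : Ω → ℝ) (u : ℕ → Ω → ℝ)
  (G : Finset ℕ), (∀ l ∈ G, F.Meas (l + 1) (u l)) → (∀ l ∈ G, ∀ w, F.C l (u l) w = 0) →
  (∀ l ∈ G, ∀ n ≤ l, ∀ w, F.C n (fun v => f v * u l v) w = F.C n (fun v => dM F f l v * u l v) w) ∧
  (∀ (n : ℕ → ℕ) (ρ : ℕ → Ω → ℝ), (∀ l ∈ G, n l ≤ l) → (∀ l w, 0 ≤ ρ l w) →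
    ∑ l ∈ G, E (fun w => ρ l w * |F.C (n l) (fun v => f v * u l v) w|) ≤
      Real.sqrt (∑ l ∈ G, E (fun w => ρ l w * F.C (n l) (fun v => dM F f l v ^ 2) w)) *
      Real.sqrt (∑ l ∈ G, E (fun w => ρ l w * F.C (n l) (fun v => u l v ^ 2) w)))

/-- total error of the big parts in the chain of level `l` -/
noncomputable def ebig {Ω : Type} [Fintype Ω] (d : Dat Ω) (D K : ℕ) (t : ℕ → ℝ) (e : ℕ → ℕ → ℝ)
    (tau om : ℝ) (l : ℕ) : ℝ :=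
  ∑ k ∈ Ico 1 K, ∑ j ∈ d.G.filter (fun j => cut D (k + 1) l ≤ j ∧ j < cut D k l),
    (e l j + tau) * (d.lam / t k * (2 * d.gn j + d.kap ^ 2 * om))

/-- **CHN** (one chain; uses `S_STP2`, `S_CCS`).  `d'` satisfies `Hyp`, `g` is a bounded function whose
block averages have the stated increments.  `P_k = E (R_c C_c g)`, `c = cut D k l`.  `S_STP2` with
`t = t_k`, `dd = 4 D 2^k` gives `|P_k - P_{k+1}| ≤ 2 ε E (R |C g|) + 4 om Ym + (sum over the segment)`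
(`k = 0`: second part, no sum; `P_K = E g` since `cut D K l = 0`, `R_0 = 1`).
First conclusion: sum over `k < K`. Second conclusion (`g ≥ 0`): `|C g| = C g`, so
`(1 - 2 ε) P_k ≤ P_{k+1} + err_k`, `1/(1 - 2ε) ≤ 1 + 4 ε`, by downward induction
`P_k ≤ (1 + 4ε)^(K-k) (E g + Σ err)` and `(1 + 4 ε)^K ≤ exp (4 ε K) ≤ 2`. -/
def S_CHN : Prop := S_NEG → S_NEAR → S_TEL → S_BIG → S_POS → S_TWO → S_TEL2 → S_STP2 → S_CCS →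
  ∀ (Ω : Type) [Fintype Ω] [Nonempty Ω] (d : Dat Ω), Hyp d →
  ∀ (D K : ℕ) (t : ℕ → ℝ) (e : ℕ → ℕ → ℝ) (tau s ε om : ℝ) (l : ℕ), l ∈ d.G → 1 ≤ D → 1 ≤ K →
  l < 2 * (D * 2 ^ (K - 1)) → t 0 = d.kap → (∀ k < K, 0 < t k) → (∀ l j, 0 ≤ e l j) → 0 ≤ tau →
  2 ≤ s → s * (d.lam * d.kap) ≤ 1 / 4 → 0 < ε → ε ≤ 1 / 4 → 8 * K * ε ≤ 1 →
  (∀ k < K, Real.exp (-(s * ε / 4) + 5 * s ^ 2 * (4 * (D * 2 ^ k) * (d.lam ^ 2 * t k ^ 2))) ≤ om) →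
  ∀ (g : Ω → ℝ) (Ym : ℝ), (∀ w, |g w| ≤ Ym) →
  (∀ j ∈ d.G, j < cut D 1 l → ∀ w, |d.F.C (j + 1) g w - d.F.C j g w| ≤ e l j + tau) →
  (E g - ebig d D K t e tau om l - 4 * K * (om * Ym) - 2 * ε * (∑ k ∈ range K,
    E (fun w => d.R (cut D k l) w * |d.F.C (cut D k l) g w|)) ≤
      E (fun w => d.R l w * d.F.C l g w)) ∧
  ((∀ w, 0 ≤ g w) → ∀ k ≤ K, E (fun w => d.R (cut D k l) w * d.F.C (cut D k l) g w) ≤
    2 * (E g + ebig d D K t e tau om l + 4 * K * (om * Ym)))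

/-- **SUME** (sum of the errors over `l`).  Exchange the sums: for `1 ≤ k < K`,
`Σ_{l ∈ G} Σ_{j ∈ seg_k(l)} (e l j + tau) y_j = Σ_{j ∈ G} y_j Σ_{l : j ∈ seg_k(l)} (e l j + tau)
≤ Σ_j y_j (M_k + |G| tau)`, `y_j = (lam/t_k)(2 gn_j + kap^2 om)`, `Σ_j gn_j ≤ W`. -/
def S_SUME : Prop := ∀ (Ω : Type) [Fintype Ω] [Nonempty Ω] (d : Dat Ω), Hyp d →
  ∀ (D K : ℕ) (t : ℕ → ℝ) (e : ℕ → ℕ → ℝ) (tau om W : ℝ) (M : ℕ → ℝ), (∀ k < K, 0 < t k) →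
  (∀ l j, 0 ≤ e l j) → 0 ≤ tau → 0 ≤ om → (∀ k, 0 ≤ M k) →
  (∀ k, 1 ≤ k → k < K → ∀ j ∈ d.G,
    (∑ l ∈ d.G.filter (fun l => cut D (k + 1) l ≤ j ∧ j < cut D k l), e l j) ≤ M k) →
  ∑ j ∈ d.G, d.gn j ≤ W →
  ∑ l ∈ d.G, ebig d D K t e tau om l ≤
    ∑ k ∈ Ico 1 K, (M k + d.G.card * tau) * (d.lam / t k * (2 * W + d.G.card * (d.kap ^ 2 * om)))

/-- **STL** (loss after stopping).  `T_l` = indicator of `Σ_{i<l} th_i sg_i > h` (measurable at `l`,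
increasing in `l`), `e = stp d h`.  On `T_l = 1` we have `e.th l = 0`, so `x_l T_l = 0`,
`R_{l+1} T_l = R_l T_l`.  Hence `E (R_l T_l C_l Δ_l^2) = E (R_{l+1} T_l M_{l+1}^2) - E (R_l T_l M_l^2)
≤ E (R_{l+1} T_{l+1} M_{l+1}^2) - E (R_l T_l M_l^2)`; sum over `l < n`: at most `E (R_n T_n)`.
And `T_n = 1` implies `Σ_{i ∈ G, i<n} th'_i sg_i > h` (third part of `S_STP`), so
`h E (R_n T_n) ≤ E (R_n Σ_i th'_i sg_i) = Σ_i E (R_i th'_i sg_i) ≤ Σ_{i ∈ G} E (R_i C_i u_i^2) ≤ Vu`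
(first part of `S_QV`). -/
def S_STL : Prop := S_STP → S_QV → ∀ (Ω : Type) [Fintype Ω] [Nonempty Ω] (d : Dat Ω) (h Vu : ℝ),
  HypS d → 0 < h →
  ∑ l ∈ d.G, E (fun w => (stp d h).R l w * d.F.C l (fun v => d.D l v ^ 2) w) ≤ Vu →
  ∀ n : ℕ, ∑ l ∈ range n, E (fun w => (stp d h).R l w *
    (open Classical in if h < ∑ i ∈ d.G.filter (fun i => i < l), d.th i w * d.sg i w then 1 else 0) *
    d.F.C l (fun v => dM d.F d.f l v ^ 2) w) ≤ Vu / h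

/-- **GN2**.  `lam Σ_{l ∈ G} E (R_l th'_l f u_l) = Σ_n E (R_n x_n f) = E (R_N f) - E f ≤ 2`. -/
def S_GN2 : Prop := S_STP → ∀ (Ω : Type) [Fintype Ω] [Nonempty Ω] (d : Dat Ω) (h : ℝ),
  HypS d → 0 ≤ h →
  d.lam * ∑ l ∈ d.G, E (fun w => (stp d h).R l w * ((stp d h).th l w * (d.f w * d.D l w))) ≤ 2

/-- **LOS** (loss of the cut-offs; uses `S_STP`, `S_QV`, `S_MOM2`, `S_HOL2`, `S_FU`, `S_STL`).
`E (R_l th'_l f u_l) = E (R_l th'_l C_l (f u_l)) ≥ E (R_l C_l (f u_l)) - E (R_l (1 - th'_l) |C_l (f u_l)|)`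
and `1 - th'_l ≤ (1 - th_l) + T_l`.  The `th`-part: `|C_l (f u_l)| ≤ B0`,
`E (R_l (1 - th_l)) ≤ 3 z^(δ/(1+δ))` (`S_HOL2`, `S_MOM2` with `h + kap^2`).  The `T`-part: `S_FU` (ii) with
`n l = l`, `ρ_l = R_l T_l` and `S_STL`: at most `√(Vu/h) √Vu = Vu/√h`. -/
def S_LOS : Prop := S_STP → S_QV → S_MOM2 → S_HOL2 → S_FU → S_STL →
  ∀ (Ω : Type) [Fintype Ω] [Nonempty Ω] (d : Dat Ω) (h Vu δ z : ℝ), HypS d → 0 < h →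
  ∑ l ∈ d.G, E (fun w => (stp d h).R l w * d.F.C l (fun v => d.D l v ^ 2) w) ≤ Vu →
  0 < δ → δ ≤ 1 / 4 → δ * (d.lam ^ 2 * (h + d.kap ^ 2)) ≤ 1 →
  (∀ l ∈ d.G, E (fun w => 1 - d.th l w) ≤ z) →
  ∑ l ∈ d.G, E (fun w => (stp d h).R l w * d.F.C l (fun v => d.f v * d.D l v) w) ≤
    ∑ l ∈ d.G, E (fun w => (stp d h).R l w * ((stp d h).th l w * (d.f w * d.D l w))) +
    d.G.card * (3 * d.B0 * z ^ (δ / (1 + δ))) + Vu / Real.sqrt h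

/-- **FIN2**, the abstract theorem.  Uses everything above.  `e = stp d h`, `Hyp e`, `QV ≤ h + kap^2`,
`W = h + kap^2`, `V = lam^2 (h + kap^2)`.
(1) `S_CHN` (second part) for `g = u_l^2`, `Ym = B0^2`, and `S_SUME` give for every `k ≤ K`:
`Σ_{l ∈ G} E (R_c C_c u_l^2) ≤ Vu`, `c = cut D k l` (the increments of `u_l^2` and `f u_l` below
`cut D 1 l` are bounded by `CutsS.del`; `e.D = d.D`, `e.F = d.F`, `e.G = d.G`, …).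
(2) `S_CHN` (first part) for `g = f u_l`, `Ym = B0`, summed over `l`; by `S_FU` (ii), `S_HYB` (for
`k ≥ 1`, where `cut D k l = cc (D 2^(k-1)) l`), `S_DLT` (for `k = 0`, `2 + 8 V ≤ 20 + 124 V`) and (1):
`Σ_l E (R_c |C_c (f u_l)|) ≤ √(20 + 124 V) √Vu` for every `k < K` (the sum over `l ∈ G` of the
nonnegative terms is at most the sum over `range N`, `N` larger than all elements of `G`).
(3) `S_LOS` (with `k = 0` of (1)), `S_GN2`. -/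
def S_FIN2 : Prop := ∀ (Ω : Type) [Fintype Ω] [Nonempty Ω] (d : Dat Ω), HypS d →
  ∀ (D K : ℕ) (t : ℕ → ℝ) (e : ℕ → ℕ → ℝ) (tau : ℝ) (M : ℕ → ℝ), CutsS d D K t e tau M →
  ∀ (h s ε om δ z Er Vu : ℝ), 0 < h → 2 ≤ s → s * (d.lam * d.kap) ≤ 1 / 4 → 0 < ε → ε ≤ 1 / 4 →
  8 * K * ε ≤ 1 → 0 ≤ om → 0 ≤ d.B0 →
  (∀ k < K, Real.exp (-(s * ε / 4) + 5 * s ^ 2 * (4 * (D * 2 ^ k) * (d.lam ^ 2 * t k ^ 2))) ≤ om) →
  0 < δ → δ ≤ 1 / 4 → δ * (d.lam ^ 2 * (h + d.kap ^ 2)) ≤ 1 →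
  (∀ l ∈ d.G, E (fun w => 1 - d.th l w) ≤ z) →
  (∑ k ∈ Ico 1 K, (M k + d.G.card * tau) *
    (d.lam / t k * (2 * (h + d.kap ^ 2) + d.G.card * (d.kap ^ 2 * om))) ≤ Er) →
  (2 * (∑ l ∈ d.G, E (fun w => d.D l w ^ 2) + Er + d.G.card * (4 * K * (om * d.B0 ^ 2))) ≤ Vu) →
  ∑ l ∈ d.G, E (fun w => d.f w * d.D l w) ≤
    2 / d.lam + d.G.card * (3 * d.B0 * z ^ (δ / (1 + δ))) + Vu / Real.sqrt h +
    Er + d.G.card * (4 * K * (om * d.B0)) +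
    2 * ε * K * (Real.sqrt (20 + 124 * (d.lam ^ 2 * (h + d.kap ^ 2))) * Real.sqrt Vu)

end Pool.Agent.Helper56.OS
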