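import Pool.Agent.Helper56.OS.StB
import Pool.Agent.Helper56.OS.StA

/-! Project OS, module ES. -/

set_option autoImplicit false

open Finset

namespace Pool.Agent.Helper56.OS

private theorem al_mono_ES {K H T : ℕ} {b : ℕ → ℝ} {Ω : Finset ℕ} {al : ℕ → ℕ} {q μ : ℝ}
    (hF : FamS K H T b Ω al q μ) {i j : ℕ} (hij : i ≤ j) (hj : j < T) : al i ≤ al j := by
  rcases Nat.eq_or_lt_of_le hij with h | h
  · rw [h]
  · have := hF.sep i j h hj
    omega

/-- number of scales that count a given difference -/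
private theorem cnt_ES {K H T : ℕ} {b : ℕ → ℝ} {Ω : Finset ℕ} {al : ℕ → ℕ} {q μ : ℝ}
    (hF : FamS K H T b Ω al q μ) (hH : 1 ≤ H) {c : ℕ} (hc : c < T) (h : ℤ) :
    ((range c).filter (fun j => |h| ≤ ((2 ^ (al (j + 1)) : ℕ) : ℤ) ∧
      ((2 ^ (al j - 2 * H) : ℕ) : ℤ) < |h|)).card ≤ 2 := by
  set S := (range c).filter (fun j => |h| ≤ ((2 ^ (al (j + 1)) : ℕ) : ℤ) ∧
      ((2 ^ (al j - 2 * H) : ℕ) : ℤ) < |h|) with hS
  rcases S.eq_empty_or_nonempty with he | hne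
  · rw [he]; simp
  · have hsub : S ⊆ {S.min' hne, S.min' hne + 1} := by
      intro j hj
      have h0 := S.min'_mem hne
      have hle : S.min' hne ≤ j := S.min'_le j hj
      simp only [mem_insert, mem_singleton]
      by_contra hcon
      push Not at hcon
      generalize S.min' hne = m0 at h0 hle hcon
      have h2 : m0 + 2 ≤ j := by omega
      rw [hS, mem_filter, mem_range] at hj h0
      have e1 := hj.2.2
      have e2 := h0.2.1
      have e3 : ((2 ^ (al j - 2 * H) : ℕ) : ℤ) < ((2 ^ (al (m0 + 1)) : ℕ) : ℤ) :=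
        lt_of_lt_of_le e1 e2
      have e4 : 2 ^ (al j - 2 * H) < 2 ^ (al (m0 + 1)) := by exact_mod_cast e3
      have e5 := (Nat.pow_lt_pow_iff_right (by norm_num : 1 < 2)).1 e4
      have e6 := hF.sep (m0 + 1) j (by omega) (by omega)
      omega
    exact le_trans (card_le_card hsub) (card_le_two)

theorem p_ES (hNB : St_NB) (hCCS : S_CCS) : St_ES := by
  intro K H T b Ω al q μ Q hF hH hQ y0 I l x i U hl hx hi hU
  obtain ⟨c1, c2, c3, c4, c5, c6, c7⟩ := hCCS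
  have hq : 0 < q := lt_of_lt_of_le one_pos hF.q1
  have hμ := hF.mu0
  by_cases hl2 : l < 2 * 2 ^ i
  · rw [c2 (2 ^ i) l Nat.one_le_two_pow hl2]
    simp only [range_zero, sum_empty]
    positivity
  push Not at hl2
  set c := cc (2 ^ i) l with hcdef
  have hcl : c ≤ l := (c5 (2 ^ i) l Nat.one_le_two_pow).2.1
  have hcT : c < T := lt_of_le_of_lt hcl hl
  -- exchange the sums
  have h1 : ∑ j ∈ range c, pmS b U Ω (2 ^ (al j - 2 * H)) (2 ^ (al (j + 1))) =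
      ∑ ξ ∈ U, ∑ ω ∈ Ω, ∑ j ∈ range c,
        (if |(ω : ℤ) - ξ| ≤ ((2 ^ (al (j + 1)) : ℕ) : ℤ) ∧
          ((2 ^ (al j - 2 * H) : ℕ) : ℤ) < |(ω : ℤ) - ξ| then |b ξ| * |b ω| else 0) := by
    unfold pmS
    rw [sum_comm]
    refine sum_congr rfl fun ξ _ => ?_
    rw [sum_comm]
  have h2 : ∀ ξ ∈ U, ∑ ω ∈ Ω, ∑ j ∈ range c,
        (if |(ω : ℤ) - ξ| ≤ ((2 ^ (al (j + 1)) : ℕ) : ℤ) ∧
          ((2 ^ (al j - 2 * H) : ℕ) : ℤ) < |(ω : ℤ) - ξ| then |b ξ| * |b ω| else 0) ≤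
      |b ξ| * (2 * (3 * (Q / (2 ^ i * μ)))) := by
    intro ξ hξ
    have hξU := hU hξ
    rw [mem_sdiff] at hξU
    have hnb := hNB b Ω al Q μ y0 I l x i ξ hQ hμ hξU.1 hξU.2 hx hi hl2
    have h3 : ∑ ω ∈ Ω, ∑ j ∈ range c,
        (if |(ω : ℤ) - ξ| ≤ ((2 ^ (al (j + 1)) : ℕ) : ℤ) ∧
          ((2 ^ (al j - 2 * H) : ℕ) : ℤ) < |(ω : ℤ) - ξ| then |b ξ| * |b ω| else 0) ≤
        ∑ ω ∈ Ω, (if |(ω : ℤ) - ξ| ≤ 2 ^ (al c) then 2 * (|b ξ| * |b ω|) else 0) := by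
      refine sum_le_sum fun ω _ => ?_
      rw [← sum_filter, sum_const, nsmul_eq_mul]
      split_ifs with hle
      · have := cnt_ES hF hH hcT ((ω : ℤ) - ξ)
        have h4 : ((((range c).filter (fun j => |(ω : ℤ) - ξ| ≤ ((2 ^ (al (j + 1)) : ℕ) : ℤ) ∧
          ((2 ^ (al j - 2 * H) : ℕ) : ℤ) < |(ω : ℤ) - ξ|)).card : ℕ) : ℝ) ≤ 2 := by
          exact_mod_cast this
        exact mul_le_mul_of_nonneg_right h4 (by positivity)
      · have h5 : (range c).filter (fun j => |(ω : ℤ) - ξ| ≤ ((2 ^ (al (j + 1)) : ℕ) : ℤ) ∧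
          ((2 ^ (al j - 2 * H) : ℕ) : ℤ) < |(ω : ℤ) - ξ|) = ∅ := by
          rw [filter_eq_empty_iff]
          intro j hj hcon
          apply hle
          refine le_trans hcon.1 ?_
          rw [mem_range] at hj
          have h6 : al (j + 1) ≤ al c := al_mono_ES hF (by omega) hcT
          push_cast
          exact pow_le_pow_right₀ (by norm_num) h6
        rw [h5]
        simp
    refine le_trans h3 ?_
    rw [← sum_filter]
    have h7 : ∑ ω ∈ Ω.filter (fun ω : ℕ => |(ω : ℤ) - ξ| ≤ 2 ^ (al c)), 2 * (|b ξ| * |b ω|) =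
        |b ξ| * (2 * ∑ ω ∈ Ω.filter (fun ω : ℕ => |(ω : ℤ) - ξ| ≤ 2 ^ (al c)), |b ω|) := by
      rw [mul_sum, mul_sum]
      refine sum_congr rfl fun ω _ => ?_
      ring
    rw [h7]
    refine mul_le_mul_of_nonneg_left ?_ (abs_nonneg _)
    exact mul_le_mul_of_nonneg_left hnb (by norm_num)
  rw [h1]
  refine le_trans (sum_le_sum h2) ?_
  rw [← sum_mul]
  have h8 : ∑ ξ ∈ U, |b ξ| ≤ Bm b Ω (al l) := by
    unfold Bm
    refine sum_le_sum_of_subset_of_nonneg ?_ fun _ _ _ => abs_nonneg _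
    intro ξ hξ
    have hξU := hU hξ
    rw [mem_sdiff] at hξU
    have h9 := hξU.1
    unfold Oct at h9
    rw [mem_filter] at h9 ⊢
    refine ⟨h9.1, by omega, ?_⟩
    have h10 : 2 ^ (al l + 1) ≤ 2 ^ (al l + 2) := Nat.pow_le_pow_right (by norm_num) (by omega)
    omega
  have h11 : Bm b Ω (al l) ≤ 8 * q * μ := by
    have e1 := hF.good l hl
    have e2 := hF.Phi l hl
    have e3 : 4 * q * Ph b Ω (al l) ≤ 4 * q * (2 * μ) :=
      mul_le_mul_of_nonneg_left e2 (by positivity)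
    linarith
  have h12 : (∑ ξ ∈ U, |b ξ|) * (2 * (3 * (Q / (2 ^ i * μ)))) ≤
      (8 * q * μ) * (2 * (3 * (Q / (2 ^ i * μ)))) :=
    mul_le_mul_of_nonneg_right (le_trans h8 h11) (by positivity)
  refine le_trans h12 (le_of_eq ?_)
  field_simp
  ring

end Pool.Agent.Helper56.OS
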