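import Pool.Agent.Helper56.OS.StB
import Pool.Agent.Helper56.OS.StA

/-! Project OS, module EXC: exceptional levels. -/

set_option autoImplicit false

open Finset

namespace Pool.Agent.Helper56.OS

private theorem pmS_nonneg_EXC (b : ℕ → ℝ) (S Ω : Finset ℕ) (A' A : ℕ) : 0 ≤ pmS b S Ω A' A := by
  unfold pmS
  apply Finset.sum_nonneg
  intro ξ _
  apply Finset.sum_nonneg
  intro ω _
  split_ifs
  · positivity
  · exact le_rfl

private theorem eO_le_EXC (H : ℕ) (b : ℕ → ℝ) (Ω : Finset ℕ) (al : ℕ → ℕ) (U : ℕ → Finset ℕ)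
    (G : Finset ℕ) (D l j : ℕ) :
    eO H b Ω al U G D l j ≤ pmS b (U l) Ω (2 ^ (al j - 2 * H)) (2 ^ (al (j + 1))) := by
  unfold eO
  split_ifs
  · exact le_rfl
  · exact pmS_nonneg_EXC _ _ _ _ _

private theorem eO_nonneg_EXC (H : ℕ) (b : ℕ → ℝ) (Ω : Finset ℕ) (al : ℕ → ℕ) (U : ℕ → Finset ℕ)
    (G : Finset ℕ) (D l j : ℕ) : 0 ≤ eO H b Ω al U G D l j := by
  unfold eO
  split_ifs
  · exact pmS_nonneg_EXC _ _ _ _ _
  · exact le_rfl

private theorem cut_EXC (x k l : ℕ) (hk : 1 ≤ k) : cut (2 ^ x) k l = cc (2 ^ (x + k - 1)) l := by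
  unfold cut
  rw [if_neg (by omega), ← pow_add]
  congr 2
  omega

theorem p_EXC (hES : St_ES) (hCCS : S_CCS) : St_EXC := by
  classical
  intro K H T b Ω al q μ Q R hF hH hQ hR y0 I x Kc U G0 hT hG0 hU
  -- the exceptional set of scale `k`
  set A : ℕ → ℕ → ℝ := fun k j =>
    ∑ l ∈ G0.filter (fun l => cut (2 ^ x) (k + 1) l ≤ j ∧ j < cut (2 ^ x) k l),
        eO H b Ω al U G0 (2 ^ x) l j with hA
  set X : ℕ → Finset ℕ := fun k => (range T).filter (fun j => R / 2 ^ (x + k - 1) < A k j) with hX
  have hq : 0 ≤ q := by linarith [hF.q1]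
  have hc0 : 0 ≤ 48 * q * Q * T / R := by positivity
  have hcard : ∀ k ∈ Ico 1 Kc, ((X k).card : ℝ) ≤ 48 * q * Q * T / R := by
    intro k hk
    have hk1 : 1 ≤ k := (mem_Ico.1 hk).1
    by_cases hI : x + k - 1 < I
    · -- Markov
      have m1 : ((X k).card : ℝ) * (R / 2 ^ (x + k - 1)) ≤ ∑ j ∈ range T, A k j := by
        calc ((X k).card : ℝ) * (R / 2 ^ (x + k - 1)) = ∑ _j ∈ X k, R / 2 ^ (x + k - 1) := by
              rw [Finset.sum_const, nsmul_eq_mul]
          _ ≤ ∑ j ∈ X k, A k j := by
              apply Finset.sum_le_sum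
              intro j hj
              exact (Finset.mem_filter.1 hj).2.le
          _ ≤ ∑ j ∈ range T, A k j := by
              apply Finset.sum_le_sum_of_subset_of_nonneg (Finset.filter_subset _ _)
              intro j _ _
              apply Finset.sum_nonneg
              intro l _
              exact eO_nonneg_EXC _ _ _ _ _ _ _ _ _
      have m2 : ∑ j ∈ range T, A k j ≤
          ∑ l ∈ G0, ∑ j ∈ range (cc (2 ^ (x + k - 1)) l),
            pmS b (U l) Ω (2 ^ (al j - 2 * H)) (2 ^ (al (j + 1))) := by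
        have e1 : ∑ j ∈ range T, A k j = ∑ l ∈ G0, ∑ j ∈ range T,
            if cut (2 ^ x) (k + 1) l ≤ j ∧ j < cut (2 ^ x) k l then
              eO H b Ω al U G0 (2 ^ x) l j else 0 := by
          rw [Finset.sum_comm]
          apply Finset.sum_congr rfl
          intro j _
          rw [hA]
          simp only
          rw [Finset.sum_filter]
        rw [e1]
        apply Finset.sum_le_sum
        intro l _
        rw [← Finset.sum_filter]
        calc ∑ j ∈ (range T).filter (fun j => cut (2 ^ x) (k + 1) l ≤ j ∧ j < cut (2 ^ x) k l),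
              eO H b Ω al U G0 (2 ^ x) l j
            ≤ ∑ j ∈ range (cc (2 ^ (x + k - 1)) l), eO H b Ω al U G0 (2 ^ x) l j := by
              apply Finset.sum_le_sum_of_subset_of_nonneg
              · intro j hj
                have := (Finset.mem_filter.1 hj).2.2
                rw [cut_EXC x k l hk1] at this
                exact mem_range.2 this
              · intro j _ _
                exact eO_nonneg_EXC _ _ _ _ _ _ _ _ _
          _ ≤ _ := Finset.sum_le_sum fun j _ => eO_le_EXC _ _ _ _ _ _ _ _ _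
      have m3 : ∑ l ∈ G0, ∑ j ∈ range (cc (2 ^ (x + k - 1)) l),
            pmS b (U l) Ω (2 ^ (al j - 2 * H)) (2 ^ (al (j + 1))) ≤
          ∑ _l ∈ G0, 48 * q * Q / 2 ^ (x + k - 1) := by
        apply Finset.sum_le_sum
        intro l hl
        exact hES K H T b Ω al q μ Q hF hH hQ y0 I l x (x + k - 1) (U l) (mem_range.1 (hG0 hl))
          (by omega) hI (hU l hl)
      have m4 : ∑ _l ∈ G0, 48 * q * Q / 2 ^ (x + k - 1) ≤ T * (48 * q * Q / 2 ^ (x + k - 1)) := by
        rw [Finset.sum_const, nsmul_eq_mul]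
        apply mul_le_mul_of_nonneg_right _ (by positivity)
        have := Finset.card_le_card hG0
        rw [card_range] at this
        exact_mod_cast this
      have m5 : ((X k).card : ℝ) * (R / 2 ^ (x + k - 1)) ≤ T * (48 * q * Q / 2 ^ (x + k - 1)) :=
        m1.trans (m2.trans (m3.trans m4))
      have hp : (0 : ℝ) < 2 ^ (x + k - 1) := by positivity
      rw [← mul_div_assoc, ← mul_div_assoc, div_le_div_iff_of_pos_right hp] at m5
      rw [le_div_iff₀ hR]
      linarith
    · -- empty segments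
      have e0 : X k = ∅ := by
        rw [Finset.eq_empty_iff_forall_notMem]
        intro j hj
        have h2 := (Finset.mem_filter.1 hj).2
        have h3 : A k j = 0 := by
          rw [hA]
          simp only
          apply Finset.sum_eq_zero
          intro l hl
          exfalso
          rw [Finset.mem_filter] at hl
          have h4 := mem_range.1 (hG0 hl.1)
          have h5 : 2 ^ I ≤ 2 ^ (x + k - 1) := Nat.pow_le_pow_right (by norm_num) (by omega)
          have h6 := hCCS.2.1 (2 ^ (x + k - 1)) l Nat.one_le_two_pow (by omega)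
          have h7 := hl.2.2
          rw [cut_EXC x k l hk1, h6] at h7
          omega
        rw [h3] at h2
        have : 0 < R / 2 ^ (x + k - 1) := by positivity
        linarith
      rw [e0]
      simpa using hc0
  refine ⟨(Ico 1 Kc).biUnion X, ?_, ?_, ?_⟩
  · intro j hj
    rw [Finset.mem_biUnion] at hj
    obtain ⟨k, _, hk⟩ := hj
    exact Finset.filter_subset _ _ hk
  · have c1 : (((Ico 1 Kc).biUnion X).card : ℝ) ≤ ∑ k ∈ Ico 1 Kc, ((X k).card : ℝ) := by
      exact_mod_cast Finset.card_biUnion_le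
    refine c1.trans ((Finset.sum_le_sum hcard).trans ?_)
    rw [Finset.sum_const, nsmul_eq_mul]
    apply mul_le_mul_of_nonneg_right _ hc0
    rw [Nat.card_Ico]
    exact_mod_cast Nat.sub_le _ _
  · intro j hj hn k hk1 hk2
    by_contra hcon
    apply hn
    rw [Finset.mem_biUnion]
    exact ⟨k, mem_Ico.2 ⟨hk1, hk2⟩, Finset.mem_filter.2 ⟨hj, not_le.1 hcon⟩⟩

end Pool.Agent.Helper56.OS
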