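import Pool.Agent.Helper56.OS.StD

/-! # Project OS, module FAM: the theorem on one family -/

set_option autoImplicit false

open Finset

namespace Pool.Agent.Helper56.OS

open Pool.Agent.Helper57.SN (Spn)

private theorem enum_FAM (F : Finset ℕ) : ∃ (al idx : ℕ → ℕ), (∀ l < F.card, al l ∈ F) ∧
    (∀ i j, i < j → j < F.card → al i < al j) ∧ (∀ a ∈ F, idx a < F.card ∧ al (idx a) = a) := by
  classical
  set al : ℕ → ℕ := fun l => if h : l < F.card then F.orderEmbOfFin rfl ⟨l, h⟩ else 0 with hal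
  have hal' : ∀ l (h : l < F.card), al l = F.orderEmbOfFin rfl ⟨l, h⟩ := by
    intro l h
    rw [hal]
    dsimp only
    rw [dif_pos h]
  have hsur : ∀ a : ℕ, ∃ l, a ∈ F → l < F.card ∧ al l = a := by
    intro a
    by_cases ha : a ∈ F
    · have h1 : a ∈ Set.range (F.orderEmbOfFin rfl) := by
        rw [range_orderEmbOfFin]
        exact ha
      obtain ⟨i, hi⟩ := h1
      exact ⟨i.1, fun _ => ⟨i.2, by rw [hal' i.1 i.2]; exact hi⟩⟩
    · exact ⟨0, fun h => absurd h ha⟩
  choose idx hidx using hsur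
  refine ⟨al, idx, ?_, ?_, hidx⟩
  · intro l hl
    rw [hal' l hl]
    exact orderEmbOfFin_mem F rfl _
  · intro i j hij hj
    rw [hal' i (hij.trans hj), hal' j hj]
    exact (F.orderEmbOfFin rfl).strictMono (Fin.mk_lt_mk.2 hij)

theorem p_FAM (hFM1 : St_FM1) (hFML : St_FML) (hFM2 : St_FM2) (hFM3 : St_FM3) (hFAR : St_FAR) :
    St_FAM := by
  classical
  intro K H N b Ω F q μ Ms s0 hG hcN hN1 hH hNH hq1 hqH hms hMsN hMs0 hFne hFN hsep hF hμ hs0 hs0N
    hkeep
  obtain ⟨al, idx, hal, hmono, hidx⟩ := enum_FAM F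
  set T : ℕ := F.card with hT
  have hT0 : 0 < T := card_pos.2 hFne
  have hH1 : 1 ≤ H := by
    have : (1 : ℝ) ≤ H := le_trans (by norm_num) hH
    exact_mod_cast this
  have hfs : FamS K H T b Ω al q μ :=
    { sep := fun i j hij hj => hsep _ (hal i (hij.trans hj)) _ (hal j hj) (hmono i j hij hj)
      lo := fun i hi => (hF _ (hal i hi)).1
      hiK := fun i hi => (hF _ (hal i hi)).2.1
      mu0 := hμ
      Plo := fun i hi => (hF _ (hal i hi)).2.2.1
      Phi := fun i hi => (hF _ (hal i hi)).2.2.2.1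
      good := fun i hi => (hF _ (hal i hi)).2.2.2.2
      q1 := hq1 }
  -- the number of scales
  set I : ℕ := Nat.log 2 (2 * N) + 1 with hI
  have hTI : T ≤ 2 ^ I := by
    have h1 : 2 * N < 2 ^ (Nat.log 2 (2 * N)).succ := Nat.lt_pow_succ_log_self (by norm_num) _
    rw [hI]
    exact hFN.trans h1.le
  have hIH : I ≤ H := by
    have h1 : 2 ^ Nat.log 2 (2 * N) ≤ 2 * N := Nat.pow_log_le_self 2 (by omega)
    have h2 : (2 ^ Nat.log 2 (2 * N)) ^ 50 ≤ (2 * N) ^ 50 := Nat.pow_le_pow_left h1 50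
    have h3 : N ^ 50 ≤ 2 ^ H := by exact_mod_cast hNH
    have h4 : 2 ^ (Nat.log 2 (2 * N) * 50) ≤ 2 ^ (50 + H) := by
      rw [pow_mul, pow_add]
      refine h2.trans ?_
      rw [mul_pow]
      exact Nat.mul_le_mul_left _ h3
    have h5 := (Nat.pow_le_pow_iff_right (by norm_num : 1 < 2)).1 h4
    have h6 : 20 ≤ H := by
      have : (20 : ℝ) ≤ H := le_trans (by norm_num) hH
      exact_mod_cast this
    omega
  obtain ⟨y0, hy0⟩ := hFML K H T I b Ω al q μ hG hfs hH hqH (by exact_mod_cast hIH)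
  set Lo : Finset ℕ := (range T).filter (fun l => Ph b Ω (al l) / 100 <
    cst b Ω al ((H : ℝ) ^ 6) μ y0 I l) with hLo
  refine ⟨fun a i0 => NS b Ω al ((H : ℝ) ^ 6) μ y0 I (idx a) i0, Lo.image al, ?_, ?_, ?_, ?_, ?_⟩
  · intro a ha
    obtain ⟨l, hl, rfl⟩ := mem_image.1 ha
    exact hal l (mem_range.1 (mem_filter.1 hl).1)
  · refine le_trans ?_ hy0
    exact_mod_cast card_image_le
  · intro a ha i0 i1 h01
    obtain ⟨h1, h2⟩ := hidx a ha
    refine ⟨?_, ?_, ?_⟩
    · intro ω hω
      unfold NS at hω ⊢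
      obtain ⟨h3, i, h4, h5⟩ := mem_filter.1 hω
      exact mem_filter.2 ⟨h3, i, h01.trans h4, h5⟩
    · intro ω hω
      unfold NS at hω
      exact (mem_filter.1 hω).1
    · have h3 := (hFAR K H T b Ω al q μ ((H : ℝ) ^ 6) hfs hH1 y0 I (idx a) i0 h1).1
      rw [h2] at h3
      exact h3
  · intro a ha haL i0 abot hab hcard C o ho hC1 hC2
    obtain ⟨h1, h2⟩ := hidx a ha
    have h3 : cst b Ω al ((H : ℝ) ^ 6) μ y0 I (idx a) ≤ Ph b Ω (al (idx a)) / 100 := by
      by_contra hcon
      exact haL (mem_image.2 ⟨idx a, mem_filter.2 ⟨mem_range.2 h1, not_le.1 hcon⟩, h2⟩)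
    have h4 : ((range (idx a)).filter (fun l' => abot ≤ al l')).card ≤
        (F.filter (fun a' => abot ≤ a' ∧ a' < a)).card := by
      refine card_le_card_of_injOn al ?_ ?_
      · intro l hl
        have hl' := mem_filter.1 (mem_coe.1 hl)
        have hl1 := mem_range.1 hl'.1
        refine mem_coe.2 (mem_filter.2 ⟨hal l (hl1.trans h1), hl'.2, ?_⟩)
        have := hmono l (idx a) hl1 h1
        rwa [h2] at this
      · intro l hl l' hl' hll
        have e1 := mem_range.1 (mem_filter.1 (mem_coe.1 hl)).1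
        have e2 := mem_range.1 (mem_filter.1 (mem_coe.1 hl')).1
        rcases lt_trichotomy l l' with h | h | h
        · have := hmono l l' h (e2.trans h1)
          omega
        · exact h
        · have := hmono l' l h (e1.trans h1)
          omega
    have h5 := hFM1 K H T b Ω al q μ ((H : ℝ) ^ 6) hfs hH1 y0 I (idx a) i0 abot h1 h3
      (by rw [h2]; exact hab) (by omega) C o ho hC1 hC2
    rw [h2] at h5
    exact h5
  · intro x hx1 hx2
    have hnt : NT H x T I N q Ms :=
      { Hbig := hH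
        Dbig := hx1
        DH := hx2
        NH := hNH
        N1 := hN1
        q1 := hq1
        qH := hqH
        TN := hFN
        KcH := hIH
        Kc1 := by omega
        TKc := hTI.trans (Nat.pow_le_pow_right (by norm_num) (by omega))
        MsN := hMsN
        Ms0 := hMs0 }
    have hfh : FH K H T x I N I b Ω al q μ Ms s0 :=
      { gs := hG
        fs := hfs
        mass := hms
        nt := hnt
        cN := hcN
        TI := hTI
        s0pos := hs0
        s0N := hs0N
        keep := hkeep }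
    refine ⟨hFM2 K H T x I N I b Ω al q μ Ms s0 y0 hfh hT0 hy0, ?_⟩
    obtain ⟨Un, hUn1, hUn2, hUn3⟩ := hFM3 K H T x I N I b Ω al q μ Ms s0 y0 hfh
    refine ⟨Un.image al, ?_, ?_, ?_⟩
    · intro a ha
      obtain ⟨l, hl, rfl⟩ := mem_image.1 ha
      exact hal l (mem_range.1 (hUn1 hl))
    · refine le_trans ?_ hUn2
      exact_mod_cast card_image_le
    · intro a ha haU
      obtain ⟨h1, h2⟩ := hidx a ha
      have h3 : idx a ∉ Un := fun h => haU (mem_image.2 ⟨idx a, h, h2⟩)
      have h4 := hUn3 (idx a) h1 h3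
      rw [h2] at h4
      exact h4

end Pool.Agent.Helper56.OS
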