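import Pool.Agent.Helper56.OS.StB
import Pool.Agent.Helper56.OS.StA

/-! # Project OS (MP_9a0a6c_an): module FAR

The sum over the frequencies in large intervals is small. -/

set_option autoImplicit false

open Finset

namespace Pool.Agent.Helper56.OS

private lemma lb_dist_FAR {e y0 a b : ℕ} (h : lb e y0 a = lb e y0 b) : a < b + 2 ^ e := by
  unfold lb at h
  have hp : 0 < 2 ^ e := by positivity
  have h1 : a + y0 < ((a + y0) / 2 ^ e + 1) * 2 ^ e := Nat.lt_mul_of_div_lt (Nat.lt_succ_self _) hp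
  have h2 : (b + y0) / 2 ^ e * 2 ^ e ≤ b + y0 := Nat.div_mul_le_self _ _
  rw [h, add_mul, one_mul] at h1
  omega

private lemma lb_mono_FAR {e e' y0 a b : ℕ} (he : e ≤ e') (h : lb e y0 a = lb e y0 b) :
    lb e' y0 a = lb e' y0 b := by
  obtain ⟨k, rfl⟩ := Nat.exists_eq_add_of_le he
  unfold lb at h ⊢
  rw [pow_add, ← Nat.div_div_eq_div_mul, ← Nat.div_div_eq_div_mul, h]

private lemma find_FAR (P : ℕ → Prop) (I : ℕ) (hI : ¬ P I) (hP : ∀ j j', j ≤ j' → P j' → P j) :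
    ∃ p, ∀ j, j < p ↔ P j := by
  classical
  have hex : ∃ j, ¬ P j := ⟨I, hI⟩
  refine ⟨Nat.find hex, fun j => ⟨fun hj => not_not.1 (Nat.find_min hex hj), fun hj => ?_⟩⟩
  by_contra hlt
  exact Nat.find_spec hex (hP _ j (not_lt.1 hlt) hj)

theorem p_FAR (hMAXI : St_MAXI) (hCCS : S_CCS) : St_FAR := by
  classical
  obtain ⟨hc1, -, -, -, hc5, -, -⟩ := hCCS
  intro K H T b Ω al q μ Q hF hH y0 I l i0 hl
  have part1 : ∀ ω ∈ NS b Ω al Q μ y0 I l i0, 2 ^ (al l) ≤ 4 * ω ∧ ω ≤ 2 ^ (al l + 2) := by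
    intro ω hω
    unfold NS at hω
    rw [mem_filter] at hω
    obtain ⟨-, i, -, -, hil, hmem⟩ := hω
    unfold Lb at hmem
    rw [mem_filter, mem_image] at hmem
    obtain ⟨⟨ω0, hω0, hlb⟩, -⟩ := hmem
    unfold Oct at hω0
    rw [mem_filter] at hω0
    obtain ⟨-, ho1, ho2⟩ := hω0
    have hp : 1 ≤ 2 ^ i := Nat.one_le_two_pow
    have hcl := (hc1 (2 ^ i) l hp (by omega)).1
    have hsep := hF.sep (cc (2 ^ i) l) l (by omega) hl
    have hpow : 2 ^ (al (cc (2 ^ i) l)) * 16 ≤ 2 ^ (al l) := by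
      calc 2 ^ (al (cc (2 ^ i) l)) * 16 = 2 ^ (al (cc (2 ^ i) l) + 4) := by
            rw [pow_add]
            norm_num
        _ ≤ 2 ^ (al l) := Nat.pow_le_pow_right (by norm_num) (by omega)
    have hd1 := lb_dist_FAR hlb
    have hd2 := lb_dist_FAR hlb.symm
    have e1 : 2 ^ (al l + 1) = 2 * 2 ^ (al l) := by rw [pow_succ]; ring
    have e2 : 2 ^ (al l + 2) = 4 * 2 ^ (al l) := by rw [pow_add]; ring
    rw [e1] at ho2
    rw [e2]
    constructor <;> omega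
  refine ⟨part1, ?_⟩
  intro C o ho hC1 hC2
  -- the number of scales
  obtain ⟨p, hp⟩ : ∃ p, ∀ j, j < p ↔ (i0 + j < I ∧ 2 * 2 ^ (i0 + j) ≤ l) := by
    apply find_FAR _ I (fun h => by omega)
    intro j j' hjj h
    refine ⟨by omega, ?_⟩
    have hle : 2 ^ (i0 + j) ≤ 2 ^ (i0 + j') := Nat.pow_le_pow_right (by norm_num) (by omega)
    have := h.2
    omega
  set lam : ℕ → ℕ → ℕ := fun j ω => lb (al (cc (2 ^ (i0 + j)) l)) y0 ω with hlam
  set L : ℕ → Finset ℕ := fun j => Lb b Ω al Q μ y0 (i0 + j) l with hL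
  have hNS : NS b Ω al Q μ y0 I l i0 = Ω.filter (fun ω => ∃ j < p, lam j ω ∈ L j) := by
    unfold NS
    apply filter_congr
    intro ω _
    constructor
    · rintro ⟨i, h1, h2, h3, h4⟩
      obtain ⟨j, rfl⟩ := Nat.exists_eq_add_of_le h1
      exact ⟨j, (hp j).2 ⟨h2, h3⟩, h4⟩
    · rintro ⟨j, h1, h2⟩
      exact ⟨i0 + j, by omega, ((hp j).1 h1).1, ((hp j).1 h1).2, h2⟩
  have hmono : ∀ j, j + 1 < p → ∀ ω ω', lam (j + 1) ω = lam (j + 1) ω' → lam j ω = lam j ω' := by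
    intro j hj ω ω' h
    apply lb_mono_FAR _ h
    have hpj := (hp (j + 1)).1 hj
    have hone : 1 ≤ 2 ^ (i0 + j) := Nat.one_le_two_pow
    have h5 := hc5 (2 ^ (i0 + j)) l hone
    have e1 : 2 * 2 ^ (i0 + j) = 2 ^ (i0 + (j + 1)) := by
      rw [← add_assoc, pow_succ]
      ring
    rw [e1] at h5
    have hcl : cc (2 ^ (i0 + j)) l < T := lt_of_le_of_lt h5.2.1 hl
    rcases h5.1.lt_or_eq with hlt | heq
    · have := hF.sep _ _ hlt hcl
      omega
    · rw [heq]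
  have hCo : ∀ ω ∈ Ω, ∀ ω' ∈ Ω, lam 0 ω = lam 0 ω' → |C ω - C ω'| ≤ o := by
    intro ω hω ω' hω' h
    apply hC2 ω hω ω' hω'
    have h1 := lb_dist_FAR h
    have h2 := lb_dist_FAR h.symm
    simp only [add_zero] at h1 h2
    rw [abs_lt]
    have e1 : (((2 ^ (al (cc (2 ^ i0) l)) : ℕ) : ℤ)) = 2 ^ (al (cc (2 ^ i0) l)) := by push_cast; rfl
    rw [← e1]
    constructor <;> omega
  have hC1' : ∀ ω ∈ Ω, |C ω| ≤ (1 : ℝ) := hC1
  have key := hMAXI Ω p lam L b C 1 o ho zero_le_one hmono hC1' hCo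
  rw [hNS]
  have hkey2 : |∑ ω ∈ Ω.filter (fun ω => ∃ j < p, lam j ω ∈ L j), b ω * C ω| ≤
      1 * (∑ j ∈ range p, ∑ t ∈ L j, |∑ ω ∈ Ω with lam j ω = t, b ω|) +
      o * ∑ ω ∈ Ω.filter (fun ω => ∃ j < p, lam j ω ∈ L j), |b ω| := by
    convert key using 1
  refine hkey2.trans ?_
  apply add_le_add
  · rw [one_mul]
    have e1 : ∀ j ∈ range p, ∑ t ∈ L j, |∑ ω ∈ Ω with lam j ω = t, b ω| =
        cs b Ω al Q μ y0 (i0 + j) l := by
      intro j _
      rfl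
    rw [sum_congr rfl e1]
    unfold cst
    have e2 : ∑ j ∈ range p, cs b Ω al Q μ y0 (i0 + j) l =
        ∑ i ∈ (range p).image (fun j => i0 + j), cs b Ω al Q μ y0 i l := by
      rw [sum_image]
      intro x _ y _ hxy
      exact Nat.add_left_cancel hxy
    rw [e2]
    apply sum_le_sum_of_subset_of_nonneg
    · intro i hi
      rw [mem_image] at hi
      obtain ⟨j, hj, rfl⟩ := hi
      have := (hp j).1 (mem_range.1 hj)
      rw [mem_filter, mem_range]
      exact this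
    · intro i _ _
      exact sum_nonneg fun t _ => abs_nonneg _
  · apply mul_le_mul_of_nonneg_left _ ho
    unfold Bm
    apply sum_le_sum_of_subset_of_nonneg
    · intro ω hω
      have h1 : ω ∈ NS b Ω al Q μ y0 I l i0 := by rw [hNS]; exact hω
      rw [mem_filter]
      exact ⟨(mem_filter.1 hω).1, part1 ω h1⟩
    · intro i _ _
      exact abs_nonneg _

end Pool.Agent.Helper56.OS
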