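import Pool.Agent.Helper56.OS.StC

/-! # Project OS, module FEJ: the Fejer kernel -/

set_option autoImplicit false

open Finset

namespace Pool.Agent.Helper56.OS

open Pool.Agent.Helper57.SN (co si av)

private noncomputable def H_FEJ (F : ℤ → ℝ) (n : ℕ) : ℝ :=
  F 0 + ∑ i ∈ range n, (F ((i : ℤ) + 1) + F (-((i : ℤ) + 1)))

private theorem Ioo_FEJ (F : ℤ → ℝ) (n : ℕ) :
    ∑ g ∈ Ioo (-((n : ℤ) + 1)) ((n : ℤ) + 1), F g = H_FEJ F n := by
  induction n with
  | zero =>
    have h1 : Ioo (-(((0 : ℕ) : ℤ) + 1)) (((0 : ℕ) : ℤ) + 1) = {0} := by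
      ext g
      simp only [mem_Ioo, mem_singleton]
      push_cast
      omega
    rw [h1]
    simp [H_FEJ]
  | succ n ih =>
    have h1 : Ioo (-(((n + 1 : ℕ) : ℤ) + 1)) (((n + 1 : ℕ) : ℤ) + 1) =
        insert ((n : ℤ) + 1) (insert (-((n : ℤ) + 1)) (Ioo (-((n : ℤ) + 1)) ((n : ℤ) + 1))) := by
      ext g
      simp only [mem_Ioo, mem_insert]
      push_cast
      omega
    rw [h1, sum_insert, sum_insert, ih]
    · unfold H_FEJ
      rw [sum_range_succ]
      ring
    · simp only [mem_Ioo]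
      omega
    · simp only [mem_Ioo, mem_insert]
      omega

private theorem H_eq_FEJ (F : ℤ → ℝ) (n : ℕ) :
    ∑ j ∈ range n, F ((j : ℤ) - n) + (∑ k ∈ range n, F ((n : ℤ) - k) + F 0) = H_FEJ F n := by
  have h1 : ∑ j ∈ range n, F ((j : ℤ) - n) = ∑ i ∈ range n, F (-((i : ℤ) + 1)) := by
    rw [← sum_range_reflect (fun i : ℕ => F (-((i : ℤ) + 1)))]
    refine sum_congr rfl fun j hj => ?_
    rw [mem_range] at hj
    congr 1
    omega
  have h2 : ∑ k ∈ range n, F ((n : ℤ) - k) = ∑ i ∈ range n, F ((i : ℤ) + 1) := by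
    rw [← sum_range_reflect (fun i : ℕ => F ((i : ℤ) + 1))]
    refine sum_congr rfl fun j hj => ?_
    rw [mem_range] at hj
    congr 1
    omega
  rw [h1, h2]
  unfold H_FEJ
  rw [sum_add_distrib]
  ring

private theorem dbl_FEJ (F : ℤ → ℝ) (n : ℕ) :
    ∑ j ∈ range n, ∑ k ∈ range n, F ((j : ℤ) - k) =
      ∑ g ∈ Ioo (-(n : ℤ)) n, ((n : ℝ) - |(g : ℝ)|) * F g := by
  induction n with
  | zero => simp
  | succ n ih =>
    have h1 : ∑ j ∈ range (n + 1), ∑ k ∈ range (n + 1), F ((j : ℤ) - k) =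
        ∑ j ∈ range n, ∑ k ∈ range n, F ((j : ℤ) - k) + H_FEJ F n := by
      rw [sum_range_succ]
      have e1 : ∑ j ∈ range n, ∑ k ∈ range (n + 1), F ((j : ℤ) - k) =
          ∑ j ∈ range n, ∑ k ∈ range n, F ((j : ℤ) - k) + ∑ j ∈ range n, F ((j : ℤ) - n) := by
        rw [← sum_add_distrib]
        exact sum_congr rfl fun j _ => sum_range_succ _ _
      have e2 : ∑ k ∈ range (n + 1), F ((n : ℤ) - k) = ∑ k ∈ range n, F ((n : ℤ) - k) + F 0 := by
        rw [sum_range_succ, sub_self]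
      rw [e1, e2, add_assoc, H_eq_FEJ]
    have h2 : ∑ g ∈ Ioo (-((n + 1 : ℕ) : ℤ)) ((n + 1 : ℕ) : ℤ),
        (((n + 1 : ℕ) : ℝ) - |(g : ℝ)|) * F g =
        ∑ g ∈ Ioo (-((n : ℤ) + 1)) ((n : ℤ) + 1), ((n : ℝ) - |(g : ℝ)|) * F g +
          ∑ g ∈ Ioo (-((n : ℤ) + 1)) ((n : ℤ) + 1), F g := by
      push_cast
      rw [← sum_add_distrib]
      refine sum_congr rfl fun g _ => ?_
      ring
    have h3 : ∑ g ∈ Ioo (-((n : ℤ) + 1)) ((n : ℤ) + 1), ((n : ℝ) - |(g : ℝ)|) * F g =
        ∑ g ∈ Ioo (-(n : ℤ)) n, ((n : ℝ) - |(g : ℝ)|) * F g := by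
      symm
      refine sum_subset ?_ ?_
      · intro g hg
        rw [mem_Ioo] at hg ⊢
        omega
      · intro g hg hg2
        rw [mem_Ioo] at hg hg2
        have h4 : |g| = n := by
          rcases abs_cases g with h | h
          · omega
          · omega
        have h5 : |(g : ℝ)| = n := by
          have : ((|g| : ℤ) : ℝ) = n := by rw [h4]; simp
          rw [← this]
          push_cast
          rfl
        rw [h5]
        ring
    rw [h1, ih, h2, h3, Ioo_FEJ]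

private theorem tri_FEJ {n : ℕ} (hn : 1 ≤ n) {g : ℤ} (hg : g ∈ Ioo (-(n : ℤ)) n) :
    tri (g / n) = ((n : ℝ) - |(g : ℝ)|) / n := by
  have hn0 : (0 : ℝ) < n := by exact_mod_cast hn
  rw [mem_Ioo] at hg
  have h1 : |g| ≤ (n : ℤ) := by
    rw [abs_le]
    omega
  have h2 : |(g : ℝ)| ≤ n := by exact_mod_cast h1
  unfold tri
  rw [abs_div, abs_of_pos hn0, max_eq_left]
  · field_simp
  · rw [sub_nonneg, div_le_one hn0]
    exact h2

private theorem sum_cos_FEJ (K : ℕ) (g : ℤ) (hg : ¬ ((2 ^ K : ℕ) : ℤ) ∣ g) :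
    ∑ x ∈ range (2 ^ K), co K g ((x : ℕ) : ℤ) = 0 := by
  have hN : (0 : ℝ) < 2 ^ K := by positivity
  set z : ℂ := Complex.exp (((2 * Real.pi * g / 2 ^ K : ℝ) : ℂ) * Complex.I) with hz
  have hpow : ∀ x : ℕ, z ^ x = Complex.exp (((2 * Real.pi * g * x / 2 ^ K : ℝ) : ℂ) * Complex.I) := by
    intro x
    rw [hz, ← Complex.exp_nat_mul]
    congr 1
    push_cast
    ring
  have hz1 : z ^ (2 ^ K) = 1 := by
    rw [hpow, Complex.exp_eq_one_iff]
    refine ⟨g, ?_⟩
    push_cast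
    field_simp
  have hzne : z ≠ 1 := by
    intro h
    rw [hz, Complex.exp_eq_one_iff] at h
    obtain ⟨m, hm⟩ := h
    apply hg
    refine ⟨m, ?_⟩
    have h1 := congrArg Complex.im hm
    simp only [Complex.mul_im, Complex.ofReal_re, Complex.I_im, Complex.ofReal_im, Complex.I_re,
      Complex.mul_re, Complex.intCast_re, Complex.intCast_im, Complex.re_ofNat, Complex.im_ofNat,
      mul_one, mul_zero, add_zero, zero_mul, sub_zero, zero_add, sub_self] at h1
    have h2 : (g : ℝ) = 2 ^ K * m := by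
      have hpi := Real.pi_pos
      field_simp at h1
      nlinarith
    exact_mod_cast h2
  have hsum : ∑ x ∈ range (2 ^ K), z ^ x = 0 := by
    rw [geom_sum_eq hzne, hz1]
    simp
  have h3 : ∀ x : ℕ, co K g ((x : ℕ) : ℤ) = (z ^ x).re := by
    intro x
    rw [hpow, Complex.exp_ofReal_mul_I_re]
    unfold co
    push_cast
    rfl
  rw [sum_congr rfl fun x _ => h3 x, ← Complex.re_sum, hsum]
  simp

theorem p_FEJ : St_FEJ := by
  intro K n hn
  have hn0 : (0 : ℝ) < n := by exact_mod_cast hn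
  constructor
  · intro x
    have h1 : ∑ g ∈ Ioo (-(n : ℤ)) n, tri (g / n) * co K g x =
        (∑ g ∈ Ioo (-(n : ℤ)) n, ((n : ℝ) - |(g : ℝ)|) * co K g x) / n := by
      rw [sum_div]
      refine sum_congr rfl fun g hg => ?_
      rw [tri_FEJ hn hg]
      ring
    have h2 := dbl_FEJ (fun g => co K g x) n
    have h3 : ∑ j ∈ range n, ∑ k ∈ range n, co K ((j : ℤ) - k) x =
        (∑ j ∈ range n, Real.cos (j * (2 * Real.pi * x / 2 ^ K))) ^ 2 +
        (∑ j ∈ range n, Real.sin (j * (2 * Real.pi * x / 2 ^ K))) ^ 2 := by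
      rw [sq, sq, sum_mul_sum, sum_mul_sum, ← sum_add_distrib]
      refine sum_congr rfl fun j _ => ?_
      rw [← sum_add_distrib]
      refine sum_congr rfl fun k _ => ?_
      rw [← Real.cos_sub]
      unfold co
      congr 1
      push_cast
      ring
    rw [h1, ← h2, h3]
    positivity
  · intro hnK
    unfold av
    rw [sum_comm]
    have hN : ((2 : ℝ) ^ K) ≠ 0 := by positivity
    rw [sum_eq_single (0 : ℤ)]
    · have h1 : ∀ x : ℕ, co K 0 ((x : ℕ) : ℤ) = 1 := by
        intro x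
        unfold co
        simp
      have h2 : tri (((0 : ℤ) : ℝ) / n) = 1 := by
        unfold tri
        simp
      rw [sum_congr rfl fun (x : ℕ) _ => by rw [h1 x, h2, mul_one]]
      simp
    · intro g hg hg0
      rw [mem_Ioo] at hg
      rw [← mul_sum, sum_cos_FEJ K g ?_, mul_zero]
      intro hd
      have h1 : ((2 ^ K : ℕ) : ℤ) ≤ |g| := by
        have h2 := Int.le_of_dvd (abs_pos.2 hg0) ((dvd_abs _ _).2 hd)
        exact h2
      have h3 : |g| < (n : ℤ) := by
        rw [abs_lt]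
        exact hg
      have h4 : (n : ℤ) ≤ ((2 ^ K : ℕ) : ℤ) := by exact_mod_cast hnK
      omega
    · intro h
      exfalso
      apply h
      rw [mem_Ioo]
      constructor
      · have : (0 : ℤ) < n := by exact_mod_cast hn
        omega
      · exact_mod_cast hn

end Pool.Agent.Helper56.OS
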