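import Pool.Agent.Helper56.OS.StA

/-! Project OS, module FIN2: the abstract theorem. -/

set_option autoImplicit false

open Finset

namespace Pool.Agent.Helper56.OS

open Pool.Agent.Helper56.SS (Fil Dat Hyp E S_NEG S_NEAR S_TEL S_BIG E_nonneg)

theorem p_FIN2 (hNEG : S_NEG) (hNEAR : S_NEAR) (hTEL : S_TEL) (hBIG : S_BIG) (hPOS : S_POS)
    (hTWO : S_TWO) (hTEL2 : S_TEL2) (hSTP2 : S_STP2) (hCCS : S_CCS) (hCHN : S_CHN) (hSUME : S_SUME)
    (hSTP : S_STP) (hQV : S_QV) (hMOM : S_MOM2) (hHOL : S_HOL2) (hDLT : S_DLT) (hENT : S_ENT)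
    (hORTH : S_ORTH) (hHYB : S_HYB) (hFU : S_FU) (hSTL : S_STL) (hGN : S_GN2) (hLOS : S_LOS) :
    S_FIN2 := by
  classical
  intro Ω _ _ d hd D K t e tau M hc h s ε om δ z Er Vu hh hs hslk hε hε4 hKε hom hB0 hexp hδ hδ4 hδl
    hz hEr hVu
  obtain ⟨hHyp, hqv, -, -⟩ := hSTP Ω d h hd hh.le
  obtain ⟨-, hgn, hV⟩ := hQV Ω (stp d h) (h + d.kap ^ 2) hHyp hqv
  have hCH := fun (l : ℕ) (hl : l ∈ d.G) => hCHN hNEG hNEAR hTEL hBIG hPOS hTWO hTEL2 hSTP2 hCCS Ω
    (stp d h) hHyp D K t e tau s ε om l hl hc.D1 hc.Kpos (hc.top l hl) hc.t0 hc.tpos hc.e_nonneg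
    hc.tau_nonneg hs hslk hε hε4 hKε hexp
  have hSU : ∑ l ∈ d.G, ebig (stp d h) D K t e tau om l ≤ Er :=
    (hSUME Ω (stp d h) hHyp D K t e tau om (h + d.kap ^ 2) M hc.tpos hc.e_nonneg hc.tau_nonneg hom
      hc.M_nonneg hc.Mb hgn).trans hEr
  -- (1)
  have h1 : ∀ k ≤ K, ∑ l ∈ d.G, E (fun w => (stp d h).R (cut D k l) w *
      d.F.C (cut D k l) (fun v => d.D l v ^ 2) w) ≤ Vu := by
    intro k hk
    have ha : ∀ l ∈ d.G, E (fun w => (stp d h).R (cut D k l) w *
        d.F.C (cut D k l) (fun v => d.D l v ^ 2) w) ≤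
        2 * (E (fun w => d.D l w ^ 2) + ebig (stp d h) D K t e tau om l + 4 * K * (om * d.B0 ^ 2)) := by
      intro l hl
      refine (hCH l hl (fun v => d.D l v ^ 2) (d.B0 ^ 2) ?_ ?_).2 (fun w => sq_nonneg _) k hk
      · intro w
        show |d.D l w ^ 2| ≤ d.B0 ^ 2
        rw [abs_pow]
        exact pow_le_pow_left₀ (abs_nonneg _) (hd.D_le l w) 2
      · intro j hj hjc w
        exact (hc.del l hl j hj hjc w).1
    refine (sum_le_sum ha).trans (le_trans ?_ hVu)
    rw [← mul_sum, sum_add_distrib, sum_add_distrib, sum_const, nsmul_eq_mul]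
    linarith
  -- (2)
  set V : ℝ := d.lam ^ 2 * (h + d.kap ^ 2) with hVdef
  have h2 : ∀ k < K, ∑ l ∈ d.G, E (fun w => (stp d h).R (cut D k l) w *
      |d.F.C (cut D k l) (fun v => d.f v * d.D l v) w|) ≤
      Real.sqrt (20 + 124 * V) * Real.sqrt Vu := by
    intro k hk
    have ha := (hFU Ω d.F d.f d.D d.G (fun l _ => hd.D_meas l) (fun l _ w => hd.D_zero l w)).2
      (fun l => cut D k l) (fun l w => (stp d h).R (cut D k l) w)
      (fun l _ => (hCCS.2.2.2.2.2.1 D k l hc.D1).2.1) (fun l w => (hHyp.R_pos _ w).le)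
    refine ha.trans ?_
    have hN : d.G ⊆ range (d.G.sup id + 1) := by
      intro l hl
      rw [mem_range]
      exact Nat.lt_succ_of_le (le_sup (f := id) hl)
    have hnn : ∀ l, 0 ≤ E (fun w => (stp d h).R (cut D k l) w *
        d.F.C (cut D k l) (fun v => dM d.F d.f l v ^ 2) w) := by
      intro l
      apply E_nonneg
      intro w
      exact mul_nonneg (hHyp.R_pos _ w).le (d.F.C_nonneg (fun _ => sq_nonneg _) w)
    have hb : ∑ l ∈ d.G, E (fun w => (stp d h).R (cut D k l) w *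
        d.F.C (cut D k l) (fun v => dM d.F d.f l v ^ 2) w) ≤ 20 + 124 * V := by
      refine (sum_le_sum_of_subset_of_nonneg hN (fun l _ _ => hnn l)).trans ?_
      have hVnn : 0 ≤ V := by
        rw [hVdef]
        have := hd.kap_pos
        positivity
      by_cases hk0 : k = 0
      · subst hk0
        have := hDLT Ω (stp d h) V hHyp hV d.f hd.f_le (d.G.sup id + 1)
        have hcut : ∀ l, cut D 0 l = l := fun l => by simp [cut]
        simp only [hcut]
        refine this.trans ?_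
        linarith
      · have := hHYB hDLT hENT hORTH hCCS Ω (stp d h) V hHyp hV d.f hd.f_le (D * 2 ^ (k - 1))
          (d.G.sup id + 1) (Nat.mul_pos hc.D1 (by positivity))
        have hcut : ∀ l, cut D k l = cc (D * 2 ^ (k - 1)) l := fun l => by simp [cut, hk0]
        simp only [hcut]
        exact this
    exact mul_le_mul (Real.sqrt_le_sqrt hb) (Real.sqrt_le_sqrt (h1 k hk.le)) (Real.sqrt_nonneg _)
      (Real.sqrt_nonneg _)
  have h3 : ∑ l ∈ d.G, E (fun w => d.f w * d.D l w) ≤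
      ∑ l ∈ d.G, E (fun w => (stp d h).R l w * d.F.C l (fun v => d.f v * d.D l v) w) + Er +
      d.G.card * (4 * K * (om * d.B0)) + 2 * ε * K * (Real.sqrt (20 + 124 * V) * Real.sqrt Vu) := by
    have ha : ∀ l ∈ d.G, E (fun w => d.f w * d.D l w) ≤
        E (fun w => (stp d h).R l w * d.F.C l (fun v => d.f v * d.D l v) w) +
        ebig (stp d h) D K t e tau om l + 4 * K * (om * d.B0) + 2 * ε * (∑ k ∈ range K,
          E (fun w => (stp d h).R (cut D k l) w *
            |d.F.C (cut D k l) (fun v => d.f v * d.D l v) w|)) := by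
      intro l hl
      have hb := (hCH l hl (fun v => d.f v * d.D l v) d.B0 ?_ ?_).1
      · have hb' : E (fun w => d.f w * d.D l w) - ebig (stp d h) D K t e tau om l
            - 4 * K * (om * d.B0) - 2 * ε * (∑ k ∈ range K,
          E (fun w => (stp d h).R (cut D k l) w *
            |d.F.C (cut D k l) (fun v => d.f v * d.D l v) w|)) ≤
            E (fun w => (stp d h).R l w * d.F.C l (fun v => d.f v * d.D l v) w) := hb
        linarith
      · intro w
        show |d.f w * d.D l w| ≤ d.B0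
        rw [abs_mul]
        calc |d.f w| * |d.D l w| ≤ 1 * d.B0 :=
              mul_le_mul (hd.f_le w) (hd.D_le l w) (abs_nonneg _) (by norm_num)
          _ = d.B0 := one_mul _
      · intro j hj hjc w
        exact (hc.del l hl j hj hjc w).2
    refine (sum_le_sum ha).trans ?_
    rw [sum_add_distrib, sum_add_distrib, sum_add_distrib, sum_const, nsmul_eq_mul, ← mul_sum,
      sum_comm]
    have hb : ∑ k ∈ range K, ∑ l ∈ d.G, E (fun w => (stp d h).R (cut D k l) w *
        |d.F.C (cut D k l) (fun v => d.f v * d.D l v) w|) ≤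
        K * (Real.sqrt (20 + 124 * V) * Real.sqrt Vu) := by
      refine (sum_le_sum (fun k hk => h2 k (mem_range.mp hk))).trans ?_
      rw [sum_const, card_range, nsmul_eq_mul]
    have hb2 := mul_le_mul_of_nonneg_left hb (by positivity : (0 : ℝ) ≤ 2 * ε)
    linarith
  -- (3)
  have h10 : ∑ l ∈ d.G, E (fun w => (stp d h).R l w * d.F.C l (fun v => d.D l v ^ 2) w) ≤ Vu := by
    have := h1 0 (Nat.zero_le _)
    have hcut : ∀ l, cut D 0 l = l := fun l => by simp [cut]
    simpa only [hcut] using this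
  have h4 := hLOS hSTP hQV hMOM hHOL hFU hSTL Ω d h Vu δ z hd hh h10 hδ hδ4 hδl hz
  have h5 := hGN hSTP Ω d h hd hh.le
  have hlam : 0 < d.lam := lt_of_lt_of_le one_pos hd.lam_ge
  have h6 : ∑ l ∈ d.G, E (fun w => (stp d h).R l w * ((stp d h).th l w * (d.f w * d.D l w))) ≤
      2 / d.lam := by
    rw [le_div_iff₀ hlam]
    linarith
  linarith

end Pool.Agent.Helper56.OS
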