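import Pool.Agent.Helper56.OS.StD

/-! Project OS, module FM1: the far property. -/

set_option autoImplicit false

open Finset

namespace Pool.Agent.Helper56.OS

theorem p_FM1 (hFAR : St_FAR) (hCCS : S_CCS) : St_FM1 := by
  classical
  intro K H T b Ω al q μ Q hF hH y0 I l i0 abot hl hcst hab hcard C o ho hC hCo
  have hBm : 0 ≤ Bm b Ω (al l) := Finset.sum_nonneg fun _ _ => abs_nonneg _
  have hPh : 0 < Ph b Ω (al l) := hF.mu0.trans (hF.Plo l hl)
  by_cases hli : 2 * 2 ^ i0 ≤ l
  · -- the main case
    have hc := (hCCS.1 (2 ^ i0) l Nat.one_le_two_pow (by omega)).1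
    set c := cc (2 ^ i0) l with hcdef
    have h2 : c + 2 ≤ l := by omega
    have hlt : al (c + 1) < abot := by
      by_contra hcon
      have hcon' : abot ≤ al (c + 1) := not_lt.1 hcon
      have hsub : Ico (c + 1) l ⊆ (range l).filter (fun l' => abot ≤ al l') := by
        intro l' hl'
        rw [mem_Ico] at hl'
        rw [Finset.mem_filter, mem_range]
        refine ⟨hl'.2, ?_⟩
        rcases Nat.eq_or_lt_of_le hl'.1 with h | h
        · rw [← h]; exact hcon'
        · have := hF.sep (c + 1) l' h (by omega)
          omega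
      have := Finset.card_le_card hsub
      rw [Nat.card_Ico] at this
      omega
    have hsep := hF.sep c (c + 1) (Nat.lt_succ_self c) (by omega)
    have hle : al c ≤ abot - 4 * H := by omega
    have hfar := (hFAR K H T b Ω al q μ Q hF hH y0 I l i0 hl).2 C o ho hC (by
      intro ω hω ω' hω' hd
      apply hCo ω hω ω' hω'
      have : (2 : ℤ) ^ (al c) ≤ 2 ^ (abot - 4 * H) := pow_le_pow_right₀ (by norm_num) hle
      exact hd.le.trans this)
    linarith
  · have he : NS b Ω al Q μ y0 I l i0 = ∅ := by
      rw [Finset.eq_empty_iff_forall_notMem]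
      intro ω hω
      unfold NS at hω
      rw [Finset.mem_filter] at hω
      obtain ⟨_, i, h1, _, h3, _⟩ := hω
      have : 2 ^ i0 ≤ 2 ^ i := Nat.pow_le_pow_right (by norm_num) h1
      omega
    rw [he, Finset.sum_empty, abs_zero]
    positivity

end Pool.Agent.Helper56.OS
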