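import Pool.Agent.Helper56.OS.StD

/-! # Project OS, module FM2: no families with small masses. -/

set_option autoImplicit false

open Finset

namespace Pool.Agent.Helper56.OS

open Pool.Agent.Helper57.SN (co si SS dd th Spn stm av BC blk Lv)

private theorem ccle_FM2 {d l : ℕ} (hd : 1 ≤ d) (hl : 2 * d ≤ l) : cc d l < l ∧ cc d l + d ≤ l := by
  have h2 : 2 ≤ l / d := (Nat.le_div_iff_mul_le (by omega)).mpr (by linarith)
  have h3 : d * (l / d) ≤ l := Nat.mul_div_le l d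
  have h4 : cc d l + d = d * (l / d) := by
    unfold cc
    obtain ⟨k, hk⟩ : ∃ k, l / d = k + 1 := ⟨l / d - 1, by omega⟩
    rw [hk]
    simp only [Nat.add_sub_cancel]
    ring
  constructor <;> omega

/-- the `phi`-sum over the set `NS` is small for a level that is not lossy -/
private theorem nsSum_FM2 (hFAR : St_FAR) (hPHB : St_PHB) {K H T : ℕ} {b : ℕ → ℝ} {Ω : Finset ℕ}
    {al : ℕ → ℕ} {q μ : ℝ} (hF : FamS K H T b Ω al q μ) (hH : (10 : ℝ) ^ 20 ≤ H) (hq : q ≤ H) (Q : ℝ)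
    (y0 I l x : ℕ) (hl : l < T) (hc : cst b Ω al Q μ y0 I l ≤ Ph b Ω (al l) / 100) :
    |∑ ω ∈ NS b Ω al Q μ y0 I l x, b ω * phi (ω / 2 ^ (al l))| ≤ Ph b Ω (al l) / 50 := by
  obtain ⟨hP1, -, hP3, -⟩ := hPHB
  have hPpos : 0 < Ph b Ω (al l) := lt_trans hF.mu0 (hF.Plo l hl)
  by_cases hlx : l < 2 * 2 ^ x
  · have hemp : NS b Ω al Q μ y0 I l x = ∅ := by
      classical
      unfold NS
      rw [filter_eq_empty_iff]
      rintro ω - ⟨i, hi1, -, hi3, -⟩
      have : 2 ^ x ≤ 2 ^ i := Nat.pow_le_pow_right (by norm_num) hi1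
      omega
    rw [hemp]
    simp only [sum_empty, abs_zero]
    positivity
  · push Not at hlx
    have hH1r : (1 : ℝ) ≤ H := le_trans (by norm_num) hH
    have hH1 : 1 ≤ H := by exact_mod_cast hH1r
    obtain ⟨hcl, hcl2⟩ := ccle_FM2 (d := 2 ^ x) (l := l) Nat.one_le_two_pow hlx
    have hsep : al (cc (2 ^ x) l) + 4 * H ≤ al l := hF.sep _ _ hcl hl
    obtain ⟨-, hfar⟩ := hFAR K H T b Ω al q μ Q hF hH1 y0 I l x hl
    set c := cc (2 ^ x) l with hcdef
    have ho : (0 : ℝ) ≤ 2 * (2 ^ (al c) / 2 ^ (al l)) := by positivity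
    have h1 := hfar (fun ω => phi (ω / 2 ^ (al l))) (2 * (2 ^ (al c) / 2 ^ (al l))) ho
      (fun ω _ => by rw [abs_of_nonneg (hP1 _).1]; exact (hP1 _).2)
      (fun ω _ ω' _ hd => by
        refine le_trans (hP3 _ _) ?_
        have hd' : |(ω : ℝ) - ω'| ≤ 2 ^ (al c) := by
          have : ((|(ω : ℤ) - ω'| : ℤ) : ℝ) ≤ ((2 ^ (al c) : ℤ) : ℝ) := by exact_mod_cast hd.le
          rw [Int.cast_abs] at this
          push_cast at this
          exact this
        have h2 : (ω : ℝ) / 2 ^ (al l) - ω' / 2 ^ (al l) = (ω - ω') / 2 ^ (al l) := by ring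
        rw [h2, abs_div, abs_of_pos (by positivity : (0 : ℝ) < 2 ^ (al l))]
        gcongr)
    have hB0 : 0 ≤ Bm b Ω (al l) := sum_nonneg (fun _ _ => abs_nonneg _)
    have hBm := hF.good l hl
    have hop : 2 * ((2 : ℝ) ^ (al c) / 2 ^ (al l)) * Bm b Ω (al l) ≤ Ph b Ω (al l) / 100 := by
      have hr : (2 : ℝ) ^ (al c) / 2 ^ (al l) ≤ 1 / 2 ^ (4 * H) := by
        rw [div_le_div_iff₀ (by positivity) (by positivity), one_mul, ← pow_add]
        exact pow_le_pow_right₀ (by norm_num) hsep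
      have hH2 : (H : ℝ) ≤ 2 ^ H := by exact_mod_cast (Nat.lt_two_pow_self (n := H)).le
      have h800 : 800 * (H : ℝ) ≤ 2 ^ (4 * H) := by
        have e1 : (2 : ℝ) ^ (4 * H) = 2 ^ H * 2 ^ H * (2 ^ H * 2 ^ H) := by ring
        have e2 : (1 : ℝ) ≤ 2 ^ H := le_trans hH1r hH2
        have e3 : (800 : ℝ) ≤ 2 ^ H := le_trans (le_trans (by norm_num) hH) hH2
        rw [e1]
        calc 800 * (H : ℝ) ≤ 2 ^ H * 2 ^ H := by gcongr
          _ = 2 ^ H * 2 ^ H * 1 := by ring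
          _ ≤ 2 ^ H * 2 ^ H * (2 ^ H * 2 ^ H) := by
              gcongr
              nlinarith
      calc 2 * ((2 : ℝ) ^ (al c) / 2 ^ (al l)) * Bm b Ω (al l)
          ≤ 2 * (1 / 2 ^ (4 * H)) * (4 * q * Ph b Ω (al l)) := by gcongr
        _ ≤ 2 * (1 / 2 ^ (4 * H)) * (4 * H * Ph b Ω (al l)) := by gcongr
        _ = 8 * H * Ph b Ω (al l) / 2 ^ (4 * H) := by ring
        _ ≤ Ph b Ω (al l) / 100 := by
            rw [div_le_div_iff₀ (by positivity) (by norm_num)]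
            nlinarith
    linarith

/-- the mass outside `NS` -/
private theorem mass_FM2 (hFAR : St_FAR) (hPHB : St_PHB) (hPHI : St_PHI) {K H T : ℕ} {b : ℕ → ℝ}
    {Ω : Finset ℕ} {al : ℕ → ℕ} {q μ : ℝ} (hG : GS K b Ω) (hF : FamS K H T b Ω al q μ)
    (hH : (10 : ℝ) ^ 20 ≤ H) (hq : q ≤ H) (Q : ℝ) (y0 I l x : ℕ) (hl : l < T)
    (hc : cst b Ω al Q μ y0 I l ≤ Ph b Ω (al l) / 100) :
    98 / 100 * Ph b Ω (al l) ≤ ms b (Oct Ω (al l) \ NS b Ω al Q μ y0 I l x) := by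
  classical
  have h1 := nsSum_FM2 hFAR hPHB hF hH hq Q y0 I l x hl hc
  obtain ⟨hP1, hP2, -⟩ := hPHB
  have hPeq := (hPHI K b Ω hG).2.2.2.2.1 (al l)
  set NN := NS b Ω al Q μ y0 I l x with hNN
  have hNΩ : NN ⊆ Ω := filter_subset _ _
  have hz : ∑ ω ∈ NN, b ω * phi (ω / 2 ^ (al l)) =
      ∑ ω ∈ Oct Ω (al l) ∩ NN, b ω * phi (ω / 2 ^ (al l)) := by
    symm
    apply sum_subset inter_subset_right
    intro ω hω hω'
    have hω1 : ω ∉ Oct Ω (al l) := fun h => hω' (mem_inter.mpr ⟨h, hω⟩)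
    by_contra hne
    have hphi : phi (ω / 2 ^ (al l)) ≠ 0 := fun h => hne (by rw [h, mul_zero])
    obtain ⟨g1, g2⟩ := hP2 _ hphi
    apply hω1
    unfold Oct
    rw [mem_filter]
    refine ⟨hNΩ hω, ?_, ?_⟩
    · rw [lt_div_iff₀ (by positivity)] at g1
      have : (2 : ℝ) ^ (al l) < 2 * ω := by linarith
      exact_mod_cast this
    · rw [div_lt_iff₀ (by positivity)] at g2
      have : (ω : ℝ) < 2 ^ (al l + 1) := by rw [pow_succ]; linarith
      exact_mod_cast this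
  have hsplit : Ph b Ω (al l) = ∑ ω ∈ Oct Ω (al l) \ NN, b ω * phi (ω / 2 ^ (al l)) +
      ∑ ω ∈ NN, b ω * phi (ω / 2 ^ (al l)) := by
    rw [hz, hPeq]
    rw [← sum_sdiff (inter_subset_left : Oct Ω (al l) ∩ NN ⊆ Oct Ω (al l))]
    congr 1
    rw [sdiff_inter_self_left]
  have hle : ∑ ω ∈ Oct Ω (al l) \ NN, b ω * phi (ω / 2 ^ (al l)) ≤ ms b (Oct Ω (al l) \ NN) := by
    unfold ms
    apply sum_le_sum
    intro ω _
    calc b ω * phi (ω / 2 ^ (al l)) ≤ |b ω * phi (ω / 2 ^ (al l))| := le_abs_self _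
      _ = |b ω| * phi (ω / 2 ^ (al l)) := by rw [abs_mul, abs_of_nonneg (hP1 _).1]
      _ ≤ |b ω| * 1 := by
          gcongr
          exact (hP1 _).2
      _ = |b ω| := mul_one _
  have := (abs_le.mp h1).2
  linarith

open Classical in
theorem p_FM2 (hFAR : St_FAR) (hPHB : St_PHB) (hPHI : St_PHI) (hUNS : St_UNS) : St_FM2 := by
  intro K H T x Kc N I b Ω al q μ Ms s0 y0 h hT hloss
  by_contra hμ
  push Not at hμ
  have hH := h.nt.Hbig
  have hq := h.nt.qH
  set Q : ℝ := (H : ℝ) ^ 6 with hQ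
  set G0 : Finset ℕ := (range T).filter (fun l => cst b Ω al Q μ y0 I l ≤ Ph b Ω (al l) / 100) with hG0
  set S : ℕ → Finset ℕ := fun l => Oct Ω (al l) \ NS b Ω al Q μ y0 I l x with hS
  set Sp : ℕ → Finset ℕ := fun l => (S l).filter (fun ω => 0 ≤ b ω) with hSp
  set Sn : ℕ → Finset ℕ := fun l => (S l).filter (fun ω => ¬ 0 ≤ b ω) with hSn
  set U : ℕ → Finset ℕ := fun l => if ms b (Sn l) ≤ ms b (Sp l) then Sp l else Sn l with hU
  set σ : ℕ → ℝ := fun l => if ms b (Sn l) ≤ ms b (Sp l) then 1 else -1 with hσ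
  have hUS : ∀ l, U l ⊆ S l := by
    intro l
    simp only [hU]
    split
    · exact filter_subset _ _
    · exact filter_subset _ _
  have hsum : ∀ l, ms b (Sp l) + ms b (Sn l) = ms b (S l) := by
    intro l
    simp only [hSp, hSn, ms]
    exact sum_filter_add_sum_filter_not _ _ _
  have hmass : ∀ l ∈ G0, μ / 200 ≤ ms b (U l) := by
    intro l hl
    rw [hG0, mem_filter, mem_range] at hl
    have h1 := mass_FM2 hFAR hPHB hPHI h.gs h.fs hH hq Q y0 I l x hl.1 hl.2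
    have h2 := hsum l
    have h3 := h.fs.Plo l hl.1
    have h4 := h.fs.mu0
    simp only [hU]
    have h5 : ms b (S l) = ms b (Oct Ω (al l) \ NS b Ω al Q μ y0 I l x) := rfl
    split
    · rename_i hc
      linarith
    · rename_i hc
      push Not at hc
      linarith
  have hUSet : USet T b Ω al U σ G0 := by
    refine ⟨filter_subset _ _, fun l _ => (hUS l).trans sdiff_subset, ?_⟩
    intro l _
    simp only [hU, hσ]
    by_cases hc : ms b (Sn l) ≤ ms b (Sp l)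
    · left
      rw [if_pos hc, if_pos hc]
      exact ⟨rfl, fun ω hω => (mem_filter.mp hω).2⟩
    · right
      rw [if_neg hc, if_neg hc]
      exact ⟨rfl, fun ω hω => (not_le.mp (mem_filter.mp hω).2).le⟩
  have hcard := hUNS K H T x Kc N I b Ω al q μ Ms s0 y0 U σ G0 h.gs h.fs hUSet h.mass h.nt h.cN h.TI
    h.s0pos h.s0N h.keep (fun l _ => hUS l) hmass (fun l _ => Or.inl hμ)
  have hcount : (G0.card : ℝ) + ((((range T).filter (fun l => Ph b Ω (al l) / 100 <
      cst b Ω al ((H : ℝ) ^ 6) μ y0 I l)).card : ℕ) : ℝ) = T := by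
    have h1 := card_filter_add_card_filter_not (s := range T)
      (fun l => cst b Ω al Q μ y0 I l ≤ Ph b Ω (al l) / 100)
    have h2 : (range T).filter (fun l => ¬ cst b Ω al Q μ y0 I l ≤ Ph b Ω (al l) / 100) =
        (range T).filter (fun l => Ph b Ω (al l) / 100 < cst b Ω al Q μ y0 I l) := by
      apply filter_congr
      intro l _
      exact not_le
    rw [h2, card_range] at h1
    rw [← hQ, hG0, ← Nat.cast_add, h1]
  have hT' : (0 : ℝ) < T := by exact_mod_cast hT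
  linarith

end Pool.Agent.Helper56.OS
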