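import Pool.Agent.Helper56.OS.StD

/-! # Project OS, module FM3: few levels are unstructured. -/

set_option autoImplicit false

open Finset

namespace Pool.Agent.Helper56.OS

open Pool.Agent.Helper57.SN (co si SS dd th Spn stm av BC blk Lv)

open Classical in
private theorem num_FM3 {H x T Kc N : ℕ} {q Ms : ℝ} (h : NT H x T Kc N q Ms) {P B : ℝ} (hP : 0 < P)
    (hB : B ≤ 4 * q * P) :
    ((H ^ 122 * 2 ^ x : ℕ) : ℝ) * (B / (P / (2000 * ((H ^ 122 * 2 ^ x : ℕ) : ℝ)))) ≤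
      ((2 ^ (4 * x) : ℕ) : ℝ) := by
  have hH1 : (1 : ℝ) ≤ H := le_trans (by norm_num) h.Hbig
  have hs : (0 : ℝ) < ((H ^ 122 * 2 ^ x : ℕ) : ℝ) := by
    push_cast
    positivity
  set s : ℝ := ((H ^ 122 * 2 ^ x : ℕ) : ℝ) with hsdef
  have e1 : s * (B / (P / (2000 * s))) = 2000 * s ^ 2 * (B / P) := by
    field_simp
  have e2 : B / P ≤ 4 * H := by
    rw [div_le_iff₀ hP]
    calc B ≤ 4 * q * P := hB
      _ ≤ 4 * H * P := by
          have := h.qH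
          gcongr
  have e3 : s ^ 2 = (H : ℝ) ^ 244 * (2 ^ x * 2 ^ x) := by
    rw [hsdef]
    push_cast
    ring
  have e4 : 8000 * (H : ℝ) ^ 245 ≤ 2 ^ x * 2 ^ x := by
    have g1 : (H : ℝ) ^ 200 * (H : ℝ) ^ 200 ≤ 2 ^ x * 2 ^ x := by
      have := h.Dbig
      gcongr
    have g2 : 8000 * (H : ℝ) ^ 245 ≤ (H : ℝ) ^ 200 * (H : ℝ) ^ 200 := by
      have g3 : (8000 : ℝ) ≤ H := le_trans (by norm_num) h.Hbig
      calc 8000 * (H : ℝ) ^ 245 ≤ H * (H : ℝ) ^ 245 := by gcongr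
        _ = (H : ℝ) ^ 246 := by ring
        _ ≤ (H : ℝ) ^ 400 := pow_le_pow_right₀ hH1 (by norm_num)
        _ = (H : ℝ) ^ 200 * (H : ℝ) ^ 200 := by ring
    exact g2.trans g1
  rw [e1, e3]
  calc 2000 * ((H : ℝ) ^ 244 * (2 ^ x * 2 ^ x)) * (B / P)
      ≤ 2000 * ((H : ℝ) ^ 244 * (2 ^ x * 2 ^ x)) * (4 * H) := by gcongr
    _ = (8000 * (H : ℝ) ^ 245) * (2 ^ x * 2 ^ x) := by ring
    _ ≤ (2 ^ x * 2 ^ x) * (2 ^ x * 2 ^ x) := by gcongr
    _ = ((2 ^ (4 * x) : ℕ) : ℝ) := by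
        push_cast
        ring

open Classical in
theorem p_FM3 (hDICH : St_DICH) (hPHI : St_PHI) (hUNS : St_UNS) : St_FM3 := by
  intro K H T x Kc N I b Ω al q μ Ms s0 y0 h
  set Q : ℝ := (H : ℝ) ^ 6 with hQ
  set S : ℕ → Finset ℕ := fun l => Oct Ω (al l) \ NS b Ω al Q μ y0 I l x with hS
  set Un : Finset ℕ := (range T).filter (fun l => ∀ D ⊆ S l, D.card ≤ 2 ^ (4 * x) →
    Ph b Ω (al l) / 100 < ∑ ω ∈ (S l).filter (fun ω : ℕ => ¬ Spn 1 D (ω : ℤ)), |b ω|) with hUn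
  have hH1 : (1 : ℝ) ≤ H := le_trans (by norm_num) h.nt.Hbig
  have hHpos : 0 < H := by
    have : (0 : ℝ) < H := lt_of_lt_of_le one_pos hH1
    exact_mod_cast this
  set s : ℕ := H ^ 122 * 2 ^ x with hs
  have hs1 : 1 ≤ s := Nat.one_le_iff_ne_zero.mpr (by positivity)
  have hsr : (1 : ℝ) ≤ (s : ℝ) := by exact_mod_cast hs1
  have hPpos : ∀ l < T, 0 < Ph b Ω (al l) := fun l hl => lt_trans h.fs.mu0 (h.fs.Plo l hl)
  -- the dichotomy at every unstructured level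
  have key : ∀ l ∈ Un, ∃ U ⊆ S l, ((∀ ω ∈ U, 0 ≤ b ω) ∨ (∀ ω ∈ U, b ω ≤ 0)) ∧
      Ph b Ω (al l) / 100 / 2 ≤ ms b U ∧
      ∀ D ⊆ U, D.card < s → stm (fun ω => |b ω|) U D ≤ Ph b Ω (al l) / (2000 * (s : ℝ)) := by
    intro l hl
    rw [hUn, mem_filter, mem_range] at hl
    have hP := hPpos l hl.1
    refine hDICH (S l) b (Bm b Ω (al l)) (Ph b Ω (al l) / (2000 * (s : ℝ))) (Ph b Ω (al l) / 100)
      s (2 ^ (4 * x)) ?_ (by positivity) hs1 ?_ hl.2
    · refine le_trans ?_ ((hPHI K b Ω h.gs).2.2.2.1 (al l)).2.1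
      unfold ms
      exact sum_le_sum_of_subset_of_nonneg sdiff_subset (fun _ _ _ => abs_nonneg _)
    · have := num_FM3 h.nt hP (h.fs.good l hl.1)
      exact this
  choose! U hUS hsgn hmass hsmall using key
  set σ : ℕ → ℝ := fun l => if ∀ ω ∈ U l, 0 ≤ b ω then 1 else -1 with hσ
  have hUSet : USet T b Ω al U σ Un := by
    refine ⟨filter_subset _ _, fun l hl => (hUS l hl).trans sdiff_subset, ?_⟩
    intro l hl
    simp only [hσ]
    by_cases hc : ∀ ω ∈ U l, 0 ≤ b ω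
    · left
      rw [if_pos hc]
      exact ⟨rfl, hc⟩
    · right
      rw [if_neg hc]
      refine ⟨rfl, ?_⟩
      rcases hsgn l hl with h1 | h1
      · exact absurd h1 hc
      · exact h1
  have hcard := hUNS K H T x Kc N I b Ω al q μ Ms s0 y0 U σ Un h.gs h.fs hUSet h.mass h.nt h.cN h.TI
    h.s0pos h.s0N h.keep hUS
    (fun l hl => by
      have h1 := hmass l hl
      rw [hUn, mem_filter, mem_range] at hl
      have h2 := h.fs.Plo l hl.1
      linarith)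
    (fun l hl => Or.inr (by
      have h1 := hmass l hl
      have h2 := hsmall l hl
      rw [hUn, mem_filter, mem_range] at hl
      have hP := hPpos l hl.1
      refine ⟨Ph b Ω (al l) / (2000 * (s : ℝ)), by positivity, ?_, h2⟩
      have e1 : (H : ℝ) ^ 122 * 2 ^ x = (s : ℝ) := by
        rw [hs]
        push_cast
        ring
      rw [e1]
      have e2 : 10 * (s : ℝ) * (Ph b Ω (al l) / (2000 * (s : ℝ))) = Ph b Ω (al l) / 200 := by
        field_simp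
        norm_num
      rw [e2]
      linarith))
  refine ⟨Un, filter_subset _ _, hcard, ?_⟩
  intro l hl hlU
  have h1 : ¬ ∀ D ⊆ S l, D.card ≤ 2 ^ (4 * x) →
      Ph b Ω (al l) / 100 < ∑ ω ∈ (S l).filter (fun ω : ℕ => ¬ Spn 1 D (ω : ℤ)), |b ω| := by
    intro hc
    apply hlU
    rw [hUn, mem_filter, mem_range]
    exact ⟨hl, hc⟩
  push Not at h1
  obtain ⟨D, hD1, hD2, hD3⟩ := h1
  exact ⟨D, hD1, hD2, hD3⟩

end Pool.Agent.Helper56.OS
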