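import Pool.Agent.Helper56.OS.StD

set_option autoImplicit false

open Finset

namespace Pool.Agent.Helper56.OS

theorem p_FML (hY0 : St_Y0) (hLOSS : St_LOSS) : St_FML := by
  classical
  intro K H T I b Ω al q μ hG hF hH hq hI
  have hHpos : (0 : ℝ) < H := lt_of_lt_of_le (by norm_num) hH
  have hH1 : 1 ≤ H := by
    have : (0 : ℝ) < H := hHpos
    exact_mod_cast this
  obtain ⟨y0, hy⟩ := hY0 K H T b Ω al q μ hG hF hH1 I
  refine ⟨y0, ?_⟩
  refine (hLOSS K H T b Ω al q μ ((H : ℝ) ^ 6) hF hH1 (by positivity) y0 I hy).trans ?_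
  have hq0 : 0 ≤ q := zero_le_one.trans hF.q1
  have hI' : (I : ℝ) ≤ H := by exact_mod_cast hI
  have hI0 : (0 : ℝ) ≤ I := Nat.cast_nonneg I
  have hT0 : (0 : ℝ) ≤ T := Nat.cast_nonneg T
  have hs : Real.sqrt (768 * q * I / (H : ℝ) ^ 6) ≤ 28 / (H : ℝ) ^ 2 := by
    rw [Real.sqrt_le_left (by positivity)]
    rw [div_pow, div_le_div_iff₀ (by positivity) (by positivity)]
    have h1 : q * I ≤ (H : ℝ) * H := mul_le_mul hq hI' hI0 hHpos.le
    have h2 : 768 * q * I ≤ 784 * ((H : ℝ) * H) := by nlinarith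
    calc 768 * q * I * ((H : ℝ) ^ 2) ^ 2 ≤ 784 * ((H : ℝ) * H) * ((H : ℝ) ^ 2) ^ 2 :=
          mul_le_mul_of_nonneg_right h2 (by positivity)
      _ = 28 ^ 2 * (H : ℝ) ^ 6 := by ring
  have h3 : (I : ℝ) * (T * Real.sqrt (768 * q * I / (H : ℝ) ^ 6)) ≤ H * (T * (28 / (H : ℝ) ^ 2)) :=
    mul_le_mul hI' (mul_le_mul_of_nonneg_left hs hT0) (by positivity) hHpos.le
  have h4 : (H : ℝ) * (T * (28 / (H : ℝ) ^ 2)) = 28 * T / H := by
    field_simp
  have h5 : (28 : ℝ) * T / H ≤ T / 40000 := by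
    rw [div_le_div_iff₀ hHpos (by norm_num)]
    nlinarith
  calc 100 * ((I : ℝ) * (T * Real.sqrt (768 * q * I / (H : ℝ) ^ 6))) ≤ 100 * (T / 40000) := by
        linarith
    _ = T / 400 := by ring

end Pool.Agent.Helper56.OS
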