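import Pool.Agent.Helper56.OS.StA

/-! # Project OS (MP_9a0a6c_an): module FU

The block averages of `f u` for martingale increments `u`, and the Cauchy-Schwarz inequality. -/

set_option autoImplicit false

open Finset

namespace Pool.Agent.Helper56.OS

open Pool.Agent.Helper56.SS

/-- Cauchy-Schwarz inequality in a block -/
private lemma cs_block_FU {Ω : Type} [Fintype Ω] (F : Fil Ω) (n : ℕ) (a b : Ω → ℝ) (w : Ω) :
    |F.C n (fun v => a v * b v) w| ≤
      Real.sqrt (F.C n (fun v => a v ^ 2) w) * Real.sqrt (F.C n (fun v => b v ^ 2) w) := by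
  rw [← Real.sqrt_mul (F.C_nonneg (fun v => sq_nonneg (a v)) w)]
  apply Real.abs_le_sqrt
  unfold Fil.C
  rw [div_pow, div_mul_div_comm, ← sq]
  exact div_le_div_of_nonneg_right (sum_mul_sq_le_sq_mul_sq _ _ _) (by positivity)

/-- Cauchy-Schwarz inequality for the mean with a weight -/
private lemma cs_mean_FU {Ω : Type} [Fintype Ω] (ρ A B X : Ω → ℝ) (hρ : ∀ w, 0 ≤ ρ w)
    (hA : ∀ w, 0 ≤ A w) (hB : ∀ w, 0 ≤ B w)
    (hX : ∀ w, X w ≤ Real.sqrt (A w) * Real.sqrt (B w)) :
    E (fun w => ρ w * X w) ≤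
      Real.sqrt (E (fun w => ρ w * A w)) * Real.sqrt (E (fun w => ρ w * B w)) := by
  have h1 : E (fun w => ρ w * X w) ≤
      E (fun w => Real.sqrt (ρ w * A w) * Real.sqrt (ρ w * B w)) := by
    apply E_mono
    intro w
    rw [Real.sqrt_mul (hρ w), Real.sqrt_mul (hρ w)]
    calc ρ w * X w ≤ ρ w * (Real.sqrt (A w) * Real.sqrt (B w)) :=
          mul_le_mul_of_nonneg_left (hX w) (hρ w)
      _ = (Real.sqrt (ρ w) * Real.sqrt (ρ w)) * (Real.sqrt (A w) * Real.sqrt (B w)) := by
          rw [Real.mul_self_sqrt (hρ w)]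
      _ = _ := by ring
  refine h1.trans ?_
  have hc : (0 : ℝ) ≤ (Fintype.card Ω : ℝ) := Nat.cast_nonneg _
  have hsA : 0 ≤ ∑ w, ρ w * A w := sum_nonneg fun w _ => mul_nonneg (hρ w) (hA w)
  have hsB : 0 ≤ ∑ w, ρ w * B w := sum_nonneg fun w _ => mul_nonneg (hρ w) (hB w)
  unfold E
  rw [Real.sqrt_div hsA, Real.sqrt_div hsB, div_mul_div_comm, Real.mul_self_sqrt hc]
  apply div_le_div_of_nonneg_right _ hc
  exact Real.sum_sqrt_mul_sqrt_le _ (fun w => mul_nonneg (hρ w) (hA w))
    (fun w => mul_nonneg (hρ w) (hB w))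

private lemma C_fu_FU {Ω : Type} [Fintype Ω] (F : Fil Ω) (f u : Ω → ℝ) (l : ℕ)
    (hm : F.Meas (l + 1) u) (h0 : ∀ w, F.C l u w = 0) (n : ℕ) (hn : n ≤ l) (w : Ω) :
    F.C n (fun v => f v * u v) w = F.C n (fun v => dM F f l v * u v) w := by
  have e1 : (fun v => dM F f l v * u v) =
      fun v => F.C (l + 1) (fun z => f z * u z) v - F.C l f v * u v := by
    funext v
    have h1 : F.C (l + 1) (fun z => u z * f z) v = u v * F.C (l + 1) f v :=
      F.C_mul_meas hm f v
    have h2 : (fun z => f z * u z) = fun z => u z * f z := by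
      funext z
      ring
    rw [h2, h1]
    unfold dM
    ring
  rw [e1, F.C_sub]
  have e2 : F.C n (fun v => F.C (l + 1) (fun z => f z * u z) v) w =
      F.C n (fun z => f z * u z) w := F.tower (hn.trans (Nat.le_succ l)) _ w
  have e3 : F.C n (fun v => F.C l f v * u v) w = 0 := by
    rw [← F.tower hn (fun v => F.C l f v * u v) w]
    have e4 : F.C l (fun v => F.C l f v * u v) = fun _ => (0 : ℝ) := by
      funext v
      rw [F.C_mul_meas (F.C_meas l f) u v, h0 v, mul_zero]
    rw [e4, F.C_const]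
  rw [e2, e3, sub_zero]

theorem p_FU : S_FU := by
  intro Ω _ _ F f u G hm h0
  refine ⟨?_, ?_⟩
  · intro l hl n hn w
    exact C_fu_FU F f (u l) l (hm l hl) (h0 l hl) n hn w
  · intro n ρ hn hρ
    have h1 : ∀ l ∈ G, E (fun w => ρ l w * |F.C (n l) (fun v => f v * u l v) w|) ≤
        Real.sqrt (E (fun w => ρ l w * F.C (n l) (fun v => dM F f l v ^ 2) w)) *
          Real.sqrt (E (fun w => ρ l w * F.C (n l) (fun v => u l v ^ 2) w)) := by
      intro l hl
      apply cs_mean_FU
      · exact hρ l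
      · exact fun w => F.C_nonneg (fun v => sq_nonneg _) w
      · exact fun w => F.C_nonneg (fun v => sq_nonneg _) w
      · intro w
        rw [C_fu_FU F f (u l) l (hm l hl) (h0 l hl) (n l) (hn l hl) w]
        exact cs_block_FU F (n l) (dM F f l) (u l) w
    refine (sum_le_sum h1).trans ?_
    apply Real.sum_sqrt_mul_sqrt_le
    · intro l
      exact E_nonneg fun w => mul_nonneg (hρ l w) (F.C_nonneg (fun v => sq_nonneg _) w)
    · intro l
      exact E_nonneg fun w => mul_nonneg (hρ l w) (F.C_nonneg (fun v => sq_nonneg _) w)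

end Pool.Agent.Helper56.OS
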