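import Pool.Agent.Helper56.OS.StB
import Pool.Agent.Helper57.SN.Top

/-! # Project OS, module GA0: value at time 0 and second moment -/

set_option autoImplicit false

open Finset

namespace Pool.Agent.Helper56.OS

open Pool.Agent.Helper57.SN (co si SS dd th Spn stm av BC blk Lv)

private theorem av_sum_GA0 {ι : Type*} (K : ℕ) (s : Finset ι) (f : ι → ℕ → ℝ) :
    av K (fun x => ∑ i ∈ s, f i x) = ∑ i ∈ s, av K (f i) := by
  unfold av
  rw [Finset.sum_comm, Finset.sum_div]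

private theorem av_mul_GA0 (K : ℕ) (r : ℝ) (f : ℕ → ℝ) :
    av K (fun x => r * f x) = r * av K f := by
  unfold av
  rw [← Finset.mul_sum, mul_div_assoc]

private theorem av_sub_GA0 (K : ℕ) (f g : ℕ → ℝ) :
    av K (fun x => f x - g x) = av K f - av K g := by
  unfold av
  rw [Finset.sum_sub_distrib, sub_div]

private theorem av_le_GA0 (K : ℕ) (f : ℕ → ℝ) (r : ℝ) (h : ∀ x, |f x| ≤ r) : |av K f| ≤ r := by
  unfold av
  rw [abs_div, abs_of_pos (by positivity : (0 : ℝ) < 2 ^ K), div_le_iff₀ (by positivity)]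
  calc |∑ x ∈ range (2 ^ K), f x| ≤ ∑ x ∈ range (2 ^ K), |f x| := Finset.abs_sum_le_sum_abs _ _
    _ ≤ ∑ x ∈ range (2 ^ K), r := Finset.sum_le_sum (fun x _ => h x)
    _ = r * 2 ^ K := by simp [mul_comm]

private theorem avSS_GA0 (K : ℕ) (b c : ℕ → ℝ) (S Ω : Finset ℕ) (hΩ : ∀ ω ∈ Ω, 1 ≤ ω)
    (hK : ∀ ω ∈ Ω, 64 * ω ≤ 2 ^ K) (hS : S ⊆ Ω) :
    av K (fun x => SS K b Ω x * SS K c S x) = (∑ ξ ∈ S, b ξ * c ξ) / 2 := by
  obtain ⟨o1, -, -, -, o5⟩ := Pool.Agent.Helper57.SN.m_orth K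
  have e1 : (fun x => SS K b Ω x * SS K c S x) = fun x : ℕ => ∑ ω ∈ Ω, ∑ ξ ∈ S,
      (b ω * c ξ / 2) * (co K ((ω : ℤ) - ξ) x - co K ((ω : ℤ) + ξ) x) := by
    funext x
    unfold SS
    rw [Finset.sum_mul_sum]
    refine Finset.sum_congr rfl fun γ _ => Finset.sum_congr rfl fun ξ _ => ?_
    have := o5 γ ξ x
    calc b γ * si K γ x * (c ξ * si K ξ x) = b γ * c ξ * (si K γ x * si K ξ x) := by ring
      _ = _ := by rw [this]; ring
  rw [e1, av_sum_GA0]
  have e2 : ∀ γ ∈ Ω, av K (fun x : ℕ => ∑ ξ ∈ S,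
      (b γ * c ξ / 2) * (co K ((γ : ℤ) - ξ) x - co K ((γ : ℤ) + ξ) x)) =
      if γ ∈ S then b γ * c γ / 2 else 0 := by
    intro γ hγ
    rw [av_sum_GA0]
    have e3 : ∀ ξ ∈ S, av K (fun x : ℕ =>
        (b γ * c ξ / 2) * (co K ((γ : ℤ) - ξ) x - co K ((γ : ℤ) + ξ) x)) =
        if γ = ξ then b γ * c ξ / 2 else 0 := by
      intro ξ hξ
      rw [av_mul_GA0, av_sub_GA0]
      have hg := hK γ hγ
      have hx := hK ξ (hS hξ)
      have gl := hΩ γ hγ
      have xl := hΩ ξ (hS hξ)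
      have hgz : 64 * (γ : ℤ) ≤ 2 ^ K := by exact_mod_cast hg
      have hxz : 64 * (ξ : ℤ) ≤ 2 ^ K := by exact_mod_cast hx
      have g0 : (1 : ℤ) ≤ γ := by exact_mod_cast gl
      have x0 : (1 : ℤ) ≤ ξ := by exact_mod_cast xl
      rw [o1 ((γ : ℤ) - ξ) (by rw [abs_lt]; constructor <;> linarith),
        o1 ((γ : ℤ) + ξ) (by rw [abs_lt]; constructor <;> linarith)]
      rw [if_neg (by linarith : ¬ ((γ : ℤ) + ξ = 0))]
      by_cases hh : γ = ξ
      · subst hh; simp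
      · rw [if_neg (by
          intro hc
          apply hh
          have : (γ : ℤ) = ξ := by linarith
          exact_mod_cast this), if_neg hh]
        ring
    rw [Finset.sum_congr rfl e3, Finset.sum_ite_eq]
  rw [Finset.sum_congr rfl e2, ← Finset.sum_filter, Finset.sum_div]
  refine Finset.sum_congr ?_ (fun _ _ => rfl)
  ext ω
  simp only [mem_filter]
  exact ⟨fun h => h.2, fun h => ⟨hS h, h⟩⟩

theorem p_GA0 : St_GA0 := by
  intro K H a b S Ω B σ hG hL hSΩ hσ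
  obtain ⟨-, s2, -, -, -⟩ := Pool.Agent.Helper57.SN.t_dd K H a (fun ω => |b ω|) S B hL
  have hB : 0 ≤ B := le_trans (Finset.sum_nonneg hL.b0) hL.mass
  have hf : ∀ x : ℕ, |SS K b Ω x| ≤ 1 := fun x => hG.bdd (x : ℤ)
  have hσ1 : |σ| = 1 := by
    rcases hσ with ⟨h, -⟩ | ⟨h, -⟩ <;> simp [h]
  have hσ2 : σ ^ 2 = 1 := by
    rcases hσ with ⟨h, -⟩ | ⟨h, -⟩ <;> simp [h]
  have hterm : ∀ ξ ∈ S, σ * (b ξ * |b ξ|) = b ξ ^ 2 := by
    intro ξ hξ
    rcases hσ with ⟨h, h'⟩ | ⟨h, h'⟩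
    · rw [h, abs_of_nonneg (h' ξ hξ)]; ring
    · rw [h, abs_of_nonpos (h' ξ hξ)]; ring
  constructor
  · have h1 := avSS_GA0 K b (fun ω => |b ω|) S Ω hG.pos hG.small hSΩ
    have h2 : av K (fun x => SS K b Ω x * (σ * SS K (fun ω => |b ω|) S x)) =
        (∑ ξ ∈ S, b ξ ^ 2) / 2 := by
      have e : (fun x => SS K b Ω x * (σ * SS K (fun ω => |b ω|) S x)) =
          fun x => σ * (SS K b Ω x * SS K (fun ω => |b ω|) S x) := by
        funext x; ring
      rw [e, av_mul_GA0, h1, ← mul_div_assoc, Finset.mul_sum, Finset.sum_congr rfl hterm]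
    have h3 : |av K (fun x => SS K b Ω x * (σ * dd K H a (fun ω => |b ω|) S x)) -
        av K (fun x => SS K b Ω x * (σ * SS K (fun ω => |b ω|) S x))| ≤ 27 * B / 2 ^ H := by
      rw [← av_sub_GA0]
      apply av_le_GA0
      intro x
      have e : SS K b Ω x * (σ * dd K H a (fun ω => |b ω|) S x) -
          SS K b Ω x * (σ * SS K (fun ω => |b ω|) S x) =
          SS K b Ω x * σ * (dd K H a (fun ω => |b ω|) S x - SS K (fun ω => |b ω|) S x) := by ring
      rw [e, abs_mul, abs_mul, hσ1, mul_one]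
      calc |SS K b Ω x| * |dd K H a (fun ω => |b ω|) S x - SS K (fun ω => |b ω|) S x|
          ≤ 1 * (27 * B / 2 ^ H) := mul_le_mul (hf x) (s2 x) (abs_nonneg _) zero_le_one
        _ = _ := one_mul _
    have h4 := (abs_le.mp h3).1
    rw [h2] at h4
    linarith
  · have h5 := Pool.Agent.Helper57.SN.t_L2 K H a (fun ω => |b ω|) S B hL
    have e : (fun x => (σ * dd K H a (fun ω => |b ω|) S x) ^ 2) =
        fun x => dd K H a (fun ω => |b ω|) S x ^ 2 := by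
      funext x
      rw [mul_pow, hσ2, one_mul]
    rw [e]
    have e2 : ∑ ξ ∈ S, (fun ω => |b ω|) ξ ^ 2 = ∑ ξ ∈ S, b ξ ^ 2 :=
      Finset.sum_congr rfl (fun ξ _ => sq_abs _)
    rw [e2] at h5
    have := (abs_le.mp h5).2
    linarith

end Pool.Agent.Helper56.OS
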