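import Pool.Agent.Helper56.OS.StA

/-! Project OS, module GN2. -/

set_option autoImplicit false

open Finset

namespace Pool.Agent.Helper56.OS

open Pool.Agent.Helper56.SS (Fil Dat Hyp E)

theorem tele_GN2 {Ω : Type} [Fintype Ω] [Nonempty Ω] (e : Dat Ω) (he : Hyp e) (f : Ω → ℝ) (n : ℕ) :
    ∑ i ∈ range n, E (fun w => e.R i w * e.x i w * f w) = E (fun w => e.R n w * f w) - E f := by
  induction n with
  | zero =>
    have h1 : (fun w => e.R 0 w * f w) = f := by
      funext w
      rw [he.R_zero, one_mul]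
    rw [h1]
    simp
  | succ n ih =>
    have h1 : (fun w => e.R (n + 1) w * f w) =
        fun w => e.R n w * f w + e.R n w * e.x n w * f w := by
      funext w
      rw [he.R_succ]
      ring
    rw [sum_range_succ, ih, h1, Pool.Agent.Helper56.SS.E_add]
    ring

theorem p_GN2 : S_GN2 := by
  intro hSTP Ω _ _ d h hd hh
  obtain ⟨hyp, -⟩ := hSTP Ω d h hd hh
  obtain ⟨N, hN⟩ : ∃ N, d.G ⊆ range N :=
    ⟨d.G.sup id + 1, fun x hx => mem_range.2 (Nat.lt_succ_of_le (Finset.le_sup (f := id) hx))⟩
  have hsum : d.lam * ∑ l ∈ d.G, E (fun w => (stp d h).R l w *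
      ((stp d h).th l w * (d.f w * d.D l w))) =
      ∑ i ∈ range N, E (fun w => (stp d h).R i w * (stp d h).x i w * d.f w) := by
    rw [mul_sum]
    have h1 : ∀ l ∈ d.G, d.lam * E (fun w => (stp d h).R l w *
        ((stp d h).th l w * (d.f w * d.D l w))) =
        E (fun w => (stp d h).R l w * (stp d h).x l w * d.f w) := by
      intro l hl
      rw [← Pool.Agent.Helper56.SS.E_mul_left]
      congr 1
      funext w
      have hx : (stp d h).x l w = d.lam * (stp d h).th l w * d.D l w := by
        unfold Dat.x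
        rw [if_pos (show l ∈ (stp d h).G from hl)]
        rfl
      rw [hx]
      ring
    rw [sum_congr rfl h1]
    apply sum_subset hN
    intro i _ hi
    have hx : (fun w => (stp d h).R i w * (stp d h).x i w * d.f w) = fun _ => (0 : ℝ) := by
      funext w
      have hx : (stp d h).x i w = 0 := by
        unfold Dat.x
        rw [if_neg (show i ∉ (stp d h).G from hi)]
      rw [hx]
      ring
    rw [hx, Pool.Agent.Helper56.SS.E_zero]
  rw [hsum, tele_GN2 (stp d h) hyp d.f N]
  have h1 : E (fun w => (stp d h).R N w * d.f w) ≤ 1 := by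
    rw [← hyp.E_R N]
    apply Pool.Agent.Helper56.SS.E_mono
    intro w
    have h2 := (abs_le.1 (hd.f_le w)).2
    have h3 := hyp.R_pos N w
    nlinarith
  have h2 : -1 ≤ E d.f := by
    have h3 : E (fun _ : Ω => (-1 : ℝ)) ≤ E d.f :=
      Pool.Agent.Helper56.SS.E_mono (fun w => (abs_le.1 (hd.f_le w)).1)
    rwa [Pool.Agent.Helper56.SS.E_const] at h3
  linarith

end Pool.Agent.Helper56.OS
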