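import Pool.Agent.Helper56.OS.StC

set_option autoImplicit false

open Finset

namespace Pool.Agent.Helper56.OS

open Pool.Agent.Helper57.SN (Spn)

theorem p_HIT (hOCC : St_OCC) : St_HIT := by
  intro H R m0 D hD hH W hW
  classical
  have hW' : ∀ a ∈ W, ∃ g : ℤ, Spn (2 * m0) D g ∧ 2 ^ a ≤ 2 ^ (H + 4) * |g| ∧
      |g| ≤ 2 ^ (a + H + 4) := hW
  choose! g hg1 hg2 hg3 using hW'
  have hpos : ∀ a ∈ W, (g a).natAbs ≠ 0 := by
    intro a ha h0
    have h1 := hg2 a ha
    have h2 : g a = 0 := Int.natAbs_eq_zero.mp h0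
    rw [h2] at h1
    simp at h1
    have : (0 : ℤ) < 2 ^ a := by positivity
    linarith
  have hneg : ∀ a ∈ W, Spn (2 * m0) D (|g a|) := by
    intro a ha
    rcases abs_cases (g a) with ⟨h, _⟩ | ⟨h, _⟩
    · rw [h]; exact hg1 a ha
    · rw [h]
      obtain ⟨c, hc1, hc2⟩ := hg1 a ha
      refine ⟨fun d => -c d, fun d => by rw [abs_neg]; exact hc1 d, ?_⟩
      rw [hc2, ← Finset.sum_neg_distrib]
      exact Finset.sum_congr rfl fun d _ => by ring
  set e : ℕ → ℕ := fun a => Nat.log 2 (g a).natAbs with he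
  have hlo : ∀ a ∈ W, (2 : ℤ) ^ e a ≤ |g a| := by
    intro a ha
    have := Nat.pow_log_le_self 2 (hpos a ha)
    rw [Int.abs_eq_natAbs]
    exact_mod_cast this
  have hhi : ∀ a ∈ W, |g a| < (2 : ℤ) ^ (e a + 1) := by
    intro a ha
    have := Nat.lt_pow_succ_log_self (b := 2) (by norm_num) (g a).natAbs
    rw [Int.abs_eq_natAbs]
    exact_mod_cast this
  have hE : (W.image e).card ≤ 3 * (H * R) := by
    apply hOCC H R (2 * m0) D hD hH
    intro x hx
    obtain ⟨a, ha, rfl⟩ := Finset.mem_image.mp hx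
    exact ⟨|g a|, hneg a ha, hlo a ha, hhi a ha⟩
  have hfib : ∀ x ∈ W.image e, (W.filter (fun a => e a = x)).card ≤ 2 * H + 9 := by
    intro x hx
    have hsub : W.filter (fun a => e a = x) ⊆ Finset.Icc (x - (H + 4)) (x + (H + 4)) := by
      intro a ha
      obtain ⟨ha, hx⟩ := Finset.mem_filter.mp ha
      have h1 := hg2 a ha
      have h2 := hg3 a ha
      have h3 := hlo a ha
      have h4 := hhi a ha
      rw [hx] at h3 h4
      have h5 : (2 : ℤ) ^ x ≤ 2 ^ (a + H + 4) := le_trans h3 h2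
      have h6 : (2 : ℤ) ^ a < 2 ^ (x + (H + 4) + 1) := by
        calc (2 : ℤ) ^ a ≤ 2 ^ (H + 4) * |g a| := h1
          _ < 2 ^ (H + 4) * 2 ^ (x + 1) := by
            apply mul_lt_mul_of_pos_left h4 (by positivity)
          _ = 2 ^ (x + (H + 4) + 1) := by rw [← pow_add]; congr 1; ring
      have h7 := (pow_le_pow_iff_right₀ (by norm_num : (1 : ℤ) < 2)).mp h5
      have h8 := (pow_lt_pow_iff_right₀ (by norm_num : (1 : ℤ) < 2)).mp h6
      rw [Finset.mem_Icc]
      omega
    have := Finset.card_le_card hsub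
    rw [Nat.card_Icc] at this
    omega
  have hc := Finset.card_le_mul_card_image (f := e) W (2 * H + 9) (by simpa using hfib)
  calc W.card ≤ (2 * H + 9) * (W.image e).card := hc
    _ ≤ (2 * H + 9) * (3 * (H * R)) := Nat.mul_le_mul_left _ hE
    _ ≤ (2 * H + 11) * (3 * (H * R)) := Nat.mul_le_mul_right _ (by omega)

end Pool.Agent.Helper56.OS
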