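import Pool.Agent.Helper56.OS.StA

/-! Project OS, module HOL2: Hoelder with exponents `1 + δ`, `(1 + δ) / δ`. -/

set_option autoImplicit false

open Finset

namespace Pool.Agent.Helper56.OS

open Pool.Agent.Helper56.SS (Fil Dat Hyp E E_add E_sub E_mul_left E_mul_right E_sum E_mono
  E_nonneg E_zero E_const)

/-- Hoelder for the uniform mean. -/
private theorem E_holder_HOL2 {Ω : Type} [Fintype Ω] [Nonempty Ω] {p q : ℝ}
    (hpq : p.HolderConjugate q) (f g : Ω → ℝ) (hf : ∀ w, 0 ≤ f w) (hg : ∀ w, 0 ≤ g w) :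
    E (fun w => f w * g w) ≤ (E fun w => f w ^ p) ^ (1 / p) * (E fun w => g w ^ q) ^ (1 / q) := by
  have hN : (0 : ℝ) < (Fintype.card Ω : ℝ) := by exact_mod_cast Fintype.card_pos
  have h1 := Real.inner_le_Lp_mul_Lq_of_nonneg (univ : Finset Ω) hpq
    (fun w _ => hf w) (fun w _ => hg w)
  have hF : (∑ w, f w ^ p) = (Fintype.card Ω : ℝ) * E (fun w => f w ^ p) := by
    unfold E; field_simp
  have hG : (∑ w, g w ^ q) = (Fintype.card Ω : ℝ) * E (fun w => g w ^ q) := by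
    unfold E; field_simp
  have hF0 : 0 ≤ E (fun w => f w ^ p) := E_nonneg (fun w => Real.rpow_nonneg (hf w) _)
  have hG0 : 0 ≤ E (fun w => g w ^ q) := E_nonneg (fun w => Real.rpow_nonneg (hg w) _)
  rw [hF, hG, Real.mul_rpow hN.le hF0, Real.mul_rpow hN.le hG0] at h1
  have hNN : (Fintype.card Ω : ℝ) ^ (1 / p) * (Fintype.card Ω : ℝ) ^ (1 / q)
      = (Fintype.card Ω : ℝ) := by
    rw [← Real.rpow_add hN]
    have : 1 / p + 1 / q = 1 := by
      have := hpq.inv_add_inv_eq_one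
      simpa [one_div] using this
    rw [this, Real.rpow_one]
  have h2 : (∑ w, f w * g w) ≤ (Fintype.card Ω : ℝ) *
      ((E fun w => f w ^ p) ^ (1 / p) * (E fun w => g w ^ q) ^ (1 / q)) := by
    calc (∑ w, f w * g w) ≤ _ := h1
      _ = ((Fintype.card Ω : ℝ) ^ (1 / p) * (Fintype.card Ω : ℝ) ^ (1 / q)) *
          ((E fun w => f w ^ p) ^ (1 / p) * (E fun w => g w ^ q) ^ (1 / q)) := by ring
      _ = _ := by rw [hNN]
  show (∑ w, f w * g w) / (Fintype.card Ω : ℝ) ≤ _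
  rw [div_le_iff₀ hN]
  linarith [h2]

theorem p_HOL2 : S_HOL2 := by
  intro Ω _ _ R a δ hδ0 hδ1 hR0 hmom ha0 ha1
  have h1δ : 0 < 1 + δ := by linarith
  have hpq : (1 + δ).HolderConjugate ((1 + δ) / δ) := by
    rw [Real.holderConjugate_iff]
    refine ⟨by linarith, ?_⟩
    field_simp
  have hH := E_holder_HOL2 hpq R a hR0 ha0
  have hE0 : 0 ≤ E (fun w => R w ^ (1 + δ)) :=
    E_nonneg (fun w => Real.rpow_nonneg (hR0 w) _)
  have hA : (E fun w => R w ^ (1 + δ)) ^ (1 / (1 + δ)) ≤ 3 := by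
    calc (E fun w => R w ^ (1 + δ)) ^ (1 / (1 + δ)) ≤ (3 : ℝ) ^ (1 / (1 + δ)) :=
          Real.rpow_le_rpow hE0 hmom (by positivity)
      _ ≤ (3 : ℝ) ^ (1 : ℝ) := by
          apply Real.rpow_le_rpow_of_exponent_le (by norm_num)
          rw [div_le_one h1δ]; linarith
      _ = 3 := Real.rpow_one 3
  have hq1 : 1 ≤ (1 + δ) / δ := by
    rw [le_div_iff₀ hδ0]; linarith
  have hB : (E fun w => a w ^ ((1 + δ) / δ)) ^ (1 / ((1 + δ) / δ)) ≤ (E a) ^ (δ / (1 + δ)) := by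
    have e : 1 / ((1 + δ) / δ) = δ / (1 + δ) := by field_simp
    rw [e]
    apply Real.rpow_le_rpow
    · exact E_nonneg (fun w => Real.rpow_nonneg (ha0 w) _)
    · apply E_mono
      intro w
      calc a w ^ ((1 + δ) / δ) ≤ a w ^ (1 : ℝ) :=
            Real.rpow_le_rpow_of_exponent_ge' (ha0 w) (ha1 w) (by norm_num) hq1
        _ = a w := Real.rpow_one _
    · positivity
  calc E (fun w => R w * a w) ≤ _ := hH
    _ ≤ 3 * (E a) ^ (δ / (1 + δ)) := by
      apply mul_le_mul hA hB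
      · exact Real.rpow_nonneg (E_nonneg (fun w => Real.rpow_nonneg (ha0 w) _)) _
      · norm_num

end Pool.Agent.Helper56.OS
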