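import Pool.Agent.Helper56.OS.StA

set_option autoImplicit false

open Finset

namespace Pool.Agent.Helper56.OS

open Pool.Agent.Helper56.SS (Fil Dat Hyp E)

section

variable {Ω : Type} [Fintype Ω] [Nonempty Ω]

/-- `E (R_l C_l Δ_l²)` -/
private noncomputable def AA (d : Dat Ω) (f : Ω → ℝ) (l : ℕ) : ℝ :=
  E (fun w => d.R l w * d.F.C l (fun v => dM d.F f l v ^ 2) w)

/-- `E (R_l C_l x_l²)` -/
private noncomputable def XX (d : Dat Ω) (l : ℕ) : ℝ :=
  E (fun w => d.R l w * d.F.C l (fun v => d.x l v ^ 2) w)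

/-- the hybrid term -/
private noncomputable def HH (d : Dat Ω) (f : Ω → ℝ) (c l : ℕ) : ℝ :=
  E (fun w => d.R c w * d.F.C c (fun v => dM d.F f l v ^ 2) w)

omit [Nonempty Ω] in
private theorem AA_nonneg (d : Dat Ω) (h : Hyp d) (f : Ω → ℝ) (l : ℕ) : 0 ≤ AA d f l :=
  SS.E_nonneg (fun w => mul_nonneg (h.R_pos l w).le (d.F.C_nonneg (fun _ => sq_nonneg _) w))

omit [Nonempty Ω] in
private theorem XX_nonneg (d : Dat Ω) (h : Hyp d) (l : ℕ) : 0 ≤ XX d l :=
  SS.E_nonneg (fun w => mul_nonneg (h.R_pos l w).le (d.F.C_nonneg (fun _ => sq_nonneg _) w))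

omit [Nonempty Ω] in
private theorem HH_nonneg (d : Dat Ω) (h : Hyp d) (f : Ω → ℝ) (c l : ℕ) : 0 ≤ HH d f c l :=
  SS.E_nonneg (fun w => mul_nonneg (h.R_pos c w).le (d.F.C_nonneg (fun _ => sq_nonneg _) w))

omit [Nonempty Ω] in
private theorem XX_notMem (d : Dat Ω) (l : ℕ) (hl : l ∉ d.G) : XX d l = 0 := by
  have hx : ∀ v, d.x l v = 0 := by
    intro v
    simp [Dat.x, hl]
  unfold XX
  have : (fun w => d.R l w * d.F.C l (fun v => d.x l v ^ 2) w) = fun _ => (0 : ℝ) := by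
    funext w
    have h2 : (fun v => d.x l v ^ 2) = fun _ => (0 : ℝ) := by
      funext v
      rw [hx v]; norm_num
    rw [h2, d.F.C_const]
    ring
  rw [this, SS.E_zero]

omit [Nonempty Ω] in
private theorem XX_sum (d : Dat Ω) (h : Hyp d) (V : ℝ) (hV : ∑ j ∈ d.G, XX d j ≤ V) (S : Finset ℕ) :
    ∑ l ∈ S, XX d l ≤ V := by
  refine le_trans ?_ hV
  have h1 : ∑ l ∈ S, XX d l = ∑ l ∈ S.filter (fun l => l ∈ d.G), XX d l := by
    rw [sum_filter]
    refine sum_congr rfl (fun l _ => ?_)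
    split_ifs with hl
    · rfl
    · exact XX_notMem d l hl
  rw [h1]
  refine sum_le_sum_of_subset_of_nonneg ?_ (fun i _ _ => XX_nonneg d h i)
  intro l hl
  exact (mem_filter.mp hl).2

omit [Nonempty Ω] in
private theorem M_abs (d : Dat Ω) (f : Ω → ℝ) (hf : ∀ w, |f w| ≤ 1) (n : ℕ) (w : Ω) :
    |d.F.C n f w| ≤ 1 := by
  have h1 : d.F.C n f w ≤ 1 := by
    have := d.F.C_mono (j := n) (g := f) (h := fun _ => (1 : ℝ)) (fun v => (abs_le.mp (hf v)).2) w
    rwa [d.F.C_const] at this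
  have h2 : -1 ≤ d.F.C n f w := by
    have := d.F.C_mono (j := n) (g := fun _ => (-1 : ℝ)) (h := f) (fun v => (abs_le.mp (hf v)).1) w
    rwa [d.F.C_const] at this
  exact abs_le.mpr ⟨h2, h1⟩

omit [Nonempty Ω] in
private theorem phi_le (d : Dat Ω) (f : Ω → ℝ) (hf : ∀ w, |f w| ≤ 1) (a n : ℕ) (w : Ω) :
    (d.F.C n f w - d.F.C a f w) ^ 2 ≤ 4 := by
  have h1 := abs_le.mp (M_abs d f hf n w)
  have h2 := abs_le.mp (M_abs d f hf a w)
  nlinarith [h1.1, h1.2, h2.1, h2.2]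

/-- sum of hybrid terms of a cell as an expectation -/
private theorem HH_sum (hORTH : S_ORTH) (d : Dat Ω) (h : Hyp d) (f : Ω → ℝ) (hf : ∀ w, |f w| ≤ 1)
    (c a n : ℕ) (hca : c ≤ a) (han : a ≤ n) :
    ∑ l ∈ Ico a n, HH d f c l =
      E (fun w => d.R c w * d.F.C c (fun v => (d.F.C n f v - d.F.C a f v) ^ 2) w) := by
  have h1 := (hORTH Ω d h f hf a n han).1 c hca
  unfold HH
  rw [← SS.E_sum]
  congr 1
  funext w
  rw [h1 w, mul_sum]

private theorem cell0 (hORTH : S_ORTH) (d : Dat Ω) (h : Hyp d) (f : Ω → ℝ) (hf : ∀ w, |f w| ≤ 1)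
    (n : ℕ) : ∑ l ∈ range n, HH d f 0 l ≤ 4 := by
  have h1 := HH_sum hORTH d h f hf 0 0 n le_rfl (Nat.zero_le _)
  rw [← Finset.range_eq_Ico] at h1
  rw [h1]
  have h2 : E (fun w => d.R 0 w * d.F.C 0 (fun v => (d.F.C n f v - d.F.C 0 f v) ^ 2) w) ≤
      E (fun _ : Ω => (4 : ℝ)) := by
    refine SS.E_mono (fun w => ?_)
    rw [h.R_zero w, one_mul]
    have := d.F.C_mono (j := 0) (g := fun v => (d.F.C n f v - d.F.C 0 f v) ^ 2)
      (h := fun _ => (4 : ℝ)) (fun v => phi_le d f hf 0 n v) w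
    rwa [d.F.C_const] at this
  rw [SS.E_const] at h2
  exact h2

private theorem cell (hENT : S_ENT) (hORTH : S_ORTH) (d : Dat Ω) (h : Hyp d) (f : Ω → ℝ)
    (hf : ∀ w, |f w| ≤ 1) (c a n : ℕ) (hca : c ≤ a) (han : a ≤ n) :
    ∑ l ∈ Ico a n, HH d f c l ≤ 8 * (∑ l ∈ Ico a n, AA d f l) + 4 * (∑ l ∈ Ico a n, XX d l) +
      28 * (∑ l ∈ Ico c n, XX d l) := by
  rw [HH_sum hORTH d h f hf c a n hca han]
  obtain ⟨-, h2, -, -, -, -⟩ := hORTH Ω d h f hf a n han
  obtain ⟨-, -, k3, k4, k5, k6⟩ := hORTH Ω d h f hf c n (hca.trans han)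
  set ρ : Ω → ℝ := fun w => ∏ i ∈ Ico c n, (1 + d.x i w) with hρ
  set φ : Ω → ℝ := fun v => (d.F.C n f v - d.F.C a f v) ^ 2 with hφ
  have hent : ∀ w, d.F.C c φ w ≤ 2 * d.F.C c (fun v => ρ v * φ v) w +
      28 * d.F.C c (fun v => ρ v * Real.log (ρ v)) w := by
    intro w
    exact hENT Ω d.F c ρ φ w k3 (k5 w) (fun v => sq_nonneg _) (fun v => phi_le d f hf a n v)
  have hR := h.R_meas c
  have e1 : E (fun w => d.R c w * d.F.C c φ w) ≤
      2 * E (fun w => d.R c w * d.F.C c (fun v => ρ v * φ v) w) +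
      28 * E (fun w => d.R c w * d.F.C c (fun v => ρ v * Real.log (ρ v)) w) := by
    rw [← SS.E_mul_left, ← SS.E_mul_left, ← SS.E_add]
    refine SS.E_mono (fun w => ?_)
    have := mul_le_mul_of_nonneg_left (hent w) (h.R_pos c w).le
    nlinarith [this]
  rw [d.F.E_mul_C hR (fun v => ρ v * φ v), d.F.E_mul_C hR (fun v => ρ v * Real.log (ρ v))] at e1
  have e2 : E (fun w => d.R c w * (ρ w * φ w)) = E (fun w => d.R n w * φ w) := by
    congr 1
    funext w
    rw [k4 w]; ring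
  have e3 : E (fun w => d.R c w * (ρ w * Real.log (ρ w))) = E (fun w => d.R n w * Real.log (ρ w)) := by
    congr 1
    funext w
    rw [k4 w]; ring
  rw [e2, e3] at e1
  have h2' : E (fun w => d.R n w * φ w) ≤ 4 * (∑ l ∈ Ico a n, AA d f l) +
      2 * (∑ l ∈ Ico a n, XX d l) := by
    refine h2.trans (le_of_eq ?_)
    rw [sum_add_distrib, mul_sum, mul_sum]
    rfl
  have h3' : E (fun w => d.R n w * Real.log (ρ w)) ≤ ∑ l ∈ Ico c n, XX d l := k6
  linarith

private theorem ind (hENT : S_ENT) (hORTH : S_ORTH) (d : Dat Ω) (h : Hyp d) (f : Ω → ℝ)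
    (hf : ∀ w, |f w| ≤ 1) (d' : ℕ) (hd : 1 ≤ d') (Q : ℕ) :
    ∑ l ∈ range ((Q + 2) * d'), HH d f (cc d' l) l ≤
      4 + 8 * (∑ l ∈ range ((Q + 2) * d'), AA d f l) + 4 * (∑ l ∈ range ((Q + 2) * d'), XX d l) +
      28 * (∑ l ∈ range ((Q + 1) * d'), XX d l + ∑ l ∈ range ((Q + 2) * d'), XX d l) := by
  induction Q with
  | zero =>
    have h1 : ∑ l ∈ range ((0 + 2) * d'), HH d f (cc d' l) l =
        ∑ l ∈ range ((0 + 2) * d'), HH d f 0 l := by
      refine sum_congr rfl (fun l hl => ?_)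
      have h2 : l < 2 * d' := by simpa using hl
      have h3 : l / d' < 2 := (Nat.div_lt_iff_lt_mul hd).mpr h2
      have h4 : l / d' - 1 = 0 := by omega
      have h5 : cc d' l = 0 := by unfold cc; rw [h4, mul_zero]
      rw [h5]
    rw [h1]
    have h2 := cell0 hORTH d h f hf ((0 + 2) * d')
    have h3 : 0 ≤ ∑ l ∈ range ((0 + 2) * d'), AA d f l := sum_nonneg (fun l _ => AA_nonneg d h f l)
    have h4 : 0 ≤ ∑ l ∈ range ((0 + 2) * d'), XX d l := sum_nonneg (fun l _ => XX_nonneg d h l)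
    have h5 : 0 ≤ ∑ l ∈ range ((0 + 1) * d'), XX d l := sum_nonneg (fun l _ => XX_nonneg d h l)
    linarith
  | succ Q ih =>
    have hle1 : (Q + 1) * d' ≤ (Q + 2) * d' := Nat.mul_le_mul_right _ (by omega)
    have hle2 : (Q + 2) * d' ≤ (Q + 3) * d' := Nat.mul_le_mul_right _ (by omega)
    have e1 : Q + 1 + 2 = Q + 3 := by ring
    have e2 : Q + 1 + 1 = Q + 2 := by ring
    rw [e1, e2]
    have s1 := Finset.sum_range_add_sum_Ico (fun l => HH d f (cc d' l) l) hle2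
    have s2 := Finset.sum_range_add_sum_Ico (fun l => AA d f l) hle2
    have s3 := Finset.sum_range_add_sum_Ico (fun l => XX d l) hle2
    have s4 := Finset.sum_range_add_sum_Ico (fun l => XX d l) hle1
    have h1 : ∑ l ∈ Ico ((Q + 2) * d') ((Q + 3) * d'), HH d f (cc d' l) l =
        ∑ l ∈ Ico ((Q + 2) * d') ((Q + 3) * d'), HH d f ((Q + 1) * d') l := by
      refine sum_congr rfl (fun l hl => ?_)
      have hl' := mem_Ico.mp hl
      have h3 : l / d' = Q + 2 := by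
        apply Nat.div_eq_of_lt_le
        · exact hl'.1
        · have : (Q + 2).succ * d' = (Q + 3) * d' := by rfl
          rw [this]; exact hl'.2
      have h5 : cc d' l = (Q + 1) * d' := by
        unfold cc
        rw [h3]
        have : Q + 2 - 1 = Q + 1 := by omega
        rw [this, mul_comm]
      rw [h5]
    have h2 := cell hENT hORTH d h f hf ((Q + 1) * d') ((Q + 2) * d') ((Q + 3) * d') hle1 hle2
    rw [← h1] at h2
    have s5 := Finset.sum_Ico_consecutive (fun l => XX d l) hle1 hle2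
    linarith

end

theorem p_HYB : S_HYB := by
  intro hDLT hENT hORTH _hCCS Ω _ _ d V h hV f hf d' N hd
  have hV' : ∑ j ∈ d.G, XX d j ≤ V := hV
  have hA : ∀ N : ℕ, ∑ l ∈ range N, AA d f l ≤ 2 + 8 * V := fun N => hDLT Ω d V h hV f hf N
  have hX : ∀ S : Finset ℕ, ∑ l ∈ S, XX d l ≤ V := XX_sum d h V hV'
  have h1 : ∑ l ∈ range N, HH d f (cc d' l) l ≤
      ∑ l ∈ range ((N + 2) * d'), HH d f (cc d' l) l := by
    refine sum_le_sum_of_subset_of_nonneg ?_ (fun i _ _ => HH_nonneg d h f _ i)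
    intro l hl
    rw [mem_range] at hl ⊢
    have : (N + 2) * 1 ≤ (N + 2) * d' := Nat.mul_le_mul_left _ hd
    omega
  have h2 := ind hENT hORTH d h f hf d' hd N
  have h3 := hA ((N + 2) * d')
  have h4 := hX (range ((N + 2) * d'))
  have h5 := hX (range ((N + 1) * d'))
  have h6 : ∑ l ∈ range N, HH d f (cc d' l) l ≤ 20 + 124 * V := by linarith
  exact h6

end Pool.Agent.Helper56.OS
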