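import Pool.Agent.Helper56.OS.StD
import Pool.Agent.Helper57.SN.M_orth
import Pool.Agent.Helper57.SN.M_trig
import Pool.Agent.Helper57.SN.M_blk1
import Pool.Agent.Helper57.SN.M_blk2
import Pool.Agent.Helper57.SN.M_dd
import Pool.Agent.Helper57.SN.M_th
import Pool.Agent.Helper57.SN.M_dict

/-! Project OS, module HYS: hypotheses of the abstract theorem for a family. -/

set_option autoImplicit false

open Finset

namespace Pool.Agent.Helper56.OS

open Pool.Agent.Helper57.SN (co si SS dd th Spn stm av BC blk Lv IsFil St_dd St_th m_dd m_th m_blk1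
  m_blk2 m_trig m_orth m_dict)
open Pool.Agent.Helper56.SS (Fil Dat Hyp E)

private theorem dd_HYS : St_dd := m_dd m_blk1 m_blk2 m_trig m_orth

private theorem th_HYS : St_th := m_th m_blk1 m_orth dd_HYS

theorem p_HYS (hLVU : St_LVU) : St_HYS := by
  classical
  intro K H T b Ω al q μ U σ G F κ lam hG hfam hU hF hH hκ hκB hlam hlk
  have hLv : ∀ j < T, ∀ S ⊆ Oct Ω (al j), Lv K H (al j) (fun ω => |b ω|) S (12 * q) :=
    fun j hj S hS => (hLVU K H T b Ω al q μ hG hfam j hj S hS).1
  have hGT : ∀ j ∈ G, j < T := fun j hj => mem_range.1 (hU.GT hj)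
  have hLvU : ∀ j ∈ G, Lv K H (al j) (fun ω => |b ω|) (U j) (12 * q) :=
    fun j hj => hLv j (hGT j hj) (U j) (hU.sub j hj)
  have haK : ∀ j < T, al j + 2 * H + 12 ≤ K := fun j hj =>
    (hLv j hj ∅ (empty_subset _)).aK
  have hHa : ∀ j < T, H ≤ al j ∧ al j ≤ K := by
    intro j hj
    have e1 := (hLv j hj ∅ (empty_subset _)).Ha
    have e2 := haK j hj
    omega
  obtain ⟨k1, k2, k3, k4, k5⟩ := m_dict K H T al F hF hHa
  have hdd := fun j hj => dd_HYS K H (al j) (fun ω => |b ω|) (U j) (12 * q) (hLvU j hj)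
  have hth := fun j hj => th_HYS K H (al j) (fun ω => |b ω|) (U j) (12 * q) κ (hLvU j hj) hκB hκ
  have hσ : ∀ j ∈ G, |σ j| = 1 := by
    intro j hj
    rcases hU.sgn j hj with h | h
    · rw [h.1, abs_one]
    · rw [h.1, abs_neg, abs_one]
  have hq := hfam.q1
  have hDpos : ∀ j, j ∈ G → (datS K H b Ω al U σ κ lam (24 * q) G F).D j
      = fun w : Fin (2 ^ K) => σ j * dd K H (al j) (fun ω => |b ω|) (U j) w := by
    intro j hj
    funext w
    exact if_pos hj
  have hDneg : ∀ j, ¬ j ∈ G → (datS K H b Ω al U σ κ lam (24 * q) G F).D j = fun _ => 0 := by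
    intro j hj
    funext w
    exact if_neg hj
  have htpos : ∀ j, j ∈ G → (datS K H b Ω al U σ κ lam (24 * q) G F).th j
      = fun w : Fin (2 ^ K) => th K H (al j) (fun ω => |b ω|) (U j) κ w := by
    intro j hj
    funext w
    exact if_pos hj
  have htneg : ∀ j, ¬ j ∈ G → (datS K H b Ω al U σ κ lam (24 * q) G F).th j = fun _ => 1 := by
    intro j hj
    funext w
    exact if_neg hj
  refine
    { lam_ge := hlam
      kap_pos := ?_
      lk := hlk
      f_le := fun w => hG.bdd w
      D_meas := ?_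
      D_zero := ?_
      D_le := ?_
      th01 := ?_
      th_meas := ?_
      th_le := ?_ }
  · show 0 < 2 * κ
    linarith
  · intro j
    by_cases hj : j ∈ G
    · rw [hDpos j hj]
      by_cases hj1 : j + 1 < T
      · have hsep := hfam.sep j (j + 1) (Nat.lt_succ_self j) hj1
        have hKa := (hHa (j + 1) hj1).2
        have hKj := haK (j + 1) hj1
        have hBC := (m_blk2 (K - al (j + 1) + H) (K - al j - H) K (by omega) (by omega)).1 _
          (hdd j hj).2.2.2.1
        refine k4 (j + 1) hj1 (fun x => σ j * dd K H (al j) (fun ω => |b ω|) (U j) x) ?_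
        intro x y hxy
        show σ j * _ = σ j * _
        rw [hBC x y hxy]
      · exact k5 (j + 1) (by omega) _
    · rw [hDneg j hj]
      exact F.meas_const _ _
  · intro j w
    by_cases hj : j ∈ G
    · rw [hDpos j hj]
      show F.C j (fun v => σ j * dd K H (al j) (fun ω => |b ω|) (U j) v) w = 0
      rw [F.C_mul_left, k2 j (hGT j hj) (dd K H (al j) (fun ω => |b ω|) (U j)) w,
        (hdd j hj).2.2.2.2 w, mul_zero]
    · rw [hDneg j hj]
      exact F.C_const _ _ _
  · intro j w
    by_cases hj : j ∈ G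
    · rw [hDpos j hj]
      show |σ j * dd K H (al j) (fun ω => |b ω|) (U j) w| ≤ 24 * q
      rw [abs_mul, hσ j hj, one_mul]
      have := (hdd j hj).2.2.1 w
      linarith
    · rw [hDneg j hj]
      show |(0 : ℝ)| ≤ 24 * q
      rw [abs_zero]
      linarith
  · intro j w
    by_cases hj : j ∈ G
    · rw [htpos j hj]
      exact (hth j hj).2.1 w
    · rw [htneg j hj]
      exact Or.inr rfl
  · intro j
    by_cases hj : j ∈ G
    · rw [htpos j hj]
      exact k4 j (hGT j hj) _ (hth j hj).1
    · rw [htneg j hj]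
      exact F.meas_const _ _
  · intro j w hw
    by_cases hj : j ∈ G
    · rw [hDpos j hj]
      rw [htpos j hj] at hw
      show |σ j * dd K H (al j) (fun ω => |b ω|) (U j) w| ≤ 2 * κ
      rw [abs_mul, hσ j hj, one_mul]
      exact (hth j hj).2.2.1 w hw
    · rw [hDneg j hj]
      show |(0 : ℝ)| ≤ 2 * κ
      rw [abs_zero]
      linarith

end Pool.Agent.Helper56.OS
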