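import Pool.Agent.Helper56.OS.StB
import Pool.Agent.Helper57.SN.M_P4
import Pool.Agent.Helper57.SN.M_dd
import Pool.Agent.Helper57.SN.M_trig
import Pool.Agent.Helper57.SN.M_orth
import Pool.Agent.Helper57.SN.M_blk1
import Pool.Agent.Helper57.SN.M_blk2

/-! # Project OS, module INC: increments of the conditional averages of `f u` -/

set_option autoImplicit false

open Finset

namespace Pool.Agent.Helper56.OS

open Pool.Agent.Helper57.SN (co si SS dd th Spn stm av BC blk Lv St_blk1 St_blk2 St_trig St_orth St_dd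
  m_blk1 m_blk2 m_trig m_orth m_dd blk_sum_P4 blk_sub_P4 blk_mul_P4 large_P4 small_P4 triv_P4)

/-- one pair of frequencies: `ξ` in the level, `ω` anywhere -/
private theorem pair_INC (K H a a1 a2 : ℕ) (haK : a + 2 * H + 12 ≤ K) (hH : 1 ≤ H)
    (ha1 : 2 * H + 3 ≤ a1) (ha12 : a1 + 4 * H ≤ a2) (ha2 : a2 + 4 * H ≤ a) (x γ ξ : ℕ)
    (g1 : 64 * γ ≤ 2 ^ K) (x1 : 64 * ξ ≤ 2 ^ K) (xlo : 2 ^ a ≤ 2 * ξ) :
    |blk (K - a2 + H) (fun y => si K γ y * si K ξ y) x -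
        blk (K - a1 + H) (fun y => si K γ y * si K ξ y) x| ≤
      (if |(γ : ℤ) - ξ| ≤ ((2 ^ a2 : ℕ) : ℤ) ∧ ((2 ^ (a1 - 2 * H) : ℕ) : ℤ) < |(γ : ℤ) - ξ|
        then 1 else 0) + 7 / 2 ^ H := by
  have h1 := m_blk1
  have h3 := m_trig
  have h4 := m_orth
  have h2H : (0 : ℝ) < 2 ^ H := by positivity
  have hpi := Real.pi_lt_d2
  have hpi0 := Real.pi_pos
  have e6 : (2 : ℤ) ^ (a2 + 1) ≤ 2 ^ a := pow_le_pow_right₀ (by norm_num) (by omega)
  have e7 : (2 : ℤ) ^ a1 ≤ 2 ^ a2 := pow_le_pow_right₀ (by norm_num) (by omega)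
  have g1' : 64 * (γ : ℤ) ≤ 2 ^ K := by exact_mod_cast g1
  have x1' : 64 * (ξ : ℤ) ≤ 2 ^ K := by exact_mod_cast x1
  have xlo' : (2 : ℤ) ^ a ≤ 2 * ξ := by exact_mod_cast xlo
  have e8 : (2 : ℤ) ^ a2 ≤ ξ := by
    rw [pow_succ] at e6
    linarith
  have kd : 2 * |(γ : ℤ) - ξ| ≤ 2 ^ K := by
    have : |(γ : ℤ) - ξ| ≤ γ + ξ := by
      rw [abs_le]
      constructor <;> omega
    linarith
  have ks : 2 * |(γ : ℤ) + ξ| ≤ 2 ^ K := by
    rw [abs_of_nonneg (by positivity)]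
    linarith
  have ksl : (2 : ℤ) ^ a2 ≤ |(γ : ℤ) + ξ| := by
    rw [abs_of_nonneg (by positivity)]
    have : (0 : ℤ) ≤ γ := by positivity
    linarith
  have hP : ∀ c, blk c (fun y => si K γ y * si K ξ y) x = (1 / 2) *
      (blk c (fun y => co K ((γ : ℤ) - ξ) y) x - blk c (fun y => co K ((γ : ℤ) + ξ) y) x) := by
    intro c
    rw [← blk_sub_P4, ← blk_mul_P4]
    congr 1
    funext y
    rw [(h4 K).2.2.2.2 (γ : ℤ) (ξ : ℤ) (y : ℤ)]
    ring
  have s1 := large_P4 h3 K H a2 (by omega) (by omega) ((γ : ℤ) + ξ) ks ksl x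
  have s2 := large_P4 h3 K H a1 (by omega) (by omega) ((γ : ℤ) + ξ) ks (e7.trans ksl) x
  rw [hP, hP, ← mul_sub, abs_mul, abs_of_nonneg (by norm_num : (0 : ℝ) ≤ 1 / 2)]
  have key : |blk (K - a2 + H) (fun y => co K ((γ : ℤ) - ξ) y) x -
      blk (K - a1 + H) (fun y => co K ((γ : ℤ) - ξ) y) x| ≤
      (if |(γ : ℤ) - ξ| ≤ ((2 ^ a2 : ℕ) : ℤ) ∧ ((2 ^ (a1 - 2 * H) : ℕ) : ℤ) < |(γ : ℤ) - ξ|
        then 2 else 0) + 4 * Real.pi / 2 ^ H := by
    have hpp : 0 ≤ 4 * Real.pi / 2 ^ H := by positivity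
    split_ifs with hc
    · have t1 := abs_le.1 (triv_P4 h1 K (K - a2 + H) ((γ : ℤ) - ξ) x)
      have t2 := abs_le.1 (triv_P4 h1 K (K - a1 + H) ((γ : ℤ) - ξ) x)
      rw [abs_le]
      constructor <;> linarith [t1.1, t1.2, t2.1, t2.2]
    · rw [zero_add]
      push_cast at hc
      by_cases hbig : |(γ : ℤ) - ξ| ≤ 2 ^ a2
      · have hsm : |(γ : ℤ) - ξ| ≤ 2 ^ (a1 - 2 * H) := by
          by_contra hcon
          exact hc ⟨hbig, not_le.1 hcon⟩
        have t1 := abs_le.1 (small_P4 h1 h4 K H a1 a2 (by omega) (by omega) (by omega)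
          (by omega) ((γ : ℤ) - ξ) hsm x)
        have t2 := abs_le.1 (small_P4 h1 h4 K H a1 a1 (by omega) (by omega) (by omega)
          (le_refl _) ((γ : ℤ) - ξ) hsm x)
        have t3 : 4 * Real.pi / 2 ^ H = 2 * Real.pi / 2 ^ H + 2 * Real.pi / 2 ^ H := by ring
        rw [abs_le, t3]
        constructor <;> linarith [t1.1, t1.2, t2.1, t2.2]
      · have hbig' : (2 : ℤ) ^ a2 ≤ |(γ : ℤ) - ξ| := (not_le.1 hbig).le
        have t1 := abs_le.1 (large_P4 h3 K H a2 (by omega) (by omega) ((γ : ℤ) - ξ) kd hbig' x)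
        have t2 := abs_le.1 (large_P4 h3 K H a1 (by omega) (by omega) ((γ : ℤ) - ξ) kd
          (e7.trans hbig') x)
        have t3 : 1 / 2 / 2 ^ H + 1 / 2 / 2 ^ H ≤ 4 * Real.pi / 2 ^ H := by
          rw [← add_div]
          refine div_le_div_of_nonneg_right ?_ h2H.le
          linarith [Real.pi_gt_three]
        rw [abs_le]
        constructor <;> linarith [t1.1, t1.2, t2.1, t2.2]
  have s1' := abs_le.1 s1
  have s2' := abs_le.1 s2
  have kk := abs_le.1 key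
  have t4 : 4 * Real.pi / 2 ^ H ≤ 12.6 / 2 ^ H := by
    refine div_le_div_of_nonneg_right ?_ h2H.le
    linarith
  have t5 : (1 : ℝ) / 2 / 2 ^ H + 1 / 2 / 2 ^ H = 1 / 2 ^ H := by
    rw [← add_div]
    norm_num
  have t6 : 12.6 / 2 ^ H + 1 / 2 ^ H ≤ 14 / (2 : ℝ) ^ H := by
    rw [← add_div]
    refine div_le_div_of_nonneg_right ?_ h2H.le
    norm_num
  have t7 : 14 / (2 : ℝ) ^ H = 2 * (7 / 2 ^ H) := by ring
  have hfin : |blk (K - a2 + H) (fun y => co K ((γ : ℤ) - ξ) y) x -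
      blk (K - a2 + H) (fun y => co K ((γ : ℤ) + ξ) y) x -
      (blk (K - a1 + H) (fun y => co K ((γ : ℤ) - ξ) y) x -
      blk (K - a1 + H) (fun y => co K ((γ : ℤ) + ξ) y) x)| ≤
      (if |(γ : ℤ) - ξ| ≤ ((2 ^ a2 : ℕ) : ℤ) ∧ ((2 ^ (a1 - 2 * H) : ℕ) : ℤ) < |(γ : ℤ) - ξ|
        then 2 else 0) + 2 * (7 / 2 ^ H) := by
    rw [abs_le]
    constructor <;> linarith [s1'.1, s1'.2, s2'.1, s2'.2, kk.1, kk.2]
  split_ifs at hfin ⊢ with hc
  · linarith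
  · linarith

theorem p_INC : St_INC := by
  intro K H a a1 a2 b S Ω B Ms hG hL hSΩ hMs hH ha1 ha12 ha2 x
  have h1 := m_blk1
  obtain ⟨hSB, hdS, hd2, -, -⟩ := m_dd m_blk1 m_blk2 m_trig m_orth K H a (fun ω => |b ω|) S B hL
  have hHa := hL.Ha
  have haK := hL.aK
  have hB0 : 0 ≤ B := (sum_nonneg hL.b0).trans hL.mass
  have hMs0 : 0 ≤ Ms := (sum_nonneg fun ω _ => abs_nonneg (b ω)).trans hMs
  have h2H : (0 : ℝ) < 2 ^ H := by positivity
  have hf1 : ∀ y : ℕ, |SS K b Ω y| ≤ 1 := fun y => hG.bdd (y : ℤ)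
  -- from `dd` to `SS`
  have hsq : ∀ c, |blk c (fun y => SS K b Ω y * dd K H a (fun ω => |b ω|) S y) x -
      blk c (fun y => SS K b Ω y * SS K (fun ω => |b ω|) S y) x| ≤ 27 * B / 2 ^ H := by
    intro c
    rw [← blk_sub_P4]
    refine (h1 c).2.2.2.2.2.1 _ _ x fun y _ => ?_
    rw [← mul_sub, abs_mul]
    have := mul_le_mul (hf1 y) (hdS y) (abs_nonneg _) zero_le_one
    rwa [one_mul] at this
  -- summation
  have hSS : ∀ c, blk c (fun y => SS K b Ω y * SS K (fun ω => |b ω|) S y) x =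
      ∑ ξ ∈ S, ∑ ω ∈ Ω, (|b ξ| * b ω) * blk c (fun y => si K ω y * si K ξ y) x := by
    intro c
    have r1 : (fun y : ℕ => SS K b Ω y * SS K (fun ω => |b ω|) S y) = fun y : ℕ =>
        ∑ ξ ∈ S, ∑ ω ∈ Ω, (|b ξ| * b ω) * (si K ω y * si K ξ y) := by
      funext y
      unfold SS
      rw [mul_comm, sum_mul_sum]
      refine sum_congr rfl fun ξ _ => sum_congr rfl fun ω _ => ?_
      ring
    rw [r1, blk_sum_P4]
    refine sum_congr rfl fun γ _ => ?_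
    rw [blk_sum_P4]
    refine sum_congr rfl fun ξ _ => ?_
    rw [blk_mul_P4]
  have hsum : |blk (K - a2 + H) (fun y => SS K b Ω y * SS K (fun ω => |b ω|) S y) x -
      blk (K - a1 + H) (fun y => SS K b Ω y * SS K (fun ω => |b ω|) S y) x| ≤
      pmS b S Ω (2 ^ (a1 - 2 * H)) (2 ^ a2) + 7 * B * Ms / 2 ^ H := by
    rw [hSS, hSS, ← sum_sub_distrib]
    have r1 : ∀ ξ ∈ S, |∑ ω ∈ Ω, |b ξ| * b ω * blk (K - a2 + H) (fun y => si K ω y * si K ξ y) x -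
        ∑ ω ∈ Ω, |b ξ| * b ω * blk (K - a1 + H) (fun y => si K ω y * si K ξ y) x| ≤
        ∑ ω ∈ Ω, (if |(ω : ℤ) - ξ| ≤ ((2 ^ a2 : ℕ) : ℤ) ∧
          ((2 ^ (a1 - 2 * H) : ℕ) : ℤ) < |(ω : ℤ) - ξ| then |b ξ| * |b ω| else 0) +
          |b ξ| * (7 * Ms / 2 ^ H) := by
      intro ξ hξ
      rw [← sum_sub_distrib]
      have r2 : |b ξ| * (7 * Ms / 2 ^ H) ≥ ∑ ω ∈ Ω, (|b ξ| * |b ω|) * (7 / 2 ^ H) := by
        rw [← sum_mul, ← mul_sum, mul_assoc]
        refine mul_le_mul_of_nonneg_left ?_ (abs_nonneg _)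
        rw [mul_comm (7 : ℝ) Ms, mul_div_assoc]
        exact mul_le_mul_of_nonneg_right hMs (by positivity)
      refine le_trans ?_ (add_le_add_right r2 _)
      rw [← sum_add_distrib]
      refine (abs_sum_le_sum_abs _ _).trans (sum_le_sum fun ω hω => ?_)
      rw [← mul_sub, abs_mul, abs_mul, abs_abs]
      refine (mul_le_mul_of_nonneg_left (pair_INC K H a a1 a2 haK hH ha1 ha12 ha2 x ω ξ
        (hG.small ω hω) (hG.small ξ (hSΩ hξ)) (hL.lo ξ hξ))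
        (mul_nonneg (abs_nonneg _) (abs_nonneg _))).trans (le_of_eq ?_)
      split_ifs <;> ring
    refine (abs_sum_le_sum_abs _ _).trans ((sum_le_sum r1).trans ?_)
    rw [sum_add_distrib]
    refine add_le_add (le_of_eq ?_) ?_
    · unfold pmS
      rfl
    · rw [← sum_mul]
      have r3 : 7 * B * Ms / 2 ^ H = B * (7 * Ms / 2 ^ H) := by ring
      rw [r3]
      exact mul_le_mul_of_nonneg_right hL.mass (by positivity)
  have q1 := abs_le.1 (hsq (K - a2 + H))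
  have q2 := abs_le.1 (hsq (K - a1 + H))
  have q3 := abs_le.1 hsum
  have q4 : 7 * B * Ms / 2 ^ H ≤ 8 * B * Ms / (2 : ℝ) ^ H := by
    refine div_le_div_of_nonneg_right ?_ h2H.le
    nlinarith [mul_nonneg hB0 hMs0]
  have q5 : 54 * B / 2 ^ H = 27 * B / 2 ^ H + 27 * B / (2 : ℝ) ^ H := by ring
  rw [abs_le]
  constructor <;> linarith [q1.1, q1.2, q2.1, q2.2, q3.1, q3.2]

end Pool.Agent.Helper56.OS
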