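import Pool.Agent.Helper56.OS.StB
import Pool.Agent.Helper57.SN.M_orth

/-! # Project OS, module LAW: the bump law. -/

set_option autoImplicit false

open Finset

namespace Pool.Agent.Helper56.OS

open Pool.Agent.Helper57.SN (co si SS dd th Spn stm av BC blk Lv m_orth)

private theorem count_LAW (n : ℕ) (m : ℤ) :
    ∑ i ∈ range n, ∑ j ∈ range n, (if ((i : ℤ) - j = m) then (1 : ℝ) else 0) =
      max 0 ((n : ℝ) - |(m : ℝ)|) := by
  have key : ∀ k : ℕ, ∑ i ∈ range n, ∑ j ∈ range n,
      (if ((i : ℤ) - j = (k : ℤ)) then (1 : ℝ) else 0) = max 0 ((n : ℝ) - k) := by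
    intro k
    rw [sum_comm]
    have h1 : ∀ j ∈ range n, ∑ i ∈ range n, (if ((i : ℤ) - j = (k : ℤ)) then (1 : ℝ) else 0) =
        if j ∈ (range n).filter (fun j => j + k < n) then 1 else 0 := by
      intro j hj
      have h2 : ∀ i ∈ range n, (if ((i : ℤ) - j = (k : ℤ)) then (1 : ℝ) else 0) =
          if i = j + k then 1 else 0 := by
        intro i _
        have : ((i : ℤ) - j = (k : ℤ)) ↔ i = j + k := by omega
        simp only [this]
      rw [sum_congr rfl h2, sum_ite_eq']
      simp only [mem_range, mem_filter, mem_range.mp hj, true_and]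
    rw [sum_congr rfl h1, sum_boole]
    have h3 : {x ∈ range n | x ∈ filter (fun j => j + k < n) (range n)} = range (n - k) := by
      ext x
      simp only [mem_filter, mem_range]
      omega
    rw [h3, card_range]
    rcases le_total k n with h | h
    · rw [Nat.cast_sub h, max_eq_right]
      have : (k : ℝ) ≤ n := by exact_mod_cast h
      linarith
    · rw [Nat.sub_eq_zero_of_le h, max_eq_left]
      · simp
      · have : (n : ℝ) ≤ k := by exact_mod_cast h
        linarith
  rcases Int.eq_nat_or_neg m with ⟨k, rfl | rfl⟩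
  · rw [key k]
    simp
  · have h1 : ∑ i ∈ range n, ∑ j ∈ range n, (if ((i : ℤ) - j = -(k : ℤ)) then (1 : ℝ) else 0) =
        ∑ i ∈ range n, ∑ j ∈ range n, (if ((i : ℤ) - j = (k : ℤ)) then (1 : ℝ) else 0) := by
      rw [sum_comm]
      refine sum_congr rfl fun i _ => sum_congr rfl fun j _ => ?_
      have : ((j : ℤ) - i = -(k : ℤ)) ↔ ((i : ℤ) - j = (k : ℤ)) := by omega
      simp only [this]
    rw [h1, key k]
    simp

private theorem av_add_LAW (K : ℕ) (f g : ℕ → ℝ) :
    av K (fun x => f x + g x) = av K f + av K g := by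
  unfold av
  rw [sum_add_distrib, add_div]

private theorem av_sub_LAW (K : ℕ) (f g : ℕ → ℝ) :
    av K (fun x => f x - g x) = av K f - av K g := by
  unfold av
  rw [sum_sub_distrib, sub_div]

private theorem av_mul_LAW (K : ℕ) (c : ℝ) (f : ℕ → ℝ) :
    av K (fun x => c * f x) = c * av K f := by
  unfold av
  rw [← mul_sum, mul_div_assoc]

private theorem av_sum_LAW (K : ℕ) (s : Finset ℕ) (f : ℕ → ℕ → ℝ) :
    av K (fun x => ∑ i ∈ s, f i x) = ∑ i ∈ s, av K (f i) := by
  unfold av
  rw [sum_comm, sum_div]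

private theorem coco_LAW (K : ℕ) (g h x : ℤ) :
    co K g x * co K h x = 1 / 2 * (co K (g + h) x + co K (g - h) x) := by
  unfold co
  have e1 : 2 * Real.pi * ((g + h : ℤ) : ℝ) * x / 2 ^ K =
      2 * Real.pi * g * x / 2 ^ K + 2 * Real.pi * h * x / 2 ^ K := by push_cast; ring
  have e2 : 2 * Real.pi * ((g - h : ℤ) : ℝ) * x / 2 ^ K =
      2 * Real.pi * g * x / 2 ^ K - 2 * Real.pi * h * x / 2 ^ K := by push_cast; ring
  rw [e1, e2, Real.cos_add, Real.cos_sub]
  ring

private theorem cosi_LAW (K : ℕ) (g h x : ℤ) :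
    co K g x * si K h x = 1 / 2 * (si K (h + g) x + si K (h - g) x) := by
  unfold co si
  have e1 : 2 * Real.pi * ((h + g : ℤ) : ℝ) * x / 2 ^ K =
      2 * Real.pi * h * x / 2 ^ K + 2 * Real.pi * g * x / 2 ^ K := by push_cast; ring
  have e2 : 2 * Real.pi * ((h - g : ℤ) : ℝ) * x / 2 ^ K =
      2 * Real.pi * h * x / 2 ^ K - 2 * Real.pi * g * x / 2 ^ K := by push_cast; ring
  rw [e1, e2, Real.sin_add, Real.sin_sub]
  ring

private theorem sisi_LAW (K : ℕ) (g h x : ℤ) :
    si K g x * si K h x = 1 / 2 * (co K (g - h) x - co K (g + h) x) := by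
  unfold co si
  have e1 : 2 * Real.pi * ((g + h : ℤ) : ℝ) * x / 2 ^ K =
      2 * Real.pi * g * x / 2 ^ K + 2 * Real.pi * h * x / 2 ^ K := by push_cast; ring
  have e2 : 2 * Real.pi * ((g - h : ℤ) : ℝ) * x / 2 ^ K =
      2 * Real.pi * g * x / 2 ^ K - 2 * Real.pi * h * x / 2 ^ K := by push_cast; ring
  rw [e1, e2, Real.cos_add, Real.cos_sub]
  ring

/-- the Fejer kernel -/
private noncomputable def Fj_LAW (K n : ℕ) (x : ℕ) : ℝ :=
  1 / n * ((∑ j ∈ range n, co K j x) ^ 2 + (∑ j ∈ range n, si K j x) ^ 2)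

private theorem Fj_eq_LAW (K n : ℕ) (x : ℕ) :
    Fj_LAW K n x = 1 / n * ∑ i ∈ range n, ∑ j ∈ range n, co K ((i : ℤ) - j) x := by
  unfold Fj_LAW
  congr 1
  rw [pow_two, pow_two, sum_mul_sum, sum_mul_sum, ← sum_add_distrib]
  refine sum_congr rfl fun i _ => ?_
  rw [← sum_add_distrib]
  refine sum_congr rfl fun j _ => ?_
  rw [coco_LAW, sisi_LAW]
  ring

private theorem T_LAW (K n : ℕ) (m : ℤ) (hn : 0 < n) (h : |m| + n ≤ 2 ^ K) :
    av K (fun x => Fj_LAW K n x * co K m x) = tri ((m : ℝ) / n) := by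
  obtain ⟨ho, -⟩ := m_orth K
  have hn' : (0 : ℝ) < n := by exact_mod_cast hn
  have e1 : (fun x : ℕ => Fj_LAW K n x * co K m x) = fun x : ℕ => 1 / (n : ℝ) *
      ∑ i ∈ range n, ∑ j ∈ range n, (1 / 2 * (co K ((i : ℤ) - j + m) x +
        co K ((i : ℤ) - j - m) x)) := by
    funext x
    rw [Fj_eq_LAW, mul_assoc, sum_mul]
    congr 1
    refine sum_congr rfl fun i _ => ?_
    rw [sum_mul]
    exact sum_congr rfl fun j _ => coco_LAW _ _ _ _
  have e2 : ∀ i ∈ range n, ∀ j ∈ range n, av K (fun x => 1 / 2 * (co K ((i : ℤ) - j + m) x +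
        co K ((i : ℤ) - j - m) x)) = 1 / 2 * ((if ((i : ℤ) - j = -m) then (1 : ℝ) else 0) +
          (if ((i : ℤ) - j = m) then (1 : ℝ) else 0)) := by
    intro i hi j hj
    have hi' := mem_range.mp hi
    have hj' := mem_range.mp hj
    have h1 : |(i : ℤ) - j| < n := by rw [abs_lt]; omega
    have h2 : |(i : ℤ) - j + m| < 2 ^ K := lt_of_le_of_lt (abs_add_le _ _) (by linarith)
    have h3 : |(i : ℤ) - j - m| < 2 ^ K := lt_of_le_of_lt (abs_sub _ _) (by linarith)
    rw [av_mul_LAW, av_add_LAW, ho _ h2, ho _ h3]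
    have h4 : ((i : ℤ) - j + m = 0) ↔ ((i : ℤ) - j = -m) := by omega
    have h5 : ((i : ℤ) - j - m = 0) ↔ ((i : ℤ) - j = m) := by omega
    simp only [h4, h5]
  rw [e1, av_mul_LAW, av_sum_LAW]
  have e3 : ∑ i ∈ range n, av K (fun x => ∑ j ∈ range n, (1 / 2 * (co K ((i : ℤ) - j + m) x +
        co K ((i : ℤ) - j - m) x))) = max 0 ((n : ℝ) - |(m : ℝ)|) := by
    have e4 : ∀ i ∈ range n, av K (fun x => ∑ j ∈ range n, (1 / 2 * (co K ((i : ℤ) - j + m) x +
        co K ((i : ℤ) - j - m) x))) = ∑ j ∈ range n, (1 / 2 *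
          ((if ((i : ℤ) - j = -m) then (1 : ℝ) else 0) +
          (if ((i : ℤ) - j = m) then (1 : ℝ) else 0))) := by
      intro i hi
      rw [av_sum_LAW]
      exact sum_congr rfl fun j hj => e2 i hi j hj
    rw [sum_congr rfl e4]
    simp only [mul_add, sum_add_distrib, ← mul_sum]
    rw [count_LAW, count_LAW]
    push_cast
    rw [abs_neg]
    ring
  rw [e3]
  unfold tri
  rw [abs_div, abs_of_pos hn', max_comm, mul_max_of_nonneg _ _ (by positivity : (0 : ℝ) ≤ 1 / n),
    mul_zero]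
  congr 1
  field_simp

private theorem Ts_LAW (K n : ℕ) (m : ℤ) (h : |m| + n ≤ 2 ^ K) :
    av K (fun x => Fj_LAW K n x * si K m x) = 0 := by
  obtain ⟨-, ho, -⟩ := m_orth K
  have e1 : (fun x : ℕ => Fj_LAW K n x * si K m x) = fun x : ℕ => 1 / (n : ℝ) *
      ∑ i ∈ range n, ∑ j ∈ range n, (1 / 2 * (si K (m + ((i : ℤ) - j)) x +
        si K (m - ((i : ℤ) - j)) x)) := by
    funext x
    rw [Fj_eq_LAW, mul_assoc, sum_mul]
    congr 1
    refine sum_congr rfl fun i _ => ?_
    rw [sum_mul]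
    exact sum_congr rfl fun j _ => cosi_LAW _ _ _ _
  rw [e1, av_mul_LAW, av_sum_LAW]
  have e4 : ∀ i ∈ range n, av K (fun x => ∑ j ∈ range n, (1 / 2 * (si K (m + ((i : ℤ) - j)) x +
        si K (m - ((i : ℤ) - j)) x))) = 0 := by
    intro i hi
    rw [av_sum_LAW]
    refine sum_eq_zero fun j hj => ?_
    have hi' := mem_range.mp hi
    have hj' := mem_range.mp hj
    have h1 : |(i : ℤ) - j| < n := by rw [abs_lt]; omega
    have h2 : |m + ((i : ℤ) - j)| < 2 ^ K := lt_of_le_of_lt (abs_add_le _ _) (by linarith)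
    have h3 : |m - ((i : ℤ) - j)| < 2 ^ K := lt_of_le_of_lt (abs_sub _ _) (by linarith)
    rw [av_mul_LAW, av_add_LAW, ho _ h2, ho _ h3]
    ring
  rw [sum_congr rfl e4]
  simp

private theorem phi_tri_LAW (u : ℝ) : 2 * tri (u - 2) + tri (u - 3) = 2 * phi (u / 2) := by
  unfold tri phi
  rcases le_total u 1 with h1 | h1
  · rw [abs_of_nonpos (by linarith : u - 2 ≤ 0), abs_of_nonpos (by linarith : u - 3 ≤ 0),
      max_eq_right (by linarith), max_eq_right (by linarith), min_eq_left (by linarith),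
      max_eq_left (by linarith)]
    ring
  rcases le_total u 2 with h2 | h2
  · rw [abs_of_nonpos (by linarith : u - 2 ≤ 0), abs_of_nonpos (by linarith : u - 3 ≤ 0),
      max_eq_left (by linarith), max_eq_right (by linarith), min_eq_left (by linarith),
      max_eq_right (by linarith)]
    ring
  rcases le_total u 3 with h3 | h3
  · rw [abs_of_nonneg (by linarith : 0 ≤ u - 2), abs_of_nonpos (by linarith : u - 3 ≤ 0),
      max_eq_left (by linarith), max_eq_left (by linarith), min_eq_right (by linarith),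
      max_eq_right (by linarith)]
    ring
  rcases le_total u 4 with h4 | h4
  · rw [abs_of_nonneg (by linarith : 0 ≤ u - 2), abs_of_nonneg (by linarith : 0 ≤ u - 3),
      max_eq_right (by linarith), max_eq_left (by linarith), min_eq_right (by linarith),
      max_eq_right (by linarith)]
    ring
  · rw [abs_of_nonneg (by linarith : 0 ≤ u - 2), abs_of_nonneg (by linarith : 0 ≤ u - 3),
      max_eq_right (by linarith), max_eq_right (by linarith), min_eq_right (by linarith),
      max_eq_left (by linarith)]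
    ring

private theorem tri_neg_LAW (x : ℝ) : tri (-x) = tri x := by unfold tri; rw [abs_neg]

theorem p_LAW : St_LAW := by
  intro K a ha haK
  obtain ⟨b, rfl⟩ : ∃ b, a = b + 1 := ⟨a - 1, by omega⟩
  set n : ℕ := 2 ^ b with hndef
  have hn : 0 < n := by positivity
  have hn' : (0 : ℝ) < n := by exact_mod_cast hn
  have hP : (16 : ℤ) * n ≤ 2 ^ K := by
    have h1 : (2 : ℤ) ^ (b + 4) ≤ 2 ^ K := pow_le_pow_right₀ (by norm_num) (by omega)
    rw [pow_add] at h1
    rw [hndef]
    push_cast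
    linarith
  have h2a : (2 : ℝ) ^ (b + 1) = 2 * n := by
    rw [hndef]
    push_cast
    ring
  have hT := fun m hm => T_LAW K n m hn hm
  have hS := fun m hm => Ts_LAW K n m hm
  -- the average of F * (1 + 2/3 si(2n) + 1/3 si(3n)) * X
  have hsplit : ∀ X : ℕ → ℝ, ∑ s ∈ range (2 ^ K), (1 / 2 ^ K * (Fj_LAW K n s *
      (1 + 2 / 3 * si K ((2 * n : ℕ) : ℤ) s + 1 / 3 * si K ((3 * n : ℕ) : ℤ) s))) * X s =
      av K (fun s => Fj_LAW K n s * X s) +
      2 / 3 * av K (fun s => Fj_LAW K n s * (si K ((2 * n : ℕ) : ℤ) s * X s)) +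
      1 / 3 * av K (fun s => Fj_LAW K n s * (si K ((3 * n : ℕ) : ℤ) s * X s)) := by
    intro X
    rw [← av_mul_LAW, ← av_mul_LAW, ← av_add_LAW, ← av_add_LAW]
    unfold av
    rw [sum_div]
    refine sum_congr rfl fun s _ => ?_
    ring
  refine ⟨fun s => 1 / 2 ^ K * (Fj_LAW K n s *
      (1 + 2 / 3 * si K ((2 * n : ℕ) : ℤ) s + 1 / 3 * si K ((3 * n : ℕ) : ℤ) s)), ?_, ?_, ?_⟩
  · intro s
    have h1 : 0 ≤ Fj_LAW K n s := by
      unfold Fj_LAW
      positivity
    have h2 : -1 ≤ si K ((2 * n : ℕ) : ℤ) s := Real.neg_one_le_sin _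
    have h3 : -1 ≤ si K ((3 * n : ℕ) : ℤ) s := Real.neg_one_le_sin _
    have h4 : 0 ≤ 1 + 2 / 3 * si K ((2 * n : ℕ) : ℤ) s + 1 / 3 * si K ((3 * n : ℕ) : ℤ) s := by
      linarith
    positivity
  · have h1 := hsplit (fun _ => 1)
    simp only [mul_one] at h1
    rw [h1]
    have h2 : (fun s => Fj_LAW K n s) = fun s => Fj_LAW K n s * co K 0 s := by
      funext s
      unfold co
      simp
    have h3 : av K (fun s => Fj_LAW K n s) = 1 := by
      rw [h2, hT 0 (by simp only [abs_zero]; linarith)]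
      unfold tri
      simp
    have habs2 : |((2 * n : ℕ) : ℤ)| = 2 * n := by rw [abs_of_nonneg (by positivity)]; push_cast; ring
    have habs3 : |((3 * n : ℕ) : ℤ)| = 3 * n := by rw [abs_of_nonneg (by positivity)]; push_cast; ring
    rw [h3, hS _ (by rw [habs2]; linarith), hS _ (by rw [habs3]; linarith)]
    ring
  · intro h hh
    have hb : ∀ c : ℤ, |c| ≤ 3 * n → |c + h| + n ≤ 2 ^ K := by
      intro c hc
      have := abs_add_le c h
      linarith
    have hb' : ∀ c : ℤ, |c| ≤ 3 * n → |c - h| + n ≤ 2 ^ K := by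
      intro c hc
      have := abs_sub c h
      linarith
    have habs2 : |((2 * n : ℕ) : ℤ)| ≤ 3 * n := by
      rw [abs_of_nonneg (by positivity)]; push_cast; linarith
    have habs3 : |((3 * n : ℕ) : ℤ)| ≤ 3 * n := by
      rw [abs_of_nonneg (by positivity)]; push_cast; linarith
    have h0 : |h| + n ≤ 2 ^ K := by
      have := abs_nonneg h
      linarith
    constructor
    · rw [hsplit (fun s => co K h s), hT h h0]
      have e1 : ∀ c : ℤ, |c| ≤ 3 * n →
          av K (fun s => Fj_LAW K n s * (si K c s * co K h s)) = 0 := by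
        intro c hc
        have e2 : (fun s : ℕ => Fj_LAW K n s * (si K c s * co K h s)) = fun s : ℕ =>
            1 / 2 * (Fj_LAW K n s * si K (c + h) s + Fj_LAW K n s * si K (c - h) s) := by
          funext s
          rw [mul_comm (si K c s), cosi_LAW]
          ring
        rw [e2, av_mul_LAW, av_add_LAW, hS _ (hb c hc), hS _ (hb' c hc)]
        ring
      rw [e1 _ habs2, e1 _ habs3]
      unfold PP
      rw [h2a]
      have : (h : ℝ) / n = 2 * h / (2 * n) := by field_simp
      rw [this]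
      ring
    · rw [hsplit (fun s => si K h s), hS h h0]
      have e1 : ∀ c : ℤ, |c| ≤ 3 * n →
          av K (fun s => Fj_LAW K n s * (si K c s * si K h s)) =
            1 / 2 * (tri (((c - h : ℤ) : ℝ) / n) - tri (((c + h : ℤ) : ℝ) / n)) := by
        intro c hc
        have e2 : (fun s : ℕ => Fj_LAW K n s * (si K c s * si K h s)) = fun s : ℕ =>
            1 / 2 * (Fj_LAW K n s * co K (c - h) s - Fj_LAW K n s * co K (c + h) s) := by
          funext s
          rw [sisi_LAW]
          ring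
        rw [e2, av_mul_LAW, av_sub_LAW, hT _ (hb c hc), hT _ (hb' c hc)]
      rw [e1 _ habs2, e1 _ habs3]
      unfold QQ
      rw [h2a]
      have hu := phi_tri_LAW ((h : ℝ) / n)
      have hv := phi_tri_LAW (-((h : ℝ) / n))
      have e3 : (h : ℝ) / n / 2 = h / (2 * n) := by field_simp
      have e4 : -((h : ℝ) / n) / 2 = -(h / (2 * n)) := by field_simp
      rw [e3] at hu
      rw [e4] at hv
      have f1 : ((((2 * n : ℕ) : ℤ) - h : ℤ) : ℝ) / n = -((h : ℝ) / n - 2) := by
        push_cast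
        field_simp
        ring
      have f2 : ((((2 * n : ℕ) : ℤ) + h : ℤ) : ℝ) / n = -(-((h : ℝ) / n) - 2) := by
        push_cast
        field_simp
        ring
      have f3 : ((((3 * n : ℕ) : ℤ) - h : ℤ) : ℝ) / n = -((h : ℝ) / n - 3) := by
        push_cast
        field_simp
        ring
      have f4 : ((((3 * n : ℕ) : ℤ) + h : ℤ) : ℝ) / n = -(-((h : ℝ) / n) - 3) := by
        push_cast
        field_simp
        ring
      rw [f1, f2, f3, f4]
      simp only [tri_neg_LAW]
      linarith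

end Pool.Agent.Helper56.OS
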