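import Pool.Agent.Helper56.OS.StB
import Pool.Agent.Helper56.OS.StA

set_option autoImplicit false

open Finset

namespace Pool.Agent.Helper56.OS

private theorem near_LBC (E P y0 ω ω0 : ℕ) (hE : 0 < E) (hP : 16 * E ≤ P)
    (h1 : (ω0 + y0) / E ≤ (ω + y0) / E + 1) (h2 : (ω + y0) / E ≤ (ω0 + y0) / E + 1)
    (h3 : P < 2 * ω0) (h4 : ω0 < 2 * P) : P ≤ 4 * ω ∧ ω ≤ 4 * P := by
  have a1 := Nat.div_mul_le_self (ω + y0) E
  have a2 := Nat.lt_div_mul_add hE (a := ω + y0)
  have b1 := Nat.div_mul_le_self (ω0 + y0) E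
  have b2 := Nat.lt_div_mul_add hE (a := ω0 + y0)
  have c1 := Nat.mul_le_mul_right E h1
  have c2 := Nat.mul_le_mul_right E h2
  rw [Nat.add_mul, one_mul] at c1 c2
  omega

theorem p_LBC (hCCS : S_CCS) : St_LBC := by
  classical
  intro K H T b Ω al q μ Q hF hH hQ y0 i l hl hi
  obtain ⟨hcc, -⟩ := hCCS
  have hd : 1 ≤ 2 ^ i := Nat.one_le_two_pow
  have hc := (hcc (2 ^ i) l hd (by omega)).1
  have hsep := hF.sep (cc (2 ^ i) l) l (by omega) hl
  have hμ := hF.mu0
  have hthr : 0 < Q / (2 ^ i * μ) := by positivity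
  obtain ⟨thr, hthre⟩ : ∃ thr : ℝ, thr = Q / (2 ^ i * μ) := ⟨_, rfl⟩
  obtain ⟨e, he⟩ : ∃ e : ℕ, e = al (cc (2 ^ i) l) := ⟨_, rfl⟩
  have hPE : 16 * 2 ^ e ≤ 2 ^ (al l) := by
    have h1 : e + 4 ≤ al l := by rw [he]; omega
    calc 16 * 2 ^ e = 2 ^ (e + 4) := by rw [pow_add]; ring
      _ ≤ 2 ^ (al l) := Nat.pow_le_pow_right (by norm_num) h1
  rw [← hthre] at hthr ⊢
  -- the large labels
  obtain ⟨B', hB'⟩ : ∃ B' : Finset ℕ, B' = (Ω.image (lb e y0)).filter (fun t' =>
      thr < aI b Ω e y0 t' ∧ ∃ ω0 ∈ Oct Ω (al l), lb e y0 ω0 ≤ t' + 1 ∧ t' ≤ lb e y0 ω0 + 1) :=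
    ⟨_, rfl⟩
  have hsub : Lb b Ω al Q μ y0 i l ⊆ B'.biUnion (fun t' => {t' - 1, t', t' + 1}) := by
    intro t ht
    unfold Lb at ht
    rw [← hthre, ← he, mem_filter, mem_image] at ht
    obtain ⟨⟨ω0, hω0, rfl⟩, t', ⟨h1, h2⟩, h3⟩ := ht
    rw [mem_biUnion]
    refine ⟨t', ?_, ?_⟩
    · rw [hB', mem_filter]
      refine ⟨?_, h3, ω0, hω0, h1, h2⟩
      rw [mem_image]
      by_contra hne
      push Not at hne
      have h4 : aI b Ω e y0 t' = 0 := by
        unfold aI
        refine sum_eq_zero fun ω hω => ?_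
        rw [mem_filter] at hω
        exact absurd hω.2 (hne ω hω.1)
      rw [h4] at h3
      linarith
    · simp only [mem_insert, mem_singleton]
      omega
  have hcard : (Lb b Ω al Q μ y0 i l).card ≤ B'.card * 3 :=
    (card_le_card hsub).trans (card_biUnion_le_card_mul _ _ _ fun t' _ => card_le_three)
  have hsum : (B'.card : ℝ) * thr ≤ Bm b Ω (al l) := by
    calc (B'.card : ℝ) * thr = ∑ _t' ∈ B', thr := by rw [sum_const, nsmul_eq_mul]
      _ ≤ ∑ t' ∈ B', aI b Ω e y0 t' := by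
          refine sum_le_sum fun t' ht' => ?_
          rw [hB', mem_filter] at ht'
          exact ht'.2.1.le
      _ = ∑ t' ∈ B', ∑ ω ∈ (Ω.filter (fun ω => lb e y0 ω ∈ B')) with lb e y0 ω = t', |b ω| := by
          refine sum_congr rfl fun t' ht' => ?_
          unfold aI
          refine sum_congr ?_ fun _ _ => rfl
          ext ω
          simp only [mem_filter]
          constructor
          · rintro ⟨h1, h2⟩
            exact ⟨⟨h1, by rw [h2]; exact ht'⟩, h2⟩
          · rintro ⟨⟨h1, -⟩, h2⟩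
            exact ⟨h1, h2⟩
      _ = ∑ ω ∈ Ω.filter (fun ω => lb e y0 ω ∈ B'), |b ω| := by
          refine sum_fiberwise_of_maps_to (fun ω hω => ?_) _
          rw [mem_filter] at hω
          exact hω.2
      _ ≤ Bm b Ω (al l) := by
          unfold Bm
          refine sum_le_sum_of_subset_of_nonneg ?_ fun _ _ _ => abs_nonneg _
          intro ω hω
          rw [mem_filter] at hω ⊢
          obtain ⟨h1, h2⟩ := hω
          rw [hB', mem_filter] at h2
          obtain ⟨-, -, ω0, hω0, h3, h4⟩ := h2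
          unfold Oct at hω0
          rw [mem_filter] at hω0
          have h5 := hω0.2.2
          rw [pow_succ] at h5
          have h6 := near_LBC (2 ^ e) (2 ^ (al l)) y0 ω ω0 (by positivity) hPE h3 h4 hω0.2.1
            (by omega)
          refine ⟨h1, h6.1, ?_⟩
          rw [pow_add]
          omega
  calc ((Lb b Ω al Q μ y0 i l).card : ℝ) * thr ≤ (B'.card * 3 : ℝ) * thr := by
        refine mul_le_mul_of_nonneg_right ?_ hthr.le
        exact_mod_cast hcard
    _ = 3 * (B'.card * thr) := by ring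
    _ ≤ 3 * Bm b Ω (al l) := by linarith

end Pool.Agent.Helper56.OS
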