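import Pool.Agent.Helper56.OS.StC

/-! # Project OS (MP_9a0a6c_an): module LND

Landing masses. -/

set_option autoImplicit false

open Finset

namespace Pool.Agent.Helper56.OS

open Pool.Agent.Helper57.SN (Spn)

private lemma spn_sub_LND {m : ℕ} {D : Finset ℕ} {g g' : ℤ} (h : Spn m D g)
    (h' : Spn m D g') : Spn (2 * m) D (g - g') := by
  obtain ⟨c, hc, rfl⟩ := h
  obtain ⟨c', hc', rfl⟩ := h'
  refine ⟨fun d => c d - c' d, fun d => ?_, ?_⟩
  · have h1 := abs_sub (c d) (c' d)
    have h2 := hc d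
    have h3 := hc' d
    push_cast
    linarith
  · rw [← Finset.sum_sub_distrib]
    apply Finset.sum_congr rfl
    intro d _
    ring

private lemma spn_le_LND {m R X : ℕ} {D : Finset ℕ} {g : ℤ} (h : Spn m D g) (hR : D.card ≤ R)
    (hX : ∀ d ∈ D, d ≤ X) : g ≤ (R : ℤ) * (m * X) := by
  obtain ⟨c, hc, rfl⟩ := h
  calc ∑ d ∈ D, c d * (d : ℤ) ≤ ∑ _d ∈ D, ((m : ℤ) * X) := by
        apply sum_le_sum
        intro d hd
        have h1 : c d ≤ m := (le_abs_self _).trans (hc d)
        have h2 : (d : ℤ) ≤ X := by exact_mod_cast hX d hd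
        have h3 : (0 : ℤ) ≤ d := Int.natCast_nonneg d
        have h4 : (0 : ℤ) ≤ m := Int.natCast_nonneg m
        calc c d * (d : ℤ) ≤ m * d := mul_le_mul_of_nonneg_right h1 h3
          _ ≤ m * X := mul_le_mul_of_nonneg_left h2 h4
    _ = (D.card : ℤ) * (m * X) := by rw [sum_const, nsmul_eq_mul]
    _ ≤ (R : ℤ) * (m * X) := by
        apply mul_le_mul_of_nonneg_right _ (by positivity)
        exact_mod_cast hR

private lemma two_LND {H m0 : ℕ} {D : Finset ℕ} {γ : ℤ} {a a' : ℕ} (h : a + 5 ≤ a')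
    (h1 : LandN m0 D a γ) (h2 : LandN m0 D a' γ) : HitW H m0 D a' := by
  obtain ⟨-, g, hg, h1a, h1b⟩ := h1
  obtain ⟨-, g', hg', h2a, h2b⟩ := h2
  have e0 : (2 : ℤ) ^ (a + 2) * 8 ≤ 2 ^ a' := by
    calc (2 : ℤ) ^ (a + 2) * 8 = 2 ^ (a + 5) := by rw [pow_add, pow_add]; ring
      _ ≤ 2 ^ a' := pow_le_pow_right₀ (by norm_num) h
  have e1 : (2 : ℤ) ^ (a' + 2) = 4 * 2 ^ a' := by rw [pow_add]; ring
  have t1 : |γ - g'| ≤ |γ - g| + |g - g'| := by
    have : γ - g' = (γ - g) + (g - g') := by ring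
    rw [this]
    exact abs_add_le _ _
  have t2 : |g - g'| ≤ |γ - g'| + |γ - g| := by
    have : g - g' = (γ - g') - (γ - g) := by ring
    rw [this]
    exact abs_sub _ _
  have hpos : (0 : ℤ) < 2 ^ a' := by positivity
  have hH : (1 : ℤ) ≤ 2 ^ H := one_le_pow₀ (by norm_num)
  refine ⟨g - g', spn_sub_LND hg hg', ?_, ?_⟩
  · have e2 : (2 : ℤ) ^ (H + 4) = 16 * 2 ^ H := by rw [pow_add]; ring
    rw [e2]
    have h3 : (2 : ℤ) ^ a' ≤ 8 * |g - g'| := by linarith
    have h4 : (8 : ℤ) * |g - g'| ≤ 16 * 2 ^ H * |g - g'| := by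
      apply mul_le_mul_of_nonneg_right _ (abs_nonneg _)
      linarith
    linarith
  · have e2 : (2 : ℤ) ^ (a' + H + 4) = 16 * 2 ^ H * 2 ^ a' := by rw [pow_add, pow_add]; ring
    rw [e2]
    have h4 : (16 : ℤ) * 2 ^ a' ≤ 16 * 2 ^ H * 2 ^ a' := by
      apply mul_le_mul_of_nonneg_right _ hpos.le
      linarith
    linarith

open Classical in
private lemma five_LND (H m0 : ℕ) (D W : Finset ℕ) (γ : ℤ) :
    ((W.filter (fun a => ¬ HitW H m0 D a)).filter (fun a => LandN m0 D a γ)).card ≤ 5 := by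
  set S := (W.filter (fun a => ¬ HitW H m0 D a)).filter (fun a => LandN m0 D a γ) with hS
  rcases S.eq_empty_or_nonempty with h | h
  · rw [h, card_empty]
    norm_num
  · have hsub : S ⊆ Icc (S.min' h) (S.min' h + 4) := by
      intro a ha
      have h1 := S.min'_le a ha
      have h2 := S.min'_mem h
      rw [mem_Icc]
      refine ⟨h1, ?_⟩
      by_contra hlt
      push Not at hlt
      have ha' := mem_filter.1 ha
      have hb' := mem_filter.1 h2
      exact (mem_filter.1 ha'.1).2 (two_LND (by omega) hb'.2 ha'.2)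
    refine (card_le_card hsub).trans ?_
    rw [Nat.card_Icc]
    omega

theorem p_LND (hOCC : St_OCC) : St_LND := by
  classical
  intro H R m0 D W Ω b hH hD hm
  refine ⟨?_, ?_⟩
  · calc ∑ a ∈ W.filter (fun a => ¬ HitW H m0 D a),
          ∑ ω ∈ Ω.filter (fun ω : ℕ => LandN m0 D a (ω : ℤ)), |b ω|
        = ∑ ω ∈ Ω, ∑ a ∈ W.filter (fun a => ¬ HitW H m0 D a),
            (if LandN m0 D a (ω : ℤ) then |b ω| else 0) := by
          rw [sum_comm]
          apply sum_congr rfl
          intro a _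
          rw [sum_filter]
      _ ≤ ∑ ω ∈ Ω, 5 * (if ∃ a ∈ W, LandN m0 D a (ω : ℤ) then |b ω| else 0) := by
          apply sum_le_sum
          intro ω _
          rw [← sum_filter, sum_const, nsmul_eq_mul]
          have h5 := five_LND H m0 D W (ω : ℤ)
          split_ifs with hex
          · apply mul_le_mul_of_nonneg_right _ (abs_nonneg _)
            exact_mod_cast h5
          · have h0 : (W.filter (fun a => ¬ HitW H m0 D a)).filter
                (fun a => LandN m0 D a (ω : ℤ)) = ∅ := by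
              rw [filter_eq_empty_iff]
              intro a ha hla
              exact hex ⟨a, (mem_filter.1 ha).1, hla⟩
            rw [h0]
            simp
      _ = 5 * ∑ ω ∈ Ω.filter (fun ω : ℕ => ∃ a ∈ W, LandN m0 D a (ω : ℤ)), |b ω| := by
          rw [← mul_sum, sum_filter]
  · intro A1 A2 X1 Int Ei hX1 hHA hW hDX hX hInt
    set Ω' : Finset ℕ := Ω.filter (fun ω : ℕ => ∃ a ∈ W, LandN m0 D a (ω : ℤ)) with hΩ'
    have hcho : ∀ ω ∈ Ω', ∃ g : ℤ, Spn m0 D g ∧ 3 * (ω : ℤ) ≤ 4 * g ∧ 4 * g ≤ 5 * (ω : ℤ) ∧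
        2 ^ A1 ≤ ω := by
      intro ω hω
      obtain ⟨-, a, haW, h1, g, hg, h2, h3⟩ := mem_filter.1 hω
      have e1 : (2 : ℤ) ^ (a + 4) = 4 * 2 ^ (a + 2) := by rw [pow_add, pow_add]; ring
      have h4 := abs_le.1 h3
      refine ⟨g, hg, by linarith [h4.2], by linarith [h4.1], ?_⟩
      have h5 : (2 : ℤ) ^ A1 ≤ 2 ^ (a + 4) := pow_le_pow_right₀ (by norm_num) (hW a haW)
      have h6 : (2 : ℤ) ^ A1 ≤ (ω : ℤ) := h5.trans h1
      exact_mod_cast h6
    choose! g hg1 hg2 hg3 hg4 using hcho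
    have hpos : ∀ ω ∈ Ω', 1 ≤ ω := fun ω hω => Nat.one_le_two_pow.trans (hg4 ω hω)
    have hlog : ∀ ω ∈ Ω', 2 ^ Nat.log 2 ω ≤ ω ∧ ω < 2 ^ (Nat.log 2 ω + 1) := by
      intro ω hω
      have h1 := hpos ω hω
      exact ⟨Nat.pow_log_le_self 2 (by omega), Nat.lt_pow_succ_log_self (by norm_num) ω⟩
    have hgpos : ∀ ω ∈ Ω', 1 ≤ (g ω).toNat ∧ ((g ω).toNat : ℤ) = g ω := by
      intro ω hω
      have h1 := hpos ω hω
      have h2 := hg2 ω hω
      omega
    have hglog : ∀ ω ∈ Ω', 2 ^ Nat.log 2 (g ω).toNat ≤ (g ω).toNat ∧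
        (g ω).toNat < 2 ^ (Nat.log 2 (g ω).toNat + 1) := by
      intro ω hω
      have h1 := (hgpos ω hω).1
      exact ⟨Nat.pow_log_le_self 2 (by omega), Nat.lt_pow_succ_log_self (by norm_num) _⟩
    set G : Finset ℕ := Ω'.image (fun ω => Nat.log 2 (g ω).toNat) with hG
    set E : Finset ℕ := Ω'.image (Nat.log 2) with hE
    have hGc : G.card ≤ 3 * (H * R) := by
      apply hOCC H R m0 D hD _ G
      · intro e he
        obtain ⟨ω, hω, rfl⟩ := mem_image.1 he
        refine ⟨g ω, hg1 ω hω, ?_, ?_⟩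
        · have h1 := (hglog ω hω).1
          rw [← (hgpos ω hω).2]
          exact_mod_cast h1
        · have h1 := (hglog ω hω).2
          rw [← (hgpos ω hω).2]
          exact_mod_cast h1
      · have h1 : 2 * (H * R + 1) * m0 ≤ 2 * (H * R + 1) * (2 * m0) :=
          Nat.mul_le_mul_left _ (by omega)
        omega
    have hEc : E.card ≤ 9 * (H * R) := by
      have hsub : E ⊆ G.biUnion (fun e => {e - 1, e, e + 1}) := by
        intro e' he'
        obtain ⟨ω, hω, rfl⟩ := mem_image.1 he'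
        rw [mem_biUnion]
        refine ⟨Nat.log 2 (g ω).toNat, mem_image_of_mem _ hω, ?_⟩
        obtain ⟨h1, h2⟩ := hlog ω hω
        obtain ⟨h3, h4⟩ := hglog ω hω
        have h5 := (hgpos ω hω).2
        have h6 := hg2 ω hω
        have h7 := hg3 ω hω
        have h8 : 3 * ω ≤ 4 * (g ω).toNat := by omega
        have h9 : 4 * (g ω).toNat ≤ 5 * ω := by omega
        have k1 : Nat.log 2 ω < Nat.log 2 (g ω).toNat + 2 := by
          rw [← Nat.pow_lt_pow_iff_right (a := 2) (by norm_num)]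
          have : 2 ^ (Nat.log 2 (g ω).toNat + 2) = 2 * 2 ^ (Nat.log 2 (g ω).toNat + 1) := by
            rw [pow_succ]
            ring
          rw [this]
          omega
        have k2 : Nat.log 2 (g ω).toNat < Nat.log 2 ω + 2 := by
          rw [← Nat.pow_lt_pow_iff_right (a := 2) (by norm_num)]
          have : 2 ^ (Nat.log 2 ω + 2) = 2 * 2 ^ (Nat.log 2 ω + 1) := by
            rw [pow_succ]
            ring
          rw [this]
          omega
        simp only [mem_insert, mem_singleton]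
        omega
      refine (card_le_card hsub).trans (card_biUnion_le.trans ?_)
      calc ∑ e ∈ G, ({e - 1, e, e + 1} : Finset ℕ).card ≤ ∑ _e ∈ G, 3 :=
            sum_le_sum fun e _ => card_le_three
        _ = G.card * 3 := by rw [sum_const, smul_eq_mul]
        _ ≤ 9 * (H * R) := by omega
    have hA : ∀ e ∈ E, A1 ≤ e ∧ e ≤ A2 := by
      intro e he
      obtain ⟨ω, hω, rfl⟩ := mem_image.1 he
      obtain ⟨h1, h2⟩ := hlog ω hω
      refine ⟨?_, ?_⟩
      · have h3 : 2 ^ A1 < 2 ^ (Nat.log 2 ω + 1) := lt_of_le_of_lt (hg4 ω hω) h2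
        have := (Nat.pow_lt_pow_iff_right (a := 2) (by norm_num)).1 h3
        omega
      · have h3 : g ω ≤ (R : ℤ) * (m0 * (2 ^ (A2 - H) : ℕ)) :=
          spn_le_LND (hg1 ω hω) hD (fun d hd => (hDX d hd).le)
        have h4 : 4 * (R * m0) ≤ 2 ^ H := by
          have k1 : R ≤ H * R := by
            have : 1 * R ≤ H * R := Nat.mul_le_mul_right _ (by omega)
            omega
          have k2 : 4 * (R * m0) ≤ 2 * (H * R + 1) * (2 * m0) := by
            calc 4 * (R * m0) = 4 * m0 * R := by ring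
              _ ≤ 4 * m0 * (H * R + 1) := Nat.mul_le_mul_left _ (by omega)
              _ = 2 * (H * R + 1) * (2 * m0) := by ring
          omega
        have h5 : 4 * ((R : ℤ) * (m0 * (2 ^ (A2 - H) : ℕ))) ≤ 2 ^ A2 := by
          have k3 : 4 * (R * (m0 * 2 ^ (A2 - H))) ≤ 2 ^ A2 := by
            calc 4 * (R * (m0 * 2 ^ (A2 - H))) = 4 * (R * m0) * 2 ^ (A2 - H) := by ring
              _ ≤ 2 ^ H * 2 ^ (A2 - H) := Nat.mul_le_mul_right _ h4
              _ = 2 ^ A2 := by rw [← pow_add, Nat.add_sub_cancel' hHA]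
          exact_mod_cast k3
        have h6 := hg2 ω hω
        have h7 : (ω : ℤ) < 2 ^ (A2 + 1) := by
          have : (2 : ℤ) ^ (A2 + 1) = 2 * 2 ^ A2 := by rw [pow_succ]; ring
          have hp : (0 : ℤ) < 2 ^ A2 := by positivity
          rw [this]
          linarith
        have h8 : ω < 2 ^ (A2 + 1) := by exact_mod_cast h7
        have := (Nat.pow_lt_pow_iff_right (a := 2) (by norm_num)).1 (lt_of_le_of_lt h1 h8)
        omega
    have hsum : ∑ ω ∈ Ω', |b ω| = ∑ e ∈ E, ∑ ω ∈ Ω' with Nat.log 2 ω = e, |b ω| :=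
      (sum_fiberwise_of_maps_to (fun ω hω => mem_image_of_mem _ hω) _).symm
    rw [hsum]
    set S : ℕ → ℝ := fun e =>
      ∑ ω ∈ Ω.filter (fun ω : ℕ => 2 ^ e ≤ ω ∧ ω < 2 ^ (e + 1)), |b ω| with hSdef
    have hS0 : ∀ e, 0 ≤ S e := fun e => sum_nonneg fun ω _ => abs_nonneg _
    have h1 : ∀ e ∈ E, ∑ ω ∈ Ω' with Nat.log 2 ω = e, |b ω| ≤
        X1 + (if e ∈ Ei then S e else 0) := by
      intro e he
      have h2 : ∑ ω ∈ Ω' with Nat.log 2 ω = e, |b ω| ≤ S e := by
        apply sum_le_sum_of_subset_of_nonneg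
        · intro ω hω
          obtain ⟨k1, k2⟩ := mem_filter.1 hω
          refine mem_filter.2 ⟨(mem_filter.1 k1).1, ?_⟩
          rw [← k2]
          exact hlog ω k1
        · intro ω _ _
          exact abs_nonneg _
      split_ifs with hei
      · linarith
      · have := hX e (hA e he).1 (hA e he).2 hei
        linarith
    refine (sum_le_sum h1).trans ?_
    rw [sum_add_distrib, sum_const, nsmul_eq_mul, ← sum_filter]
    apply add_le_add
    · apply mul_le_mul_of_nonneg_right _ hX1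
      exact_mod_cast hEc
    · refine le_trans ?_ hInt
      apply sum_le_sum_of_subset_of_nonneg
      · intro e he
        exact (mem_filter.1 he).2
      · intro e _ _
        exact hS0 e

end Pool.Agent.Helper56.OS
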