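import Pool.Agent.Helper56.OS.StA

/-! # Project OS, module LOS: loss of the cut-offs. -/

set_option autoImplicit false

open Finset

namespace Pool.Agent.Helper56.OS

open Pool.Agent.Helper56.SS (Fil Dat Hyp E)

open Classical in
/-- the indicator of the stopping event -/
private noncomputable def T_LOS {Ω : Type} [Fintype Ω] (d : Dat Ω) (h : ℝ) (l : ℕ) (w : Ω) : ℝ :=
  if h < ∑ i ∈ d.G.filter (fun i => i < l), d.th i w * d.sg i w then 1 else 0

private theorem T_nonneg_LOS {Ω : Type} [Fintype Ω] (d : Dat Ω) (h : ℝ) (l : ℕ) (w : Ω) :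
    0 ≤ T_LOS d h l w := by
  unfold T_LOS
  split_ifs <;> norm_num

private theorem T_le_LOS {Ω : Type} [Fintype Ω] (d : Dat Ω) (h : ℝ) (l : ℕ) (w : Ω) :
    T_LOS d h l w ≤ 1 := by
  unfold T_LOS
  split_ifs <;> norm_num

private theorem th_stp_LOS {Ω : Type} [Fintype Ω] (d : Dat Ω) (h : ℝ) (hd : HypS d) (l : ℕ)
    (w : Ω) : 1 - (stp d h).th l w ≤ (1 - d.th l w) + T_LOS d h l w := by
  have h1 : 0 ≤ 1 - d.th l w := by
    rcases hd.th01 l w with e | e <;> rw [e] <;> norm_num
  unfold T_LOS stp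
  dsimp only
  by_cases hs : ∑ i ∈ d.G.filter (fun i => i < l), d.th i w * d.sg i w ≤ h
  · rw [if_pos hs, if_neg (not_lt.mpr hs)]
    linarith
  · rw [if_neg hs, if_pos (not_le.mp hs)]
    linarith

theorem p_LOS : S_LOS := by
  intro hSTP hQV hMOM hHOL hFU hSTL Ω _ _ d h Vu δ z hd hh hVu hδ hδ4 hδh hz
  have hkap := hd.kap_pos
  obtain ⟨he, hsum, -, -⟩ := hSTP Ω d h hd hh.le
  have w₀ : Ω := Classical.arbitrary Ω
  have hB0 : 0 ≤ d.B0 := (abs_nonneg _).trans (hd.D_le 0 w₀)
  have hRpos : ∀ l w, 0 < (stp d h).R l w := fun l w => he.R_pos l w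
  have hRm : ∀ l, d.F.Meas l ((stp d h).R l) := fun l => he.R_meas l
  have hthm : ∀ l, d.F.Meas l ((stp d h).th l) := fun l => he.th_meas l
  have hth1 : ∀ l w, (stp d h).th l w ≤ 1 := fun l w => he.th_le_one l w
  -- size of the conditional average
  have hCb : ∀ l w, |d.F.C l (fun v => d.f v * d.D l v) w| ≤ d.B0 := by
    intro l w
    have hfd : ∀ v, |d.f v * d.D l v| ≤ d.B0 := by
      intro v
      rw [abs_mul]
      calc |d.f v| * |d.D l v| ≤ 1 * d.B0 :=
            mul_le_mul (hd.f_le v) (hd.D_le l v) (abs_nonneg _) zero_le_one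
        _ = d.B0 := one_mul _
    rw [abs_le]
    constructor
    · have h1 : d.F.C l (fun _ => -d.B0) w ≤ d.F.C l (fun v => d.f v * d.D l v) w :=
        d.F.C_mono (fun v => (abs_le.mp (hfd v)).1) w
      rwa [d.F.C_const] at h1
    · have h1 : d.F.C l (fun v => d.f v * d.D l v) w ≤ d.F.C l (fun _ => d.B0) w :=
        d.F.C_mono (fun v => (abs_le.mp (hfd v)).2) w
      rwa [d.F.C_const] at h1
  -- one level
  have hlev : ∀ l ∈ d.G, E (fun w => (stp d h).R l w * d.F.C l (fun v => d.f v * d.D l v) w) ≤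
      E (fun w => (stp d h).R l w * ((stp d h).th l w * (d.f w * d.D l w))) +
      3 * d.B0 * z ^ (δ / (1 + δ)) +
      E (fun w => ((stp d h).R l w * T_LOS d h l w) *
        |d.F.C l (fun v => d.f v * d.D l v) w|) := by
    intro l hl
    have e1 : E (fun w => (stp d h).R l w * ((stp d h).th l w * (d.f w * d.D l w))) =
        E (fun w => ((stp d h).R l w * (stp d h).th l w) *
          d.F.C l (fun v => d.f v * d.D l v) w) := by
      rw [d.F.E_mul_C ((hRm l).mul (hthm l))]
      congr 1
      funext w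
      ring
    have e2 : E (fun w => (stp d h).R l w * d.F.C l (fun v => d.f v * d.D l v) w) ≤
        E (fun w => ((stp d h).R l w * (stp d h).th l w) *
          d.F.C l (fun v => d.f v * d.D l v) w) +
        (d.B0 * E (fun w => (stp d h).R l w * (1 - d.th l w)) +
        E (fun w => ((stp d h).R l w * T_LOS d h l w) *
          |d.F.C l (fun v => d.f v * d.D l v) w|)) := by
      rw [← Pool.Agent.Helper56.SS.E_mul_left, ← Pool.Agent.Helper56.SS.E_add,
        ← Pool.Agent.Helper56.SS.E_add]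
      refine Pool.Agent.Helper56.SS.E_mono fun w => ?_
      have hR := hRpos l w
      have h1 := th_stp_LOS d h hd l w
      have h2 := hth1 l w
      have h3 := hCb l w
      have h4 : 0 ≤ 1 - d.th l w := by
        rcases hd.th01 l w with e | e <;> rw [e] <;> norm_num
      have h5 := T_nonneg_LOS d h l w
      set c := d.F.C l (fun v => d.f v * d.D l v) w with hc
      have h6 : (1 - (stp d h).th l w) * c ≤ (1 - (stp d h).th l w) * |c| :=
        mul_le_mul_of_nonneg_left (le_abs_self c) (by linarith)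
      have h7 : (1 - (stp d h).th l w) * |c| ≤ ((1 - d.th l w) + T_LOS d h l w) * |c| :=
        mul_le_mul_of_nonneg_right h1 (abs_nonneg c)
      have h8 : (1 - d.th l w) * |c| ≤ (1 - d.th l w) * d.B0 :=
        mul_le_mul_of_nonneg_left h3 h4
      have h9 : (1 - (stp d h).th l w) * c ≤ (1 - d.th l w) * d.B0 + T_LOS d h l w * |c| := by
        calc (1 - (stp d h).th l w) * c ≤ ((1 - d.th l w) + T_LOS d h l w) * |c| := h6.trans h7
          _ = (1 - d.th l w) * |c| + T_LOS d h l w * |c| := by ring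
          _ ≤ _ := by linarith
      have h10 := mul_le_mul_of_nonneg_left h9 hR.le
      have h11 : (stp d h).R l w * ((1 - (stp d h).th l w) * c) =
          (stp d h).R l w * c - (stp d h).R l w * (stp d h).th l w * c := by ring
      have h12 : (stp d h).R l w * ((1 - d.th l w) * d.B0 + T_LOS d h l w * |c|) =
          d.B0 * ((stp d h).R l w * (1 - d.th l w)) +
            (stp d h).R l w * T_LOS d h l w * |c| := by ring
      rw [h11, h12] at h10
      linarith
    have e3 : E (fun w => (stp d h).R l w * (1 - d.th l w)) ≤ 3 * z ^ (δ / (1 + δ)) := by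
      have hm := hMOM Ω (stp d h) (h + d.kap ^ 2) he hsum δ hδ hδ4 hδh l
      have h1 := hHOL Ω ((stp d h).R l) (fun w => 1 - d.th l w) δ hδ hδ4
        (fun w => (hRpos l w).le) hm
        (fun w => by rcases hd.th01 l w with e | e <;> rw [e] <;> norm_num)
        (fun w => by rcases hd.th01 l w with e | e <;> rw [e] <;> norm_num)
      refine h1.trans ?_
      have h2 : 0 ≤ E (fun w => 1 - d.th l w) := Pool.Agent.Helper56.SS.E_nonneg
        (fun w => by rcases hd.th01 l w with e | e <;> rw [e] <;> norm_num)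
      have h3 : (E (fun w => 1 - d.th l w)) ^ (δ / (1 + δ)) ≤ z ^ (δ / (1 + δ)) :=
        Real.rpow_le_rpow h2 (hz l hl) (by positivity)
      linarith
    have e4 := mul_le_mul_of_nonneg_left e3 hB0
    rw [e1]
    calc E (fun w => (stp d h).R l w * d.F.C l (fun v => d.f v * d.D l v) w) ≤ _ := e2
      _ ≤ _ := by linarith
  -- the part of the stopping
  have hT : ∑ l ∈ d.G, E (fun w => ((stp d h).R l w * T_LOS d h l w) *
      |d.F.C l (fun v => d.f v * d.D l v) w|) ≤ Vu / Real.sqrt h := by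
    have h1 := (hFU Ω d.F d.f d.D d.G (fun l _ => hd.D_meas l) (fun l _ w => hd.D_zero l w)).2
      (fun l => l) (fun l w => (stp d h).R l w * T_LOS d h l w) (fun l _ => le_refl l)
      (fun l w => mul_nonneg (hRpos l w).le (T_nonneg_LOS d h l w))
    have hVu0 : 0 ≤ Vu := by
      refine le_trans (sum_nonneg fun l _ => ?_) hVu
      exact Pool.Agent.Helper56.SS.E_nonneg fun w =>
        mul_nonneg (hRpos l w).le (d.F.C_nonneg (fun _ => sq_nonneg _) w)
    have h2 : ∑ l ∈ d.G, E (fun w => ((stp d h).R l w * T_LOS d h l w) *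
        d.F.C l (fun v => dM d.F d.f l v ^ 2) w) ≤ Vu / h := by
      obtain ⟨n, hn⟩ : ∃ n, d.G ⊆ range n := ⟨d.G.sup id + 1, fun i hi => by
        rw [mem_range]
        exact Nat.lt_succ_of_le (le_sup (f := id) hi)⟩
      have h3 := hSTL hSTP hQV Ω d h Vu hd hh hVu n
      refine le_trans (sum_le_sum_of_subset_of_nonneg hn fun l _ _ => ?_) h3
      exact Pool.Agent.Helper56.SS.E_nonneg fun w =>
        mul_nonneg (mul_nonneg (hRpos l w).le (T_nonneg_LOS d h l w))
          (d.F.C_nonneg (fun _ => sq_nonneg _) w)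
    have h4 : ∑ l ∈ d.G, E (fun w => ((stp d h).R l w * T_LOS d h l w) *
        d.F.C l (fun v => d.D l v ^ 2) w) ≤ Vu := by
      refine le_trans (sum_le_sum fun l _ => ?_) hVu
      refine Pool.Agent.Helper56.SS.E_mono fun w => ?_
      refine mul_le_mul_of_nonneg_right ?_ (d.F.C_nonneg (fun _ => sq_nonneg _) w)
      calc (stp d h).R l w * T_LOS d h l w ≤ (stp d h).R l w * 1 :=
            mul_le_mul_of_nonneg_left (T_le_LOS d h l w) (hRpos l w).le
        _ = (stp d h).R l w := mul_one _
    refine h1.trans ?_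
    calc Real.sqrt (∑ l ∈ d.G, E (fun w => ((stp d h).R l w * T_LOS d h l w) *
            d.F.C l (fun v => dM d.F d.f l v ^ 2) w)) *
          Real.sqrt (∑ l ∈ d.G, E (fun w => ((stp d h).R l w * T_LOS d h l w) *
            d.F.C l (fun v => d.D l v ^ 2) w))
        ≤ Real.sqrt (Vu / h) * Real.sqrt Vu :=
          mul_le_mul (Real.sqrt_le_sqrt h2) (Real.sqrt_le_sqrt h4) (Real.sqrt_nonneg _)
            (Real.sqrt_nonneg _)
      _ = Vu / Real.sqrt h := by
          rw [Real.sqrt_div hVu0, div_mul_eq_mul_div, Real.mul_self_sqrt hVu0]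
  calc ∑ l ∈ d.G, E (fun w => (stp d h).R l w * d.F.C l (fun v => d.f v * d.D l v) w)
      ≤ ∑ l ∈ d.G, (E (fun w => (stp d h).R l w * ((stp d h).th l w * (d.f w * d.D l w))) +
        3 * d.B0 * z ^ (δ / (1 + δ)) +
        E (fun w => ((stp d h).R l w * T_LOS d h l w) *
          |d.F.C l (fun v => d.f v * d.D l v) w|)) := sum_le_sum hlev
    _ = ∑ l ∈ d.G, E (fun w => (stp d h).R l w * ((stp d h).th l w * (d.f w * d.D l w))) +
        d.G.card * (3 * d.B0 * z ^ (δ / (1 + δ))) +
        ∑ l ∈ d.G, E (fun w => ((stp d h).R l w * T_LOS d h l w) *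
          |d.F.C l (fun v => d.f v * d.D l v) w|) := by
        rw [sum_add_distrib, sum_add_distrib, sum_const, nsmul_eq_mul]
    _ ≤ _ := by linarith

end Pool.Agent.Helper56.OS
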