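import Pool.Agent.Helper56.OS.StB

set_option autoImplicit false

open Finset

namespace Pool.Agent.Helper56.OS

private lemma cs_nonneg_LOSS (b : ℕ → ℝ) (Ω : Finset ℕ) (al : ℕ → ℕ) (Q μ : ℝ) (y0 i l : ℕ) :
    0 ≤ cs b Ω al Q μ y0 i l := by
  unfold cs
  exact Finset.sum_nonneg fun t _ => abs_nonneg _

theorem p_LOSS (hCSB : St_CSB) : St_LOSS := by
  classical
  intro K H T b Ω al q μ Q hF hH hQ y0 I hsq
  have hmu := hF.mu0
  set R : ℝ := Real.sqrt (768 * q * I / Q) with hR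
  have h1 : ∀ i ∈ range I, ∑ l ∈ (range T).filter (fun l => 2 * 2 ^ i ≤ l),
      cs b Ω al Q μ y0 i l ≤ T * μ * R := by
    intro i hi
    exact hCSB K H T b Ω al q μ Q hF hH hQ y0 i I (hsq i (Finset.mem_range.1 hi))
  have h2 : ∑ l ∈ range T, cst b Ω al Q μ y0 I l =
      ∑ i ∈ range I, ∑ l ∈ (range T).filter (fun l => 2 * 2 ^ i ≤ l), cs b Ω al Q μ y0 i l := by
    unfold cst
    simp only [Finset.sum_filter]
    exact Finset.sum_comm
  have h3 : ∑ l ∈ range T, cst b Ω al Q μ y0 I l ≤ I * (T * μ * R) := by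
    rw [h2]
    refine (Finset.sum_le_sum h1).trans ?_
    rw [Finset.sum_const, Finset.card_range, nsmul_eq_mul]
  have hcst : ∀ l, 0 ≤ cst b Ω al Q μ y0 I l := by
    intro l
    unfold cst
    exact Finset.sum_nonneg fun i _ => cs_nonneg_LOSS b Ω al Q μ y0 i l
  set A := (range T).filter (fun l => Ph b Ω (al l) / 100 < cst b Ω al Q μ y0 I l) with hA
  have h4 : (A.card : ℝ) * (μ / 100) ≤ ∑ l ∈ A, cst b Ω al Q μ y0 I l := by
    rw [← nsmul_eq_mul, ← Finset.sum_const]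
    refine Finset.sum_le_sum fun l hl => ?_
    rw [hA, Finset.mem_filter, Finset.mem_range] at hl
    have := hF.Plo l hl.1
    linarith [hl.2]
  have h5 : ∑ l ∈ A, cst b Ω al Q μ y0 I l ≤ ∑ l ∈ range T, cst b Ω al Q μ y0 I l :=
    Finset.sum_le_sum_of_subset_of_nonneg (Finset.filter_subset _ _) fun l _ _ => hcst l
  have h6 : (A.card : ℝ) * (μ / 100) ≤ I * (T * μ * R) := h4.trans (h5.trans h3)
  have h7 : (A.card : ℝ) * μ ≤ (100 * (I * (T * R))) * μ := by
    have : (A.card : ℝ) * μ = 100 * ((A.card : ℝ) * (μ / 100)) := by ring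
    rw [this]
    calc 100 * ((A.card : ℝ) * (μ / 100)) ≤ 100 * (I * (T * μ * R)) := by linarith
      _ = (100 * (I * (T * R))) * μ := by ring
  exact le_of_mul_le_mul_right h7 hmu

end Pool.Agent.Helper56.OS
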