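import Pool.Agent.Helper56.OS.StD

/-! # Project OS, module LVU: the levels of a family satisfy `Lv`. -/

set_option autoImplicit false

open Finset

namespace Pool.Agent.Helper56.OS

open Pool.Agent.Helper57.SN (Lv)

theorem p_LVU (hPHI : St_PHI) : St_LVU := by
  intro K H T b Ω al q μ hGS hF l hl S hS
  obtain ⟨h1, -, -, h4, -, -⟩ := hPHI K b Ω hGS
  have hlo := hF.lo l hl
  have hhi := hF.hiK l hl
  have hPh3 : Ph b Ω (al l) ≤ 3 := (le_abs_self _).trans (h1 (al l) (by omega) (by omega))
  have hq := hF.q1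
  have hms : ms b S ≤ Bm b Ω (al l) := by
    refine le_trans ?_ (h4 (al l)).2.1
    unfold ms
    exact sum_le_sum_of_subset_of_nonneg hS fun _ _ _ => abs_nonneg _
  have hgood := hF.good l hl
  have hPhi := hF.Phi l hl
  have hPlo := hF.Plo l hl
  refine ⟨⟨by omega, by omega, fun ξ _ => abs_nonneg _, ?_, ?_, ?_⟩, ?_, ?_⟩
  · intro ξ hξ
    have := hS hξ
    unfold Oct at this
    have := (mem_filter.mp this).2.1
    omega
  · intro ξ hξ
    have := hS hξ
    unfold Oct at this
    have := (mem_filter.mp this).2.2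
    rw [pow_succ] at this ⊢
    omega
  · have h5 : (∑ ξ ∈ S, |b ξ|) ≤ 4 * q * Ph b Ω (al l) := hms.trans hgood
    have h6 : 4 * q * Ph b Ω (al l) ≤ 4 * q * 3 :=
      mul_le_mul_of_nonneg_left hPh3 (by linarith)
    linarith
  · have h6 : 4 * q * Ph b Ω (al l) ≤ 4 * q * (2 * μ) :=
      mul_le_mul_of_nonneg_left hPhi (by linarith)
    linarith [hms.trans hgood]
  · linarith

end Pool.Agent.Helper56.OS
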