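import Pool.Agent.Helper56.OS.StB

/-! Module MAXI of project OS (MP_9a0a6c_an): maximal intervals. -/

set_option autoImplicit false

open Finset

namespace Pool.Agent.Helper56.OS

/-- the points which are selected for the first time at the scale `j` -/
private def X_MAXI (Ω : Finset ℕ) (lam : ℕ → ℕ → ℕ) (L : ℕ → Finset ℕ) (j : ℕ) : Finset ℕ :=
  Ω.filter (fun ω => lam j ω ∈ L j ∧ ∀ i < j, lam i ω ∉ L i)

private theorem down_MAXI {p : ℕ} {lam : ℕ → ℕ → ℕ}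
    (hlam : ∀ j, j + 1 < p → ∀ ω ω', lam (j + 1) ω = lam (j + 1) ω' → lam j ω = lam j ω')
    {ω ω' : ℕ} (d i : ℕ) (hi : i + d < p) (h : lam (i + d) ω = lam (i + d) ω') :
    lam i ω = lam i ω' := by
  induction d with
  | zero => exact h
  | succ d ih => exact ih (by omega) (hlam (i + d) (by omega) ω ω' h)

private theorem fibre_MAXI {Ω : Finset ℕ} {p : ℕ} {lam : ℕ → ℕ → ℕ} {L : ℕ → Finset ℕ}
    {b C : ℕ → ℝ} {Cm o : ℝ} (hCm : 0 ≤ Cm)
    (hlam : ∀ j, j + 1 < p → ∀ ω ω', lam (j + 1) ω = lam (j + 1) ω' → lam j ω = lam j ω')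
    (hC : ∀ ω ∈ Ω, |C ω| ≤ Cm) (hCC : ∀ ω ∈ Ω, ∀ ω' ∈ Ω, lam 0 ω = lam 0 ω' → |C ω - C ω'| ≤ o)
    {j : ℕ} (hj : j < p) (t : ℕ) :
    |∑ ω ∈ (X_MAXI Ω lam L j).filter (fun ω => lam j ω = t), b ω * C ω| ≤
      Cm * |∑ ω ∈ Ω with lam j ω = t, b ω| +
      o * ∑ ω ∈ (X_MAXI Ω lam L j).filter (fun ω => lam j ω = t), |b ω| := by
  rcases ((X_MAXI Ω lam L j).filter (fun ω => lam j ω = t)).eq_empty_or_nonempty with h0 | ⟨ω0, h0⟩
  · rw [h0]
    simp only [sum_empty, abs_zero, mul_zero, add_zero]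
    exact mul_nonneg hCm (abs_nonneg _)
  · rw [mem_filter, X_MAXI, mem_filter] at h0
    obtain ⟨⟨hΩ, hL, hnot⟩, ht⟩ := h0
    have heq : (X_MAXI Ω lam L j).filter (fun ω => lam j ω = t) =
        Ω.filter (fun ω => lam j ω = t) := by
      ext ω
      rw [mem_filter, X_MAXI, mem_filter, mem_filter]
      constructor
      · rintro ⟨⟨h1, -, -⟩, h2⟩
        exact ⟨h1, h2⟩
      · rintro ⟨h1, h2⟩
        have he : lam j ω = lam j ω0 := h2.trans ht.symm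
        refine ⟨⟨h1, by rw [he]; exact hL, ?_⟩, h2⟩
        intro i hi
        obtain ⟨d, rfl⟩ := Nat.exists_eq_add_of_le hi.le
        rw [down_MAXI hlam d i hj he]
        exact hnot i hi
    rw [heq]
    have hsplit : ∑ ω ∈ Ω with lam j ω = t, b ω * C ω =
        (∑ ω ∈ Ω with lam j ω = t, b ω) * C ω0 +
        ∑ ω ∈ Ω with lam j ω = t, b ω * (C ω - C ω0) := by
      rw [sum_mul, ← sum_add_distrib]
      exact sum_congr rfl fun ω _ => by ring
    rw [hsplit]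
    refine (abs_add_le _ _).trans (add_le_add ?_ ?_)
    · rw [abs_mul, mul_comm]
      exact mul_le_mul_of_nonneg_right (hC ω0 hΩ) (abs_nonneg _)
    · refine (abs_sum_le_sum_abs _ _).trans ?_
      rw [mul_sum]
      refine sum_le_sum fun ω hω => ?_
      rw [mem_filter] at hω
      rw [abs_mul, mul_comm]
      refine mul_le_mul_of_nonneg_right (hCC ω hω.1 ω0 hΩ ?_) (abs_nonneg _)
      have he : lam j ω = lam j ω0 := hω.2.trans ht.symm
      have h1 : j = 0 + j := (zero_add j).symm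
      rw [h1] at he
      exact down_MAXI hlam j 0 (by omega) he

private theorem scale_MAXI {Ω : Finset ℕ} {p : ℕ} {lam : ℕ → ℕ → ℕ} {L : ℕ → Finset ℕ}
    {b C : ℕ → ℝ} {Cm o : ℝ} (hCm : 0 ≤ Cm)
    (hlam : ∀ j, j + 1 < p → ∀ ω ω', lam (j + 1) ω = lam (j + 1) ω' → lam j ω = lam j ω')
    (hC : ∀ ω ∈ Ω, |C ω| ≤ Cm) (hCC : ∀ ω ∈ Ω, ∀ ω' ∈ Ω, lam 0 ω = lam 0 ω' → |C ω - C ω'| ≤ o)
    {j : ℕ} (hj : j < p) :
    |∑ ω ∈ X_MAXI Ω lam L j, b ω * C ω| ≤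
      Cm * (∑ t ∈ L j, |∑ ω ∈ Ω with lam j ω = t, b ω|) +
      o * ∑ ω ∈ X_MAXI Ω lam L j, |b ω| := by
  have hmaps : ∀ ω ∈ X_MAXI Ω lam L j, lam j ω ∈ L j := by
    intro ω hω
    rw [X_MAXI, mem_filter] at hω
    exact hω.2.1
  rw [← sum_fiberwise_of_maps_to hmaps, ← sum_fiberwise_of_maps_to hmaps (fun ω => |b ω|), mul_sum,
    mul_sum, ← sum_add_distrib]
  refine (abs_sum_le_sum_abs _ _).trans (sum_le_sum fun t _ => ?_)
  exact fibre_MAXI hCm hlam hC hCC hj t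

theorem p_MAXI : St_MAXI := by
  intro Ω p lam L b C Cm o _ hCm hlam hC hCC
  have hU : Ω.filter (fun ω => ∃ j < p, lam j ω ∈ L j) = (range p).biUnion (X_MAXI Ω lam L) := by
    ext ω
    rw [mem_filter, mem_biUnion]
    constructor
    · rintro ⟨h1, h2⟩
      classical
      have h3 := Nat.find_spec h2
      refine ⟨Nat.find h2, mem_range.mpr h3.1, ?_⟩
      rw [X_MAXI, mem_filter]
      refine ⟨h1, h3.2, fun i hi hL => ?_⟩
      exact Nat.find_min h2 hi ⟨hi.trans h3.1, hL⟩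
    · rintro ⟨j, h1, h2⟩
      rw [X_MAXI, mem_filter] at h2
      exact ⟨h2.1, j, mem_range.mp h1, h2.2.1⟩
  have hd : (↑(range p) : Set ℕ).PairwiseDisjoint (X_MAXI Ω lam L) := by
    intro i _ j _ hij
    rw [Function.onFun, disjoint_left]
    intro ω h1 h2
    rw [X_MAXI, mem_filter] at h1 h2
    rcases lt_or_gt_of_ne hij with h | h
    · exact h2.2.2 i h h1.2.1
    · exact h1.2.2 j h h2.2.1
  have main : |∑ j ∈ range p, ∑ ω ∈ X_MAXI Ω lam L j, b ω * C ω| ≤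
      Cm * (∑ j ∈ range p, ∑ t ∈ L j, |∑ ω ∈ Ω with lam j ω = t, b ω|) +
      o * ∑ j ∈ range p, ∑ ω ∈ X_MAXI Ω lam L j, |b ω| := by
    rw [mul_sum, mul_sum, ← sum_add_distrib]
    refine (abs_sum_le_sum_abs _ _).trans (sum_le_sum fun j hj => ?_)
    exact scale_MAXI hCm hlam hC hCC (mem_range.mp hj)
  have g1 : ∀ (S : Finset ℕ), S = (range p).biUnion (X_MAXI Ω lam L) →
      |∑ ω ∈ S, b ω * C ω| ≤
      Cm * (∑ j ∈ range p, ∑ t ∈ L j, |∑ ω ∈ Ω with lam j ω = t, b ω|) +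
      o * ∑ ω ∈ S, |b ω| := by
    intro S hS
    rw [hS, sum_biUnion hd, sum_biUnion hd]
    exact main
  apply g1
  rw [← hU]

end Pool.Agent.Helper56.OS
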