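import Pool.Agent.Helper56.OS.StA

/-! Project OS, module MOM2: moments of the stopped tilt density. -/

set_option autoImplicit false

open Finset

namespace Pool.Agent.Helper56.OS

open Pool.Agent.Helper56.SS (Fil Dat Hyp E E_add E_sub E_mul_left E_mul_right E_sum E_mono
  E_nonneg E_zero E_const)

private theorem bern_MOM2 {x δ : ℝ} (hx : |x| ≤ 1 / 4) (h0 : 0 < δ) (h1 : δ ≤ 1 / 4) :
    (1 + x) ^ (1 + δ) ≤ 1 + (1 + δ) * x + δ * x ^ 2 := by
  have hx1 := (abs_le.mp hx).1
  have hp : 0 < 1 + x := by linarith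
  rw [Real.rpow_add hp, Real.rpow_one]
  have h2 : (1 + x) ^ δ ≤ 1 + δ * x :=
    rpow_one_add_le_one_add_mul_self (by linarith) h0.le (by linarith)
  calc (1 + x) * (1 + x) ^ δ ≤ (1 + x) * (1 + δ * x) :=
        mul_le_mul_of_nonneg_left h2 hp.le
    _ = _ := by ring

/-- the quadratic variation before time `n` -/
private noncomputable def V_MOM2 {Ω : Type} [Fintype Ω] (d : Dat Ω) (n : ℕ) (w : Ω) : ℝ :=
  ∑ j ∈ d.G.filter (fun j => j < n), d.th j w * d.sg j w

private theorem V_meas_MOM2 {Ω : Type} [Fintype Ω] (d : Dat Ω) (hd : Hyp d) (n : ℕ) :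
    d.F.Meas n (V_MOM2 d (n + 1)) := by
  intro w w' hw
  unfold V_MOM2
  apply sum_congr rfl
  intro j hj
  have hj' : j ≤ n := by have := (mem_filter.mp hj).2; omega
  have hl := d.F.lab_mono hj' hw
  rw [hd.th_meas j w w' hl, hd.sg_meas j w w' hl]

private theorem V_succ_mem_MOM2 {Ω : Type} [Fintype Ω] (d : Dat Ω) (n : ℕ) (hn : n ∈ d.G) (w : Ω) :
    V_MOM2 d (n + 1) w = V_MOM2 d n w + d.th n w * d.sg n w := by
  unfold V_MOM2
  have : d.G.filter (fun j => j < n + 1) = insert n (d.G.filter (fun j => j < n)) := by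
    ext j
    simp only [mem_filter, mem_insert]
    constructor
    · rintro ⟨a, b⟩
      rcases Nat.lt_succ_iff_lt_or_eq.mp b with c | c
      · exact Or.inr ⟨a, c⟩
      · exact Or.inl c
    · rintro (a | ⟨a, b⟩)
      · subst a; exact ⟨hn, Nat.lt_succ_self _⟩
      · exact ⟨a, by omega⟩
  rw [this, sum_insert (by simp), add_comm]

private theorem V_succ_not_MOM2 {Ω : Type} [Fintype Ω] (d : Dat Ω) (n : ℕ) (hn : n ∉ d.G) (w : Ω) :
    V_MOM2 d (n + 1) w = V_MOM2 d n w := by
  unfold V_MOM2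
  have : d.G.filter (fun j => j < n + 1) = d.G.filter (fun j => j < n) := by
    ext j
    simp only [mem_filter]
    constructor
    · rintro ⟨a, b⟩
      refine ⟨a, ?_⟩
      rcases Nat.lt_succ_iff_lt_or_eq.mp b with c | c
      · exact c
      · subst c; exact absurd a hn
    · rintro ⟨a, b⟩; exact ⟨a, by omega⟩
  rw [this]

private theorem step_MOM2 {Ω : Type} [Fintype Ω] [Nonempty Ω] (d : Dat Ω) (h : Hyp d) (δ : ℝ)
    (h0 : 0 < δ) (h1 : δ ≤ 1 / 4) (n : ℕ) (hn : n ∈ d.G) :
    E (fun w => d.R (n + 1) w ^ (1 + δ) * Real.exp (-(δ * d.lam ^ 2 * V_MOM2 d (n + 1) w))) ≤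
      E (fun w => d.R n w ^ (1 + δ) * Real.exp (-(δ * d.lam ^ 2 * V_MOM2 d n w))) := by
  set g : Ω → ℝ := fun w => d.R n w ^ (1 + δ) *
    Real.exp (-(δ * d.lam ^ 2 * V_MOM2 d (n + 1) w)) with hg
  have gpos : ∀ w, 0 ≤ g w := fun w =>
    mul_nonneg (Real.rpow_nonneg (h.R_pos n w).le _) (Real.exp_pos _).le
  have gm : d.F.Meas n g := ((h.R_meas n).comp (fun r => r ^ (1 + δ))).mul
    ((V_meas_MOM2 d h n).comp (fun r => Real.exp (-(δ * d.lam ^ 2 * r))))
  set H : Ω → ℝ := fun w => 1 + (1 + δ) * d.x n w + δ * d.x n w ^ 2 with hH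
  have hC : ∀ w, d.F.C n H w = 1 + δ * d.lam ^ 2 * (d.th n w * d.sg n w) := by
    intro w
    have e3 : H = fun w => ((fun w => (fun _ => (1 : ℝ)) w + (fun w => (1 + δ) * d.x n w) w) w) +
        (fun w => δ * d.x n w ^ 2) w := rfl
    rw [e3, d.F.C_add n (fun w => (fun _ => (1 : ℝ)) w + (fun w => (1 + δ) * d.x n w) w),
      d.F.C_add n (fun _ => (1 : ℝ)), d.F.C_const, d.F.C_mul_left, h.C_x, d.F.C_mul_left,
      h.C_x_sq n w hn]
    ring
  calc E (fun w => d.R (n + 1) w ^ (1 + δ) * Real.exp (-(δ * d.lam ^ 2 * V_MOM2 d (n + 1) w)))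
      ≤ E (fun w => g w * H w) := by
        apply E_mono
        intro w
        have hR := h.R_pos n w
        have hx0 := h.abs_x_le' n w
        have h3 : d.R (n + 1) w ^ (1 + δ) = d.R n w ^ (1 + δ) * (1 + d.x n w) ^ (1 + δ) := by
          rw [h.R_succ, Real.mul_rpow hR.le (by have := h.one_add_x_pos n w; linarith)]
        rw [h3]
        have h5 := bern_MOM2 hx0 h0 h1
        calc d.R n w ^ (1 + δ) * (1 + d.x n w) ^ (1 + δ) *
              Real.exp (-(δ * d.lam ^ 2 * V_MOM2 d (n + 1) w))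
            = g w * (1 + d.x n w) ^ (1 + δ) := by rw [hg]; ring
          _ ≤ g w * H w := mul_le_mul_of_nonneg_left h5 (gpos w)
    _ = E (fun w => g w * d.F.C n H w) := (d.F.E_mul_C gm H).symm
    _ ≤ E (fun w => d.R n w ^ (1 + δ) * Real.exp (-(δ * d.lam ^ 2 * V_MOM2 d n w))) := by
        apply E_mono
        intro w
        rw [hC w]
        have h6 := Real.add_one_le_exp (δ * d.lam ^ 2 * (d.th n w * d.sg n w))
        calc g w * (1 + δ * d.lam ^ 2 * (d.th n w * d.sg n w))
            ≤ g w * Real.exp (δ * d.lam ^ 2 * (d.th n w * d.sg n w)) :=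
              mul_le_mul_of_nonneg_left (by linarith) (gpos w)
          _ = d.R n w ^ (1 + δ) * Real.exp (-(δ * d.lam ^ 2 * V_MOM2 d n w)) := by
              rw [hg]
              simp only
              rw [mul_assoc, ← Real.exp_add, V_succ_mem_MOM2 d n hn w]
              congr 2
              ring

theorem p_MOM2 : S_MOM2 := by
  intro Ω _ _ d h hd hh δ h0 h1 hδ n
  have key : ∀ n, E (fun w => d.R n w ^ (1 + δ) *
      Real.exp (-(δ * d.lam ^ 2 * V_MOM2 d n w))) ≤ 1 := by
    intro n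
    induction n with
    | zero =>
      have : (fun w => d.R 0 w ^ (1 + δ) * Real.exp (-(δ * d.lam ^ 2 * V_MOM2 d 0 w)))
          = fun _ => (1 : ℝ) := by
        funext w
        have e : V_MOM2 d 0 w = 0 := by unfold V_MOM2; simp
        rw [e, hd.R_zero, Real.one_rpow]
        simp
      rw [this, E_const]
    | succ n ih =>
      by_cases hn : n ∈ d.G
      · exact (step_MOM2 d hd δ h0 h1 n hn).trans ih
      · have e : (fun w => d.R (n + 1) w ^ (1 + δ) *
            Real.exp (-(δ * d.lam ^ 2 * V_MOM2 d (n + 1) w)))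
            = fun w => d.R n w ^ (1 + δ) * Real.exp (-(δ * d.lam ^ 2 * V_MOM2 d n w)) := by
          funext w
          rw [hd.R_succ, V_succ_not_MOM2 d n hn w]
          have : d.x n w = 0 := by unfold Dat.x; rw [if_neg hn]
          rw [this, add_zero, mul_one]
        rw [e]; exact ih
  have hV : ∀ w, V_MOM2 d n w ≤ h := by
    intro w
    refine le_trans ?_ (hh w)
    unfold V_MOM2
    apply sum_le_sum_of_subset_of_nonneg (filter_subset _ _)
    intro j _ _
    exact mul_nonneg (hd.th_nonneg j w) (hd.sg_nonneg j w)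
  have hlow : E (fun w => d.R n w ^ (1 + δ)) * Real.exp (-1) ≤ 1 := by
    rw [← E_mul_right]
    refine le_trans (E_mono ?_) (key n)
    intro w
    apply mul_le_mul_of_nonneg_left _ (Real.rpow_nonneg (hd.R_pos n w).le _)
    apply Real.exp_le_exp.mpr
    have hl : 0 ≤ δ * d.lam ^ 2 := by positivity
    have := mul_le_mul_of_nonneg_left (hV w) hl
    have e : δ * d.lam ^ 2 * h = δ * (d.lam ^ 2 * h) := by ring
    linarith
  have e1 : Real.exp (-1) * Real.exp 1 = 1 := by rw [← Real.exp_add]; simp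
  have e2 := Real.exp_one_lt_d9
  have hE0 : 0 ≤ E (fun w => d.R n w ^ (1 + δ)) :=
    E_nonneg (fun w => Real.rpow_nonneg (hd.R_pos n w).le _)
  have e3 : E (fun w => d.R n w ^ (1 + δ)) ≤ Real.exp 1 := by
    calc E (fun w => d.R n w ^ (1 + δ))
        = (E (fun w => d.R n w ^ (1 + δ)) * Real.exp (-1)) * Real.exp 1 := by
          rw [mul_assoc, e1, mul_one]
      _ ≤ 1 * Real.exp 1 := mul_le_mul_of_nonneg_right hlow (Real.exp_pos _).le
      _ = Real.exp 1 := one_mul _
  linarith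

end Pool.Agent.Helper56.OS
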