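import Pool.Agent.Helper56.OS.StB

/-! # Project OS, module NB: neighbourhoods of the survivors -/

set_option autoImplicit false

open Finset

namespace Pool.Agent.Helper56.OS

private theorem lb_near_NB (e y0 ω ω' : ℕ) (h : |(ω' : ℤ) - ω| ≤ 2 ^ e) :
    lb e y0 ω ≤ lb e y0 ω' + 1 ∧ lb e y0 ω' ≤ lb e y0 ω + 1 := by
  unfold lb
  have hp : 0 < 2 ^ e := by positivity
  rw [abs_le] at h
  have h1 : ω + y0 ≤ (ω' + y0) + 2 ^ e := by
    zify
    linarith [h.1]
  have h2 : ω' + y0 ≤ (ω + y0) + 2 ^ e := by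
    zify
    linarith [h.2]
  constructor
  · calc (ω + y0) / 2 ^ e ≤ ((ω' + y0) + 2 ^ e) / 2 ^ e := Nat.div_le_div_right h1
      _ = (ω' + y0) / 2 ^ e + 1 := Nat.add_div_right _ hp
  · calc (ω' + y0) / 2 ^ e ≤ ((ω + y0) + 2 ^ e) / 2 ^ e := Nat.div_le_div_right h2
      _ = (ω + y0) / 2 ^ e + 1 := Nat.add_div_right _ hp

theorem p_NB : St_NB := by
  classical
  intro b Ω al Q μ y0 I l i0 i ω hQ hμ hO hN hi0 hiI hl
  set e := al (cc (2 ^ i) l) with he
  set t := lb e y0 ω with ht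
  have hωΩ : ω ∈ Ω := (mem_filter.1 hO).1
  have hX : 0 ≤ Q / (2 ^ i * μ) := by positivity
  -- all neighbouring intervals are small
  have hsm : ∀ t', t ≤ t' + 1 → t' ≤ t + 1 → aI b Ω e y0 t' ≤ Q / (2 ^ i * μ) := by
    intro t' h1 h2
    by_contra hc
    apply hN
    unfold NS
    rw [mem_filter]
    refine ⟨hωΩ, i, hi0, hiI, hl, ?_⟩
    unfold Lb
    rw [mem_filter]
    exact ⟨mem_image_of_mem _ hO, t', ⟨h1, h2⟩, not_le.1 hc⟩
  set A := Ω.filter (fun ω' : ℕ => |(ω' : ℤ) - ω| ≤ 2 ^ e) with hA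
  set S : Finset ℕ := {t - 1, t, t + 1} with hS
  have hmaps : ∀ ω' ∈ A, lb e y0 ω' ∈ S := by
    intro ω' hω'
    have h := lb_near_NB e y0 ω ω' (mem_filter.1 hω').2
    rw [← ht] at h
    rw [hS]
    simp only [mem_insert, mem_singleton]
    omega
  rw [← sum_fiberwise_of_maps_to hmaps]
  have hle : ∀ t' ∈ S, ∑ ω' ∈ A.filter (fun ω' => lb e y0 ω' = t'), |b ω'| ≤
      Q / (2 ^ i * μ) := by
    intro t' ht'
    rw [hS] at ht'
    simp only [mem_insert, mem_singleton] at ht'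
    refine le_trans ?_ (hsm t' (by omega) (by omega))
    unfold aI
    apply sum_le_sum_of_subset_of_nonneg
    · exact filter_subset_filter _ (filter_subset _ _)
    · intro _ _ _
      exact abs_nonneg _
  calc ∑ t' ∈ S, ∑ ω' ∈ A.filter (fun ω' => lb e y0 ω' = t'), |b ω'|
      ≤ ∑ t' ∈ S, Q / (2 ^ i * μ) := sum_le_sum hle
    _ = (S.card : ℝ) * (Q / (2 ^ i * μ)) := by rw [sum_const, nsmul_eq_mul]
    _ ≤ 3 * (Q / (2 ^ i * μ)) := by
      apply mul_le_mul_of_nonneg_right _ hX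
      have : S.card ≤ 3 := by
        rw [hS]
        exact card_le_three
      exact_mod_cast this

end Pool.Agent.Helper56.OS
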