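import Pool.Agent.Helper56.OS.StD

/-! Project OS, module NST: numbers of the structured half. -/

set_option autoImplicit false

open Finset

namespace Pool.Agent.Helper56.OS

theorem b1_NST (y D : ℝ) (hy : (10 : ℝ) ^ 20 ≤ y) (hD : y ^ 5 ≤ D) :
    1 ≤ y ∧ 10 ^ 20 ≤ D ∧ y ≤ D ∧ y ^ 2 ≤ D ∧ 10 ^ 20 * y ^ 4 ≤ D := by
  have h1 : (1 : ℝ) ≤ y := le_trans (by norm_num) hy
  have h2 : 10 ^ 20 * y ^ 4 ≤ y ^ 5 := by
    have : y ^ 5 = y * y ^ 4 := by ring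
    rw [this]
    gcongr
  have h3 : 10 ^ 20 * y ^ 4 ≤ D := h2.trans hD
  have h4 : y ≤ y ^ 5 := le_self_pow₀ h1 (by norm_num)
  have h5 : y ^ 2 ≤ y ^ 5 := pow_le_pow_right₀ h1 (by norm_num)
  exact ⟨h1, hy.trans (h4.trans hD), h4.trans hD, h5.trans hD, h3⟩

theorem a_NST (y D : ℝ) (h1 : 1 ≤ y) (hD : 10 ^ 20 ≤ D) (hyD : y ≤ D) (hy2 : y ^ 2 ≤ D) :
    3 / 4 * (20 * D) + 5 * (9 * (y * (20 * D * D ^ 4)) * D) +
      (2 * y + 11) * (3 * (y * (20 * D * D ^ 4))) + 8 * y * (20 * D) ≤ 3 * (D ^ 8 / 2) / 40 := by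
  have hD1 : (1 : ℝ) ≤ D := le_trans (by norm_num) hD
  have hD0 : (0 : ℝ) < D := by linarith
  have hy0 : (0 : ℝ) < y := by linarith
  have p1 : D ≤ D ^ 7 := le_self_pow₀ hD1 (by norm_num)
  have p2 : D ^ 2 ≤ D ^ 7 := pow_le_pow_right₀ hD1 (by norm_num)
  have p6 : D ^ 6 ≤ D ^ 7 := pow_le_pow_right₀ hD1 (by norm_num)
  have t2 : y * D ^ 6 ≤ D ^ 7 := by
    calc y * D ^ 6 ≤ D * D ^ 6 := by gcongr
      _ = D ^ 7 := by ring
  have t3 : (2 * y + 11) * (y * D ^ 5) ≤ 13 * D ^ 7 := by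
    calc (2 * y + 11) * (y * D ^ 5) ≤ (13 * y) * (y * D ^ 5) := by
          gcongr
          linarith
      _ = 13 * (y ^ 2 * D ^ 5) := by ring
      _ ≤ 13 * (D * D ^ 5) := by gcongr
      _ = 13 * D ^ 6 := by ring
      _ ≤ 13 * D ^ 7 := by linarith
  have t4 : y * D ≤ D ^ 7 := by
    calc y * D ≤ D * D := by gcongr
      _ = D ^ 2 := by ring
      _ ≤ D ^ 7 := p2
  have t5 : 10 ^ 20 * D ^ 7 ≤ D ^ 8 := by
    have : D ^ 8 = D * D ^ 7 := by ring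
    rw [this]
    gcongr
  have hD7 : 0 < D ^ 7 := by positivity
  calc 3 / 4 * (20 * D) + 5 * (9 * (y * (20 * D * D ^ 4)) * D) +
      (2 * y + 11) * (3 * (y * (20 * D * D ^ 4))) + 8 * y * (20 * D)
      = 15 * D + 900 * (y * D ^ 6) + 60 * ((2 * y + 11) * (y * D ^ 5)) + 160 * (y * D) := by ring
    _ ≤ 15 * D ^ 7 + 900 * D ^ 7 + 60 * (13 * D ^ 7) + 160 * D ^ 7 := by linarith
    _ ≤ 3 * (D ^ 8 / 2) / 40 := by linarith

theorem d_NST (y D : ℝ) (n r : ℕ) (hy : (10 : ℝ) ^ 20 ≤ y) (h1 : 1 ≤ y) (hD : 10 ^ 20 ≤ D)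
    (hy4 : 10 ^ 20 * y ^ 4 ≤ D) (hn : (n : ℝ) ≤ 20 * D) (hr : (r : ℝ) = D ^ 4)
    (hM : 2 * D ^ 14 ≤ Real.exp y) :
    4 * Real.exp (-(D ^ 14 * (1 / y ^ 2) / (4 * (D ^ 4) ^ 2))) ≤
      (1 / y ^ 2) * (1 / (2 * D ^ 14)) ^ (n * r) := by
  have hD0 : (0 : ℝ) < D := lt_of_lt_of_le (by norm_num) hD
  have hy0 : (0 : ℝ) < y := by linarith
  have hA : D ^ 14 * (1 / y ^ 2) / (4 * (D ^ 4) ^ 2) = D ^ 6 / (4 * y ^ 2) := by
    field_simp
  rw [hA]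
  have h2 : (2 * D ^ 14) ^ (n * r) ≤ Real.exp (20 * D ^ 5 * y) := by
    calc (2 * D ^ 14) ^ (n * r) ≤ (Real.exp y) ^ (n * r) := by gcongr
      _ = Real.exp (((n * r : ℕ) : ℝ) * y) := by rw [Real.exp_nat_mul]
      _ ≤ Real.exp (20 * D ^ 5 * y) := by
          apply Real.exp_le_exp.2
          push_cast
          rw [hr]
          calc (n : ℝ) * D ^ 4 * y ≤ 20 * D * D ^ 4 * y := by gcongr
            _ = 20 * D ^ 5 * y := by ring
  have h3 : 4 * y ^ 2 ≤ Real.exp (4 * y ^ 2) := by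
    have := Real.add_one_le_exp (4 * y ^ 2)
    linarith
  have h4 : 20 * D ^ 5 * y + 4 * y ^ 2 ≤ D ^ 6 / (4 * y ^ 2) := by
    rw [le_div_iff₀ (by positivity)]
    have e1 : (20 * D ^ 5 * y + 4 * y ^ 2) * (4 * y ^ 2) = 80 * (D ^ 5 * y ^ 3) + 16 * y ^ 4 := by
      ring
    rw [e1]
    have e2 : y ^ 3 ≤ y ^ 4 := pow_le_pow_right₀ h1 (by norm_num)
    have e3 : D ^ 5 * y ^ 3 ≤ D ^ 5 * (D / 10 ^ 20) := by
      have : y ^ 3 ≤ D / 10 ^ 20 := by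
        rw [le_div_iff₀ (by norm_num)]
        linarith
      gcongr
    have e4 : y ^ 4 ≤ D / 10 ^ 20 := by
      rw [le_div_iff₀ (by norm_num)]
      linarith
    have e5 : D ≤ D ^ 6 := le_self_pow₀ (by linarith [hD]) (by norm_num)
    have e6 : D ^ 5 * (D / 10 ^ 20) = D ^ 6 / 10 ^ 20 := by ring
    rw [e6] at e3
    have e7 : D / 10 ^ 20 ≤ D ^ 6 / 10 ^ 20 := by gcongr
    have e8 : 0 < D ^ 6 := by positivity
    calc 80 * (D ^ 5 * y ^ 3) + 16 * y ^ 4 ≤ 80 * (D ^ 6 / 10 ^ 20) + 16 * (D ^ 6 / 10 ^ 20) := by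
          linarith
      _ ≤ D ^ 6 := by linarith
  have h5 : (2 * D ^ 14) ^ (n * r) * (4 * y ^ 2) ≤ Real.exp (D ^ 6 / (4 * y ^ 2)) := by
    calc (2 * D ^ 14) ^ (n * r) * (4 * y ^ 2)
        ≤ Real.exp (20 * D ^ 5 * y) * Real.exp (4 * y ^ 2) := by gcongr
      _ = Real.exp (20 * D ^ 5 * y + 4 * y ^ 2) := by rw [Real.exp_add]
      _ ≤ _ := Real.exp_le_exp.2 h4
  rw [Real.exp_neg, one_div_pow, ← one_div, mul_one_div, one_div_mul_one_div,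
    div_le_div_iff₀ (Real.exp_pos _) (by positivity)]
  calc 4 * (y ^ 2 * (2 * D ^ 14) ^ (n * r)) = (2 * D ^ 14) ^ (n * r) * (4 * y ^ 2) := by ring
    _ ≤ Real.exp (D ^ 6 / (4 * y ^ 2)) := h5
    _ = 1 * Real.exp (D ^ 6 / (4 * y ^ 2)) := by ring

theorem p_NST : St_NST := by
  intro H x y D hyH hDx hy hyD hDH
  have hy1' : (1 : ℝ) ≤ y := le_trans (by norm_num) hy
  have hy5 : y ^ 5 ≤ D := (pow_le_pow_right₀ hy1' (by norm_num)).trans hyD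
  obtain ⟨h1, hD, hyD1, hy2, hy4⟩ := b1_NST y D hy hy5
  have hD1 : (1 : ℝ) ≤ D := le_trans (by norm_num) hD
  have hD0 : (0 : ℝ) < D := by linarith
  have hpow : ∀ k : ℕ, ((2 ^ (k * x) : ℕ) : ℝ) = D ^ k := by
    intro k
    push_cast
    rw [hDx, ← pow_mul, mul_comm]
  have hDk : ∀ k : ℕ, k ≤ 100 → D ^ k ≤ 2 ^ H := fun k hk =>
    (pow_le_pow_right₀ hD1 hk).trans hDH
  have hstep : ∀ k : ℕ, 10 ^ 20 * D ^ k ≤ D ^ (k + 1) := by
    intro k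
    rw [pow_succ D k, mul_comm (D ^ k) D]
    gcongr
  refine ⟨a_NST y D h1 hD hyD1 hy2, ?_, ⟨?_, ?_, ?_, ?_⟩, ?_⟩
  · have h2 : 2 * (y * (20 * D * D ^ 4) + 1) * (2 * D ^ 14) + 1 ≤ (2 : ℝ) ^ H := by
      refine le_trans ?_ (hDk 21 (by norm_num))
      have e1 : 2 * (y * (20 * D * D ^ 4) + 1) * (2 * D ^ 14) + 1 =
          80 * (y * D ^ 19) + 4 * D ^ 14 + 1 := by ring
      rw [e1]
      have e2 : y * D ^ 19 ≤ D ^ 20 := by
        calc y * D ^ 19 ≤ D * D ^ 19 := by gcongr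
          _ = D ^ 20 := by ring
      have e3 : D ^ 14 ≤ D ^ 20 := pow_le_pow_right₀ hD1 (by norm_num)
      have e4 : 1 ≤ D ^ 20 := one_le_pow₀ hD1
      have e5 := hstep 20
      have e6 : 0 < D ^ 20 := by positivity
      norm_num at e5
      linarith
    have h3 : ((2 * (H * (20 * 2 ^ x * 2 ^ (4 * x)) + 1) * (2 * 2 ^ (14 * x)) + 1 : ℕ) : ℝ) ≤
        ((2 ^ H : ℕ) : ℝ) := by
      have e4 := hpow 4
      have e14 := hpow 14
      push_cast at e4 e14 ⊢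
      rw [e4, e14, ← hyH, ← hDx]
      exact h2
    exact_mod_cast h3
  · have h3 : ((4 * 2 ^ (4 * x) * 2 ^ (14 * x) : ℕ) : ℝ) ≤ ((2 ^ H : ℕ) : ℝ) := by
      have e4 := hpow 4
      have e14 := hpow 14
      push_cast at e4 e14 ⊢
      rw [e4, e14]
      refine le_trans ?_ (hDk 19 (by norm_num))
      have e1 : 4 * D ^ 4 * D ^ 14 = 4 * D ^ 18 := by ring
      rw [e1]
      have e5 := hstep 18
      have e6 : 0 < D ^ 18 := by positivity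
      norm_num at e5
      linarith
    exact_mod_cast h3
  · have h3 : ((20 * 2 ^ x : ℕ) : ℝ) ≤ ((2 ^ H : ℕ) : ℝ) := by
      push_cast
      rw [← hDx]
      refine le_trans ?_ (hDk 2 (by norm_num))
      have e5 := hstep 1
      norm_num at e5
      linarith
    exact_mod_cast h3
  · have h3 : ((H + 2 : ℕ) : ℝ) ≤ ((2 ^ (9 * x) : ℕ) : ℝ) := by
      rw [hpow 9]
      push_cast
      rw [← hyH]
      have e1 : D ^ 2 ≤ D ^ 9 := pow_le_pow_right₀ hD1 (by norm_num)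
      have e5 := hstep 1
      norm_num at e5
      linarith
    exact_mod_cast h3
  · rw [← hDx]
    have e1 : D ^ 2 ≤ D ^ 8 := pow_le_pow_right₀ hD1 (by norm_num)
    have e5 := hstep 1
    norm_num at e5
    linarith
  · intro n hn
    rw [hpow 14, hpow 4]
    refine d_NST y D n (2 ^ (4 * x)) hy h1 hD hy4 hn ?_ ?_
    · exact hpow 4
    · have e1 : (2 : ℝ) ^ H ≤ Real.exp y := by
        rw [hyH]
        have e2 : (2 : ℝ) ≤ Real.exp 1 := by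
          have := Real.add_one_le_exp (1 : ℝ)
          linarith
        calc (2 : ℝ) ^ H ≤ (Real.exp 1) ^ H := by gcongr
          _ = Real.exp (H : ℝ) := by rw [← Real.exp_nat_mul, mul_one]
      refine le_trans ?_ ((hDk 15 (by norm_num)).trans e1)
      have e5 := hstep 14
      have e6 : 0 < D ^ 14 := by positivity
      norm_num at e5
      linarith

end Pool.Agent.Helper56.OS
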