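import Pool.Agent.Helper56.OS.StD

set_option autoImplicit false

open Finset

namespace Pool.Agent.Helper56.OS

private theorem pNUM_a (y p q D κ g : ℝ) (hy : (10 : ℝ) ^ 20 ≤ y) (hcp : ∀ (c : ℝ) (k : ℕ), 0 ≤ c → c ≤ 10 ^ 20 → k ≤ 199 → c * y ^ k ≤ p)
    (hD : y ^ 200 ≤ D) (hDp : D ≤ p) (hq1 : 1 ≤ q) (hqy : q ≤ y)
    (hκ : κ = 1 / (y ^ 39 * Real.sqrt (4 * D)) / 2) (hg : 0 ≤ g) :
    0 < κ ∧ 2 * κ ≤ 1 ∧ 52 * (12 * q) / p ^ 100 ≤ κ ∧ y ^ 9 * (2 * κ) ≤ 1 / 4 ∧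
      y ^ 30 * (y ^ 9 * (2 * κ)) ≤ 1 / 4 := by
  have hy1 : (1 : ℝ) ≤ y := le_trans (by norm_num) hy
  have hy0 : 0 < y := by linarith
  have hy39 : (1 : ℝ) ≤ y ^ 39 := one_le_pow₀ hy1
  have hD16 : (64 : ℝ) ≤ D := by
    have : y ^ 1 ≤ y ^ 200 := pow_le_pow_right₀ hy1 (by norm_num)
    have h2 : (64 : ℝ) ≤ 10 ^ 20 := by norm_num
    rw [pow_one] at this
    linarith
  have hS16 : (16 : ℝ) ≤ Real.sqrt (4 * D) := by
    apply Real.le_sqrt_of_sq_le
    linarith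
  have hSD : Real.sqrt (4 * D) ≤ 2 * D := by
    rw [Real.sqrt_le_left (by linarith)]
    nlinarith
  have hS0 : 0 < Real.sqrt (4 * D) := by linarith
  set S := Real.sqrt (4 * D) with hS
  have hprod : (16 : ℝ) ≤ y ^ 39 * S := by nlinarith
  have hprod0 : 0 < y ^ 39 * S := by linarith
  have hk2 : 2 * κ = 1 / (y ^ 39 * S) := by rw [hκ]; ring
  have hp1 : (1 : ℝ) ≤ p := by
    have := hcp 1 0 (by norm_num) (by norm_num) (by norm_num)
    simpa using this
  refine ⟨?_, ?_, ?_, ?_, ?_⟩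
  · rw [hκ]; positivity
  · rw [hk2, div_le_one hprod0]; linarith
  · have h1 : 52 * (12 * q) * (2 * (y ^ 39 * S)) ≤ p ^ 100 := by
      have e1 : 52 * (12 * q) * (2 * (y ^ 39 * S)) ≤ 52 * (12 * y) * (2 * (y ^ 39 * (2 * D))) := by
        gcongr
      have e2 : 52 * (12 * y) * (2 * (y ^ 39 * (2 * D))) = (2496 * y ^ 40) * D := by ring
      have e3 : 2496 * y ^ 40 ≤ p := hcp 2496 40 (by norm_num) (by norm_num) (by norm_num)
      have e4 : (2496 * y ^ 40) * D ≤ p * p := mul_le_mul e3 hDp (by linarith) (by linarith)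
      have e5 : p * p ≤ p ^ 100 := by
        calc p * p = p ^ 2 := by ring
          _ ≤ p ^ 100 := pow_le_pow_right₀ hp1 (by norm_num)
      linarith
    have hp100 : 0 < p ^ 100 := by positivity
    have hκ' : κ = 1 / (2 * (y ^ 39 * S)) := by
      rw [hκ]; field_simp
    rw [hκ', div_le_div_iff₀ hp100 (by positivity)]
    linarith
  · rw [hk2]
    rw [mul_one_div, div_le_div_iff₀ hprod0 (by norm_num)]
    have h9 : y ^ 9 ≤ y ^ 39 := pow_le_pow_right₀ hy1 (by norm_num)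
    have h9' : 0 < y ^ 9 := by positivity
    nlinarith
  · rw [hk2]
    have e : y ^ 30 * (y ^ 9 * (1 / (y ^ 39 * S))) = 1 / S := by
      field_simp
    rw [e]
    rw [div_le_div_iff₀ hS0 (by norm_num)]
    linarith

private theorem pNUM_term (y p q D κ g om tau Ms : ℝ) (k : ℕ) (hy : (10 : ℝ) ^ 20 ≤ y)
    (hcp : ∀ (c : ℝ) (k : ℕ), 0 ≤ c → c ≤ 10 ^ 20 → k ≤ 199 → c * y ^ k ≤ p)
    (m : ℝ) (hm : D ≤ m) (hmp : m ≤ p ^ 101)
    (hD : y ^ 200 ≤ D) (hq1 : 1 ≤ q) (hqy : q ≤ y) (hκ0 : 0 < κ) (hκ1 : 2 * κ ≤ 1)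
    (hg : 0 ≤ g) (hgp : g ≤ 2 * p ^ 2) (hMs0 : 0 ≤ Ms) (hMs : Ms ≤ 2 * p ^ 2)
    (hom0 : 0 ≤ om) (hom : om ≤ 1 / p ^ 100)
    (htau : tau = (200 * (12 * q) ^ 2 + 54 * (12 * q) + 8 * (12 * q) * Ms) / p ^ 100) :
    (y ^ 9 / m + g * tau) *
      (y ^ 9 / (1 / (y ^ 39 * Real.sqrt (8 * m))) * (2 * (y ^ 18 + (2 * κ) ^ 2) + g * ((2 * κ) ^ 2 * om)))
      ≤ 16 / y ^ 25 := by
  have hy1 : (1 : ℝ) ≤ y := le_trans (by norm_num) hy
  have hy0 : 0 < y := by linarith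
  have hp1 : (1 : ℝ) ≤ p := by
    have := hcp 1 0 (by norm_num) (by norm_num) (by norm_num)
    simpa using this
  have hp0 : 0 < p := by linarith
  have hD1 : (1 : ℝ) ≤ D := le_trans (one_le_pow₀ hy1) hD
  have hm0 : 0 < m := by linarith
  have hp100 : 0 < p ^ 100 := by positivity
  set S := Real.sqrt (8 * m) with hS
  have hS0 : 0 ≤ S := Real.sqrt_nonneg _
  -- the bracket
  have hbr : 2 * (y ^ 18 + (2 * κ) ^ 2) + g * ((2 * κ) ^ 2 * om) ≤ 5 * y ^ 18 := by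
    have h1 : (2 * κ) ^ 2 ≤ 1 := by
      have : 0 ≤ 2 * κ := by linarith
      nlinarith
    have h1' : 0 ≤ (2 * κ) ^ 2 := sq_nonneg _
    have h2 : g * ((2 * κ) ^ 2 * om) ≤ 1 := by
      have e1 : (2 * κ) ^ 2 * om ≤ 1 * (1 / p ^ 100) := mul_le_mul h1 hom hom0 (by norm_num)
      have e2 : g * ((2 * κ) ^ 2 * om) ≤ (2 * p ^ 2) * (1 * (1 / p ^ 100)) :=
        mul_le_mul hgp e1 (by positivity) (by positivity)
      have e3 : (2 * p ^ 2) * (1 * (1 / p ^ 100)) = 2 * p ^ 2 / p ^ 100 := by ring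
      have e4 : 2 * p ^ 2 / p ^ 100 ≤ 1 := by
        rw [div_le_one hp100]
        have h2p : 2 ≤ p := by
          have := hcp 2 0 (by norm_num) (by norm_num) (by norm_num)
          simpa using this
        calc 2 * p ^ 2 ≤ p * p ^ 2 := by gcongr
          _ = p ^ 3 := by ring
          _ ≤ p ^ 100 := pow_le_pow_right₀ hp1 (by norm_num)
      linarith
    have h3 : (1 : ℝ) ≤ y ^ 18 := one_le_pow₀ hy1
    linarith
  have hbr0 : 0 ≤ 2 * (y ^ 18 + (2 * κ) ^ 2) + g * ((2 * κ) ^ 2 * om) := by positivity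
  -- tau
  have htau0 : 0 ≤ tau := by
    rw [htau]; positivity
  have htau1 : tau ≤ 3 * p ^ 3 / p ^ 100 := by
    rw [htau]
    apply div_le_div_of_nonneg_right _ hp100.le
    have e1 : 200 * (12 * q) ^ 2 ≤ p := by
      have : 200 * (12 * q) ^ 2 ≤ 28800 * y ^ 2 := by
        have : q ^ 2 ≤ y ^ 2 := by gcongr
        nlinarith
      exact le_trans this (hcp 28800 2 (by norm_num) (by norm_num) (by norm_num))
    have e2 : 54 * (12 * q) ≤ p := by
      have : 54 * (12 * q) ≤ 648 * y ^ 1 := by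
        rw [pow_one]; linarith
      exact le_trans this (hcp 648 1 (by norm_num) (by norm_num) (by norm_num))
    have e3 : 8 * (12 * q) * Ms ≤ p * p ^ 2 := by
      have a1 : 8 * (12 * q) * Ms ≤ (8 * (12 * y)) * (2 * p ^ 2) := by gcongr
      have a2 : 192 * y ^ 1 ≤ p := hcp 192 1 (by norm_num) (by norm_num) (by norm_num)
      rw [pow_one] at a2
      have a3 : (8 * (12 * y)) * (2 * p ^ 2) = (192 * y) * p ^ 2 := by ring
      have a4 : (192 * y) * p ^ 2 ≤ p * p ^ 2 := by gcongr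
      linarith
    have e4 : p ≤ p ^ 3 := by
      calc p = p ^ 1 := by ring
        _ ≤ p ^ 3 := pow_le_pow_right₀ hp1 (by norm_num)
    have e5 : p * p ^ 2 = p ^ 3 := by ring
    linarith
  have hgt : g * tau ≤ 6 * p ^ 5 / p ^ 100 := by
    calc g * tau ≤ (2 * p ^ 2) * (3 * p ^ 3 / p ^ 100) := mul_le_mul hgp htau1 htau0 (by positivity)
      _ = 6 * p ^ 5 / p ^ 100 := by ring
  have hrw : y ^ 9 / (1 / (y ^ 39 * S)) = y ^ 48 * S := by
    rw [div_div_eq_mul_div, div_one]; ring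
  rw [hrw]
  have hfac : y ^ 48 * S * (2 * (y ^ 18 + (2 * κ) ^ 2) + g * ((2 * κ) ^ 2 * om)) ≤ 5 * y ^ 66 * S := by
    calc y ^ 48 * S * (2 * (y ^ 18 + (2 * κ) ^ 2) + g * ((2 * κ) ^ 2 * om))
        ≤ y ^ 48 * S * (5 * y ^ 18) := by gcongr
      _ = 5 * y ^ 66 * S := by ring
  have hA : y ^ 9 / m * (5 * y ^ 66 * S) ≤ 15 / y ^ 25 := by
    have hsm : y ^ 100 ≤ Real.sqrt m := by
      apply Real.le_sqrt_of_sq_le
      calc (y ^ 100) ^ 2 = y ^ 200 := by ring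
        _ ≤ m := le_trans hD hm
    have hsm0 : 0 < Real.sqrt m := Real.sqrt_pos.mpr hm0
    have hSm : S ≤ 3 * Real.sqrt m := by
      rw [hS]
      rw [Real.sqrt_le_left (by positivity)]
      rw [mul_pow, Real.sq_sqrt hm0.le]
      linarith
    have hmm : Real.sqrt m * Real.sqrt m = m := Real.mul_self_sqrt hm0.le
    have e1 : y ^ 9 / m * (5 * y ^ 66 * S) ≤ y ^ 9 / m * (5 * y ^ 66 * (3 * Real.sqrt m)) := by gcongr
    have e2 : y ^ 9 / m * (5 * y ^ 66 * (3 * Real.sqrt m)) = 15 * y ^ 75 / Real.sqrt m := by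
      nth_rewrite 1 [← hmm]
      field_simp
      ring
    have e3 : 15 * y ^ 75 / Real.sqrt m ≤ 15 * y ^ 75 / y ^ 100 := by gcongr
    have e4 : 15 * y ^ 75 / y ^ 100 = 15 / y ^ 25 := by
      field_simp
    linarith
  have hB : g * tau * (5 * y ^ 66 * S) ≤ 1 / y ^ 25 := by
    have hSp : S ≤ p ^ 52 := by
      rw [hS]
      rw [Real.sqrt_le_left (by positivity)]
      have h8 : (8 : ℝ) ≤ p := by
        have := hcp 8 0 (by norm_num) (by norm_num) (by norm_num)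
        simpa using this
      calc 8 * m ≤ p * p ^ 101 := by
            apply mul_le_mul h8 hmp hm0.le hp0.le
        _ = p ^ 102 := by ring
        _ ≤ p ^ 104 := pow_le_pow_right₀ hp1 (by norm_num)
        _ = (p ^ 52) ^ 2 := by ring
    have e1 : 5 * y ^ 66 * S ≤ p * p ^ 52 := by
      have a1 : 5 * y ^ 66 ≤ p := hcp 5 66 (by norm_num) (by norm_num) (by norm_num)
      exact mul_le_mul a1 hSp hS0 hp0.le
    have e2 : g * tau * (5 * y ^ 66 * S) ≤ (6 * p ^ 5 / p ^ 100) * (p * p ^ 52) :=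
      mul_le_mul hgt e1 (by positivity) (by positivity)
    have e3 : (6 * p ^ 5 / p ^ 100) * (p * p ^ 52) = 6 / p ^ 42 := by
      field_simp
    have e4 : 6 / p ^ 42 ≤ 1 / y ^ 25 := by
      rw [div_le_div_iff₀ (by positivity) (by positivity)]
      have a1 : 6 * y ^ 25 ≤ p := hcp 6 25 (by norm_num) (by norm_num) (by norm_num)
      calc 6 * y ^ 25 ≤ p := a1
        _ = p ^ 1 := by ring
        _ ≤ p ^ 42 := pow_le_pow_right₀ hp1 (by norm_num)
        _ = 1 * p ^ 42 := by ring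
    linarith
  have hX0 : 0 ≤ y ^ 9 / m + g * tau := by positivity
  calc (y ^ 9 / m + g * tau) *
      (y ^ 48 * S * (2 * (y ^ 18 + (2 * κ) ^ 2) + g * ((2 * κ) ^ 2 * om)))
      ≤ (y ^ 9 / m + g * tau) * (5 * y ^ 66 * S) := mul_le_mul_of_nonneg_left hfac hX0
    _ = y ^ 9 / m * (5 * y ^ 66 * S) + g * tau * (5 * y ^ 66 * S) := by ring
    _ ≤ 15 / y ^ 25 + 1 / y ^ 25 := by linarith
    _ = 16 / y ^ 25 := by ring

theorem p_NUM : St_NUM := by
  intro H x T Kc N q Ms hNT g hg0 hgT y κ lam h ε s om δ z tau hyH hκ hlam hh hε hs hom hδ hz htau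
  obtain ⟨hH, hDbig, hDH, hNH, hN1, hq1, hqH, hTN, hKcH, hKc1, hTKc, hMsN, hMs0⟩ := hNT
  rw [← hyH] at hH hDbig hqH
  have hy1 : (1 : ℝ) ≤ y := le_trans (by norm_num) hH
  have hy0 : 0 < y := by linarith
  have hKy : (Kc : ℝ) ≤ y := by rw [hyH]; exact_mod_cast hKcH
  have hK1 : (1 : ℝ) ≤ Kc := by exact_mod_cast hKc1
  have hP1 : (1 : ℝ) ≤ (2 : ℝ) ^ H := one_le_pow₀ (by norm_num)
  -- the hundredth root of P
  obtain ⟨p, hp0, hpP⟩ : ∃ p : ℝ, 0 < p ∧ p ^ 100 = (2 : ℝ) ^ H := by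
    refine ⟨((2 : ℝ) ^ H) ^ ((1 : ℝ) / 100), by positivity, ?_⟩
    rw [← Real.rpow_natCast, ← Real.rpow_mul (by positivity)]
    norm_num
  have hDp : (2 : ℝ) ^ x ≤ p := by
    rw [← hpP] at hDH
    exact le_of_pow_le_pow_left₀ (by norm_num) hp0.le hDH
  have hNp : (N : ℝ) ≤ p ^ 2 := by
    rw [← hpP] at hNH
    have : (N : ℝ) ^ 50 ≤ (p ^ 2) ^ 50 := by
      rw [← pow_mul]; exact hNH
    exact le_of_pow_le_pow_left₀ (by norm_num) (by positivity) this
  have hyp : y ^ 200 ≤ p := le_trans hDbig hDp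
  have hcp : ∀ (c : ℝ) (k : ℕ), 0 ≤ c → c ≤ 10 ^ 20 → k ≤ 199 → c * y ^ k ≤ p := by
    intro c k hc0 hc hk
    calc c * y ^ k ≤ y * y ^ k := by
          apply mul_le_mul_of_nonneg_right (le_trans hc hH) (by positivity)
      _ = y ^ (k + 1) := by ring
      _ ≤ y ^ 200 := pow_le_pow_right₀ hy1 (by omega)
      _ ≤ p := hyp
  have hp1 : (1 : ℝ) ≤ p := by
    have := hcp 1 0 (by norm_num) (by norm_num) (by norm_num)
    simpa using this
  have hp100 : 0 < p ^ 100 := by positivity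
  have hgp : g ≤ 2 * p ^ 2 := by
    have : (T : ℝ) ≤ 2 * N := by exact_mod_cast hTN
    linarith
  have hMsp : Ms ≤ 2 * p ^ 2 := by linarith
  -- exponentials
  have h2e : p ^ 100 ≤ Real.exp y := by
    rw [hpP, hyH]
    have : (2 : ℝ) ≤ Real.exp 1 := by
      have := Real.add_one_le_exp (1 : ℝ)
      linarith
    calc (2 : ℝ) ^ H ≤ (Real.exp 1) ^ H := by gcongr
      _ = Real.exp (H : ℝ) := by rw [← Real.exp_nat_mul]; simp
  have hexp : ∀ u : ℝ, y ≤ u → Real.exp (-u) ≤ 1 / p ^ 100 := by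
    intro u hu
    rw [Real.exp_neg, ← one_div]
    apply one_div_le_one_div_of_le hp100
    exact le_trans h2e (Real.exp_le_exp.mpr hu)
  have hom0 : 0 ≤ om := by rw [hom]; exact (Real.exp_pos _).le
  have hom1 : om ≤ 1 / p ^ 100 := by
    rw [hom]
    apply hexp
    have : (10 : ℝ) ^ 20 * y ≤ y * y := by gcongr
    nlinarith
  have hd0 : 0 < δ := by rw [hδ]; positivity
  have hzz : z ^ (δ / (1 + δ)) ≤ 1 / p ^ 100 := by
    rw [hz, ← Real.exp_mul]
    have : -(y ^ 40) * (δ / (1 + δ)) = -(y ^ 40 * (δ / (1 + δ))) := by ring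
    rw [this]
    apply hexp
    have hd1 : δ ≤ 1 := by
      rw [hδ, div_le_one (by positivity)]
      exact one_le_pow₀ hy1
    have e1 : δ / 2 ≤ δ / (1 + δ) := by
      apply div_le_div_of_nonneg_left hd0.le (by linarith) (by linarith)
    have e2 : y ^ 40 * (δ / 2) = y ^ 3 / 2 := by
      rw [hδ]; field_simp
    have e3 : y ≤ y ^ 3 / 2 := by
      have a1 : (10 : ℝ) ^ 20 * y ^ 2 ≤ y * y ^ 2 := by gcongr
      have a2 : y ≤ y ^ 2 := by nlinarith
      nlinarith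
    calc y ≤ y ^ 3 / 2 := e3
      _ = y ^ 40 * (δ / 2) := e2.symm
      _ ≤ y ^ 40 * (δ / (1 + δ)) := by gcongr
  have hzz0 : 0 ≤ z ^ (δ / (1 + δ)) := by
    apply Real.rpow_nonneg
    rw [hz]; exact (Real.exp_pos _).le
  -- kappa
  have hκ' : κ = 1 / (y ^ 39 * Real.sqrt (4 * (2 : ℝ) ^ x)) / 2 := by
    rw [hκ, tk, pow_zero, mul_one, ← hyH]
  obtain ⟨k1, k2, k3, k4, k5⟩ := pNUM_a y p q ((2 : ℝ) ^ x) κ g hH hcp hDbig hDp hq1 hqH hκ' hg0
  have hsmall : ∀ (c : ℝ) (a : ℕ), 0 ≤ c → c ≤ 10 ^ 20 → a ≤ 150 → g * (c * y ^ a / p ^ 100) ≤ 1 / y ^ 30 := by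
    intro c a hc0 hc ha
    have e1 : c * y ^ a ≤ p := hcp c a hc0 hc (by omega)
    have e2 : g * (c * y ^ a / p ^ 100) ≤ (2 * p ^ 2) * (p / p ^ 100) := by gcongr
    have e3 : (2 * p ^ 2) * (p / p ^ 100) = 2 / p ^ 97 := by
      field_simp
    have e4 : 2 / p ^ 97 ≤ 1 / y ^ 30 := by
      rw [div_le_div_iff₀ (by positivity) (by positivity)]
      have a1 : 2 * y ^ 30 ≤ p := hcp 2 30 (by norm_num) (by norm_num) (by norm_num)
      calc 2 * y ^ 30 ≤ p := a1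
        _ = p ^ 1 := by ring
        _ ≤ p ^ 97 := pow_le_pow_right₀ hp1 (by norm_num)
        _ = 1 * p ^ 97 := by ring
    linarith
  have h30 : 1 / y ^ 30 ≤ 1 / y ^ 20 / 10 ^ 20 := by
    rw [div_div]
    apply one_div_le_one_div_of_le (by positivity)
    have : y ^ 20 * 10 ^ 20 ≤ y ^ 20 * y := by gcongr
    have h21 : y ^ 20 * y ≤ y ^ 30 := by
      calc y ^ 20 * y = y ^ 21 := by ring
        _ ≤ y ^ 30 := pow_le_pow_right₀ hy1 (by norm_num)
    linarith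
  have hdl : δ * (lam ^ 2 * (h + (2 * κ) ^ 2)) ≤ 1 := by
    have h1 : (2 * κ) ^ 2 ≤ 1 := by nlinarith
    have h18 : (1 : ℝ) ≤ y ^ 18 := one_le_pow₀ hy1
    have e1 : lam ^ 2 * (h + (2 * κ) ^ 2) ≤ y ^ 37 := by
      rw [hlam, hh]
      calc (y ^ 9) ^ 2 * (y ^ 18 + (2 * κ) ^ 2) ≤ (y ^ 9) ^ 2 * (y ^ 18 + y ^ 18) := by
            gcongr; linarith
        _ = 2 * y ^ 36 := by ring
        _ ≤ y * y ^ 36 := by
            apply mul_le_mul_of_nonneg_right _ (by positivity)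
            linarith
        _ = y ^ 37 := by ring
    rw [hδ]
    rw [div_mul_eq_mul_div, one_mul, div_le_one (by positivity)]
    exact e1
  have hy20 : 1 / y ^ 20 ≤ 1 / 100 := by
    apply one_div_le_one_div_of_le (by norm_num)
    calc (100 : ℝ) ≤ y := by linarith
      _ = y ^ 1 := by ring
      _ ≤ y ^ 20 := pow_le_pow_right₀ hy1 (by norm_num)
  have hy20' : 0 < 1 / y ^ 20 := by positivity
  refine ⟨⟨k1, ?_, ?_, ?_, ?_, ?_, ?_, ?_, ?_, ?_, hd0, ?_, hdl⟩, ?_, ?_, ?_, ?_⟩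
  · rw [← hpP]; exact k3
  · rw [hlam]; exact one_le_pow₀ hy1
  · rw [hlam]; exact k4
  · rw [hs]
    calc (2 : ℝ) ≤ y := by linarith
      _ = y ^ 1 := by ring
      _ ≤ y ^ 30 := pow_le_pow_right₀ hy1 (by norm_num)
  · rw [hs, hlam]; exact k5
  · rw [hε]; positivity
  · rw [hε]
    rw [div_le_div_iff₀ (by positivity) (by norm_num)]
    calc (1 : ℝ) * 4 ≤ y := by linarith
      _ = y ^ 1 := by ring
      _ ≤ y ^ 28 := pow_le_pow_right₀ hy1 (by norm_num)
      _ = 1 * y ^ 28 := by ring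
  · rw [hε]
    rw [mul_one_div, div_le_one (by positivity)]
    calc 8 * (Kc : ℝ) ≤ y * y := by
          apply mul_le_mul _ hKy (by positivity) hy0.le
          linarith
      _ = y ^ 2 := by ring
      _ ≤ y ^ 28 := pow_le_pow_right₀ hy1 (by norm_num)
  · rw [hh]; positivity
  · rw [hδ]
    rw [div_le_div_iff₀ (by positivity) (by norm_num)]
    calc (1 : ℝ) * 4 ≤ y := by linarith
      _ = y ^ 1 := by ring
      _ ≤ y ^ 37 := pow_le_pow_right₀ hy1 (by norm_num)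
      _ = 1 * y ^ 37 := by ring
  · -- (b)
    intro k hk
    rw [hom]
    apply Real.exp_le_exp.mpr
    have hsq : Real.sqrt (4 * ((2 : ℝ) ^ x * 2 ^ k)) ^ 2 = 4 * ((2 : ℝ) ^ x * 2 ^ k) :=
      Real.sq_sqrt (by positivity)
    have htk : tk H x k ^ 2 = 1 / (y ^ 78 * (4 * ((2 : ℝ) ^ x * 2 ^ k))) := by
      rw [tk, ← hyH, div_pow, mul_pow, hsq]
      ring
    have e1 : 5 * s ^ 2 * (4 * (((2 ^ x : ℕ) : ℝ) * 2 ^ k) * (lam ^ 2 * tk H x k ^ 2)) = 5 := by
      rw [htk, hs, hlam]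
      push_cast
      have h2x : (0 : ℝ) < 2 ^ x := by positivity
      have h2k : (0 : ℝ) < 2 ^ k := by positivity
      field_simp
      try ring
    have e2 : s * ε / 4 = y ^ 2 / 4 := by
      rw [hs, hε]
      field_simp
    rw [e1, e2]
    have : (10 : ℝ) ^ 20 * 1 ≤ y * y := by
      apply mul_le_mul hH hy1 (by norm_num) hy0.le
    nlinarith
  · -- (c)
    have hterm : ∀ k ∈ Ico 1 Kc, (y ^ 9 / 2 ^ (x + k - 1) + g * tau) *
        (lam / tk H x k * (2 * (h + (2 * κ) ^ 2) + g * ((2 * κ) ^ 2 * om))) ≤ 16 / y ^ 25 := by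
      intro k hk
      rw [mem_Ico] at hk
      have hm1 : (2 : ℝ) ^ x ≤ 2 ^ (x + k - 1) := pow_le_pow_right₀ (by norm_num) (by omega)
      have hm2 : (2 : ℝ) ^ (x + k - 1) ≤ p ^ 101 := by
        calc (2 : ℝ) ^ (x + k - 1) ≤ 2 ^ (x + H) := pow_le_pow_right₀ (by norm_num) (by omega)
          _ = 2 ^ x * 2 ^ H := by rw [pow_add]
          _ ≤ p * p ^ 100 := by
              rw [hpP]
              apply mul_le_mul_of_nonneg_right hDp (by positivity)
          _ = p ^ 101 := by ring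
      have htau' : tau = (200 * (12 * q) ^ 2 + 54 * (12 * q) + 8 * (12 * q) * Ms) / p ^ 100 := by
        rw [htau, hpP]
      have := pNUM_term y p q ((2 : ℝ) ^ x) κ g om tau Ms k hH hcp ((2 : ℝ) ^ (x + k - 1)) hm1 hm2 hDbig hq1
        hqH k1 k2 hg0 hgp hMs0 hMsp hom0 hom1 htau'
      have htk : tk H x k = 1 / (y ^ 39 * Real.sqrt (8 * (2 : ℝ) ^ (x + k - 1))) := by
        rw [tk, ← hyH]
        congr 3
        obtain ⟨k', rfl⟩ : ∃ k', k = k' + 1 := ⟨k - 1, by omega⟩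
        have : x + (k' + 1) - 1 = x + k' := by omega
        rw [this, pow_add, pow_succ]
        ring
      rw [htk, hlam, hh]
      exact this
    calc (∑ k ∈ Ico 1 Kc, (y ^ 9 / 2 ^ (x + k - 1) + g * tau) *
        (lam / tk H x k * (2 * (h + (2 * κ) ^ 2) + g * ((2 * κ) ^ 2 * om))))
        ≤ ∑ k ∈ Ico 1 Kc, 16 / y ^ 25 := sum_le_sum hterm
      _ = ((Kc - 1 : ℕ) : ℝ) * (16 / y ^ 25) := by
          rw [sum_const, Nat.card_Ico, nsmul_eq_mul]
      _ ≤ y * (16 / y ^ 25) := by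
          apply mul_le_mul_of_nonneg_right _ (by positivity)
          refine le_trans ?_ hKy
          exact_mod_cast Nat.sub_le _ _
      _ = 16 / y ^ 24 := by field_simp
      _ ≤ 1 / y ^ 20 := by
          rw [div_le_div_iff₀ (by positivity) (by positivity)]
          calc 16 * y ^ 20 ≤ y ^ 4 * y ^ 20 := by
                apply mul_le_mul_of_nonneg_right _ (by positivity)
                calc (16 : ℝ) ≤ y := by linarith
                  _ = y ^ 1 := by ring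
                  _ ≤ y ^ 4 := pow_le_pow_right₀ hy1 (by norm_num)
            _ = 1 * y ^ 24 := by ring
  · -- (d)
    intro E2 hE2
    have e1 : g * (81 * (12 * q) ^ 2 / 2 ^ H) ≤ 1 / y ^ 30 := by
      have a1 : g * (81 * (12 * q) ^ 2 / 2 ^ H) ≤ g * (11664 * y ^ 2 / p ^ 100) := by
        rw [hpP]
        apply mul_le_mul_of_nonneg_left _ hg0
        apply div_le_div_of_nonneg_right _ (by positivity)
        have : q ^ 2 ≤ y ^ 2 := by gcongr
        nlinarith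
      exact le_trans a1 (hsmall 11664 2 (by norm_num) (by norm_num) (by norm_num))
    have e2 : g * (4 * Kc * (om * (24 * q) ^ 2)) ≤ 1 / y ^ 30 := by
      have a1 : 4 * (Kc : ℝ) * (om * (24 * q) ^ 2) ≤ 2304 * y ^ 3 / p ^ 100 := by
        have b1 : 4 * (Kc : ℝ) * (om * (24 * q) ^ 2) ≤ 4 * y * (1 / p ^ 100 * (24 * y) ^ 2) := by gcongr
        have b2 : 4 * y * (1 / p ^ 100 * (24 * y) ^ 2) = 2304 * y ^ 3 / p ^ 100 := by ring
        linarith
      exact le_trans (mul_le_mul_of_nonneg_left a1 hg0)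
        (hsmall 2304 3 (by norm_num) (by norm_num) (by norm_num))
    have h30' : 1 / y ^ 30 ≤ 1 / 100 := by
      have : 1 / y ^ 20 / 10 ^ 20 ≤ 1 / y ^ 20 := by
        apply div_le_self hy20'.le
        norm_num
      linarith
    linarith
  · -- (e)
    have e0 : g * (3 * (24 * q) * z ^ (δ / (1 + δ))) ≤ 1 / y ^ 30 := by
      have a1 : 3 * (24 * q) * z ^ (δ / (1 + δ)) ≤ 72 * y ^ 1 / p ^ 100 := by
        have b1 : 3 * (24 * q) * z ^ (δ / (1 + δ)) ≤ 3 * (24 * y) * (1 / p ^ 100) := by gcongr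
        have b2 : 3 * (24 * y) * (1 / p ^ 100) = 72 * y ^ 1 / p ^ 100 := by ring
        linarith
      exact le_trans (mul_le_mul_of_nonneg_left a1 hg0)
        (hsmall 72 1 (by norm_num) (by norm_num) (by norm_num))
    have e2 : g * (4 * Kc * (om * (24 * q))) ≤ 1 / y ^ 30 := by
      have a1 : 4 * (Kc : ℝ) * (om * (24 * q)) ≤ 96 * y ^ 2 / p ^ 100 := by
        have b1 : 4 * (Kc : ℝ) * (om * (24 * q)) ≤ 4 * y * (1 / p ^ 100 * (24 * y)) := by gcongr
        have b2 : 4 * y * (1 / p ^ 100 * (24 * y)) = 96 * y ^ 2 / p ^ 100 := by ring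
        linarith
      exact le_trans (mul_le_mul_of_nonneg_left a1 hg0)
        (hsmall 96 2 (by norm_num) (by norm_num) (by norm_num))
    have e3 : g * (27 * (12 * q) / 2 ^ H) ≤ 1 / y ^ 30 := by
      have a1 : g * (27 * (12 * q) / 2 ^ H) ≤ g * (324 * y ^ 1 / p ^ 100) := by
        rw [hpP]
        apply mul_le_mul_of_nonneg_left _ hg0
        apply div_le_div_of_nonneg_right _ (by positivity)
        rw [pow_one]
        linarith
      exact le_trans a1 (hsmall 324 1 (by norm_num) (by norm_num) (by norm_num))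
    have e4 : 3 / Real.sqrt h = 3 / y ^ 9 := by
      rw [hh]
      congr 1
      rw [show y ^ 18 = (y ^ 9) ^ 2 by ring, Real.sqrt_sq (by positivity)]
    have e5 : 2 * ε * Kc * (Real.sqrt (20 + 124 * (lam ^ 2 * (h + (2 * κ) ^ 2))) * Real.sqrt 3) ≤
        48 / y ^ 9 := by
      have h1 : (2 * κ) ^ 2 ≤ 1 := by nlinarith
      have h18 : (1 : ℝ) ≤ y ^ 18 := one_le_pow₀ hy1
      have h18' : (1000 : ℝ) ≤ y ^ 18 := by
        calc (1000 : ℝ) ≤ y := by linarith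
          _ = y ^ 1 := by ring
          _ ≤ y ^ 18 := pow_le_pow_right₀ hy1 (by norm_num)
      have b1 : Real.sqrt (20 + 124 * (lam ^ 2 * (h + (2 * κ) ^ 2))) ≤ 12 * y ^ 18 := by
        rw [Real.sqrt_le_left (by positivity)]
        rw [hlam, hh]
        have c1 : (y ^ 9) ^ 2 * (y ^ 18 + (2 * κ) ^ 2) ≤ y ^ 18 * (y ^ 18 + 1) := by
          rw [show (y ^ 9) ^ 2 = y ^ 18 by ring]
          gcongr
        have c2 : 20 + 124 * (y ^ 18 * (y ^ 18 + 1)) ≤ (12 * y ^ 18) ^ 2 := by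
          nlinarith
        linarith
      have b2 : Real.sqrt 3 ≤ 2 := by
        rw [Real.sqrt_le_left (by norm_num)]
        norm_num
      have b3 : Real.sqrt (20 + 124 * (lam ^ 2 * (h + (2 * κ) ^ 2))) * Real.sqrt 3 ≤ 12 * y ^ 18 * 2 :=
        mul_le_mul b1 b2 (Real.sqrt_nonneg _) (by positivity)
      have b4 : 2 * ε * Kc ≤ 2 * (1 / y ^ 28) * y := by
        rw [hε]; gcongr
      have b5 : 2 * ε * Kc * (Real.sqrt (20 + 124 * (lam ^ 2 * (h + (2 * κ) ^ 2))) * Real.sqrt 3) ≤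
          2 * (1 / y ^ 28) * y * (12 * y ^ 18 * 2) := by
        apply mul_le_mul b4 b3 (by positivity) (by positivity)
      have b6 : 2 * (1 / y ^ 28) * y * (12 * y ^ 18 * 2) = 48 / y ^ 9 := by
        field_simp
        norm_num
      linarith
    have e6 : 2 / lam = 2 / y ^ 9 := by rw [hlam]
    rw [e4, e6]
    have h9 : 1 / y ^ 20 ≤ 1 / y ^ 9 := by
      apply one_div_le_one_div_of_le (by positivity)
      exact pow_le_pow_right₀ hy1 (by norm_num)
    have h30' : 1 / y ^ 30 ≤ 1 / y ^ 9 := by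
      apply one_div_le_one_div_of_le (by positivity)
      exact pow_le_pow_right₀ hy1 (by norm_num)
    have h9' : 0 < 1 / y ^ 9 := by positivity
    have hfin : 60 * (1 / y ^ 9) < 1 / (2 * y ^ 8) := by
      rw [mul_one_div, div_lt_div_iff₀ (by positivity) (by positivity)]
      have : y ^ 9 = y ^ 8 * y := by ring
      rw [this]
      have h8 : 0 < y ^ 8 := by positivity
      nlinarith
    have r1 : 2 / y ^ 9 = 2 * (1 / y ^ 9) := by ring
    have r2 : 3 / y ^ 9 = 3 * (1 / y ^ 9) := by ring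
    have r3 : 48 / y ^ 9 = 48 * (1 / y ^ 9) := by ring
    rw [r1, r2]
    rw [r3] at e5
    linarith

end Pool.Agent.Helper56.OS
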