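import Pool.Agent.Helper56.OS.StC
import Pool.Agent.Helper57.SN.M_count

/-! # Project OS, module OCC: occupied octaves. -/

set_option autoImplicit false

open Finset

namespace Pool.Agent.Helper56.OS

open Pool.Agent.Helper57.SN (Spn m_count)

theorem p_OCC : St_OCC := by
  intro H R m1 D hD hm E hE
  by_contra hcard
  push Not at hcard
  choose! gg hgg using hE
  obtain ⟨r, -, hr⟩ := Finset.exists_lt_card_fiber_of_mul_lt_card_of_maps_to (s := E) (t := range 3)
    (f := fun e => e % 3) (n := H * R) (fun a _ => mem_range.mpr (Nat.mod_lt _ (by norm_num)))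
    (by rw [card_range]; exact hcard)
  set S := E.filter (fun e => e % 3 = r) with hS
  set f : ℕ → ℕ := fun i => if h : i < S.card then S.orderEmbOfFin rfl ⟨i, h⟩ else 0 with hf
  have hfS : ∀ i, i < S.card → f i ∈ S := by
    intro i hi
    rw [hf]
    simp only [hi, dif_pos]
    exact Finset.orderEmbOfFin_mem S rfl _
  have hflt : ∀ i, i + 1 < S.card → f i < f (i + 1) := by
    intro i hi
    rw [hf]
    simp only [hi, (Nat.lt_of_succ_lt hi), dif_pos]
    exact (S.orderEmbOfFin rfl).strictMono (by rw [Fin.mk_lt_mk]; omega)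
  have hle : H * R + 1 ≤ S.card := hr
  have hg : ∀ i, i < H * R + 1 → Spn m1 D (gg (f i)) ∧ 2 ^ (f i) ≤ gg (f i) ∧
      gg (f i) < 2 ^ (f i + 1) := fun i hi =>
    hgg _ (mem_filter.mp (hfS i (by omega))).1
  have hpos : ∀ i, i < H * R + 1 → 0 < gg (f i) := fun i hi =>
    lt_of_lt_of_le (by positivity) (hg i hi).2.1
  have key := m_count (H * R + 1) m1 D (fun i => gg (f i)) (fun i hi => (hg i hi).1)
    (fun i hi => (hpos i hi).ne') (fun i hi => by
      have h1 := hg i (by omega)
      have h2 := hg (i + 1) hi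
      have h3 := hflt i (by omega)
      have h4 := (mem_filter.mp (hfS i (by omega))).2
      have h5 := (mem_filter.mp (hfS (i + 1) (by omega))).2
      have h6 : f i + 3 ≤ f (i + 1) := by omega
      have h7 : (2 : ℤ) ^ (f i + 3) ≤ 2 ^ (f (i + 1)) := pow_le_pow_right₀ (by norm_num) h6
      have h8 : (2 : ℤ) ^ (f i + 3) = 4 * 2 ^ (f i + 1) := by ring
      rw [abs_of_pos (hpos i (by omega)), abs_of_pos (hpos (i + 1) hi)]
      linarith)
  have h9 : (2 * (H * R + 1) * m1 + 1) ^ D.card ≤ 2 ^ (H * R) := by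
    calc (2 * (H * R + 1) * m1 + 1) ^ D.card ≤ (2 ^ H) ^ D.card := Nat.pow_le_pow_left hm _
      _ ≤ (2 ^ H) ^ R := Nat.pow_le_pow_right (by positivity) hD
      _ = 2 ^ (H * R) := (pow_mul _ _ _).symm
  have h10 : 2 ^ (H * R + 1) ≤ 2 ^ (H * R) := key.trans h9
  have h11 : 2 ^ (H * R) < 2 ^ (H * R + 1) := Nat.pow_lt_pow_right (by norm_num) (by omega)
  omega

end Pool.Agent.Helper56.OS
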