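import Pool.Agent.Helper56.OS.StA

set_option autoImplicit false

open Finset

namespace Pool.Agent.Helper56.OS

open Pool.Agent.Helper56.SS

section

variable {Ω : Type} [Fintype Ω]

private theorem dM_meas_ORTH (F : Fil Ω) (f : Ω → ℝ) (n : ℕ) : F.Meas (n + 1) (dM F f n) := by
  intro w w' hw
  unfold dM
  rw [F.C_meas (n + 1) f w w' hw, F.C_meas n f w w' (F.ref n w w' hw)]

private theorem C_dM_ORTH (F : Fil Ω) (f : Ω → ℝ) (n : ℕ) (w : Ω) : F.C n (dM F f n) w = 0 := by
  have e : dM F f n = fun w => F.C (n + 1) f w - F.C n f w := rfl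
  rw [e, F.C_sub, F.tower (Nat.le_succ n) f w, F.C_of_meas (F.C_meas n f) w, sub_self]

private theorem E_zero_of_ORTH (F : Fil Ω) {n : ℕ} {g h : Ω → ℝ} (hg : F.Meas n g)
    (hh : ∀ w, F.C n h w = 0) : E (fun w => g w * h w) = 0 := by
  rw [← F.E_mul_C hg h]
  have : (fun w => g w * F.C n h w) = fun _ => (0 : ℝ) := by
    funext w; rw [hh]; ring
  rw [this, E_zero]

private theorem abs_C_le_ORTH (F : Fil Ω) {f : Ω → ℝ} (hf : ∀ w, |f w| ≤ 1) (n : ℕ) (w : Ω) :
    |F.C n f w| ≤ 1 := by
  rw [abs_le]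
  constructor
  · have := F.C_mono (j := n) (g := fun _ => (-1 : ℝ)) (h := f)
      (fun w => (abs_le.mp (hf w)).1) w
    rwa [F.C_const] at this
  · have := F.C_mono (j := n) (g := f) (h := fun _ => (1 : ℝ))
      (fun w => (abs_le.mp (hf w)).2) w
    rwa [F.C_const] at this

private theorem one_ORTH (F : Fil Ω) (f : Ω → ℝ) (c a n : ℕ) (hc : c ≤ a) (han : a ≤ n) (w : Ω) :
    F.C c (fun v => (F.C n f v - F.C a f v) ^ 2) w =
      ∑ l ∈ Ico a n, F.C c (fun v => dM F f l v ^ 2) w := by
  induction n, han using Nat.le_induction with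
  | base =>
    have : (fun v => (F.C a f v - F.C a f v) ^ 2) = fun _ => (0 : ℝ) := by
      funext v; ring
    rw [this, F.C_const]
    simp
  | succ n han ih =>
    rw [sum_Ico_succ_top han, ← ih]
    have e : (fun v => (F.C (n + 1) f v - F.C a f v) ^ 2) = fun v =>
        ((F.C n f v - F.C a f v) ^ 2 + dM F f n v ^ 2) +
          (2 * (F.C n f v - F.C a f v)) * dM F f n v := by
      funext v; unfold dM; ring
    rw [e, F.C_add, F.C_add]
    have hm : F.Meas n (fun v => 2 * (F.C n f v - F.C a f v)) := by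
      intro v v' hv
      show 2 * (F.C n f v - F.C a f v) = 2 * (F.C n f v' - F.C a f v')
      rw [F.C_meas n f v v' hv, F.C_meas a f v v' (F.lab_mono han hv)]
    have h0 : F.C c (fun v => (2 * (F.C n f v - F.C a f v)) * dM F f n v) w = 0 := by
      rw [← F.tower (le_trans hc han)]
      have : F.C n (fun v => (2 * (F.C n f v - F.C a f v)) * dM F f n v) = fun _ => (0 : ℝ) := by
        funext v
        rw [F.C_mul_meas hm, C_dM_ORTH, mul_zero]
      rw [this, F.C_const]
    rw [h0, add_zero]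

private theorem two_ORTH [Nonempty Ω] (d : Dat Ω) (hd : Hyp d) (f : Ω → ℝ) (hf : ∀ w, |f w| ≤ 1)
    (a n : ℕ) (han : a ≤ n) :
    E (fun w => d.R n w * (d.F.C n f w - d.F.C a f w) ^ 2) ≤
    ∑ l ∈ Ico a n, (4 * E (fun w => d.R l w * d.F.C l (fun v => dM d.F f l v ^ 2) w) +
      2 * E (fun w => d.R l w * d.F.C l (fun v => d.x l v ^ 2) w)) := by
  induction n, han using Nat.le_induction with
  | base =>
    have : (fun w => d.R a w * (d.F.C a f w - d.F.C a f w) ^ 2) = fun _ => (0 : ℝ) := by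
      funext v; ring
    rw [this, E_zero]
    simp
  | succ n han ih =>
    rw [sum_Ico_succ_top han]
    refine le_trans ?_ (add_le_add_left ih _)
    set Z : Ω → ℝ := fun w => d.F.C n f w - d.F.C a f w with hZ
    have hZm : d.F.Meas n Z := by
      intro v v' hv
      show d.F.C n f v - d.F.C a f v = d.F.C n f v' - d.F.C a f v'
      rw [d.F.C_meas n f v v' hv, d.F.C_meas a f v v' (d.F.lab_mono han hv)]
    have hZ2 : ∀ w, |Z w| ≤ 2 := by
      intro w
      have h1 := abs_C_le_ORTH d.F hf n w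
      have h2 := abs_C_le_ORTH d.F hf a w
      have := abs_sub (d.F.C n f w) (d.F.C a f w)
      show |d.F.C n f w - d.F.C a f w| ≤ 2
      linarith
    have hpt : ∀ w, d.R (n + 1) w * (d.F.C (n + 1) f w - d.F.C a f w) ^ 2 ≤
        (((d.R n w * Z w ^ 2 + (d.R n w * (2 * Z w)) * dM d.F f n w) +
          (d.R n w * Z w ^ 2) * d.x n w) + 4 * (d.R n w * dM d.F f n w ^ 2)) +
          2 * (d.R n w * d.x n w ^ 2) := by
      intro w
      have hR := hd.R_pos n w
      rw [hd.R_succ]
      have hx := hd.abs_x_le' n w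
      have e : d.F.C (n + 1) f w - d.F.C a f w = Z w + dM d.F f n w := by
        simp only [hZ, dM]; ring
      rw [e]
      set x := d.x n w
      set z := Z w
      set D := dM d.F f n w
      have hz := hZ2 w
      have key : (1 + x) * (z + D) ^ 2 ≤ z ^ 2 + 2 * z * D + z ^ 2 * x + 4 * D ^ 2 + 2 * x ^ 2 := by
        have h1 : x * D ^ 2 ≤ D ^ 2 / 4 := by
          have := (abs_le.mp hx).2
          nlinarith [sq_nonneg D]
        have h2 : 2 * x * z * D ≤ 2 * x ^ 2 + 2 * D ^ 2 := by
          have h3 : x * z * D ≤ |x| * 2 * |D| := by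
            calc x * z * D ≤ |x * z * D| := le_abs_self _
              _ = |x| * |z| * |D| := by rw [abs_mul, abs_mul]
              _ ≤ |x| * 2 * |D| := by gcongr
          nlinarith [sq_abs x, sq_abs D, sq_nonneg (|x| - |D|)]
        nlinarith [sq_nonneg D]
      calc d.R n w * (1 + x) * (z + D) ^ 2 = d.R n w * ((1 + x) * (z + D) ^ 2) := by ring
        _ ≤ d.R n w * (z ^ 2 + 2 * z * D + z ^ 2 * x + 4 * D ^ 2 + 2 * x ^ 2) :=
            mul_le_mul_of_nonneg_left key hR.le
        _ = _ := by ring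
    refine le_trans (E_mono hpt) ?_
    rw [E_add, E_add, E_add, E_add, E_mul_left, E_mul_left]
    have z1 : E (fun w => (d.R n w * (2 * Z w)) * dM d.F f n w) = 0 := by
      apply E_zero_of_ORTH d.F (n := n)
      · exact (hd.R_meas n).mul ((d.F.meas_const n 2).mul hZm)
      · intro w; exact C_dM_ORTH d.F f n w
    have z2 : E (fun w => (d.R n w * Z w ^ 2) * d.x n w) = 0 := by
      apply E_zero_of_ORTH d.F (n := n)
      · exact (hd.R_meas n).mul (hZm.comp (fun t => t ^ 2))
      · intro w; exact hd.C_x n w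
    rw [z1, z2, ← d.F.E_mul_C (hd.R_meas n) (fun w => dM d.F f n w ^ 2),
      ← d.F.E_mul_C (hd.R_meas n) (fun w => d.x n w ^ 2)]
    linarith

private theorem pos_ORTH (d : Dat Ω) (hd : Hyp d) (a n : ℕ) (w : Ω) :
    0 < ∏ i ∈ Ico a n, (1 + d.x i w) :=
  prod_pos (fun i _ => by have := hd.one_add_x_pos i w; linarith)

private theorem meas_ORTH (d : Dat Ω) (hd : Hyp d) (a n : ℕ) :
    d.F.Meas n (fun w => ∏ i ∈ Ico a n, (1 + d.x i w)) := by
  apply Fil.Meas.prod
  intro i hi
  have hi' : i + 1 ≤ n := (mem_Ico.mp hi).2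
  exact ((d.F.meas_const (i + 1) 1).add (hd.x_meas i)).mono hi'

private theorem four_ORTH (d : Dat Ω) (hd : Hyp d) (a n : ℕ) (han : a ≤ n) (w : Ω) :
    d.F.C a (fun v => ∏ i ∈ Ico a n, (1 + d.x i v)) w = 1 := by
  induction n, han using Nat.le_induction with
  | base =>
    simp only [Ico_self, prod_empty]
    exact d.F.C_const a 1 w
  | succ n han ih =>
    have e : (fun v => ∏ i ∈ Ico a (n + 1), (1 + d.x i v)) = fun v =>
        (∏ i ∈ Ico a n, (1 + d.x i v)) + (∏ i ∈ Ico a n, (1 + d.x i v)) * d.x n v := by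
      funext v; rw [prod_Ico_succ_top han]; ring
    rw [e, d.F.C_add, ih]
    have h0 : d.F.C a (fun v => (∏ i ∈ Ico a n, (1 + d.x i v)) * d.x n v) w = 0 := by
      rw [← d.F.tower han]
      have : d.F.C n (fun v => (∏ i ∈ Ico a n, (1 + d.x i v)) * d.x n v) = fun _ => (0 : ℝ) := by
        funext v
        rw [d.F.C_mul_meas (meas_ORTH d hd a n), hd.C_x, mul_zero]
      rw [this, d.F.C_const]
    rw [h0, add_zero]

private theorem five_ORTH [Nonempty Ω] (d : Dat Ω) (hd : Hyp d) (a n : ℕ) (han : a ≤ n) :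
    E (fun w => d.R n w * Real.log (∏ i ∈ Ico a n, (1 + d.x i w))) ≤
    ∑ l ∈ Ico a n, E (fun w => d.R l w * d.F.C l (fun v => d.x l v ^ 2) w) := by
  induction n, han using Nat.le_induction with
  | base =>
    simp only [Ico_self, prod_empty, Real.log_one, mul_zero, sum_empty]
    rw [E_zero]
  | succ n han ih =>
    rw [sum_Ico_succ_top han]
    refine le_trans ?_ (add_le_add_left ih _)
    have hpt : ∀ w, d.R (n + 1) w * Real.log (∏ i ∈ Ico a (n + 1), (1 + d.x i w)) ≤
        ((d.R n w * Real.log (∏ i ∈ Ico a n, (1 + d.x i w)) +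
          (d.R n w * Real.log (∏ i ∈ Ico a n, (1 + d.x i w))) * d.x n w) +
          d.R n w * d.x n w) + d.R n w * d.x n w ^ 2 := by
      intro w
      have hR := hd.R_pos n w
      have hp := pos_ORTH d hd a n w
      have hx := hd.one_add_x_pos n w
      have hx0 : 0 < 1 + d.x n w := by linarith
      rw [prod_Ico_succ_top han, Real.log_mul hp.ne' hx0.ne', hd.R_succ]
      have hl : Real.log (1 + d.x n w) ≤ d.x n w := by
        have := Real.log_le_sub_one_of_pos hx0
        linarith
      have h2 : d.R n w * (1 + d.x n w) * Real.log (1 + d.x n w) ≤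
          d.R n w * (1 + d.x n w) * d.x n w := by
        apply mul_le_mul_of_nonneg_left hl (by positivity)
      nlinarith
    refine le_trans (E_mono hpt) ?_
    rw [E_add, E_add, E_add]
    have z1 : E (fun w => (d.R n w * Real.log (∏ i ∈ Ico a n, (1 + d.x i w))) * d.x n w) = 0 := by
      apply E_zero_of_ORTH d.F (n := n)
      · exact (hd.R_meas n).mul ((meas_ORTH d hd a n).comp Real.log)
      · intro w; exact hd.C_x n w
    have z2 : E (fun w => d.R n w * d.x n w) = 0 := by
      apply E_zero_of_ORTH d.F (n := n) (hd.R_meas n)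
      intro w; exact hd.C_x n w
    rw [z1, z2, ← d.F.E_mul_C (hd.R_meas n) (fun w => d.x n w ^ 2)]
    linarith

end

theorem p_ORTH : S_ORTH := by
  intro Ω _ _ d hd f hf a n han
  refine ⟨fun c hc w => one_ORTH d.F f c a n hc han w, two_ORTH d hd f hf a n han,
    pos_ORTH d hd a n, ?_, four_ORTH d hd a n han, five_ORTH d hd a n han⟩
  intro w
  unfold Dat.R
  rw [prod_range_mul_prod_Ico _ han]

end Pool.Agent.Helper56.OS
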