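import Pool.Agent.Helper56.OS.StC
import Pool.Agent.Helper57.SN.M_Rf
import Pool.Agent.Helper57.SN.M_orth

/-! # Project OS, module OSC: the coefficients vary slowly -/

set_option autoImplicit false

open Finset

namespace Pool.Agent.Helper56.OS

open Pool.Agent.Helper57.SN (co si SS dd th Spn stm av BC blk Lv ker Wt Rf St_ker St_Rf St_count St_avg m_Rf m_orth)

private theorem split_OSC {ι : Type} [Fintype ι] [DecidableEq ι] (Sp : Option ι → Finset ℤ)
    (F : (Option ι → ℤ) → ℝ) : ∑ v ∈ Fintype.piFinset Sp, F v =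
      ∑ v' ∈ Fintype.piFinset (fun i => Sp (some i)), ∑ z ∈ Sp none, F (fun o => o.elim z v') := by
  rw [← Finset.sum_product']
  refine Finset.sum_nbij' (fun v => ((fun i => v (some i)), v none)) (fun x => fun o => o.elim x.2 x.1)
    ?_ ?_ ?_ ?_ ?_
  · intro v hv
    rw [Fintype.mem_piFinset] at hv
    rw [Finset.mem_product, Fintype.mem_piFinset]
    exact ⟨fun i => hv (some i), hv none⟩
  · intro x hx
    rw [Finset.mem_product, Fintype.mem_piFinset] at hx
    rw [Fintype.mem_piFinset]
    intro o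
    cases o with
    | none => exact hx.2
    | some i => exact hx.1 i
  · intro v _
    funext o
    cases o <;> rfl
  · intro x _
    rfl
  · intro v _
    congr 1
    funext o
    cases o <;> rfl

private theorem tri_zero_OSC {x : ℝ} (h : 1 ≤ |x|) : tri x = 0 := by
  unfold tri
  exact max_eq_right (by linarith)

private theorem tri_nonneg_OSC (x : ℝ) : 0 ≤ tri x := le_max_right _ _

private theorem tri_lip_OSC (x y : ℝ) : |tri x - tri y| ≤ |x - y| := by
  unfold tri
  refine (abs_max_sub_max_le_abs _ _ _).trans ?_ |>.trans (le_refl _)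
  have h := abs_abs_sub_abs_le_abs_sub x y
  rw [show (1 - |x|) - (1 - |y|) = -(|x| - |y|) by ring, abs_neg]
  exact h

private theorem part_OSC {x : ℝ} (h : |x| < 2) :
    1 ≤ tri (x + (-2)) + tri (x + (-1)) + tri (x + 0) + tri (x + 1) + tri (x + 2) := by
  have h1 := abs_lt.1 h
  have n1 := tri_nonneg_OSC (x + (-2))
  have n2 := tri_nonneg_OSC (x + (-1))
  have n3 := tri_nonneg_OSC (x + 0)
  have n4 := tri_nonneg_OSC (x + 1)
  have n5 := tri_nonneg_OSC (x + 2)
  have low : ∀ y : ℝ, 1 - |y| ≤ tri y := fun y => le_max_left _ _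
  have key : ∀ y : ℝ, 0 ≤ y → y ≤ 1 → 1 ≤ tri y + tri (y - 1) := by
    intro y h0 h1
    have a1 := low y
    have a2 := low (y - 1)
    rw [abs_of_nonneg h0] at a1
    rw [abs_of_nonpos (by linarith)] at a2
    linarith
  rcases le_total x (-1) with hx | hx
  · have := key (x + 2) (by linarith) (by linarith)
    rw [show x + 2 - 1 = x + 1 by ring] at this
    linarith
  rcases le_total x 0 with hx' | hx'
  · have := key (x + 1) (by linarith) (by linarith)
    rw [show x + 1 - 1 = x + 0 by ring] at this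
    linarith
  rcases le_total x 1 with hx'' | hx''
  · have := key (x + 0) (by linarith) (by linarith)
    rw [show x + 0 - 1 = x + (-1) by ring] at this
    linarith
  · have := key (x + (-1)) (by linarith) (by linarith)
    rw [show x + (-1) - 1 = x + (-2) by ring] at this
    linarith

private theorem inner_OSC (n : ℕ) (hn : 1 ≤ n) (γ s : ℤ) (c : ℝ) :
    ∑ z ∈ Ioo (-(n : ℤ)) n, (if z + s = γ then tri (z / n) * c else 0) = tri (((γ : ℝ) - s) / n) * c := by
  have hn' : (0 : ℝ) < n := by exact_mod_cast hn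
  have h1 : ∀ z ∈ Ioo (-(n : ℤ)) n, (if z + s = γ then tri ((z : ℝ) / n) * c else 0) =
      if z = γ - s then tri (((γ : ℝ) - s) / n) * c else 0 := by
    intro z _
    by_cases hz : z + s = γ
    · have hz' : z = γ - s := by omega
      rw [if_pos hz, if_pos hz', hz']
      push_cast
      rfl
    · rw [if_neg hz, if_neg (fun h => hz (by omega))]
  rw [Finset.sum_congr rfl h1, Finset.sum_ite_eq']
  split_ifs with hm
  · rfl
  · rw [Finset.mem_Ioo] at hm
    have h2 : (n : ℤ) ≤ |γ - s| := by
      by_contra hc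
      push Not at hc
      exact hm (abs_lt.1 hc)
    have h3 : (n : ℝ) ≤ |(γ : ℝ) - s| := by exact_mod_cast h2
    rw [tri_zero_OSC, zero_mul]
    rw [abs_div, abs_of_pos hn', le_div_iff₀ hn', one_mul]
    exact h3

theorem p_OSC : St_OSC := by
  intro ι _ _ K n Sp w P Q L hn hnK hw0 hwe hSp hL hLK hκ hnone hwn hPn hQn hPQ γ γ' hγ hγγ
  have hn' : (0 : ℝ) < n := by exact_mod_cast hn
  have hRf := m_Rf m_orth (Option ι) K Sp w L hw0 hwe hSp hL hLK hκ
  set W : (ι → ℤ) → ℝ := fun v' => ∏ i, w (some i) (v' i) with hW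
  set S : (ι → ℤ) → ℤ := fun v' => ∑ i, v' i with hS
  set I : (ι → ℤ) → ℝ := fun v' => (∏ i, ((P (some i) (v' i) : ℂ) + Complex.I * Q (some i) (v' i))).im with hI
  have hW0 : ∀ v', 0 ≤ W v' := fun v' => Finset.prod_nonneg fun i _ => hw0 _ _
  have hI1 : ∀ v' ∈ Fintype.piFinset (fun i => Sp (some i)), |I v'| ≤ 1 := by
    intro v' hv'
    rw [Fintype.mem_piFinset] at hv'
    refine (Complex.abs_im_le_norm _).trans ?_
    rw [norm_prod]
    refine Finset.prod_le_one (fun i _ => norm_nonneg _) fun i _ => ?_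
    have h1 := hPQ (some i) (v' i) (hv' i)
    have h2 : ‖(P (some i) (v' i) : ℂ) + Complex.I * Q (some i) (v' i)‖ ^ 2 ≤ 1 := by
      rw [← Complex.normSq_eq_norm_sq, Complex.normSq_apply]
      simp
      nlinarith
    nlinarith [norm_nonneg ((P (some i) (v' i) : ℂ) + Complex.I * Q (some i) (v' i))]
  have hCo : ∀ γ : ℤ, Co Sp w P Q γ = ∑ v' ∈ Fintype.piFinset (fun i => Sp (some i)),
      tri (((γ : ℝ) - S v') / n) * (W v' * I v') := by
    intro γ
    unfold Co
    rw [split_OSC]
    refine Finset.sum_congr rfl fun v' _ => ?_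
    rw [hnone, ← inner_OSC n hn γ (S v') (W v' * I v')]
    refine Finset.sum_congr rfl fun z _ => ?_
    have e : ∑ o : Option ι, o.elim z v' = z + S v' := by
      rw [Fintype.sum_option]
      rfl
    rw [e]
    by_cases hc : z + S v' = γ
    · rw [if_pos hc, if_pos hc]
      unfold Wt
      rw [Fintype.prod_option, Fintype.prod_option]
      simp only [Option.elim]
      rw [hwn, hPn, hQn]
      simp only [hW, hI]
      push_cast
      rw [mul_zero, add_zero, one_mul]
      ring
    · rw [if_neg hc, if_neg hc]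
  have hRf' : ∀ γ : ℤ, Rf Sp w γ = ∑ v' ∈ Fintype.piFinset (fun i => Sp (some i)),
      tri (((γ : ℝ) - S v') / n) * W v' := by
    intro γ
    unfold Rf
    rw [split_OSC]
    refine Finset.sum_congr rfl fun v' _ => ?_
    rw [hnone, ← inner_OSC n hn γ (S v') (W v')]
    refine Finset.sum_congr rfl fun z _ => ?_
    have e : ∑ o : Option ι, o.elim z v' = z + S v' := by
      rw [Fintype.sum_option]
      rfl
    rw [e]
    by_cases hc : z + S v' = γ
    · rw [if_pos hc, if_pos hc]
      unfold Wt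
      rw [Fintype.prod_option]
      simp only [Option.elim]
      rw [hwn]
    · rw [if_neg hc, if_neg hc]
  have h5 : ∀ j : ℤ, |j| ≤ 2 → Rf Sp w (γ + j * n) ≤ Rf Sp w 0 := by
    intro j hj
    refine (hRf (γ + j * n) ?_).2.2
    have h1 : |γ + j * n| ≤ |γ| + 2 * n := by
      refine (abs_add_le _ _).trans ?_
      rw [abs_mul, Nat.abs_cast]
      have : |j| * (n : ℤ) ≤ 2 * n := mul_le_mul_of_nonneg_right hj (by omega)
      linarith
    have h2 : (16 : ℤ) * n ≤ 2 ^ K := by exact_mod_cast hnK
    linarith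
  have hsum : ∑ v' ∈ Fintype.piFinset (fun i => Sp (some i)),
      (if |(γ : ℝ) - S v'| < 2 * n then W v' else 0) ≤ 5 * Rf Sp w 0 := by
    have h6 : ∑ v' ∈ Fintype.piFinset (fun i => Sp (some i)),
        (if |(γ : ℝ) - S v'| < 2 * n then W v' else 0) ≤
        Rf Sp w (γ + (-2) * n) + Rf Sp w (γ + (-1) * n) + Rf Sp w (γ + 0 * n) + Rf Sp w (γ + 1 * n) +
          Rf Sp w (γ + 2 * n) := by
      rw [hRf', hRf', hRf', hRf', hRf', ← Finset.sum_add_distrib, ← Finset.sum_add_distrib,
        ← Finset.sum_add_distrib, ← Finset.sum_add_distrib]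
      refine Finset.sum_le_sum fun v' _ => ?_
      have hx : ∀ j : ℤ, (((γ + j * n : ℤ) : ℝ) - S v') / n = ((γ : ℝ) - S v') / n + j := by
        intro j
        push_cast
        field_simp
        ring
      rw [hx, hx, hx, hx, hx]
      push_cast
      split_ifs with hlt
      · have h7 : |((γ : ℝ) - S v') / n| < 2 := by
          rw [abs_div, abs_of_pos hn', div_lt_iff₀ hn']
          exact hlt
        have h8 := part_OSC h7
        nlinarith [hW0 v']
      · have := hW0 v'
        have := tri_nonneg_OSC (((γ : ℝ) - S v') / n + -2)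
        have := tri_nonneg_OSC (((γ : ℝ) - S v') / n + -1)
        have := tri_nonneg_OSC (((γ : ℝ) - S v') / n + 0)
        have := tri_nonneg_OSC (((γ : ℝ) - S v') / n + 1)
        have := tri_nonneg_OSC (((γ : ℝ) - S v') / n + 2)
        positivity
    have a1 := h5 (-2) (by norm_num)
    have a2 := h5 (-1) (by norm_num)
    have a3 := h5 0 (by norm_num)
    have a4 := h5 1 (by norm_num)
    have a5 := h5 2 (by norm_num)
    linarith
  rw [hCo, hCo, ← Finset.sum_sub_distrib]
  refine (Finset.abs_sum_le_sum_abs _ _).trans ?_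
  have hd0 : 0 ≤ |(γ : ℝ) - γ'| / n := by positivity
  have hterm : ∀ v' ∈ Fintype.piFinset (fun i => Sp (some i)),
      |tri (((γ : ℝ) - S v') / n) * (W v' * I v') - tri (((γ' : ℝ) - S v') / n) * (W v' * I v')| ≤
        (|(γ : ℝ) - γ'| / n) * (if |(γ : ℝ) - S v'| < 2 * n then W v' else 0) := by
    intro v' hv'
    have e : tri (((γ : ℝ) - S v') / n) * (W v' * I v') - tri (((γ' : ℝ) - S v') / n) * (W v' * I v') =
        (tri (((γ : ℝ) - S v') / n) - tri (((γ' : ℝ) - S v') / n)) * (W v' * I v') := by ring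
    rw [e, abs_mul, abs_mul, abs_of_nonneg (hW0 v')]
    split_ifs with hlt
    · have h1 : |tri (((γ : ℝ) - S v') / n) - tri (((γ' : ℝ) - S v') / n)| ≤ |(γ : ℝ) - γ'| / n := by
        refine (tri_lip_OSC _ _).trans (le_of_eq ?_)
        rw [← sub_div, abs_div, abs_of_pos hn']
        congr 2
        ring
      refine mul_le_mul h1 ?_ (mul_nonneg (hW0 v') (abs_nonneg _)) hd0
      exact mul_le_of_le_one_right (hW0 v') (hI1 v' hv')
    · push Not at hlt
      have h1 : tri (((γ : ℝ) - S v') / n) = 0 := by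
        refine tri_zero_OSC ?_
        rw [abs_div, abs_of_pos hn', le_div_iff₀ hn']
        linarith
      have h2 : tri (((γ' : ℝ) - S v') / n) = 0 := by
        refine tri_zero_OSC ?_
        rw [abs_div, abs_of_pos hn', le_div_iff₀ hn', one_mul]
        have h3 : |(γ : ℝ) - γ'| ≤ n := by exact_mod_cast hγγ
        have h4 : |(γ : ℝ) - S v'| ≤ |(γ : ℝ) - γ'| + |(γ' : ℝ) - S v'| := abs_sub_le _ _ _
        linarith
      rw [h1, h2]
      simp
  refine (Finset.sum_le_sum hterm).trans ?_
  rw [← Finset.mul_sum]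
  calc (|(γ : ℝ) - γ'| / n) * _ ≤ (|(γ : ℝ) - γ'| / n) * (5 * Rf Sp w 0) :=
        mul_le_mul_of_nonneg_left hsum hd0
    _ = 5 * (|(γ : ℝ) - γ'| / n) * Rf Sp w 0 := by ring

end Pool.Agent.Helper56.OS
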