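import Pool.Agent.Helper56.OS.StD

/-! # Project OS: module PGN -/

set_option autoImplicit false

open Finset

namespace Pool.Agent.Helper56.OS

private theorem ms_nonneg_PGN (b : ℕ → ℝ) (S : Finset ℕ) : 0 ≤ ms b S :=
  sum_nonneg fun _ _ => abs_nonneg _

private theorem ome_nonneg_PGN (b : ℕ → ℝ) (Ω : Finset ℕ) (e : ℕ) : 0 ≤ ome b Ω e :=
  sum_nonneg fun _ _ => abs_nonneg _

/-- telescoping sets -/
private theorem tele_PGN (b : ℕ → ℝ) (O : Finset ℕ) (N : ℕ → Finset ℕ)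
    (hN : ∀ k, N (k + 1) ⊆ N k) (n : ℕ) :
    ∑ k ∈ range n, ms b ((O ∩ N k) \ N (k + 1)) ≤ ms b (O \ N n) := by
  induction n with
  | zero => simpa using ms_nonneg_PGN b _
  | succ n ih =>
    rw [sum_range_succ]
    have hd : Disjoint (O \ N n) ((O ∩ N n) \ N (n + 1)) := by
      rw [disjoint_left]
      intro ω h1 h2
      rw [mem_sdiff] at h1 h2
      exact h1.2 (mem_inter.1 h2.1).2
    have h1 : ms b (O \ N n) + ms b ((O ∩ N n) \ N (n + 1)) =
        ms b ((O \ N n) ∪ ((O ∩ N n) \ N (n + 1))) := by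
      unfold ms
      rw [sum_union hd]
    have h2 : ms b ((O \ N n) ∪ ((O ∩ N n) \ N (n + 1))) ≤ ms b (O \ N (n + 1)) := by
      unfold ms
      refine sum_le_sum_of_subset_of_nonneg ?_ fun _ _ _ => abs_nonneg _
      intro ω hω
      rw [mem_union, mem_sdiff, mem_sdiff, mem_inter] at hω
      rw [mem_sdiff]
      rcases hω with ⟨h3, h4⟩ | ⟨⟨h3, h4⟩, h5⟩
      · exact ⟨h3, fun h => h4 (hN n h)⟩
      · exact ⟨h3, h5⟩
    linarith

open Classical in
/-- telescoping values -/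
private theorem tele2_PGN (x : ℕ → ℕ) (hx : ∀ k, x k ≤ x (k + 1)) (y : ℝ) (hy : 0 ≤ y) (n : ℕ) :
    ∑ k ∈ range n, (if (2 : ℝ) ^ (x k) ≤ y ∧ y < 2 ^ (x (k + 1)) then y else 0) ≤
      if y < 2 ^ (x n) then y else 0 := by
  induction n with
  | zero =>
    rw [range_zero, sum_empty]
    split_ifs
    · exact hy
    · exact le_refl _
  | succ n ih =>
    rw [sum_range_succ]
    by_cases h : y < 2 ^ (x n)
    · have h2 : y < 2 ^ (x (n + 1)) :=
        lt_of_lt_of_le h (pow_le_pow_right₀ (by norm_num) (hx n))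
      rw [if_pos h] at ih
      rw [if_pos h2, if_neg (fun h3 => absurd h3.1 (not_le.2 h))]
      linarith
    · rw [if_neg h] at ih
      push Not at h
      by_cases h2 : y < 2 ^ (x (n + 1))
      · rw [if_pos h2, if_pos ⟨h, h2⟩]
        linarith
      · rw [if_neg h2, if_neg (fun h3 => h2 h3.2)]
        linarith

open Classical in
theorem p_PGN : St_PGN := by
  intro b Ω Ls Nn x K0 hK0 hx hΩ hNn
  obtain ⟨M, hM⟩ : ∃ M : ℕ, M = Ω.sup id + 1 := ⟨_, rfl⟩
  have hωM : ∀ ω ∈ Ω, ω < M := by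
    intro ω hω
    have : id ω ≤ Ω.sup id := le_sup hω
    simp only [id] at this
    omega
  have hlog : ∀ ω ∈ Ω, Nat.log 2 ω < M := fun ω hω =>
    lt_of_le_of_lt (Nat.log_le_self 2 ω) (hωM ω hω)
  have hzero : ∀ e, M ≤ e → ome b Ω e = 0 := by
    intro e he
    unfold ome
    rw [filter_eq_empty_iff.2, sum_empty]
    intro ω hω h
    have h1 : e < 2 ^ e := Nat.lt_two_pow_self
    have := hωM ω hω
    omega
  -- total mass of the octaves
  have hA : ∑ e ∈ range M, ome b Ω e ≤ ms b Ω := by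
    unfold ome ms
    have h1 : ∀ e ∈ range M, ∑ ω ∈ Ω.filter (fun ω : ℕ => 2 ^ e ≤ ω ∧ ω < 2 ^ (e + 1)), |b ω| =
        ∑ ω ∈ Ω, if 2 ^ e ≤ ω ∧ ω < 2 ^ (e + 1) then |b ω| else 0 := by
      intro e _
      rw [sum_filter]
    rw [sum_congr rfl h1, sum_comm]
    refine sum_le_sum fun ω hω => ?_
    rw [← sum_filter, sum_const, nsmul_eq_mul]
    have h2 : ((range M).filter (fun e => 2 ^ e ≤ ω ∧ ω < 2 ^ (e + 1))).card ≤ 1 := by
      rw [card_le_one]
      intro e he e' he'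
      rw [mem_filter] at he he'
      have h3 := Nat.log_eq_of_pow_le_of_lt_pow he.2.1 he.2.2
      have h4 := Nat.log_eq_of_pow_le_of_lt_pow he'.2.1 he'.2.2
      omega
    have h3 : (((range M).filter (fun e => 2 ^ e ≤ ω ∧ ω < 2 ^ (e + 1))).card : ℝ) ≤ 1 := by
      exact_mod_cast h2
    calc _ ≤ 1 * |b ω| := mul_le_mul_of_nonneg_right h3 (abs_nonneg _)
      _ = |b ω| := one_mul _
  have hB : ∑ a ∈ Ls, ms b (Oct Ω a) ≤ 2 * ms b Ω := by
    unfold ms Oct
    have h1 : ∀ a ∈ Ls, ∑ ω ∈ Ω.filter (fun ω : ℕ => 2 ^ a < 2 * ω ∧ ω < 2 ^ (a + 1)), |b ω| =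
        ∑ ω ∈ Ω, if 2 ^ a < 2 * ω ∧ ω < 2 ^ (a + 1) then |b ω| else 0 := by
      intro e _
      rw [sum_filter]
    rw [sum_congr rfl h1, sum_comm, mul_sum]
    refine sum_le_sum fun ω hω => ?_
    rw [← sum_filter, sum_const, nsmul_eq_mul]
    have hω1 := hΩ ω hω
    have h2 : (Ls.filter (fun a => 2 ^ a < 2 * ω ∧ ω < 2 ^ (a + 1))).card ≤ 2 := by
      have hsub : Ls.filter (fun a => 2 ^ a < 2 * ω ∧ ω < 2 ^ (a + 1)) ⊆
          {Nat.log 2 ω, Nat.log 2 ω + 1} := by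
        intro a ha
        rw [mem_filter] at ha
        have h5 : 2 ^ Nat.log 2 ω ≤ ω := Nat.pow_log_le_self 2 (by omega)
        have h6 : ω < 2 ^ (Nat.log 2 ω + 1) := Nat.lt_pow_succ_log_self (by norm_num) ω
        have h7 : 2 ^ Nat.log 2 ω < 2 ^ (a + 1) := lt_of_le_of_lt h5 ha.2.2
        have h8 : 2 ^ a < 2 ^ (Nat.log 2 ω + 2) := by
          calc 2 ^ a < 2 * ω := ha.2.1
            _ < 2 * 2 ^ (Nat.log 2 ω + 1) := by omega
            _ = 2 ^ (Nat.log 2 ω + 2) := by ring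
        have h9 := (Nat.pow_lt_pow_iff_right (by norm_num : 1 < 2)).1 h7
        have h10 := (Nat.pow_lt_pow_iff_right (by norm_num : 1 < 2)).1 h8
        rw [mem_insert, mem_singleton]
        omega
      exact (card_le_card hsub).trans card_le_two
    have h3 : ((Ls.filter (fun a => 2 ^ a < 2 * ω ∧ ω < 2 ^ (a + 1))).card : ℝ) ≤ 2 := by
      exact_mod_cast h2
    exact mul_le_mul_of_nonneg_right h3 (abs_nonneg _)
  -- the two sums over `k`
  have hInt : ∑ k ∈ range K0, ∑ e ∈ range M,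
      (if (2 : ℝ) ^ (x k) ≤ ome b Ω e ∧ ome b Ω e < 2 ^ (x (k + 1)) then ome b Ω e else 0) ≤
      ms b Ω := by
    rw [sum_comm]
    refine le_trans (sum_le_sum fun e _ => ?_) hA
    refine (tele2_PGN x hx (ome b Ω e) (ome_nonneg_PGN b Ω e) K0).trans ?_
    split_ifs
    · exact le_refl _
    · exact ome_nonneg_PGN b Ω e
  have hnear : ∑ k ∈ range K0, ∑ a ∈ Ls, ms b ((Oct Ω a ∩ Nn a (x k)) \ Nn a (x (k + 1))) ≤
      2 * ms b Ω := by
    rw [sum_comm]
    refine le_trans (sum_le_sum fun a ha => ?_) hB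
    refine (tele_PGN b (Oct Ω a) (fun k => Nn a (x k)) (fun k => hNn a ha _ _ (hx k)) K0).trans ?_
    unfold ms
    exact sum_le_sum_of_subset_of_nonneg sdiff_subset fun _ _ _ => abs_nonneg _
  have hK0r : (0 : ℝ) < K0 := by exact_mod_cast hK0
  obtain ⟨k, hk, hle⟩ := exists_le_of_sum_le (s := range K0)
    (f := fun k => ∑ a ∈ Ls, ms b ((Oct Ω a ∩ Nn a (x k)) \ Nn a (x (k + 1))) +
      ∑ e ∈ range M, (if (2 : ℝ) ^ (x k) ≤ ome b Ω e ∧ ome b Ω e < 2 ^ (x (k + 1)) then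
        ome b Ω e else 0)) (g := fun _ => 3 * ms b Ω / K0) ⟨0, mem_range.2 (by omega)⟩ (by
      rw [sum_add_distrib, sum_const, card_range, nsmul_eq_mul, mul_div_cancel₀ _ hK0r.ne']
      linarith)
  rw [mem_range] at hk
  refine ⟨k, hk, _, ?_, ?_, hle⟩
  · refine sum_nonneg fun e _ => ?_
    split_ifs
    · exact ome_nonneg_PGN b Ω e
    · exact le_refl _
  · intro Ei hEi
    rw [← sum_filter]
    refine sum_le_sum_of_subset_of_nonneg ?_ fun e _ _ => ome_nonneg_PGN b Ω e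
    intro e he
    rw [mem_filter, mem_range]
    refine ⟨?_, hEi e he⟩
    by_contra hc
    have h1 := (hEi e he).1
    rw [hzero e (by omega)] at h1
    have : (0 : ℝ) < 2 ^ (x k) := by positivity
    linarith

end Pool.Agent.Helper56.OS
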