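import Pool.Agent.Helper56.OS.StB

/-!
# Project OS, module PHB: elementary facts on the bump functions
-/

set_option autoImplicit false

open Finset

namespace Pool.Agent.Helper56.OS

theorem phi_nonneg_PHB (y : ℝ) : 0 ≤ phi y := le_max_left _ _

theorem phi_le_PHB (y : ℝ) : phi y ≤ 1 := by
  unfold phi
  refine max_le zero_le_one ?_
  rcases le_total y 1 with h | h
  · exact (min_le_left _ _).trans (by linarith)
  · exact (min_le_right _ _).trans (by linarith)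

theorem phi_zero_lo_PHB {y : ℝ} (h : y ≤ 1 / 2) : phi y = 0 := by
  unfold phi
  exact max_eq_left ((min_le_left _ _).trans (by linarith))

theorem phi_zero_hi_PHB {y : ℝ} (h : 2 ≤ y) : phi y = 0 := by
  unfold phi
  exact max_eq_left ((min_le_right _ _).trans (by linarith))

theorem phi_lo_PHB {y : ℝ} (h1 : 1 / 2 ≤ y) (h2 : y ≤ 1) : phi y = 2 * y - 1 := by
  unfold phi
  rw [min_eq_left (by linarith), max_eq_right (by linarith)]

theorem phi_hi_PHB {y : ℝ} (h1 : 1 ≤ y) (h2 : y ≤ 2) : phi y = 2 - y := by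
  unfold phi
  rw [min_eq_right (by linarith), max_eq_right (by linarith)]

theorem phi_ne_PHB {y : ℝ} (h : phi y ≠ 0) : 1 / 2 < y ∧ y < 2 := by
  constructor
  · by_contra hc
    exact h (phi_zero_lo_PHB (not_lt.1 hc))
  · by_contra hc
    exact h (phi_zero_hi_PHB (not_lt.1 hc))

theorem phi_lip_PHB (x y : ℝ) : |phi x - phi y| ≤ 2 * |x - y| := by
  unfold phi
  have h1 := abs_max_sub_max_le_abs (min (2 * x - 1) (2 - x)) (min (2 * y - 1) (2 - y)) 0
  rw [max_comm 0, max_comm 0]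
  refine h1.trans ?_
  have h2 := abs_min_sub_min_le_max (2 * x - 1) (2 - x) (2 * y - 1) (2 - y)
  refine h2.trans (max_le ?_ ?_)
  · have e : 2 * x - 1 - (2 * y - 1) = 2 * (x - y) := by ring
    rw [e, abs_mul]
    norm_num
  · have e : 2 - x - (2 - y) = -(x - y) := by ring
    rw [e, abs_neg]
    linarith [abs_nonneg (x - y)]

theorem tri_PHB (x y : ℝ) : |tri x - tri y| ≤ |x - y| ∧ 0 ≤ tri x ∧ tri x ≤ 1 ∧
    (1 ≤ |x| → tri x = 0) ∧ 1 - |x| ≤ tri x ∧ tri (-x) = tri x := by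
  unfold tri
  refine ⟨?_, le_max_right _ _, ?_, ?_, le_max_left _ _, ?_⟩
  · refine (abs_max_sub_max_le_abs _ _ _).trans ?_
    have e : 1 - |x| - (1 - |y|) = |y| - |x| := by ring
    rw [e, abs_sub_comm x y]
    exact abs_abs_sub_abs_le y x
  · exact max_le (by linarith [abs_nonneg x]) zero_le_one
  · intro h
    exact max_eq_right (by linarith)
  · rw [abs_neg]

theorem sum_PHB (ω A : ℕ) (h1 : 1 ≤ ω) (hA : ω < 2 ^ A) :
    ∑ a ∈ range (A + 1), phi (ω / 2 ^ a) = 1 := by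
  set e := Nat.log 2 ω with he
  have e1 : 2 ^ e ≤ ω := Nat.pow_log_le_self 2 (by omega)
  have e2 : ω < 2 ^ (e + 1) := Nat.lt_pow_succ_log_self (by norm_num) ω
  have heA : e < A := by
    by_contra hc
    have : 2 ^ A ≤ 2 ^ e := Nat.pow_le_pow_right (by norm_num) (not_lt.1 hc)
    omega
  have e1' : (2 : ℝ) ^ e ≤ ω := by exact_mod_cast e1
  have e2' : (ω : ℝ) < 2 ^ (e + 1) := by exact_mod_cast e2
  have hpos : (0 : ℝ) < 2 ^ e := by positivity
  have hsub : ({e, e + 1} : Finset ℕ) ⊆ range (A + 1) := by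
    intro a ha
    rw [mem_insert, mem_singleton] at ha
    rw [mem_range]
    omega
  have hz : ∀ a ∈ range (A + 1), a ∉ ({e, e + 1} : Finset ℕ) → phi ((ω : ℝ) / 2 ^ a) = 0 := by
    intro a _ ha
    rw [mem_insert, mem_singleton, not_or] at ha
    rcases Nat.lt_or_ge a e with h | h
    · apply phi_zero_hi_PHB
      rw [le_div_iff₀ (by positivity)]
      have h3 : (2 : ℝ) ^ (a + 1) ≤ 2 ^ e := pow_le_pow_right₀ (by norm_num) h
      rw [pow_succ] at h3
      linarith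
    · apply phi_zero_lo_PHB
      rw [div_le_iff₀ (by positivity)]
      have h3 : (2 : ℝ) ^ (e + 2) ≤ 2 ^ a := pow_le_pow_right₀ (by norm_num) (by omega)
      rw [pow_succ] at h3
      linarith
  rw [← Finset.sum_subset hsub hz, Finset.sum_pair (by omega)]
  have f1 : phi ((ω : ℝ) / 2 ^ e) = 2 - ω / 2 ^ e := by
    apply phi_hi_PHB
    · rw [le_div_iff₀ hpos]
      linarith
    · rw [div_le_iff₀ hpos]
      rw [pow_succ] at e2'
      linarith
  have f2 : phi ((ω : ℝ) / 2 ^ (e + 1)) = 2 * (ω / 2 ^ (e + 1)) - 1 := by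
    apply phi_lo_PHB
    · rw [le_div_iff₀ (by positivity), pow_succ]
      linarith
    · rw [div_le_iff₀ (by positivity)]
      linarith
  rw [f1, f2, pow_succ]
  field_simp
  ring

theorem QQ_nonneg_arg_PHB (a : ℕ) (h : ℤ) (h0 : 0 ≤ h) : QQ a h = phi (h / 2 ^ a) / 3 := by
  unfold QQ
  have h1 : phi (-((h : ℝ) / 2 ^ a)) = 0 := by
    apply phi_zero_lo_PHB
    have h2 : (0 : ℝ) ≤ (h : ℝ) / 2 ^ a := by
      have : (0 : ℝ) ≤ (h : ℝ) := by exact_mod_cast h0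
      positivity
    linarith
  rw [h1, sub_zero]

theorem QQ_neg_PHB (a : ℕ) (h : ℤ) : QQ a (-h) = - QQ a h := by
  unfold QQ
  push_cast
  rw [neg_div, neg_neg]
  ring

theorem PP_neg_PHB (a : ℕ) (h : ℤ) : PP a (-h) = PP a h := by
  unfold PP
  push_cast
  have e : 2 * -(h : ℝ) / 2 ^ a = -(2 * (h : ℝ) / 2 ^ a) := by ring
  rw [e]
  exact (tri_PHB _ 0).2.2.2.2.2

theorem QQ_zero_PHB (a : ℕ) (h : ℤ) (hh : 2 * |h| ≤ 2 ^ a ∨ 2 ^ (a + 1) ≤ |h|) : QQ a h = 0 := by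
  have key : ∀ h : ℤ, 0 ≤ h → (2 * |h| ≤ 2 ^ a ∨ 2 ^ (a + 1) ≤ |h|) → QQ a h = 0 := by
    intro h h0 hh
    rw [QQ_nonneg_arg_PHB a h h0]
    rw [abs_of_nonneg h0] at hh
    rcases hh with h1 | h1
    · have h1' : 2 * (h : ℝ) ≤ 2 ^ a := by exact_mod_cast h1
      rw [phi_zero_lo_PHB, zero_div]
      rw [div_le_iff₀ (by positivity)]
      linarith
    · have h1' : (2 : ℝ) ^ (a + 1) ≤ (h : ℝ) := by exact_mod_cast h1
      rw [phi_zero_hi_PHB, zero_div]
      rw [le_div_iff₀ (by positivity)]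
      rw [pow_succ] at h1'
      linarith
  rcases le_total 0 h with h0 | h0
  · exact key h h0 hh
  · have h2 := key (-h) (by omega) (by rwa [abs_neg])
    rw [QQ_neg_PHB] at h2
    linarith

theorem QQ_abs_PHB (a : ℕ) (h : ℤ) : |QQ a h| ≤ 1 / 3 := by
  rcases le_total 0 h with h0 | h0
  · rw [QQ_nonneg_arg_PHB a h h0, abs_of_nonneg (by have := phi_nonneg_PHB ((h : ℝ) / 2 ^ a); positivity)]
    linarith [phi_le_PHB ((h : ℝ) / 2 ^ a)]
  · have e : QQ a h = -QQ a (-h) := by rw [QQ_neg_PHB, neg_neg]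
    rw [e, abs_neg, QQ_nonneg_arg_PHB a (-h) (by omega),
      abs_of_nonneg (by have := phi_nonneg_PHB (((-h : ℤ) : ℝ) / 2 ^ a); positivity)]
    linarith [phi_le_PHB (((-h : ℤ) : ℝ) / 2 ^ a)]

theorem p_PHB : St_PHB := by
  refine ⟨fun y => ⟨phi_nonneg_PHB y, phi_le_PHB y⟩, fun y h => phi_ne_PHB h, phi_lip_PHB, tri_PHB,
    sum_PHB, fun a h => ⟨?_, ?_, PP_neg_PHB a h, QQ_neg_PHB a h⟩, QQ_zero_PHB, QQ_nonneg_arg_PHB⟩
  · have t := tri_PHB (2 * (h : ℝ) / 2 ^ a) 0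
    have q := QQ_abs_PHB a h
    have hP : PP a h = tri (2 * (h : ℝ) / 2 ^ a) := rfl
    rcases le_total (2 * |h|) (2 ^ a) with h1 | h1
    · rw [QQ_zero_PHB a h (Or.inl h1), hP]
      nlinarith [t.2.1, t.2.2.1]
    · have h2 : (2 : ℝ) ^ a ≤ 2 * |(h : ℝ)| := by exact_mod_cast h1
      have h3 : 1 ≤ |2 * (h : ℝ) / 2 ^ a| := by
        rw [abs_div, abs_mul, abs_of_pos (by positivity : (0 : ℝ) < 2 ^ a),
          abs_of_pos (by norm_num : (0 : ℝ) < 2), le_div_iff₀ (by positivity)]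
        linarith
      rw [hP, t.2.2.2.1 h3]
      rw [abs_le] at q
      nlinarith [q.1, q.2]
  · exact (tri_PHB _ 0).2.1

end Pool.Agent.Helper56.OS
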