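import Pool.Agent.Helper56.OS.StB
import Pool.Agent.Helper57.SN.M_orth

/-! Project OS, module PHI: smooth signed masses of the octaves. -/

set_option autoImplicit false

open Finset

namespace Pool.Agent.Helper56.OS

open Pool.Agent.Helper57.SN (co si SS dd th Spn stm av BC blk Lv m_orth)

private lemma part1_PHI (hLAW : St_LAW) (hPHB : St_PHB) (K : ℕ) (b : ℕ → ℝ) (Ω : Finset ℕ)
    (hG : GS K b Ω) (a : ℕ) (ha : 1 ≤ a) (haK : a + 3 ≤ K) : |Ph b Ω a| ≤ 3 := by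
  obtain ⟨μ, hμ0, hμ1, hμ⟩ := hLAW K a ha haK
  obtain ⟨_, _, _, _, _, _, _, hQ⟩ := hPHB
  have h1 : ∑ s ∈ range (2 ^ K), μ s * ∑ ω ∈ Ω, b ω * si K ω s = Ph b Ω a / 3 := by
    have h2 : ∀ s ∈ range (2 ^ K), μ s * ∑ ω ∈ Ω, b ω * si K ω s =
        ∑ ω ∈ Ω, b ω * (μ s * si K ω s) := by
      intro s _
      rw [mul_sum]
      exact sum_congr rfl fun ω _ => by ring
    rw [sum_congr rfl h2, sum_comm]
    unfold Ph
    rw [sum_div]
    refine sum_congr rfl fun ω hω => ?_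
    rw [← mul_sum]
    have h3 : 2 * |(ω : ℤ)| ≤ 2 ^ K := by
      have h4 := hG.small ω hω
      have h5 : (64 * ω : ℤ) ≤ 2 ^ K := by exact_mod_cast h4
      rw [abs_of_nonneg (by positivity)]
      have : (0 : ℤ) ≤ ω := by positivity
      linarith
    rw [(hμ (ω : ℤ) h3).2, hQ a (ω : ℤ) (by positivity)]
    push_cast
    ring
  have h2 : |∑ s ∈ range (2 ^ K), μ s * ∑ ω ∈ Ω, b ω * si K ω s| ≤ 1 := by
    rw [← hμ1]
    refine le_trans (abs_sum_le_sum_abs _ _) (sum_le_sum fun s _ => ?_)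
    rw [abs_mul, abs_of_nonneg (hμ0 s)]
    have h3 := hG.bdd (s : ℤ)
    calc μ s * |∑ ω ∈ Ω, b ω * si K ω s| ≤ μ s * 1 :=
          mul_le_mul_of_nonneg_left h3 (hμ0 s)
      _ = μ s := mul_one _
  rw [h1, abs_div, abs_of_pos (by norm_num : (0 : ℝ) < 3)] at h2
  linarith

private lemma Bm_eq_PHI (b : ℕ → ℝ) (Ω : Finset ℕ) (a : ℕ) :
    Bm b Ω a = ∑ ω ∈ Ω, if (2 ^ a ≤ 4 * ω ∧ ω ≤ 2 ^ (a + 2)) then |b ω| else 0 := by
  unfold Bm
  rw [sum_filter]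

private lemma cnt_PHI (A ω : ℕ) :
    ((range A).filter (fun a => 2 ^ a ≤ 4 * ω ∧ ω ≤ 2 ^ (a + 2))).card ≤ 5 := by
  classical
  rcases ((range A).filter (fun a => 2 ^ a ≤ 4 * ω ∧ ω ≤ 2 ^ (a + 2))).eq_empty_or_nonempty
    with he | hne
  · rw [he]; simp
  · obtain ⟨a0, ha0, hmin⟩ := exists_min_image _ (fun a => a) hne
    rw [mem_filter] at ha0
    have hsub : ((range A).filter (fun a => 2 ^ a ≤ 4 * ω ∧ ω ≤ 2 ^ (a + 2))) ⊆
        Icc a0 (a0 + 4) := by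
      intro a ha
      have h1 := hmin a ha
      rw [mem_filter] at ha
      rw [mem_Icc]
      refine ⟨h1, ?_⟩
      have h2 : 2 ^ a ≤ 2 ^ (a0 + 4) := by
        calc 2 ^ a ≤ 4 * ω := ha.2.1
          _ ≤ 4 * 2 ^ (a0 + 2) := Nat.mul_le_mul_left 4 ha0.2.2
          _ = 2 ^ (a0 + 4) := by rw [pow_add, pow_add]; ring
      exact (Nat.pow_le_pow_iff_right (by norm_num)).1 h2
    refine le_trans (card_le_card hsub) ?_
    rw [Nat.card_Icc]
    omega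

private lemma part2_PHI (b : ℕ → ℝ) (Ω : Finset ℕ) (A : ℕ) :
    ∑ a ∈ range A, Bm b Ω a ≤ 5 * ms b Ω := by
  classical
  have h1 : ∑ a ∈ range A, Bm b Ω a =
      ∑ ω ∈ Ω, ∑ a ∈ range A, if (2 ^ a ≤ 4 * ω ∧ ω ≤ 2 ^ (a + 2)) then |b ω| else 0 := by
    rw [sum_comm]
    exact sum_congr rfl fun a _ => Bm_eq_PHI b Ω a
  rw [h1]
  unfold ms
  rw [mul_sum]
  refine sum_le_sum fun ω _ => ?_
  rw [← sum_filter, sum_const, nsmul_eq_mul]
  have h2 : ((((range A).filter (fun a => 2 ^ a ≤ 4 * ω ∧ ω ≤ 2 ^ (a + 2))).card : ℕ) : ℝ) ≤ 5 := by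
    exact_mod_cast cnt_PHI A ω
  exact mul_le_mul_of_nonneg_right h2 (abs_nonneg _)

private lemma phi_ne_PHI (hPHB : St_PHB) (ω a : ℕ) (h : phi (ω / 2 ^ a) ≠ 0) :
    2 ^ a < 2 * ω ∧ ω < 2 ^ (a + 1) := by
  obtain ⟨_, h2, _⟩ := hPHB
  obtain ⟨h3, h4⟩ := h2 _ h
  have hp : (0 : ℝ) < 2 ^ a := by positivity
  rw [lt_div_iff₀ hp] at h3
  rw [div_lt_iff₀ hp] at h4
  constructor
  · have : (2 : ℝ) ^ a < 2 * ω := by linarith
    exact_mod_cast this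
  · have : (ω : ℝ) < 2 ^ (a + 1) := by rw [pow_succ]; linarith
    exact_mod_cast this

private lemma part5_PHI (hPHB : St_PHB) (b : ℕ → ℝ) (Ω : Finset ℕ) (a : ℕ) :
    Ph b Ω a = ∑ ω ∈ Oct Ω a, b ω * phi (ω / 2 ^ a) := by
  unfold Ph Oct
  symm
  apply sum_subset (filter_subset _ _)
  intro ω hω hn
  by_contra hne
  have h1 : phi (ω / 2 ^ a) ≠ 0 := fun h0 => hne (by rw [h0, mul_zero])
  exact hn (mem_filter.2 ⟨hω, phi_ne_PHI hPHB ω a h1⟩)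

private lemma Oct_sub_PHI (Ω : Finset ℕ) (a : ℕ) :
    Oct Ω a ⊆ Ω.filter (fun ω => 2 ^ a ≤ 4 * ω ∧ ω ≤ 2 ^ (a + 2)) := by
  intro ω hω
  rw [Oct, mem_filter] at hω
  rw [mem_filter]
  refine ⟨hω.1, by omega, ?_⟩
  have h1 : 2 ^ (a + 2) = 2 * 2 ^ (a + 1) := by rw [pow_succ]; ring
  rw [h1]
  omega

private lemma ms_Oct_PHI (b : ℕ → ℝ) (Ω : Finset ℕ) (a : ℕ) :
    ms b (Oct Ω a) ≤ Bm b Ω a := by
  unfold ms Bm
  exact sum_le_sum_of_subset_of_nonneg (Oct_sub_PHI Ω a) fun _ _ _ => abs_nonneg _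

private lemma part4_PHI (hPHB : St_PHB) (b : ℕ → ℝ) (Ω : Finset ℕ) (a : ℕ) :
    |Ph b Ω a| ≤ Bm b Ω a ∧ ms b (Oct Ω a) ≤ Bm b Ω a ∧ 0 ≤ Bm b Ω a := by
  refine ⟨?_, ms_Oct_PHI b Ω a, ?_⟩
  · refine le_trans ?_ (ms_Oct_PHI b Ω a)
    rw [part5_PHI hPHB]
    unfold ms
    refine le_trans (abs_sum_le_sum_abs _ _) (sum_le_sum fun ω _ => ?_)
    rw [abs_mul]
    have h1 := hPHB.1 ((ω : ℝ) / 2 ^ a)
    rw [abs_of_nonneg h1.1]
    exact mul_le_of_le_one_right (abs_nonneg _) h1.2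
  · unfold Bm
    exact sum_nonneg fun _ _ => abs_nonneg _

private lemma part6_PHI (K : ℕ) (b : ℕ → ℝ) (Ω : Finset ℕ) (hG : GS K b Ω) :
    ∑ ω ∈ Ω, b ω ^ 2 ≤ 2 := by
  classical
  obtain ⟨h1, _, _, _, h5⟩ := m_orth K
  have hpos : (0 : ℝ) < 2 ^ K := by positivity
  -- the average of the square
  have hav : av K (fun x => (∑ ω ∈ Ω, b ω * si K ω x) ^ 2) = (∑ ω ∈ Ω, b ω ^ 2) / 2 := by
    have e1 : ∀ x : ℕ, (∑ ω ∈ Ω, b ω * si K ω x) ^ 2 =
        ∑ ω ∈ Ω, ∑ ω' ∈ Ω, b ω * b ω' *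
          ((co K ((ω : ℤ) - ω') x - co K ((ω : ℤ) + ω') x) / 2) := by
      intro x
      rw [pow_two, sum_mul_sum]
      refine sum_congr rfl fun ω _ => sum_congr rfl fun ω' _ => ?_
      rw [← h5]
      ring
    have e2 : av K (fun x => (∑ ω ∈ Ω, b ω * si K ω x) ^ 2) =
        ∑ ω ∈ Ω, ∑ ω' ∈ Ω, b ω * b ω' *
          ((av K (fun x => co K ((ω : ℤ) - ω') x) - av K (fun x => co K ((ω : ℤ) + ω') x)) / 2) := by
      unfold av
      simp only [e1]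
      rw [sum_comm, sum_div]
      refine sum_congr rfl fun ω _ => ?_
      rw [sum_comm, sum_div]
      refine sum_congr rfl fun ω' _ => ?_
      rw [← mul_sum, ← sum_div, sum_sub_distrib]
      ring
    rw [e2, sum_div]
    refine sum_congr rfl fun ω hω => ?_
    have e3 : ∀ ω' ∈ Ω, b ω * b ω' *
          ((av K (fun x => co K ((ω : ℤ) - ω') x) - av K (fun x => co K ((ω : ℤ) + ω') x)) / 2) =
        if ω' = ω then b ω ^ 2 / 2 else 0 := by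
      intro ω' hω'
      have s1 := hG.small ω hω
      have s2 := hG.small ω' hω'
      have p1 := hG.pos ω hω
      have p2 := hG.pos ω' hω'
      have s1' : (64 * ω : ℤ) ≤ 2 ^ K := by exact_mod_cast s1
      have s2' : (64 * ω' : ℤ) ≤ 2 ^ K := by exact_mod_cast s2
      have p1' : (1 : ℤ) ≤ ω := by exact_mod_cast p1
      have p2' : (1 : ℤ) ≤ ω' := by exact_mod_cast p2
      have b1 : |(ω : ℤ) - ω'| < 2 ^ K := by
        rw [abs_lt]; constructor <;> linarith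
      have b2 : |(ω : ℤ) + ω'| < 2 ^ K := by
        rw [abs_lt]; constructor <;> linarith
      rw [h1 _ b1, h1 _ b2, if_neg (by omega : ¬ ((ω : ℤ) + ω' = 0))]
      by_cases he : ω' = ω
      · rw [if_pos he, if_pos (by omega), he]
        ring
      · rw [if_neg he, if_neg (by omega)]
        ring
    rw [sum_congr rfl e3, sum_ite_eq' Ω ω, if_pos hω]
  have hle : av K (fun x => (∑ ω ∈ Ω, b ω * si K ω x) ^ 2) ≤ 1 := by
    unfold av
    rw [div_le_one hpos]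
    have h2 : ∀ x ∈ range (2 ^ K), (∑ ω ∈ Ω, b ω * si K ω x) ^ 2 ≤ (1 : ℝ) := by
      intro x _
      have h3 := hG.bdd (x : ℤ)
      rw [sq_le_one_iff_abs_le_one]
      exact h3
    refine le_trans (sum_le_sum h2) ?_
    rw [sum_const, card_range]
    simp
  rw [hav] at hle
  linarith

theorem p_PHI (hLAW : St_LAW) (hPHB : St_PHB) : St_PHI := by
  intro K b Ω hG
  refine ⟨fun a ha haK => part1_PHI hLAW hPHB K b Ω hG a ha haK, fun A => part2_PHI b Ω A, ?_,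
    fun a => part4_PHI hPHB b Ω a, fun a => part5_PHI hPHB b Ω a, part6_PHI K b Ω hG⟩
  intro A hA
  unfold Ph
  rw [sum_comm]
  refine sum_congr rfl fun ω hω => ?_
  rw [← mul_sum, hPHB.2.2.2.2.1 ω A (hG.pos ω hω) (hA ω hω), mul_one]

end Pool.Agent.Helper56.OS
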