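import Pool.Agent.Helper56.OS.StC
import Pool.Agent.Helper56.OS.StB

/-! # Project OS, module PHS: phases -/

set_option autoImplicit false

open Finset

namespace Pool.Agent.Helper56.OS

private theorem prod_ge_PHS {ι : Type} [DecidableEq ι] (s : Finset ι) (p : ι → ℝ) (h0 : ∀ i ∈ s, 0 ≤ p i)
    (h1 : ∀ i ∈ s, p i ≤ 1) : 1 - ∑ i ∈ s, (1 - p i) ≤ ∏ i ∈ s, p i := by
  induction s using Finset.induction_on with
  | empty => simp
  | insert a s ha ih =>
    rw [Finset.sum_insert ha, Finset.prod_insert ha]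
    have i1 := ih (fun i hi => h0 i (Finset.mem_insert_of_mem hi)) (fun i hi => h1 i (Finset.mem_insert_of_mem hi))
    have a0 := h0 a (Finset.mem_insert_self _ _)
    have a1 := h1 a (Finset.mem_insert_self _ _)
    have s0 : 0 ≤ ∑ i ∈ s, (1 - p i) := Finset.sum_nonneg fun i hi => by
      have := h1 i (Finset.mem_insert_of_mem hi)
      linarith
    nlinarith [mul_le_mul_of_nonneg_left i1 a0, mul_nonneg s0 (by linarith : (0 : ℝ) ≤ 1 - p a)]

private theorem im_PHS {ι : Type} [Fintype ι] [DecidableEq ι] (P Q : ι → ℝ) (i : ι)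
    (hQ : ∀ j, j ≠ i → Q j = 0) :
    (∏ j, ((P j : ℂ) + Complex.I * Q j)).im = Q i * ∏ j ∈ univ.erase i, P j := by
  rw [← Finset.mul_prod_erase univ _ (Finset.mem_univ i)]
  have h1 : ∏ j ∈ univ.erase i, ((P j : ℂ) + Complex.I * Q j) = ((∏ j ∈ univ.erase i, P j : ℝ) : ℂ) := by
    rw [Complex.ofReal_prod]
    refine Finset.prod_congr rfl fun j hj => ?_
    rw [hQ j (Finset.ne_of_mem_erase hj)]
    simp
  rw [h1, Complex.im_mul_ofReal]
  congr 1
  simp

private theorem im0_PHS {ι : Type} [Fintype ι] [DecidableEq ι] (P Q : ι → ℝ)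
    (hQ : ∀ j, Q j = 0) :
    (∏ j, ((P j : ℂ) + Complex.I * Q j)).im = 0 := by
  have h1 : ∏ j, ((P j : ℂ) + Complex.I * Q j) = ((∏ j, P j : ℝ) : ℂ) := by
    rw [Complex.ofReal_prod]
    refine Finset.prod_congr rfl fun j _ => ?_
    rw [hQ j]
    simp
  rw [h1, Complex.ofReal_im]

theorem p_PHS (hPHB : St_PHB) : St_PHS := by
  obtain ⟨hphi, hsupp, hlip, htri, -, hPQ, hQ0, hQp⟩ := hPHB
  intro ι _ _ H a v γ hH hγ
  have hP0 : ∀ i, 0 ≤ PP (a i) (v i) := fun i => (hPQ (a i) (v i)).2.1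
  have hP1 : ∀ i, PP (a i) (v i) ≤ 1 := by
    intro i
    have := (hPQ (a i) (v i)).1
    nlinarith [sq_nonneg (QQ (a i) (v i)), hP0 i]
  have hpow : ∀ k : ℕ, (0 : ℝ) < 2 ^ k := fun k => by positivity
  have hH3 : (2 : ℝ) ^ (H + 3) = 8 * 2 ^ H := by rw [pow_add]; norm_num; ring
  have hH2 : (2 : ℝ) ≤ 2 ^ H := by
    calc (2 : ℝ) = 2 ^ 1 := by norm_num
      _ ≤ 2 ^ H := pow_le_pow_right₀ (by norm_num) hH
  -- distance of v i and γ in units of the scale
  have hdist : ∀ i, 2 ^ (H + 3) * |v i - γ| ≤ 2 ^ (a i) →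
      |((v i : ℤ) : ℝ) / 2 ^ (a i) - (γ : ℝ) / 2 ^ (a i)| ≤ 1 / (8 * 2 ^ H) := by
    intro i hi
    have h1 : (2 : ℝ) ^ (H + 3) * |(v i : ℝ) - γ| ≤ 2 ^ (a i) := by exact_mod_cast hi
    rw [← sub_div, abs_div, abs_of_pos (hpow (a i)), div_le_div_iff₀ (hpow _) (by have := hpow H; positivity)]
    rw [hH3] at h1
    linarith
  have hprod1 : ∀ i, ∏ j ∈ univ.erase i, PP (a j) (v j) ≤ 1 := fun i =>
    Finset.prod_le_one (fun j _ => hP0 j) fun j _ => hP1 j
  have hprod0 : ∀ i, 0 ≤ ∏ j ∈ univ.erase i, PP (a j) (v j) := fun i =>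
    Finset.prod_nonneg fun j _ => hP0 j
  constructor
  · intro hone hclose hphi0
    by_cases hall : ∀ j, QQ (a j) (v j) = 0
    · rw [im0_PHS (fun j => PP (a j) (v j)) (fun j => QQ (a j) (v j)) hall, abs_zero]
      positivity
    · push Not at hall
      obtain ⟨i, hi⟩ := hall
      have hact : ∀ j, QQ (a j) (v j) ≠ 0 → 2 ^ (a j) < 2 * |v j| ∧ |v j| < 2 ^ (a j + 1) := by
        intro j hj
        by_contra hc
        apply hj
        apply hQ0
        by_cases h1 : 2 * |v j| ≤ 2 ^ (a j)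
        · exact Or.inl h1
        · right
          by_contra h2
          exact hc ⟨not_le.1 h1, not_le.1 h2⟩
      obtain ⟨hi1, hi2⟩ := hact i hi
      have hQj : ∀ j, j ≠ i → QQ (a j) (v j) = 0 := by
        intro j hj
        by_contra hc
        obtain ⟨hj1, hj2⟩ := hact j hc
        exact hj (hone j i hj1 hj2 hi1 hi2)
      rw [im_PHS (fun j => PP (a j) (v j)) (fun j => QQ (a j) (v j)) i hQj]
      have hcl := hclose i hi1 hi2
      have hvi : 0 ≤ v i := by
        by_contra hneg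
        push Not at hneg
        have h1 : |v i| ≤ |v i - γ| := by
          rw [abs_of_neg hneg, abs_of_neg (by linarith)]
          linarith
        have h2 : (8 : ℤ) ≤ 2 ^ (H + 3) := by
          calc (8 : ℤ) = 2 ^ 3 := by norm_num
            _ ≤ 2 ^ (H + 3) := pow_le_pow_right₀ (by norm_num) (by omega)
        have h3 : 8 * |v i - γ| ≤ 2 ^ (H + 3) * |v i - γ| :=
          mul_le_mul_of_nonneg_right h2 (abs_nonneg _)
        have h4 := abs_nonneg (v i - γ)
        linarith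
      have hQi : |QQ (a i) (v i)| ≤ 1 / 2 ^ H := by
        rw [hQp (a i) (v i) hvi]
        have h1 := hlip (((v i : ℤ) : ℝ) / 2 ^ (a i)) ((γ : ℝ) / 2 ^ (a i))
        rw [hphi0 i, sub_zero] at h1
        have h2 := hdist i hcl
        rw [abs_div, abs_of_pos (by norm_num : (0 : ℝ) < 3)]
        have h3 : 1 / (8 * 2 ^ H) = (1 / 8) * (1 / (2 : ℝ) ^ H) := by
          field_simp
        rw [h3] at h2
        have h4 : (0 : ℝ) < 1 / 2 ^ H := by positivity
        linarith
      rw [abs_mul, abs_of_nonneg (hprod0 i)]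
      have := mul_le_mul hQi (hprod1 i) (hprod0 i) (by positivity)
      linarith
  · intro i hi hj
    have hQj : ∀ j, j ≠ i → QQ (a j) (v j) = 0 := by
      intro j hji
      apply hQ0
      left
      have h1 := hj j hji
      have h2 : (2 : ℤ) ≤ 2 ^ H := by
        calc (2 : ℤ) = 2 ^ 1 := by norm_num
          _ ≤ 2 ^ H := pow_le_pow_right₀ (by norm_num) hH
      exact (mul_le_mul_of_nonneg_right h2 (abs_nonneg _)).trans h1
    rw [im_PHS (fun j => PP (a j) (v j)) (fun j => QQ (a j) (v j)) i hQj]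
    set R := ∏ j ∈ univ.erase i, PP (a j) (v j) with hR
    have hR1 : R ≤ 1 := hprod1 i
    have hR0 : 0 ≤ R := hprod0 i
    have hRlow : 1 - 2 * Fintype.card ι / 2 ^ H ≤ R := by
      refine le_trans ?_ (prod_ge_PHS (univ.erase i) (fun j => PP (a j) (v j)) (fun j _ => hP0 j) fun j _ => hP1 j)
      have h1 : ∑ j ∈ univ.erase i, (1 - PP (a j) (v j)) ≤ ∑ j ∈ univ.erase i, (2 / (2 : ℝ) ^ H) := by
        refine Finset.sum_le_sum fun j hjm => ?_
        have hji := Finset.ne_of_mem_erase hjm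
        have h2 := (htri (2 * (v j : ℝ) / 2 ^ (a j)) 0).2.2.2.2.1
        have h3 : |2 * (v j : ℝ) / 2 ^ (a j)| ≤ 2 / 2 ^ H := by
          rw [abs_div, abs_of_pos (hpow (a j)), div_le_div_iff₀ (hpow _) (hpow _), abs_mul,
            abs_of_pos (by norm_num : (0 : ℝ) < 2)]
          have h4 : (2 : ℝ) ^ H * |(v j : ℝ)| ≤ 2 ^ (a j) := by exact_mod_cast hj j hji
          linarith
        have h5 : PP (a j) (v j) = tri (2 * (v j : ℝ) / 2 ^ (a j)) := rfl
        rw [h5]
        linarith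
      have h6 : ∑ j ∈ univ.erase i, (2 / (2 : ℝ) ^ H) ≤ 2 * Fintype.card ι / 2 ^ H := by
        rw [Finset.sum_const, nsmul_eq_mul]
        have h7 : (((univ.erase i).card : ℕ) : ℝ) ≤ Fintype.card ι := by
          exact_mod_cast (Finset.card_le_univ _)
        have h8 : (0 : ℝ) ≤ 2 / 2 ^ H := by positivity
        calc ((univ.erase i).card : ℝ) * (2 / 2 ^ H) ≤ Fintype.card ι * (2 / 2 ^ H) :=
              mul_le_mul_of_nonneg_right h7 h8
          _ = 2 * Fintype.card ι / 2 ^ H := by ring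
      linarith
    have hφ := hphi ((γ : ℝ) / 2 ^ (a i))
    have hQi : |QQ (a i) (v i) - phi (γ / 2 ^ (a i)) / 3| ≤ 1 / 2 ^ H := by
      have hd := hdist i hi
      have h3 : 1 / (8 * 2 ^ H) = (1 / 8) * (1 / (2 : ℝ) ^ H) := by
        field_simp
      rw [h3] at hd
      have h4 : (0 : ℝ) < 1 / 2 ^ H := by positivity
      by_cases hv : 0 ≤ v i
      · rw [hQp (a i) (v i) hv, ← sub_div, abs_div, abs_of_pos (by norm_num : (0 : ℝ) < 3)]
        have h1 := hlip (((v i : ℤ) : ℝ) / 2 ^ (a i)) ((γ : ℝ) / 2 ^ (a i))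
        linarith
      · push Not at hv
        have h1 : |v i| ≤ |v i - γ| := by
          rw [abs_of_neg hv, abs_of_neg (by linarith)]
          linarith
        have h2 : (8 : ℤ) ≤ 2 ^ (H + 3) := by
          calc (8 : ℤ) = 2 ^ 3 := by norm_num
            _ ≤ 2 ^ (H + 3) := pow_le_pow_right₀ (by norm_num) (by omega)
        have h5 : 8 * |v i - γ| ≤ 2 ^ (H + 3) * |v i - γ| :=
          mul_le_mul_of_nonneg_right h2 (abs_nonneg _)
        have h6 := abs_nonneg (v i - γ)
        rw [hQ0 (a i) (v i) (Or.inl (by linarith))]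
        have h7 : phi ((γ : ℝ) / 2 ^ (a i)) = 0 := by
          by_contra hc
          have h8 := (hsupp _ hc).1
          rw [lt_div_iff₀ (hpow _)] at h8
          have h9 : γ ≤ |v i - γ| := by
            rw [abs_of_neg (by linarith)]
            linarith
          have h10 : (8 : ℝ) * γ ≤ 2 ^ (a i) := by
            have : 8 * γ ≤ 2 ^ (a i) := by linarith
            exact_mod_cast this
          have h11 : (0 : ℝ) < γ := by exact_mod_cast hγ
          have := hpow (a i)
          linarith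
        rw [h7]
        simp
    have e : QQ (a i) (v i) * R - phi (γ / 2 ^ (a i)) / 3 =
        (QQ (a i) (v i) - phi (γ / 2 ^ (a i)) / 3) * R - phi (γ / 2 ^ (a i)) / 3 * (1 - R) := by ring
    rw [e]
    refine (abs_sub _ _).trans ?_
    rw [abs_mul, abs_of_nonneg hR0, abs_mul, abs_of_nonneg (by linarith : (0 : ℝ) ≤ 1 - R),
      abs_of_nonneg (by linarith : (0 : ℝ) ≤ phi (γ / 2 ^ (a i)) / 3)]
    have t1 : |QQ (a i) (v i) - phi (γ / 2 ^ (a i)) / 3| * R ≤ 1 / 2 ^ H := by
      have := mul_le_mul hQi hR1 hR0 (by positivity)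
      linarith
    have t2 : phi (γ / 2 ^ (a i)) / 3 * (1 - R) ≤ 1 / 3 * (2 * Fintype.card ι / 2 ^ H) := by
      refine mul_le_mul (by linarith) (by linarith) (by linarith) (by norm_num)
    have t3 : (0 : ℝ) ≤ 2 * Fintype.card ι / 2 ^ H := by positivity
    have t4 : 2 * ((Fintype.card ι : ℝ) + 1) / 2 ^ H = 2 * Fintype.card ι / 2 ^ H + 2 * (1 / 2 ^ H) := by
      field_simp
    have t5 : (0 : ℝ) < 1 / 2 ^ H := by positivity
    rw [t4]
    linarith

end Pool.Agent.Helper56.OS
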