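import Pool.Agent.Helper56.OS.StA

/-! Project OS, module QV: quadratic variation under the tilt. -/

set_option autoImplicit false

open Finset

namespace Pool.Agent.Helper56.OS

open Pool.Agent.Helper56.SS (Fil Dat Hyp E E_add E_sub E_mul_left E_mul_right E_sum E_mono
  E_nonneg E_zero E_const)

private theorem step_QV {Ω : Type} [Fintype Ω] [Nonempty Ω] (d : Dat Ω) (hd : Hyp d) (j n : ℕ)
    (g : Ω → ℝ) (hjn : j ≤ n) (hg : d.F.Meas j g) :
    E (fun w => d.R n w * g w) = E (fun w => d.R j w * g w) := by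
  induction n, hjn using Nat.le_induction with
  | base => rfl
  | succ n hn ih =>
    have e : (fun w => d.R (n + 1) w * g w)
        = fun w => d.R n w * g w + (d.R n w * g w) * d.x n w := by
      funext w; rw [hd.R_succ]; ring
    rw [e, E_add, ih, ← d.F.E_mul_C ((hd.R_meas n).mul (hg.mono hn))]
    have : (fun w => (d.R n w * g w) * d.F.C n (d.x n) w) = fun _ => (0 : ℝ) := by
      funext w; rw [hd.C_x]; ring
    rw [this, E_zero, add_zero]

private theorem gn_QV {Ω : Type} [Fintype Ω] [Nonempty Ω] (d : Dat Ω) (hd : Hyp d) (h : ℝ)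
    (hh : ∀ w, ∑ j ∈ d.G, d.th j w * d.sg j w ≤ h) : ∑ j ∈ d.G, d.gn j ≤ h := by
  obtain ⟨n, hn⟩ : ∃ n : ℕ, ∀ j ∈ d.G, j ≤ n := ⟨d.G.sup id, fun j hj => le_sup (f := id) hj⟩
  have h1 : ∀ j ∈ d.G, d.gn j = E (fun w => d.R n w * (d.th j w * d.sg j w)) := by
    intro j hj
    rw [hd.gn_eq j, ← step_QV d hd j n _ (hn j hj) ((hd.th_meas j).mul (hd.sg_meas j))]
  rw [sum_congr rfl h1, ← E_sum]
  calc E (fun w => ∑ j ∈ d.G, d.R n w * (d.th j w * d.sg j w))
      ≤ E (fun w => d.R n w * h) := by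
        apply E_mono
        intro w
        rw [← mul_sum]
        exact mul_le_mul_of_nonneg_left (hh w) (hd.R_pos n w).le
    _ = h := by rw [E_mul_right, hd.E_R, one_mul]

theorem p_QV : S_QV := by
  intro Ω _ _ d h hd hh
  refine ⟨fun j n g hjn hg => step_QV d hd j n g hjn hg, gn_QV d hd h hh, ?_⟩
  have h1 : ∀ j ∈ d.G, E (fun w => d.R j w * d.F.C j (fun v => d.x j v ^ 2) w)
      = d.lam ^ 2 * d.gn j := by
    intro j hj
    rw [hd.gn_eq j, ← E_mul_left]
    congr 1
    funext w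
    rw [hd.C_x_sq j w hj]
    ring
  rw [sum_congr rfl h1, ← mul_sum]
  exact mul_le_mul_of_nonneg_left (gn_QV d hd h hh) (by positivity)

end Pool.Agent.Helper56.OS
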