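import Pool.Agent.Helper56.OS.StD

/-! # Project OS, module RNG: numbers for the final step. -/

set_option autoImplicit false

open Finset

namespace Pool.Agent.Helper56.OS

private theorem natlog_le_RNG (n : ℕ) (hn : 1 ≤ n) :
    (Nat.log 2 n : ℝ) * Real.log 2 ≤ Real.log n := by
  have h1 : 2 ^ Nat.log 2 n ≤ n := Nat.pow_log_le_self 2 (by omega)
  have h2 : ((2 : ℝ) ^ Nat.log 2 n) ≤ n := by exact_mod_cast h1
  have h3 := Real.log_le_log (by positivity) h2
  rwa [Real.log_pow] at h3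

private theorem lt_natlog_RNG (n : ℕ) (hn : 1 ≤ n) :
    Real.log n ≤ ((Nat.log 2 n : ℝ) + 1) * Real.log 2 := by
  have h1 : n < 2 ^ (Nat.log 2 n + 1) := Nat.lt_pow_succ_log_self (by norm_num) n
  have h2 : (n : ℝ) ≤ (2 : ℝ) ^ (Nat.log 2 n + 1) := by exact_mod_cast h1.le
  have h0 : (0 : ℝ) < n := by exact_mod_cast hn
  have h3 := Real.log_le_log h0 h2
  rw [Real.log_pow] at h3
  push_cast at h3
  exact h3

private theorem log2_half_RNG : (1 : ℝ) / 2 ≤ Real.log 2 := by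
  have := Real.log_two_gt_d9
  linarith

private theorem log2_one_RNG : Real.log 2 ≤ 1 := by
  have := Real.log_two_lt_d9
  linarith

private theorem log10_RNG : Real.log 10 ≤ 5 / 2 := by
  have h1 : Real.log ((10 : ℝ) ^ 2) ≤ Real.log (Real.exp 5) := by
    apply Real.log_le_log (by norm_num)
    have h2 : Real.exp 5 = Real.exp 1 ^ 5 := by
      rw [← Real.exp_nat_mul]
      norm_num
    rw [h2]
    have h3 := Real.exp_one_gt_d9
    calc (10 : ℝ) ^ 2 ≤ (2.7182818283 : ℝ) ^ 5 := by norm_num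
      _ ≤ Real.exp 1 ^ 5 := by gcongr
  rw [Real.log_pow, Real.log_exp] at h1
  push_cast at h1
  linarith

private theorem log300_RNG : Real.log 300 ≤ 6 := by
  have h1 : Real.log (300 : ℝ) ≤ Real.log (Real.exp 6) := by
    apply Real.log_le_log (by norm_num)
    have h2 : Real.exp 6 = Real.exp 1 ^ 6 := by
      rw [← Real.exp_nat_mul]
      norm_num
    rw [h2]
    have h3 := Real.exp_one_gt_d9
    calc (300 : ℝ) ≤ (2.7182818283 : ℝ) ^ 6 := by norm_num
      _ ≤ Real.exp 1 ^ 6 := by gcongr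
  rwa [Real.log_exp] at h1

theorem p_RNG : St_RNG := by
  obtain ⟨N1, hN1⟩ := Filter.eventually_atTop.mp
    ((Real.tendsto_log_atTop.comp tendsto_natCast_atTop_atTop).eventually_ge_atTop
      ((10 : ℝ) ^ 20))
  refine ⟨max N1 3, le_max_right _ _, fun N hN => ?_⟩
  have hL : (10 : ℝ) ^ 20 ≤ Real.log N := hN1 N (le_trans (le_max_left _ _) hN)
  have hN3 : 3 ≤ N := le_trans (le_max_right _ _) hN
  have hN0 : (0 : ℝ) < N := by
    have : 0 < N := by omega
    exact_mod_cast this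
  have e1 := natlog_le_RNG N (by omega)
  have e2 := lt_natlog_RNG N (by omega)
  have l2h := log2_half_RNG
  have l21 := log2_one_RNG
  obtain ⟨L, hLdef⟩ : ∃ L, L = Real.log N := ⟨_, rfl⟩
  obtain ⟨l, hldef⟩ : ∃ l, l = Nat.log 2 N := ⟨_, rfl⟩
  rw [← hLdef] at hL e1 e2 ⊢
  rw [← hldef] at e1 e2 ⊢
  have hl0 : (0 : ℝ) ≤ l := Nat.cast_nonneg _
  have hLpos : 0 < L := lt_of_lt_of_le (by positivity) hL
  have hl1 : L ≤ (l : ℝ) + 1 := by nlinarith
  have hl2 : (l : ℝ) ≤ 2 * L := by nlinarith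
  -- the fourth root of `L`
  obtain ⟨t, ht⟩ : ∃ t, t = Real.exp (Real.log L / 4) := ⟨_, rfl⟩
  have ht0 : 0 < t := by rw [ht]; exact Real.exp_pos _
  have ht4 : t ^ 4 = L := by
    rw [ht, ← Real.exp_nat_mul]
    have : ((4 : ℕ) : ℝ) * (Real.log L / 4) = Real.log L := by
      push_cast
      ring
    rw [this, Real.exp_log hLpos]
  have ht5 : (10 : ℝ) ^ 5 ≤ t := by
    have h1 : ((10 : ℝ) ^ 5) ^ 4 ≤ t ^ 4 := by
      rw [ht4]
      calc ((10 : ℝ) ^ 5) ^ 4 = 10 ^ 20 := by norm_num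
        _ ≤ L := hL
    exact (pow_le_pow_iff_left₀ (by positivity) ht0.le (by norm_num)).mp h1
  have hlogt : Real.log t = Real.log L / 4 := by rw [ht, Real.log_exp]
  have hLL : Real.log L = 4 * Real.log t := by rw [hlogt]; ring
  have hlogt1 : Real.log t ≤ t := (Real.log_le_sub_one_of_pos ht0).trans (by linarith)
  have hLLt : Real.log L ≤ 4 * t := by linarith
  have hLL20 : 20 ≤ Real.log L := by
    have h1 : Real.log ((10 : ℝ) ^ 20) ≤ Real.log L := Real.log_le_log (by positivity) hL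
    rw [Real.log_pow] at h1
    have h2 : 1 ≤ Real.log 10 := by
      rw [Real.le_log_iff_exp_le (by norm_num)]
      have := Real.exp_one_lt_d9
      linarith
    push_cast at h1
    linarith
  -- the numbers
  obtain ⟨H, hH⟩ : ∃ H : ℕ, H = 100 * (l + 1) := ⟨_, rfl⟩
  obtain ⟨x0, hx0⟩ : ∃ x0 : ℕ, x0 = 200 * (Nat.log 2 H + 1) := ⟨_, rfl⟩
  obtain ⟨K0, hK0⟩ : ∃ K0 : ℕ, K0 = ⌊Real.log L / 10⌋₊ := ⟨_, rfl⟩
  have hHr : (H : ℝ) = 100 * ((l : ℝ) + 1) := by
    rw [hH]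
    push_cast
    ring
  have hHlo : 100 * L ≤ H := by rw [hHr]; linarith
  have hL1 : 1 ≤ L := le_trans (by norm_num) hL
  have hHhi : (H : ℝ) ≤ 300 * L := by rw [hHr]; linarith
  have hH1 : 1 ≤ H := by omega
  have hHpos : (0 : ℝ) < H := by exact_mod_cast hH1
  have hlogH : Real.log H ≤ 6 + 4 * t := by
    have h1 : Real.log H ≤ Real.log (300 * L) := Real.log_le_log hHpos hHhi
    rw [Real.log_mul (by norm_num) hLpos.ne'] at h1
    have := log300_RNG
    linarith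
  have hx0r : (x0 : ℝ) ≤ 1800 * t := by
    have h1 := natlog_le_RNG H hH1
    have h2 : (0 : ℝ) ≤ (Nat.log 2 H : ℝ) := Nat.cast_nonneg _
    have h3 : (Nat.log 2 H : ℝ) ≤ 2 * Real.log H := by nlinarith
    have h4 : (x0 : ℝ) = 200 * ((Nat.log 2 H : ℝ) + 1) := by
      rw [hx0]
      push_cast
      ring
    rw [h4]
    have h5 : (100000 : ℝ) ≤ t := by
      calc (100000 : ℝ) = 10 ^ 5 := by norm_num
        _ ≤ t := ht5
    linarith
  have hK0le : (K0 : ℝ) ≤ Real.log L / 10 := by rw [hK0]; exact Nat.floor_le (by linarith)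
  have hK0gt : Real.log L / 10 < K0 + 1 := by rw [hK0]; exact Nat.lt_floor_add_one _
  have h10 : (10 : ℝ) ^ K0 ≤ t := by
    have h1 : (10 : ℝ) ^ K0 = Real.exp (K0 * Real.log 10) := by
      rw [Real.exp_nat_mul, Real.exp_log (by norm_num)]
    rw [h1, ht]
    apply Real.exp_le_exp.mpr
    have h2 := log10_RNG
    have h3 : (0 : ℝ) ≤ K0 := Nat.cast_nonneg _
    have h4 : 0 ≤ Real.log 10 := Real.log_nonneg (by norm_num)
    calc (K0 : ℝ) * Real.log 10 ≤ (Real.log L / 10) * (5 / 2) :=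
          mul_le_mul hK0le h2 h4 (by linarith)
      _ = Real.log L / 4 := by ring
  have h5 : 8 * (10 ^ K0 * x0) ≤ l := by
    have h1 : ((8 * (10 ^ K0 * x0) : ℕ) : ℝ) ≤ (l : ℝ) := by
      push_cast
      have h2 : (10 : ℝ) ^ K0 * x0 ≤ t * (1800 * t) :=
        mul_le_mul h10 hx0r (Nat.cast_nonneg _) ht0.le
      have h3 : (10 : ℝ) ^ 10 ≤ t ^ 2 := by
        calc (10 : ℝ) ^ 10 = (10 ^ 5) ^ 2 := by norm_num
          _ ≤ t ^ 2 := by gcongr
      have h4 : t ^ 4 = t ^ 2 * t ^ 2 := by ring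
      have h6 : 10 ^ 10 * t ^ 2 ≤ t ^ 4 := by
        rw [h4]
        exact mul_le_mul_of_nonneg_right h3 (by positivity)
      nlinarith
    exact_mod_cast h1
  refine ⟨H, x0, K0, ?_, ?_, ?_, ?_, h5, ?_, ?_, by linarith, ?_, ?_, ?_⟩
  · have : (0 : ℝ) < K0 := by linarith
    exact_mod_cast this
  · linarith
  · have h1 : N < 2 ^ (l + 1) := by rw [hldef]; exact Nat.lt_pow_succ_log_self (by norm_num) N
    have h2 : (N : ℝ) ≤ (2 : ℝ) ^ (l + 1) := by exact_mod_cast h1.le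
    calc (N : ℝ) ^ 50 ≤ ((2 : ℝ) ^ (l + 1)) ^ 50 := by gcongr
      _ = (2 : ℝ) ^ ((l + 1) * 50) := by rw [← pow_mul]
      _ ≤ (2 : ℝ) ^ H := pow_le_pow_right₀ (by norm_num) (by omega)
  · have h1 : H < 2 ^ (Nat.log 2 H + 1) := Nat.lt_pow_succ_log_self (by norm_num) H
    have h2 : (H : ℝ) ≤ (2 : ℝ) ^ (Nat.log 2 H + 1) := by exact_mod_cast h1.le
    calc (H : ℝ) ^ 200 ≤ ((2 : ℝ) ^ (Nat.log 2 H + 1)) ^ 200 := by gcongr
      _ = (2 : ℝ) ^ ((Nat.log 2 H + 1) * 200) := by rw [← pow_mul]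
      _ ≤ (2 : ℝ) ^ x0 := pow_le_pow_right₀ (by norm_num) (by omega)
  · -- `1000 log log N ≤ H`
    have h1 : 1000 * (4 * t) ≤ 100 * t ^ 4 := by
      have h2 : (1 : ℝ) ≤ t := le_trans (by norm_num) ht5
      have h3 : (10 : ℝ) ^ 5 * 1 ≤ t * t ^ 2 := by
        apply mul_le_mul ht5 _ (by norm_num) ht0.le
        nlinarith
      have h4 : t ^ 4 = (t * t ^ 2) * t := by ring
      rw [h4]
      nlinarith
    rw [ht4] at h1
    linarith
  · linarith
  · -- `(log log N)² ≤ H`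
    have h1 : Real.log L ^ 2 ≤ (4 * t) ^ 2 := by
      apply pow_le_pow_left₀ (by linarith) hLLt
    have h2 : (4 * t) ^ 2 ≤ 100 * t ^ 4 := by
      have h3 : (1 : ℝ) ≤ t ^ 2 := by
        have : (1 : ℝ) ≤ t := le_trans (by norm_num) ht5
        nlinarith
      have h4 : t ^ 4 = t ^ 2 * t ^ 2 := by ring
      rw [h4]
      nlinarith [sq_nonneg t]
    rw [ht4] at h2
    linarith
  · -- `H^4 ≤ N^(1/4)`
    have h1 : (H : ℝ) ^ 4 = Real.exp (4 * Real.log H) := by
      have : (4 : ℝ) * Real.log H = ((4 : ℕ) : ℝ) * Real.log H := by norm_num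
      rw [this, Real.exp_nat_mul, Real.exp_log hHpos]
    rw [h1, Real.rpow_def_of_pos hN0]
    apply Real.exp_le_exp.mpr
    have h2 : 16 * (6 + 4 * t) ≤ t ^ 4 := by
      have h3 : (1 : ℝ) ≤ t := le_trans (by norm_num) ht5
      have h4 : (10 : ℝ) ^ 5 * 1 ≤ t * t ^ 2 := by
        apply mul_le_mul ht5 _ (by norm_num) ht0.le
        nlinarith
      have h6 : t ^ 4 = (t * t ^ 2) * t := by ring
      rw [h6]
      nlinarith
    rw [ht4] at h2
    rw [← hLdef]
    linarith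
  · intro k hk
    rw [← pow_mul]
    apply pow_le_pow_right₀ (by norm_num)
    have h1 : 10 ^ k * x0 ≤ 10 ^ K0 * x0 :=
      Nat.mul_le_mul_right _ (Nat.pow_le_pow_right (by norm_num) hk)
    omega

end Pool.Agent.Helper56.OS
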