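import Pool.Agent.Helper56.OS.StC
import Pool.Agent.Helper57.SN.M_avg

/-! # Project OS, module SEL: choice of the levels -/

set_option autoImplicit false

open Finset

namespace Pool.Agent.Helper56.OS

open Pool.Agent.Helper57.SN (co si SS dd th Spn stm av BC blk Lv ker Wt Rf St_ker St_Rf St_count St_avg
  m_avg)

private theorem Spn_mono_SEL {m : ℕ} {D D' : Finset ℕ} (h : D ⊆ D') {g : ℤ} (hg : Spn m D g) :
    Spn m D' g := by
  classical
  obtain ⟨c, hc, rfl⟩ := hg
  refine ⟨fun d => if d ∈ D then c d else 0, fun d => ?_, ?_⟩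
  · show |if d ∈ D then c d else 0| ≤ (m : ℤ)
    split_ifs
    · exact hc d
    · simp
  · rw [← Finset.sum_subset h]
    · refine Finset.sum_congr rfl (fun d hd => ?_)
      show c d * d = (if d ∈ D then c d else 0) * d
      rw [if_pos hd]
    · intro d _ hd
      show (if d ∈ D then c d else 0) * (d : ℤ) = 0
      rw [if_neg hd, zero_mul]

private theorem HitW_mono_SEL {H m0 : ℕ} {D D' : Finset ℕ} (h : D ⊆ D') {a : ℕ}
    (hg : HitW H m0 D a) : HitW H m0 D' a := by
  obtain ⟨g, h1, h2, h3⟩ := hg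
  exact ⟨g, Spn_mono_SEL h h1, h2, h3⟩

private theorem LandN_mono_SEL {m0 : ℕ} {D D' : Finset ℕ} (h : D ⊆ D') {a : ℕ} {γ : ℤ}
    (hg : LandN m0 D a γ) : LandN m0 D' a γ := by
  obtain ⟨h0, g, h1, h2, h3⟩ := hg
  exact ⟨h0, g, Spn_mono_SEL h h1, h2, h3⟩

private theorem close_SEL (H : ℕ) (J W : Finset ℕ) :
    (W.filter (fun a => ∃ a' ∈ J, a < a' + 4 * H ∧ a' < a + 4 * H)).card ≤ J.card * (8 * H) := by
  classical
  have hsub : W.filter (fun a => ∃ a' ∈ J, a < a' + 4 * H ∧ a' < a + 4 * H) ⊆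
      J.biUnion (fun a' => Finset.Ico (a' - 4 * H) (a' + 4 * H)) := by
    intro a ha
    rw [Finset.mem_filter] at ha
    obtain ⟨-, a', ha', h1, h2⟩ := ha
    rw [Finset.mem_biUnion]
    refine ⟨a', ha', ?_⟩
    rw [Finset.mem_Ico]
    omega
  refine (Finset.card_le_card hsub).trans ?_
  refine Finset.card_biUnion_le_card_mul _ _ _ (fun a' _ => ?_)
  rw [Nat.card_Ico]
  omega

private theorem sum_biUnion_SEL (b : ℕ → ℝ) (J : Finset ℕ) (F : ℕ → Finset ℕ) :
    ∑ ω ∈ J.biUnion F, |b ω| ≤ ∑ a ∈ J, ∑ ω ∈ F a, |b ω| := by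
  classical
  induction J using Finset.induction_on with
  | empty => simp
  | insert a J ha ih =>
    rw [Finset.biUnion_insert, Finset.sum_insert ha]
    have h1 : ∑ ω ∈ F a ∪ J.biUnion F, |b ω| + ∑ ω ∈ F a ∩ J.biUnion F, |b ω| =
        ∑ ω ∈ F a, |b ω| + ∑ ω ∈ J.biUnion F, |b ω| := Finset.sum_union_inter
    have h2 : 0 ≤ ∑ ω ∈ F a ∩ J.biUnion F, |b ω| := Finset.sum_nonneg (fun _ _ => abs_nonneg _)
    linarith

theorem p_SEL (hHIT : St_HIT) (hLND : St_LND) : St_SEL := by
  classical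
  intro H m0 r m W Ω Dm Phi near b A1 A2 X1 Int Ei hH hm0 hm hmW hW hbig hX0 hI0 hX1 hInt hS hc
  -- notation
  set bad : Finset ℕ → ℕ → Prop := fun J' a =>
    HitW H m0 (J'.biUnion Dm) a ∨ ∃ a' ∈ J', a < a' + 4 * H ∧ a' < a + 4 * H with hbad
  set lm : Finset ℕ → ℕ → ℝ := fun J' a =>
    ∑ ω ∈ Ω.filter (fun ω : ℕ => LandN m0 (J'.biUnion Dm) a (ω : ℤ)), |b ω| with hlm
  have hlm0 : ∀ J' a, 0 ≤ lm J' a := fun J' a => Finset.sum_nonneg (fun _ _ => abs_nonneg _)
  set ψ : Finset ℕ → ℕ → ℝ := fun J' a =>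
    Phi a / 4 - 2 * near a - (if bad J' a then 1 else lm J' a) with hψ
  obtain ⟨aW, haW⟩ : W.Nonempty := Finset.card_pos.mp (by omega)
  have hHA2 : H ≤ A2 := by
    have := (hW aW haW).2.2.2.2.2.2
    omega
  set S : ℝ := ∑ a ∈ W, Phi a with hSdef
  -- the average inequality
  have hav : ∀ J' ⊆ W, J'.card + 1 = m → ∑ l ∈ W \ J', (fun J a => - ψ J a) J' l ≤ - (S / 8) := by
    intro J' hJ' hJc
    have hDc : (J'.biUnion Dm).card ≤ m * r := by
      refine (Finset.card_biUnion_le_card_mul _ _ r (fun a ha => (hW a (hJ' ha)).2.2.2.1)).trans ?_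
      exact Nat.mul_le_mul_right _ (by omega)
    have hDd : ∀ d ∈ J'.biUnion Dm, d < 2 ^ (A2 - H) := by
      intro d hd
      rw [Finset.mem_biUnion] at hd
      obtain ⟨a, ha, hd⟩ := hd
      have h1 := (hW a (hJ' ha)).2.2.2.2.1 d hd
      have h2 := (hW a (hJ' ha)).2.2.2.2.2.2
      exact h1.trans_le (Nat.pow_le_pow_right (by norm_num) (by omega))
    obtain ⟨hL1, hL2⟩ := hLND H (m * r) m0 (J'.biUnion Dm) (W \ J') Ω b hH hDc hbig
    have hL3 := hL2 A1 A2 X1 Int Ei hX0 hHA2 (fun a ha => by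
      have := (hW a (Finset.mem_sdiff.mp ha).1).2.2.2.2.2.1
      omega) hDd hX1 hInt
    push_cast at hL3
    -- landing masses
    have hland : ∑ a ∈ (W \ J').filter (fun a => ¬ bad J' a), lm J' a ≤
        5 * (9 * (H * (m * r)) * X1 + Int) := by
      calc ∑ a ∈ (W \ J').filter (fun a => ¬ bad J' a), lm J' a
          ≤ ∑ a ∈ (W \ J').filter (fun a => ¬ HitW H m0 (J'.biUnion Dm) a), lm J' a := by
            refine Finset.sum_le_sum_of_subset_of_nonneg ?_ (fun a _ _ => hlm0 J' a)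
            intro a ha
            rw [Finset.mem_filter] at ha ⊢
            refine ⟨ha.1, fun h => ha.2 (Or.inl h)⟩
        _ ≤ _ := hL1
        _ ≤ _ := by
            exact mul_le_mul_of_nonneg_left hL3 (by norm_num)
    -- number of bad elements
    have hbadc : (((W \ J').filter (fun a => bad J' a)).card : ℝ) ≤
        (2 * H + 11) * (3 * (H * (m * r))) + 8 * H * m := by
      have h1 : (W \ J').filter (fun a => bad J' a) ⊆
          (W \ J').filter (fun a => HitW H m0 (J'.biUnion Dm) a) ∪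
          (W \ J').filter (fun a => ∃ a' ∈ J', a < a' + 4 * H ∧ a' < a + 4 * H) := by
        intro a ha
        rw [Finset.mem_filter] at ha
        rw [Finset.mem_union, Finset.mem_filter, Finset.mem_filter]
        rcases ha.2 with h | h
        · exact Or.inl ⟨ha.1, h⟩
        · exact Or.inr ⟨ha.1, h⟩
      have h2 := hHIT H (m * r) m0 (J'.biUnion Dm) hDc hbig
        ((W \ J').filter (fun a => HitW H m0 (J'.biUnion Dm) a))
        (fun a ha => (Finset.mem_filter.mp ha).2)
      have h3 := close_SEL H J' (W \ J')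
      have h4 : ((W \ J').filter (fun a => bad J' a)).card ≤
          (2 * H + 11) * (3 * (H * (m * r))) + 8 * H * m := by
        refine (Finset.card_le_card h1).trans ((Finset.card_union_le _ _).trans ?_)
        refine Nat.add_le_add h2 (h3.trans ?_)
        calc J'.card * (8 * H) ≤ m * (8 * H) := Nat.mul_le_mul_right _ (by omega)
          _ = 8 * H * m := by ring
      calc (((W \ J').filter (fun a => bad J' a)).card : ℝ)
          ≤ (((2 * H + 11) * (3 * (H * (m * r))) + 8 * H * m : ℕ) : ℝ) := by exact_mod_cast h4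
        _ = _ := by push_cast; ring
    -- sums of Phi and near
    have hPhi : S - 3 * m ≤ ∑ a ∈ W \ J', Phi a := by
      have h1 : ∑ a ∈ W \ J', Phi a + ∑ a ∈ J', Phi a = S := Finset.sum_sdiff hJ'
      have h2 : ∑ a ∈ J', Phi a ≤ 3 * m := by
        calc ∑ a ∈ J', Phi a ≤ ∑ a ∈ J', (3 : ℝ) :=
              Finset.sum_le_sum (fun a ha => (hW a (hJ' ha)).2.1)
          _ = 3 * J'.card := by rw [Finset.sum_const, nsmul_eq_mul]; ring
          _ ≤ 3 * m := by
              have : (J'.card : ℝ) ≤ m := by exact_mod_cast (by omega : J'.card ≤ m)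
              linarith
      linarith
    have hnear : ∑ a ∈ W \ J', near a ≤ ∑ a ∈ W, near a := by
      refine Finset.sum_le_sum_of_subset_of_nonneg Finset.sdiff_subset (fun a ha _ => ?_)
      exact (hW a ha).2.2.1
    have hsplit : ∑ a ∈ W \ J', (if bad J' a then 1 else lm J' a) =
        (((W \ J').filter (fun a => bad J' a)).card : ℝ) +
        ∑ a ∈ (W \ J').filter (fun a => ¬ bad J' a), lm J' a := by
      rw [Finset.sum_ite, Finset.sum_const, nsmul_eq_mul, mul_one]
    have htot : ∑ l ∈ W \ J', (fun J a => - ψ J a) J' l =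
        - (∑ a ∈ W \ J', Phi a) / 4 + 2 * ∑ a ∈ W \ J', near a +
        ∑ a ∈ W \ J', (if bad J' a then 1 else lm J' a) := by
      simp only [hψ]
      rw [Finset.mul_sum, ← Finset.sum_neg_distrib, Finset.sum_div, ← Finset.sum_add_distrib,
        ← Finset.sum_add_distrib]
      refine Finset.sum_congr rfl (fun a _ => ?_)
      ring
    rw [htot, hsplit]
    linarith
  obtain ⟨J, hJW, hJm, hJs⟩ := m_avg W m (fun J a => - ψ J a) (- (S / 8)) (-2) hm hmW hav (by
    have h1 : (1 : ℝ) ≤ m := by exact_mod_cast hm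
    nlinarith)
  have hJs' : 2 < ∑ a ∈ J, ψ (J.erase a) a := by
    have : ∑ l ∈ J, (fun J a => - ψ J a) (J.erase l) l = - ∑ a ∈ J, ψ (J.erase a) a := by
      simp only [Finset.sum_neg_distrib]
    rw [this] at hJs
    linarith
  set Js : Finset ℕ := J.filter (fun a => ¬ bad (J.erase a) a) with hJsdef
  have hJsJ : Js ⊆ J := Finset.filter_subset _ _
  have hUn : ∀ a, (Js.erase a).biUnion Dm ⊆ (J.erase a).biUnion Dm := fun a =>
    Finset.biUnion_subset_biUnion_of_subset_left _ (Finset.erase_subset_erase _ hJsJ)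
  refine ⟨Js, hJsJ.trans hJW, (Finset.card_le_card hJsJ).trans hJm.le, ?_, ?_, ?_⟩
  · intro a ha a' ha' haa
    have h1 := (Finset.mem_filter.mp ha).2
    simp only [hbad, not_or, not_exists, not_and] at h1
    have h2 := h1.2 a' (Finset.mem_erase.mpr ⟨by omega, hJsJ ha'⟩) (by omega)
    omega
  · intro a ha hhit
    have h1 := (Finset.mem_filter.mp ha).2
    exact h1 (Or.inl (HitW_mono_SEL (hUn a) hhit))
  · have h1 : ∑ a ∈ J, ψ (J.erase a) a ≤
        ∑ a ∈ Js, (Phi a / 4 - 2 * near a) - ∑ a ∈ Js, lm (J.erase a) a := by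
      rw [← Finset.sum_filter_add_sum_filter_not J (fun a => bad (J.erase a) a),
        ← Finset.sum_sub_distrib]
      have h2 : ∑ a ∈ J.filter (fun a => bad (J.erase a) a), ψ (J.erase a) a ≤ 0 := by
        refine Finset.sum_nonpos (fun a ha => ?_)
        rw [Finset.mem_filter] at ha
        have h3 := hW a (hJW ha.1)
        simp only [hψ]
        rw [if_pos ha.2]
        linarith [h3.2.1, h3.2.2.1]
      have h3 : ∑ a ∈ Js, ψ (J.erase a) a =
          ∑ a ∈ Js, (Phi a / 4 - 2 * near a - lm (J.erase a) a) := by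
        refine Finset.sum_congr rfl (fun a ha => ?_)
        simp only [hψ]
        rw [if_neg (Finset.mem_filter.mp ha).2]
      rw [← h3]
      linarith
    have h4 : ∑ ω ∈ Ω.filter (fun ω : ℕ => ∃ a ∈ Js, LandN m0 ((Js.erase a).biUnion Dm) a (ω : ℤ)),
        |b ω| ≤ ∑ a ∈ Js, lm (J.erase a) a := by
      have hsub : Ω.filter (fun ω : ℕ => ∃ a ∈ Js, LandN m0 ((Js.erase a).biUnion Dm) a (ω : ℤ)) ⊆
          Js.biUnion (fun a => Ω.filter
            (fun ω : ℕ => LandN m0 ((J.erase a).biUnion Dm) a (ω : ℤ))) := by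
        intro ω hω
        rw [Finset.mem_filter] at hω
        obtain ⟨h5, a, ha, h6⟩ := hω
        rw [Finset.mem_biUnion]
        exact ⟨a, ha, Finset.mem_filter.mpr ⟨h5, LandN_mono_SEL (hUn a) h6⟩⟩
      refine (Finset.sum_le_sum_of_subset_of_nonneg hsub (fun _ _ _ => abs_nonneg _)).trans ?_
      exact sum_biUnion_SEL b Js _
    linarith

end Pool.Agent.Helper56.OS
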