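import Pool.Agent.Helper56.OS.StC
import Pool.Agent.Helper57.SN.M_shape

set_option autoImplicit false

open Finset

namespace Pool.Agent.Helper56.OS

open Pool.Agent.Helper57.SN (Spn spn_biUnion_shape spn_mono_shape spn_abs_shape)

private theorem spn_sub_SHP {m m' : ℕ} {D : Finset ℕ} {g g' : ℤ} (h : Spn m D g)
    (h' : Spn m' D g') : Spn (m + m') D (g - g') := by
  obtain ⟨c, hc, rfl⟩ := h
  obtain ⟨c', hc', rfl⟩ := h'
  refine ⟨fun d => c d - c' d, fun d => ?_, ?_⟩
  · have h1 := abs_sub (c d) (c' d)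
    have h2 := hc d
    have h3 := hc' d
    push_cast
    linarith
  · rw [← Finset.sum_sub_distrib]
    apply Finset.sum_congr rfl
    intro d _
    ring

private theorem spn_sup_SHP {m : ℕ} {D D' : Finset ℕ} {g : ℤ} (hD : D ⊆ D') (h : Spn m D g) :
    Spn m D' g := by
  obtain ⟨c, hc, rfl⟩ := h
  refine ⟨fun d => if d ∈ D then c d else 0, fun d => ?_, ?_⟩
  · change |if d ∈ D then c d else 0| ≤ (m : ℤ)
    split_ifs
    · exact hc d
    · simp
  · rw [← sum_subset hD (f := fun d => (if d ∈ D then c d else 0) * (d : ℤ))]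
    · refine sum_congr rfl fun d hd => ?_
      simp [hd]
    · intro d _ hd
      simp [hd]

theorem p_SHP : St_SHP := by
  intro ι _ _ H m0 r n a D hH hm0 hrm hsep hdis hDlt hDs hn hhit γ v z hγ hv hz hsum
  have hQ8 : (8 : ℤ) ≤ 2 ^ H := by
    calc (8 : ℤ) = 2 ^ 3 := by norm_num
      _ ≤ 2 ^ H := pow_le_pow_right₀ (by norm_num) hH
  have hP : ∀ i, (0 : ℤ) < 2 ^ (a i) := fun i => by positivity
  -- size of `v i`
  have hvs : ∀ i, 2 * |v i| ≤ 2 ^ H * 2 ^ (a i) := by
    intro i
    have h1 := spn_abs_shape (hDlt i) (hDs i) (hv i)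
    have h2 : ((4 * r * m0 : ℕ) : ℤ) ≤ ((2 ^ H : ℕ) : ℤ) := by exact_mod_cast hrm
    push_cast at h1 h2
    rw [pow_succ] at h1
    have h3 : (0 : ℤ) < 2 ^ (a i) := hP i
    have h4 := mul_le_mul_of_nonneg_right h2 h3.le
    linarith
  -- size of `z`
  have hzs : ∀ i, 16 * (2 ^ H * (2 ^ H * |z|)) < 2 ^ (a i) := by
    intro i
    have h1 : ((n * 2 ^ (2 * H + 4) : ℕ) : ℤ) ≤ ((2 ^ (a i) : ℕ) : ℤ) := by exact_mod_cast hn i
    push_cast at h1
    have h2 : (2 : ℤ) ^ (2 * H + 4) = 2 ^ H * 2 ^ H * 16 := by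
      rw [pow_add, two_mul, pow_add]; norm_num
    rw [h2] at h1
    have h3 : |z| * (2 ^ H * 2 ^ H * 16) < (n : ℤ) * (2 ^ H * 2 ^ H * 16) :=
      mul_lt_mul_of_pos_right hz (by positivity)
    linarith
  have hz0 : 0 ≤ |z| := abs_nonneg z
  have hzh : 8 * |z| ≤ 2 ^ H * |z| := mul_le_mul_of_nonneg_right hQ8 hz0
  have hzh0 : 0 ≤ (2 : ℤ) ^ H * |z| := by positivity
  have hzhh : 8 * (2 ^ H * |z|) ≤ 2 ^ H * (2 ^ H * |z|) := mul_le_mul_of_nonneg_right hQ8 hzh0
  -- the complement
  have hg' : ∀ i, Spn m0 ((univ.erase i).biUnion D) (γ - v i - z) := by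
    intro i
    have h1 := spn_biUnion_shape m0 D v hdis (univ.erase i) hv
    have h2 : ∑ j ∈ univ.erase i, v j = γ - v i - z := by
      rw [← hsum, ← add_sum_erase univ v (mem_univ i)]
      ring
    rwa [h2] at h1
  -- not hit
  have hnh : ∀ i (g : ℤ), Spn (2 * m0) ((univ.erase i).biUnion D) g → |g| ≤ 16 * (2 ^ H * 2 ^ (a i)) →
      16 * (2 ^ H * |g|) < 2 ^ (a i) := by
    intro i g hg h1
    by_contra h2
    push Not at h2
    refine hhit i ⟨g, hg, ?_, ?_⟩
    · have : (2 : ℤ) ^ (H + 4) = 16 * 2 ^ H := by rw [pow_add]; ring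
      rw [this]; linarith
    · have : (2 : ℤ) ^ (a i + H + 4) = 16 * (2 ^ H * 2 ^ (a i)) := by
        rw [pow_add, pow_add]; ring
      rw [this]; exact h1
  have hPh : ∀ i, 8 * (2 : ℤ) ^ (a i) ≤ 2 ^ H * 2 ^ (a i) := fun i =>
    mul_le_mul_of_nonneg_right hQ8 (hP i).le
  -- conclusion from a small complement
  have hcon : ∀ i, γ < 16 * 2 ^ (a i) → 2 ^ (H + 3) * |v i - γ| ≤ 2 ^ (a i) := by
    intro i h1
    have h2 : |γ - v i - z| ≤ γ + |v i| + |z| := by
      have e1 := abs_sub (γ - v i) z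
      have e2 := abs_sub γ (v i)
      rw [abs_of_pos hγ] at e2
      linarith
    have h3 := hnh i _ (spn_mono_shape (by omega) (hg' i)) (by
      have := hvs i
      have := hzs i
      have := hPh i
      linarith)
    have h4 : |v i - γ| ≤ |γ - v i - z| + |z| := by
      have e1 := abs_sub (-(γ - v i - z)) z
      rw [abs_neg] at e1
      have e2 : -(γ - v i - z) - z = v i - γ := by ring
      rw [e2] at e1
      exact e1
    have h5 : (2 : ℤ) ^ H * |v i - γ| ≤ 2 ^ H * (|γ - v i - z| + |z|) :=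
      mul_le_mul_of_nonneg_left h4 (by positivity)
    have h6 : (2 : ℤ) ^ (H + 3) = 8 * 2 ^ H := by rw [pow_add]; ring
    rw [h6]
    have h7 := hzs i
    have h8 : (2 : ℤ) ^ H * (|γ - v i - z| + |z|) = 2 ^ H * |γ - v i - z| + 2 ^ H * |z| := by ring
    rw [h8] at h5
    linarith
  -- active indices
  have hact : ∀ i, 2 ^ (a i) < 2 * |v i| → |v i| < 2 ^ (a i + 1) →
      ¬ LandN m0 ((univ.erase i).biUnion D) (a i) γ → γ < 16 * 2 ^ (a i) := by
    intro i h1 h2 h3
    by_contra h4
    push Not at h4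
    rw [pow_succ] at h2
    have h5 := hzs i
    have h6 := hP i
    refine h3 ⟨?_, γ - v i - z, hg' i, ?_, ?_⟩
    · rw [pow_add]; linarith
    · have e : γ - (γ - v i - z) = v i + z := by ring
      rw [e]
      have e1 := abs_sub (v i + z) z
      have e2 : v i + z - z = v i := by ring
      rw [e2] at e1
      linarith
    · have e : γ - (γ - v i - z) = v i + z := by ring
      rw [e, pow_add]
      have e1 := abs_add_le (v i) z
      linarith
  have h1' : ∀ i, 2 ^ (a i) < 2 * |v i| → |v i| < 2 ^ (a i + 1) →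
      ¬ LandN m0 ((univ.erase i).biUnion D) (a i) γ → 2 ^ (H + 3) * |v i - γ| ≤ 2 ^ (a i) :=
    fun i h1 h2 h3 => hcon i (hact i h1 h2 h3)
  have h64 : (64 : ℤ) ≤ 2 ^ (H + 3) := by
    rw [pow_add]; linarith
  have hrange : ∀ i, 2 ^ (a i) < 2 * |v i| → |v i| < 2 ^ (a i + 1) →
      ¬ LandN m0 ((univ.erase i).biUnion D) (a i) γ → 2 ^ (a i) < 4 * γ ∧ γ < 4 * 2 ^ (a i) := by
    intro i h1 h2 h3
    have h4 := h1' i h1 h2 h3
    rw [pow_succ] at h2
    have h5 : 64 * |v i - γ| ≤ 2 ^ (H + 3) * |v i - γ| :=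
      mul_le_mul_of_nonneg_right h64 (abs_nonneg _)
    have e1 := abs_sub (v i - γ) (-γ)
    have e2 : v i - γ - (-γ) = v i := by ring
    rw [e2, abs_neg, abs_of_pos hγ] at e1
    have e3 := abs_sub (v i) (v i - γ)
    have e4 : v i - (v i - γ) = γ := by ring
    rw [e4, abs_of_pos hγ] at e3
    have h6 := hP i
    constructor <;> linarith
  have hsep' : ∀ i j, a i + 4 * H ≤ a j → (2 : ℤ) ^ (a i) * 4096 ≤ 2 ^ (a j) := by
    intro i j hij
    calc (2 : ℤ) ^ (a i) * 4096 = 2 ^ (a i) * 2 ^ 12 := by norm_num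
      _ = 2 ^ (a i + 12) := by rw [pow_add]
      _ ≤ 2 ^ (a j) := pow_le_pow_right₀ (by norm_num) (by omega)
  refine ⟨h1', ?_, ?_, ?_⟩
  · intro i j hi1 hi2 hj1 hj2 hi3 hj3
    by_contra hne
    obtain ⟨r1, r2⟩ := hrange i hi1 hi2 hi3
    obtain ⟨r3, r4⟩ := hrange j hj1 hj2 hj3
    have p1 := hP i
    have p2 := hP j
    rcases hsep i j hne with h | h
    · have := hsep' i j h
      linarith
    · have := hsep' j i h
      linarith
  · intro i h1 h2
    rw [pow_succ] at h2
    apply hcon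
    have := hP i
    linarith
  · intro i hs h1 h2
    rw [pow_succ] at h2
    have hsub : ∀ j, j ≠ i → Spn 1 ((univ.erase j).biUnion D) γ := by
      intro j hj
      refine spn_sup_SHP ?_ hs
      apply subset_biUnion_of_mem (u := D)
      exact mem_erase.mpr ⟨fun h => hj h.symm, mem_univ _⟩
    refine ⟨fun j hj => ?_, fun j => ?_⟩
    · by_contra h3
      push Not at h3
      have hG : Spn (2 * m0) ((univ.erase j).biUnion D) (v j + z) := by
        have h4 := spn_sub_SHP (hsub j hj) (hg' j)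
        have e : γ - (γ - v j - z) = v j + z := by ring
        rw [e] at h4
        exact spn_mono_shape (by omega) h4
      have p := hP j
      have h5 := hvs j
      have h6 := hzs j
      have h7 := hPh j
      have h8 := hnh j _ hG (by
        have e1 := abs_add_le (v j) z
        linarith)
      have e1 := abs_sub (v j + z) z
      have e2 : v j + z - z = v j := by ring
      rw [e2] at e1
      have e3 : (2 : ℤ) ^ H * |v j| ≤ 2 ^ H * (|v j + z| + |z|) :=
        mul_le_mul_of_nonneg_left e1 (by positivity)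
      have e4 : (2 : ℤ) ^ H * (|v j + z| + |z|) = 2 ^ H * |v j + z| + 2 ^ H * |z| := by ring
      rw [e4] at e3
      linarith
    · rintro ⟨h3, g, hg, h4, h5⟩
      by_cases hj : j = i
      · subst hj
        rw [pow_add] at h3
        have := hP j
        linarith
      · have hG : Spn (2 * m0) ((univ.erase j).biUnion D) (γ - g) := by
          have h6 := spn_sub_SHP (hsub j hj) hg
          exact spn_mono_shape (by omega) h6
        rw [pow_add] at h5
        have p := hP j
        have h7 := hPh j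
        have h8 := hnh j _ hG (by linarith)
        have h9 : 8 * |γ - g| ≤ 2 ^ H * |γ - g| :=
          mul_le_mul_of_nonneg_right hQ8 (abs_nonneg _)
        have h10 : 0 ≤ |γ - g| := abs_nonneg _
        linarith

end Pool.Agent.Helper56.OS
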