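import Pool.Agent.Helper56.OS.StB
import Pool.Agent.Helper56.OS.StA

/-! # Project OS, module SQI: one scale of the square sums -/

set_option autoImplicit false

open Finset

namespace Pool.Agent.Helper56.OS

theorem p_SQI (hCAR : St_CAR) (hCCS : S_CCS) : St_SQI := by
  intro K H T E b Ω al q μ hG hF hH hE i
  obtain ⟨c1, -, c3, c4, -⟩ := hCCS
  set d := 2 ^ i with hd
  have hd1 : 1 ≤ d := Nat.one_le_two_pow
  set L := (range T).filter (fun l => 2 * d ≤ l) with hL
  have hl : ∀ l ∈ L, l < T ∧ cc d l + d ≤ l ∧ d ∣ cc d l ∧ cc d l < l := by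
    intro l hl
    rw [hL, Finset.mem_filter, Finset.mem_range] at hl
    have h1 := (c1 d l hd1 (by omega)).1
    exact ⟨hl.1, h1, c4 d l hd1, by omega⟩
  have hoct : ∀ a ω, ω ∈ Oct Ω a → ω ∈ Ω ∧ 2 ^ a < 2 * ω ∧ ω < 2 ^ (a + 1) := by
    intro a ω hω
    unfold Oct at hω
    rw [Finset.mem_filter] at hω
    exact ⟨hω.1, hω.2.1, hω.2.2⟩
  have hgroup : ∀ y0, ∑ l ∈ L, sq b Ω al y0 i l ≤ ∑ c ∈ L.image (cc d),
      ∑ t ∈ (Ω.image (lb (al c) y0)).filter (fun t => y0 + 4 * 2 ^ (al c) ≤ t * 2 ^ (al c)),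
        bI b Ω (al c) y0 t ^ 2 := by
    intro y0
    rw [← Finset.sum_fiberwise_of_maps_to (t := L.image (cc d)) (g := cc d)
      (fun l hl => Finset.mem_image_of_mem _ hl)]
    apply Finset.sum_le_sum
    intro c _
    have h1 : ∑ l ∈ L.filter (fun l => cc d l = c), sq b Ω al y0 i l =
        ∑ l ∈ L.filter (fun l => cc d l = c),
          ∑ t ∈ (Oct Ω (al l)).image (lb (al c) y0), bI b Ω (al c) y0 t ^ 2 := by
      apply Finset.sum_congr rfl
      intro l hl'
      rw [Finset.mem_filter] at hl'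
      unfold sq
      rw [← hd, hl'.2]
    rw [h1, ← Finset.sum_biUnion]
    · apply Finset.sum_le_sum_of_subset_of_nonneg
      · intro t ht
        rw [Finset.mem_biUnion] at ht
        obtain ⟨l, hl', ht⟩ := ht
        rw [Finset.mem_filter] at hl'
        rw [Finset.mem_image] at ht
        obtain ⟨ω, hω, rfl⟩ := ht
        obtain ⟨h2, h3, h4⟩ := hoct _ _ hω
        have h5 := hl l hl'.1
        rw [hl'.2] at h5
        rw [Finset.mem_filter]
        refine ⟨Finset.mem_image_of_mem _ h2, ?_⟩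
        have h6 := hF.sep c l h5.2.2.2 h5.1
        have h7 : 2 ^ (al c + 4) ≤ 2 ^ (al l) := Nat.pow_le_pow_right (by norm_num) (by omega)
        rw [pow_add] at h7
        have h8 : ω + y0 < ((ω + y0) / 2 ^ al c + 1) * 2 ^ al c := by
          have := Nat.lt_div_mul_add (a := ω + y0) (b := 2 ^ al c) (by positivity)
          rw [Nat.add_mul, Nat.one_mul]
          omega
        unfold lb
        rw [Nat.add_mul, Nat.one_mul] at h8
        omega
      · intro t _ _
        positivity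
    · intro l hl1 l' hl2 hne
      have hl1' := (Finset.mem_filter.1 (Finset.mem_coe.1 hl1))
      have hl2' := (Finset.mem_filter.1 (Finset.mem_coe.1 hl2))
      -- the general statement for l < l'
      have key : ∀ l l', l ∈ L → cc d l = c → l' ∈ L → l < l' → ∀ ω ∈ Oct Ω (al l),
          ∀ ω' ∈ Oct Ω (al l'), lb (al c) y0 ω ≠ lb (al c) y0 ω' := by
        intro l l' hl3 hlc hl4 hlt ω hω ω' hω' heq
        obtain ⟨-, h3, h4⟩ := hoct _ _ hω
        obtain ⟨-, h5, h6⟩ := hoct _ _ hω'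
        have h7 := hl l hl3
        rw [hlc] at h7
        have h8 := hF.sep c l h7.2.2.2 h7.1
        have h9 := hF.sep l l' hlt (hl l' hl4).1
        have h10 : 2 ^ (al l + 4) ≤ 2 ^ (al l') := Nat.pow_le_pow_right (by norm_num) (by omega)
        have h11 : 2 ^ (al c) ≤ 2 ^ (al l) := Nat.pow_le_pow_right (by norm_num) (by omega)
        rw [pow_add] at h10
        rw [pow_succ] at h4
        unfold lb at heq
        have h12 := Nat.lt_div_mul_add (a := ω' + y0) (b := 2 ^ al c) (by positivity)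
        have h13 := Nat.div_mul_le_self (ω + y0) (2 ^ al c)
        have h14 := Nat.lt_div_mul_add (a := ω + y0) (b := 2 ^ al c) (by positivity)
        rw [heq] at h13
        omega
      rw [Function.onFun, Finset.disjoint_left]
      intro t ht1 ht2
      rw [Finset.mem_image] at ht1 ht2
      obtain ⟨ω, hω, h3⟩ := ht1
      obtain ⟨ω', hω', h4⟩ := ht2
      rcases lt_or_gt_of_ne hne with h | h
      · exact key l l' hl1'.1 hl1'.2 hl2'.1 h ω hω ω' hω' (h3.trans h4.symm)
      · exact key l' l hl2'.1 hl2'.2 hl1'.1 h ω' hω' ω hω (h4.trans h3.symm)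
  have hcard : ((L.image (cc d)).card : ℝ) ≤ T / 2 ^ i := by
    have h1 : L.image (cc d) ⊆ (range (T / d)).image (fun m => d * m) := by
      intro c hc
      rw [Finset.mem_image] at hc
      obtain ⟨l, hl', rfl⟩ := hc
      obtain ⟨h2, h3, ⟨m, hm⟩, -⟩ := hl l hl'
      rw [Finset.mem_image]
      refine ⟨m, ?_, hm.symm⟩
      rw [Finset.mem_range, ← Nat.succ_le_iff, Nat.le_div_iff_mul_le (by omega)]
      rw [hm] at h3
      have h4 : m.succ * d = d * m + d := by
        rw [Nat.succ_mul, Nat.mul_comm]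
      omega
    have h2 : (L.image (cc d)).card ≤ T / d := by
      refine (Finset.card_le_card h1).trans (Finset.card_image_le.trans ?_)
      rw [Finset.card_range]
    calc ((L.image (cc d)).card : ℝ) ≤ ((T / d : ℕ) : ℝ) := by exact_mod_cast h2
      _ ≤ (T : ℝ) / (d : ℝ) := Nat.cast_div_le
      _ = T / 2 ^ i := by
        rw [hd]
        push_cast
        rfl
  calc ∑ y0 ∈ range (2 ^ E), ∑ l ∈ L, sq b Ω al y0 i l
      ≤ ∑ y0 ∈ range (2 ^ E), ∑ c ∈ L.image (cc d),
        ∑ t ∈ (Ω.image (lb (al c) y0)).filter (fun t => y0 + 4 * 2 ^ (al c) ≤ t * 2 ^ (al c)),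
          bI b Ω (al c) y0 t ^ 2 := Finset.sum_le_sum (fun y0 _ => hgroup y0)
    _ = ∑ c ∈ L.image (cc d), ∑ y0 ∈ range (2 ^ E),
        ∑ t ∈ (Ω.image (lb (al c) y0)).filter (fun t => y0 + 4 * 2 ^ (al c) ≤ t * 2 ^ (al c)),
          bI b Ω (al c) y0 t ^ 2 := Finset.sum_comm
    _ ≤ ∑ c ∈ L.image (cc d), 32 * 2 ^ E := by
        apply Finset.sum_le_sum
        intro c hc
        rw [Finset.mem_image] at hc
        obtain ⟨l, hl', rfl⟩ := hc
        obtain ⟨h2, -, -, h3⟩ := hl l hl'
        have h4 := hF.hiK (cc d l) (by omega)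
        exact hCAR K b Ω hG (al (cc d l)) E (hE _ (by omega)) (by omega)
    _ = ((L.image (cc d)).card : ℝ) * (32 * 2 ^ E) := by
        rw [Finset.sum_const, nsmul_eq_mul]
    _ ≤ (T / 2 ^ i) * (32 * 2 ^ E) := mul_le_mul_of_nonneg_right hcard (by positivity)
    _ = 32 * 2 ^ E * (T / 2 ^ i) := by ring

end Pool.Agent.Helper56.OS
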