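import Pool.Agent.Helper56.OS.StA

/-! # Project OS, module STL: the loss after stopping -/

set_option autoImplicit false

open Finset

namespace Pool.Agent.Helper56.OS

open Pool.Agent.Helper56.SS (Fil Dat Hyp E E_add E_sub E_mul_left E_sum E_mono E_nonneg)
open Pool.Agent.Helper56.SS.Fil (Meas)

open Classical in
/-- the stopping indicator -/
private noncomputable def T_STL {Ω : Type} [Fintype Ω] (d : Dat Ω) (h : ℝ) (l : ℕ) (w : Ω) : ℝ :=
  if h < ∑ i ∈ d.G.filter (fun i => i < l), d.th i w * d.sg i w then 1 else 0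

private theorem C_abs_STL {Ω : Type} [Fintype Ω] (F : Fil Ω) {f : Ω → ℝ} (hf : ∀ w, |f w| ≤ 1)
    (n : ℕ) (w : Ω) : F.C n f w ^ 2 ≤ 1 := by
  have h1 : F.C n f w ≤ 1 := by
    have := F.C_mono (j := n) (g := f) (h := fun _ => (1 : ℝ)) (fun w => (abs_le.1 (hf w)).2) w
    rwa [F.C_const] at this
  have h2 : -1 ≤ F.C n f w := by
    have := F.C_mono (j := n) (g := fun _ => (-1 : ℝ)) (h := f) (fun w => (abs_le.1 (hf w)).1) w
    rwa [F.C_const] at this
  nlinarith

theorem p_STL : S_STL := by
  classical
  intro hSTP hQV Ω _ _ d h Vu hd hh hVu n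
  obtain ⟨he, hsum, hthird, hpos⟩ := hSTP Ω d h hd hh.le
  have hq := (hQV Ω (stp d h) (h + d.kap ^ 2) he hsum).1
  have hth0 : ∀ j w, 0 ≤ d.th j w := fun j w => (hpos j w).2.1.trans (hpos j w).2.2
  have hsg0 : ∀ j w, 0 ≤ d.sg j w := fun j w => (hpos j w).1
  have hth1 : ∀ j w, d.th j w ≤ 1 := by
    intro j w
    rcases hd.th01 j w with e | e <;> rw [e] <;> norm_num
  set R := (stp d h).R with hR
  have hRpos : ∀ n w, 0 < R n w := fun n w => he.R_pos n w
  have hRm : ∀ n, d.F.Meas n (R n) := fun n => he.R_meas n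
  -- the indicator
  have hT01 : ∀ l w, T_STL d h l w = 0 ∨ T_STL d h l w = 1 := by
    intro l w
    unfold T_STL
    split_ifs
    · exact Or.inr rfl
    · exact Or.inl rfl
  have hT0 : ∀ l w, 0 ≤ T_STL d h l w := by
    intro l w
    rcases hT01 l w with e | e <;> rw [e] <;> norm_num
  have hTm : ∀ l, d.F.Meas l (T_STL d h l) := by
    intro l w w' hw
    have h1 : ∑ i ∈ d.G.filter (fun i => i < l), d.th i w * d.sg i w =
        ∑ i ∈ d.G.filter (fun i => i < l), d.th i w' * d.sg i w' := by
      refine Finset.sum_congr rfl fun i hi => ?_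
      have hi' : i < l := (Finset.mem_filter.1 hi).2
      have h2 : d.F.lab i w = d.F.lab i w' := d.F.lab_mono hi'.le hw
      have h3 : d.sg i w = d.sg i w' := d.F.C_meas i _ w w' h2
      rw [hd.th_meas i w w' h2, h3]
    unfold T_STL
    rw [h1]
  have hTmono : ∀ l w, T_STL d h l w ≤ T_STL d h (l + 1) w := by
    intro l w
    have h1 : ∑ i ∈ d.G.filter (fun i => i < l), d.th i w * d.sg i w ≤
        ∑ i ∈ d.G.filter (fun i => i < l + 1), d.th i w * d.sg i w := by
      refine Finset.sum_le_sum_of_subset_of_nonneg ?_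
        fun i _ _ => mul_nonneg (hth0 i w) (hsg0 i w)
      intro i hi
      rw [Finset.mem_filter] at hi ⊢
      exact ⟨hi.1, by omega⟩
    unfold T_STL
    split_ifs with h2 h3
    · exact le_rfl
    · exact absurd (h2.trans_le h1) h3
    · norm_num
    · exact le_rfl
  have hx : ∀ l w, T_STL d h l w = 1 → (stp d h).x l w = 0 := by
    intro l w hT
    have h1 : h < ∑ i ∈ d.G.filter (fun i => i < l), d.th i w * d.sg i w := by
      by_contra hcon
      unfold T_STL at hT
      rw [if_neg hcon] at hT
      norm_num at hT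
    have h2 : (stp d h).th l w = 0 := by
      show (if ∑ i ∈ d.G.filter (fun i => i < l), d.th i w * d.sg i w ≤ h then d.th l w else 0) = 0
      rw [if_neg (not_le.2 h1)]
    unfold Dat.x
    split_ifs
    · rw [h2]
      ring
    · rfl
  have hRT : ∀ l w, R (l + 1) w * T_STL d h l w = R l w * T_STL d h l w := by
    intro l w
    rcases hT01 l w with e | e
    · rw [e]
      ring
    · rw [hR, he.R_succ, hx l w e]
      ring
  -- the martingale
  set M : ℕ → Ω → ℝ := fun l => d.F.C l d.f with hM
  have hMm : ∀ l, d.F.Meas l (M l) := fun l => d.F.C_meas l _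
  have hM1 : ∀ l w, M l w ^ 2 ≤ 1 := fun l w => C_abs_STL d.F hd.f_le l w
  set a : ℕ → ℝ := fun l => E (fun w => R l w * T_STL d h l w * M l w ^ 2) with ha
  have hstep : ∀ l, E (fun w => R l w * T_STL d h l w *
      d.F.C l (fun v => dM d.F d.f l v ^ 2) w) ≤ a (l + 1) - a l := by
    intro l
    have hg : d.F.Meas l (fun w => R l w * T_STL d h l w) := (hRm l).mul (hTm l)
    have h1 : E (fun w => R l w * T_STL d h l w * d.F.C l (fun v => dM d.F d.f l v ^ 2) w) =
        E (fun w => R l w * T_STL d h l w * dM d.F d.f l w ^ 2) := d.F.E_mul_C hg _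
    have h2 : E (fun w => R l w * T_STL d h l w * M l w * M (l + 1) w) =
        E (fun w => R l w * T_STL d h l w * M l w ^ 2) := by
      have h3 := d.F.E_mul_C (hg.mul (hMm l)) (M (l + 1))
      have h4 : ∀ w, d.F.C l (M (l + 1)) w = M l w := fun w => d.F.tower (Nat.le_succ l) _ w
      rw [← h3]
      congr 1
      funext w
      rw [h4 w]
      ring
    have h5 : (fun w => R l w * T_STL d h l w * dM d.F d.f l w ^ 2) =
        fun w => (R l w * T_STL d h l w * M (l + 1) w ^ 2 -
          2 * (R l w * T_STL d h l w * M l w * M (l + 1) w)) +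
          R l w * T_STL d h l w * M l w ^ 2 := by
      funext w
      simp only [dM, hM]
      ring
    rw [h1, h5, E_add, E_sub, E_mul_left, h2]
    have h6 : E (fun w => R l w * T_STL d h l w * M (l + 1) w ^ 2) ≤ a (l + 1) := by
      simp only [ha]
      refine E_mono fun w => ?_
      rw [← hRT l w]
      have h7 := hRpos (l + 1) w
      have h8 := hTmono l w
      have h9 : R (l + 1) w * T_STL d h l w ≤ R (l + 1) w * T_STL d h (l + 1) w :=
        mul_le_mul_of_nonneg_left h8 h7.le
      exact mul_le_mul_of_nonneg_right h9 (sq_nonneg _)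
    have h10 : a l = E (fun w => R l w * T_STL d h l w * M l w ^ 2) := rfl
    linarith
  have hsumle : ∀ n : ℕ, ∑ l ∈ range n, E (fun w => R l w * T_STL d h l w *
      d.F.C l (fun v => dM d.F d.f l v ^ 2) w) ≤ a n - a 0 := by
    intro n
    induction n with
    | zero => simp
    | succ n ih =>
      rw [Finset.sum_range_succ]
      have := hstep n
      linarith
  have ha0 : 0 ≤ a 0 := by
    simp only [ha]
    refine E_nonneg fun w => ?_
    exact mul_nonneg (mul_nonneg (hRpos 0 w).le (hT0 0 w)) (sq_nonneg _)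
  have han : a n ≤ E (fun w => R n w * T_STL d h n w) := by
    simp only [ha]
    refine E_mono fun w => ?_
    have h1 : 0 ≤ R n w * T_STL d h n w := mul_nonneg (hRpos n w).le (hT0 n w)
    have h2 := hM1 n w
    nlinarith
  have hfin : h * E (fun w => R n w * T_STL d h n w) ≤ Vu := by
    have h1 : ∀ w, h * T_STL d h n w ≤
        ∑ i ∈ d.G.filter (fun i => i < n), (stp d h).th i w * d.sg i w := by
      intro w
      have h0 : 0 ≤ ∑ i ∈ d.G.filter (fun i => i < n), (stp d h).th i w * d.sg i w :=
        Finset.sum_nonneg fun i _ => mul_nonneg (hpos i w).2.1 (hsg0 i w)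
      by_cases hc : h < ∑ i ∈ d.G.filter (fun i => i < n), d.th i w * d.sg i w
      · have h2 := hthird n w hc
        have h3 : T_STL d h n w = 1 := by
          unfold T_STL
          rw [if_pos hc]
        rw [h3, mul_one]
        exact h2.le
      · have h3 : T_STL d h n w = 0 := by
          unfold T_STL
          rw [if_neg hc]
        rw [h3, mul_zero]
        exact h0
    calc h * E (fun w => R n w * T_STL d h n w)
        = E (fun w => h * (R n w * T_STL d h n w)) := (E_mul_left _ _).symm
      _ ≤ E (fun w => ∑ i ∈ d.G.filter (fun i => i < n), R n w * ((stp d h).th i w * d.sg i w)) := by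
          refine E_mono fun w => ?_
          rw [← Finset.mul_sum]
          have h2 := mul_le_mul_of_nonneg_left (h1 w) (hRpos n w).le
          linarith
      _ = ∑ i ∈ d.G.filter (fun i => i < n),
            E (fun w => R n w * ((stp d h).th i w * d.sg i w)) := E_sum _ _
      _ = ∑ i ∈ d.G.filter (fun i => i < n),
            E (fun w => R i w * ((stp d h).th i w * d.sg i w)) := by
          refine Finset.sum_congr rfl fun i hi => ?_
          have hi' : i < n := (Finset.mem_filter.1 hi).2
          refine hq i n (fun w => (stp d h).th i w * d.sg i w) hi'.le ?_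
          exact (he.th_meas i).mul (d.F.C_meas i _)
      _ ≤ ∑ i ∈ d.G.filter (fun i => i < n),
            E (fun w => R i w * d.F.C i (fun v => d.D i v ^ 2) w) := by
          refine Finset.sum_le_sum fun i _ => E_mono fun w => ?_
          refine mul_le_mul_of_nonneg_left ?_ (hRpos i w).le
          have h3 : (stp d h).th i w ≤ 1 := (hpos i w).2.2.trans (hth1 i w)
          have h4 := hsg0 i w
          calc (stp d h).th i w * d.sg i w ≤ 1 * d.sg i w := mul_le_mul_of_nonneg_right h3 h4
            _ = d.F.C i (fun v => d.D i v ^ 2) w := by rw [one_mul]; rfl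
      _ ≤ ∑ i ∈ d.G, E (fun w => R i w * d.F.C i (fun v => d.D i v ^ 2) w) := by
          refine Finset.sum_le_sum_of_subset_of_nonneg (Finset.filter_subset _ _) fun i _ _ => ?_
          exact E_nonneg fun w => mul_nonneg (hRpos i w).le (hsg0 i w)
      _ ≤ Vu := hVu
  have hres : ∑ l ∈ range n, E (fun w => R l w * T_STL d h l w *
      d.F.C l (fun v => dM d.F d.f l v ^ 2) w) ≤ Vu / h := by
    rw [le_div_iff₀ hh]
    have h1 := hsumle n
    nlinarith
  exact hres

end Pool.Agent.Helper56.OS
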