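import Pool.Agent.Helper56.OS.StA

/-! # Project OS, module STP: the stopped data. -/

set_option autoImplicit false

open Finset

namespace Pool.Agent.Helper56.OS

open Pool.Agent.Helper56.SS (Fil Dat Hyp E)

private theorem th_nonneg_STP {Ω : Type} [Fintype Ω] {d : Dat Ω} (hd : HypS d) (j : ℕ) (w : Ω) :
    0 ≤ d.th j w := by
  rcases hd.th01 j w with e | e <;> rw [e] <;> norm_num

private theorem sg_nonneg_STP {Ω : Type} [Fintype Ω] (d : Dat Ω) (j : ℕ) (w : Ω) :
    0 ≤ d.sg j w := d.F.C_nonneg (fun _ => by positivity) w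

private theorem th_sg_le_STP {Ω : Type} [Fintype Ω] {d : Dat Ω} (hd : HypS d) (j : ℕ) (w : Ω) :
    d.th j w * d.sg j w ≤ d.kap ^ 2 := by
  rcases hd.th01 j w with e | e
  · rw [e, zero_mul]; positivity
  · rw [e, one_mul]
    have h1 : d.F.C j (fun v => d.D j v ^ 2) w ≤ d.F.C j (fun _ => d.kap ^ 2) w := by
      apply d.F.C_mono_blk
      intro w' hw'
      have h2 : d.th j w' = 1 := by rw [hd.th_meas j w' w hw', e]
      have h3 := hd.th_le j w' h2
      have := abs_nonneg (d.D j w')
      rw [← sq_abs]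
      gcongr
    rw [d.F.C_const] at h1
    exact h1

private theorem cut_le_STP (G : Finset ℕ) (c : ℕ → ℝ) (h M : ℝ) (hc : ∀ i, 0 ≤ c i)
    (hM : ∀ i, c i ≤ M) (hh : 0 ≤ h) :
    ∑ j ∈ G.filter (fun j => ∑ i ∈ G.filter (fun i => i < j), c i ≤ h), c j ≤ h + M := by
  classical
  set T := G.filter (fun j => ∑ i ∈ G.filter (fun i => i < j), c i ≤ h) with hT
  rcases T.eq_empty_or_nonempty with he | hne
  · rw [he, sum_empty]
    have := (hc 0).trans (hM 0)
    linarith
  · have hmem := T.max'_mem hne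
    have h1 := (mem_filter.mp hmem).2
    rw [← add_sum_erase T c hmem]
    have h2 : ∑ j ∈ T.erase (T.max' hne), c j ≤ ∑ i ∈ G.filter (fun i => i < T.max' hne), c i := by
      refine sum_le_sum_of_subset_of_nonneg ?_ (fun i _ _ => hc i)
      intro i hi
      have h3 := mem_erase.mp hi
      have h4 := (mem_filter.mp h3.2).1
      refine mem_filter.mpr ⟨h4, lt_of_le_of_ne (T.le_max' i h3.2) h3.1⟩
    have h5 := hM (T.max' hne)
    linarith

private theorem cut_gt_STP (G : Finset ℕ) (c : ℕ → ℝ) (h : ℝ) (n : ℕ) (hc : ∀ i, 0 ≤ c i)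
    (hn : h < ∑ i ∈ G.filter (fun i => i < n), c i) :
    h < ∑ j ∈ (G.filter (fun i => i < n)).filter
      (fun j => ∑ i ∈ G.filter (fun i => i < j), c i ≤ h), c j := by
  classical
  have hex : ∃ m, h < ∑ i ∈ G.filter (fun i => i < m), c i := ⟨n, hn⟩
  have h1 := Nat.find_spec hex
  have h2 : Nat.find hex ≤ n := Nat.find_min' hex hn
  refine lt_of_lt_of_le h1 (sum_le_sum_of_subset_of_nonneg ?_ (fun i _ _ => hc i))
  intro i hi
  have h3 := mem_filter.mp hi
  refine mem_filter.mpr ⟨mem_filter.mpr ⟨h3.1, lt_of_lt_of_le h3.2 h2⟩, ?_⟩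
  exact not_lt.mp (Nat.find_min hex h3.2)

private theorem stp_mul_STP {Ω : Type} [Fintype Ω] (d : Dat Ω) (h : ℝ) (j : ℕ) (w : Ω) :
    (stp d h).th j w * d.sg j w =
      if ∑ i ∈ d.G.filter (fun i => i < j), d.th i w * d.sg i w ≤ h then d.th j w * d.sg j w
      else 0 := by
  unfold stp
  dsimp only
  split_ifs
  · rfl
  · rw [zero_mul]

theorem p_STP : S_STP := by
  classical
  intro Ω _ _ d h hd hh
  refine ⟨?_, ?_, ?_, ?_⟩
  · refine ⟨hd.lam_ge, hd.kap_pos, hd.lk, sq_nonneg d.B0, fun w => ?_, hd.D_meas, hd.D_zero,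
      hd.D_le, fun j w => ?_, fun j => ?_, fun j w hw => ?_, ?_⟩
    · show |(0 : ℝ)| ≤ 1
      norm_num
    · show (if ∑ i ∈ d.G.filter (fun i => i < j), d.th i w * d.sg i w ≤ h then d.th j w else 0) = 0
        ∨ (if ∑ i ∈ d.G.filter (fun i => i < j), d.th i w * d.sg i w ≤ h then d.th j w else 0) = 1
      split_ifs
      · exact hd.th01 j w
      · exact Or.inl rfl
    · intro w w' hw
      show (if ∑ i ∈ d.G.filter (fun i => i < j), d.th i w * d.sg i w ≤ h then d.th j w else 0) =
        (if ∑ i ∈ d.G.filter (fun i => i < j), d.th i w' * d.sg i w' ≤ h then d.th j w' else 0)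
      have h1 : ∑ i ∈ d.G.filter (fun i => i < j), d.th i w * d.sg i w =
          ∑ i ∈ d.G.filter (fun i => i < j), d.th i w' * d.sg i w' := by
        refine sum_congr rfl fun i hi => ?_
        have hij := (mem_filter.mp hi).2
        have e1 := d.F.lab_mono hij.le hw
        rw [hd.th_meas i w w' e1, d.F.C_meas i (fun v => d.D i v ^ 2) w w' e1 |> fun e => (e : d.sg i w = d.sg i w')]
      rw [h1, hd.th_meas j w w' hw]
    · have hw' : (if ∑ i ∈ d.G.filter (fun i => i < j), d.th i w * d.sg i w ≤ h then d.th j w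
        else 0) = 1 := hw
      split_ifs at hw' with h1
      · exact hd.th_le j w hw'
      · exact absurd hw' (by norm_num)
    · intro j _ g _ hg
      have h1 : (fun w => g w * (stp d h).f w * (stp d h).D j w) = fun _ => (0 : ℝ) := by
        funext w
        show g w * 0 * d.D j w = 0
        ring
      rw [h1, Pool.Agent.Helper56.SS.E_zero]
      show E (fun w => g w * d.D j w ^ 2) - d.B0 ^ 2 * E g ≤ 0
      rw [← Pool.Agent.Helper56.SS.E_mul_left, sub_nonpos]
      refine Pool.Agent.Helper56.SS.E_mono fun w => ?_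
      have h2 : d.D j w ^ 2 ≤ d.B0 ^ 2 := by
        rw [← sq_abs (d.D j w)]
        have := abs_nonneg (d.D j w)
        have := hd.D_le j w
        gcongr
      calc g w * d.D j w ^ 2 ≤ g w * d.B0 ^ 2 := mul_le_mul_of_nonneg_left h2 (hg w)
        _ = d.B0 ^ 2 * g w := mul_comm _ _
  · intro w
    simp only [stp_mul_STP]
    rw [← sum_filter]
    exact cut_le_STP d.G (fun i => d.th i w * d.sg i w) h (d.kap ^ 2)
      (fun i => mul_nonneg (th_nonneg_STP hd i w) (sg_nonneg_STP d i w))
      (fun i => th_sg_le_STP hd i w) hh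
  · intro n w hn
    simp only [stp_mul_STP]
    rw [← sum_filter]
    exact cut_gt_STP d.G (fun i => d.th i w * d.sg i w) h n
      (fun i => mul_nonneg (th_nonneg_STP hd i w) (sg_nonneg_STP d i w)) hn
  · intro j w
    refine ⟨sg_nonneg_STP d j w, ?_, ?_⟩
    · show 0 ≤ (if ∑ i ∈ d.G.filter (fun i => i < j), d.th i w * d.sg i w ≤ h then d.th j w else 0)
      split_ifs
      · exact th_nonneg_STP hd j w
      · exact le_refl _
    · show (if ∑ i ∈ d.G.filter (fun i => i < j), d.th i w * d.sg i w ≤ h then d.th j w else 0) ≤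
        d.th j w
      split_ifs
      · exact le_refl _
      · exact th_nonneg_STP hd j w

end Pool.Agent.Helper56.OS
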