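import Pool.Agent.Helper56.OS.StA

/-! # Project OS (MP_9a0a6c_an), module STP2. -/

set_option autoImplicit false

open Finset

namespace Pool.Agent.Helper56.OS

open Pool.Agent.Helper56.SS (Fil Dat Hyp E S_NEG S_NEAR S_TEL S_BIG)
open Pool.Agent.Helper56.SS

private theorem cnt_mono_STP2 {Ω : Type} [Fintype Ω] (d : Dat Ω) {a j n : ℕ} (hjn : j ≤ n) :
    d.cnt a j ≤ d.cnt a n := by
  unfold Dat.cnt
  apply card_le_card
  intro i hi
  rw [mem_filter] at hi ⊢
  exact ⟨hi.1, hi.2.1, hi.2.2.trans_le hjn⟩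

private theorem C_abs_le_STP2 {Ω : Type} [Fintype Ω] (F : Fil Ω) (n : ℕ) (g : Ω → ℝ) (Ym : ℝ)
    (hg : ∀ w, |g w| ≤ Ym) (w : Ω) : |F.C n g w| ≤ Ym := by
  rw [abs_le]
  constructor
  · have h1 := F.C_mono (j := n) (g := fun _ => -Ym) (h := g) (fun v => (abs_le.mp (hg v)).1) w
    rwa [F.C_const] at h1
  · have h1 := F.C_mono (j := n) (g := g) (h := fun _ => Ym) (fun v => (abs_le.mp (hg v)).2) w
    rwa [F.C_const] at h1

theorem p_STP2 : S_STP2 := by
  intro hNEG hNEAR hTEL hBIG hPOS hTWO hTEL2 Ω _ _ d h t s ε om ht hs hsk hε hε4 a n han dd hdd hexp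
    g Ym hg
  have hYm : 0 ≤ Ym := by
    obtain ⟨w⟩ := (inferInstance : Nonempty Ω)
    exact (abs_nonneg _).trans (hg w)
  have hs1 : 1 ≤ s := by linarith
  have hcd : ∀ j ≤ n, 5 * s ^ 2 * ((d.cnt a j : ℝ) * (d.lam ^ 2 * t ^ 2)) ≤
      5 * s ^ 2 * (dd * (d.lam ^ 2 * t ^ 2)) := by
    intro j hj
    have h1 : (d.cnt a j : ℝ) ≤ dd :=
      (by exact_mod_cast cnt_mono_STP2 d hj : (d.cnt a j : ℝ) ≤ d.cnt a n).trans hdd
    gcongr
  have hcond : Real.exp (-(s * ε / 4) + 5 * s ^ 2 * (d.cnt a n * (d.lam ^ 2 * t ^ 2))) ≤ om := by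
    refine le_trans (Real.exp_le_exp.2 ?_) hexp
    have := hcd n le_rfl
    linarith
  have hcond2 : ∀ j ≤ n,
      Real.exp (-(s * ε) + 5 * s ^ 2 * (d.cnt a j * (d.lam ^ 2 * t ^ 2))) ≤ om := by
    intro j hj
    refine le_trans (Real.exp_le_exp.2 ?_) hexp
    have h1 := hcd j hj
    have h2 : 0 < s * ε := by positivity
    linarith
  have h1 := hTWO hNEG hPOS Ω d h t s ε om ht.le hs hsk hε hε4 a n han hcond
    (fun w => d.F.C n g w) Ym (fun w => C_abs_le_STP2 d.F n g Ym hg w)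
  refine ⟨?_, ?_⟩
  · intro u hu hdel
    have h2 := hTEL2 hTEL Ω d h t a n han g u hdel
    have h3 : ∑ j ∈ d.G.filter (fun j => a ≤ j ∧ j < n), u j * E (fun w => d.R a w * d.Bb t a j w *
        |d.xb t j w|) ≤
        ∑ j ∈ d.G.filter (fun j => a ≤ j ∧ j < n),
          u j * (d.lam / t * (2 * d.gn j + d.kap ^ 2 * om)) := by
      refine sum_le_sum fun j hj => ?_
      rw [mem_filter] at hj
      exact mul_le_mul_of_nonneg_left
        (hBIG hNEG hNEAR Ω d h t s ε om ht hs1 hsk hε (by linarith) a j hj.2.1 hj.1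
          (hcond2 j hj.2.2.le)) (hu j)
    have h4 := abs_sub_le (E (fun w => d.R n w * d.F.C n g w))
      (E (fun w => d.R a w * d.Bb t a n w * d.F.C n g w)) (E (fun w => d.R a w * d.F.C a g w))
    linarith
  · intro htk
    have hB : ∀ w, d.Bb t a n w = 1 := by
      intro w
      unfold Dat.Bb
      refine prod_eq_one fun i _ => ?_
      rw [htk, h.xb_kap]
      ring
    have h5 : E (fun w => d.R a w * d.Bb t a n w * d.F.C n g w) =
        E (fun w => d.R a w * d.F.C a g w) := by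
      have e1 : (fun w => d.R a w * d.Bb t a n w * d.F.C n g w) =
          fun w => d.R a w * d.F.C n g w := by
        funext w; rw [hB w]; ring
      rw [e1, d.F.E_mul_C ((h.R_meas a).mono han), d.F.E_mul_C (h.R_meas a)]
    rw [h5] at h1
    exact h1

end Pool.Agent.Helper56.OS
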