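import Pool.Agent.Helper56.OS.StD

/-! # Project OS: module STR -/

set_option autoImplicit false

open Finset

namespace Pool.Agent.Helper56.OS

open Pool.Agent.Helper57.SN (co si SS dd th Spn stm av BC blk Lv IsFil)
open Pool.Agent.Helper56.SS (Fil Dat Hyp E)

private theorem spn_mono_STR (m : ℕ) (D D' : Finset ℕ) (h : D ⊆ D') (g : ℤ) (hg : Spn m D g) :
    Spn m D' g := by
  obtain ⟨c, hc, hg⟩ := hg
  refine ⟨fun d => if d ∈ D then c d else 0, fun d => ?_, ?_⟩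
  · dsimp only
    split_ifs
    · exact hc d
    · simp
  · rw [hg]
    have : ∀ d ∈ D', (if d ∈ D then c d else 0) * (d : ℤ) = if d ∈ D then c d * d else 0 := by
      intro d _
      split_ifs
      · rfl
      · simp
    rw [sum_congr rfl this, ← sum_filter]
    congr 1
    ext d
    rw [mem_filter]
    exact ⟨fun hd => ⟨h hd, hd⟩, fun hd => hd.2⟩

private theorem hit_mono_STR (H m : ℕ) (D D' : Finset ℕ) (h : D ⊆ D') (a : ℕ)
    (hg : HitW H m D a) : HitW H m D' a := by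
  obtain ⟨g, h1, h2⟩ := hg
  exact ⟨g, spn_mono_STR _ _ _ h g h1, h2⟩

private theorem land_mono_STR (m : ℕ) (D D' : Finset ℕ) (h : D ⊆ D') (a : ℕ) (γ : ℤ)
    (hg : LandN m D a γ) : LandN m D' a γ := by
  obtain ⟨h0, g, h1, h2⟩ := hg
  exact ⟨h0, g, spn_mono_STR _ _ _ h g h1, h2⟩

open Classical in
private theorem core_STR (hCORE : St_CORE) (K H m0 r e0 : ℕ) (J : Finset ℕ)
    (D St Rs Fi : ℕ → Finset ℕ) (b : ℕ → ℝ) (Ω : Finset ℕ) (ε : ℝ) (cf : ℕ → ℝ)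
    (gs : GS K b Ω) (H10 : 10 ≤ H) (m1 : 1 ≤ m0) (r1 : 1 ≤ r) (rm : 4 * r * m0 ≤ 2 ^ H)
    (card : J.card ≤ 2 ^ H) (aK : ∀ a ∈ J, a + 2 * H + 20 ≤ K) (eK : e0 + 4 ≤ K)
    (ae : ∀ a ∈ J, e0 + 2 * H + 4 ≤ a)
    (sep : ∀ a ∈ J, ∀ a' ∈ J, a ≠ a' → a + 4 * H ≤ a' ∨ a' + 4 * H ≤ a)
    (sub : ∀ a ∈ J, D a ⊆ Oct Ω a) (cr : ∀ a ∈ J, (D a).card ≤ r)
    (hit : ∀ a ∈ J, ¬ HitW H m0 ((J.erase a).biUnion D) a) (e_pos : 0 < ε) (e_le : ε ≤ 1)
    (bohr : 4 * Real.exp (-(m0 * ε / (4 * r ^ 2))) ≤ ε * (1 / (2 * m0) : ℝ) ^ (J.card * r))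
    (hsets : ∀ i ∈ J, St i ∪ Rs i ⊆ Oct Ω i ∧ Oct Ω i ⊆ St i ∪ Rs i ∪ Fi i ∧
      Disjoint (St i) (Rs i) ∧ Disjoint (St i ∪ Rs i) (Fi i) ∧ Fi i ⊆ Ω ∧
      (∀ ω ∈ Fi i, 2 ^ i ≤ 4 * ω ∧ ω ≤ 2 ^ (i + 2)))
    (hst : ∀ i ∈ J, ∀ ω ∈ St i, Spn 1 (D i) (ω : ℤ))
    (hfar : ∀ i ∈ J, ∀ C : ℕ → ℝ, (∀ ω ∈ Ω, |C ω| ≤ 1) →
      (∀ ω ∈ Ω, ∀ ω' ∈ Ω, |(ω : ℤ) - ω'| ≤ 2 ^ e0 →
        |C ω - C ω'| ≤ 5 * (|(ω : ℝ) - ω'| / 2 ^ e0)) →
      |∑ ω ∈ Fi i, b ω * C ω| ≤ cf i) :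
    ∑ i ∈ J, (∑ ω ∈ St i, b ω * phi (ω / 2 ^ i)) / 3 ≤
    1 + ∑ i ∈ J, (ms b (Rs i) + cf i + (ε + 2 * (J.card + 1) / 2 ^ H) * ms b (St i)) +
    ∑ ω ∈ Ω.filter (fun ω : ℕ => ∃ a ∈ J, LandN m0 ((J.erase a).biUnion D) a (ω : ℤ)), |b ω| +
    ms b Ω / 2 ^ H := by
  have hU : ∀ i : J, ((univ : Finset J).erase i).biUnion (fun j : J => D j) =
      (J.erase i).biUnion D := by
    intro i
    ext x
    simp only [mem_biUnion, mem_erase, mem_univ, and_true, Subtype.exists, ne_eq, Subtype.ext_iff,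
      exists_prop]
    constructor
    · rintro ⟨j, hj, h1, h2⟩
      exact ⟨j, ⟨h1, hj⟩, h2⟩
    · rintro ⟨j, ⟨h1, hj⟩, h2⟩
      exact ⟨j, hj, h1, h2⟩
  have hcfg : Cfg J K H m0 r e0 (fun i : J => (i : ℕ)) (fun i : J => D i) b Ω ε :=
    { gs := gs
      H10 := H10
      m1 := m1
      r1 := r1
      rm := rm
      card := by rw [Fintype.card_coe]; exact card
      aK := fun i => aK i i.2
      eK := eK
      ae := fun i => ae i i.2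
      sep := fun i j hij => sep i i.2 j j.2 (fun h => hij (Subtype.ext h))
      sub := fun i => sub i i.2
      cr := fun i => cr i i.2
      hit := fun i => by rw [hU i]; exact hit i i.2
      e_pos := e_pos
      e_le := e_le
      bohr := by rw [Fintype.card_coe]; exact bohr }
  have key := hCORE J K H m0 r e0 (fun i : J => (i : ℕ)) (fun i : J => D i) (fun i : J => St i)
    (fun i : J => Rs i) (fun i : J => Fi i) b Ω ε (fun i : J => cf i) hcfg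
    (fun i => hsets i i.2) (fun i => hst i i.2) (fun i => hfar i i.2)
  rw [Fintype.card_coe] at key
  have e1 := Finset.sum_coe_sort J (fun i => (∑ ω ∈ St i, b ω * phi (ω / 2 ^ i)) / 3)
  have e2 := Finset.sum_coe_sort J (fun i => ms b (Rs i) + cf i +
    (ε + 2 * ((J.card : ℕ) + 1) / 2 ^ H) * ms b (St i))
  rw [← e1, ← e2]
  refine key.trans (le_of_eq ?_)
  congr 2
  refine sum_congr ?_ fun _ _ => rfl
  refine filter_congr fun ω _ => ?_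
  constructor
  · rintro ⟨i, hi⟩
    rw [hU i] at hi
    exact ⟨i, i.2, hi⟩
  · rintro ⟨a, ha, hi⟩
    refine ⟨⟨a, ha⟩, ?_⟩
    rw [hU ⟨a, ha⟩]
    exact hi

/-- the numerical facts -/
private theorem num_STR (H x N n : ℕ) (q : ℝ) (hH : (10 : ℝ) ^ 20 ≤ H) (hHx : (H : ℝ) ^ 200 ≤ 2 ^ x)
    (hxH : ((2 : ℝ) ^ x) ^ 100 ≤ 2 ^ H) (hNH : (N : ℝ) ^ 50 ≤ 2 ^ H) (hN1 : 1 ≤ N) (hq1 : 1 ≤ q)
    (hqH : 800 * q ≤ H) (hn : (n : ℝ) ≤ 20 * 2 ^ x) :
    2 * (N : ℝ) / 2 ^ H ≤ 1 / 10 ∧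
    (4 / 3 * (80 / 2 ^ (2 * H)) + (1 / (H : ℝ) ^ 2 + 2 * (n + 1) / 2 ^ H)) * (4 * q) ≤ 3 / 100 := by
  obtain ⟨y, hy⟩ : ∃ y : ℝ, y = H := ⟨_, rfl⟩
  obtain ⟨D, hD⟩ : ∃ D : ℝ, D = 2 ^ x := ⟨_, rfl⟩
  obtain ⟨W, hW⟩ : ∃ W : ℝ, W = 2 ^ H := ⟨_, rfl⟩
  have e2 : (2 : ℝ) ^ (2 * H) = W ^ 2 := by rw [hW, mul_comm, pow_mul]
  rw [e2]
  rw [← hy] at hH hHx hqH ⊢
  rw [← hD] at hHx hxH hn
  rw [← hW] at hxH hNH ⊢
  have hy1 : (100000 : ℝ) ≤ y := le_trans (by norm_num) hH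
  have hy0 : 0 < y := by linarith
  have hyD : y ≤ D := by
    calc y = y ^ 1 := (pow_one y).symm
      _ ≤ y ^ 200 := pow_le_pow_right₀ (by linarith) (by norm_num)
      _ ≤ D := hHx
  have hD1 : (100000 : ℝ) ≤ D := by linarith
  have hDW3 : D ^ 3 ≤ W := (pow_le_pow_right₀ (by linarith) (by norm_num)).trans hxH
  have hDW : D ≤ W := by
    refine le_trans ?_ hDW3
    calc D = D ^ 1 := (pow_one D).symm
      _ ≤ D ^ 3 := pow_le_pow_right₀ (by linarith) (by norm_num)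
  have hW1 : (100000 : ℝ) ≤ W := by linarith
  have hW0 : 0 < W := by linarith
  have hNr : (1 : ℝ) ≤ N := by exact_mod_cast hN1
  have hN2 : (N : ℝ) ^ 2 ≤ W := (pow_le_pow_right₀ hNr (by norm_num)).trans hNH
  have hq0 : 0 < q := by linarith
  have h4q : 4 * q ≤ y / 200 := by linarith
  refine ⟨?_, ?_⟩
  · rw [div_le_iff₀ hW0]
    rcases le_or_gt (20 : ℝ) N with h | h
    · nlinarith
    · linarith
  · have ha : 4 / 3 * (80 / W ^ 2) * (4 * q) ≤ 1 / 100 := by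
      have h1 : 4 / 3 * (80 / W ^ 2) * (4 * q) ≤ 4 / 3 * (80 / W ^ 2) * (W / 200) :=
        mul_le_mul_of_nonneg_left (by linarith) (by positivity)
      refine h1.trans ?_
      have h2 : 4 / 3 * (80 / W ^ 2) * (W / 200) = (8 / 15) / W := by
        field_simp
        norm_num
      rw [h2, div_le_iff₀ hW0]
      linarith
    have hb : 1 / y ^ 2 * (4 * q) ≤ 1 / 100 := by
      have h1 : 1 / y ^ 2 * (4 * q) ≤ 1 / y ^ 2 * (y / 200) :=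
        mul_le_mul_of_nonneg_left h4q (by positivity)
      refine h1.trans ?_
      have h2 : 1 / y ^ 2 * (y / 200) = (1 / 200) / y := by
        field_simp
      rw [h2, div_le_iff₀ hy0]
      linarith
    have hc : 2 * ((n : ℝ) + 1) / W * (4 * q) ≤ 1 / 100 := by
      have h1 : 2 * ((n : ℝ) + 1) ≤ 42 * D := by linarith
      have h2 : 2 * ((n : ℝ) + 1) / W * (4 * q) ≤ 42 * D / W * (D / 200) := by
        refine mul_le_mul ?_ (by linarith) (by positivity) (by positivity)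
        exact div_le_div_of_nonneg_right h1 hW0.le
      refine h2.trans ?_
      rw [div_mul_div_comm, div_le_iff₀ (by positivity)]
      nlinarith [sq_nonneg D]
    calc (4 / 3 * (80 / W ^ 2) + (1 / y ^ 2 + 2 * ((n : ℝ) + 1) / W)) * (4 * q) =
        4 / 3 * (80 / W ^ 2) * (4 * q) + (1 / y ^ 2 * (4 * q) +
          2 * ((n : ℝ) + 1) / W * (4 * q)) := by ring
      _ ≤ 1 / 100 + (1 / 100 + 1 / 100) := add_le_add ha (add_le_add hb hc)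
      _ = 3 / 100 := by norm_num

open Classical in
theorem p_STR (hSTW : St_STW) (hCORE : St_CORE) (hNST : St_NST) (hPHB : St_PHB)
    (hPHI : St_PHI) : St_STR := by
  intro K H N x b Ω Ls Sg q Ms Dm Fi near Int gs hH hHx hxH hNH hN1 hq1 hqH hms hMs hSL hLs hnear
    hSg hEi hmain
  obtain ⟨hphi01, hphi0, hphiL, -, -, -, -, -⟩ := hPHB
  obtain ⟨hP3, -, -, hPB, hPO, -⟩ := hPHI K b Ω gs
  have hLs' : ∀ a ∈ Ls, 2 * H + 8 ≤ a ∧ a + 2 * H + 20 ≤ K ∧ 1 / 2 ^ x < Ph b Ω a ∧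
      Ph b Ω a ≤ 3 := by
    intro a ha
    obtain ⟨h1, h2, h3, -⟩ := hLs a ha
    exact ⟨h1, h2, h3, (abs_le.1 (hP3 a (by omega) (by omega))).2⟩
  obtain ⟨J, hJS, hJc, hJsep, hJhit, ⟨A1, hA1, hA1K, hJA⟩, hJ2⟩ :=
    hSTW K H x b Ω Ls Sg Ms Dm near Int hH hHx hxH hms hSL gs.pos hLs' hnear
      (fun a ha => ⟨(hSg a ha).2.2.1.trans sdiff_subset, (hSg a ha).2.2.2.1⟩) hEi hmain
  obtain ⟨-, -, ⟨hn1, hn2, hn3, hn4⟩, hn5⟩ := hNST H x (H : ℝ) (2 ^ x) rfl rfl hH hHx hxH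
  have hH10 : 10 ≤ H := by
    have : (10 : ℝ) ≤ H := le_trans (by norm_num) hH
    exact_mod_cast this
  -- the levels above 4 H
  obtain ⟨J', hJ'⟩ : ∃ J' : Finset ℕ, J' = J.filter (fun a => 4 * H ≤ a) := ⟨_, rfl⟩
  have hJ'J : J' ⊆ J := by rw [hJ']; exact filter_subset _ _
  have hcardJ' : J'.card ≤ 20 * 2 ^ x := (card_le_card hJ'J).trans hJc
  have hsplit : ∑ a ∈ J, (Ph b Ω a / 4 - 2 * near a) ≤
      ∑ a ∈ J', (Ph b Ω a / 4 - 2 * near a) + 3 / 4 := by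
    rw [← sum_filter_add_sum_filter_not J (fun a => 4 * H ≤ a), ← hJ']
    refine add_le_add (le_refl _) ?_
    have hc1 : (J.filter (fun a => ¬ 4 * H ≤ a)).card ≤ 1 := by
      rw [card_le_one]
      intro a ha a' ha'
      rw [mem_filter] at ha ha'
      by_contra hne
      rcases lt_or_gt_of_ne hne with h | h
      · have := hJsep a ha.1 a' ha'.1 h
        omega
      · have := hJsep a' ha'.1 a ha.1 h
        omega
    refine (sum_le_card_nsmul _ _ (3 / 4 : ℝ) fun a ha => ?_).trans ?_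
    · rw [mem_filter] at ha
      have h1 := (hLs' a (hSL (hJS ha.1))).2.2.2
      have h2 := hnear a
      linarith
    · rw [nsmul_eq_mul]
      have : ((J.filter (fun a => ¬ 4 * H ≤ a)).card : ℝ) ≤ 1 := by exact_mod_cast hc1
      linarith
  obtain ⟨A2, hA2⟩ : ∃ A2 : ℕ, A2 = max A1 (4 * H) := ⟨_, rfl⟩
  obtain ⟨t, ht⟩ : ∃ t : ℕ, A2 = 4 * H + t := ⟨A2 - 4 * H, by omega⟩
  obtain ⟨e0, he0⟩ : ∃ e0 : ℕ, e0 = 2 * H - 4 + t := ⟨_, rfl⟩
  have hJ'A : ∀ a ∈ J', a ∈ J ∧ A2 ≤ a := by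
    intro a ha
    have h1 := hJ'J ha
    rw [hJ', mem_filter] at ha
    refine ⟨h1, ?_⟩
    rw [hA2]
    exact max_le (hJA a h1).1 ha.2
  -- oscillation
  obtain ⟨o, ho⟩ : ∃ o : ℝ, o = 80 / 2 ^ (2 * H) := ⟨_, rfl⟩
  have ho0 : 0 ≤ o := by rw [ho]; positivity
  have hpow : (2 : ℝ) ^ t / 2 ^ e0 = 16 / 2 ^ (2 * H) := by
    have h1 : (2 : ℝ) ^ (2 * H) = 2 ^ (2 * H - 4) * 16 := by
      rw [show (16 : ℝ) = 2 ^ 4 by norm_num, ← pow_add]
      congr 1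
      omega
    rw [he0, pow_add, h1]
    field_simp
  have hfarJ : ∀ a ∈ J', ∀ C : ℕ → ℝ, (∀ ω ∈ Ω, |C ω| ≤ 1) →
      (∀ ω ∈ Ω, ∀ ω' ∈ Ω, |(ω : ℤ) - ω'| ≤ 2 ^ t → |C ω - C ω'| ≤ o) →
      |∑ ω ∈ Fi a, b ω * C ω| ≤ Ph b Ω a / 100 + o * Bm b Ω a := by
    intro a ha C hC1 hC2
    obtain ⟨haJ, haA⟩ := hJ'A a ha
    refine (hSg a (hJS haJ)).2.2.2.2.2 A2 haA ?_ C o ho0 hC1 ?_
    · refine le_trans ?_ (hJA a haJ).2
      refine Nat.add_le_add_right (card_le_card ?_) 2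
      intro c hc
      rw [mem_filter] at hc ⊢
      refine ⟨hc.1, ?_, hc.2.2⟩
      have : A1 ≤ A2 := by rw [hA2]; exact le_max_left _ _
      omega
    · rw [ht, Nat.add_sub_cancel_left]
      exact hC2
  have hfar : ∀ a ∈ J', ∀ C : ℕ → ℝ, (∀ ω ∈ Ω, |C ω| ≤ 1) →
      (∀ ω ∈ Ω, ∀ ω' ∈ Ω, |(ω : ℤ) - ω'| ≤ 2 ^ e0 →
        |C ω - C ω'| ≤ 5 * (|(ω : ℝ) - ω'| / 2 ^ e0)) →
      |∑ ω ∈ Fi a, b ω * C ω| ≤ Ph b Ω a / 100 + o * Bm b Ω a := by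
    intro a ha C hC1 hC2
    refine hfarJ a ha C hC1 fun ω hω ω' hω' h => ?_
    have hte : t ≤ e0 := by omega
    have h1 : |(ω : ℤ) - ω'| ≤ 2 ^ e0 := h.trans (pow_le_pow_right₀ (by norm_num) hte)
    refine (hC2 ω hω ω' hω' h1).trans ?_
    have h2 : |(ω : ℝ) - ω'| ≤ 2 ^ t := by exact_mod_cast h
    have h3 : |(ω : ℝ) - ω'| / 2 ^ e0 ≤ 16 / 2 ^ (2 * H) := by
      rw [← hpow]
      exact div_le_div_of_nonneg_right h2 (by positivity)
    rw [ho]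
    calc 5 * (|(ω : ℝ) - ω'| / 2 ^ e0) ≤ 5 * (16 / 2 ^ (2 * H)) := by linarith
      _ = 80 / 2 ^ (2 * H) := by ring
  have hfarphi : ∀ a ∈ J', |∑ ω ∈ Fi a, b ω * phi (ω / 2 ^ a)| ≤
      Ph b Ω a / 100 + o * Bm b Ω a := by
    intro a ha
    obtain ⟨haJ, haA⟩ := hJ'A a ha
    refine hfarJ a ha (fun ω => phi (ω / 2 ^ a)) (fun ω _ => ?_) (fun ω _ ω' _ h => ?_)
    · rw [abs_of_nonneg (hphi01 _).1]
      exact (hphi01 _).2
    · refine (hphiL _ _).trans ?_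
      have h2 : |(ω : ℝ) - ω'| ≤ 2 ^ t := by exact_mod_cast h
      rw [← sub_div, abs_div, abs_of_pos (by positivity : (0 : ℝ) < 2 ^ a), ho]
      have h3 : (2 : ℝ) ^ (2 * H) * 2 ^ t ≤ 2 ^ a := by
        rw [← pow_add]
        exact pow_le_pow_right₀ (by norm_num) (by omega)
      rw [mul_div_assoc', div_le_div_iff₀ (by positivity) (by positivity)]
      calc 2 * |(ω : ℝ) - ω'| * 2 ^ (2 * H) ≤ 2 * 2 ^ t * 2 ^ (2 * H) := by
            refine mul_le_mul_of_nonneg_right ?_ (by positivity)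
            linarith
        _ = 2 * (2 ^ (2 * H) * 2 ^ t) := by ring
        _ ≤ 2 * 2 ^ a := by linarith
        _ ≤ 80 * 2 ^ a := by
            have : (0 : ℝ) < 2 ^ a := by positivity
            linarith
  -- the sets
  obtain ⟨St, hSt⟩ : ∃ St : ℕ → Finset ℕ, St = fun a =>
    (Oct Ω a \ Fi a).filter (fun ω : ℕ => Spn 1 (Dm a) (ω : ℤ)) := ⟨_, rfl⟩
  obtain ⟨Rs, hRs⟩ : ∃ Rs : ℕ → Finset ℕ, Rs = fun a =>
    (Oct Ω a \ Fi a).filter (fun ω : ℕ => ¬ Spn 1 (Dm a) (ω : ℤ)) := ⟨_, rfl⟩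
  have hSR : ∀ a, St a ∪ Rs a = Oct Ω a \ Fi a := by
    intro a
    rw [hSt, hRs]
    exact filter_union_filter_not_eq _ _
  have hSRd : ∀ a, Disjoint (St a) (Rs a) := by
    intro a
    rw [hSt, hRs]
    exact disjoint_filter_filter_not _ _ _
  have hsets : ∀ i ∈ J', St i ∪ Rs i ⊆ Oct Ω i ∧ Oct Ω i ⊆ St i ∪ Rs i ∪ Fi i ∧
      Disjoint (St i) (Rs i) ∧ Disjoint (St i ∪ Rs i) (Fi i) ∧ Fi i ⊆ Ω ∧
      (∀ ω ∈ Fi i, 2 ^ i ≤ 4 * ω ∧ ω ≤ 2 ^ (i + 2)) := by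
    intro i hi
    have hiS := hJS (hJ'J hi)
    rw [hSR i]
    refine ⟨sdiff_subset, ?_, hSRd i, sdiff_disjoint, (hSg i hiS).1, (hSg i hiS).2.1⟩
    intro ω hω
    rw [mem_union, mem_sdiff]
    by_cases h : ω ∈ Fi i
    · exact Or.inr h
    · exact Or.inl ⟨hω, h⟩
  have hcast : ((2 ^ (14 * x) : ℕ) : ℝ) = (2 : ℝ) ^ (14 * x) := by push_cast; rfl
  have hnc : ((J'.card : ℕ) : ℝ) ≤ 20 * 2 ^ x := by exact_mod_cast hcardJ'
  have hcore := core_STR hCORE K H (2 ^ (14 * x)) (2 ^ (4 * x)) e0 J' Dm St Rs Fi b Ω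
    (1 / (H : ℝ) ^ 2) (fun a => Ph b Ω a / 100 + o * Bm b Ω a) gs hH10
    (Nat.one_le_two_pow) (Nat.one_le_two_pow) hn1 (hcardJ'.trans hn2)
    (fun a ha => (hLs a (hSL (hJS (hJ'J ha)))).2.1) (by
      rcases le_total A1 (4 * H) with h | h
      · rw [max_eq_right h] at hA2
        omega
      · rw [max_eq_left h] at hA2
        omega)
    (fun a ha => by
      have := (hJ'A a ha).2
      omega)
    (fun a ha a' ha' hne => by
      rcases lt_or_gt_of_ne hne with h | h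
      · exact Or.inl (hJsep a (hJ'J ha) a' (hJ'J ha') h)
      · exact Or.inr (hJsep a' (hJ'J ha') a (hJ'J ha) h))
    (fun a ha => (hSg a (hJS (hJ'J ha))).2.2.1.trans sdiff_subset)
    (fun a ha => (hSg a (hJS (hJ'J ha))).2.2.2.1)
    (fun a ha h => hJhit a (hJ'J ha) (hit_mono_STR _ _ _ _
      (biUnion_subset_biUnion_of_subset_left _ (erase_subset_erase _ hJ'J)) _ h))
    (by positivity) (by
      have h1 : (1 : ℝ) ≤ H := le_trans (by norm_num) hH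
      rw [div_le_one (by positivity)]
      exact one_le_pow₀ h1)
    (hn5 J'.card hnc) hsets (fun i _ ω hω => by
      rw [hSt] at hω
      exact (mem_filter.1 hω).2) hfar
  obtain ⟨hnum1, hnum2⟩ := num_STR H x N J'.card q hH hHx hxH hNH hN1 hq1 hqH hnc
  -- landing mass
  have hland : ∑ ω ∈ Ω.filter (fun ω : ℕ => ∃ a ∈ J', LandN (2 ^ (14 * x))
      ((J'.erase a).biUnion Dm) a (ω : ℤ)), |b ω| ≤
      ∑ ω ∈ Ω.filter (fun ω : ℕ => ∃ a ∈ J, LandN (2 ^ (14 * x))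
      ((J.erase a).biUnion Dm) a (ω : ℤ)), |b ω| := by
    refine sum_le_sum_of_subset_of_nonneg ?_ fun _ _ _ => abs_nonneg _
    intro ω hω
    rw [mem_filter] at hω ⊢
    obtain ⟨h1, a, ha, h2⟩ := hω
    exact ⟨h1, a, hJ'J ha, land_mono_STR _ _ _
      (biUnion_subset_biUnion_of_subset_left _ (erase_subset_erase _ hJ'J)) _ _ h2⟩
  -- term by term
  have hterm : ∀ a ∈ J', Ph b Ω a / 4 - 2 * near a ≤ (∑ ω ∈ St a, b ω * phi (ω / 2 ^ a)) / 3 -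
      (ms b (Rs a) + (Ph b Ω a / 100 + o * Bm b Ω a) +
        (1 / (H : ℝ) ^ 2 + 2 * ((J'.card : ℕ) + 1) / 2 ^ H) * ms b (St a)) := by
    intro a ha
    have haS := hJS (hJ'J ha)
    obtain ⟨-, -, hPlo, hBP⟩ := hLs a (hSL haS)
    have hP0 : 0 < Ph b Ω a := lt_trans (by positivity) hPlo
    have hR : ms b (Rs a) ≤ Ph b Ω a / 100 + near a := by
      have := (hSg a haS).2.2.2.2.1
      rw [hRs]
      exact this
    have hfp := abs_le.1 (hfarphi a ha)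
    -- decomposition of Ph
    have hdec : Ph b Ω a = ∑ ω ∈ St a, b ω * phi (ω / 2 ^ a) +
        ∑ ω ∈ Rs a, b ω * phi (ω / 2 ^ a) + ∑ ω ∈ Fi a, b ω * phi (ω / 2 ^ a) := by
      rw [← sum_union (hSRd a), hSR a, hPO a]
      have h1 : ∑ ω ∈ Fi a, b ω * phi (ω / 2 ^ a) =
          ∑ ω ∈ Oct Ω a ∩ Fi a, b ω * phi (ω / 2 ^ a) := by
        symm
        refine sum_subset inter_subset_right ?_
        intro ω hω hω2
        have hωΩ := (hSg a haS).1 hω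
        have h2 : ω ∉ Oct Ω a := fun h => hω2 (mem_inter.2 ⟨h, hω⟩)
        by_contra hne
        apply h2
        have h3 := hphi0 _ (right_ne_zero_of_mul hne)
        rw [Oct, mem_filter]
        refine ⟨hωΩ, ?_, ?_⟩
        · have h4 := h3.1
          rw [lt_div_iff₀ (by positivity)] at h4
          have h5 : (2 : ℝ) ^ a < 2 * ω := by linarith
          exact_mod_cast h5
        · have h4 := h3.2
          rw [div_lt_iff₀ (by positivity)] at h4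
          have h5 : (ω : ℝ) < 2 ^ (a + 1) := by rw [pow_succ]; linarith
          exact_mod_cast h5
      rw [h1]
      have h2 := sum_sdiff (f := fun ω : ℕ => b ω * phi (ω / 2 ^ a))
        (inter_subset_left : Oct Ω a ∩ Fi a ⊆ Oct Ω a)
      rw [sdiff_inter_self_left] at h2
      exact h2.symm
    have hRp : |∑ ω ∈ Rs a, b ω * phi (ω / 2 ^ a)| ≤ ms b (Rs a) := by
      refine (abs_sum_le_sum_abs _ _).trans ?_
      unfold ms
      refine sum_le_sum fun ω _ => ?_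
      rw [abs_mul, abs_of_nonneg (hphi01 _).1]
      exact mul_le_of_le_one_right (abs_nonneg _) (hphi01 _).2
    have hRp2 := (abs_le.1 hRp).2
    have hSB : ms b (St a) ≤ Bm b Ω a := by
      refine le_trans ?_ (hPB a).2.1
      unfold ms
      refine sum_le_sum_of_subset_of_nonneg ?_ fun _ _ _ => abs_nonneg _
      rw [hSt]
      exact (filter_subset _ _).trans sdiff_subset
    have hB0 := (hPB a).2.2
    have hη0 : 0 ≤ 1 / (H : ℝ) ^ 2 + 2 * ((J'.card : ℕ) + 1) / 2 ^ H := by positivity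
    have h1 : (4 / 3 * o + (1 / (H : ℝ) ^ 2 + 2 * ((J'.card : ℕ) + 1) / 2 ^ H)) * Bm b Ω a ≤
        3 / 100 * Ph b Ω a := by
      rw [← ho] at hnum2
      calc (4 / 3 * o + (1 / (H : ℝ) ^ 2 + 2 * ((J'.card : ℕ) + 1) / 2 ^ H)) * Bm b Ω a ≤
          (4 / 3 * o + (1 / (H : ℝ) ^ 2 + 2 * ((J'.card : ℕ) + 1) / 2 ^ H)) *
            (4 * q * Ph b Ω a) := mul_le_mul_of_nonneg_left hBP (by positivity)
        _ = (4 / 3 * o + (1 / (H : ℝ) ^ 2 + 2 * ((J'.card : ℕ) + 1) / 2 ^ H)) * (4 * q) *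
            Ph b Ω a := by ring
        _ ≤ _ := mul_le_mul_of_nonneg_right hnum2 hP0.le
    have h2 : (1 / (H : ℝ) ^ 2 + 2 * ((J'.card : ℕ) + 1) / 2 ^ H) * ms b (St a) ≤
        (1 / (H : ℝ) ^ 2 + 2 * ((J'.card : ℕ) + 1) / 2 ^ H) * Bm b Ω a :=
      mul_le_mul_of_nonneg_left hSB hη0
    have h3 := hnear a
    linarith [hfp.2]
  have hsum := (sum_le_sum hterm).trans (le_of_eq (sum_sub_distrib _ _))
  have hmsΩ : ms b Ω / 2 ^ H ≤ 1 / 10 := by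
    refine le_trans ?_ hnum1
    exact div_le_div_of_nonneg_right (hms.trans hMs) (by positivity)
  beta_reduce at hcore
  linarith

end Pool.Agent.Helper56.OS
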