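import Pool.Agent.Helper56.OS.StD

/-! # Project OS, module STW: window and choice of the levels -/

set_option autoImplicit false

open Finset

namespace Pool.Agent.Helper56.OS

private theorem ome_nonneg_STW (b : ℕ → ℝ) (Ω : Finset ℕ) (e : ℕ) : 0 ≤ ome b Ω e :=
  sum_nonneg fun _ _ => abs_nonneg _

private theorem ome_zero_STW (b : ℕ → ℝ) (Ω : Finset ℕ) (e : ℕ)
    (he : e ∉ Ω.image (Nat.log 2)) : ome b Ω e = 0 := by
  unfold ome
  rw [filter_eq_empty_iff.2, sum_empty]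
  rintro ω hω ⟨h1, h2⟩
  exact he (mem_image.2 ⟨ω, hω, Nat.log_eq_of_pow_le_of_lt_pow h1 h2⟩)

private theorem ome_sum_STW (b : ℕ → ℝ) (Ω : Finset ℕ) (hΩ : ∀ ω ∈ Ω, 1 ≤ ω) :
    ∑ e ∈ Ω.image (Nat.log 2), ome b Ω e = ms b Ω := by
  unfold ms
  rw [← sum_fiberwise_of_maps_to (g := Nat.log 2) (t := Ω.image (Nat.log 2))
    (fun ω hω => mem_image_of_mem _ hω)]
  refine sum_congr rfl fun e _ => ?_
  unfold ome
  refine sum_congr ?_ fun _ _ => rfl
  ext ω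
  rw [mem_filter, mem_filter]
  constructor
  · rintro ⟨h, h1, h2⟩
    exact ⟨h, Nat.log_eq_of_pow_le_of_lt_pow h1 h2⟩
  · rintro ⟨h, h1⟩
    have := hΩ ω h
    refine ⟨h, ?_, ?_⟩
    · rw [← h1]
      exact Nat.pow_log_le_self 2 (by omega)
    · rw [← h1]
      exact Nat.lt_pow_succ_log_self (by norm_num) ω

theorem p_STW (hWIN : St_WIN) (hSEL : St_SEL) (hNST : St_NST) : St_STW := by
  classical
  intro K H x b Ω Ls Sg Ms Dm near Int hH hx1 hx2 hms hSL hΩ hLs hnear hDm hEi hcond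
  obtain ⟨n1, n2, ⟨-, -, n3, n4⟩, -⟩ := hNST H x (H : ℝ) (2 ^ x) rfl rfl hH hx1 hx2
  set D : ℝ := 2 ^ x with hD
  have hD0 : 0 < D := by positivity
  have hHn : 3 ≤ H := by
    have : (3 : ℝ) ≤ H := le_trans (by norm_num) hH
    exact_mod_cast this
  set EE : Finset ℕ := Ω.image (Nat.log 2) with hEE
  set Et : Finset ℕ := EE.filter (fun e => (2 : ℝ) ^ x ≤ ome b Ω e ∧ ome b Ω e < 2 ^ (10 * x)) with hEt
  set Hv : Finset ℕ := EE.filter (fun e => (2 : ℝ) ^ (10 * x) ≤ ome b Ω e) with hHv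
  have hEtI : ∑ e ∈ Et, ome b Ω e ≤ Int := hEi Et fun e he => (mem_filter.1 he).2
  have hHvM : (2 : ℝ) ^ (10 * x) * Hv.card ≤ Ms := by
    calc (2 : ℝ) ^ (10 * x) * Hv.card = ∑ _e ∈ Hv, (2 : ℝ) ^ (10 * x) := by
          rw [sum_const, nsmul_eq_mul, mul_comm]
      _ ≤ ∑ e ∈ Hv, ome b Ω e := sum_le_sum fun e he => (mem_filter.1 he).2
      _ ≤ ∑ e ∈ EE, ome b Ω e :=
          sum_le_sum_of_subset_of_nonneg (filter_subset _ _) fun e _ _ => ome_nonneg_STW b Ω e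
      _ = ms b Ω := ome_sum_STW b Ω hΩ
      _ ≤ Ms := hms
  set g : ℕ → ℝ := fun a => if a ∈ Sg then 160 * near a else if a ∈ Ls then 2 * Ph b Ω a else 0
    with hg
  have hPhpos : ∀ a ∈ Ls, 0 < Ph b Ω a := fun a ha =>
    lt_of_le_of_lt (by positivity) (hLs a ha).2.2.1
  have hg0 : ∀ a, 0 ≤ g a := by
    intro a
    rw [hg]
    dsimp only
    split_ifs with h1 h2
    · have := hnear a
      linarith
    · have := hPhpos a h2
      linarith
    · exact le_rfl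
  -- sums of `g`
  have hgW : ∀ W : Finset ℕ, W ⊆ Ls → ∑ a ∈ W, g a =
      160 * ∑ a ∈ W.filter (fun a => a ∈ Sg), near a +
        2 * ∑ a ∈ W.filter (fun a => ¬ a ∈ Sg), Ph b Ω a := by
    intro W hW
    rw [← sum_filter_add_sum_filter_not W (fun a => a ∈ Sg), mul_sum, mul_sum]
    congr 1
    · refine sum_congr rfl fun a ha => ?_
      rw [hg]
      dsimp only
      rw [if_pos (mem_filter.1 ha).2]
    · refine sum_congr rfl fun a ha => ?_
      rw [hg]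
      dsimp only
      rw [if_neg (mem_filter.1 ha).2, if_pos (hW (mem_filter.1 ha).1)]
  have hX1 : 1 ≤ 2 ^ (9 * x) := Nat.one_le_two_pow
  have h9 : ((2 ^ (9 * x) : ℕ) : ℝ) = (2 : ℝ) ^ (9 * x) := by push_cast; rfl
  obtain ⟨W, hWL, hWc, A1, A2, hA1W, hWA, hWf, hWs⟩ := hWIN (2 ^ (9 * x)) H Ls Hv Et (Ph b Ω) g
    (fun e => 400 * ome b Ω e) hX1 n3 (fun a ha => ⟨hPhpos a ha, (hLs a ha).2.2.2⟩) hg0
    (fun e => by have := ome_nonneg_STW b Ω e; positivity) (by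
      refine lt_of_le_of_lt ?_ hcond
      rw [hgW Ls subset_rfl, h9, ← mul_sum]
      have e1 : Ls.filter (fun a => a ∈ Sg) = Sg := by
        ext a
        rw [mem_filter]
        exact ⟨fun h => h.2, fun h => ⟨hSL h, h⟩⟩
      have e2 : Ls.filter (fun a => ¬ a ∈ Sg) = Ls \ Sg := by
        ext a
        rw [mem_filter, mem_sdiff]
      rw [e1, e2]
      have e3 : 6 * (2 : ℝ) ^ (9 * x) * Hv.card ≤ 6 * Ms / D := by
        rw [le_div_iff₀ hD0]
        have : 6 * (2 : ℝ) ^ (9 * x) * Hv.card * D = 6 * ((2 : ℝ) ^ (10 * x) * Hv.card) := by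
          have : (2 : ℝ) ^ (10 * x) = 2 ^ (9 * x) * 2 ^ x := by
            rw [← pow_add]
            congr 1
            ring
          rw [this, hD]
          ring
        rw [this]
        linarith
      linarith)
  rw [h9] at hWs
  -- no heavy octave
  have hom0 : 0 ≤ ∑ e ∈ Et.filter (fun e => A1 ≤ e ∧ e ≤ A2), 400 * ome b Ω e :=
    sum_nonneg fun e _ => by have := ome_nonneg_STW b Ω e; positivity
  have hgs0 : 0 ≤ ∑ a ∈ W, g a := sum_nonneg fun a _ => hg0 a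
  have hPW : ∑ a ∈ W, Ph b Ω a ≤ 3 * (2 : ℝ) ^ (9 * x) := by
    calc ∑ a ∈ W, Ph b Ω a ≤ ∑ _a ∈ W, (3 : ℝ) := sum_le_sum fun a ha => (hLs a (hWL ha)).2.2.2
      _ = 3 * (2 : ℝ) ^ (9 * x) := by rw [sum_const, nsmul_eq_mul, hWc, h9, mul_comm]
  have hHv0 : Hv.filter (fun e => A1 ≤ e ∧ e ≤ A2) = ∅ := by
    rw [← card_eq_zero]
    by_contra hne
    have h1 : (1 : ℝ) ≤ (Hv.filter (fun e => A1 ≤ e ∧ e ≤ A2)).card := by
      exact_mod_cast Nat.one_le_iff_ne_zero.2 hne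
    have h2 : 3 * (2 : ℝ) ^ (9 * x) * 1 ≤
        3 * (2 : ℝ) ^ (9 * x) * (Hv.filter (fun e => A1 ≤ e ∧ e ≤ A2)).card :=
      mul_le_mul_of_nonneg_left h1 (by positivity)
    linarith
  rw [hHv0, card_empty, Nat.cast_zero, mul_zero, add_zero, hgW W hWL, ← mul_sum] at hWs
  have hWsplit := sum_filter_add_sum_filter_not W (fun a => a ∈ Sg) (Ph b Ω)
  set W' : Finset ℕ := W.filter (fun a => a ∈ Sg) with hW'
  set W'' : Finset ℕ := W.filter (fun a => ¬ a ∈ Sg) with hW''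
  have hn0 : 0 ≤ ∑ a ∈ W', near a := sum_nonneg fun a _ => hnear a
  have hP0 : 0 ≤ ∑ a ∈ W'', Ph b Ω a :=
    sum_nonneg fun a ha => (hPhpos a (hWL (mem_filter.1 ha).1)).le
  have hI0 : 0 ≤ ∑ e ∈ Et.filter (fun e => A1 ≤ e ∧ e ≤ A2), ome b Ω e :=
    sum_nonneg fun e _ => ome_nonneg_STW b Ω e
  set S' : ℝ := ∑ a ∈ W', Ph b Ω a with hS'
  have hWlow : (2 : ℝ) ^ (9 * x) * (1 / 2 ^ x) ≤ ∑ a ∈ W, Ph b Ω a := by
    calc (2 : ℝ) ^ (9 * x) * (1 / 2 ^ x) = ∑ _a ∈ W, (1 / (2 : ℝ) ^ x) := by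
          rw [sum_const, nsmul_eq_mul, hWc, h9]
      _ ≤ ∑ a ∈ W, Ph b Ω a := sum_le_sum fun a ha => (hLs a (hWL ha)).2.2.1.le
  have hX8 : (2 : ℝ) ^ (9 * x) * (1 / 2 ^ x) = D ^ 8 := by
    have : (2 : ℝ) ^ (9 * x) = D ^ 9 := by rw [hD, ← pow_mul, mul_comm]
    rw [this, ← hD]
    field_simp
  rw [hX8] at hWlow
  have hS8 : D ^ 8 / 2 ≤ S' := by linarith
  have hS0 : 0 < S' := lt_of_lt_of_le (by positivity) hS8
  have hnearS : ∑ a ∈ W', near a ≤ S' / 160 := by linarith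
  have hIntS : ∑ e ∈ Et.filter (fun e => A1 ≤ e ∧ e ≤ A2), ome b Ω e ≤ S' / 400 := by linarith
  have hW'L : W' ⊆ Ls := fun a ha => hWL (mem_filter.1 ha).1
  have hW'S : W' ⊆ Sg := fun a ha => (mem_filter.1 ha).2
  have hcS : S' ≤ 3 * W'.card := by
    calc S' ≤ ∑ _a ∈ W', (3 : ℝ) := sum_le_sum fun a ha => (hLs a (hW'L ha)).2.2.2
      _ = 3 * W'.card := by rw [sum_const, nsmul_eq_mul, mul_comm]
  have hcard : 20 * 2 ^ x ≤ W'.card := by
    have : (20 : ℝ) * 2 ^ x ≤ W'.card := by linarith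
    exact_mod_cast this
  have hcpos : (0 : ℝ) < W'.card := by
    by_contra hcon
    have : (W'.card : ℝ) = 0 := le_antisymm (not_lt.1 hcon) (Nat.cast_nonneg _)
    rw [this] at hcS
    linarith
  have hcD : (W'.card : ℝ) * (1 / 2 ^ x) ≤ S' := by
    calc (W'.card : ℝ) * (1 / 2 ^ x) = ∑ _a ∈ W', (1 / (2 : ℝ) ^ x) := by
          rw [sum_const, nsmul_eq_mul]
      _ ≤ S' := sum_le_sum fun a ha => (hLs a (hW'L ha)).2.2.1.le
  obtain ⟨J, hJW, hJc, hJsep, hJhit, hJsum⟩ := hSEL H (2 ^ (14 * x)) (2 ^ (4 * x)) (20 * 2 ^ x) W' Ω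
    Dm (Ph b Ω) near b A1 A2 D (S' / 400) (Et.filter (fun e => A1 ≤ e ∧ e ≤ A2)) hHn
    Nat.one_le_two_pow (by have : 1 ≤ 2 ^ x := Nat.one_le_two_pow
                           omega) hcard (by
      intro a ha
      have hS := hDm a (hW'S ha)
      have hL := hLs a (hW'L ha)
      refine ⟨hPhpos a (hW'L ha), hL.2.2.2, hnear a, hS.2, ?_, hWA a (mem_filter.1 ha).1⟩
      intro d hd
      have := hS.1 hd
      unfold Oct at this
      exact (mem_filter.1 this).2.2) n2 hD0.le (by positivity) (by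
      intro e h1 h2 h3
      change ome b Ω e ≤ D
      by_cases he : e ∈ EE
      · by_contra hcon
        have hc1 : D < ome b Ω e := not_le.1 hcon
        by_cases h4 : ome b Ω e < 2 ^ (10 * x)
        · exact h3 (mem_filter.2 ⟨mem_filter.2 ⟨he, hc1.le, h4⟩, h1, h2⟩)
        · have : e ∈ Hv.filter (fun e => A1 ≤ e ∧ e ≤ A2) :=
            mem_filter.2 ⟨mem_filter.2 ⟨he, not_lt.1 h4⟩, h1, h2⟩
          rw [hHv0] at this
          exact absurd this (notMem_empty e)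
      · rw [ome_zero_STW b Ω e he]
        exact hD0.le) hIntS (by
      have c1 : (((20 * 2 ^ x : ℕ)) : ℝ) = 20 * D := by push_cast; rfl
      have c2 : (((2 ^ (4 * x) : ℕ)) : ℝ) = D ^ 4 := by
        push_cast
        rw [hD, ← pow_mul, mul_comm]
      rw [c1, c2]
      have : ∑ a ∈ W', Ph b Ω a = S' := rfl
      rw [this]
      linarith) (by
      have c1 : (((20 * 2 ^ x : ℕ)) : ℝ) = 20 * 2 ^ x := by push_cast; rfl
      rw [c1]
      have h1 : 20 * (2 : ℝ) ^ x * ((W'.card : ℝ) * (1 / 2 ^ x)) ≤ 20 * (2 : ℝ) ^ x * S' :=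
        mul_le_mul_of_nonneg_left hcD (by positivity)
      have h2 : 20 * (2 : ℝ) ^ x * ((W'.card : ℝ) * (1 / 2 ^ x)) = 20 * W'.card := by
        field_simp
      have : ∑ a ∈ W', Ph b Ω a = S' := rfl
      rw [this]
      linarith)
  refine ⟨J, hJW.trans hW'S, hJc, hJsep, hJhit, ⟨A1, (hLs A1 (hWL hA1W)).1, (hLs A1 (hWL hA1W)).2.1,
    fun a ha => ?_⟩, hJsum⟩
  have haW : a ∈ W := (mem_filter.1 (hJW ha)).1
  refine ⟨(hWA a haW).1, ?_⟩
  have h1 := hWf a haW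
  have h2 : 2 ^ (9 * x + 1) = 2 * 2 ^ (9 * x) := by rw [pow_succ]; ring
  rw [h2]
  omega

end Pool.Agent.Helper56.OS
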