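import Pool.Agent.Helper56.OS.StA

/-! # Project OS, module SUME: sum of the errors over `l`. -/

set_option autoImplicit false

open Finset

namespace Pool.Agent.Helper56.OS

open Pool.Agent.Helper56.SS (Fil Dat Hyp E)

private theorem swap_SUME (G : Finset ℕ) (P : ℕ → ℕ → Prop) [∀ l j, Decidable (P l j)]
    (a : ℕ → ℕ → ℝ) (y : ℕ → ℝ) :
    ∑ l ∈ G, ∑ j ∈ G.filter (fun j => P l j), a l j * y j =
      ∑ j ∈ G, y j * ∑ l ∈ G.filter (fun l => P l j), a l j := by
  simp only [sum_filter, mul_sum]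
  rw [sum_comm]
  refine sum_congr rfl fun j _ => sum_congr rfl fun l _ => ?_
  split_ifs
  · ring
  · ring

theorem p_SUME : S_SUME := by
  classical
  intro Ω _ _ d hd D K t e tau om W M ht he htau hom hM hMb hW
  unfold ebig
  rw [sum_comm]
  refine sum_le_sum fun k hk => ?_
  obtain ⟨hk1, hkK⟩ := mem_Ico.mp hk
  have htk := ht k hkK
  have hlam := hd.lam_pos
  have hy : ∀ j, 0 ≤ d.lam / t k * (2 * d.gn j + d.kap ^ 2 * om) := by
    intro j
    have := hd.gn_nonneg j
    positivity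
  rw [swap_SUME d.G (fun l j => cut D (k + 1) l ≤ j ∧ j < cut D k l) (fun l j => e l j + tau)
    (fun j => d.lam / t k * (2 * d.gn j + d.kap ^ 2 * om))]
  have h1 : ∀ j ∈ d.G, ∑ l ∈ d.G.filter (fun l => cut D (k + 1) l ≤ j ∧ j < cut D k l),
      (e l j + tau) ≤ M k + d.G.card * tau := by
    intro j hj
    rw [sum_add_distrib, sum_const, nsmul_eq_mul]
    have h2 := hMb k hk1 hkK j hj
    have h3 : ((d.G.filter (fun l => cut D (k + 1) l ≤ j ∧ j < cut D k l)).card : ℝ) ≤
        (d.G.card : ℝ) := by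
      exact_mod_cast card_filter_le _ _
    have h4 := mul_le_mul_of_nonneg_right h3 htau
    linarith
  calc ∑ j ∈ d.G, d.lam / t k * (2 * d.gn j + d.kap ^ 2 * om) *
        ∑ l ∈ d.G.filter (fun l => cut D (k + 1) l ≤ j ∧ j < cut D k l), (e l j + tau)
      ≤ ∑ j ∈ d.G, d.lam / t k * (2 * d.gn j + d.kap ^ 2 * om) * (M k + d.G.card * tau) :=
        sum_le_sum fun j hj => mul_le_mul_of_nonneg_left (h1 j hj) (hy j)
    _ = (M k + d.G.card * tau) * (d.lam / t k * (2 * ∑ j ∈ d.G, d.gn j +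
          d.G.card * (d.kap ^ 2 * om))) := by
        rw [← sum_mul, ← mul_sum, sum_add_distrib, ← mul_sum, sum_const, nsmul_eq_mul]
        ring
    _ ≤ (M k + d.G.card * tau) * (d.lam / t k * (2 * W + d.G.card * (d.kap ^ 2 * om))) := by
        have h5 := hM k
        gcongr

end Pool.Agent.Helper56.OS
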