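import Pool.Agent.Helper56.OS.StA

/-! Project OS, module TEL2: two-sided telescoping. -/

set_option autoImplicit false

open Finset

namespace Pool.Agent.Helper56.OS

open Pool.Agent.Helper56.SS (Fil Dat Hyp E S_NEG S_NEAR S_TEL S_BIG)

theorem p_TEL2 : S_TEL2 := by
  intro hT Ω _ _ d h t a n han g u hu
  have hC : ∀ (j : ℕ) (w : Ω), d.F.C j (fun v => (-1 : ℝ) * g v) w = -d.F.C j g w := by
    intro j w
    rw [d.F.C_mul_left]
    ring
  have h1 := hT Ω d h t a n han g u hu
  have h2 := hT Ω d h t a n han (fun v => (-1 : ℝ) * g v) u (by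
    intro j hj haj hjn w
    rw [hC, hC]
    have h3 := hu j hj haj hjn w
    have h4 : -d.F.C (j + 1) g w - -d.F.C j g w = -(d.F.C (j + 1) g w - d.F.C j g w) := by ring
    rw [h4, abs_neg]
    exact h3)
  have e1 : E (fun w => d.R a w * d.F.C a (fun v => (-1 : ℝ) * g v) w) =
      -E (fun w => d.R a w * d.F.C a g w) := by
    rw [← Pool.Agent.Helper56.SS.E_neg]
    congr 1
    funext w
    rw [hC]
    ring
  have e2 : E (fun w => d.R a w * d.Bb t a n w * d.F.C n (fun v => (-1 : ℝ) * g v) w) =
      -E (fun w => d.R a w * d.Bb t a n w * d.F.C n g w) := by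
    rw [← Pool.Agent.Helper56.SS.E_neg]
    congr 1
    funext w
    rw [hC]
    ring
  rw [e1, e2] at h2
  rw [abs_le]
  constructor <;> linarith

end Pool.Agent.Helper56.OS
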