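import Pool.Agent.Helper56.OS.StD
import Pool.Agent.Helper57.SN.M_exFil
import Pool.Agent.Helper57.SN.M_dict

/-! Project OS, module TLT: the tilt for the set `G`. -/

set_option autoImplicit false

open Finset

namespace Pool.Agent.Helper56.OS

open Pool.Agent.Helper57.SN (co si SS dd th Spn stm av BC blk Lv IsFil m_exFil m_dict)
open Pool.Agent.Helper56.SS (Fil Dat Hyp E)

private theorem disj_TLT (K H T : ℕ) (b : ℕ → ℝ) (Ω : Finset ℕ) (al : ℕ → ℕ) (q μ : ℝ)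
    (U : ℕ → Finset ℕ) (σ : ℕ → ℝ) (G : Finset ℕ) (hF : FamS K H T b Ω al q μ)
    (hU : USet T b Ω al U σ G) (hH : 1 ≤ H) (h2 : ∑ ω ∈ Ω, b ω ^ 2 ≤ 2) :
    ∑ l ∈ G, ∑ ξ ∈ U l, b ξ ^ 2 ≤ 2 := by
  classical
  have hlt : ∀ l ∈ G, ∀ l' ∈ G, l < l' → Disjoint (U l) (U l') := by
    intro l hl l' hl' hll
    rw [disjoint_left]
    intro ω h1 h2
    have h3 := (mem_filter.mp (hU.sub l hl h1)).2.2
    have h4 := (mem_filter.mp (hU.sub l' hl' h2)).2.1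
    have h5 := hF.sep l l' hll (mem_range.mp (hU.GT hl'))
    have h6 : 2 ^ (al l + 2) ≤ 2 ^ (al l') := Nat.pow_le_pow_right (by norm_num) (by omega)
    have h7 : 2 ^ (al l + 2) = 2 * 2 ^ (al l + 1) := by rw [pow_succ]; ring
    omega
  have hdis : (G : Set ℕ).PairwiseDisjoint U := by
    intro l hl l' hl' hne
    rcases Nat.lt_or_gt_of_ne hne with h | h
    · exact hlt l hl l' hl' h
    · exact (hlt l' hl' l hl h).symm
  rw [← sum_biUnion hdis]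
  refine le_trans (sum_le_sum_of_subset_of_nonneg ?_ (fun _ _ _ => sq_nonneg _)) h2
  intro ω hω
  obtain ⟨l, hl, h⟩ := mem_biUnion.mp hω
  exact (mem_filter.mp (hU.sub l hl h)).1

theorem p_TLT (hFIN : S_FIN2) (hLVU : St_LVU) (hHYS : St_HYS) (hCTS : St_CTS) (hGA : St_GA0)
    (hNUM : St_NUM) (hPHI : St_PHI) : St_TLT := by
  classical
  intro K H T x Kc N b Ω al q μ Ms U σ G hGS hFam hU hms hNT hMk hth
  obtain ⟨-, -, -, -, -, hb2⟩ := hPHI K b Ω hGS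
  have hHr : (10 : ℝ) ^ 20 ≤ H := hNT.Hbig
  have hH1 : 1 ≤ H := by
    have : (1 : ℝ) ≤ H := by linarith
    exact_mod_cast this
  have hH0 : (0 : ℝ) < H := by linarith
  have hcard : (G.card : ℝ) ≤ T := by
    have := card_le_card hU.GT
    rw [card_range] at this
    exact_mod_cast this
  obtain ⟨⟨n1, n2, n3, n4, n5, n6, n7, n8, n9, n10, n11, n12, n13⟩, nb, nc, nd, ne⟩ :=
    hNUM H x T Kc N q Ms hNT G.card (by positivity) hcard (H : ℝ) (tk H x 0 / 2) ((H : ℝ) ^ 9)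
    ((H : ℝ) ^ 18) (1 / (H : ℝ) ^ 28) ((H : ℝ) ^ 30) (Real.exp (-((H : ℝ) ^ 2 / 8)))
    (1 / (H : ℝ) ^ 37) (Real.exp (-((H : ℝ) ^ 40)))
    ((200 * (12 * q) ^ 2 + 54 * (12 * q) + 8 * (12 * q) * Ms) / 2 ^ H)
    rfl rfl rfl rfl rfl rfl rfl rfl rfl rfl
  obtain ⟨F, hFil⟩ := m_exFil K H T al (fun i j hij hj => by
    have := hFam.sep i j hij hj
    omega)
  obtain ⟨dE, -, -, -, -⟩ := m_dict K H T al F hFil (fun j hj => by
    have h1 := hFam.lo j hj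
    have h2 := hFam.hiK j hj
    constructor <;> omega)
  have hq0 : 0 ≤ 24 * q := by have := hFam.q1; linarith
  have hHyp := hHYS K H T b Ω al q μ U σ G F (tk H x 0 / 2) ((H : ℝ) ^ 9) hGS hFam hU hFil hH1 n1 n2
    n3 n4
  have hCuts := hCTS K H T b Ω al q μ Ms U σ G F (tk H x 0 / 2) ((H : ℝ) ^ 9) x Kc (tk H x)
    (fun k => (H : ℝ) ^ 9 / 2 ^ (x + k - 1)) hGS hFam hU hFil hH1 hms hNT.Kc1 hNT.TKc (by ring)
    (fun k _ => by unfold tk; positivity) (fun k => by positivity) hMk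
  have : Nonempty (Fin (2 ^ K)) := ⟨⟨0, by positivity⟩⟩
  have hGA' : ∀ l ∈ G, (∑ ξ ∈ U l, b ξ ^ 2) / 2 - 27 * (12 * q) / 2 ^ H ≤
      E (fun w : Fin (2 ^ K) => SS K b Ω w *
        (if l ∈ G then σ l * dd K H (al l) (fun ω => |b ω|) (U l) w else 0)) ∧
      E (fun w : Fin (2 ^ K) => (if l ∈ G then σ l * dd K H (al l) (fun ω => |b ω|) (U l) w else 0) ^ 2)
        ≤ (∑ ξ ∈ U l, b ξ ^ 2) / 2 + 81 * (12 * q) ^ 2 / 2 ^ H := by
    intro l hl
    have hlT := mem_range.mp (hU.GT hl)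
    have hLv := (hLVU K H T b Ω al q μ hGS hFam l hlT (U l) (hU.sub l hl)).1
    have h := hGA K H (al l) b (U l) Ω (12 * q) (σ l) hGS hLv
      ((hU.sub l hl).trans (filter_subset _ _)) (hU.sgn l hl)
    rw [← dE (fun x => SS K b Ω x * (σ l * dd K H (al l) (fun ω => |b ω|) (U l) x)),
      ← dE (fun x => (σ l * dd K H (al l) (fun ω => |b ω|) (U l) x) ^ 2)] at h
    simp only [if_pos hl]
    exact h
  have hsum2 := disj_TLT K H T b Ω al q μ U σ G hFam hU hH1 hb2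
  have hE2 : ∑ l ∈ G, E (fun w : Fin (2 ^ K) =>
      (if l ∈ G then σ l * dd K H (al l) (fun ω => |b ω|) (U l) w else 0) ^ 2) ≤
      1 + G.card * (81 * (12 * q) ^ 2 / 2 ^ H) := by
    refine (sum_le_sum (fun l hl => (hGA' l hl).2)).trans ?_
    rw [sum_add_distrib, sum_const, nsmul_eq_mul, ← sum_div]
    linarith
  have hfin := hFIN (Fin (2 ^ K)) _ hHyp (2 ^ x) Kc (tk H x) (eO H b Ω al U G (2 ^ x))
    ((200 * (12 * q) ^ 2 + 54 * (12 * q) + 8 * (12 * q) * Ms) / 2 ^ H)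
    (fun k => (H : ℝ) ^ 9 / 2 ^ (x + k - 1)) hCuts ((H : ℝ) ^ 18) ((H : ℝ) ^ 30) (1 / (H : ℝ) ^ 28)
    (Real.exp (-((H : ℝ) ^ 2 / 8))) (1 / (H : ℝ) ^ 37) (Real.exp (-((H : ℝ) ^ 40)))
    (1 / (H : ℝ) ^ 20) 3 n10 n5 n6 n7 n8 n9 (Real.exp_pos _).le hq0 nb n11 n12 n13
    (by
      intro l hl
      have h := hth l hl
      have e1 : E (fun w : Fin (2 ^ K) => 1 - (if l ∈ G then th K H (al l) (fun ω => |b ω|) (U l)
          (tk H x 0 / 2) w else 1)) =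
          av K (fun w => 1 - th K H (al l) (fun ω => |b ω|) (U l) (tk H x 0 / 2) w) := by
        rw [← dE (fun w => 1 - th K H (al l) (fun ω => |b ω|) (U l) (tk H x 0 / 2) w)]
        have hl' : l ∈ G := hl
        simp only [if_pos hl']
      show E (fun w : Fin (2 ^ K) => 1 - (if l ∈ G then th K H (al l) (fun ω => |b ω|) (U l)
          (tk H x 0 / 2) w else 1)) ≤ _
      rw [e1]
      exact h)
    nc
    (nd _ hE2)
  have hfin' : ∑ l ∈ G, E (fun w : Fin (2 ^ K) => SS K b Ω w *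
        (if l ∈ G then σ l * dd K H (al l) (fun ω => |b ω|) (U l) w else 0)) ≤
      2 / (H : ℝ) ^ 9 + G.card * (3 * (24 * q) * Real.exp (-((H : ℝ) ^ 40)) ^
        ((1 / (H : ℝ) ^ 37) / (1 + 1 / (H : ℝ) ^ 37))) + 3 / Real.sqrt ((H : ℝ) ^ 18) +
      1 / (H : ℝ) ^ 20 + G.card * (4 * Kc * (Real.exp (-((H : ℝ) ^ 2 / 8)) * (24 * q))) +
      2 * (1 / (H : ℝ) ^ 28) * Kc * (Real.sqrt (20 + 124 * (((H : ℝ) ^ 9) ^ 2 * ((H : ℝ) ^ 18 +
        (2 * (tk H x 0 / 2)) ^ 2))) * Real.sqrt 3) := hfin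
  have hlow : (∑ l ∈ G, ∑ ξ ∈ U l, b ξ ^ 2) / 2 - G.card * (27 * (12 * q) / 2 ^ H) ≤
      ∑ l ∈ G, E (fun w : Fin (2 ^ K) => SS K b Ω w *
        (if l ∈ G then σ l * dd K H (al l) (fun ω => |b ω|) (U l) w else 0)) := by
    have := sum_le_sum (fun l hl => (hGA' l hl).1)
    rw [sum_sub_distrib, sum_const, nsmul_eq_mul, ← sum_div] at this
    exact this
  have hhalf : 1 / (2 * (H : ℝ) ^ 8) = (1 / (H : ℝ) ^ 8) / 2 := by
    rw [one_div, mul_inv]; ring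
  rw [hhalf] at ne
  linarith

end Pool.Agent.Helper56.OS
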