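import Pool.Agent.Helper56.OS.StD

/-! Project OS, module TOP: final assembly for sine polynomials. -/

set_option autoImplicit false

open Finset

namespace Pool.Agent.Helper56.OS

open Pool.Agent.Helper57.SN (co si SS dd th Spn stm av BC blk Lv)

/-- the grid and `GS` -/
private theorem gs_TOP (H : ℕ) (Ω : Finset ℕ) (b : ℕ → ℝ) (hpos : ∀ ω ∈ Ω, 1 ≤ ω)
    (hF : ∀ x : ℝ, |∑ ω ∈ Ω, b ω * Real.sin (ω * x)| ≤ 1) :
    ∃ K : ℕ, GS K b Ω ∧ ∀ ω ∈ Ω, ω * 2 ^ (2 * H + 22) ≤ 2 ^ K := by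
  refine ⟨2 * H + 22 + Ω.sup id, ?_, ?_⟩
  · have hb : ∀ ω ∈ Ω, ω * 2 ^ (2 * H + 22) ≤ 2 ^ (2 * H + 22 + Ω.sup id) := by
      intro ω h
      have h1 : ω ≤ Ω.sup id := le_sup (f := id) h
      have h2 : ω ≤ 2 ^ (Ω.sup id) := h1.trans Nat.lt_two_pow_self.le
      calc ω * 2 ^ (2 * H + 22) ≤ 2 ^ (Ω.sup id) * 2 ^ (2 * H + 22) := Nat.mul_le_mul_right _ h2
        _ = _ := by rw [← pow_add, add_comm]
    refine ⟨hpos, ?_, ?_⟩
    · intro ω hω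
      have h2 : 64 ≤ 2 ^ (2 * H + 22) := by
        calc 64 = 2 ^ 6 := by norm_num
          _ ≤ 2 ^ (2 * H + 22) := Nat.pow_le_pow_right (by norm_num) (by omega)
      calc 64 * ω = ω * 64 := by ring
        _ ≤ ω * 2 ^ (2 * H + 22) := Nat.mul_le_mul_left _ h2
        _ ≤ _ := hb ω hω
    · intro x
      have h := hF (2 * Real.pi * x / 2 ^ (2 * H + 22 + Ω.sup id))
      have e : ∑ ω ∈ Ω, b ω * si (2 * H + 22 + Ω.sup id) ω x
          = ∑ ω ∈ Ω, b ω * Real.sin (ω * (2 * Real.pi * x / 2 ^ (2 * H + 22 + Ω.sup id))) := by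
        refine sum_congr rfl (fun ω _ => ?_)
        unfold si
        congr 2
        push_cast
        ring
      rw [e]
      exact h
  · intro ω h
    have h1 : ω ≤ Ω.sup id := le_sup (f := id) h
    have h2 : ω ≤ 2 ^ (Ω.sup id) := h1.trans Nat.lt_two_pow_self.le
    calc ω * 2 ^ (2 * H + 22) ≤ 2 ^ (Ω.sup id) * 2 ^ (2 * H + 22) := Nat.mul_le_mul_right _ h2
      _ = _ := by rw [← pow_add, add_comm]

/-- `ms b Ω ≤ √2 √N` -/
private theorem ms_TOP (N : ℕ) (Ω : Finset ℕ) (b : ℕ → ℝ) (hc : Ω.card ≤ N)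
    (h2 : ∑ ω ∈ Ω, b ω ^ 2 ≤ 2) : ms b Ω ≤ 1.4143 * Real.sqrt N := by
  unfold ms
  have h1 : (∑ ω ∈ Ω, |b ω|) ^ 2 ≤ Ω.card * ∑ ω ∈ Ω, |b ω| ^ 2 := sq_sum_le_card_mul_sum_sq
  have h3 : ∑ ω ∈ Ω, |b ω| ^ 2 = ∑ ω ∈ Ω, b ω ^ 2 := sum_congr rfl (fun ω _ => sq_abs _)
  rw [h3] at h1
  have h4 : (Ω.card : ℝ) ≤ N := by exact_mod_cast hc
  have h5 : 0 ≤ ∑ ω ∈ Ω, b ω ^ 2 := sum_nonneg (fun _ _ => sq_nonneg _)
  have h6 : (∑ ω ∈ Ω, |b ω|) ^ 2 ≤ 2 * N := by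
    calc (∑ ω ∈ Ω, |b ω|) ^ 2 ≤ Ω.card * ∑ ω ∈ Ω, b ω ^ 2 := h1
      _ ≤ N * 2 := by
        apply mul_le_mul h4 h2 h5
        positivity
      _ = 2 * N := by ring
  have h7 : 0 ≤ ∑ ω ∈ Ω, |b ω| := sum_nonneg (fun _ _ => abs_nonneg _)
  have hs : Real.sqrt N ^ 2 = N := Real.sq_sqrt (by positivity)
  have hs0 : 0 ≤ Real.sqrt N := Real.sqrt_nonneg _
  have h8 : (∑ ω ∈ Ω, |b ω|) ^ 2 ≤ (1.4143 * Real.sqrt N) ^ 2 := by
    rw [mul_pow, hs]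
    have : (0 : ℝ) ≤ N := by positivity
    norm_num
    nlinarith
  exact abs_le_of_sq_le_sq' h8 (by positivity) |>.2

theorem p_TOP (hCLS : St_CLS) (hFAM : St_FAM) (hSTR : St_STR) (hPGN : St_PGN) (hRNG : St_RNG)
    (hPHI : St_PHI) : St_TOP := by
  classical
  obtain ⟨N0, hN03, hR⟩ := hRNG
  refine ⟨N0, hN03, ?_⟩
  intro N hN Ω b hcard hpos hF
  by_contra hcon
  push Not at hcon
  obtain ⟨H, x0, K0, hK01, hH20, hNH, hHx0, hx0N, hLH, hLK, hL1, hL2, hH4, hDk⟩ := hR N hN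
  have hN3 : 3 ≤ N := hN03.trans hN
  have hN1 : 1 ≤ N := by omega
  have hNr : (3 : ℝ) ≤ N := by exact_mod_cast hN3
  obtain ⟨K, hGS, hK⟩ := gs_TOP H Ω b hpos hF
  obtain ⟨hPhi3, hBm5, hPhisum, hPhib, hPhiO, hb2⟩ := hPHI K b Ω hGS
  set L : ℝ := Real.log (Real.log N) with hL
  set s : ℝ := ∑ ω ∈ Ω, b ω with hs
  set Ms : ℝ := ms b Ω with hMs
  have hMs0 : 0 ≤ Ms := sum_nonneg (fun _ _ => abs_nonneg _)
  have hMsN : Ms ≤ 1.4143 * Real.sqrt N := ms_TOP N Ω b hcard hb2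
  have hsq0 : 0 < Real.sqrt N := Real.sqrt_pos.mpr (by linarith)
  have hsq1 : Real.sqrt N * Real.sqrt N = N := Real.mul_self_sqrt (by linarith)
  have hsq2 : 1 ≤ Real.sqrt N := by
    rw [show (1 : ℝ) = Real.sqrt 1 by simp]
    exact Real.sqrt_le_sqrt (by linarith)
  have hL0 : 0 < L := by linarith
  have hs1 : 10 ^ 6 * Real.sqrt N < s * L := by
    rw [div_lt_iff₀ hL0] at hcon
    exact hcon
  have hs0 : 0 < s := by
    by_contra h
    push Not at h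
    have : s * L ≤ 0 := mul_nonpos_of_nonpos_of_nonneg h hL0.le
    nlinarith
  have hH0 : (0 : ℝ) < H := by linarith
  -- H^8 ≤ √N
  have hq4 : ((N : ℝ) ^ ((1 : ℝ) / 4)) ^ 2 = Real.sqrt N := by
    rw [Real.sqrt_eq_rpow, ← Real.rpow_natCast, ← Real.rpow_mul (by linarith)]
    norm_num
  have hq40 : 0 < (N : ℝ) ^ ((1 : ℝ) / 4) := Real.rpow_pos_of_pos (by linarith) _
  have hH8 : (H : ℝ) ^ 8 ≤ Real.sqrt N := by
    calc (H : ℝ) ^ 8 = ((H : ℝ) ^ 4) ^ 2 := by ring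
      _ ≤ ((N : ℝ) ^ ((1 : ℝ) / 4)) ^ 2 := by gcongr
      _ = _ := hq4
  have hLH' : L ≤ H / 1000 := by linarith
  -- lower bounds for s
  have hsA : 10 ^ 6 * Real.sqrt N ≤ s * (H / 1000) := hs1.le.trans (by gcongr)
  have hsB : 10 ^ 9 * Real.sqrt N ≤ s * H := by linarith
  have hsC : (H : ℝ) ^ 7 ≤ s := by
    have h1 : 10 ^ 9 * (H : ℝ) ^ 8 ≤ s * H := le_trans (by gcongr) hsB
    have h2 : (10 ^ 9 * (H : ℝ) ^ 7) * H ≤ s * H := by
      calc (10 ^ 9 * (H : ℝ) ^ 7) * H = 10 ^ 9 * (H : ℝ) ^ 8 := by ring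
        _ ≤ _ := h1
    have h3 : 10 ^ 9 * (H : ℝ) ^ 7 ≤ s := le_of_mul_le_mul_right h2 hH0
    have : 0 ≤ (H : ℝ) ^ 7 := by positivity
    linarith
  set q : ℝ := 1 + L / 10 ^ 5 with hq
  have hq1 : 1 ≤ q := by rw [hq]; have : 0 ≤ L / 10 ^ 5 := by positivity
                         linarith
  have hq800 : 800 * q ≤ H := by rw [hq]; linarith
  have hqH : q ≤ H := by linarith
  have h5 : 5 * Ms ≤ q * s := by
    have h1 : L / 10 ^ 5 * s ≤ q * s := by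
      apply mul_le_mul_of_nonneg_right _ hs0.le
      rw [hq]; linarith
    have h2 : 10 * Real.sqrt N ≤ L / 10 ^ 5 * s := by
      have : 10 ^ 6 * Real.sqrt N ≤ s * L := hs1.le
      linarith
    linarith
  have h300 : 300 * (2 * (H : ℝ) + 8) ≤ s := by
    refine le_trans ?_ hsC
    have : (10 ^ 20 : ℝ) * H ≤ (H : ℝ) ^ 7 := by
      calc (10 ^ 20 : ℝ) * H ≤ H * H := by gcongr
        _ = (H : ℝ) ^ 2 * 1 := by ring
        _ ≤ (H : ℝ) ^ 2 * (H : ℝ) ^ 5 := by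
          gcongr
          exact one_le_pow₀ (by linarith)
        _ = _ := by ring
    nlinarith
  have hH20' : 20 ≤ H := by
    have : (20 : ℝ) ≤ H := by linarith
    exact_mod_cast this
  obtain ⟨Ls, cl, μ, hLs, hLsc, hLsp⟩ := hCLS K H N b Ω q s hGS hcard hN1 hH20' hNH hq1 rfl h300 h5 hK
  have hMs2N : Ms ≤ 2 * N := by nlinarith
  have hsN : (N : ℝ) / H ≤ s ^ 2 := by
    rw [div_le_iff₀ hH0]
    have h1 : (10 ^ 6 * Real.sqrt N) ^ 2 ≤ (s * L) ^ 2 := by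
      apply pow_le_pow_left₀ (by positivity) hs1.le
    have h2 : 10 ^ 12 * (N : ℝ) ≤ s ^ 2 * L ^ 2 := by
      calc 10 ^ 12 * (N : ℝ) = (10 ^ 6 * Real.sqrt N) ^ 2 := by
            have e2 : Real.sqrt N ^ 2 = N := Real.sq_sqrt (by linarith)
            rw [mul_pow, e2]; norm_num
        _ ≤ _ := h1
        _ = _ := by ring
    have h3 : s ^ 2 * L ^ 2 ≤ s ^ 2 * H := by gcongr
    linarith
  -- the classes
  have key : ∀ c : ℕ, ∃ (Nn : ℕ → ℕ → Finset ℕ) (Los : Finset ℕ), c ∈ Ls.image cl →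
      Los ⊆ Ls.filter (fun a => cl a = c) ∧
      (Los.card : ℝ) ≤ (Ls.filter (fun a => cl a = c)).card / 400 ∧
      (∀ a ∈ Ls.filter (fun a => cl a = c), ∀ i0 i1, i0 ≤ i1 → Nn a i1 ⊆ Nn a i0 ∧ Nn a i0 ⊆ Ω ∧
        ∀ ω ∈ Nn a i0, 2 ^ a ≤ 4 * ω ∧ ω ≤ 2 ^ (a + 2)) ∧
      (∀ a ∈ Ls.filter (fun a => cl a = c), a ∉ Los → ∀ i0 abot : ℕ, abot ≤ a →
        ((Ls.filter (fun a => cl a = c)).filter (fun a' => abot ≤ a' ∧ a' < a)).card + 2 ≤ 2 ^ i0 →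
        ∀ (C : ℕ → ℝ) (o : ℝ), 0 ≤ o →
        (∀ ω ∈ Ω, |C ω| ≤ 1) → (∀ ω ∈ Ω, ∀ ω' ∈ Ω, |(ω : ℤ) - ω'| ≤ 2 ^ (abot - 4 * H) →
          |C ω - C ω'| ≤ o) →
        |∑ ω ∈ Nn a i0, b ω * C ω| ≤ Ph b Ω a / 100 + o * Bm b Ω a) ∧
      ∀ x : ℕ, (H : ℝ) ^ 200 ≤ 2 ^ x → ((2 : ℝ) ^ x) ^ 100 ≤ 2 ^ H →
        1 / 2 ^ x < μ c ∧ ∃ Un ⊆ Ls.filter (fun a => cl a = c),
          (Un.card : ℝ) ≤ (Ls.filter (fun a => cl a = c)).card / 400 ∧
          ∀ a ∈ Ls.filter (fun a => cl a = c), a ∉ Un → ∃ D ⊆ Oct Ω a \ Nn a x, D.card ≤ 2 ^ (4 * x) ∧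
            ∑ ω ∈ (Oct Ω a \ Nn a x).filter (fun ω : ℕ => ¬ Spn 1 D (ω : ℤ)), |b ω| ≤
              Ph b Ω a / 100 := by
    intro c
    by_cases hc : c ∈ Ls.image cl
    · obtain ⟨a0, ha0, rfl⟩ := mem_image.mp hc
      have hp0 := hLsp a0 ha0
      obtain ⟨Nn, Los, h1, h2, h3, h4, h5'⟩ := hFAM K H N b Ω (Ls.filter (fun a => cl a = cl a0)) q
        (μ (cl a0)) Ms s hGS hcard hN1 hH20 hNH hq1 hqH le_rfl hMs2N hMs0
        ⟨a0, mem_filter.mpr ⟨ha0, rfl⟩⟩ ((card_le_card (filter_subset _ _)).trans hLsc)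
        (by
          intro a ha a' ha' hlt
          obtain ⟨haL, hac⟩ := mem_filter.mp ha
          obtain ⟨haL', hac'⟩ := mem_filter.mp ha'
          exact (hLsp a haL).2.2.2.2.2.2.1 a' haL' (by rw [hac', hac]) hlt)
        (by
          intro a ha
          obtain ⟨haL, hac⟩ := mem_filter.mp ha
          have hp := hLsp a haL
          rw [hac] at hp
          exact ⟨hp.1, hp.2.1, hp.2.2.2.1, hp.2.2.2.2.1, hp.2.2.2.2.2.1⟩)
        hp0.2.2.1 hs0 hsN hp0.2.2.2.2.2.2.2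
      exact ⟨Nn, Los, fun _ => ⟨h1, h2, h3, h4, h5'⟩⟩
    · exact ⟨fun _ _ => ∅, ∅, fun h => absurd h hc⟩
  choose NN Los hkey using key
  -- pigeonhole
  have hcl : ∀ a ∈ Ls, cl a ∈ Ls.image cl := fun a ha => mem_image_of_mem _ ha
  have hmem : ∀ a ∈ Ls, a ∈ Ls.filter (fun a' => cl a' = cl a) := fun a ha => mem_filter.mpr ⟨ha, rfl⟩
  have hxmono : ∀ k : ℕ, 10 ^ k * x0 ≤ 10 ^ (k + 1) * x0 := by
    intro k
    exact Nat.mul_le_mul_right _ (Nat.pow_le_pow_right (by norm_num) (Nat.le_succ k))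
  obtain ⟨k, hkK, Int, hInt0, hEi, hPG⟩ := hPGN b Ω Ls (fun a => NN (cl a) a) (fun k => 10 ^ k * x0) K0
    hK01 hxmono hpos (fun a ha i j hij => ((hkey (cl a) (hcl a ha)).2.2.1 a (hmem a ha) i j hij).1)
  set x : ℕ := 10 ^ k * x0 with hx
  have hx1 : 10 ^ (k + 1) * x0 = 10 * x := by rw [hx]; ring
  rw [hx1] at hEi hPG
  -- numbers for x
  have hx0x : x0 ≤ x := by
    rw [hx]
    exact Nat.le_mul_of_pos_left _ (by positivity)
  have hHx : (H : ℝ) ^ 200 ≤ 2 ^ x := by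
    refine hHx0.trans ?_
    exact pow_le_pow_right₀ (by norm_num) hx0x
  have hDx : ((2 : ℝ) ^ x) ^ 100 ≤ 2 ^ H := hDk k hkK.le
  have hx_pos : 1 ≤ x := by
    by_contra h
    have : x = 0 := by omega
    rw [this] at hHx
    have : (1 : ℝ) < (H : ℝ) ^ 200 := one_lt_pow₀ (by linarith) (by norm_num)
    simp at hHx
    linarith
  have hx80 : 80 * x ≤ Nat.log 2 N := by
    have h1 : 10 ^ (k + 1) ≤ 10 ^ K0 := Nat.pow_le_pow_right (by norm_num) (by omega)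
    have h2 : 10 * x ≤ 10 ^ K0 * x0 := by
      rw [← hx1]
      exact Nat.mul_le_mul_right _ h1
    omega
  have h2x : ((2 : ℝ) ^ (9 * x)) ^ 4 ≤ N := by
    rw [← pow_mul]
    have h1 : 2 ^ (9 * x * 4) ≤ N := by
      refine (Nat.pow_le_pow_right (by norm_num) ?_).trans (Nat.pow_log_le_self 2 (by omega))
      omega
    exact_mod_cast h1
  have h2x' : (2 : ℝ) ^ (9 * x) ≤ (N : ℝ) ^ ((1 : ℝ) / 4) := by
    have h1 : ((2 : ℝ) ^ (9 * x)) = (((2 : ℝ) ^ (9 * x)) ^ 4) ^ ((1 : ℝ) / 4) := by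
      generalize hy : (2 : ℝ) ^ (9 * x) = y
      have hy0 : 0 ≤ y := by rw [← hy]; positivity
      rw [← Real.rpow_natCast, ← Real.rpow_mul hy0]
      norm_num
    rw [h1]
    exact Real.rpow_le_rpow (by positivity) h2x (by norm_num)
  -- the unstructured levels for x
  have keyU : ∀ c : ℕ, ∃ Un : Finset ℕ, c ∈ Ls.image cl →
      1 / 2 ^ x < μ c ∧ Un ⊆ Ls.filter (fun a => cl a = c) ∧
        (Un.card : ℝ) ≤ (Ls.filter (fun a => cl a = c)).card / 400 ∧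
        ∀ a ∈ Ls.filter (fun a => cl a = c), a ∉ Un → ∃ D ⊆ Oct Ω a \ NN c a x,
          D.card ≤ 2 ^ (4 * x) ∧
          ∑ ω ∈ (Oct Ω a \ NN c a x).filter (fun ω : ℕ => ¬ Spn 1 D (ω : ℤ)), |b ω| ≤
            Ph b Ω a / 100 := by
    intro c
    by_cases hc : c ∈ Ls.image cl
    · obtain ⟨h1, Un, h2, h3, h4⟩ := (hkey c hc).2.2.2.2 x hHx hDx
      exact ⟨Un, fun _ => ⟨h1, h2, h3, h4⟩⟩
    · exact ⟨∅, fun h => absurd h hc⟩
  choose Un hU using keyU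
  set Sg : Finset ℕ := Ls.filter (fun a => a ∉ Los (cl a) ∧ a ∉ Un (cl a)) with hSg
  have hSgL : Sg ⊆ Ls := filter_subset _ _
  have keyD : ∀ a : ℕ, ∃ D : Finset ℕ, a ∈ Sg → D ⊆ Oct Ω a \ NN (cl a) a x ∧ D.card ≤ 2 ^ (4 * x) ∧
      ∑ ω ∈ (Oct Ω a \ NN (cl a) a x).filter (fun ω : ℕ => ¬ Spn 1 D (ω : ℤ)), |b ω| ≤
        Ph b Ω a / 100 := by
    intro a
    by_cases ha : a ∈ Sg
    · have haL := hSgL ha
      obtain ⟨D, h1, h2, h3⟩ := (hU (cl a) (hcl a haL)).2.2.2 a (hmem a haL) (mem_filter.mp ha).2.2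
      exact ⟨D, fun _ => ⟨h1, h2, h3⟩⟩
    · exact ⟨∅, fun h => absurd h ha⟩
  choose Dm hDm using keyD
  -- near and far
  set Fi : ℕ → Finset ℕ := fun a => NN (cl a) a (9 * x + 1) with hFi
  set near : ℕ → ℝ := fun a => ms b ((Oct Ω a ∩ NN (cl a) a x) \ NN (cl a) a (9 * x + 1)) with hnear
  have hnear0 : ∀ a, 0 ≤ near a := fun a => sum_nonneg (fun _ _ => abs_nonneg _)
  have hmono : ∀ a ∈ Ls, ∀ i j, i ≤ j → NN (cl a) a j ⊆ NN (cl a) a i :=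
    fun a ha i j hij => ((hkey (cl a) (hcl a ha)).2.2.1 a (hmem a ha) i j hij).1
  have hnear1 : ∀ a ∈ Ls, near a ≤ ms b ((Oct Ω a ∩ NN (cl a) a x) \ NN (cl a) a (10 * x)) := by
    intro a ha
    unfold ms
    apply sum_le_sum_of_subset_of_nonneg
    · apply sdiff_subset_sdiff (subset_refl _)
      exact hmono a ha _ _ (by omega)
    · intro _ _ _; exact abs_nonneg _
  have hnearsum : ∑ a ∈ Sg, near a ≤ ∑ a ∈ Ls, ms b ((Oct Ω a ∩ NN (cl a) a x) \ NN (cl a) a (10 * x)) := by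
    calc ∑ a ∈ Sg, near a ≤ ∑ a ∈ Ls, near a :=
          sum_le_sum_of_subset_of_nonneg hSgL (fun a _ _ => hnear0 a)
      _ ≤ _ := sum_le_sum (fun a ha => hnear1 a ha)
  -- the exceptional levels carry little
  have hexc : ∑ a ∈ Ls \ Sg, Ph b Ω a ≤ (∑ a ∈ Ls, Ph b Ω a) / 100 := by
    have e1 : ∑ a ∈ Ls \ Sg, Ph b Ω a = ∑ c ∈ Ls.image cl, ∑ a ∈ (Ls \ Sg) with cl a = c, Ph b Ω a :=
      (sum_fiberwise_of_maps_to (fun a ha => hcl a (mem_sdiff.mp ha).1) _).symm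
    have e2 : ∑ a ∈ Ls, Ph b Ω a = ∑ c ∈ Ls.image cl, ∑ a ∈ Ls with cl a = c, Ph b Ω a :=
      (sum_fiberwise_of_maps_to (fun a ha => hcl a ha) _).symm
    rw [e1, e2, sum_div]
    apply sum_le_sum
    intro c hc
    obtain ⟨a0, ha0, hac0⟩ := mem_image.mp hc
    have hμ0 : 0 < μ c := by rw [← hac0]; exact (hLsp a0 ha0).2.2.1
    have hcardc : ((Ls \ Sg).filter (fun a => cl a = c)).card ≤ (Los c).card + (Un c).card := by
      refine le_trans (card_le_card ?_) (card_union_le _ _)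
      intro a ha
      obtain ⟨ha1, ha2⟩ := mem_filter.mp ha
      obtain ⟨ha3, ha4⟩ := mem_sdiff.mp ha1
      rw [mem_union]
      by_contra hno
      push Not at hno
      apply ha4
      rw [hSg, mem_filter, ha2]
      exact ⟨ha3, hno⟩
    have h1 : (((Ls \ Sg).filter (fun a => cl a = c)).card : ℝ) ≤
        (Ls.filter (fun a => cl a = c)).card / 200 := by
      have h2 : (((Ls \ Sg).filter (fun a => cl a = c)).card : ℝ) ≤ (Los c).card + (Un c).card := by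
        exact_mod_cast hcardc
      have h3 := (hkey c hc).2.1
      have h4 := (hU c hc).2.2.1
      linarith
    have h5 : ∑ a ∈ (Ls \ Sg) with cl a = c, Ph b Ω a ≤
        ((Ls \ Sg).filter (fun a => cl a = c)).card * (2 * μ c) := by
      rw [← nsmul_eq_mul]
      apply sum_le_card_nsmul
      intro a ha
      obtain ⟨ha1, ha2⟩ := mem_filter.mp ha
      have := (hLsp a (mem_sdiff.mp ha1).1).2.2.2.2.1
      rw [ha2] at this
      exact this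
    have h6 : (Ls.filter (fun a => cl a = c)).card * μ c ≤ ∑ a ∈ Ls with cl a = c, Ph b Ω a := by
      rw [← nsmul_eq_mul]
      apply card_nsmul_le_sum
      intro a ha
      obtain ⟨ha1, ha2⟩ := mem_filter.mp ha
      have := (hLsp a ha1).2.2.2.1
      rw [ha2] at this
      exact this.le
    calc ∑ a ∈ (Ls \ Sg) with cl a = c, Ph b Ω a ≤
        ((Ls \ Sg).filter (fun a => cl a = c)).card * (2 * μ c) := h5
      _ ≤ ((Ls.filter (fun a => cl a = c)).card / 200) * (2 * μ c) := by gcongr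
      _ = ((Ls.filter (fun a => cl a = c)).card * μ c) / 100 := by ring
      _ ≤ _ := by gcongr
  -- apply STR
  refine hSTR K H N x b Ω Ls Sg q Ms Dm Fi near Int hGS hH20 hHx hDx hNH hN1 hq1 hq800 le_rfl hMs2N
    hSgL ?_ hnear0 ?_ hEi ?_
  · intro a ha
    have hp := hLsp a ha
    exact ⟨hp.1, hp.2.1, ((hU (cl a) (hcl a ha)).1).trans hp.2.2.2.1, hp.2.2.2.2.2.1⟩
  · intro a ha
    have haL := hSgL ha
    have hk := hkey (cl a) (hcl a haL)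
    have hD := hDm a ha
    have hsub : Fi a ⊆ NN (cl a) a x := hmono a haL _ _ (by omega)
    refine ⟨(hk.2.2.1 a (hmem a haL) (9 * x + 1) (9 * x + 1) le_rfl).2.1,
      (hk.2.2.1 a (hmem a haL) (9 * x + 1) (9 * x + 1) le_rfl).2.2, ?_, hD.2.1, ?_, ?_⟩
    · exact hD.1.trans (sdiff_subset_sdiff (subset_refl _) hsub)
    · have h1 : (Oct Ω a \ Fi a).filter (fun ω : ℕ => ¬ Spn 1 (Dm a) (ω : ℤ)) ⊆
          (Oct Ω a \ NN (cl a) a x).filter (fun ω : ℕ => ¬ Spn 1 (Dm a) (ω : ℤ)) ∪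
            ((Oct Ω a ∩ NN (cl a) a x) \ NN (cl a) a (9 * x + 1)) := by
        intro ω hω
        obtain ⟨h2, h3⟩ := mem_filter.mp hω
        obtain ⟨h4, h5⟩ := mem_sdiff.mp h2
        by_cases h6 : ω ∈ NN (cl a) a x
        · exact mem_union_right _ (mem_sdiff.mpr ⟨mem_inter.mpr ⟨h4, h6⟩, h5⟩)
        · exact mem_union_left _ (mem_filter.mpr ⟨mem_sdiff.mpr ⟨h4, h6⟩, h3⟩)
      calc ∑ ω ∈ (Oct Ω a \ Fi a).filter (fun ω : ℕ => ¬ Spn 1 (Dm a) (ω : ℤ)), |b ω|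
          ≤ ∑ ω ∈ (Oct Ω a \ NN (cl a) a x).filter (fun ω : ℕ => ¬ Spn 1 (Dm a) (ω : ℤ)) ∪
            ((Oct Ω a ∩ NN (cl a) a x) \ NN (cl a) a (9 * x + 1)), |b ω| :=
            sum_le_sum_of_subset_of_nonneg h1 (fun _ _ _ => abs_nonneg _)
        _ ≤ ∑ ω ∈ (Oct Ω a \ NN (cl a) a x).filter (fun ω : ℕ => ¬ Spn 1 (Dm a) (ω : ℤ)), |b ω| +
            ∑ ω ∈ ((Oct Ω a ∩ NN (cl a) a x) \ NN (cl a) a (9 * x + 1)), |b ω| := by
            have := sum_union_inter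
              (s₁ := (Oct Ω a \ NN (cl a) a x).filter (fun ω : ℕ => ¬ Spn 1 (Dm a) (ω : ℤ)))
              (s₂ := ((Oct Ω a ∩ NN (cl a) a x) \ NN (cl a) a (9 * x + 1))) (f := fun ω => |b ω|)
            have h7 : 0 ≤ ∑ ω ∈ ((Oct Ω a \ NN (cl a) a x).filter (fun ω : ℕ => ¬ Spn 1 (Dm a) (ω : ℤ)))
                ∩ ((Oct Ω a ∩ NN (cl a) a x) \ NN (cl a) a (9 * x + 1)), |b ω| :=
              sum_nonneg (fun _ _ => abs_nonneg _)
            linarith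
        _ ≤ Ph b Ω a / 100 + near a := add_le_add hD.2.2 le_rfl
    · intro abot habot hcardb C o ho hC1 hC2
      refine hk.2.2.2.1 a (hmem a haL) (mem_filter.mp ha).2.1 (9 * x + 1) abot habot ?_ C o ho hC1 hC2
      refine le_trans ?_ hcardb
      have : ((Ls.filter (fun a' => cl a' = cl a)).filter (fun a' => abot ≤ a' ∧ a' < a)).card ≤
          (Ls.filter (fun a' => abot ≤ a' ∧ a' < a)).card := by
        apply card_le_card
        apply filter_subset_filter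
        exact filter_subset _ _
      omega
  · -- the numerical inequality
    set S : ℝ := ∑ a ∈ Ls, Ph b Ω a with hS
    have hK0 : (0 : ℝ) < K0 := by exact_mod_cast hK01
    have hA : ∑ a ∈ Sg, near a + Int ≤ 3 * Ms / K0 := by linarith
    have hB : 3 * Ms / K0 ≤ 84.858 * Real.sqrt N / L := by
      rw [div_le_div_iff₀ hK0 hL0]
      have h1 : 3 * Ms * L ≤ 3 * (1.4143 * Real.sqrt N) * (20 * K0) := by gcongr
      nlinarith
    have hC : 84.858 * Real.sqrt N / L ≤ 84.858 * (s / 10 ^ 6) := by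
      rw [div_le_iff₀ hL0]
      nlinarith
    have hns0 : 0 ≤ ∑ a ∈ Sg, near a := sum_nonneg (fun a _ => hnear0 a)
    -- 3 * 2^(9x)
    have hLq : L ≤ (N : ℝ) ^ ((1 : ℝ) / 4) := by
      refine le_trans ?_ hH4
      have : (H : ℝ) ≤ (H : ℝ) ^ 4 := by
        calc (H : ℝ) = (H : ℝ) ^ 1 := by ring
          _ ≤ (H : ℝ) ^ 4 := pow_le_pow_right₀ (by linarith) (by norm_num)
      linarith
    have hE : 10 ^ 6 * (N : ℝ) ^ ((1 : ℝ) / 4) ≤ s := by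
      have h1 : 10 ^ 6 * ((N : ℝ) ^ ((1 : ℝ) / 4)) ^ 2 ≤ s * (N : ℝ) ^ ((1 : ℝ) / 4) := by
        rw [hq4]
        exact hs1.le.trans (by gcongr)
      have h2 : (10 ^ 6 * (N : ℝ) ^ ((1 : ℝ) / 4)) * (N : ℝ) ^ ((1 : ℝ) / 4) ≤
          s * (N : ℝ) ^ ((1 : ℝ) / 4) := by
        calc _ = 10 ^ 6 * ((N : ℝ) ^ ((1 : ℝ) / 4)) ^ 2 := by ring
          _ ≤ _ := h1
      exact le_of_mul_le_mul_right h2 hq40
    have hFx : 3 * (2 : ℝ) ^ (9 * x) ≤ s / 1000 := by linarith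
    have hGx : 6 * Ms / 2 ^ x ≤ s / 1000 := by
      have h1 : (H : ℝ) ≤ 2 ^ x := by
        refine le_trans ?_ hHx
        calc (H : ℝ) = (H : ℝ) ^ 1 := by ring
          _ ≤ (H : ℝ) ^ 200 := pow_le_pow_right₀ (by linarith) (by norm_num)
      have h2x0 : (0 : ℝ) < 2 ^ x := by positivity
      rw [div_le_iff₀ h2x0]
      have h3 : s / 1000 * H ≤ s / 1000 * 2 ^ x := by gcongr
      nlinarith
    have hS2 : s / 2 ≤ S := hLs
    linarith

end Pool.Agent.Helper56.OS
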