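import Pool.Agent.Helper56.OS.StA

/-! Project OS, module TWO: two-sided comparison of `E (R_n Y)` and `E (R_a B Y)`. -/

set_option autoImplicit false
set_option linter.unusedSectionVars false

open Finset

namespace Pool.Agent.Helper56.OS

open Pool.Agent.Helper56.SS (Fil Dat Hyp E S_NEG E_mono E_sub E_add E_mul_left E_abs_le E_nonneg)

/-- the pointwise inequality -/
private theorem pt_TWO (r S y Ym ep s : ℝ) (hr : 0 < r) (hS : 0 < S) (hy : |y| ≤ Ym)
    (he0 : 0 < ep) (he : ep ≤ 1 / 4) (hs : 2 ≤ s) :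
    |r * S * y - r * y| ≤ 2 * ep * (r * S * |y|) +
      Ym * ((1 - ep) ^ s * (r * S ^ (-s))) + Ym * ((1 + ep) ^ (-(s - 1)) * (r * S ^ s)) := by
  have hY : 0 ≤ Ym := (abs_nonneg y).trans hy
  have hep : 0 < 1 - ep := by linarith
  have hep' : 0 < 1 + ep := by linarith
  have hn : 0 < (1 - ep) ^ s := Real.rpow_pos_of_pos hep _
  have hp : 0 < (1 + ep) ^ (-(s - 1)) := Real.rpow_pos_of_pos hep' _
  have hSn : 0 < S ^ (-s) := Real.rpow_pos_of_pos hS _
  have hSp : 0 < S ^ s := Real.rpow_pos_of_pos hS _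
  have t1 : 0 ≤ 2 * ep * (r * S * |y|) := by positivity
  have t2 : 0 ≤ Ym * ((1 - ep) ^ s * (r * S ^ (-s))) := by positivity
  have t3 : 0 ≤ Ym * ((1 + ep) ^ (-(s - 1)) * (r * S ^ s)) := by positivity
  have e0 : |r * S * y - r * y| = r * |S - 1| * |y| := by
    rw [show r * S * y - r * y = r * (S - 1) * y by ring, abs_mul, abs_mul, abs_of_pos hr]
  rw [e0]
  have hay := abs_nonneg y
  by_cases c1 : S < 1 - ep
  · -- small
    have b0 : |S - 1| ≤ 1 := by
      rw [abs_le]; constructor <;> linarith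
    have b1 : 1 ≤ (1 - ep) ^ s * S ^ (-s) := by
      rw [Real.rpow_neg hS.le, ← div_eq_mul_inv, le_div_iff₀ (Real.rpow_pos_of_pos hS _), one_mul]
      exact Real.rpow_le_rpow hS.le c1.le (by linarith)
    have b2 : r * |S - 1| * |y| ≤ r * 1 * Ym := by
      apply mul_le_mul _ hy hay (by positivity)
      exact mul_le_mul_of_nonneg_left b0 hr.le
    have b3 : r * 1 * Ym ≤ Ym * ((1 - ep) ^ s * (r * S ^ (-s))) := by
      have : r * Ym * 1 ≤ r * Ym * ((1 - ep) ^ s * S ^ (-s)) :=
        mul_le_mul_of_nonneg_left b1 (by positivity)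
      calc r * 1 * Ym = r * Ym * 1 := by ring
        _ ≤ _ := this
        _ = _ := by ring
    linarith
  · by_cases c2 : 1 + ep < S
    · have b0 : |S - 1| ≤ S := by
        rw [abs_le]; constructor <;> linarith
      have b1 : 1 ≤ (1 + ep) ^ (-(s - 1)) * S ^ (s - 1) := by
        rw [Real.rpow_neg hep'.le, mul_comm, ← div_eq_mul_inv,
          le_div_iff₀ (Real.rpow_pos_of_pos hep' _), one_mul]
        exact Real.rpow_le_rpow hep'.le c2.le (by linarith)
      have b2 : r * |S - 1| * |y| ≤ r * S * Ym := by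
        apply mul_le_mul _ hy hay (by positivity)
        exact mul_le_mul_of_nonneg_left b0 hr.le
      have b4 : S ^ s = S * S ^ (s - 1) := by
        rw [Real.rpow_sub_one hS.ne']
        field_simp
      have b3 : r * S * Ym ≤ Ym * ((1 + ep) ^ (-(s - 1)) * (r * S ^ s)) := by
        have : r * S * Ym * 1 ≤ r * S * Ym * ((1 + ep) ^ (-(s - 1)) * S ^ (s - 1)) :=
          mul_le_mul_of_nonneg_left b1 (by positivity)
        calc r * S * Ym = r * S * Ym * 1 := by ring
          _ ≤ _ := this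
          _ = Ym * ((1 + ep) ^ (-(s - 1)) * (r * (S * S ^ (s - 1)))) := by ring
          _ = _ := by rw [← b4]
      linarith
    · -- middle
      have c3 : 1 - ep ≤ S := not_lt.mp c1
      have c4 : S ≤ 1 + ep := not_lt.mp c2
      have b0 : |S - 1| ≤ 2 * ep * S := by
        rw [abs_le]; constructor <;> nlinarith
      have b2 : r * |S - 1| * |y| ≤ r * (2 * ep * S) * |y| := by
        apply mul_le_mul_of_nonneg_right _ hay
        exact mul_le_mul_of_nonneg_left b0 hr.le
      have b3 : r * (2 * ep * S) * |y| = 2 * ep * (r * S * |y|) := by ring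
      linarith

theorem p_TWO : S_TWO := by
  intro hNEG hPOS Ω _ _ d h t s ep om ht hs hlk he0 he a n han hom Y Ym hY
  have hY0 : 0 ≤ Ym := by
    obtain ⟨w⟩ := (inferInstance : Nonempty Ω)
    exact (abs_nonneg _).trans (hY w)
  have hs1 : 1 ≤ s := by linarith
  have h3 := hNEG Ω d h t s ht hs1 hlk a n han
  have h3' := hPOS Ω d h t s ht hs1 hlk a n han
  have key : ∀ w, |d.R n w * Y w - d.R a w * d.Bb t a n w * Y w| ≤
      (2 * ep * (d.R n w * |Y w|) +
      Ym * ((1 - ep) ^ s * (d.R a w * d.Bb t a n w * d.Ss t a n w ^ (-s)))) +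
      Ym * ((1 + ep) ^ (-(s - 1)) * (d.R a w * d.Bb t a n w * d.Ss t a n w ^ s)) := by
    intro w
    rw [h.R_split t han w]
    exact pt_TWO _ _ _ _ _ _ (mul_pos (h.R_pos a w) (h.Bb_pos t a n w)) (h.Ss_pos t a n w)
      (hY w) he0 he hs
  have h1 := E_mono key
  rw [← E_sub]
  refine (E_abs_le _).trans (h1.trans ?_)
  rw [E_add, E_add, E_mul_left, E_mul_left, E_mul_left, E_mul_left, E_mul_left]
  set QV : ℝ := 5 * s ^ 2 * (d.cnt a n * (d.lam ^ 2 * t ^ 2)) with hQV
  have hep : 0 < 1 - ep := by linarith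
  have hep' : 0 < 1 + ep := by linarith
  have hsep : 0 ≤ s * ep := by positivity
  -- negative part
  have h4 : (1 - ep) ^ s ≤ Real.exp (-(s * ep / 4)) := by
    have c1 : 1 - ep ≤ Real.exp (-ep) := by
      have := Real.add_one_le_exp (-ep)
      linarith
    have c2 : (1 - ep) ^ s ≤ (Real.exp (-ep)) ^ s :=
      Real.rpow_le_rpow hep.le c1 (by linarith)
    rw [← Real.exp_mul] at c2
    refine c2.trans (Real.exp_le_exp.2 ?_)
    linarith
  have h5 : (1 + ep) ^ (-(s - 1)) ≤ Real.exp (-(s * ep / 4)) := by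
    rw [Real.rpow_def_of_pos hep']
    apply Real.exp_le_exp.2
    have c1 : ep / 2 ≤ Real.log (1 + ep) := by
      have c2 := Real.one_sub_inv_le_log_of_pos hep'
      have c3 : ep / 2 ≤ 1 - (1 + ep)⁻¹ := by
        have c4 : (1 + ep)⁻¹ ≤ 1 - ep / 2 := by
          rw [inv_le_iff_one_le_mul₀ hep']
          nlinarith
        linarith
      linarith
    have c5 : s / 2 ≤ s - 1 := by linarith
    have c6 : ep / 2 * (s / 2) ≤ Real.log (1 + ep) * (s - 1) :=
      mul_le_mul c1 c5 (by linarith) (by linarith)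
    nlinarith
  have g0 : 0 ≤ E (fun w => d.R a w * d.Bb t a n w * d.Ss t a n w ^ (-s)) := by
    apply E_nonneg
    intro w
    have e1 := h.R_pos a w
    have e2 := h.Bb_pos t a n w
    have e3 := Real.rpow_pos_of_pos (h.Ss_pos t a n w) (-s)
    positivity
  have g1 : 0 ≤ E (fun w => d.R a w * d.Bb t a n w * d.Ss t a n w ^ s) := by
    apply E_nonneg
    intro w
    have e1 := h.R_pos a w
    have e2 := h.Bb_pos t a n w
    have e3 := Real.rpow_pos_of_pos (h.Ss_pos t a n w) s
    positivity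
  have h6 : (1 - ep) ^ s * E (fun w => d.R a w * d.Bb t a n w * d.Ss t a n w ^ (-s)) ≤ om := by
    refine le_trans ?_ hom
    rw [Real.exp_add]
    exact mul_le_mul h4 h3 g0 (Real.exp_pos _).le
  have h7 : (1 + ep) ^ (-(s - 1)) * E (fun w => d.R a w * d.Bb t a n w * d.Ss t a n w ^ s) ≤
      om := by
    refine le_trans ?_ hom
    rw [Real.exp_add]
    exact mul_le_mul h5 h3' g1 (Real.exp_pos _).le
  have h8 := mul_le_mul_of_nonneg_left h6 hY0
  have h9 := mul_le_mul_of_nonneg_left h7 hY0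
  have hom0 : 0 < om := (Real.exp_pos _).trans_le hom
  have h10 : 0 ≤ om * Ym := by positivity
  linarith

end Pool.Agent.Helper56.OS
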