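import Pool.Agent.Helper56.OS.StD

/-! Project OS, module UNS: few unstructured levels. -/

set_option autoImplicit false

open Finset

namespace Pool.Agent.Helper56.OS

open Pool.Agent.Helper57.SN (co si SS dd th Spn stm av BC blk Lv IsFil)

/-- numbers for the cut-off threshold -/
private theorem num_UNS (H x : ℕ) (q : ℝ) (hH : (10 : ℝ) ^ 20 ≤ H) (hD : (H : ℝ) ^ 200 ≤ 2 ^ x)
    (hDH : ((2 : ℝ) ^ x) ^ 100 ≤ 2 ^ H) (hq1 : 1 ≤ q) (hqH : q ≤ H) :
    0 < tk H x 0 / 2 ∧ 52 * (12 * q) / 2 ^ H ≤ tk H x 0 / 2 ∧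
    (∀ μ : ℝ, 0 ≤ μ → μ ≤ 1 / 2 ^ x → 8 * q * μ ≤ tk H x 0 / 2) ∧
    1 ≤ H ^ 122 * 2 ^ x ∧ H ^ 122 * 2 ^ x ≤ 2 ^ H ∧
    160 * (12 * q) ^ 2 ≤ ((H ^ 122 * 2 ^ x : ℕ) : ℝ) * (tk H x 0 / 2) ^ 2 ∧
    2 ^ (2 * H) * (3 * Real.exp (-((tk H x 0 / 2) ^ 2 * ((H ^ 122 * 2 ^ x : ℕ) : ℝ) /
      (32 * (12 * q) ^ 2)))) ≤ Real.exp (-((H : ℝ) ^ 40)) := by
  set y : ℝ := (H : ℝ) with hy
  set D : ℝ := (2 : ℝ) ^ x with hDdef
  have hy0 : 0 < y := by linarith
  have hy1 : 1 ≤ y := by linarith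
  have hD0 : 0 < D := by positivity
  have hs : Real.sqrt (4 * (2 ^ x * 2 ^ 0)) = 2 * Real.sqrt D := by
    rw [pow_zero, mul_one, Real.sqrt_mul (by norm_num)]
    congr 1
    rw [show (4 : ℝ) = 2 ^ 2 by norm_num, Real.sqrt_sq (by norm_num)]
  set r : ℝ := Real.sqrt D with hr
  have hr0 : 0 < r := Real.sqrt_pos.mpr hD0
  have hr2 : r ^ 2 = D := Real.sq_sqrt hD0.le
  have htk : tk H x 0 / 2 = 1 / (4 * y ^ 39 * r) := by
    unfold tk
    rw [hs, ← hy]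
    field_simp
    norm_num
  have hr100 : y ^ 100 ≤ r := by
    rw [hr]
    apply Real.le_sqrt_of_sq_le
    calc (y ^ 100) ^ 2 = y ^ 200 := by ring
      _ ≤ D := hD
  have hr1 : 1 ≤ r := le_trans (one_le_pow₀ hy1) hr100
  have hκ0 : 0 < tk H x 0 / 2 := by rw [htk]; positivity
  have hpw : ∀ {m n : ℕ}, m ≤ n → y ^ m ≤ y ^ n := fun h => pow_le_pow_right₀ hy1 h
  have hD1 : 1 ≤ D := by rw [← hr2]; exact one_le_pow₀ hr1
  have h2H : D ^ 2 ≤ 2 ^ H := le_trans (pow_le_pow_right₀ hD1 (by norm_num)) hDH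
  -- `y ^ 60 * 10 ^ 20 ≤ r` etc.
  have hbig : 10 ^ 20 * y ^ 41 ≤ r := by
    calc 10 ^ 20 * y ^ 41 ≤ y * y ^ 41 := by gcongr
      _ = y ^ 42 := by ring
      _ ≤ y ^ 100 := hpw (by norm_num)
      _ ≤ r := hr100
  refine ⟨hκ0, ?_, ?_, ?_, ?_, ?_, ?_⟩
  · rw [htk, div_le_div_iff₀ (by positivity) (by positivity), one_mul]
    calc 52 * (12 * q) * (4 * y ^ 39 * r) ≤ 52 * (12 * y) * (4 * y ^ 39 * r) := by gcongr
      _ = 2496 * y ^ 40 * r := by ring
      _ ≤ r * r := by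
        gcongr
        calc 2496 * y ^ 40 ≤ 10 ^ 20 * y ^ 41 := by
              have : y ^ 40 ≤ y ^ 41 := hpw (by norm_num)
              have h0 : 0 < y ^ 40 := by positivity
              nlinarith
          _ ≤ r := hbig
      _ = D := by rw [← hr2]; ring
      _ ≤ D ^ 2 := by nlinarith
      _ ≤ 2 ^ H := h2H
  · intro μ hμ0 hμ
    rw [htk, le_div_iff₀ (by positivity)]
    calc 8 * q * μ * (4 * y ^ 39 * r) ≤ 8 * y * (1 / D) * (4 * y ^ 39 * r) := by gcongr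
      _ = 32 * y ^ 40 * r / D := by ring
      _ ≤ 1 := by
        rw [div_le_one hD0, ← hr2, pow_two]
        gcongr
        calc 32 * y ^ 40 ≤ 10 ^ 20 * y ^ 41 := by
              have : y ^ 40 ≤ y ^ 41 := hpw (by norm_num)
              have h0 : 0 < y ^ 40 := by positivity
              nlinarith
          _ ≤ r := hbig
  · have : 0 < H := by
      have : (0 : ℝ) < H := hy0
      exact_mod_cast this
    exact Nat.mul_pos (by positivity) (by positivity)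
  · have : y ^ 122 * D ≤ 2 ^ H := by
      calc y ^ 122 * D ≤ y ^ 200 * D := by
            have := hpw (m := 122) (n := 200) (by norm_num)
            gcongr
          _ ≤ D * D := by gcongr
          _ = D ^ 2 := by ring
          _ ≤ 2 ^ H := h2H
    have h' : ((H ^ 122 * 2 ^ x : ℕ) : ℝ) ≤ ((2 ^ H : ℕ) : ℝ) := by
      push_cast
      exact this
    exact_mod_cast h'
  · have e : ((H ^ 122 * 2 ^ x : ℕ) : ℝ) * (tk H x 0 / 2) ^ 2 = y ^ 44 / 16 := by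
      rw [htk]
      push_cast
      rw [div_pow, mul_pow, mul_pow, hr2]
      field_simp
      ring
    rw [e]
    have h44 : y ^ 2 * 10 ^ 20 ≤ y ^ 44 := by
      calc y ^ 2 * 10 ^ 20 ≤ y ^ 2 * y := by gcongr
        _ = y ^ 3 := by ring
        _ ≤ y ^ 44 := hpw (by norm_num)
    have hq2 : q ^ 2 ≤ y ^ 2 := by gcongr
    nlinarith
  · have e : (tk H x 0 / 2) ^ 2 * ((H ^ 122 * 2 ^ x : ℕ) : ℝ) = y ^ 44 / 16 := by
      rw [htk]
      push_cast
      rw [div_pow, mul_pow, mul_pow, hr2]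
      field_simp
      ring
    rw [e]
    have h1 : y ^ 41 ≤ y ^ 44 / 16 / (32 * (12 * q) ^ 2) := by
      rw [le_div_iff₀ (by positivity), le_div_iff₀ (by norm_num)]
      calc y ^ 41 * (32 * (12 * q) ^ 2) * 16 = 73728 * (y ^ 41 * q ^ 2) := by ring
        _ ≤ y * (y ^ 41 * y ^ 2) := by gcongr; linarith
        _ = y ^ 44 := by ring
    have h2 : Real.exp (-(y ^ 44 / 16 / (32 * (12 * q) ^ 2))) ≤ Real.exp (-(y ^ 41)) :=
      Real.exp_le_exp.mpr (by linarith)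
    have h3 : (2 : ℝ) ^ (2 * H) ≤ Real.exp (2 * y) := by
      have e2 : (2 : ℝ) ^ (2 * H) = Real.exp (((2 * H : ℕ) : ℝ) * Real.log 2) := by
        rw [Real.exp_nat_mul, Real.exp_log (by norm_num)]
      rw [e2]
      apply Real.exp_le_exp.mpr
      push_cast
      have := Real.log_two_lt_d9
      have h5 : (2 * (H : ℝ)) * Real.log 2 ≤ (2 * (H : ℝ)) * 1 := by
        apply mul_le_mul_of_nonneg_left (by linarith) (by positivity)
      linarith
    have h4 : (3 : ℝ) ≤ Real.exp 2 := by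
      have := Real.add_one_le_exp (2 : ℝ)
      linarith
    calc (2 : ℝ) ^ (2 * H) * (3 * Real.exp (-(y ^ 44 / 16 / (32 * (12 * q) ^ 2))))
        ≤ Real.exp (2 * y) * (Real.exp 2 * Real.exp (-(y ^ 41))) := by gcongr
      _ = Real.exp (2 * y + (2 + -(y ^ 41))) := by rw [← Real.exp_add, ← Real.exp_add]
      _ ≤ Real.exp (-(y ^ 40)) := by
        apply Real.exp_le_exp.mpr
        have h5 : 10 ^ 20 * y ^ 40 ≤ y ^ 41 := by
          calc 10 ^ 20 * y ^ 40 ≤ y * y ^ 40 := by gcongr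
            _ = y ^ 41 := by ring
        have h6 : y ≤ y ^ 40 := by
          calc y = y ^ 1 := by ring
            _ ≤ y ^ 40 := hpw (by norm_num)
        linarith

/-- Cauchy–Schwarz over the disjoint sets `U l` -/
private theorem cs_UNS (K H T N : ℕ) (b : ℕ → ℝ) (Ω : Finset ℕ) (al : ℕ → ℕ) (q μ : ℝ)
    (U : ℕ → Finset ℕ) (σ : ℕ → ℝ) (G : Finset ℕ) (hF : FamS K H T b Ω al q μ)
    (hU : USet T b Ω al U σ G) (hH : 1 ≤ H) (hc : Ω.card ≤ N) :
    (∑ l ∈ G, ms b (U l)) ^ 2 ≤ N * ∑ l ∈ G, ∑ ξ ∈ U l, b ξ ^ 2 := by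
  classical
  have hlt : ∀ l ∈ G, ∀ l' ∈ G, l < l' → Disjoint (U l) (U l') := by
    intro l hl l' hl' hll
    rw [disjoint_left]
    intro ω h1 h2
    have h3 := (mem_filter.mp (hU.sub l hl h1)).2.2
    have h4 := (mem_filter.mp (hU.sub l' hl' h2)).2.1
    have h5 := hF.sep l l' hll (mem_range.mp (hU.GT hl'))
    have h6 : 2 ^ (al l + 2) ≤ 2 ^ (al l') := Nat.pow_le_pow_right (by norm_num) (by omega)
    have h7 : 2 ^ (al l + 2) = 2 * 2 ^ (al l + 1) := by rw [pow_succ]; ring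
    omega
  have hdis : (G : Set ℕ).PairwiseDisjoint U := by
    intro l hl l' hl' hne
    rcases Nat.lt_or_gt_of_ne hne with h | h
    · exact hlt l hl l' hl' h
    · exact (hlt l' hl' l hl h).symm
  unfold ms
  rw [← sum_biUnion hdis, ← sum_biUnion hdis]
  have h1 : (∑ ξ ∈ G.biUnion U, |b ξ|) ^ 2 ≤ (G.biUnion U).card * ∑ ξ ∈ G.biUnion U, |b ξ| ^ 2 :=
    sq_sum_le_card_mul_sum_sq
  have h2 : ∑ ξ ∈ G.biUnion U, |b ξ| ^ 2 = ∑ ξ ∈ G.biUnion U, b ξ ^ 2 :=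
    sum_congr rfl (fun _ _ => sq_abs _)
  rw [h2] at h1
  refine h1.trans ?_
  apply mul_le_mul_of_nonneg_right _ (sum_nonneg (fun _ _ => sq_nonneg _))
  have h3 : G.biUnion U ⊆ Ω := by
    intro ω hω
    obtain ⟨l, hl, h⟩ := mem_biUnion.mp hω
    exact (mem_filter.mp (hU.sub l hl h)).1
  exact_mod_cast (card_le_card h3).trans hc

theorem p_UNS (hEXC : St_EXC) (hZZ : St_ZZ) (hTLT : St_TLT) (hLVU : St_LVU) (_hCCS : S_CCS) :
    St_UNS := by
  classical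
  intro K H T x Kc N I b Ω al q μ Ms s0 y0 U σ G0 hGS hFam hU hms hNT hcN hTI hs0 hsN hkeep hUsub
    hmass halt
  by_contra hcon
  push Not at hcon
  have hHr : (10 : ℝ) ^ 20 ≤ H := hNT.Hbig
  have hH1r : (1 : ℝ) ≤ H := by linarith
  have hH1 : 1 ≤ H := by exact_mod_cast hH1r
  have hH0 : (0 : ℝ) < H := by linarith
  have hμ := hFam.mu0
  have hT0 : (0 : ℝ) ≤ T := by positivity
  obtain ⟨k1, k2, k3, k4, k5, k6, k7⟩ := num_UNS H x q hHr hNT.Dbig hNT.DH hNT.q1 hNT.qH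
  obtain ⟨Ex, hExT, hExc, hEx⟩ := hEXC K H T b Ω al q μ ((H : ℝ) ^ 6) ((H : ℝ) ^ 9) hFam hH1
    (by positivity) (by positivity) y0 I x Kc U G0 hTI hU.GT hUsub
  have hKc : (Kc : ℝ) ≤ H := by exact_mod_cast hNT.KcH
  have hExc' : (Ex.card : ℝ) ≤ T / 800 := by
    refine hExc.trans ?_
    calc (Kc : ℝ) * (48 * q * (H : ℝ) ^ 6 * T / (H : ℝ) ^ 9)
        ≤ (H : ℝ) * (48 * (H : ℝ) * (H : ℝ) ^ 6 * T / (H : ℝ) ^ 9) := by
          have := hNT.q1
          have := hNT.qH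
          gcongr
      _ = 48 * T / (H : ℝ) := by
        field_simp
      _ ≤ T / 800 := by
        rw [div_le_div_iff₀ hH0 (by norm_num)]
        nlinarith
  set G : Finset ℕ := G0 \ Ex with hG
  have hGG : G ⊆ G0 := sdiff_subset
  have hGc : (T : ℝ) / 800 < G.card := by
    have h1 : G0.card ≤ G.card + Ex.card := by
      have h2 : G0 ⊆ G ∪ Ex := by
        intro a ha
        by_cases h : a ∈ Ex
        · exact mem_union_right _ h
        · exact mem_union_left _ (mem_sdiff.mpr ⟨ha, h⟩)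
      exact (card_le_card h2).trans (card_union_le _ _)
    have h3 : (G0.card : ℝ) ≤ G.card + Ex.card := by exact_mod_cast h1
    linarith
  have hUG : USet T b Ω al U σ G := ⟨hGG.trans hU.GT, fun l hl => hU.sub l (hGG hl),
    fun l hl => hU.sgn l (hGG hl)⟩
  have hpm : ∀ S : Finset ℕ, ∀ A B : ℕ, 0 ≤ pmS b S Ω A B := by
    intro S A B
    unfold pmS
    refine sum_nonneg (fun ξ _ => sum_nonneg (fun ω _ => ?_))
    split_ifs
    · positivity
    · exact le_rfl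
  have hres := hTLT K H T x Kc N b Ω al q μ Ms U σ G hGS hFam hUG hms hNT
    (by
      intro k hk1 hk2 j hj
      have hjG := mem_sdiff.mp hj
      refine le_trans ?_ (hEx j (hU.GT hjG.1) hjG.2 k hk1 hk2)
      calc ∑ l ∈ G.filter (fun l => cut (2 ^ x) (k + 1) l ≤ j ∧ j < cut (2 ^ x) k l),
            eO H b Ω al U G (2 ^ x) l j
          = ∑ l ∈ G.filter (fun l => cut (2 ^ x) (k + 1) l ≤ j ∧ j < cut (2 ^ x) k l),
            eO H b Ω al U G0 (2 ^ x) l j := by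
            refine sum_congr rfl (fun l hl => ?_)
            have h1 : l ∈ G := (mem_filter.mp hl).1
            have h2 : l ∈ G0 := hGG h1
            unfold eO
            simp only [h1, h2, true_and]
        _ ≤ ∑ l ∈ G0.filter (fun l => cut (2 ^ x) (k + 1) l ≤ j ∧ j < cut (2 ^ x) k l),
            eO H b Ω al U G0 (2 ^ x) l j := by
            apply sum_le_sum_of_subset_of_nonneg
            · exact filter_subset_filter _ hGG
            · intro l _ _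
              unfold eO
              split_ifs
              · exact hpm _ _ _
              · exact le_rfl)
    (by
      intro l hl
      have hlG0 := hGG hl
      have hlT := mem_range.mp (hU.GT hlG0)
      obtain ⟨hLv, hm8, -⟩ := hLVU K H T b Ω al q μ hGS hFam l hlT (U l) (hU.sub l hlG0)
      have hq0 := hNT.q1
      rcases halt l hlG0 with h | ⟨τ, hτ0, hτ1, hτ2⟩
      · exact hZZ K H (al l) 1 b (U l) (12 * q) (tk H x 0 / 2) 1 (Real.exp (-((H : ℝ) ^ 40))) hLv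
          (by linarith) hH1 k1 k2 (Real.exp_pos _).le (Or.inl (hm8.trans (k3 μ hμ.le h)))
      · refine hZZ K H (al l) (H ^ 122 * 2 ^ x) b (U l) (12 * q) (tk H x 0 / 2) τ
          (Real.exp (-((H : ℝ) ^ 40))) hLv (by linarith) hH1 k1 k2 (Real.exp_pos _).le
          (Or.inr ⟨k4, k5, ?_, k6, hτ2, ?_, k7⟩)
        · have := hmass l hlG0
          linarith
        · push_cast
          exact hτ1)
  -- the lower bound
  have hcs := cs_UNS K H T N b Ω al q μ U σ G hFam hUG hH1 hcN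
  have hlow : s0 / (1.28e8 * (H : ℝ) ^ 2) ≤ ∑ l ∈ G, ms b (U l) := by
    have h1 : (G.card : ℝ) * (μ / 200) ≤ ∑ l ∈ G, ms b (U l) := by
      rw [← nsmul_eq_mul]
      exact card_nsmul_le_sum _ _ _ (fun l hl => hmass l (hGG hl))
    refine le_trans ?_ h1
    rw [div_le_iff₀ (by positivity)]
    have h2 : (T : ℝ) / 800 * (μ / 200) ≤ G.card * (μ / 200) := by gcongr
    have h3 : 800 * (H : ℝ) ^ 2 * (T * μ) = (T : ℝ) / 800 * (μ / 200) * (1.28e8 * (H : ℝ) ^ 2) := by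
      ring
    calc s0 ≤ 800 * (H : ℝ) ^ 2 * (T * μ) := hkeep
      _ = (T : ℝ) / 800 * (μ / 200) * (1.28e8 * (H : ℝ) ^ 2) := h3
      _ ≤ G.card * (μ / 200) * (1.28e8 * (H : ℝ) ^ 2) := by gcongr
  have hN1 : (1 : ℝ) ≤ N := by exact_mod_cast hNT.N1
  have hN0 : (0 : ℝ) < N := by linarith
  have h1 : (s0 / (1.28e8 * (H : ℝ) ^ 2)) ^ 2 ≤ (∑ l ∈ G, ms b (U l)) ^ 2 :=
    pow_le_pow_left₀ (by positivity) hlow 2
  have h2 : (N : ℝ) / H / (1.28e8 ^ 2 * (H : ℝ) ^ 4) ≤ (s0 / (1.28e8 * (H : ℝ) ^ 2)) ^ 2 := by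
    rw [div_pow, mul_pow, ← pow_mul]
    gcongr
  have h3 : (N : ℝ) / H / (1.28e8 ^ 2 * (H : ℝ) ^ 4) ≤ N * ∑ l ∈ G, ∑ ξ ∈ U l, b ξ ^ 2 :=
    h2.trans (h1.trans hcs)
  have h4 : (N : ℝ) * ∑ l ∈ G, ∑ ξ ∈ U l, b ξ ^ 2 < N * (1 / (H : ℝ) ^ 8) :=
    mul_lt_mul_of_pos_left hres hN0
  have h5 : (N : ℝ) * (1 / (H : ℝ) ^ 8) ≤ (N : ℝ) / H / (1.28e8 ^ 2 * (H : ℝ) ^ 4) := by
    rw [mul_one_div, div_div, div_le_div_iff₀ (by positivity) (by positivity)]
    apply mul_le_mul_of_nonneg_left _ hN0.le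
    calc (H : ℝ) * (1.28e8 ^ 2 * (H : ℝ) ^ 4) = 1.28e8 ^ 2 * (H : ℝ) ^ 5 := by ring
      _ ≤ (H : ℝ) ^ 3 * (H : ℝ) ^ 5 := by
        gcongr
        calc (1.28e8 : ℝ) ^ 2 ≤ (10 ^ 20) ^ 3 := by norm_num
          _ ≤ (H : ℝ) ^ 3 := by gcongr
      _ = (H : ℝ) ^ 8 := by ring
  linarith

end Pool.Agent.Helper56.OS
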