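import Pool.Agent.Helper56.OS.StC

set_option autoImplicit false

open Finset

namespace Pool.Agent.Helper56.OS

/-- rank in a finite set of naturals -/
private def rk_WIN (Ls : Finset ℕ) (a : ℕ) : ℕ := (Ls.filter (fun x => x < a)).card

private lemma rk_add_WIN (Ls : Finset ℕ) {a b : ℕ} (hab : a ≤ b) :
    rk_WIN Ls b = rk_WIN Ls a + (Ls.filter (fun x => a ≤ x ∧ x < b)).card := by
  unfold rk_WIN
  rw [← Finset.card_union_of_disjoint]
  · congr 1
    ext x
    simp only [Finset.mem_filter, Finset.mem_union]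
    constructor
    · rintro ⟨h1, h2⟩
      by_cases h : x < a
      · exact Or.inl ⟨h1, h⟩
      · exact Or.inr ⟨h1, by omega, h2⟩
    · rintro (⟨h1, h2⟩ | ⟨h1, h2, h3⟩)
      · exact ⟨h1, by omega⟩
      · exact ⟨h1, h3⟩
  · rw [Finset.disjoint_left]
    intro x h1 h2
    simp only [Finset.mem_filter] at h1 h2
    omega

private lemma rk_le_WIN (Ls : Finset ℕ) {a b : ℕ} (hab : a ≤ b) :
    rk_WIN Ls b ≤ rk_WIN Ls a + (b - a) := by
  rw [rk_add_WIN Ls hab]
  have h : (Ls.filter (fun x => a ≤ x ∧ x < b)).card ≤ (Ico a b).card := by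
    refine Finset.card_le_card fun x hx => ?_
    simp only [Finset.mem_filter] at hx
    exact Finset.mem_Ico.mpr hx.2
  rw [Nat.card_Ico] at h
  omega

private lemma rk_lt_WIN (Ls : Finset ℕ) {a b : ℕ} (ha : a ∈ Ls) (hab : a < b) :
    rk_WIN Ls a < rk_WIN Ls b := by
  rw [rk_add_WIN Ls hab.le]
  have h : 0 < (Ls.filter (fun x => a ≤ x ∧ x < b)).card :=
    Finset.card_pos.mpr ⟨a, by simp [ha, hab]⟩
  omega

private lemma rk_card_WIN (Ls : Finset ℕ) {a : ℕ} (ha : a ∈ Ls) : rk_WIN Ls a < Ls.card := by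
  unfold rk_WIN
  refine Finset.card_lt_card ?_
  rw [Finset.ssubset_iff_of_subset (Finset.filter_subset _ _)]
  exact ⟨a, ha, by simp⟩

private lemma rk_inj_WIN (Ls : Finset ℕ) : Set.InjOn (rk_WIN Ls) (Ls : Set ℕ) := by
  intro a ha b hb h
  rcases lt_trichotomy a b with h1 | h1 | h1
  · exact absurd h (rk_lt_WIN Ls ha h1).ne
  · exact h1
  · exact absurd h (rk_lt_WIN Ls hb h1).ne'

private lemma rk_image_WIN (Ls : Finset ℕ) : Ls.image (rk_WIN Ls) = range Ls.card := by
  refine Finset.eq_of_subset_of_card_le ?_ ?_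
  · intro k hk
    obtain ⟨a, ha, rfl⟩ := Finset.mem_image.mp hk
    exact Finset.mem_range.mpr (rk_card_WIN Ls ha)
  · rw [Finset.card_image_of_injOn (rk_inj_WIN Ls), Finset.card_range]

private lemma card_win_WIN (Ls : Finset ℕ) (X j : ℕ) (hX : 1 ≤ X) (hj : j < Ls.card / X) :
    (Ls.filter (fun a => rk_WIN Ls a / X = j)).card = X := by
  have h1 : (Ls.filter (fun a => rk_WIN Ls a / X = j)).card =
      ((Ls.filter (fun a => rk_WIN Ls a / X = j)).image (rk_WIN Ls)).card := by
    rw [Finset.card_image_of_injOn]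
    intro a ha b hb h
    exact rk_inj_WIN Ls (Finset.mem_filter.mp ha).1 (Finset.mem_filter.mp hb).1 h
  have h2 : (Ls.filter (fun a => rk_WIN Ls a / X = j)).image (rk_WIN Ls) = Ico (j * X) (j * X + X) := by
    ext k
    simp only [Finset.mem_image, Finset.mem_filter, Finset.mem_Ico]
    constructor
    · rintro ⟨a, ⟨_, h3⟩, rfl⟩
      have h4 := Nat.div_add_mod (rk_WIN Ls a) X
      have h5 := Nat.mod_lt (rk_WIN Ls a) (show 0 < X by omega)
      rw [h3, mul_comm] at h4
      omega
    · rintro ⟨h3, h4⟩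
      have h5 : (j + 1) * X ≤ Ls.card := by
        have h6 : j + 1 ≤ Ls.card / X := hj
        calc (j + 1) * X ≤ (Ls.card / X) * X := Nat.mul_le_mul_right _ h6
          _ ≤ Ls.card := Nat.div_mul_le_self _ _
      have h6 : k ∈ Ls.image (rk_WIN Ls) := by
        rw [rk_image_WIN, Finset.mem_range]
        have : (j + 1) * X = j * X + X := by ring
        omega
      obtain ⟨a, ha, rfl⟩ := Finset.mem_image.mp h6
      refine ⟨a, ⟨ha, ?_⟩, rfl⟩
      rw [Nat.div_eq_of_lt_le]
      · exact h3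
      · have : (j + 1) * X = j * X + X := by ring
        omega
  rw [h1, h2, Nat.card_Ico]
  omega

theorem p_WIN : St_WIN := by
  classical
  intro X H Ls Hv Et Phi g o hX hH hPhi hg ho hmain
  by_contra hcon
  push Not at hcon
  set J := Ls.card / X with hJ
  let W : ℕ → Finset ℕ := fun j => Ls.filter (fun a => rk_WIN Ls a / X = j)
  have hWL : ∀ j, W j ⊆ Ls := fun j => Finset.filter_subset _ _
  have hWc : ∀ j < J, (W j).card = X := fun j hj => card_win_WIN Ls X j hX hj
  have hne : ∀ j < J, (W j).Nonempty := by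
    intro j hj
    rw [← Finset.card_pos, hWc j hj]
    omega
  have hWr : ∀ j, ∀ a ∈ W j, j * X ≤ rk_WIN Ls a ∧ rk_WIN Ls a < j * X + X := by
    intro j a ha
    have h3 := (Finset.mem_filter.mp ha).2
    have h4 := Nat.div_add_mod (rk_WIN Ls a) X
    have h5 := Nat.mod_lt (rk_WIN Ls a) (show 0 < X by omega)
    rw [h3, mul_comm] at h4
    omega
  -- intervals
  let A1 : ℕ → ℕ := fun j => if h : (W j).Nonempty then (W j).min' h else 0
  let M : ℕ → ℕ := fun j => if h : (W j).Nonempty then (W j).max' h else 0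
  have hA1 : ∀ j < J, A1 j ∈ W j ∧ ∀ a ∈ W j, A1 j ≤ a := by
    intro j hj
    have h := hne j hj
    simp only [A1, dif_pos h]
    exact ⟨Finset.min'_mem _ _, fun a ha => Finset.min'_le _ _ ha⟩
  have hM : ∀ j < J, M j ∈ W j ∧ ∀ a ∈ W j, a ≤ M j := by
    intro j hj
    have h := hne j hj
    simp only [M, dif_pos h]
    exact ⟨Finset.max'_mem _ _, fun a ha => Finset.le_max' _ _ ha⟩
  have hwin : ∀ j < J, ∑ a ∈ W j, Phi a ≤ ∑ a ∈ W j, g a +
      ∑ e ∈ Et.filter (fun e => A1 j ≤ e ∧ e ≤ M j + H + 1), o e +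
      3 * X * (Hv.filter (fun e => A1 j ≤ e ∧ e ≤ M j + H + 1)).card := by
    intro j hj
    refine hcon (W j) (hWL j) (hWc j hj) (A1 j) (M j + H + 1) (hA1 j hj).1 ?_ ?_
    · intro a ha
      exact ⟨(hA1 j hj).2 a ha, by have := (hM j hj).2 a ha; omega⟩
    · intro a ha
      have h1 := (hA1 j hj).2 a ha
      have h2 := rk_add_WIN Ls h1
      have h3 := hWr j a ha
      have h4 := hWr j (A1 j) (hA1 j hj).1
      omega
  -- separation of the intervals
  have hsep : ∀ j k, j < J → k < J → j + 2 ≤ k → M j + H + 1 < A1 k := by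
    intro j k hj hk hjk
    have h1 := hWr j (M j) (hM j hj).1
    have h2 := hWr k (A1 k) (hA1 k hk).1
    have h3 : (j + 2) * X ≤ k * X := Nat.mul_le_mul_right _ hjk
    have h4 : (j + 2) * X = j * X + 2 * X := by ring
    by_contra hlt
    rw [not_lt] at hlt
    rcases le_total (M j) (A1 k) with h5 | h5
    · have h6 := rk_le_WIN Ls h5
      omega
    · have h6 := rk_add_WIN Ls h5
      omega
  -- every e is in at most two intervals
  have hmult : ∀ e, ((range J).filter (fun j => A1 j ≤ e ∧ e ≤ M j + H + 1)).card ≤ 2 := by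
    intro e
    set S := (range J).filter (fun j => A1 j ≤ e ∧ e ≤ M j + H + 1) with hS
    by_cases hSe : S.Nonempty
    · have h1 : S ⊆ {S.min' hSe, S.min' hSe + 1} := by
        intro k hk
        have h2 := Finset.min'_le S k hk
        have h3 := Finset.min'_mem S hSe
        set m := S.min' hSe
        rw [hS, Finset.mem_filter, Finset.mem_range] at hk h3
        by_contra h4
        simp only [Finset.mem_insert, Finset.mem_singleton] at h4
        have h5 := hsep m k h3.1 hk.1 (by omega)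
        omega
      exact (Finset.card_le_card h1).trans Finset.card_le_two
    · rw [Finset.not_nonempty_iff_eq_empty.mp hSe]
      simp
  -- sums
  have hdis : ∀ (u : ℕ → ℝ), ∑ j ∈ range J, ∑ a ∈ W j, u a =
      ∑ a ∈ Ls.filter (fun a => rk_WIN Ls a / X < J), u a := by
    intro u
    rw [← Finset.sum_fiberwise_of_maps_to (s := Ls.filter (fun a => rk_WIN Ls a / X < J))
      (t := range J) (g := fun a => rk_WIN Ls a / X)
      (fun a ha => Finset.mem_range.mpr (Finset.mem_filter.mp ha).2)]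
    refine Finset.sum_congr rfl fun j hj => ?_
    refine Finset.sum_congr ?_ fun _ _ => rfl
    ext a
    simp only [W, Finset.mem_filter]
    rw [Finset.mem_range] at hj
    constructor
    · rintro ⟨h1, h2⟩
      exact ⟨⟨h1, by omega⟩, h2⟩
    · rintro ⟨⟨h1, _⟩, h2⟩
      exact ⟨h1, h2⟩
  have hswap : ∀ (T : Finset ℕ) (u : ℕ → ℝ), (∀ e, 0 ≤ u e) →
      ∑ j ∈ range J, ∑ e ∈ T.filter (fun e => A1 j ≤ e ∧ e ≤ M j + H + 1), u e ≤ 2 * ∑ e ∈ T, u e := by
    intro T u hu
    have h1 : ∑ j ∈ range J, ∑ e ∈ T.filter (fun e => A1 j ≤ e ∧ e ≤ M j + H + 1), u e =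
        ∑ e ∈ T, (((range J).filter (fun j => A1 j ≤ e ∧ e ≤ M j + H + 1)).card : ℝ) * u e := by
      simp_rw [Finset.sum_filter]
      rw [Finset.sum_comm]
      refine Finset.sum_congr rfl fun e _ => ?_
      rw [← Finset.sum_filter, Finset.sum_const, nsmul_eq_mul]
    rw [h1, Finset.mul_sum]
    refine Finset.sum_le_sum fun e _ => ?_
    have h2 : (((range J).filter (fun j => A1 j ≤ e ∧ e ≤ M j + H + 1)).card : ℝ) ≤ 2 := by
      exact_mod_cast hmult e
    exact mul_le_mul_of_nonneg_right h2 (hu e)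
  have htot : ∑ j ∈ range J, ∑ a ∈ W j, Phi a ≤ ∑ j ∈ range J, (∑ a ∈ W j, g a +
      ∑ e ∈ Et.filter (fun e => A1 j ≤ e ∧ e ≤ M j + H + 1), o e +
      3 * X * (Hv.filter (fun e => A1 j ≤ e ∧ e ≤ M j + H + 1)).card) :=
    Finset.sum_le_sum fun j hj => hwin j (Finset.mem_range.mp hj)
  rw [Finset.sum_add_distrib, Finset.sum_add_distrib, hdis Phi, hdis g, ← Finset.mul_sum] at htot
  have ho2 := hswap Et o ho
  have hH2 := hswap Hv (fun _ => 1) (fun _ => zero_le_one)
  simp only [Finset.sum_const, nsmul_eq_mul, mul_one] at hH2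
  have hg2 : ∑ a ∈ Ls.filter (fun a => rk_WIN Ls a / X < J), g a ≤ ∑ a ∈ Ls, g a :=
    Finset.sum_le_sum_of_subset_of_nonneg (Finset.filter_subset _ _) (fun a _ _ => hg a)
  -- the incomplete window
  have hrest : ∑ a ∈ Ls, Phi a ≤ ∑ a ∈ Ls.filter (fun a => rk_WIN Ls a / X < J), Phi a + 3 * X := by
    rw [← Finset.sum_filter_add_sum_filter_not Ls (fun a => rk_WIN Ls a / X < J)]
    have h1 : ∑ a ∈ Ls.filter (fun a => ¬ rk_WIN Ls a / X < J), Phi a ≤
        ∑ _a ∈ Ls.filter (fun a => ¬ rk_WIN Ls a / X < J), (3 : ℝ) :=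
      Finset.sum_le_sum fun a ha => (hPhi a (Finset.mem_filter.mp ha).1).2
    rw [Finset.sum_const, nsmul_eq_mul] at h1
    have h2 : (Ls.filter (fun a => ¬ rk_WIN Ls a / X < J)).card ≤ X := by
      have h3 : (Ls.filter (fun a => ¬ rk_WIN Ls a / X < J)).card =
          ((Ls.filter (fun a => ¬ rk_WIN Ls a / X < J)).image (rk_WIN Ls)).card := by
        rw [Finset.card_image_of_injOn]
        intro a ha b hb h
        exact rk_inj_WIN Ls (Finset.mem_filter.mp ha).1 (Finset.mem_filter.mp hb).1 h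
      have h4 : (Ls.filter (fun a => ¬ rk_WIN Ls a / X < J)).image (rk_WIN Ls) ⊆
          Ico (J * X) (J * X + X) := by
        intro k hk
        obtain ⟨a, ha, rfl⟩ := Finset.mem_image.mp hk
        rw [Finset.mem_filter] at ha
        have h5 := rk_card_WIN Ls ha.1
        have h6 : J * X ≤ rk_WIN Ls a := by
          have h7 : J ≤ rk_WIN Ls a / X := by omega
          calc J * X ≤ (rk_WIN Ls a / X) * X := Nat.mul_le_mul_right _ h7
            _ ≤ rk_WIN Ls a := Nat.div_mul_le_self _ _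
        have h8 := Nat.div_add_mod Ls.card X
        have h9 := Nat.mod_lt Ls.card (show 0 < X by omega)
        rw [← hJ, mul_comm] at h8
        exact Finset.mem_Ico.mpr ⟨h6, by omega⟩
      have h10 := Finset.card_le_card h4
      rw [Nat.card_Ico] at h10
      omega
    have h3 : ((Ls.filter (fun a => ¬ rk_WIN Ls a / X < J)).card : ℝ) ≤ X := by exact_mod_cast h2
    linarith
  have hX0 : (0 : ℝ) ≤ 3 * X := by positivity
  have hH3 := mul_le_mul_of_nonneg_left hH2 hX0
  linarith

end Pool.Agent.Helper56.OS
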