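import Pool.Agent.Helper56.OS.StB

/-! # Project OS, module Y0: choice of the shift. -/

set_option autoImplicit false

open Finset

namespace Pool.Agent.Helper56.OS

private lemma sq_nonneg_Y0 (b : ℕ → ℝ) (Ω : Finset ℕ) (al : ℕ → ℕ) (y0 i l : ℕ) :
    0 ≤ sq b Ω al y0 i l := by
  unfold sq
  exact sum_nonneg fun t _ => sq_nonneg _

theorem p_Y0 (hSQI : St_SQI) : St_Y0 := by
  intro K H T b Ω al q μ hGS hFam hH I
  rcases Nat.eq_zero_or_pos T with hT0 | hTpos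
  · subst hT0
    refine ⟨0, fun i _ => ?_⟩
    simp
  have hT : (0 : ℝ) < T := by exact_mod_cast hTpos
  set E := (range T).sup al with hE
  have hal : ∀ j < T, al j ≤ E := fun j hj => Finset.le_sup (f := al) (mem_range.mpr hj)
  set F : ℕ → ℕ → ℝ := fun y0 i =>
    ∑ l ∈ (range T).filter (fun l => 2 * 2 ^ i ≤ l), sq b Ω al y0 i l with hF
  have hF0 : ∀ y0 i, 0 ≤ F y0 i := fun y0 i => sum_nonneg fun l _ => sq_nonneg_Y0 b Ω al y0 i l
  have h1 : ∀ i, ∑ y0 ∈ range (2 ^ E), F y0 i ≤ 32 * 2 ^ E * (T / 2 ^ i) := fun i =>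
    hSQI K H T E b Ω al q μ hGS hFam hH hal i
  have h2 : ∑ y0 ∈ range (2 ^ E), ∑ i ∈ range I, (2 ^ i / (T : ℝ)) * F y0 i ≤
      ∑ y0 ∈ range (2 ^ E), (32 * I : ℝ) := by
    rw [sum_comm]
    have : ∀ i ∈ range I, ∑ y0 ∈ range (2 ^ E), (2 ^ i / (T : ℝ)) * F y0 i ≤ 32 * 2 ^ E := by
      intro i _
      rw [← mul_sum]
      have h2i : (0 : ℝ) < 2 ^ i := by positivity
      calc (2 ^ i / (T : ℝ)) * ∑ y0 ∈ range (2 ^ E), F y0 i
          ≤ (2 ^ i / (T : ℝ)) * (32 * 2 ^ E * (T / 2 ^ i)) :=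
            mul_le_mul_of_nonneg_left (h1 i) (by positivity)
        _ = 32 * 2 ^ E := by field_simp
    refine (sum_le_sum this).trans (le_of_eq ?_)
    simp only [sum_const, card_range, nsmul_eq_mul]
    push_cast
    ring
  obtain ⟨y0, hy0, hle⟩ := exists_le_of_sum_le
    (⟨0, mem_range.mpr (by positivity)⟩ : (range (2 ^ E)).Nonempty) h2
  refine ⟨y0, fun i hi => ?_⟩
  have h3 : (2 ^ i / (T : ℝ)) * F y0 i ≤ 32 * I :=
    (single_le_sum (f := fun i => (2 ^ i / (T : ℝ)) * F y0 i)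
      (fun j _ => mul_nonneg (by positivity) (hF0 y0 j)) (mem_range.mpr hi)).trans hle
  have h2i : (0 : ℝ) < 2 ^ i := by positivity
  have h4 : F y0 i = (2 ^ i / (T : ℝ)) * F y0 i * (T / 2 ^ i) := by field_simp
  calc F y0 i = (2 ^ i / (T : ℝ)) * F y0 i * (T / 2 ^ i) := h4
    _ ≤ 32 * I * (T / 2 ^ i) := mul_le_mul_of_nonneg_right h3 (by positivity)

end Pool.Agent.Helper56.OS
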