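import Pool.Agent.Helper56.OS.StD
import Pool.Agent.Helper57.SN.Top

/-! Project OS, module ZZ: the cut-off functions are `1` almost everywhere. -/

set_option autoImplicit false

open Finset

namespace Pool.Agent.Helper56.OS

open Pool.Agent.Helper57.SN (co si SS dd th Spn stm av BC blk Lv t_th t_Samp)

private theorem abs_SS_le_ZZ (K : ℕ) (b : ℕ → ℝ) (S : Finset ℕ) (y : ℕ) :
    |SS K (fun ω => |b ω|) S y| ≤ ms b S := by
  unfold SS ms
  refine (Finset.abs_sum_le_sum_abs _ _).trans (Finset.sum_le_sum fun ξ _ => ?_)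
  rw [abs_mul, abs_abs]
  calc |b ξ| * |si K ξ y| ≤ |b ξ| * 1 := by
        apply mul_le_mul_of_nonneg_left _ (abs_nonneg _)
        unfold si
        exact Real.abs_sin_le_one _
    _ = |b ξ| := mul_one _

theorem p_ZZ : St_ZZ := by
  classical
  intro K H a s b S B κ τ z hL hB hH hκ hκB hz hcase
  rcases hcase with h1 | ⟨hs1, hs2, hms, hBs, hD, hτ, hz2⟩
  · have e : (fun x : ℕ => 1 - th K H a (fun ω => |b ω|) S κ x) = fun _ => (0 : ℝ) := by
      funext x
      unfold th
      rw [if_pos, sub_self]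
      intro y _
      exact (abs_SS_le_ZZ K b S _).trans h1
    rw [e]
    unfold av
    simpa using hz
  · have hth := t_th K H a (fun ω => |b ω|) S B κ hL hκB hκ
    have hsamp := t_Samp K H a s (fun ω => |b ω|) S B τ (κ / 2) hL hs1 hs2 (by linarith) hms
      (by nlinarith) hD hτ
    obtain ⟨_, h01, _, hcard⟩ := hth
    have hsum : ∑ x ∈ range (2 ^ K), (1 - th K H a (fun ω => |b ω|) S κ x) =
        (((range (2 ^ K)).filter (fun x : ℕ => th K H a (fun ω => |b ω|) S κ x = 0)).card : ℝ) := by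
      rw [Finset.card_filter]
      push_cast
      apply Finset.sum_congr rfl
      intro x _
      rcases h01 x with h | h
      · rw [h]; simp
      · rw [h]; simp
    unfold av
    rw [hsum]
    have hp : (0 : ℝ) < 2 ^ K := by positivity
    rw [div_le_iff₀ hp]
    have e1 : (κ / 2) ^ 2 * s / (8 * B ^ 2) = κ ^ 2 * s / (32 * B ^ 2) := by
      field_simp
      ring
    rw [e1] at hsamp
    calc (((range (2 ^ K)).filter
          (fun x : ℕ => th K H a (fun ω => |b ω|) S κ x = 0)).card : ℝ)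
        ≤ 2 ^ (2 * H) * (((range (2 ^ K)).filter
          (fun x : ℕ => κ / 2 < |SS K (fun ω => |b ω|) S x|)).card : ℝ) := hcard
      _ ≤ 2 ^ (2 * H) * (3 * Real.exp (-(κ ^ 2 * s / (32 * B ^ 2))) * 2 ^ K) :=
          mul_le_mul_of_nonneg_left hsamp (by positivity)
      _ = (2 ^ (2 * H) * (3 * Real.exp (-(κ ^ 2 * s / (32 * B ^ 2))))) * 2 ^ K := by ring
      _ ≤ z * 2 ^ K := mul_le_mul_of_nonneg_right hz2 hp.le

end Pool.Agent.Helper56.OS
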