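import Pool.Agent.Helper56.OS.StD

/-! Project OS: from sine polynomials (`St_TOP`) to partial sums of complex polynomials. -/

set_option autoImplicit false

open Finset

namespace Pool.Agent.Helper56.OS

/-- an odd integer `D` separating the doubled exponents below the cut from those above it -/
theorem red_cut {N : ℕ} (m : Fin N → ℕ) (hm : StrictMono m) (n : ℕ) :
    ∃ D : ℤ, (∀ k : Fin N, (k : ℕ) < n → 2 * (m k : ℤ) < D) ∧
      (∀ k : Fin N, ¬ (k : ℕ) < n → D < 2 * (m k : ℤ)) := by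
  by_cases h : ∃ k : Fin N, (k : ℕ) < n
  · obtain ⟨k0, hk0⟩ := h
    have hne : (univ.filter (fun k : Fin N => (k : ℕ) < n)).Nonempty := ⟨k0, by simp [hk0]⟩
    obtain ⟨k1, hk1, hmax⟩ := exists_max_image _ (fun k : Fin N => (k : ℕ)) hne
    have hk1' : (k1 : ℕ) < n := by simpa using hk1
    refine ⟨2 * (m k1 : ℤ) + 1, ?_, ?_⟩
    · intro k hk
      have h1 : (k : ℕ) ≤ k1 := hmax k (by simp [hk])
      have h2 : m k ≤ m k1 := hm.monotone (by exact_mod_cast h1)
      have : (m k : ℤ) ≤ m k1 := by exact_mod_cast h2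
      linarith
    · intro k hk
      have h1 : (k1 : ℕ) < k := lt_of_lt_of_le hk1' (not_lt.mp hk)
      have h2 : m k1 < m k := hm (by exact_mod_cast h1)
      have : (m k1 : ℤ) + 1 ≤ m k := by exact_mod_cast h2
      linarith
  · push Not at h
    refine ⟨-1, ?_, ?_⟩
    · intro k hk
      exact absurd hk (not_lt.mpr (h k))
    · intro k _
      have : (0 : ℤ) ≤ m k := by positivity
      linarith

/-- the odd part of the rotated polynomial: a sine polynomial bounded by one -/
theorem red_sine {N : ℕ} (a : Fin N → ℂ) (m : Fin N → ℕ)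
    (hP : ∀ z : ℂ, ‖z‖ = 1 → ‖∑ k, a k * z ^ m k‖ ≤ 1) (z w : ℂ) (hz : ‖z‖ = 1) (hw : ‖w‖ = 1)
    (D : ℤ) (x : ℝ) :
    |∑ k, (a k * z ^ m k * (starRingEnd ℂ) w).re * Real.sin (((2 * (m k : ℤ) - D : ℤ) : ℝ) * x)| ≤ 1 := by
  have key : ∀ y : ℝ, ‖∑ k, a k * z ^ m k * (starRingEnd ℂ) w *
      Complex.exp ((((2 * (m k : ℤ) - D : ℤ) : ℝ) * y : ℝ) * Complex.I)‖ ≤ 1 := by
    intro y
    have e1 : ∀ k : Fin N, a k * z ^ m k * (starRingEnd ℂ) w *
        Complex.exp ((((2 * (m k : ℤ) - D : ℤ) : ℝ) * y : ℝ) * Complex.I)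
        = ((starRingEnd ℂ) w * Complex.exp (((-(D : ℝ)) * y : ℝ) * Complex.I)) *
          (a k * (z * Complex.exp (((2 : ℝ) * y : ℝ) * Complex.I)) ^ m k) := by
      intro k
      rw [mul_pow, ← Complex.exp_nat_mul]
      have : Complex.exp ((((2 * (m k : ℤ) - D : ℤ) : ℝ) * y : ℝ) * Complex.I)
          = Complex.exp (((-(D : ℝ)) * y : ℝ) * Complex.I) *
            Complex.exp ((m k : ℂ) * ((((2 : ℝ) * y : ℝ) : ℂ) * Complex.I)) := by
        rw [← Complex.exp_add]
        congr 1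
        push_cast
        ring
      rw [this]
      ring
    rw [sum_congr rfl (fun k _ => e1 k), ← mul_sum, norm_mul, norm_mul, RCLike.norm_conj, hw,
      Complex.norm_exp_ofReal_mul_I]
    simp only [one_mul]
    refine hP _ ?_
    rw [norm_mul, hz, Complex.norm_exp_ofReal_mul_I, one_mul]
  have h1 := key x
  have h2 := key (-x)
  set t : Fin N → ℂ := fun k => a k * z ^ m k * (starRingEnd ℂ) w with ht
  set f : Fin N → ℝ := fun k => ((2 * (m k : ℤ) - D : ℤ) : ℝ) with hf
  have h3 : (∑ k, t k * Complex.exp (((f k * x : ℝ) : ℂ) * Complex.I))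
      - (∑ k, t k * Complex.exp (((f k * (-x) : ℝ) : ℂ) * Complex.I))
      = 2 * Complex.I * ∑ k, t k * ((Real.sin (f k * x) : ℝ) : ℂ) := by
    rw [← sum_sub_distrib, mul_sum]
    refine sum_congr rfl (fun k _ => ?_)
    rw [Complex.exp_mul_I, Complex.exp_mul_I, ← Complex.ofReal_cos, ← Complex.ofReal_cos,
      ← Complex.ofReal_sin, ← Complex.ofReal_sin]
    rw [mul_neg, Real.cos_neg, Real.sin_neg]
    push_cast
    ring
  have h4 : ‖2 * Complex.I * ∑ k, t k * ((Real.sin (f k * x) : ℝ) : ℂ)‖ ≤ 1 + 1 := by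
    rw [← h3]
    exact (norm_sub_le _ _).trans (add_le_add h1 h2)
  have h5 : ‖∑ k, t k * ((Real.sin (f k * x) : ℝ) : ℂ)‖ ≤ 1 := by
    rw [norm_mul, norm_mul, Complex.norm_I] at h4
    simp only [Complex.norm_ofNat, mul_one] at h4
    linarith
  have h6 : ∑ k, (t k).re * Real.sin (f k * x) = (∑ k, t k * ((Real.sin (f k * x) : ℝ) : ℂ)).re := by
    rw [Complex.re_sum]
    refine sum_congr rfl (fun k _ => ?_)
    rw [Complex.re_mul_ofReal]
  rw [h6]
  exact (Complex.abs_re_le_norm _).trans h5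

/-- the basic reduction: a bound `B` for all sine polynomials with at most `N` frequencies gives the
bound `(B + 1) / 2` for the partial sums -/
theorem red_basic {N : ℕ} (a : Fin N → ℂ) (m : Fin N → ℕ) (hm : StrictMono m)
    (hP : ∀ z : ℂ, ‖z‖ = 1 → ‖∑ k, a k * z ^ m k‖ ≤ 1) (B : ℝ) (hB0 : 0 ≤ B)
    (hB : ∀ (Ω : Finset ℕ) (b : ℕ → ℝ), Ω.card ≤ N → (∀ ω ∈ Ω, 1 ≤ ω) →
      (∀ x : ℝ, |∑ ω ∈ Ω, b ω * Real.sin (ω * x)| ≤ 1) → ∑ ω ∈ Ω, b ω ≤ B)
    (n : ℕ) (z : ℂ) (hz : ‖z‖ = 1) :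
    ‖∑ k ∈ univ.filter (fun k : Fin N => (k : ℕ) < n), a k * z ^ m k‖ ≤ (B + 1) / 2 := by
  classical
  set P : ℂ := ∑ k ∈ univ.filter (fun k : Fin N => (k : ℕ) < n), a k * z ^ m k with hPdef
  by_cases hP0 : P = 0
  · rw [hP0, norm_zero]; linarith
  have hPn : 0 < ‖P‖ := norm_pos_iff.mpr hP0
  set w : ℂ := P / ‖P‖ with hw
  have hPc : (‖P‖ : ℂ) ≠ 0 := by exact_mod_cast hPn.ne'
  have hw1 : ‖w‖ = 1 := by
    rw [hw, norm_div, Complex.norm_real, norm_norm, div_self hPn.ne']
  have hPw : (P * (starRingEnd ℂ) w).re = ‖P‖ := by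
    have h1 : P * (starRingEnd ℂ) w = (‖P‖ : ℂ) := by
      rw [hw, map_div₀, Complex.conj_ofReal, mul_div_assoc', Complex.mul_conj, Complex.normSq_eq_norm_sq]
      push_cast
      rw [pow_two, mul_div_assoc, div_self hPc, mul_one]
    rw [h1, Complex.ofReal_re]
  set c : Fin N → ℝ := fun k => if (k : ℕ) < n then (a k * z ^ m k * (starRingEnd ℂ) w).re
    else -(a k * z ^ m k * (starRingEnd ℂ) w).re with hc
  obtain ⟨D, hD1, hD2⟩ := red_cut m hm n
  set f : Fin N → ℤ := fun k => 2 * (m k : ℤ) - D with hf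
  have hsin : ∀ x : ℝ, |∑ k, c k * Real.sin (((f k).natAbs : ℝ) * x)| ≤ 1 := by
    intro x
    have h := red_sine a m hP z w hz hw1 D x
    have e : ∀ k : Fin N, (a k * z ^ m k * (starRingEnd ℂ) w).re * Real.sin (((2 * (m k : ℤ) - D : ℤ) : ℝ) * x)
        = -(c k * Real.sin (((f k).natAbs : ℝ) * x)) := by
      intro k
      by_cases hk : (k : ℕ) < n
      · have hc1 : c k = (a k * z ^ m k * (starRingEnd ℂ) w).re := by simp [hc, hk]
        have hneg : f k < 0 := by
          have := hD1 k hk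
          simp only [hf]
          linarith
        have e3 : (((f k).natAbs : ℝ)) = -((f k : ℤ) : ℝ) := by
          rw [Nat.cast_natAbs, abs_of_neg hneg, Int.cast_neg]
        rw [hc1, e3, neg_mul, Real.sin_neg]
        simp only [hf]
        ring
      · have hc1 : c k = -(a k * z ^ m k * (starRingEnd ℂ) w).re := by simp [hc, hk]
        have hpos : 0 < f k := by
          have := hD2 k hk
          simp only [hf]
          linarith
        have e3 : (((f k).natAbs : ℝ)) = ((f k : ℤ) : ℝ) := by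
          rw [Nat.cast_natAbs, abs_of_pos hpos]
        rw [hc1, e3]
        simp only [hf]
        ring
    rw [sum_congr rfl (fun k _ => e k), sum_neg_distrib, abs_neg] at h
    exact h
  have hfpos : ∀ k, 1 ≤ (f k).natAbs := by
    intro k
    have : f k ≠ 0 := by
      by_cases hk : (k : ℕ) < n
      · have := hD1 k hk
        simp only [hf]
        omega
      · have := hD2 k hk
        simp only [hf]
        omega
    omega
  set Ω : Finset ℕ := univ.image (fun k : Fin N => (f k).natAbs) with hΩ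
  set b : ℕ → ℝ := fun ω => ∑ k with (f k).natAbs = ω, c k with hb
  have hΩcard : Ω.card ≤ N := by
    refine le_trans (card_image_le) ?_
    simp
  have hmaps : ∀ k ∈ (univ : Finset (Fin N)), (f k).natAbs ∈ Ω := fun k _ => by
    rw [hΩ]; exact mem_image_of_mem _ (mem_univ _)
  have hgroup : ∀ x : ℝ, ∑ ω ∈ Ω, b ω * Real.sin (ω * x) = ∑ k, c k * Real.sin (((f k).natAbs : ℝ) * x) := by
    intro x
    rw [← sum_fiberwise_of_maps_to hmaps (fun k => c k * Real.sin (((f k).natAbs : ℝ) * x))]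
    refine sum_congr rfl (fun ω _ => ?_)
    simp only [hb]
    rw [sum_mul]
    refine sum_congr rfl (fun k hk => ?_)
    have : (f k).natAbs = ω := by simpa using hk
    rw [this]
  have hsumb : ∑ ω ∈ Ω, b ω = ∑ k, c k := by
    rw [← sum_fiberwise_of_maps_to hmaps (fun k => c k)]
  have hfin := hB Ω b hΩcard
    (fun ω hω => by
      rw [hΩ, mem_image] at hω
      obtain ⟨k, _, rfl⟩ := hω
      exact hfpos k)
    (fun x => by rw [hgroup x]; exact hsin x)
  rw [hsumb] at hfin
  -- `2 Re (P_n conj w) = Σ c + Re (P conj w)`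
  have hall : ((∑ k, a k * z ^ m k) * (starRingEnd ℂ) w).re ≤ 1 := by
    refine (Complex.re_le_norm _).trans ?_
    rw [norm_mul, RCLike.norm_conj, hw1, mul_one]
    exact hP z hz
  have e1 : ((∑ k, a k * z ^ m k) * (starRingEnd ℂ) w).re =
      ∑ k, (a k * z ^ m k * (starRingEnd ℂ) w).re := by
    rw [sum_mul, Complex.re_sum]
  have e2 : (P * (starRingEnd ℂ) w).re =
      ∑ k : Fin N, if (k : ℕ) < n then (a k * z ^ m k * (starRingEnd ℂ) w).re else 0 := by
    rw [hPdef, sum_mul, Complex.re_sum, sum_filter]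
  have e3 : ∑ k, c k = 2 * (P * (starRingEnd ℂ) w).re - ((∑ k, a k * z ^ m k) * (starRingEnd ℂ) w).re := by
    rw [e1, e2, mul_sum, ← sum_sub_distrib]
    refine sum_congr rfl (fun k _ => ?_)
    by_cases hk : (k : ℕ) < n
    · simp only [hc, hk, if_true]; ring
    · simp only [hc, hk, if_false]; ring
  rw [e3, hPw] at hfin
  linarith

/-- **the reduction**: `St_TOP` gives the theorem for the partial sums of all complex polynomials -/
theorem red (h : St_TOP) : ∃ C : ℝ, 0 < C ∧ ∀ (N : ℕ), 3 ≤ N → ∀ (a : Fin N → ℂ) (m : Fin N → ℕ),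
    StrictMono m → (∀ z : ℂ, ‖z‖ = 1 → ‖∑ k, a k * z ^ m k‖ ≤ 1) →
    ∀ (n : ℕ) (z : ℂ), ‖z‖ = 1 →
      ‖∑ k ∈ univ.filter (fun k : Fin N => (k : ℕ) < n), a k * z ^ m k‖ ≤
        C * Real.sqrt N / Real.log (Real.log N) := by
  obtain ⟨N0, hN0, hmain⟩ := h
  have hloglog : ∀ N : ℕ, 3 ≤ N → 0 < Real.log (Real.log N) := by
    intro N hN
    apply Real.log_pos
    have h3 : (3 : ℝ) ≤ N := by exact_mod_cast hN
    have : Real.log (Real.exp 1) < Real.log N := by
      apply Real.log_lt_log (Real.exp_pos 1)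
      have := Real.exp_one_lt_d9
      linarith
    rwa [Real.log_exp] at this
  set L0 : ℝ := Real.log (Real.log N0) with hL0
  have hL0p : 0 < L0 := hloglog N0 hN0
  set B0 : ℝ := 10 ^ 6 * Real.sqrt N0 / L0 with hB0
  have hB0p : 0 ≤ B0 := by positivity
  refine ⟨10 ^ 6 + 2 + L0 * (B0 + 1), by positivity, ?_⟩
  intro N hN a m hm hP n z hz
  have hNr : (3 : ℝ) ≤ N := by exact_mod_cast hN
  have hLp := hloglog N hN
  set L : ℝ := Real.log (Real.log N) with hL
  have hsq1 : 1 ≤ Real.sqrt N := by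
    rw [show (1 : ℝ) = Real.sqrt 1 by simp]
    exact Real.sqrt_le_sqrt (by linarith)
  rw [le_div_iff₀ hLp]
  rcases le_total N0 N with h | h
  · -- large N
    have h1 := red_basic a m hm hP (10 ^ 6 * Real.sqrt N / L) (by positivity)
      (fun Ω b h1 h2 h3 => hmain N h Ω b h1 h2 h3) n z hz
    have hLs : L ≤ 2 * Real.sqrt N := by
      have hlogN : 0 < Real.log N := Real.log_pos (by linarith)
      have e1 : L ≤ Real.log N := by
        have := Real.log_le_sub_one_of_pos hlogN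
        linarith
      have e2 : Real.log N ≤ 2 * Real.sqrt N := by
        have hs : 0 < Real.sqrt N := by linarith
        have e3 : Real.log N = 2 * Real.log (Real.sqrt N) := by
          rw [Real.log_sqrt (by linarith)]; ring
        have := Real.log_le_sub_one_of_pos hs
        linarith
      linarith
    calc ‖∑ k ∈ univ.filter (fun k : Fin N => (k : ℕ) < n), a k * z ^ m k‖ * L
        ≤ ((10 ^ 6 * Real.sqrt N / L + 1) / 2) * L := by gcongr
      _ = (10 ^ 6 * Real.sqrt N + L) / 2 := by field_simp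
      _ ≤ (10 ^ 6 + 2) * Real.sqrt N := by linarith
      _ ≤ (10 ^ 6 + 2 + L0 * (B0 + 1)) * Real.sqrt N := by
        have : 0 ≤ L0 * (B0 + 1) := by positivity
        apply mul_le_mul_of_nonneg_right _ (by positivity)
        linarith
  · -- small N
    have h1 := red_basic a m hm hP B0 hB0p
      (fun Ω b h1 h2 h3 => hmain N0 le_rfl Ω b (h1.trans h) h2 h3) n z hz
    have hLL : L ≤ L0 := by
      apply Real.log_le_log
      · exact Real.log_pos (by linarith)
      · apply Real.log_le_log (by linarith)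
        exact_mod_cast h
    calc ‖∑ k ∈ univ.filter (fun k : Fin N => (k : ℕ) < n), a k * z ^ m k‖ * L
        ≤ ((B0 + 1) / 2) * L0 := by gcongr
      _ ≤ (10 ^ 6 + 2 + L0 * (B0 + 1)) * 1 := by
        have : 0 ≤ L0 * (B0 + 1) := by positivity
        linarith
      _ ≤ (10 ^ 6 + 2 + L0 * (B0 + 1)) * Real.sqrt N := by
        have : 0 ≤ L0 * (B0 + 1) := by positivity
        gcongr

end Pool.Agent.Helper56.OS
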