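import Pool.Agent.Helper56.OS.StA
import Pool.Agent.Helper56.OS.StB
import Pool.Agent.Helper56.OS.StC
import Pool.Agent.Helper57.SN.StD

/-! # Project OS, statements D: the tilt applied to a family; the structured half; assembly. -/

set_option autoImplicit false

open Finset

namespace Pool.Agent.Helper56.OS

open Pool.Agent.Helper57.SN (co si SS dd th Spn stm av BC blk Lv IsFil)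
open Pool.Agent.Helper56.SS (Fil Dat Hyp E)

open Classical in
/-- the data of the tilt of a family: `u_l = σ_l dd(|b|, U l)` for `l ∈ G` -/
noncomputable def datS (K H : ℕ) (b : ℕ → ℝ) (Ω : Finset ℕ) (al : ℕ → ℕ) (U : ℕ → Finset ℕ)
    (σ : ℕ → ℝ) (κ lam B0 : ℝ) (G : Finset ℕ) (F : Fil (Fin (2 ^ K))) : Dat (Fin (2 ^ K)) where
  F := F
  f := fun w => SS K b Ω w
  D := fun j w => if j ∈ G then σ j * dd K H (al j) (fun ω => |b ω|) (U j) w else 0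
  th := fun j w => if j ∈ G then th K H (al j) (fun ω => |b ω|) (U j) κ w else 1
  G := G
  lam := lam
  kap := 2 * κ
  eta := 0
  B0 := B0

/-- the sets `U l` (`l ∈ G`): one sign `σ l`, inside the octave -/
structure USet (T : ℕ) (b : ℕ → ℝ) (Ω : Finset ℕ) (al : ℕ → ℕ) (U : ℕ → Finset ℕ) (σ : ℕ → ℝ)
    (G : Finset ℕ) : Prop where
  GT : G ⊆ range T
  sub : ∀ l ∈ G, U l ⊆ Oct Ω (al l)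
  sgn : ∀ l ∈ G, (σ l = 1 ∧ ∀ ω ∈ U l, 0 ≤ b ω) ∨ (σ l = -1 ∧ ∀ ω ∈ U l, b ω ≤ 0)

/-- **LVU**: the levels of a family with the coefficients `|b|` and any subset of the octave satisfy
`Lv`, with mass bound `B = 12 q` (`ms (Oct) ≤ Bm ≤ 4 q Ph`, `Ph ≤ 3`). -/
def St_LVU : Prop := ∀ (K H T : ℕ) (b : ℕ → ℝ) (Ω : Finset ℕ) (al : ℕ → ℕ) (q μ : ℝ), GS K b Ω →
  FamS K H T b Ω al q μ → ∀ l < T, ∀ S ⊆ Oct Ω (al l), Lv K H (al l) (fun ω => |b ω|) S (12 * q) ∧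
    ms b S ≤ 8 * q * μ ∧ μ < 3

/-- **HYS** (hypotheses of the abstract theorem; as `SN.St_hyp`, proof in `SN.M_hyp`).  `SN.St_dict` turns
`F.C j`, `F.Meas j` into `blk (K - al j + H)`, `BC`.  For `l ∈ G`: `dd` is constant on blocks of length
`2^(K - al l - H)`, hence on the blocks of time `l + 1` (`al (l+1) ≥ al l + 4H`; points if
`l + 1 = T`); its coarse block averages vanish; `|dd| ≤ 2B`; `th` by `SN.St_th`. -/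
def St_HYS : Prop := ∀ (K H T : ℕ) (b : ℕ → ℝ) (Ω : Finset ℕ) (al : ℕ → ℕ) (q μ : ℝ)
  (U : ℕ → Finset ℕ) (σ : ℕ → ℝ) (G : Finset ℕ) (F : Fil (Fin (2 ^ K))) (κ lam : ℝ), GS K b Ω →
  FamS K H T b Ω al q μ → USet T b Ω al U σ G → IsFil K H T al F → 1 ≤ H → 0 < κ →
  52 * (12 * q) / 2 ^ H ≤ κ → 1 ≤ lam → lam * (2 * κ) ≤ 1 / 4 →
  HypS (datS K H b Ω al U σ κ lam (24 * q) G F)

/-- **CTS** (the cuts; uses `St_INC`, `SN.St_P4`, `S_CCS`, `SN.St_dict`).  `e = eO`,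
`D = 2^x`.  For `l, j ∈ G`, `j < cut D 1 l ≤ l - D` (so `j + 1 < l`): `St_INC` and `SN.St_P4` with `a1 = al j`,
`a2 = al (j+1)`, `a = al l`; `pm2 |b| S ≤ pmS b S Ω` (`S ⊆ Ω`); `σ² = 1`, `|σ| = 1`.  `top`: `l < T ≤ 2^(x+K'-1+1)`. -/
def St_CTS : Prop := ∀ (K H T : ℕ) (b : ℕ → ℝ) (Ω : Finset ℕ) (al : ℕ → ℕ) (q μ Ms : ℝ)
  (U : ℕ → Finset ℕ) (σ : ℕ → ℝ) (G : Finset ℕ) (F : Fil (Fin (2 ^ K))) (κ lam : ℝ) (x Kc : ℕ)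
  (t : ℕ → ℝ) (M : ℕ → ℝ), GS K b Ω →
  FamS K H T b Ω al q μ → USet T b Ω al U σ G → IsFil K H T al F → 1 ≤ H → ms b Ω ≤ Ms →
  1 ≤ Kc → T ≤ 2 ^ (x + Kc) → t 0 = 2 * κ → (∀ k < Kc, 0 < t k) → (∀ k, 0 ≤ M k) →
  (∀ k, 1 ≤ k → k < Kc → ∀ j ∈ G,
    (∑ l ∈ G.filter (fun l => cut (2 ^ x) (k + 1) l ≤ j ∧ j < cut (2 ^ x) k l),
      eO H b Ω al U G (2 ^ x) l j) ≤ M k) →
  CutsS (datS K H b Ω al U σ κ lam (24 * q) G F) (2 ^ x) Kc t (eO H b Ω al U G (2 ^ x))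
    ((200 * (12 * q) ^ 2 + 54 * (12 * q) + 8 * (12 * q) * Ms) / 2 ^ H) M

/-- **ZZ** (the cut-off functions are `1` almost everywhere).  Either the mass of `U` is at most `κ`
(then `th = 1` everywhere) or `U` satisfies the condition of `SN.St_Samp` with `s` samples; then by
`SN.St_th` and `SN.St_Samp` (applied with `κ/2`) the number of the points with `th = 0` is at most
`2^(2H) * 3 exp(-(κ/2)² s/(8 B²)) * 2^K`. -/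
def St_ZZ : Prop := ∀ (K H a s : ℕ) (b : ℕ → ℝ) (S : Finset ℕ) (B κ τ z : ℝ),
  Lv K H a (fun ω => |b ω|) S B → 0 < B → 1 ≤ H → 0 < κ → 52 * B / 2 ^ H ≤ κ → 0 ≤ z →
  (ms b S ≤ κ ∨ (1 ≤ s ∧ s ≤ 2 ^ H ∧ 0 < ms b S ∧ 160 * B ^ 2 ≤ s * κ ^ 2 ∧
    (∀ D ⊆ S, D.card < s → stm (fun ω => |b ω|) S D ≤ τ) ∧ 10 * s * τ ≤ ms b S ∧
    2 ^ (2 * H) * (3 * Real.exp (-(κ ^ 2 * s / (32 * B ^ 2)))) ≤ z)) →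
  av K (fun x => 1 - th K H a (fun ω => |b ω|) S κ x) ≤ z

/-- the numbers of the tilt: `y = H` (real), `D = 2^x`, `λ = y^9`, `h = y^18`, `ε = y^(-28)`, `s = y^30`,
`om = exp (-y²/8)`, `δ = y^(-37)`, `t_k = y^(-39)/√(4 D 2^k)`, `Q = y^6`, `R = y^9` -/
structure NT (H x T Kc N : ℕ) (q Ms : ℝ) : Prop where
  Hbig : (10 : ℝ) ^ 20 ≤ H
  Dbig : (H : ℝ) ^ 200 ≤ 2 ^ x
  DH : ((2 : ℝ) ^ x) ^ 100 ≤ 2 ^ H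
  NH : (N : ℝ) ^ 50 ≤ 2 ^ H
  N1 : 1 ≤ N
  q1 : 1 ≤ q
  qH : q ≤ H
  TN : T ≤ 2 * N
  KcH : Kc ≤ H
  Kc1 : 1 ≤ Kc
  TKc : T ≤ 2 ^ (x + Kc)
  MsN : Ms ≤ 2 * N
  Ms0 : 0 ≤ Ms

/-- threshold `t_k` -/
noncomputable def tk (H x k : ℕ) : ℝ := 1 / ((H : ℝ) ^ 39 * Real.sqrt (4 * (2 ^ x * 2 ^ k)))

/-- **NUM** (numerical facts for the tilt).  Write `y = H ≥ 10^20`, `D = 2^x ≥ y^200`, `g = |G| ≤ T ≤ 2N`.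
`κ = tk 0/2`.  `4 D 2^k λ² t_k² = y^(-60)`, so the exponent in (b) is `-y²/4 + 5 ≤ -y²/8`.
(c): every summand is at most `(y^9/(D 2^(k-1)) + g tau) y^9 y^39 √(8 D 2^(k-1)) (5 y^18)`, i.e.
`≤ 15 y^75/√D + tiny`; there are at most `y` of them; `√D ≥ y^100`.  All terms with `1/2^H` or `om` or
`z^(…) ≤ exp(-y³/2)` are at most `2^(-H/2)` times a polynomial in `N`, `D`, `y`, hence `≤ y^(-20)`. -/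
def St_NUM : Prop := ∀ (H x T Kc N : ℕ) (q Ms : ℝ), NT H x T Kc N q Ms → ∀ g : ℝ, 0 ≤ g → g ≤ T →
  ∀ y κ lam h ε s om δ z tau : ℝ, y = H → κ = tk H x 0 / 2 → lam = y ^ 9 → h = y ^ 18 →
  ε = 1 / y ^ 28 → s = y ^ 30 → om = Real.exp (-(y ^ 2 / 8)) → δ = 1 / y ^ 37 →
  z = Real.exp (-(y ^ 40)) →
  tau = (200 * (12 * q) ^ 2 + 54 * (12 * q) + 8 * (12 * q) * Ms) / 2 ^ H →
  (0 < κ ∧ 52 * (12 * q) / 2 ^ H ≤ κ ∧ 1 ≤ lam ∧ lam * (2 * κ) ≤ 1 / 4 ∧ 2 ≤ s ∧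
    s * (lam * (2 * κ)) ≤ 1 / 4 ∧ 0 < ε ∧ ε ≤ 1 / 4 ∧ 8 * Kc * ε ≤ 1 ∧ 0 < h ∧ 0 < δ ∧ δ ≤ 1 / 4 ∧
    δ * (lam ^ 2 * (h + (2 * κ) ^ 2)) ≤ 1) ∧
  (∀ k < Kc, Real.exp (-(s * ε / 4) + 5 * s ^ 2 * (4 * ((2 ^ x : ℕ) * 2 ^ k) *
    (lam ^ 2 * tk H x k ^ 2))) ≤ om) ∧
  (∑ k ∈ Ico 1 Kc, (y ^ 9 / 2 ^ (x + k - 1) + g * tau) *
    (lam / tk H x k * (2 * (h + (2 * κ) ^ 2) + g * ((2 * κ) ^ 2 * om))) ≤ 1 / y ^ 20) ∧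
  (∀ E2 : ℝ, E2 ≤ 1 + g * (81 * (12 * q) ^ 2 / 2 ^ H) →
    2 * (E2 + 1 / y ^ 20 + g * (4 * Kc * (om * (24 * q) ^ 2))) ≤ 3) ∧
  (2 / lam + g * (3 * (24 * q) * z ^ (δ / (1 + δ))) + 3 / Real.sqrt h + 1 / y ^ 20 +
    g * (4 * Kc * (om * (24 * q))) +
    2 * ε * Kc * (Real.sqrt (20 + 124 * (lam ^ 2 * (h + (2 * κ) ^ 2))) * Real.sqrt 3) +
    g * (27 * (12 * q) / 2 ^ H) < 1 / (2 * y ^ 8))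

/-- **TLT** (the tilt for the set `G`; uses `S_FIN2` and its ingredients, `St_LVU`, `St_HYS`, `St_CTS`,
`St_GA0`, `St_NUM`, `SN.St_exFil`, `SN.St_dict`, `St_PHI`).  Apply `S_FIN2` to `datS` with `κ = tk 0/2`,
the numbers of `NT`, `M k = y^9/2^(x+k-1)`, `Vu = 3`, `Er = y^(-20)`.
`Σ_{l ∈ G} E (D_l²) ≤ (1/2) Σ_{l ∈ G} Σ_{U l} b² + |G| 81 B²/2^H ≤ 1 + …` (the octaves are disjoint,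
`Σ_Ω b² ≤ 2`).  `Σ_l E (f u_l) ≥ (1/2) Σ_l Σ_{U l} b² - |G| 27 B/2^H`. -/
def St_TLT : Prop := ∀ (K H T x Kc N : ℕ) (b : ℕ → ℝ) (Ω : Finset ℕ) (al : ℕ → ℕ) (q μ Ms : ℝ)
  (U : ℕ → Finset ℕ) (σ : ℕ → ℝ) (G : Finset ℕ), GS K b Ω → FamS K H T b Ω al q μ →
  USet T b Ω al U σ G → ms b Ω ≤ Ms → NT H x T Kc N q Ms →
  (∀ k, 1 ≤ k → k < Kc → ∀ j ∈ G,
    (∑ l ∈ G.filter (fun l => cut (2 ^ x) (k + 1) l ≤ j ∧ j < cut (2 ^ x) k l),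
      eO H b Ω al U G (2 ^ x) l j) ≤ (H : ℝ) ^ 9 / 2 ^ (x + k - 1)) →
  (∀ l ∈ G, av K (fun w => 1 - th K H (al l) (fun ω => |b ω|) (U l) (tk H x 0 / 2) w) ≤
    Real.exp (-((H : ℝ) ^ 40))) →
  ∑ l ∈ G, ∑ ξ ∈ U l, b ξ ^ 2 < 1 / (H : ℝ) ^ 8

open Classical in
/-- **UNS** (few unstructured levels; uses `St_EXC`, `St_ZZ`, `St_TLT`, `St_LVU`).  `s` samples,
`s = (number of samples) = ⌈y^122⌉ * 2^x`, i.e. `s = H^122 * 2^x`.  Suppose `|G0| > T/400`.  Remove the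
exceptional levels of `St_EXC` (`Q = y^6`, `R = y^9`, `Kc ≤ y`: at most `48 y y y^6 T/y^9 ≤ T/800` of
them): `G`, `|G| ≥ T/800`.  `St_ZZ` with `B = 12 q`, `κ = tk 0/2`: in the first case (mass `≤ 2^(-x)·8q ≤ κ`)
or in the second (`κ² s/(32 B²) ≥ y^41`).  `St_TLT`: `Σ_{l∈G} Σ_{U l} b² < y^(-8)`.  But by Cauchy–Schwarz
(the `U l` are disjoint subsets of `Ω`, `|Ω| ≤ N`)
`Σ_{l∈G} Σ_{U l} b² ≥ (|G| μ/200)²/N ≥ (T μ/160000)²/N ≥ (s0/(1.28e8 y²))²/N`, and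
`s0² ≥ N/y`. -/
def St_UNS : Prop := ∀ (K H T x Kc N I : ℕ) (b : ℕ → ℝ) (Ω : Finset ℕ) (al : ℕ → ℕ) (q μ Ms s0 : ℝ)
  (y0 : ℕ) (U : ℕ → Finset ℕ) (σ : ℕ → ℝ) (G0 : Finset ℕ), GS K b Ω → FamS K H T b Ω al q μ →
  USet T b Ω al U σ G0 → ms b Ω ≤ Ms → NT H x T Kc N q Ms → Ω.card ≤ N → T ≤ 2 ^ I →
  0 < s0 → (N : ℝ) / H ≤ s0 ^ 2 → s0 ≤ 800 * (H : ℝ) ^ 2 * (T * μ) →
  (∀ l ∈ G0, U l ⊆ Oct Ω (al l) \ NS b Ω al ((H : ℝ) ^ 6) μ y0 I l x) →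
  (∀ l ∈ G0, μ / 200 ≤ ms b (U l)) →
  (∀ l ∈ G0, μ ≤ 1 / 2 ^ x ∨ ∃ τ : ℝ, 0 < τ ∧
    10 * ((H : ℝ) ^ 122 * 2 ^ x) * τ ≤ ms b (U l) ∧
    ∀ D ⊆ U l, D.card < H ^ 122 * 2 ^ x → stm (fun ω => |b ω|) (U l) D ≤ τ) →
  (G0.card : ℝ) ≤ T / 400

/-- common hypotheses of the modules FM2, FM3: numbers, family, small number of lossy levels -/
structure FH (K H T x Kc N I : ℕ) (b : ℕ → ℝ) (Ω : Finset ℕ) (al : ℕ → ℕ) (q μ Ms s0 : ℝ) : Prop where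
  gs : GS K b Ω
  fs : FamS K H T b Ω al q μ
  mass : ms b Ω ≤ Ms
  nt : NT H x T Kc N q Ms
  cN : Ω.card ≤ N
  TI : T ≤ 2 ^ I
  s0pos : 0 < s0
  s0N : (N : ℝ) / H ≤ s0 ^ 2
  keep : s0 ≤ 800 * (H : ℝ) ^ 2 * (T * μ)

open Classical in
/-- **FM1** (far property; uses `St_FAR`, `S_CCS`).  Let `c = cc (2^i0) l`.  If `l < 2 * 2^i0` the set is
empty.  Otherwise `l - c ≥ 2^i0` and at most `2^i0 - 2` indices `l' < l` have `al l' ≥ abot`; `al` is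
increasing, so `al c`, `al (c+1) < abot` and `al c + 4H ≤ al (c+1)`, `2^(al c) ≤ 2^(abot - 4H)`.
`St_FAR` and `cst ≤ Ph/100`. -/
def St_FM1 : Prop := ∀ (K H T : ℕ) (b : ℕ → ℝ) (Ω : Finset ℕ) (al : ℕ → ℕ) (q μ Q : ℝ),
  FamS K H T b Ω al q μ → 1 ≤ H → ∀ (y0 I l i0 abot : ℕ), l < T →
  cst b Ω al Q μ y0 I l ≤ Ph b Ω (al l) / 100 → abot ≤ al l →
  ((range l).filter (fun l' => abot ≤ al l')).card + 2 ≤ 2 ^ i0 →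
  ∀ (C : ℕ → ℝ) (o : ℝ), 0 ≤ o → (∀ ω ∈ Ω, |C ω| ≤ 1) →
  (∀ ω ∈ Ω, ∀ ω' ∈ Ω, |(ω : ℤ) - ω'| ≤ 2 ^ (abot - 4 * H) → |C ω - C ω'| ≤ o) →
  |∑ ω ∈ NS b Ω al Q μ y0 I l i0, b ω * C ω| ≤ Ph b Ω (al l) / 100 + o * Bm b Ω (al l)

open Classical in
/-- **FML** (choice of `y0`; uses `St_Y0`, `St_LOSS`).  `Q = y^6`, `I ≤ y`, `q ≤ y`:
`100 I T √(768 q I/y^6) ≤ 2800 T/y ≤ T/400`. -/
def St_FML : Prop := ∀ (K H T I : ℕ) (b : ℕ → ℝ) (Ω : Finset ℕ) (al : ℕ → ℕ) (q μ : ℝ), GS K b Ω →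
  FamS K H T b Ω al q μ → (10 : ℝ) ^ 20 ≤ H → q ≤ H → I ≤ H → ∃ y0 : ℕ,
  ((((range T).filter (fun l => Ph b Ω (al l) / 100 <
    cst b Ω al ((H : ℝ) ^ 6) μ y0 I l)).card : ℕ) : ℝ) ≤ T / 400

open Classical in
/-- **FM2** (no families with small masses; uses `St_FAR`, `St_PHB`, `St_UNS`).  Suppose `μ ≤ 1/2^x`.  Let
`G0` be the set of the levels `l < T` with `cst ≤ Ph/100`, `|G0| ≥ T - T/400`.  For `l ∈ G0`, with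
`S = Oct Ω (al l) \ NS … l x`: `St_FAR` with `C = phi(·/2^(al l))`, `o = 2 * 2^(al c)/2^(al l)
≤ 2^(1-4H)` (Lipschitz) gives `|Σ_{NS} b phi| ≤ Ph/100 + 2^(1-4H) Bm ≤ .02 Ph`; `phi` vanishes outside the
octave, so `Σ_S b phi ≥ .98 Ph`, `ms S ≥ .98 Ph`, and one of the parts `{b ≥ 0}`, `{b < 0}` of `S`, `U l`,
has mass `≥ .49 Ph ≥ μ/200`.  `St_UNS` (first alternative) gives `|G0| ≤ T/400`, so `T = 0`. -/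
def St_FM2 : Prop := ∀ (K H T x Kc N I : ℕ) (b : ℕ → ℝ) (Ω : Finset ℕ) (al : ℕ → ℕ) (q μ Ms s0 : ℝ)
  (y0 : ℕ), FH K H T x Kc N I b Ω al q μ Ms s0 → 0 < T →
  ((((range T).filter (fun l => Ph b Ω (al l) / 100 <
    cst b Ω al ((H : ℝ) ^ 6) μ y0 I l)).card : ℕ) : ℝ) ≤ T / 400 → 1 / 2 ^ x < μ

open Classical in
/-- **FM3** (few levels are unstructured; uses `St_DICH`, `St_UNS`, `St_PHI`).  Let `Un` be the set of the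
`l < T` such that every `D ⊆ S_l = Oct Ω (al l) \ NS … l x` with `|D| ≤ 2^(4x)` has
`Σ_{S_l, ¬ Spn 1 D} |b| > Ph/100`.  For `l ∈ Un`: `St_DICH` with `M = Bm ≤ 4 q Ph`, `β = Ph/100`,
`s = H^122 2^x`, `τ = Ph/(2000 s)`, `r = 2^(4x)` (`s M/τ ≤ 8000 q s² ≤ 2^(4x)`): `U l`, `ms (U l) ≥ Ph/200 > μ/200`,
`10 s τ = Ph/200 ≤ ms (U l)`.  `St_UNS` with `G0 = Un` (second alternative). -/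
def St_FM3 : Prop := ∀ (K H T x Kc N I : ℕ) (b : ℕ → ℝ) (Ω : Finset ℕ) (al : ℕ → ℕ) (q μ Ms s0 : ℝ)
  (y0 : ℕ), FH K H T x Kc N I b Ω al q μ Ms s0 →
  ∃ Un ⊆ range T, (Un.card : ℝ) ≤ T / 400 ∧ ∀ l < T, l ∉ Un →
    ∃ D ⊆ Oct Ω (al l) \ NS b Ω al ((H : ℝ) ^ 6) μ y0 I l x, D.card ≤ 2 ^ (4 * x) ∧
      ∑ ω ∈ (Oct Ω (al l) \ NS b Ω al ((H : ℝ) ^ 6) μ y0 I l x).filter
        (fun ω : ℕ => ¬ Spn 1 D (ω : ℤ)), |b ω| ≤ Ph b Ω (al l) / 100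

open Classical in
/-- **FAM** (the theorem on one family, in terms of exponents `a ∈ F`; uses `St_FM1`, `St_FML`,
`St_FM2`, `St_FM3`, `St_FAR` (first part)).  List `F` increasingly: `T = |F|`, `al = Nat.nth (· ∈ F)`,
index of `a ∈ F`: `Nat.count (· ∈ F) a`.  `FamS`.  `I = Kc = Nat.log 2 (2N) + 1 ≤ H`.  `y0` from `St_FML`,
`Q = y^6`; `Nn a i0 = NS … (index of a) i0` for `a ∈ F`; `Los` = the lossy levels.  `NS` is decreasing in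
`i0` by definition. -/
def St_FAM : Prop := ∀ (K H N : ℕ) (b : ℕ → ℝ) (Ω F : Finset ℕ) (q μ Ms s0 : ℝ), GS K b Ω →
  Ω.card ≤ N → 1 ≤ N → (10 : ℝ) ^ 20 ≤ H → (N : ℝ) ^ 50 ≤ 2 ^ H → 1 ≤ q → q ≤ H → ms b Ω ≤ Ms → Ms ≤ 2 * N →
  0 ≤ Ms → F.Nonempty → F.card ≤ 2 * N → (∀ a ∈ F, ∀ a' ∈ F, a < a' → a + 4 * H ≤ a') →
  (∀ a ∈ F, 2 * H + 8 ≤ a ∧ a + 2 * H + 20 ≤ K ∧ μ < Ph b Ω a ∧ Ph b Ω a ≤ 2 * μ ∧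
    Bm b Ω a ≤ 4 * q * Ph b Ω a) → 0 < μ →
  0 < s0 → (N : ℝ) / H ≤ s0 ^ 2 → s0 ≤ 800 * (H : ℝ) ^ 2 * (F.card * μ) →
  ∃ (Nn : ℕ → ℕ → Finset ℕ) (Los : Finset ℕ), Los ⊆ F ∧ (Los.card : ℝ) ≤ F.card / 400 ∧
    (∀ a ∈ F, ∀ i0 i1, i0 ≤ i1 → Nn a i1 ⊆ Nn a i0 ∧ Nn a i0 ⊆ Ω ∧
      ∀ ω ∈ Nn a i0, 2 ^ a ≤ 4 * ω ∧ ω ≤ 2 ^ (a + 2)) ∧
    (∀ a ∈ F, a ∉ Los → ∀ i0 abot : ℕ, abot ≤ a →
      (F.filter (fun a' => abot ≤ a' ∧ a' < a)).card + 2 ≤ 2 ^ i0 → ∀ (C : ℕ → ℝ) (o : ℝ), 0 ≤ o →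
      (∀ ω ∈ Ω, |C ω| ≤ 1) → (∀ ω ∈ Ω, ∀ ω' ∈ Ω, |(ω : ℤ) - ω'| ≤ 2 ^ (abot - 4 * H) →
        |C ω - C ω'| ≤ o) →
      |∑ ω ∈ Nn a i0, b ω * C ω| ≤ Ph b Ω a / 100 + o * Bm b Ω a) ∧
    ∀ x : ℕ, (H : ℝ) ^ 200 ≤ 2 ^ x → ((2 : ℝ) ^ x) ^ 100 ≤ 2 ^ H →
      1 / 2 ^ x < μ ∧ ∃ Un ⊆ F, (Un.card : ℝ) ≤ F.card / 400 ∧
        ∀ a ∈ F, a ∉ Un → ∃ D ⊆ Oct Ω a \ Nn a x, D.card ≤ 2 ^ (4 * x) ∧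
          ∑ ω ∈ (Oct Ω a \ Nn a x).filter (fun ω : ℕ => ¬ Spn 1 D (ω : ℤ)), |b ω| ≤ Ph b Ω a / 100

/-- mass of the octave `[2^e, 2^(e+1))` -/
noncomputable def ome (b : ℕ → ℝ) (Ω : Finset ℕ) (e : ℕ) : ℝ :=
  ∑ ω ∈ Ω.filter (fun ω : ℕ => 2 ^ e ≤ ω ∧ ω < 2 ^ (e + 1)), |b ω|

/-- **NST** (numbers of the structured half).  `y = H ≥ 10^20`, `D = 2^x ≥ y^200`, `D^100 ≤ 2^H`.  (a) is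
`≤ 1200 y D^6 ≤ D^7`.  (d): `D^14 (1/y²)/(4 D^8) = D^6/(4y²)`, and
`log (4 y²) + n D^4 log (2 D^14) ≤ log(4y²) + 20 D^5 y ≤ D^6/(4 y²)` (`log (2 D^14) ≤ y`). -/
def St_NST : Prop := ∀ (H x : ℕ) (y D : ℝ), y = H → D = 2 ^ x → (10 : ℝ) ^ 20 ≤ y → y ^ 200 ≤ D →
  D ^ 100 ≤ 2 ^ H →
  (3 / 4 * (20 * D) + 5 * (9 * (y * (20 * D * D ^ 4)) * D) + (2 * y + 11) * (3 * (y * (20 * D * D ^ 4))) +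
    8 * y * (20 * D) ≤ 3 * (D ^ 8 / 2) / 40) ∧
  (2 * (H * (20 * 2 ^ x * 2 ^ (4 * x)) + 1) * (2 * 2 ^ (14 * x)) + 1 ≤ 2 ^ H) ∧
  (4 * 2 ^ (4 * x) * 2 ^ (14 * x) ≤ 2 ^ H ∧ 20 * 2 ^ x ≤ 2 ^ H ∧ H + 2 ≤ 2 ^ (9 * x) ∧
    20 * (2 : ℝ) ^ x ≤ D ^ 8 / 6) ∧
  (∀ n : ℕ, (n : ℝ) ≤ 20 * D → 4 * Real.exp (-(((2 ^ (14 * x) : ℕ) : ℝ) * (1 / y ^ 2) /
    (4 * ((2 ^ (4 * x) : ℕ) : ℝ) ^ 2))) ≤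
    (1 / y ^ 2) * (1 / (2 * ((2 ^ (14 * x) : ℕ) : ℝ))) ^ (n * 2 ^ (4 * x)))

open Classical in
/-- **STW** (window and choice of the levels; uses `St_WIN`, `St_SEL`, `St_NST`).  `D = 2^x`, `r = D^4`,
`m = 20 D`, `m0 = D^14`, `X = D^9`.
`Hv = {e : ome e ≥ D^10}`, `|Hv| ≤ Ms/D^10`; `Ei = {e : D ≤ ome e < D^10}`.
`St_WIN` with `g a = 160 near a` for `a ∈ Sg`, `2 Ph a` for `a ∈ Ls \ Sg`, `0` otherwise, `o e = 400 ome e`,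
`Et = Ei`: the condition is the last hypothesis (`6 X |Hv| ≤ 6 Ms/D`).  As `Σ_W Ph ≤ 3X` the window has no
heavy octave in `[A1, A2]`.  `W' = W ∩ Sg`, `S' = Σ_{W'} Ph`: `2 Σ_{W \ Sg} Ph < Σ_W Ph` gives
`S' > Σ_W Ph/2 ≥ X/(2D) = D^8/2`; `Σ_{W'} near < S'/80`; mass of `Ei ∩ [A1, A2]` `< S'/200`.  `St_SEL` for `W'`
(`Ei := Ei ∩ [A1,A2]`, `X1 = D`, `Int = S'/200`; the condition is `2 Σ near ≤ S'/40`, `5 Int ≤ S'/40` and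
`St_NST` (a) with `S' ≥ D^8/2`; `16 |W'| < 20 D S'` as `Ph > 1/D`; `|W'| ≥ S'/3 ≥ 20 D`). -/
def St_STW : Prop := ∀ (K H x : ℕ) (b : ℕ → ℝ) (Ω Ls Sg : Finset ℕ) (Ms : ℝ)
  (Dm : ℕ → Finset ℕ) (near : ℕ → ℝ) (Int : ℝ),
  (10 : ℝ) ^ 20 ≤ H → (H : ℝ) ^ 200 ≤ 2 ^ x → ((2 : ℝ) ^ x) ^ 100 ≤ 2 ^ H →
  ms b Ω ≤ Ms → Sg ⊆ Ls → (∀ ω ∈ Ω, 1 ≤ ω) →
  (∀ a ∈ Ls, 2 * H + 8 ≤ a ∧ a + 2 * H + 20 ≤ K ∧ 1 / 2 ^ x < Ph b Ω a ∧ Ph b Ω a ≤ 3) →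
  (∀ a, 0 ≤ near a) → (∀ a ∈ Sg, Dm a ⊆ Oct Ω a ∧ (Dm a).card ≤ 2 ^ (4 * x)) →
  (∀ Ei : Finset ℕ, (∀ e ∈ Ei, (2 : ℝ) ^ x ≤ ome b Ω e ∧ ome b Ω e < 2 ^ (10 * x)) →
    ∑ e ∈ Ei, ome b Ω e ≤ Int) →
  3 * (2 : ℝ) ^ (9 * x) + 160 * ∑ a ∈ Sg, near a + 2 * ∑ a ∈ Ls \ Sg, Ph b Ω a + 800 * Int +
    6 * Ms / 2 ^ x < ∑ a ∈ Ls, Ph b Ω a →
  ∃ J ⊆ Sg, J.card ≤ 20 * 2 ^ x ∧ (∀ a ∈ J, ∀ a' ∈ J, a < a' → a + 4 * H ≤ a') ∧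
    (∀ a ∈ J, ¬ HitW H (2 ^ (14 * x)) ((J.erase a).biUnion Dm) a) ∧
    (∃ A1 : ℕ, 2 * H + 8 ≤ A1 ∧ A1 + 2 * H + 20 ≤ K ∧ ∀ a ∈ J, A1 ≤ a ∧
      (Ls.filter (fun a' => A1 ≤ a' ∧ a' < a)).card + 2 ≤ 2 ^ (9 * x + 1)) ∧
    2 < ∑ a ∈ J, (Ph b Ω a / 4 - 2 * near a) -
      ∑ ω ∈ Ω.filter (fun ω : ℕ => ∃ a ∈ J, LandN (2 ^ (14 * x)) ((J.erase a).biUnion Dm) a (ω : ℤ)),
        |b ω|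

open Classical in
/-- **STR** (the structured half for one `x`; uses `St_STW`, `St_CORE`, `St_NST`, `St_PHB`, `St_PHI`).
`D = 2^x`.  `J`, `A1` from `St_STW`.  `St_CORE` with `ι = J` (subtype), `r = D^4`, `m0 = D^14`, `ε = 1/y²`,
`e0 = A1 - 2H - 4`, `St a = {ω ∈ Oct \ Fi : Spn 1 (Dm a) ω}`, `Rs a` = rest of `Oct \ Fi`,
`ms (Rs a) ≤ Ph/100 + near`, `cf a = Ph a/100 + 5 * 2^4/2^(2H) * Bm a`: the far property is used with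
`abot = A1`, `o = 5 * 2^(A1-4H)/2^e0 = 5 * 2^4/2^(2H)`.
`Σ_{St a} b phi = Ph a - Σ_{Rs a} b phi - Σ_{Fi a} b phi ≥ Ph a - ms (Rs a) - cf a` (`phi` vanishes
outside the octave; far property with `C = phi(·/2^a)`, `|C ω - C ω'| ≤ 2 |ω-ω'|/2^a`).
So `Σ_{a∈J} (Ph a/3 - (4/3)(ms (Rs a) + cf a) - (ε + 2(|J|+1)/2^H) Bm a) ≤ 1 + (landing mass) + ms(Ω)/2^H`;
`Bm ≤ 4 q Ph`, `800 q ≤ y`: the left side is `≥ Σ (Ph a/4 - 2 near a)`, and `ms(Ω)/2^H ≤ 2N/2^H ≤ 1`: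
contradiction to `2 < …`. -/
def St_STR : Prop := ∀ (K H N x : ℕ) (b : ℕ → ℝ) (Ω Ls Sg : Finset ℕ) (q Ms : ℝ)
  (Dm Fi : ℕ → Finset ℕ) (near : ℕ → ℝ) (Int : ℝ), GS K b Ω →
  (10 : ℝ) ^ 20 ≤ H → (H : ℝ) ^ 200 ≤ 2 ^ x → ((2 : ℝ) ^ x) ^ 100 ≤ 2 ^ H → (N : ℝ) ^ 50 ≤ 2 ^ H →
  1 ≤ N → 1 ≤ q → 800 * q ≤ H → ms b Ω ≤ Ms → Ms ≤ 2 * N → Sg ⊆ Ls →
  (∀ a ∈ Ls, 2 * H + 8 ≤ a ∧ a + 2 * H + 20 ≤ K ∧ 1 / 2 ^ x < Ph b Ω a ∧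
    Bm b Ω a ≤ 4 * q * Ph b Ω a) → (∀ a, 0 ≤ near a) →
  (∀ a ∈ Sg, Fi a ⊆ Ω ∧ (∀ ω ∈ Fi a, 2 ^ a ≤ 4 * ω ∧ ω ≤ 2 ^ (a + 2)) ∧
    Dm a ⊆ Oct Ω a \ Fi a ∧ (Dm a).card ≤ 2 ^ (4 * x) ∧
    ∑ ω ∈ (Oct Ω a \ Fi a).filter (fun ω : ℕ => ¬ Spn 1 (Dm a) (ω : ℤ)), |b ω| ≤
      Ph b Ω a / 100 + near a ∧
    ∀ abot : ℕ, abot ≤ a → (Ls.filter (fun a' => abot ≤ a' ∧ a' < a)).card + 2 ≤ 2 ^ (9 * x + 1) →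
      ∀ (C : ℕ → ℝ) (o : ℝ), 0 ≤ o →
      (∀ ω ∈ Ω, |C ω| ≤ 1) → (∀ ω ∈ Ω, ∀ ω' ∈ Ω, |(ω : ℤ) - ω'| ≤ 2 ^ (abot - 4 * H) →
        |C ω - C ω'| ≤ o) →
      |∑ ω ∈ Fi a, b ω * C ω| ≤ Ph b Ω a / 100 + o * Bm b Ω a) →
  (∀ Ei : Finset ℕ, (∀ e ∈ Ei, (2 : ℝ) ^ x ≤ ome b Ω e ∧ ome b Ω e < 2 ^ (10 * x)) →
    ∑ e ∈ Ei, ome b Ω e ≤ Int) →
  3 * (2 : ℝ) ^ (9 * x) + 160 * ∑ a ∈ Sg, near a + 2 * ∑ a ∈ Ls \ Sg, Ph b Ω a + 800 * Int +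
    6 * Ms / 2 ^ x < ∑ a ∈ Ls, Ph b Ω a →
  False

open Classical in
/-- **CLS** (selection of the families; uses `St_PHI`).  `s = Σ_Ω b > 0`, `5 ms b Ω ≤ q s`.
Good exponents: `2H + 8 ≤ a`, `a + 2H + 20 ≤ K`, `Bm ≤ 4 q Ph`, `Ph > s/(200 N)`.  `Σ_{all a} Ph = s`; low
exponents contribute `≤ 3 (2H + 8) ≤ s/100`; there are no high ones (`ω < 2^(K-2H-21)`); those with
`Bm > 4 q Ph` contribute at most `Σ Bm/(4q) ≤ s/4`; those with `Ph ≤ s/(200 N)` at most `2N s/(200N)`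
(at most `2N` exponents have `Ph ≠ 0`).  Class of a good `a`: `(a mod 4H, j)` with
`3/2^(j+1) < Ph a ≤ 3/2^j`, `j < H` (`600 N/s ≤ 2^H`), coded as a number `cl a < 4 H²`;
`μ = 3/2^(j+1)`.  `Ls` = the good `a` whose class has `2 μ |class| ≥ s/(400 H²)`: the others
contribute at most `4 H² s/(400 H²) = s/100`. -/
def St_CLS : Prop := ∀ (K H N : ℕ) (b : ℕ → ℝ) (Ω : Finset ℕ) (q s : ℝ), GS K b Ω → Ω.card ≤ N → 1 ≤ N →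
  20 ≤ H → (N : ℝ) ^ 50 ≤ 2 ^ H → 1 ≤ q → s = ∑ ω ∈ Ω, b ω → 300 * (2 * H + 8) ≤ s → 5 * ms b Ω ≤ q * s →
  (∀ ω ∈ Ω, ω * 2 ^ (2 * H + 22) ≤ 2 ^ K) →
  ∃ (Ls : Finset ℕ) (cl : ℕ → ℕ) (μ : ℕ → ℝ), s / 2 ≤ ∑ a ∈ Ls, Ph b Ω a ∧ Ls.card ≤ 2 * N ∧
    ∀ a ∈ Ls, 2 * H + 8 ≤ a ∧ a + 2 * H + 20 ≤ K ∧ 0 < μ (cl a) ∧ μ (cl a) < Ph b Ω a ∧
      Ph b Ω a ≤ 2 * μ (cl a) ∧ Bm b Ω a ≤ 4 * q * Ph b Ω a ∧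
      (∀ a' ∈ Ls, cl a' = cl a → a < a' → a + 4 * H ≤ a') ∧
      s ≤ 800 * (H : ℝ) ^ 2 * ((Ls.filter (fun a' => cl a' = cl a)).card * μ (cl a))

open Classical in
/-- **PGN** (pigeonhole).  `Σ_{k<K0} (near_k + int_k) ≤ V`, so some `k` has `near_k + int_k ≤ V/K0`.
Sets: `Nn a i` decreasing in `i`: `Σ_k ms ((Oct ∩ Nn a (x_k)) \ Nn a (x_{k+1})) ≤ ms (Oct)`, and the sets
`{e : 2^(x_k) ≤ om_e < 2^(x_{k+1})}` are disjoint; every `ω` is in at most 2 octaves `Oct Ω a`. -/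
def St_PGN : Prop := ∀ (b : ℕ → ℝ) (Ω Ls : Finset ℕ) (Nn : ℕ → ℕ → Finset ℕ) (x : ℕ → ℕ) (K0 : ℕ),
  1 ≤ K0 → (∀ k, x k ≤ x (k + 1)) → (∀ ω ∈ Ω, 1 ≤ ω) → (∀ a ∈ Ls, ∀ i j, i ≤ j → Nn a j ⊆ Nn a i) →
  ∃ k < K0, ∃ Int : ℝ, 0 ≤ Int ∧
    (∀ Ei : Finset ℕ, (∀ e ∈ Ei, (2 : ℝ) ^ (x k) ≤ ome b Ω e ∧ ome b Ω e < 2 ^ (x (k + 1))) →
      ∑ e ∈ Ei, ome b Ω e ≤ Int) ∧
    ∑ a ∈ Ls, ms b ((Oct Ω a ∩ Nn a (x k)) \ Nn a (x (k + 1))) + Int ≤ 3 * ms b Ω / K0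

/-- **RNG** (numbers for the final step).  `H = 100 (log2 N + 1)`, `x_0 = 200 (log2 H + 1)`,
`x_k = 10^k x_0`.  `2^(x_0) ≥ H^200`.  `K0 = ⌊log log N/10⌋`: `10^K0 ≤ (log N)^(ln 10/10) ≤ (log N)^(1/4)`,
so `8 * 10^K0 x_0 ≤ log2 N` for large `N`, and then `(2^(x_k))^100 ≤ 2^H` for `k ≤ K0`. -/
def St_RNG : Prop := ∃ N0 : ℕ, 3 ≤ N0 ∧ ∀ N : ℕ, N0 ≤ N → ∃ (H x0 K0 : ℕ), 1 ≤ K0 ∧
  (10 : ℝ) ^ 20 ≤ H ∧ (N : ℝ) ^ 50 ≤ 2 ^ H ∧ (H : ℝ) ^ 200 ≤ 2 ^ x0 ∧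
  8 * (10 ^ K0 * x0) ≤ Nat.log 2 N ∧ 1000 * Real.log (Real.log N) ≤ H ∧
  Real.log (Real.log N) ≤ 20 * K0 ∧ 1 ≤ Real.log (Real.log N) ∧ Real.log (Real.log N) ^ 2 ≤ H ∧
  (H : ℝ) ^ 4 ≤ N ^ ((1 : ℝ) / 4) ∧ ∀ k ≤ K0, ((2 : ℝ) ^ (10 ^ k * x0)) ^ 100 ≤ 2 ^ H

/-- **TOP** (final theorem for sine polynomials; uses `St_CLS`, `St_FAM`, `St_STR`, `St_PGN`, `St_RNG`,
`St_PHI`).  Suppose `s = Σ b > 10^6 √N/log log N`, `N ≥ N0`; `Ms = ms b Ω ≤ √N √2` (`Σ b² ≤ 2`), so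
`5 Ms ≤ q s` with `q = 1 + log log N/10^5`.  Choose the grid, `St_CLS`, for every class `St_FAM`
(`F` = the class, `s0 = s`, `s² ≥ N/H`), `Nn a = Nn_{cl a} a`; `St_PGN` with `x_k = 10^k x0`; for this `k`,
`x = x_k`: `Sg` = the levels of `Ls` that are neither lossy nor in `Un`, `Σ_{Ls \ Sg} Ph ≤ (1/100) Σ_{Ls} Ph`
(in every class at most `|F|/200` levels, each at most `2 μ`, against `|F| μ`); `Fi a = Nn a (9x+1)`,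
`near a = ms ((Oct ∩ Nn a x) \ Nn a (9x+1)) ≤ ms((Oct ∩ Nn a x) \ Nn a (10x))`, and `St_STR`. -/
def St_TOP : Prop := ∃ N0 : ℕ, 3 ≤ N0 ∧ ∀ N : ℕ, N0 ≤ N → ∀ (Ω : Finset ℕ) (b : ℕ → ℝ), Ω.card ≤ N →
  (∀ ω ∈ Ω, 1 ≤ ω) → (∀ x : ℝ, |∑ ω ∈ Ω, b ω * Real.sin (ω * x)| ≤ 1) →
  ∑ ω ∈ Ω, b ω ≤ 10 ^ 6 * Real.sqrt N / Real.log (Real.log N)

end Pool.Agent.Helper56.OS
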