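import Pool.Agent.Helper56.OS.M_STP
import Pool.Agent.Helper56.OS.M_QV
import Pool.Agent.Helper56.OS.M_POS
import Pool.Agent.Helper56.OS.M_TWO
import Pool.Agent.Helper56.OS.M_TEL2
import Pool.Agent.Helper56.OS.M_STP2
import Pool.Agent.Helper56.OS.M_MOM2
import Pool.Agent.Helper56.OS.M_HOL2
import Pool.Agent.Helper56.OS.M_DLT
import Pool.Agent.Helper56.OS.M_ENT
import Pool.Agent.Helper56.OS.M_ORTH
import Pool.Agent.Helper56.OS.M_CCS
import Pool.Agent.Helper56.OS.M_HYB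
import Pool.Agent.Helper56.OS.M_FU
import Pool.Agent.Helper56.OS.M_CHN
import Pool.Agent.Helper56.OS.M_SUME
import Pool.Agent.Helper56.OS.M_STL
import Pool.Agent.Helper56.OS.M_GN2
import Pool.Agent.Helper56.OS.M_LOS
import Pool.Agent.Helper56.OS.M_FIN2
import Pool.Agent.Helper56.OS.M_LAW
import Pool.Agent.Helper56.OS.M_PHB
import Pool.Agent.Helper56.OS.M_PHI
import Pool.Agent.Helper56.OS.M_CAR
import Pool.Agent.Helper56.OS.M_SQI
import Pool.Agent.Helper56.OS.M_Y0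
import Pool.Agent.Helper56.OS.M_LBC
import Pool.Agent.Helper56.OS.M_CSB
import Pool.Agent.Helper56.OS.M_LOSS
import Pool.Agent.Helper56.OS.M_MAXI
import Pool.Agent.Helper56.OS.M_FAR
import Pool.Agent.Helper56.OS.M_NB
import Pool.Agent.Helper56.OS.M_DICH
import Pool.Agent.Helper56.OS.M_ES
import Pool.Agent.Helper56.OS.M_EXC
import Pool.Agent.Helper56.OS.M_INC
import Pool.Agent.Helper56.OS.M_GA0
import Pool.Agent.Helper56.OS.M_PR2
import Pool.Agent.Helper56.OS.M_FEJ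
import Pool.Agent.Helper56.OS.M_OSC
import Pool.Agent.Helper56.OS.M_SHP
import Pool.Agent.Helper56.OS.M_PHS
import Pool.Agent.Helper56.OS.M_BHR
import Pool.Agent.Helper56.OS.M_CF1
import Pool.Agent.Helper56.OS.M_CF2
import Pool.Agent.Helper56.OS.M_CF3
import Pool.Agent.Helper56.OS.M_CF4
import Pool.Agent.Helper56.OS.M_CFG
import Pool.Agent.Helper56.OS.M_CORE
import Pool.Agent.Helper56.OS.M_OCC
import Pool.Agent.Helper56.OS.M_HIT
import Pool.Agent.Helper56.OS.M_LND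
import Pool.Agent.Helper56.OS.M_SEL
import Pool.Agent.Helper56.OS.M_WIN
import Pool.Agent.Helper56.OS.M_LVU
import Pool.Agent.Helper56.OS.M_HYS
import Pool.Agent.Helper56.OS.M_CTS
import Pool.Agent.Helper56.OS.M_ZZ
import Pool.Agent.Helper56.OS.M_NUM
import Pool.Agent.Helper56.OS.M_FM1
import Pool.Agent.Helper56.OS.M_FML
import Pool.Agent.Helper56.OS.M_NST
import Pool.Agent.Helper56.OS.M_PGN
import Pool.Agent.Helper56.OS.M_RNG
import Pool.Agent.Helper56.OS.M_CLS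
import Pool.Agent.Helper56.OS.M_TLT
import Pool.Agent.Helper56.OS.M_UNS
import Pool.Agent.Helper56.OS.M_FM2
import Pool.Agent.Helper56.OS.M_FM3
import Pool.Agent.Helper56.OS.M_FAM
import Pool.Agent.Helper56.OS.M_STW
import Pool.Agent.Helper56.OS.M_STR
import Pool.Agent.Helper56.OS.M_TOP
import Pool.Agent.Helper56.OS.Red
import Pool.Agent.Helper56.SS.M_NEG
import Pool.Agent.Helper56.SS.M_NEAR
import Pool.Agent.Helper56.SS.M_TEL
import Pool.Agent.Helper56.SS.M_BIG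

/-! # Project OS: assembly of all modules. -/

set_option autoImplicit false

namespace Pool.Agent.Helper56.OS

theorem t_STP : S_STP := p_STP
theorem t_QV : S_QV := p_QV
theorem t_POS : S_POS := p_POS
theorem t_TWO : S_TWO := p_TWO
theorem t_TEL2 : S_TEL2 := p_TEL2
theorem t_STP2 : S_STP2 := p_STP2
theorem t_MOM2 : S_MOM2 := p_MOM2
theorem t_HOL2 : S_HOL2 := p_HOL2
theorem t_DLT : S_DLT := p_DLT
theorem t_ENT : S_ENT := p_ENT
theorem t_ORTH : S_ORTH := p_ORTH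
theorem t_CCS : S_CCS := p_CCS
theorem t_HYB : S_HYB := p_HYB
theorem t_FU : S_FU := p_FU
theorem t_CHN : S_CHN := p_CHN
theorem t_SUME : S_SUME := p_SUME
theorem t_STL : S_STL := p_STL
theorem t_GN2 : S_GN2 := p_GN2
theorem t_LOS : S_LOS := p_LOS
theorem t_FIN2 : S_FIN2 := p_FIN2 Pool.Agent.Helper56.SS.m_neg Pool.Agent.Helper56.SS.m_near Pool.Agent.Helper56.SS.m_tel Pool.Agent.Helper56.SS.m_big t_POS t_TWO t_TEL2 t_STP2 t_CCS t_CHN t_SUME t_STP t_QV t_MOM2 t_HOL2 t_DLT t_ENT t_ORTH t_HYB t_FU t_STL t_GN2 t_LOS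
theorem t_LAW : St_LAW := p_LAW
theorem t_PHB : St_PHB := p_PHB
theorem t_PHI : St_PHI := p_PHI t_LAW t_PHB
theorem t_CAR : St_CAR := p_CAR t_LAW t_PHB
theorem t_SQI : St_SQI := p_SQI t_CAR t_CCS
theorem t_Y0 : St_Y0 := p_Y0 t_SQI
theorem t_LBC : St_LBC := p_LBC t_CCS
theorem t_CSB : St_CSB := p_CSB t_LBC
theorem t_LOSS : St_LOSS := p_LOSS t_CSB
theorem t_MAXI : St_MAXI := p_MAXI
theorem t_FAR : St_FAR := p_FAR t_MAXI t_CCS
theorem t_NB : St_NB := p_NB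
theorem t_DICH : St_DICH := p_DICH
theorem t_ES : St_ES := p_ES t_NB t_CCS
theorem t_EXC : St_EXC := p_EXC t_ES t_CCS
theorem t_INC : St_INC := p_INC
theorem t_GA0 : St_GA0 := p_GA0
theorem t_PR2 : St_PR2 := p_PR2
theorem t_FEJ : St_FEJ := p_FEJ
theorem t_OSC : St_OSC := p_OSC
theorem t_SHP : St_SHP := p_SHP
theorem t_PHS : St_PHS := p_PHS t_PHB
theorem t_BHR : St_BHR := p_BHR
theorem t_CF1 : St_CF1 := p_CF1 t_LAW t_PHB t_FEJ
theorem t_CF2 : St_CF2 := p_CF2 t_BHR t_FEJ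
theorem t_CF3 : St_CF3 := p_CF3 t_SHP t_PHS
theorem t_CF4 : St_CF4 := p_CF4 t_SHP t_PHS t_PHB
theorem t_CFG : St_CFG := p_CFG t_CF1 t_CF2 t_CF3 t_CF4 t_PR2 t_OSC t_PHB
theorem t_CORE : St_CORE := p_CORE t_CFG
theorem t_OCC : St_OCC := p_OCC
theorem t_HIT : St_HIT := p_HIT t_OCC
theorem t_LND : St_LND := p_LND t_OCC
theorem t_SEL : St_SEL := p_SEL t_HIT t_LND
theorem t_WIN : St_WIN := p_WIN
theorem t_LVU : St_LVU := p_LVU t_PHI
theorem t_HYS : St_HYS := p_HYS t_LVU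
theorem t_CTS : St_CTS := p_CTS t_LVU t_INC t_CCS
theorem t_ZZ : St_ZZ := p_ZZ
theorem t_NUM : St_NUM := p_NUM
theorem t_FM1 : St_FM1 := p_FM1 t_FAR t_CCS
theorem t_FML : St_FML := p_FML t_Y0 t_LOSS
theorem t_NST : St_NST := p_NST
theorem t_PGN : St_PGN := p_PGN
theorem t_RNG : St_RNG := p_RNG
theorem t_CLS : St_CLS := p_CLS t_PHI t_PHB
theorem t_TLT : St_TLT := p_TLT t_FIN2 t_LVU t_HYS t_CTS t_GA0 t_NUM t_PHI
theorem t_UNS : St_UNS := p_UNS t_EXC t_ZZ t_TLT t_LVU t_CCS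
theorem t_FM2 : St_FM2 := p_FM2 t_FAR t_PHB t_PHI t_UNS
theorem t_FM3 : St_FM3 := p_FM3 t_DICH t_PHI t_UNS
theorem t_FAM : St_FAM := p_FAM t_FM1 t_FML t_FM2 t_FM3 t_FAR
theorem t_STW : St_STW := p_STW t_WIN t_SEL t_NST
theorem t_STR : St_STR := p_STR t_STW t_CORE t_NST t_PHB t_PHI
theorem t_TOP : St_TOP := p_TOP t_CLS t_FAM t_STR t_PGN t_RNG t_PHI

end Pool.Agent.Helper56.OS
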